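import Pool.Agent.Lib.H81.Gold.Decomp

/-!
# Spherical caps (chunk P)
-/

noncomputable section

open MeasureTheory Metric Set
open scoped RealInnerProductSpace Pointwise

namespace Gold

/-- The Euclidean plane. -/
abbrev E2 := EuclideanSpace ℝ (Fin 2)

/-- Height and horizontal part of a point. -/
def split3 (x : E3) : ℝ × E2 := (x 0, WithLp.toLp 2 (fun i : Fin 2 => x i.succ))

theorem mp_split3 : MeasurePreserving split3 (volume : Measure E3) (volume : Measure (ℝ × E2)) := by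
  have h1 : MeasurePreserving (@WithLp.ofLp 2 (Fin 3 → ℝ)) := PiLp.volume_preserving_ofLp (Fin 3)
  have h2 : MeasurePreserving (MeasurableEquiv.piFinSuccAbove (fun _ : Fin 3 => ℝ) 0) :=
    volume_preserving_piFinSuccAbove (fun _ : Fin 3 => ℝ) 0
  have h3 : MeasurePreserving (Prod.map (id : ℝ → ℝ) (@WithLp.toLp 2 (Fin 2 → ℝ))) volume volume :=
    (MeasurePreserving.id volume).prod (PiLp.volume_preserving_toLp (Fin 2))
  have h4 := h3.comp (h2.comp h1)
  have : split3 = (Prod.map (id : ℝ → ℝ) (@WithLp.toLp 2 (Fin 2 → ℝ))) ∘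
      ((MeasurableEquiv.piFinSuccAbove (fun _ : Fin 3 => ℝ) 0) ∘ (@WithLp.ofLp 2 (Fin 3 → ℝ))) := by
    funext x
    simp only [split3, Function.comp, Prod.map, id]
    rfl
  rw [this]
  exact h4

theorem normsq_split (x : E3) : ‖x‖ ^ 2 = (split3 x).1 ^ 2 + ‖(split3 x).2‖ ^ 2 := by
  rw [normsq3, EuclideanSpace.norm_sq_eq]
  simp [split3, Fin.sum_univ_two]
  ring

/-- The sector in cylindrical coordinates. -/
def Tsec (k : ℝ) : Set (ℝ × E2) :=
  {p | p.1 ^ 2 + ‖p.2‖ ^ 2 ≤ 1 ∧ Real.sqrt (p.1 ^ 2 + ‖p.2‖ ^ 2) * k ≤ p.1}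

theorem isClosed_Tsec (k : ℝ) : IsClosed (Tsec k) := by
  have h1 : IsClosed {p : ℝ × E2 | p.1 ^ 2 + ‖p.2‖ ^ 2 ≤ 1} :=
    isClosed_le (by fun_prop) (by fun_prop)
  have h2 : IsClosed {p : ℝ × E2 | Real.sqrt (p.1 ^ 2 + ‖p.2‖ ^ 2) * k ≤ p.1} :=
    isClosed_le (by fun_prop) (by fun_prop)
  exact h1.inter h2

/-- slice of the sector at height `z`. -/
theorem slice_low {k z : ℝ} (hk0 : 0 < k) (hk1 : k ≤ 1) (hz0 : 0 ≤ z) (hzk : z ≤ k) :
    Prod.mk z ⁻¹' (Tsec k) = closedBall (0 : E2) (z * (Real.sqrt (1 - k ^ 2) / k)) := by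
  have hk2 : 0 ≤ 1 - k ^ 2 := by nlinarith
  ext w
  simp only [Tsec, mem_preimage, mem_ofPred_eq, mem_closedBall, dist_zero_right]
  have hr : 0 ≤ z * (Real.sqrt (1 - k ^ 2) / k) := by positivity
  have hsq : (z * (Real.sqrt (1 - k ^ 2) / k)) ^ 2 = z ^ 2 * (1 - k ^ 2) / k ^ 2 := by
    rw [mul_pow, div_pow, Real.sq_sqrt hk2]; ring
  constructor
  · rintro ⟨h1, h2⟩
    refine abs_le_of_sq_le_sq' ?_ hr |>.2
    rw [hsq, le_div_iff₀ (by positivity)]
    have h3 : (Real.sqrt (z ^ 2 + ‖w‖ ^ 2) * k) ^ 2 ≤ z ^ 2 := by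
      apply pow_le_pow_left₀ (by positivity) h2
    rw [mul_pow, Real.sq_sqrt (by positivity)] at h3
    nlinarith
  · intro h
    have h3 : ‖w‖ ^ 2 ≤ z ^ 2 * (1 - k ^ 2) / k ^ 2 := by
      rw [← hsq]; exact pow_le_pow_left₀ (norm_nonneg _) h 2
    rw [le_div_iff₀ (by positivity)] at h3
    have h4 : (z ^ 2 + ‖w‖ ^ 2) * k ^ 2 ≤ z ^ 2 := by nlinarith
    constructor
    · have h5 : z ^ 2 ≤ k ^ 2 := by nlinarith
      have h6 : (z ^ 2 + ‖w‖ ^ 2) * k ^ 2 ≤ 1 * k ^ 2 := by linarith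
      exact le_of_mul_le_mul_right h6 (by positivity)
    · refine abs_le_of_sq_le_sq' ?_ hz0 |>.2
      rw [mul_pow, Real.sq_sqrt (by positivity)]
      exact h4

theorem slice_high {k z : ℝ} (hk0 : 0 ≤ k) (hz0 : k < z) (hz1 : z ≤ 1) :
    Prod.mk z ⁻¹' (Tsec k) = closedBall (0 : E2) (Real.sqrt (1 - z ^ 2)) := by
  have hz : 0 < z := lt_of_le_of_lt hk0 hz0
  have hz2 : 0 ≤ 1 - z ^ 2 := by nlinarith
  ext w
  simp only [Tsec, mem_preimage, mem_ofPred_eq, mem_closedBall, dist_zero_right]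
  constructor
  · rintro ⟨h1, h2⟩
    apply Real.le_sqrt_of_sq_le
    linarith
  · intro h
    have h3 : ‖w‖ ^ 2 ≤ 1 - z ^ 2 := by
      rw [← Real.sq_sqrt hz2]; exact pow_le_pow_left₀ (norm_nonneg _) h 2
    refine ⟨by linarith, ?_⟩
    have h4 : Real.sqrt (z ^ 2 + ‖w‖ ^ 2) ≤ 1 := by
      rw [Real.sqrt_le_one]; linarith
    nlinarith [Real.sqrt_nonneg (z ^ 2 + ‖w‖ ^ 2)]

theorem slice_neg {k z : ℝ} (hk0 : 0 ≤ k) (hz : z < 0) :
    Prod.mk z ⁻¹' (Tsec k) = ∅ := by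
  ext w
  simp only [Tsec, mem_preimage, mem_ofPred_eq, mem_empty_iff_false, iff_false, not_and, not_le]
  intro _
  have : 0 ≤ Real.sqrt (z ^ 2 + ‖w‖ ^ 2) * k := by positivity
  linarith

theorem slice_big {k z : ℝ} (hz : 1 < z) :
    Prod.mk z ⁻¹' (Tsec k) = ∅ := by
  ext w
  simp only [Tsec, mem_preimage, mem_ofPred_eq, mem_empty_iff_false, iff_false, not_and, not_le]
  intro h
  exfalso
  nlinarith [sq_nonneg ‖w‖]

theorem vol_Tsec {k : ℝ} (hk0 : 0 ≤ k) (hk1 : k ≤ 1) :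
    volume (Tsec k) = ENNReal.ofReal (2 * Real.pi / 3 * (1 - k)) := by
  have hm : MeasurableSet (Tsec k) := (isClosed_Tsec k).measurableSet
  rw [Measure.volume_eq_prod, Measure.prod_apply hm]
  have e1 : ∫⁻ z, volume (Prod.mk z ⁻¹' (Tsec k)) =
      ∫⁻ z in Ioc 0 1, volume (Prod.mk z ⁻¹' (Tsec k)) := by
    rw [← lintegral_indicator measurableSet_Ioc]
    apply lintegral_congr_ae
    have : ∀ᵐ z : ℝ, z ≠ 0 := by
      simp [ae_iff, measure_singleton]
    filter_upwards [this] with z hz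
    by_cases h : z ∈ Ioc (0 : ℝ) 1
    · rw [indicator_of_mem h]
    · rw [indicator_of_notMem h]
      rw [mem_Ioc, not_and_or, not_lt, not_le] at h
      rcases h with h | h
      · rw [slice_neg hk0 (lt_of_le_of_ne h hz), measure_empty]
      · rw [slice_big h, measure_empty]
  rw [e1, ← Ioc_union_Ioc_eq_Ioc hk0 hk1,
    lintegral_union measurableSet_Ioc (Ioc_disjoint_Ioc_of_le le_rfl)]
  have e2 : ∫⁻ z in Ioc 0 k, volume (Prod.mk z ⁻¹' (Tsec k)) =
      ENNReal.ofReal (Real.pi * (1 - k ^ 2) * k / 3) := by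
    rcases hk0.eq_or_lt with h0 | h0
    · subst h0; simp
    have hk2 : 0 ≤ 1 - k ^ 2 := by nlinarith
    have : ∫⁻ z in Ioc 0 k, volume (Prod.mk z ⁻¹' (Tsec k)) =
        ∫⁻ z in Ioc 0 k, ENNReal.ofReal (Real.pi * ((1 - k ^ 2) / k ^ 2) * z ^ 2) := by
      apply setLIntegral_congr_fun measurableSet_Ioc
      intro z hz
      simp only
      rw [slice_low h0 hk1 hz.1.le hz.2, EuclideanSpace.volume_closedBall_fin_two,
        ← ENNReal.ofReal_pow (by have := hz.1; positivity), ← ENNReal.ofReal_mul (by positivity)]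
      congr 1
      rw [mul_pow, div_pow, Real.sq_sqrt hk2]; ring
    rw [this, ← ofReal_integral_eq_lintegral_ofReal]
    · congr 1
      rw [← intervalIntegral.integral_of_le h0.le, intervalIntegral.integral_const_mul, integral_pow]
      field_simp
      ring
    · apply Continuous.integrableOn_Ioc
      fun_prop
    · filter_upwards with z
      positivity
  have e3 : ∫⁻ z in Ioc k 1, volume (Prod.mk z ⁻¹' (Tsec k)) =
      ENNReal.ofReal (Real.pi * ((1 - k) - (1 - k ^ 3) / 3)) := by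
    have : ∫⁻ z in Ioc k 1, volume (Prod.mk z ⁻¹' (Tsec k)) =
        ∫⁻ z in Ioc k 1, ENNReal.ofReal (Real.pi * (1 - z ^ 2)) := by
      apply setLIntegral_congr_fun measurableSet_Ioc
      intro z hz
      have hz0 : 0 < z := lt_of_le_of_lt hk0 hz.1
      have hz2 : 0 ≤ 1 - z ^ 2 := by have := hz.2; nlinarith
      simp only
      rw [slice_high hk0 hz.1 hz.2, EuclideanSpace.volume_closedBall_fin_two,
        ← ENNReal.ofReal_pow (by positivity), ← ENNReal.ofReal_mul (by positivity)]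
      congr 1
      rw [Real.sq_sqrt hz2]; ring
    rw [this, ← ofReal_integral_eq_lintegral_ofReal]
    · congr 1
      rw [← intervalIntegral.integral_of_le hk1, intervalIntegral.integral_const_mul,
        intervalIntegral.integral_sub (by simp) (by simp), integral_pow]
      simp
      norm_num
    · apply Continuous.integrableOn_Ioc
      fun_prop
    · filter_upwards [self_mem_ae_restrict measurableSet_Ioc] with z hz
      have hz0 : 0 < z := lt_of_le_of_lt hk0 hz.1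
      have hz2 : 0 ≤ 1 - z ^ 2 := by have := hz.2; nlinarith
      positivity
  rw [e2, e3, ← ENNReal.ofReal_add]
  · congr 1; ring
  · have hk2 : 0 ≤ 1 - k ^ 2 := by nlinarith
    positivity
  · have : 0 ≤ (1 - k) - (1 - k ^ 3) / 3 := by nlinarith [mul_nonneg hk0 (sub_nonneg.2 hk1)]
    positivity

/-- Volume of a spherical sector. -/
theorem vol_sector {c : E3} (hc : ‖c‖ = 1) {θ : ℝ} (h0 : 0 ≤ θ) (h1 : θ ≤ Real.pi / 2) :
    vol {x : E3 | ‖x‖ ≤ 1 ∧ ‖x‖ * Real.cos θ ≤ ⟪x, c⟫} =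
      2 * Real.pi / 3 * (1 - Real.cos θ) := by
  have hk0 : 0 ≤ Real.cos θ := Real.cos_nonneg_of_neg_pi_div_two_le_of_le (by linarith) h1
  have hk1 : Real.cos θ ≤ 1 := Real.cos_le_one θ
  obtain ⟨b, hb⟩ := Orthonormal.exists_orthonormalBasis_extension_of_card_eq (𝕜 := ℝ) (E := E3)
    (ι := Fin 3) (by simp) (v := fun _ => c) (s := {0}) (by
      rw [orthonormal_iff_ite]
      rintro ⟨i, hi⟩ ⟨j, hj⟩
      obtain rfl := hi
      obtain rfl := hj
      simp [Set.domRestrict, hc])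
  have hb0 : b 0 = c := hb 0 rfl
  have hmp : MeasurePreserving (split3 ∘ b.repr) (volume : Measure E3) (volume : Measure (ℝ × E2)) :=
    mp_split3.comp b.measurePreserving_repr
  have hS : {x : E3 | ‖x‖ ≤ 1 ∧ ‖x‖ * Real.cos θ ≤ ⟪x, c⟫} =
      (split3 ∘ b.repr) ⁻¹' (Tsec (Real.cos θ)) := by
    ext x
    have e1 : ‖x‖ ^ 2 = (split3 (b.repr x)).1 ^ 2 + ‖(split3 (b.repr x)).2‖ ^ 2 := by
      rw [← normsq_split, LinearIsometryEquiv.norm_map]
    have e2 : ⟪x, c⟫ = (split3 (b.repr x)).1 := by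
      rw [real_inner_comm, ← hb0, ← b.repr_apply_apply]; rfl
    simp only [Tsec, mem_preimage, mem_ofPred_eq, Function.comp]
    rw [← e1, ← e2, Real.sqrt_sq (norm_nonneg _), sq_le_one_iff₀ (norm_nonneg _)]
  rw [vol, hS, hmp.measure_preimage (isClosed_Tsec _).measurableSet.nullMeasurableSet,
    vol_Tsec hk0 hk1, ENNReal.toReal_ofReal]
  have := Real.pi_pos
  have h3 : 0 ≤ 1 - Real.cos θ := by linarith
  positivity

/-- The scaled sector. -/
theorem vol_sector_scaled {c : E3} (hc : ‖c‖ = 1) {θ ρ : ℝ} (h0 : 0 ≤ θ) (h1 : θ ≤ Real.pi / 2)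
    (hρ : 0 < ρ) :
    vol {x : E3 | ‖x‖ ≤ ρ ∧ ‖x‖ * Real.cos θ ≤ ⟪x, c⟫} =
      ρ ^ 3 * (2 * Real.pi / 3 * (1 - Real.cos θ)) := by
  have hS : {x : E3 | ‖x‖ ≤ ρ ∧ ‖x‖ * Real.cos θ ≤ ⟪x, c⟫} =
      ρ • {x : E3 | ‖x‖ ≤ 1 ∧ ‖x‖ * Real.cos θ ≤ ⟪x, c⟫} := by
    ext x
    rw [mem_smul_set_iff_inv_smul_mem₀ hρ.ne']
    simp only [mem_ofPred_eq, norm_smul, norm_inv, Real.norm_of_nonneg hρ.le, inner_smul_left]
    have e1 : ρ⁻¹ * ‖x‖ ≤ 1 ↔ ‖x‖ ≤ ρ := by
      rw [inv_mul_le_iff₀ hρ, mul_one]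
    have e2 : ρ⁻¹ * ‖x‖ * Real.cos θ ≤ (starRingEnd ℝ) ρ⁻¹ * ⟪x, c⟫ ↔
        ‖x‖ * Real.cos θ ≤ ⟪x, c⟫ := by
      simp only [conj_trivial]
      rw [mul_assoc]
      exact mul_le_mul_iff_right₀ (inv_pos.2 hρ)
    rw [e1, e2]
  rw [vol, hS, Measure.addHaar_smul, ENNReal.toReal_mul, ENNReal.toReal_ofReal (abs_nonneg _)]
  have : (volume {x : E3 | ‖x‖ ≤ 1 ∧ ‖x‖ * Real.cos θ ≤ ⟪x, c⟫}).toReal = _ := vol_sector hc h0 h1
  rw [this]
  simp [abs_of_pos hρ]

/-- In a circumscribed polytope close to the ball, the cone over a face is close to its normal. -/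
theorem angle_le_of_maximal {f : ℕ} {u : Fin f → E3} (hu : IsConfig u) {t : ℝ} (ht : 0 ≤ t)
    (hP : ∀ x ∈ Poly u, ‖x‖ ^ 2 ≤ 1 + t ^ 2) {x : E3} (hx0 : x ≠ 0) {i : Fin f}
    (hi : ∀ j, ⟪u j, x⟫ ≤ ⟪u i, x⟫) :
    InnerProductGeometry.angle (u i) x ≤ Real.arctan t := by
  have hxn : 0 < ‖x‖ := norm_pos_iff.2 hx0
  have hM : 0 < ⟪u i, x⟫ := by
    by_contra hcon
    push Not at hcon
    obtain ⟨R, hR⟩ := hu.bdd.exists_norm_le
    have hmem : ((|R| + 1) / ‖x‖) • x ∈ Poly u := by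
      intro j
      rw [inner_smul_right]
      have h1 : ⟪u j, x⟫ ≤ 0 := (hi j).trans hcon
      have h2 : 0 ≤ (|R| + 1) / ‖x‖ := by positivity
      nlinarith [mul_nonneg h2 (neg_nonneg.2 h1)]
    have h3 := hR _ hmem
    rw [norm_smul, Real.norm_of_nonneg (by positivity), div_mul_cancel₀ _ hxn.ne'] at h3
    linarith [le_abs_self R]
  set M := ⟪u i, x⟫ with hMdef
  have hmem : M⁻¹ • x ∈ Poly u := by
    intro j
    rw [inner_smul_right, inv_mul_le_iff₀ hM, mul_one]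
    exact hi j
  have h4 := hP _ hmem
  rw [norm_smul, norm_inv, Real.norm_of_nonneg hM.le, mul_pow, inv_pow,
    inv_mul_le_iff₀ (by positivity)] at h4
  have h5 : ‖x‖ ≤ M * Real.sqrt (1 + t ^ 2) := by
    refine abs_le_of_sq_le_sq' ?_ (by positivity) |>.2
    rw [mul_pow, Real.sq_sqrt (by positivity)]
    exact h4
  have h6 : Real.cos (Real.arctan t) ≤ M / (‖u i‖ * ‖x‖) := by
    rw [Real.cos_arctan, hu.unit, one_mul, div_le_div_iff₀ (by positivity) hxn, one_mul]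
    exact h5
  calc InnerProductGeometry.angle (u i) x = Real.arccos (M / (‖u i‖ * ‖x‖)) := rfl
    _ ≤ Real.arccos (Real.cos (Real.arctan t)) := Real.arccos_le_arccos h6
    _ = Real.arctan t := Real.arccos_cos (Real.arctan_nonneg.2 ht)
        (by linarith [Real.arctan_lt_pi_div_two t, Real.pi_pos])

theorem cos_sub_le {θ η : ℝ} (hη : 0 ≤ η) : Real.cos θ - Real.cos (θ + η) ≤ η := by
  rw [Real.cos_sub_cos]
  have e1 : (θ - (θ + η)) / 2 = -(η / 2) := by ring
  rw [e1, Real.sin_neg]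
  have h1 : Real.sin (η / 2) ≤ η / 2 := Real.sin_le (by linarith)
  have h1' : -(η / 2) ≤ Real.sin (η / 2) := by
    have := Real.sin_le (x := η / 2) (by linarith)
    rcases le_or_gt η 2 with h | h
    · have := Real.sin_nonneg_of_nonneg_of_le_pi (x := η / 2) (by linarith)
        (by linarith [Real.pi_gt_three])
      linarith
    · linarith [Real.neg_one_le_sin (η / 2)]
  have h2 : Real.sin ((θ + (θ + η)) / 2) ≤ 1 := Real.sin_le_one _
  have h3 : -1 ≤ Real.sin ((θ + (θ + η)) / 2) := Real.neg_one_le_sin _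
  have h4 : |Real.sin ((θ + (θ + η)) / 2) * Real.sin (η / 2)| ≤ 1 * (η / 2) := by
    rw [abs_mul]
    apply mul_le_mul (abs_le.2 ⟨h3, h2⟩) (abs_le.2 ⟨h1', h1⟩) (abs_nonneg _) (by norm_num)
  have h5 := (abs_le.1 h4).2
  nlinarith

/-- Number of touching points in a spherical cap. -/
theorem cap_count {C δ : ℝ} (hC : 0 < C) (hδ : 0 < δ) :
    ∃ δ' : ℝ, 0 < δ' ∧ ∃ F₀ : ℕ, ∀ f : ℕ, F₀ ≤ f → ∀ (u : Fin f → E3) (hc : IsConfig u)
      (hs : IsSimple u), (∀ x ∈ Poly u, ‖x‖ ^ 2 ≤ 1 + C ^ 2 / f) →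
      ∀ bad : Finset (Fin f), (bad.card : ℝ) ≤ δ' * f →
      (∀ i, i ∉ bad → (1 - δ') * (4 * Real.pi / (3 * f)) ≤
        ∑ d ∈ (Finset.univ : Finset (Dart u)).filter (fun d => d.1.1 = i), dd hc hs d / 6) →
      ∀ (c : E3) (θ : ℝ), ‖c‖ = 1 → 0 ≤ θ → θ ≤ 1 →
        ({i : Fin f | InnerProductGeometry.angle c (u i) ≤ θ}.ncard : ℝ) ≤
          f * (1 - Real.cos θ) / 2 + δ * f := by
  classical
  have hpi := Real.pi_pos
  have hpi3 := Real.pi_gt_three
  set δ' : ℝ := min (1 / 2) (δ / 16) with hδ'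
  have hδ'0 : 0 < δ' := by positivity
  have hδ'1 : δ' ≤ 1 / 2 := min_le_left _ _
  have hδ'2 : δ' ≤ δ / 16 := min_le_right _ _
  -- the limits
  have hlim1 : Filter.Tendsto (fun f : ℕ => C / Real.sqrt f) Filter.atTop (nhds 0) := by
    apply Filter.Tendsto.div_atTop tendsto_const_nhds
    exact (Real.tendsto_sqrt_atTop).comp tendsto_natCast_atTop_atTop
  have hlim2 : Filter.Tendsto (fun f : ℕ => Real.arctan (C / Real.sqrt f)) Filter.atTop
      (nhds 0) := by
    have := (Real.continuous_arctan.tendsto 0).comp hlim1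
    simpa [Function.comp_def] using this
  have hlim3 : Filter.Tendsto (fun f : ℕ => (Real.sqrt (1 + (C / Real.sqrt f) ^ 2)) ^ 3)
      Filter.atTop (nhds 1) := by
    have hcont : Continuous (fun t : ℝ => (Real.sqrt (1 + t ^ 2)) ^ 3) := by fun_prop
    have := (hcont.tendsto 0).comp hlim1
    simpa [Function.comp_def] using this
  have hev1 := hlim2.eventually_lt_const (u := min (δ / 8) (1 / 2)) (by positivity)
  have hev2 := hlim3.eventually_lt_const (u := 1 + min 1 (δ / 8)) (by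
    have : (0 : ℝ) < min 1 (δ / 8) := by positivity
    linarith)
  obtain ⟨F₀, hF₀⟩ := Filter.eventually_atTop.1 (hev1.and (hev2.and (Filter.eventually_gt_atTop 0)))
  refine ⟨δ', hδ'0, F₀, ?_⟩
  intro f hf u hc hs hP bad hbad hgood c θ hcn hθ0 hθ1
  obtain ⟨hη, hρ, hfpos⟩ := hF₀ f hf
  have hf0 : (0 : ℝ) < f := by exact_mod_cast hfpos
  set t : ℝ := C / Real.sqrt f with ht
  have ht0 : 0 ≤ t := by positivity
  have ht2 : t ^ 2 = C ^ 2 / f := by rw [ht, div_pow, Real.sq_sqrt hf0.le]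
  set η : ℝ := Real.arctan t with hηdef
  have hη0 : 0 ≤ η := Real.arctan_nonneg.2 ht0
  have hη1 : η < δ / 8 := lt_of_lt_of_le hη (min_le_left _ _)
  have hη2 : η < 1 / 2 := lt_of_lt_of_le hη (min_le_right _ _)
  set ρ : ℝ := Real.sqrt (1 + t ^ 2) with hρdef
  have hρ0 : 0 < ρ := by positivity
  have hρ1 : 1 ≤ ρ := by
    rw [hρdef]; apply Real.one_le_sqrt.2; nlinarith
  have hP' : ∀ x ∈ Poly u, ‖x‖ ^ 2 ≤ 1 + t ^ 2 := by rw [ht2]; exact hP
  -- the region
  set Reg : Set E3 := {x : E3 | ‖x‖ ≤ ρ ∧ ‖x‖ * Real.cos (θ + η) ≤ ⟪x, c⟫} with hReg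
  have hRegvol : vol Reg = ρ ^ 3 * (2 * Real.pi / 3 * (1 - Real.cos (θ + η))) :=
    vol_sector_scaled hcn (by linarith) (by linarith) hρ0
  have hRegfin : volume Reg ≠ ⊤ := by
    have hsub : Reg ⊆ closedBall (0 : E3) ρ := fun x hx => by
      rw [mem_closedBall, dist_zero_right]; exact hx.1
    exact ((measure_mono hsub).trans_lt measure_closedBall_lt_top).ne
  set I : Finset (Fin f) := Finset.univ.filter
    (fun i => InnerProductGeometry.angle c (u i) ≤ θ ∧ i ∉ bad) with hI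
  have hmemReg : ∀ x ∈ Poly u, ∀ i ∈ I, (∀ j, ⟪u j, x⟫ ≤ ⟪u i, x⟫) → x ∈ Reg := by
    intro x hx i hi hmax
    rw [hI, Finset.mem_filter] at hi
    refine ⟨?_, ?_⟩
    · rw [hρdef]; exact Real.le_sqrt_of_sq_le (hP' x hx)
    · rcases eq_or_ne x 0 with rfl | hx0
      · simp
      · have h1 := angle_le_of_maximal hc ht0 hP' hx0 hmax
        have h2 := InnerProductGeometry.angle_le_angle_add_angle c (u i) x
        have h3 : InnerProductGeometry.angle c x ≤ θ + η := by linarith [hi.2.1]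
        have h4 : Real.cos (θ + η) ≤ Real.cos (InnerProductGeometry.angle c x) :=
          Real.cos_le_cos_of_nonneg_of_le_pi (InnerProductGeometry.angle_nonneg _ _)
            (by linarith) h3
        have h5 := InnerProductGeometry.cos_angle_mul_norm_mul_norm c x
        rw [hcn, one_mul] at h5
        rw [real_inner_comm, ← h5, mul_comm]
        exact mul_le_mul_of_nonneg_right h4 (norm_nonneg x)
  have hsum := sum_dd_le_vol hc hs I Reg hRegfin hmemReg
  have hsplit : ∑ d ∈ (Finset.univ : Finset (Dart u)).filter (fun d => d.1.1 ∈ I), dd hc hs d / 6 =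
      ∑ i ∈ I, ∑ d ∈ (Finset.univ : Finset (Dart u)).filter (fun d => d.1.1 = i),
        dd hc hs d / 6 := by
    rw [← Finset.sum_fiberwise_of_maps_to (s := (Finset.univ : Finset (Dart u)).filter
      (fun d => d.1.1 ∈ I)) (t := I) (g := fun d => d.1.1)
      (fun d hd => (Finset.mem_filter.1 hd).2)]
    apply Finset.sum_congr rfl
    intro i hi
    apply Finset.sum_congr _ (fun _ _ => rfl)
    ext d
    simp only [Finset.mem_filter, Finset.mem_univ, true_and]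
    constructor
    · rintro ⟨_, h⟩; exact h
    · intro h; exact ⟨h ▸ hi, h⟩
  have hlow : (I.card : ℝ) * ((1 - δ') * (4 * Real.pi / (3 * f))) ≤ vol Reg := by
    calc (I.card : ℝ) * ((1 - δ') * (4 * Real.pi / (3 * f)))
        = ∑ i ∈ I, (1 - δ') * (4 * Real.pi / (3 * f)) := by
          rw [Finset.sum_const, nsmul_eq_mul]
      _ ≤ ∑ i ∈ I, ∑ d ∈ (Finset.univ : Finset (Dart u)).filter (fun d => d.1.1 = i),
            dd hc hs d / 6 := by
          apply Finset.sum_le_sum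
          intro i hi
          exact hgood i (Finset.mem_filter.1 hi).2.2
      _ ≤ vol Reg := by rw [← hsplit]; exact hsum
  rw [hRegvol] at hlow
  -- the count
  have hcount : ({i : Fin f | InnerProductGeometry.angle c (u i) ≤ θ}.ncard : ℝ) ≤
      I.card + bad.card := by
    have hsub : {i : Fin f | InnerProductGeometry.angle c (u i) ≤ θ} ⊆ ((I ∪ bad : Finset (Fin f)) :
        Set (Fin f)) := by
      intro i hi
      simp only [Finset.coe_union, mem_union, Finset.mem_coe]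
      by_cases hb : i ∈ bad
      · exact Or.inr hb
      · left; rw [hI, Finset.mem_filter]; exact ⟨Finset.mem_univ _, hi, hb⟩
    have h1 := Set.ncard_le_ncard hsub (Finset.finite_toSet _)
    rw [Set.ncard_coe_finset] at h1
    have h2 := Finset.card_union_le I bad
    exact_mod_cast h1.trans h2
  -- arithmetic
  set A : ℝ := 1 - Real.cos θ with hA
  set B : ℝ := 1 - Real.cos (θ + η) with hB
  have hBA : B ≤ A + η := by have := cos_sub_le (θ := θ) hη0; linarith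
  have hB0 : 0 ≤ B := by have := Real.cos_le_one (θ + η); linarith
  have hB2 : B ≤ 2 := by have := Real.neg_one_le_cos (θ + η); linarith
  have hI2 : (I.card : ℝ) * (1 - δ') ≤ ρ ^ 3 * B / 2 * f := by
    have e1 : (I.card : ℝ) * ((1 - δ') * (4 * Real.pi / (3 * f))) =
        ((I.card : ℝ) * (1 - δ')) * (4 * Real.pi / (3 * f)) := by ring
    have e2 : ρ ^ 3 * (2 * Real.pi / 3 * B) =
        (ρ ^ 3 * B / 2 * f) * (4 * Real.pi / (3 * f)) := by
      field_simp
      ring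
    rw [e1, e2] at hlow
    exact le_of_mul_le_mul_right hlow (by positivity)
  have hρ3 : ρ ^ 3 ≤ 1 + min 1 (δ / 8) := hρ.le
  set ε : ℝ := min 1 (δ / 8) with hε
  have hε0 : 0 < ε := by positivity
  have hε1 : ε ≤ 1 := min_le_left _ _
  have hε2 : ε ≤ δ / 8 := min_le_right _ _
  have hI3 : (I.card : ℝ) ≤ (1 + 2 * δ') * ((1 + ε) * (B / 2)) * f := by
    have h1 : (I.card : ℝ) * (1 - δ') ≤ (1 + ε) * (B / 2) * f := by
      refine hI2.trans ?_
      have : ρ ^ 3 * (B / 2) ≤ (1 + ε) * (B / 2) := mul_le_mul_of_nonneg_right hρ3 (by positivity)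
      have h := mul_le_mul_of_nonneg_right this hf0.le
      calc ρ ^ 3 * B / 2 * f = ρ ^ 3 * (B / 2) * f := by ring
        _ ≤ _ := h
    have h2 : 1 ≤ (1 + 2 * δ') * (1 - δ') := by nlinarith
    have hI0 : (0 : ℝ) ≤ I.card := Nat.cast_nonneg _
    calc (I.card : ℝ) = I.card * 1 := by ring
      _ ≤ I.card * ((1 + 2 * δ') * (1 - δ')) := mul_le_mul_of_nonneg_left h2 hI0
      _ = (1 + 2 * δ') * (I.card * (1 - δ')) := by ring
      _ ≤ (1 + 2 * δ') * ((1 + ε) * (B / 2) * f) :=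
          mul_le_mul_of_nonneg_left h1 (by positivity)
      _ = _ := by ring
  have hfin : (1 + 2 * δ') * ((1 + ε) * (B / 2)) + δ' ≤ A / 2 + δ := by
    have h0 : 2 * δ' * ε ≤ 2 * δ' * 1 := mul_le_mul_of_nonneg_left hε1 (by positivity)
    have h1 : (1 + 2 * δ') * (1 + ε) ≤ 1 + 3 * δ / 8 := by
      have e : (1 + 2 * δ') * (1 + ε) = 1 + 2 * δ' + ε + 2 * δ' * ε := by ring
      rw [e]; linarith
    have h2 : (1 + 2 * δ') * ((1 + ε) * (B / 2)) ≤ (1 + 3 * δ / 8) * (B / 2) := by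
      rw [← mul_assoc]
      exact mul_le_mul_of_nonneg_right h1 (by positivity)
    have h3 : 3 * δ / 8 * (B / 2) ≤ 3 * δ / 8 * 1 :=
      mul_le_mul_of_nonneg_left (by linarith) (by positivity)
    have h4 : (1 + 3 * δ / 8) * (B / 2) = B / 2 + 3 * δ / 8 * (B / 2) := by ring
    linarith
  have hfin2 := mul_le_mul_of_nonneg_right hfin hf0.le
  calc ({i : Fin f | InnerProductGeometry.angle c (u i) ≤ θ}.ncard : ℝ) ≤
      I.card + bad.card := hcount
    _ ≤ (1 + 2 * δ') * ((1 + ε) * (B / 2)) * f + δ' * f := add_le_add hI3 hbad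
    _ = ((1 + 2 * δ') * ((1 + ε) * (B / 2)) + δ') * f := by ring
    _ ≤ (A / 2 + δ) * f := hfin2
    _ = f * A / 2 + δ * f := by ring

end Gold
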