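import Pool.Agent.Lib.H81.Gold.Vec

/-!
# No large flat patch on the sphere (chunk M)

Purely metric statement about maps `ℤ × ℤ → S²`.
-/

noncomputable section

open MeasureTheory Metric Set
open scoped RealInnerProductSpace

namespace Gold

/-- Eisenstein norm of a lattice point. -/
def eis (v : ℤ × ℤ) : ℝ := (v.1 : ℝ) ^ 2 + v.1 * v.2 + (v.2 : ℝ) ^ 2

/-- The box of size `m`. -/
def box (m : ℕ) : Set (ℤ × ℤ) := {v | |v.1| ≤ m ∧ |v.2| ≤ m}

/-- The six lattice directions. -/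
def hdir : ℕ → ℤ × ℤ
  | 0 => (1, 0)
  | 1 => (0, 1)
  | 2 => (-1, 1)
  | 3 => (-1, 0)
  | 4 => (0, -1)
  | _ => (1, -1)

/-- The star of `pos` at `v` is `δ`-close to a regular hexagonal star of side `l`. -/
def NearStar (pos : ℤ × ℤ → E3) (l δ : ℝ) (v : ℤ × ℤ) : Prop :=
  ∀ k < 6, |‖pos (v + hdir k) - pos v‖ ^ 2 - l ^ 2| ≤ δ * l ^ 2 ∧
    ‖(pos (v + hdir ((k + 1) % 6)) - pos v) - (pos (v + hdir k) - pos v) -
      (pos (v + hdir ((k + 2) % 6)) - pos v)‖ ≤ δ * l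

/-- The linear map `(a, b) ↦ a + b ω`. -/
def eisMap : ℂ →ₗ[ℝ] ℂ where
  toFun z := ⟨z.re + z.im / 2, Real.sqrt 3 / 2 * z.im⟩
  map_add' x y := by
    apply Complex.ext <;> simp <;> ring
  map_smul' c x := by
    apply Complex.ext <;> simp <;> ring

theorem eisMap_apply (z : ℂ) : eisMap z = ⟨z.re + z.im / 2, Real.sqrt 3 / 2 * z.im⟩ := rfl

theorem normSq_eisMap (z : ℂ) : ‖eisMap z‖ ^ 2 = z.re ^ 2 + z.re * z.im + z.im ^ 2 := by
  rw [← Complex.normSq_eq_norm_sq, Complex.normSq_apply, eisMap_apply]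
  have h3 : Real.sqrt 3 ^ 2 = 3 := Real.sq_sqrt (by norm_num)
  simp only
  ring_nf
  rw [h3]; ring

theorem det_eisMap : LinearMap.det eisMap = Real.sqrt 3 / 2 := by
  rw [← LinearMap.det_toMatrix Complex.basisOneI, Matrix.det_fin_two]
  simp [LinearMap.toMatrix_apply, eisMap_apply]

/-- unit square about a lattice point -/
def usq (v : ℤ × ℤ) : Set ℂ := {z | |z.re - v.1| ≤ 1 / 2 ∧ |z.im - v.2| ≤ 1 / 2}

theorem volume_usq (v : ℤ × ℤ) : volume (usq v) = 1 := by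
  have h := Complex.volume_preserving_equiv_real_prod.measure_preimage_equiv
    (s := Icc ((v.1 : ℝ) - 1 / 2) (v.1 + 1 / 2) ×ˢ Icc ((v.2 : ℝ) - 1 / 2) (v.2 + 1 / 2))
  have h2 : usq v = Complex.measurableEquivRealProd ⁻¹'
      (Icc ((v.1 : ℝ) - 1 / 2) (v.1 + 1 / 2) ×ˢ Icc ((v.2 : ℝ) - 1 / 2) (v.2 + 1 / 2)) := by
    ext z
    simp only [usq, mem_ofPred_eq, mem_preimage, Complex.measurableEquivRealProd_apply, mem_prod,
      mem_Icc, abs_le]
    constructor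
    · rintro ⟨⟨h1, h2⟩, h3, h4⟩; refine ⟨⟨?_, ?_⟩, ?_, ?_⟩ <;> linarith
    · rintro ⟨⟨h1, h2⟩, h3, h4⟩; refine ⟨⟨?_, ?_⟩, ?_, ?_⟩ <;> linarith
  rw [h2, h, Measure.volume_eq_prod, Measure.prod_prod, Real.volume_Icc, Real.volume_Icc]
  norm_num

theorem eis_finite (R : ℝ) : {v : ℤ × ℤ | eis v ≤ R ^ 2}.Finite := by
  apply Set.Finite.subset (s := Icc (-⌈2 * |R|⌉, -⌈2 * |R|⌉) (⌈2 * |R|⌉, ⌈2 * |R|⌉))
    (Set.finite_Icc _ _)
  rintro ⟨a, b⟩ h
  simp only [eis, mem_ofPred_eq] at h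
  have hR : R ^ 2 = |R| ^ 2 := (sq_abs R).symm
  rw [hR] at h
  have h0 : 0 ≤ |R| := abs_nonneg R
  have ha : |(a : ℝ)| ≤ 2 * |R| := by
    apply abs_le_of_sq_le_sq _ (by positivity)
    nlinarith [sq_nonneg ((a : ℝ) + 2 * b)]
  have hb : |(b : ℝ)| ≤ 2 * |R| := by
    apply abs_le_of_sq_le_sq _ (by positivity)
    nlinarith [sq_nonneg ((b : ℝ) + 2 * a)]
  have hc : 2 * |R| ≤ (⌈2 * |R|⌉ : ℝ) := Int.le_ceil _
  have ha' := abs_le.1 (ha.trans hc)
  have hb' := abs_le.1 (hb.trans hc)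
  simp only [mem_Icc, Prod.mk_le_mk]
  refine ⟨⟨?_, ?_⟩, ?_, ?_⟩
  · have := ha'.1; exact_mod_cast this
  · have := hb'.1; exact_mod_cast this
  · have := ha'.2; exact_mod_cast this
  · have := hb'.2; exact_mod_cast this

/-- Number of lattice points in a disc. -/
theorem eis_count {R : ℝ} (hR : 1 ≤ R) :
    2 * Real.pi / Real.sqrt 3 * (R - 1) ^ 2 ≤ ({v : ℤ × ℤ | eis v ≤ R ^ 2}.ncard : ℝ) := by
  have hfin := eis_finite R
  set S := hfin.toFinset with hS
  have hcard : ({v : ℤ × ℤ | eis v ≤ R ^ 2}.ncard : ℝ) = S.card := by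
    rw [Set.ncard_eq_toFinset_card _ hfin]
  have hsub : eisMap ⁻¹' closedBall 0 (R - 1) ⊆ ⋃ v ∈ S, usq v := by
    intro z hz
    rw [mem_preimage, mem_closedBall_zero_iff] at hz
    have hz2 : ‖eisMap z‖ ^ 2 ≤ (R - 1) ^ 2 := by
      apply pow_le_pow_left₀ (norm_nonneg _) hz
    rw [mem_iUnion₂]
    refine ⟨(round z.re, round z.im), ?_, ?_⟩
    · rw [hS, Set.Finite.mem_toFinset, mem_ofPred_eq]
      have e1 := abs_sub_round z.re
      have e2 := abs_sub_round z.im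
      set w : ℂ := ⟨round z.re, round z.im⟩ with hw
      have h1 : eis (round z.re, round z.im) = ‖eisMap w‖ ^ 2 := by
        rw [normSq_eisMap]; simp [eis, hw]
      have h2 : ‖eisMap (w - z)‖ ≤ 1 := by
        have : ‖eisMap (w - z)‖ ^ 2 ≤ 1 := by
          rw [normSq_eisMap]
          simp only [Complex.sub_re, Complex.sub_im, hw]
          have a1 := abs_le.1 e1
          have a2 := abs_le.1 e2
          nlinarith [a1.1, a1.2, a2.1, a2.2]
        nlinarith [norm_nonneg (eisMap (w - z))]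
      have h3 : ‖eisMap w‖ ≤ R := by
        have : eisMap w = eisMap z + eisMap (w - z) := by rw [← map_add]; congr 1; ring
        rw [this]
        refine (norm_add_le _ _).trans ?_
        linarith
      rw [h1]
      exact pow_le_pow_left₀ (norm_nonneg _) h3 2
    · have e1 := abs_sub_round z.re
      have e2 := abs_sub_round z.im
      exact ⟨e1, e2⟩
  have hdet : LinearMap.det eisMap ≠ 0 := by
    rw [det_eisMap]; positivity
  have hvol : volume (eisMap ⁻¹' closedBall 0 (R - 1)) =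
      ENNReal.ofReal (2 * Real.pi / Real.sqrt 3 * (R - 1) ^ 2) := by
    rw [Measure.addHaar_preimage_linearMap volume hdet, det_eisMap, Complex.volume_closedBall,
      ← ENNReal.ofReal_pow (by linarith), ← ENNReal.ofReal_coe_nnreal, ← ENNReal.ofReal_mul (by positivity),
      ← ENNReal.ofReal_mul (by positivity)]
    congr 1
    have h3 : Real.sqrt 3 ≠ 0 := by positivity
    rw [abs_of_pos (by positivity)]
    simp only [NNReal.coe_real_pi]
    field_simp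
  have hle : volume (eisMap ⁻¹' closedBall 0 (R - 1)) ≤ S.card := by
    calc _ ≤ volume (⋃ v ∈ S, usq v) := measure_mono hsub
      _ ≤ ∑ v ∈ S, volume (usq v) := measure_biUnion_finset_le _ _
      _ = S.card := by simp [volume_usq]
  rw [hvol] at hle
  rw [hcard]
  have := ENNReal.toReal_mono (by simp) hle
  rwa [ENNReal.toReal_ofReal (by positivity), ENNReal.toReal_natCast] at this

theorem int_lip_aux {V : Type*} [SeminormedAddCommGroup V] (h : ℤ → V) {a : ℝ} {lo hi : ℤ}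
    (hstep : ∀ j, lo ≤ j → j < hi → ‖h (j + 1) - h j‖ ≤ a) {i j : ℤ} (hi1 : lo ≤ i)
    (hij : i ≤ j) (hj : j ≤ hi) : ‖h j - h i‖ ≤ ((j : ℝ) - i) * a := by
  induction j, hij using Int.leInduction with
  | base => simp
  | succ j hij ih =>
    have h1 := ih (by omega)
    have h2 := hstep j (by omega) (by omega)
    have h3 : h (j + 1) - h i = (h (j + 1) - h j) + (h j - h i) := by abel
    rw [h3]
    refine (norm_add_le _ _).trans ?_
    push_cast
    linarith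

theorem int_lip {V : Type*} [SeminormedAddCommGroup V] (h : ℤ → V) {a : ℝ} {lo hi : ℤ}
    (hstep : ∀ j, lo ≤ j → j < hi → ‖h (j + 1) - h j‖ ≤ a) {i j : ℤ} (hi1 : lo ≤ i)
    (hi2 : i ≤ hi) (hj1 : lo ≤ j) (hj2 : j ≤ hi) : ‖h j - h i‖ ≤ |(j : ℝ) - i| * a := by
  rcases le_total i j with hij | hij
  · rw [abs_of_nonneg (by have : (i : ℝ) ≤ j := by exact_mod_cast hij
                          linarith)]
    exact int_lip_aux h hstep hi1 hij hj2
  · rw [norm_sub_rev, abs_sub_comm, abs_of_nonneg (by have : (j : ℝ) ≤ i := by exact_mod_cast hij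
                                                      linarith)]
    exact int_lip_aux h hstep hj1 hij hi2

theorem chunk {pos : ℤ × ℤ → E3} {l δ : ℝ} (hl : 0 ≤ l) (hδ : 0 ≤ δ) (hδ1 : δ ≤ 1 / 4) {K : ℕ}
    (hK : 1 ≤ K) {x : ℤ × ℤ}
    (h : ∀ v : ℤ × ℤ, |v.1 - x.1| ≤ K → |v.2 - x.2| ≤ K → NearStar pos l δ v) {k : ℤ × ℤ}
    (hk1 : |k.1| ≤ K) (hk2 : |k.2| ≤ K) :
    ‖pos (x + k) - pos x‖ ≤ l * (Real.sqrt (eis k) + 8 * K ^ 2 * Real.sqrt δ) := by
  obtain ⟨k1, k2⟩ := k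
  obtain ⟨x1, x2⟩ := x
  simp only at hk1 hk2 h
  have hk1' := abs_le.1 hk1
  have hk2' := abs_le.1 hk2
  -- local relations
  have relA : ∀ v : ℤ × ℤ, NearStar pos l δ v →
      ‖(pos (v.1 + 1, v.2) - pos (v.1, v.2)) - (pos (v.1, v.2) - pos (v.1 - 1, v.2))‖
        ≤ 2 * (δ * l) := by
    intro v hv
    have b0 := (hv 0 (by norm_num)).2
    have b1 := (hv 1 (by norm_num)).2
    simp only [hdir, Prod.add_def, Nat.reduceAdd, Nat.reduceMod, add_zero] at b0 b1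
    have e : (pos (v.1 + 1, v.2) - pos (v.1, v.2)) - (pos (v.1, v.2) - pos (v.1 - 1, v.2)) =
        -((pos (v.1, v.2 + 1) - pos v - (pos (v.1 + 1, v.2) - pos v) -
          (pos (v.1 + -1, v.2 + 1) - pos v)) + (pos (v.1 + -1, v.2 + 1) - pos v -
          (pos (v.1, v.2 + 1) - pos v) - (pos (v.1 + -1, v.2) - pos v))) := by
      have : (v.1, v.2) = v := rfl
      rw [this, ← sub_eq_add_neg]; abel
    rw [e, norm_neg]
    refine (norm_add_le _ _).trans ?_
    linarith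
  have relB : ∀ v : ℤ × ℤ, NearStar pos l δ v →
      ‖(pos (v.1, v.2 + 1) - pos (v.1, v.2)) - (pos (v.1, v.2) - pos (v.1, v.2 - 1))‖
        ≤ 2 * (δ * l) := by
    intro v hv
    have b0 := (hv 1 (by norm_num)).2
    have b1 := (hv 2 (by norm_num)).2
    simp only [hdir, Prod.add_def, Nat.reduceAdd, Nat.reduceMod, add_zero] at b0 b1
    have e : (pos (v.1, v.2 + 1) - pos (v.1, v.2)) - (pos (v.1, v.2) - pos (v.1, v.2 - 1)) =
        -((pos (v.1 + -1, v.2 + 1) - pos v - (pos (v.1, v.2 + 1) - pos v) -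
          (pos (v.1 + -1, v.2) - pos v)) + (pos (v.1 + -1, v.2) - pos v -
          (pos (v.1 + -1, v.2 + 1) - pos v) - (pos (v.1, v.2 + -1) - pos v))) := by
      have : (v.1, v.2) = v := rfl
      rw [this, ← sub_eq_add_neg]; abel
    rw [e, norm_neg]
    refine (norm_add_le _ _).trans ?_
    linarith
  have relC : ∀ v : ℤ × ℤ, NearStar pos l δ v →
      ‖(pos (v.1, v.2 + 1) - pos (v.1, v.2)) - (pos (v.1 - 1, v.2 + 1) - pos (v.1 - 1, v.2))‖
        ≤ δ * l := by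
    intro v hv
    have b0 := (hv 1 (by norm_num)).2
    simp only [hdir, Prod.add_def, Nat.reduceAdd, Nat.reduceMod, add_zero] at b0
    have e : (pos (v.1, v.2 + 1) - pos (v.1, v.2)) - (pos (v.1 - 1, v.2 + 1) - pos (v.1 - 1, v.2)) =
        -(pos (v.1 + -1, v.2 + 1) - pos v - (pos (v.1, v.2 + 1) - pos v) -
          (pos (v.1 + -1, v.2) - pos v)) := by
      have : (v.1, v.2) = v := rfl
      rw [this, ← sub_eq_add_neg]; abel
    rw [e, norm_neg]
    exact b0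
  have hK0 : (0 : ℝ) ≤ K := Nat.cast_nonneg _
  have hK1 : (1 : ℝ) ≤ K := by exact_mod_cast hK
  have habsK : ∀ j : ℤ, -(K : ℤ) ≤ j → j ≤ K → |(j : ℝ)| ≤ K := by
    intro j h1 h2
    rw [abs_le]; constructor
    · exact_mod_cast h1
    · exact_mod_cast h2
  have hdl : 0 ≤ δ * l := mul_nonneg hδ hl
  set e0 := pos (x1 + 1, x2) - pos (x1, x2) with he0
  set e1 := pos (x1, x2 + 1) - pos (x1, x2) with he1
  -- G
  have hG : ∀ j : ℤ, -(K : ℤ) ≤ j → j ≤ K →
      ‖(pos (x1 + j + 1, x2) - pos (x1 + j, x2)) - e0‖ ≤ K * (2 * (δ * l)) := by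
    intro j hj1 hj2
    have := int_lip (fun j : ℤ => pos (x1 + j + 1, x2) - pos (x1 + j, x2)) (a := 2 * (δ * l))
      (lo := -(K : ℤ)) (hi := K) (by
        intro i hi1 hi2
        have hv := relA (x1 + (i + 1), x2) (h _ (by simp only; rw [abs_le]; constructor <;> omega)
          (by simp))
        have e : x1 + (i + 1) - 1 = x1 + i := by ring
        have e' : x1 + i + 1 = x1 + (i + 1) := by ring
        simp only [e] at hv
        simp only [e']
        exact hv) (i := 0) (j := j) (by omega) (by omega) hj1 hj2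
    simp only [Int.cast_zero, sub_zero, add_zero] at this
    refine this.trans ?_
    exact mul_le_mul_of_nonneg_right (habsK j hj1 hj2) (by positivity)
  have hP : ‖(pos (x1 + k1, x2) - (k1 : ℝ) • e0) - pos (x1, x2)‖ ≤ K * (K * (2 * (δ * l))) := by
    have := int_lip (fun j : ℤ => pos (x1 + j, x2) - (j : ℝ) • e0) (a := K * (2 * (δ * l)))
      (lo := -(K : ℤ)) (hi := K) (by
        intro i hi1 hi2
        have hg := hG i hi1 hi2.le
        have e : pos (x1 + (i + 1), x2) - ((i + 1 : ℤ) : ℝ) • e0 - (pos (x1 + i, x2) - (i : ℝ) • e0)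
            = pos (x1 + i + 1, x2) - pos (x1 + i, x2) - e0 := by
          rw [← add_assoc]; push_cast; module
        simp only [e]
        exact hg) (i := 0) (j := k1) (by omega) (by omega) hk1'.1 hk1'.2
    simp only [Int.cast_zero, sub_zero, add_zero, zero_smul] at this
    refine this.trans ?_
    exact mul_le_mul_of_nonneg_right (habsK _ hk1'.1 hk1'.2) (by positivity)
  have hH : ‖(pos (x1 + k1, x2 + 1) - pos (x1 + k1, x2)) - e1‖ ≤ K * (δ * l) := by
    have := int_lip (fun j : ℤ => pos (x1 + j, x2 + 1) - pos (x1 + j, x2)) (a := δ * l)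
      (lo := -(K : ℤ)) (hi := K) (by
        intro i hi1 hi2
        have hv := relC (x1 + (i + 1), x2) (h _ (by simp only; rw [abs_le]; constructor <;> omega)
          (by simp))
        have e : x1 + (i + 1) - 1 = x1 + i := by ring
        simp only [e] at hv
        exact hv) (i := 0) (j := k1) (by omega) (by omega) hk1'.1 hk1'.2
    simp only [Int.cast_zero, sub_zero, add_zero] at this
    refine this.trans ?_
    exact mul_le_mul_of_nonneg_right (habsK _ hk1'.1 hk1'.2) (by positivity)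
  have hQ : ∀ j : ℤ, -(K : ℤ) ≤ j → j ≤ K →
      ‖(pos (x1 + k1, x2 + j + 1) - pos (x1 + k1, x2 + j)) - e1‖ ≤ K * (3 * (δ * l)) := by
    intro j hj1 hj2
    have := int_lip (fun j : ℤ => pos (x1 + k1, x2 + j + 1) - pos (x1 + k1, x2 + j))
      (a := 2 * (δ * l))
      (lo := -(K : ℤ)) (hi := K) (by
        intro i hi1 hi2
        have hv := relB (x1 + k1, x2 + (i + 1)) (h _ (by simp only; rw [abs_le]; constructor <;> omega)
          (by simp only; rw [abs_le]; constructor <;> omega))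
        have e : x2 + (i + 1) - 1 = x2 + i := by ring
        have e' : x2 + i + 1 = x2 + (i + 1) := by ring
        simp only [e] at hv
        simp only [e']
        exact hv) (i := 0) (j := j) (by omega) (by omega) hj1 hj2
    simp only [Int.cast_zero, sub_zero, add_zero] at this
    have h2 : |(j : ℝ)| * (2 * (δ * l)) ≤ K * (2 * (δ * l)) :=
      mul_le_mul_of_nonneg_right (habsK j hj1 hj2) (by positivity)
    have e : (pos (x1 + k1, x2 + j + 1) - pos (x1 + k1, x2 + j)) - e1 =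
      ((pos (x1 + k1, x2 + j + 1) - pos (x1 + k1, x2 + j)) -
        (pos (x1 + k1, x2 + 1) - pos (x1 + k1, x2))) +
      ((pos (x1 + k1, x2 + 1) - pos (x1 + k1, x2)) - e1) := by abel
    rw [e]
    refine (norm_add_le _ _).trans ?_
    linarith
  have hS : ‖(pos (x1 + k1, x2 + k2) - (k2 : ℝ) • e1) - pos (x1 + k1, x2)‖ ≤
      K * (K * (3 * (δ * l))) := by
    have := int_lip (fun j : ℤ => pos (x1 + k1, x2 + j) - (j : ℝ) • e1) (a := K * (3 * (δ * l)))
      (lo := -(K : ℤ)) (hi := K) (by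
        intro i hi1 hi2
        have hg := hQ i hi1 hi2.le
        have e : pos (x1 + k1, x2 + (i + 1)) - ((i + 1 : ℤ) : ℝ) • e1 -
            (pos (x1 + k1, x2 + i) - (i : ℝ) • e1)
            = pos (x1 + k1, x2 + i + 1) - pos (x1 + k1, x2 + i) - e1 := by
          rw [← add_assoc]; push_cast; module
        simp only [e]
        exact hg) (i := 0) (j := k2) (by omega) (by omega) hk2'.1 hk2'.2
    simp only [Int.cast_zero, sub_zero, add_zero, zero_smul] at this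
    refine this.trans ?_
    exact mul_le_mul_of_nonneg_right (habsK _ hk2'.1 hk2'.2) (by positivity)
  -- norms
  have hx := h (x1, x2) (by simp) (by simp)
  have a0 := (hx 0 (by norm_num)).1
  have a1 := (hx 1 (by norm_num)).1
  have a2 := (hx 2 (by norm_num)).1
  have b0 := (hx 0 (by norm_num)).2
  simp only [hdir, Prod.add_def, Nat.reduceAdd, Nat.reduceMod, add_zero] at a0 a1 a2 b0
  rw [← he0] at a0 b0
  rw [← he1] at a1 b0
  set e2 := pos (x1 + -1, x2 + 1) - pos (x1, x2) with he2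
  have n2 : ‖e2‖ ≤ 9 / 8 * l := by
    have : ‖e2‖ ^ 2 ≤ (9 / 8 * l) ^ 2 := by
      have := (abs_le.1 a2).2
      nlinarith [sq_nonneg l]
    exact abs_le_of_sq_le_sq' this (by positivity) |>.2
  have hin : |2 * ⟪e0, e1⟫ - l ^ 2| ≤ 6 * (δ * l ^ 2) := by
    set r := e1 - e0 - e2 with hr
    have e : e1 - e0 = e2 + r := by rw [hr]; abel
    have h1 : ‖e1 - e0‖ ^ 2 = ‖e1‖ ^ 2 - 2 * ⟪e1, e0⟫ + ‖e0‖ ^ 2 := norm_sub_sq_real _ _
    have h2 : ‖e2 + r‖ ^ 2 = ‖e2‖ ^ 2 + 2 * ⟪e2, r⟫ + ‖r‖ ^ 2 := norm_add_sq_real _ _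
    rw [e, h2] at h1
    have h3 : |⟪e2, r⟫| ≤ ‖e2‖ * ‖r‖ := abs_real_inner_le_norm _ _
    have h4 : ‖e2‖ * ‖r‖ ≤ 9 / 8 * l * (δ * l) := mul_le_mul n2 b0 (norm_nonneg _) (by positivity)
    have h5 : ‖r‖ ^ 2 ≤ (δ * l) ^ 2 := pow_le_pow_left₀ (norm_nonneg _) b0 2
    have h6 : (δ * l) ^ 2 ≤ 1 / 4 * (δ * l ^ 2) := by
      have : 0 ≤ δ * l ^ 2 := by positivity
      nlinarith
    have h7 := sq_nonneg ‖r‖
    rw [real_inner_comm e0 e1] at h1
    have := abs_le.1 h3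
    have := abs_le.1 a0
    have := abs_le.1 a1
    have := abs_le.1 a2
    rw [abs_le]
    constructor <;> nlinarith
  have hlin : ‖(k1 : ℝ) • e0 + (k2 : ℝ) • e1‖ ≤ l * (Real.sqrt (eis (k1, k2)) + 3 * K * Real.sqrt δ) := by
    have hsq : ‖(k1 : ℝ) • e0 + (k2 : ℝ) • e1‖ ^ 2 ≤ l ^ 2 * (eis (k1, k2) + 8 * K ^ 2 * δ) := by
      rw [norm_add_sq_real, norm_smul, norm_smul, real_inner_smul_left, real_inner_smul_right,
        mul_pow, mul_pow, Real.norm_eq_abs, Real.norm_eq_abs, sq_abs, sq_abs]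
      simp only [eis]
      have k1a : (k1 : ℝ) ^ 2 ≤ K ^ 2 := by
        rw [← sq_abs]; exact pow_le_pow_left₀ (abs_nonneg _) (habsK _ hk1'.1 hk1'.2) 2
      have k2a : (k2 : ℝ) ^ 2 ≤ K ^ 2 := by
        rw [← sq_abs]; exact pow_le_pow_left₀ (abs_nonneg _) (habsK _ hk2'.1 hk2'.2) 2
      have k12 : |(k1 : ℝ) * k2| ≤ K ^ 2 := by
        rw [abs_mul, sq]
        exact mul_le_mul (habsK _ hk1'.1 hk1'.2) (habsK _ hk2'.1 hk2'.2) (abs_nonneg _) hK0
      have t0 : (k1 : ℝ) ^ 2 * ‖e0‖ ^ 2 ≤ (k1 : ℝ) ^ 2 * l ^ 2 + K ^ 2 * (δ * l ^ 2) := by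
        have h1 : (k1 : ℝ) ^ 2 * ‖e0‖ ^ 2 ≤ (k1 : ℝ) ^ 2 * (l ^ 2 + δ * l ^ 2) :=
          mul_le_mul_of_nonneg_left (by linarith [(abs_le.1 a0).2]) (sq_nonneg _)
        have h2 : (k1 : ℝ) ^ 2 * (δ * l ^ 2) ≤ K ^ 2 * (δ * l ^ 2) :=
          mul_le_mul_of_nonneg_right k1a (by positivity)
        linarith
      have t1 : (k2 : ℝ) ^ 2 * ‖e1‖ ^ 2 ≤ (k2 : ℝ) ^ 2 * l ^ 2 + K ^ 2 * (δ * l ^ 2) := by
        have h1 : (k2 : ℝ) ^ 2 * ‖e1‖ ^ 2 ≤ (k2 : ℝ) ^ 2 * (l ^ 2 + δ * l ^ 2) :=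
          mul_le_mul_of_nonneg_left (by linarith [(abs_le.1 a1).2]) (sq_nonneg _)
        have h2 : (k2 : ℝ) ^ 2 * (δ * l ^ 2) ≤ K ^ 2 * (δ * l ^ 2) :=
          mul_le_mul_of_nonneg_right k2a (by positivity)
        linarith
      have t2 : (k1 : ℝ) * k2 * (2 * ⟪e0, e1⟫ - l ^ 2) ≤ K ^ 2 * (6 * (δ * l ^ 2)) := by
        calc (k1 : ℝ) * k2 * (2 * ⟪e0, e1⟫ - l ^ 2) ≤ |(k1 : ℝ) * k2 * (2 * ⟪e0, e1⟫ - l ^ 2)| :=
              le_abs_self _
          _ = |(k1 : ℝ) * k2| * |2 * ⟪e0, e1⟫ - l ^ 2| := abs_mul _ _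
          _ ≤ K ^ 2 * (6 * (δ * l ^ 2)) := mul_le_mul k12 hin (abs_nonneg _) (by positivity)
      nlinarith
    have heis : 0 ≤ eis (k1, k2) := by
      simp only [eis]; nlinarith [sq_nonneg ((k1 : ℝ) + k2), sq_nonneg (k1 : ℝ), sq_nonneg (k2 : ℝ)]
    have hsqd : Real.sqrt δ ^ 2 = δ := Real.sq_sqrt hδ
    have hsqe : Real.sqrt (eis (k1, k2)) ^ 2 = eis (k1, k2) := Real.sq_sqrt heis
    have h2 : l ^ 2 * (eis (k1, k2) + 8 * K ^ 2 * δ) ≤
        (l * (Real.sqrt (eis (k1, k2)) + 3 * K * Real.sqrt δ)) ^ 2 := by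
      rw [mul_pow]
      apply mul_le_mul_of_nonneg_left _ (sq_nonneg _)
      have h3 : 0 ≤ Real.sqrt (eis (k1, k2)) * (3 * K * Real.sqrt δ) := by positivity
      have h4 : (3 * (K : ℝ) * Real.sqrt δ) ^ 2 = 9 * K ^ 2 * δ := by
        rw [mul_pow, hsqd]; ring
      have h5 : 0 ≤ (K : ℝ) ^ 2 * δ := by positivity
      nlinarith
    exact abs_le_of_sq_le_sq' (hsq.trans h2) (by positivity) |>.2
  have hsqle : δ ≤ Real.sqrt δ := by
    have h1 : Real.sqrt δ ≤ 1 := Real.sqrt_le_one.2 (by linarith)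
    have h2 : Real.sqrt δ ^ 2 = δ := Real.sq_sqrt hδ
    nlinarith [Real.sqrt_nonneg δ]
  have e : pos ((x1, x2) + (k1, k2)) - pos (x1, x2) =
      ((pos (x1 + k1, x2 + k2) - (k2 : ℝ) • e1) - pos (x1 + k1, x2)) +
      ((pos (x1 + k1, x2) - (k1 : ℝ) • e0) - pos (x1, x2)) + ((k1 : ℝ) • e0 + (k2 : ℝ) • e1) := by
    simp only [Prod.mk_add_mk]; abel
  rw [e]
  refine (norm_add_le _ _).trans ?_
  refine (add_le_add_left (norm_add_le _ _) _).trans ?_
  have h8 : (K : ℝ) ≤ K ^ 2 := by nlinarith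
  have h9 : 0 ≤ l * Real.sqrt δ := by positivity
  have h10 : δ * l ≤ Real.sqrt δ * l := mul_le_mul_of_nonneg_right hsqle hl
  have h11 : (K : ℝ) ^ 2 * (δ * l) ≤ K ^ 2 * (Real.sqrt δ * l) :=
    mul_le_mul_of_nonneg_left h10 (by positivity)
  have h12 : (K : ℝ) * (l * Real.sqrt δ) ≤ K ^ 2 * (l * Real.sqrt δ) :=
    mul_le_mul_of_nonneg_right h8 h9
  nlinarith

open InnerProductGeometry

theorem angle_small {a b : E3} (ha : ‖a‖ = 1) (hb : ‖b‖ = 1) (h : ‖b - a‖ ≤ 1) :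
    angle a b ≤ ‖b - a‖ * (1 + ‖b - a‖) := by
  set θ := angle a b with hθ
  set χ := ‖b - a‖ with hχ
  have h0 : 0 ≤ θ := angle_nonneg _ _
  have hpi : θ ≤ Real.pi := angle_le_pi _ _
  have hcos : Real.cos θ = ⟪a, b⟫ := by
    rw [hθ, cos_angle, ha, hb]; simp
  have hχ2 : χ ^ 2 = 2 - 2 * Real.cos θ := by
    rw [hcos, hχ, norm_sub_sq_real, ha, hb, real_inner_comm]; ring
  have hχ0 : 0 ≤ χ := norm_nonneg _
  set φ := θ / 2 with hφ
  have hθφ : θ = 2 * φ := by rw [hφ]; ring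
  have hφ0 : 0 ≤ φ := by positivity
  have hφ1 : φ ≤ Real.pi / 2 := by rw [hφ]; linarith
  have hs0 : 0 ≤ Real.sin φ := Real.sin_nonneg_of_nonneg_of_le_pi hφ0 (by linarith [Real.pi_pos])
  have hc0 : 0 ≤ Real.cos φ := Real.cos_nonneg_of_neg_pi_div_two_le_of_le (by linarith [Real.pi_pos]) hφ1
  have hsc := Real.sin_sq_add_cos_sq φ
  have hχs : χ = 2 * Real.sin φ := by
    have : χ ^ 2 = (2 * Real.sin φ) ^ 2 := by
      rw [hχ2, hθφ, Real.cos_two_mul]; nlinarith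
    exact (pow_left_inj₀ hχ0 (by positivity) (by norm_num)).1 this
  have hs1 : Real.sin φ ≤ 1 / 2 := by linarith
  have hcpos : 0 < Real.cos φ := by
    rcases hc0.lt_or_eq with h1 | h1
    · exact h1
    · rw [← h1] at hsc; nlinarith
  have hφ2 : φ < Real.pi / 2 := by
    rcases hφ1.lt_or_eq with h1 | h1
    · exact h1
    · rw [h1, Real.cos_pi_div_two] at hcpos; exact absurd hcpos (lt_irrefl _)
  have ht := Real.le_tan hφ0 hφ2
  rw [Real.tan_eq_sin_div_cos, le_div_iff₀ hcpos] at ht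
  have hc1 : 1 - Real.sin φ ^ 2 ≤ Real.cos φ := by
    nlinarith [Real.cos_le_one φ]
  have hc2 : 1 ≤ Real.cos φ * (1 + 2 * Real.sin φ) := by
    have : (1 - Real.sin φ ^ 2) * (1 + 2 * Real.sin φ) ≤ Real.cos φ * (1 + 2 * Real.sin φ) :=
      mul_le_mul_of_nonneg_right hc1 (by positivity)
    nlinarith
  have hfin : φ ≤ Real.sin φ * (1 + 2 * Real.sin φ) := by
    have h1 : φ * 1 ≤ φ * (Real.cos φ * (1 + 2 * Real.sin φ)) :=
      mul_le_mul_of_nonneg_left hc2 hφ0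
    have h2 : φ * Real.cos φ * (1 + 2 * Real.sin φ) ≤ Real.sin φ * (1 + 2 * Real.sin φ) :=
      mul_le_mul_of_nonneg_right ht (by positivity)
    nlinarith
  rw [hχs, hθφ]
  nlinarith

theorem angle_le_two_mul {a b : E3} (ha : ‖a‖ = 1) (hb : ‖b‖ = 1) (h : ‖b - a‖ ≤ 1) :
    angle a b ≤ 2 * ‖b - a‖ := by
  refine (angle_small ha hb h).trans ?_
  nlinarith [norm_nonneg (b - a)]

theorem angle_path (p : ℕ → E3) (M : ℕ) :
    angle (p 0) (p M) ≤ ∑ t ∈ Finset.range M, angle (p t) (p (t + 1)) +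
      (if M = 0 then angle (p 0) (p 0) else 0) := by
  induction M with
  | zero => simp
  | succ M ih =>
    rw [Finset.sum_range_succ]
    have h1 := angle_le_angle_add_angle (p 0) (p M) (p (M + 1))
    rcases Nat.eq_zero_or_pos M with hM | hM
    · subst hM; simp
    · rw [if_neg hM.ne'] at ih
      simp only [Nat.add_eq_zero_iff, one_ne_zero, and_false, if_false, add_zero]
      linarith

theorem one_sub_cos_le {x : ℝ} (h0 : 0 ≤ x) (h1 : x ≤ 1) :
    1 - Real.cos x ≤ x ^ 2 / 2 - x ^ 4 / 80 := by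
  set y := x / 2 with hy
  have hxy : x = 2 * y := by rw [hy]; ring
  have hy0 : 0 ≤ y := by positivity
  have hy1 : y ≤ 1 / 2 := by rw [hy]; linarith
  have hb := Real.sin_bound (x := y) (by rw [abs_of_nonneg hy0]; linarith)
  rw [abs_of_nonneg hy0] at hb
  have hb2 := (abs_le.1 hb).2
  have hy34 : y ^ 4 ≤ y ^ 3 := by nlinarith [pow_nonneg hy0 3]
  have hs : Real.sin y ≤ y - y ^ 3 / 10 := by nlinarith [pow_nonneg hy0 3]
  have hs0 : 0 ≤ Real.sin y := Real.sin_nonneg_of_nonneg_of_le_pi hy0 (by linarith [Real.pi_gt_three])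
  have hc : Real.cos x = 1 - 2 * Real.sin y ^ 2 := by
    rw [hxy, Real.cos_two_mul]; nlinarith [Real.sin_sq_add_cos_sq y]
  have hs2 : Real.sin y ^ 2 ≤ (y - y ^ 3 / 10) ^ 2 := pow_le_pow_left₀ hs0 hs 2
  rw [hc, hxy]
  have : (y - y ^ 3 / 10) ^ 2 ≤ y ^ 2 - y ^ 4 / 10 := by
    have e : y ^ 2 - y ^ 4 / 10 - (y - y ^ 3 / 10) ^ 2 = y ^ 4 * (1 / 10 - y ^ 2 / 100) := by ring
    have h3 : 0 ≤ y ^ 4 * (1 / 10 - y ^ 2 / 100) := mul_nonneg (by positivity) (by nlinarith)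
    linarith
  nlinarith

theorem lip_box {pos : ℤ × ℤ → E3} {m : ℕ} {c : ℝ}
    (hstep : ∀ v ∈ box m, ∀ k < 6, ‖pos (v + hdir k) - pos v‖ ≤ c) {a b : ℤ × ℤ}
    (ha : a ∈ box m) (hb : b ∈ box m) :
    ‖pos b - pos a‖ ≤ (|(b.1 : ℝ) - a.1| + |(b.2 : ℝ) - a.2|) * c := by
  obtain ⟨a1, a2⟩ := a
  obtain ⟨b1, b2⟩ := b
  simp only [box, mem_ofPred_eq, abs_le] at ha hb
  have h1 := int_lip (fun j : ℤ => pos (j, a2)) (a := c) (lo := -(m : ℤ)) (hi := m) (by
    intro j hj1 hj2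
    have := hstep (j, a2) (by simp only [box, mem_ofPred_eq, abs_le]; omega) 0 (by norm_num)
    simpa [hdir] using this) (i := a1) (j := b1) ha.1.1 ha.1.2 hb.1.1 hb.1.2
  have h2 := int_lip (fun j : ℤ => pos (b1, j)) (a := c) (lo := -(m : ℤ)) (hi := m) (by
    intro j hj1 hj2
    have := hstep (b1, j) (by simp only [box, mem_ofPred_eq, abs_le]; omega) 1 (by norm_num)
    simpa [hdir] using this) (i := a2) (j := b2) ha.2.1 ha.2.2 hb.2.1 hb.2.2
  have e : pos (b1, b2) - pos (a1, a2) = (pos (b1, b2) - pos (b1, a2)) +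
    (pos (b1, a2) - pos (a1, a2)) := by abel
  rw [e]
  refine (norm_add_le _ _).trans ?_
  simp only
  linarith

/-- complex number of a lattice point -/
def toC (v : ℤ × ℤ) : ℂ := ⟨v.1, v.2⟩

theorem eis_eq (v : ℤ × ℤ) : eis v = ‖eisMap (toC v)‖ ^ 2 := by
  rw [normSq_eisMap]; simp [eis, toC]

theorem sqrt_eis (v : ℤ × ℤ) : Real.sqrt (eis v) = ‖eisMap (toC v)‖ := by
  rw [eis_eq, Real.sqrt_sq (norm_nonneg _)]

theorem mul_sqrt_eis_le {M : ℕ} (hM : 1 ≤ M) (y : ℤ × ℤ) :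
    M * Real.sqrt (eis (y.1 / (M : ℤ), y.2 / (M : ℤ))) ≤ Real.sqrt (eis y) + 2 * M := by
  have hM0 : (0 : ℤ) < M := by exact_mod_cast hM
  set k : ℤ × ℤ := (y.1 / (M : ℤ), y.2 / (M : ℤ)) with hk
  set r : ℤ × ℤ := (y.1 % (M : ℤ), y.2 % (M : ℤ)) with hr
  have hr1 := Int.emod_nonneg y.1 hM0.ne'
  have hr2 := Int.emod_nonneg y.2 hM0.ne'
  have hr3 := Int.emod_lt_of_pos y.1 hM0
  have hr4 := Int.emod_lt_of_pos y.2 hM0
  have e1 : (M : ℤ) * (y.1 / M) + y.1 % M = y.1 := Int.mul_ediv_add_emod _ _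
  have e2 : (M : ℤ) * (y.2 / M) + y.2 % M = y.2 := Int.mul_ediv_add_emod _ _
  rw [sqrt_eis, sqrt_eis]
  have hR1 : (0 : ℝ) ≤ r.1 := by exact_mod_cast hr1
  have hR2 : (0 : ℝ) ≤ r.2 := by exact_mod_cast hr2
  have hR3 : (r.1 : ℝ) ≤ M := by exact_mod_cast hr3.le
  have hR4 : (r.2 : ℝ) ≤ M := by exact_mod_cast hr4.le
  have hrn : ‖eisMap (toC r)‖ ≤ 2 * M := by
    have : ‖eisMap (toC r)‖ ^ 2 ≤ (2 * M) ^ 2 := by
      rw [← eis_eq]; simp only [eis]; nlinarith
    exact abs_le_of_sq_le_sq' this (by positivity) |>.2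
  have hlin : (M : ℝ) • eisMap (toC k) = eisMap (toC y) - eisMap (toC r) := by
    rw [← map_smul, ← map_sub]
    congr 1
    apply Complex.ext
    · simp only [Complex.smul_re, Complex.sub_re, toC, smul_eq_mul, hk, hr]
      have : ((M : ℤ) : ℝ) * ((y.1 / (M : ℤ) : ℤ) : ℝ) + ((y.1 % (M : ℤ) : ℤ) : ℝ) = (y.1 : ℝ) := by
        exact_mod_cast e1
      rw [Int.cast_natCast] at this
      linarith
    · simp only [Complex.smul_im, Complex.sub_im, toC, smul_eq_mul, hk, hr]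
      have : ((M : ℤ) : ℝ) * ((y.2 / (M : ℤ) : ℤ) : ℝ) + ((y.2 % (M : ℤ) : ℤ) : ℝ) = (y.2 : ℝ) := by
        exact_mod_cast e2
      rw [Int.cast_natCast] at this
      linarith
  have h1 : (M : ℝ) * ‖eisMap (toC k)‖ = ‖(M : ℝ) • eisMap (toC k)‖ := by
    rw [norm_smul]; simp
  rw [h1, hlin]
  refine (norm_sub_le _ _).trans ?_
  linarith

/-- points of the path -/
def zp (M : ℕ) (x y : ℤ × ℤ) (t : ℕ) : ℤ × ℤ :=
  (x.1 + t * (y.1 / (M : ℤ)), x.2 + t * (y.2 / (M : ℤ)))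

theorem zp_injective (M : ℕ) (y : ℤ × ℤ) (t : ℕ) : Function.Injective (fun x => zp M x y t) := by
  intro a b h
  simp only [zp, Prod.mk.injEq] at h
  apply Prod.ext
  · linarith [h.1]
  · linarith [h.2]

theorem pair_bound {pos : ℤ × ℤ → E3} {l δ c : ℝ} {m K M : ℕ} (hl : 0 ≤ l) (hδ : 0 ≤ δ)
    (hδ1 : δ ≤ 1 / 4) (hc : 0 ≤ c) (hK : 1 ≤ K) (hM : 1 ≤ M) (hunit : ∀ v, ‖pos v‖ = 1)
    (hstep : ∀ v ∈ box m, ∀ k < 6, ‖pos (v + hdir k) - pos v‖ ≤ c)
    (hKc : 2 * K * c ≤ 1) (hMc : 2 * M * c ≤ 1) {near : Finset (ℤ × ℤ)} {x y : ℤ × ℤ}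
    (hnear : ∀ t, t < M → zp M x y t ∉ near → ∀ w : ℤ × ℤ, |w.1 - (zp M x y t).1| ≤ K →
      |w.2 - (zp M x y t).2| ≤ K → NearStar pos l δ w)
    (hbox : ∀ t, t ≤ M → zp M x y t ∈ box m) (hxy : x + y ∈ box m)
    (hk1 : |y.1 / (M : ℤ)| ≤ K) (hk2 : |y.2 / (M : ℤ)| ≤ K) :
    angle (pos x) (pos (x + y)) ≤
      (l * (Real.sqrt (eis y) + 2 * M) + M * l * (8 * K ^ 2 * Real.sqrt δ)) * (1 + 2 * K * c) +
      4 * K * c * ((Finset.range M).filter (fun t => zp M x y t ∈ near)).card + 4 * M * c := by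
  set k : ℤ × ℤ := (y.1 / (M : ℤ), y.2 / (M : ℤ)) with hk
  have hM0 : (0 : ℤ) < M := by exact_mod_cast hM
  have hK0 : (0 : ℝ) ≤ K := Nat.cast_nonneg _
  have hMR : (0 : ℝ) ≤ M := Nat.cast_nonneg _
  have hk1' : |(k.1 : ℝ)| ≤ K := by exact_mod_cast hk1
  have hk2' : |(k.2 : ℝ)| ≤ K := by exact_mod_cast hk2
  have hz0 : zp M x y 0 = x := by simp [zp]
  have hzs : ∀ t, zp M x y (t + 1) = zp M x y t + k := by
    intro t
    simp only [zp, hk, Prod.mk_add_mk, Nat.cast_add, Nat.cast_one]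
    apply Prod.ext <;> simp only <;> ring
  -- crude bound
  have hcrude : ∀ t, t < M → ‖pos (zp M x y (t + 1)) - pos (zp M x y t)‖ ≤ 2 * K * c := by
    intro t ht
    refine (lip_box hstep (hbox t ht.le) (hbox (t + 1) ht)).trans ?_
    rw [hzs]
    simp only [Prod.fst_add, Prod.snd_add, Int.cast_add, add_sub_cancel_left]
    have : |(k.1 : ℝ)| + |(k.2 : ℝ)| ≤ 2 * K := by linarith
    exact mul_le_mul_of_nonneg_right this hc
  set Q := l * (Real.sqrt (eis k) + 8 * K ^ 2 * Real.sqrt δ) with hQ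
  have hQ0 : 0 ≤ Q := by positivity
  have hstepang : ∀ t ∈ Finset.range M, angle (pos (zp M x y t)) (pos (zp M x y (t + 1))) ≤
      Q * (1 + 2 * K * c) + (if zp M x y t ∈ near then 4 * K * c else 0) := by
    intro t ht
    rw [Finset.mem_range] at ht
    have hcr := hcrude t ht
    split_ifs with hn
    · have := angle_le_two_mul (hunit (zp M x y t)) (hunit (zp M x y (t + 1))) (hcr.trans hKc)
      have h2 : 0 ≤ Q * (1 + 2 * K * c) := by positivity
      linarith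
    · have h1 := angle_small (hunit (zp M x y t)) (hunit (zp M x y (t + 1))) (hcr.trans hKc)
      have h2 := chunk hl hδ hδ1 hK (hnear t ht hn) (k := k) hk1 hk2
      rw [← hzs] at h2
      refine h1.trans ?_
      rw [add_zero]
      apply mul_le_mul h2 (by linarith) (by positivity) hQ0
  have hpath := angle_path (fun t => pos (zp M x y t)) M
  rw [if_neg (by omega), add_zero] at hpath
  simp only [hz0] at hpath
  have hsum := Finset.sum_le_sum hstepang
  rw [Finset.sum_add_distrib, Finset.sum_const, Finset.card_range, nsmul_eq_mul,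
    ← Finset.sum_filter, Finset.sum_const, nsmul_eq_mul] at hsum
  -- last piece
  have hlast : angle (pos (zp M x y M)) (pos (x + y)) ≤ 4 * M * c := by
    have e1 : (M : ℤ) * (y.1 / M) + y.1 % M = y.1 := Int.mul_ediv_add_emod _ _
    have e2 : (M : ℤ) * (y.2 / M) + y.2 % M = y.2 := Int.mul_ediv_add_emod _ _
    have h1 := lip_box hstep (hbox M le_rfl) hxy
    have h2 : |((x + y).1 : ℝ) - (zp M x y M).1| ≤ M := by
      have : (x + y).1 - (zp M x y M).1 = y.1 % M := by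
        simp only [zp, Prod.fst_add]; linarith
      have h3 : ((x + y).1 : ℝ) - (zp M x y M).1 = ((y.1 % M : ℤ) : ℝ) := by exact_mod_cast this
      rw [h3, abs_of_nonneg (by exact_mod_cast Int.emod_nonneg y.1 hM0.ne')]
      exact_mod_cast (Int.emod_lt_of_pos y.1 hM0).le
    have h3 : |((x + y).2 : ℝ) - (zp M x y M).2| ≤ M := by
      have : (x + y).2 - (zp M x y M).2 = y.2 % M := by
        simp only [zp, Prod.snd_add]; linarith
      have h3 : ((x + y).2 : ℝ) - (zp M x y M).2 = ((y.2 % M : ℤ) : ℝ) := by exact_mod_cast this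
      rw [h3, abs_of_nonneg (by exact_mod_cast Int.emod_nonneg y.2 hM0.ne')]
      exact_mod_cast (Int.emod_lt_of_pos y.2 hM0).le
    have h4 : ‖pos (x + y) - pos (zp M x y M)‖ ≤ 2 * M * c := by
      refine h1.trans ?_
      exact mul_le_mul_of_nonneg_right (by linarith) hc
    have := angle_le_two_mul (hunit (zp M x y M)) (hunit (x + y)) (h4.trans hMc)
    linarith
  have htri := angle_le_angle_add_angle (pos x) (pos (zp M x y M)) (pos (x + y))
  have hMQ : M * Q ≤ l * (Real.sqrt (eis y) + 2 * M) + M * l * (8 * K ^ 2 * Real.sqrt δ) := by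
    have h1 := mul_le_mul_of_nonneg_left (mul_sqrt_eis_le hM y) hl
    rw [hQ]
    rw [← hk] at h1
    nlinarith
  have h5 : M * (Q * (1 + 2 * K * c)) ≤ (l * (Real.sqrt (eis y) + 2 * M) +
      M * l * (8 * K ^ 2 * Real.sqrt δ)) * (1 + 2 * K * c) := by
    rw [← mul_assoc]
    exact mul_le_mul_of_nonneg_right hMQ (by positivity)
  have h6 : (((Finset.range M).filter (fun t => zp M x y t ∈ near)).card : ℝ) * (4 * K * c) =
      4 * K * c * ((Finset.range M).filter (fun t => zp M x y t ∈ near)).card := by ring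
  rw [h6] at hsum
  linarith

theorem exists_good_x (B D near : Finset (ℤ × ℤ)) (hB : B.Nonempty) (M : ℕ)
    (z : (ℤ × ℤ) → (ℤ × ℤ) → ℕ → ℤ × ℤ) (hz : ∀ y t, Function.Injective (fun x => z x y t)) :
    ∃ x ∈ B, B.card * (∑ y ∈ D, ((Finset.range M).filter (fun t => z x y t ∈ near)).card) ≤
      D.card * M * near.card := by
  by_contra hcon
  push Not at hcon
  have h1 : ∑ x ∈ B, (D.card * M * near.card) < ∑ x ∈ B, B.card *
      (∑ y ∈ D, ((Finset.range M).filter (fun t => z x y t ∈ near)).card) :=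
    Finset.sum_lt_sum_of_nonempty hB hcon
  rw [Finset.sum_const, smul_eq_mul, ← Finset.mul_sum] at h1
  have h2 : ∑ x ∈ B, (∑ y ∈ D, ((Finset.range M).filter (fun t => z x y t ∈ near)).card) ≤
      D.card * M * near.card := by
    rw [Finset.sum_comm]
    have : ∀ y ∈ D, ∑ x ∈ B, ((Finset.range M).filter (fun t => z x y t ∈ near)).card ≤
        M * near.card := by
      intro y _
      simp only [Finset.card_filter]
      rw [Finset.sum_comm]
      have h3 : ∀ t ∈ Finset.range M, ∑ x ∈ B, (if z x y t ∈ near then 1 else 0) ≤ near.card := by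
        intro t _
        rw [← Finset.card_filter]
        apply Finset.card_le_card_of_injOn (fun x => z x y t)
        · intro x hx
          exact (Finset.mem_filter.1 hx).2
        · exact (hz y t).injOn
      refine (Finset.sum_le_sum h3).trans ?_
      rw [Finset.sum_const, Finset.card_range, smul_eq_mul]
    refine (Finset.sum_le_sum this).trans ?_
    rw [Finset.sum_const, smul_eq_mul, mul_assoc]
  exact absurd (Nat.mul_le_mul_left B.card h2) (not_le.2 h1)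

theorem eis_abs_le {R : ℝ} (hR : 0 ≤ R) {v : ℤ × ℤ} (h : eis v ≤ R ^ 2) :
    |(v.1 : ℝ)| ≤ 2 * R ∧ |(v.2 : ℝ)| ≤ 2 * R := by
  simp only [eis] at h
  constructor
  · apply abs_le_of_sq_le_sq _ (by positivity)
    nlinarith [sq_nonneg ((v.1 : ℝ) + 2 * v.2)]
  · apply abs_le_of_sq_le_sq _ (by positivity)
    nlinarith [sq_nonneg ((v.2 : ℝ) + 2 * v.1)]

/-- symmetric box as a finset -/
def bx (n : ℕ) : Finset (ℤ × ℤ) := Finset.Icc (-(n : ℤ)) n ×ˢ Finset.Icc (-(n : ℤ)) n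

theorem mem_bx {n : ℕ} {v : ℤ × ℤ} : v ∈ bx n ↔ |v.1| ≤ n ∧ |v.2| ≤ n := by
  simp only [bx, Finset.mem_product, Finset.mem_Icc, abs_le]

theorem card_bx (n : ℕ) : (bx n).card = (2 * n + 1) ^ 2 := by
  rw [bx, Finset.card_product, Int.card_Icc]
  have : ((n : ℤ) + 1 - -(n : ℤ)).toNat = 2 * n + 1 := by omega
  rw [this, sq]

/-- thickening of the bad set -/
def thick (bad : Finset (ℤ × ℤ)) (K : ℕ) : Finset (ℤ × ℤ) :=
  (bad ×ˢ bx K).image (fun p => p.1 + p.2)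

theorem card_thick (bad : Finset (ℤ × ℤ)) (K : ℕ) :
    (thick bad K).card ≤ bad.card * (2 * K + 1) ^ 2 := by
  refine Finset.card_image_le.trans ?_
  rw [Finset.card_product, card_bx]

theorem mem_thick {bad : Finset (ℤ × ℤ)} {K : ℕ} {v w : ℤ × ℤ} (hw : w ∈ bad)
    (h1 : |w.1 - v.1| ≤ K) (h2 : |w.2 - v.2| ≤ K) : v ∈ thick bad K := by
  rw [thick, Finset.mem_image]
  refine ⟨(w, v - w), ?_, by simp⟩
  rw [Finset.mem_product, mem_bx]
  refine ⟨hw, ?_, ?_⟩
  · rw [Prod.fst_sub, abs_sub_comm]; exact h1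
  · rw [Prod.snd_sub, abs_sub_comm]; exact h2

/-- The counting core: a good base point. -/
theorem flat_core {pos : ℤ × ℤ → E3} {l δ c R ν : ℝ} {m K M : ℕ} (hl : 0 ≤ l) (hδ : 0 ≤ δ)
    (hδ1 : δ ≤ 1 / 4) (hc : 0 ≤ c) (hK : 1 ≤ K) (hM : 1 ≤ M) (hR : 1 ≤ R) (hν : 0 < ν)
    (hunit : ∀ v, ‖pos v‖ = 1)
    (hstep : ∀ v ∈ box m, ∀ k < 6, ‖pos (v + hdir k) - pos v‖ ≤ c)
    (hKc : 2 * K * c ≤ 1) (hMc : 2 * M * c ≤ 1) {bad : Finset (ℤ × ℤ)}
    (hns : ∀ v ∈ box m, v ∉ bad → NearStar pos l δ v)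
    (hMR : (M : ℝ) ≤ R) (hKR : (K : ℝ) ≤ R) (hm : 5 * R ≤ m) (hMK : 2 * R + M ≤ K * M)
    {ε : ℝ} (hbad : (bad.card : ℝ) * (2 * K + 1) ^ 2 ≤ ε * ν * R ^ 2) :
    ∃ x : ℤ × ℤ, (1 - ε) * ({v : ℤ × ℤ | eis v ≤ R ^ 2}.ncard : ℝ) ≤
      ({v ∈ box m | angle (pos x) (pos v) ≤
        (l * (R + 2 * M) + M * l * (8 * K ^ 2 * Real.sqrt δ)) * (1 + 2 * K * c) +
          4 * K * c * (ν * M) + 4 * M * c}.ncard : ℝ) := by
  classical
  have hR0 : 0 ≤ R := by linarith
  set b := ⌊R⌋₊ with hb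
  set B := bx b with hB
  set D := (eis_finite R).toFinset with hD
  set near := thick bad K with hnear
  have hbR : (b : ℝ) ≤ R := Nat.floor_le hR0
  have hbR' : R < b + 1 := Nat.lt_floor_add_one R
  have hBne : B.Nonempty := ⟨(0, 0), by rw [hB, mem_bx]; simp⟩
  obtain ⟨x, hxB, hx⟩ := exists_good_x B D near hBne M (zp M) (zp_injective M)
  refine ⟨x, ?_⟩
  have hcardD : ({v : ℤ × ℤ | eis v ≤ R ^ 2}.ncard : ℝ) = D.card := by
    rw [Set.ncard_eq_toFinset_card _ (eis_finite R)]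
  rw [hcardD]
  have hM0 : (0 : ℤ) < M := by exact_mod_cast hM
  have hMpos : (0 : ℝ) < M := by exact_mod_cast hM
  have hx1 : |(x.1 : ℝ)| ≤ R := by
    have := (mem_bx.1 hxB).1
    have h2 : |(x.1 : ℝ)| ≤ b := by exact_mod_cast this
    linarith
  have hx2 : |(x.2 : ℝ)| ≤ R := by
    have := (mem_bx.1 hxB).2
    have h2 : |(x.2 : ℝ)| ≤ b := by exact_mod_cast this
    linarith
  -- geometry of paths
  have hdiv : ∀ a : ℤ, |(a : ℝ)| ≤ 2 * R → ∀ t : ℕ, t ≤ M →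
      |((t * (a / (M : ℤ)) : ℤ) : ℝ)| ≤ 2 * R + M := by
    intro a ha t ht
    have e1 : (M : ℤ) * (a / M) + a % M = a := Int.mul_ediv_add_emod _ _
    have h1 := Int.emod_nonneg a hM0.ne'
    have h2 := Int.emod_lt_of_pos a hM0
    have h3 : |((M * (a / (M : ℤ)) : ℤ) : ℝ)| ≤ 2 * R + M := by
      have e2 : ((M * (a / (M : ℤ)) : ℤ) : ℝ) = (a : ℝ) - ((a % (M : ℤ) : ℤ) : ℝ) := by
        have : (M : ℤ) * (a / M) = a - a % M := by linarith
        exact_mod_cast this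
      rw [e2]
      have h4 : (0 : ℝ) ≤ ((a % (M : ℤ) : ℤ) : ℝ) := by exact_mod_cast h1
      have h5 : ((a % (M : ℤ) : ℤ) : ℝ) ≤ M := by exact_mod_cast h2.le
      have h6 := abs_le.1 ha
      rw [abs_le]; constructor <;> linarith
    refine le_trans ?_ h3
    push_cast
    rw [abs_mul, abs_mul]
    apply mul_le_mul_of_nonneg_right _ (abs_nonneg _)
    rw [Nat.abs_cast, Nat.abs_cast]
    exact_mod_cast ht
  have hkb : ∀ a : ℤ, |(a : ℝ)| ≤ 2 * R → |a / (M : ℤ)| ≤ K := by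
    intro a ha
    have h1 := hdiv a ha M le_rfl
    push_cast at h1
    rw [abs_mul, Nat.abs_cast] at h1
    have h2 : |((a / (M : ℤ) : ℤ) : ℝ)| * M ≤ K * M := by
      rw [mul_comm]; linarith
    have h3 := le_of_mul_le_mul_right h2 hMpos
    exact_mod_cast h3
  have hzb : ∀ y : ℤ × ℤ, eis y ≤ R ^ 2 → ∀ t : ℕ, t ≤ M →
      |((zp M x y t).1 : ℝ)| ≤ 4 * R ∧ |((zp M x y t).2 : ℝ)| ≤ 4 * R := by
    intro y hy t ht
    obtain ⟨h1, h2⟩ := eis_abs_le hR0 hy
    have h3 := hdiv _ h1 t ht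
    have h4 := hdiv _ h2 t ht
    constructor
    · have : ((zp M x y t).1 : ℝ) = x.1 + ((t * (y.1 / (M : ℤ)) : ℤ) : ℝ) := by
        simp only [zp]; push_cast; ring
      rw [this]
      refine (abs_add_le _ _).trans ?_
      linarith
    · have : ((zp M x y t).2 : ℝ) = x.2 + ((t * (y.2 / (M : ℤ)) : ℤ) : ℝ) := by
        simp only [zp]; push_cast; ring
      rw [this]
      refine (abs_add_le _ _).trans ?_
      linarith
  have hbox_of : ∀ v : ℤ × ℤ, |(v.1 : ℝ)| ≤ 5 * R → |(v.2 : ℝ)| ≤ 5 * R → v ∈ box m := by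
    intro v h1 h2
    refine ⟨?_, ?_⟩
    · have : |(v.1 : ℝ)| ≤ m := h1.trans hm
      exact_mod_cast this
    · have : |(v.2 : ℝ)| ≤ m := h2.trans hm
      exact_mod_cast this
  -- good displacements
  set N : ℤ × ℤ → ℕ := fun y => ((Finset.range M).filter (fun t => zp M x y t ∈ near)).card with hN
  set D' := D.filter (fun y => (N y : ℝ) ≤ ν * M) with hD'
  have hcount : (1 - ε) * (D.card : ℝ) ≤ D'.card := by
    have hsplit : (D.card : ℝ) = D'.card + (D.filter (fun y => ¬ (N y : ℝ) ≤ ν * M)).card := by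
      have := Finset.card_filter_add_card_filter_not (s := D) (fun y => (N y : ℝ) ≤ ν * M)
      exact_mod_cast this.symm
    set Db := D.filter (fun y => ¬ (N y : ℝ) ≤ ν * M) with hDb
    have hS : (Db.card : ℝ) * (ν * M) ≤ ((∑ y ∈ D, N y : ℕ) : ℝ) := by
      push_cast
      calc (Db.card : ℝ) * (ν * M) = ∑ y ∈ Db, ν * M := by rw [Finset.sum_const, nsmul_eq_mul]
        _ ≤ ∑ y ∈ Db, (N y : ℝ) := by
            apply Finset.sum_le_sum
            intro y hy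
            exact (not_le.1 (Finset.mem_filter.1 hy).2).le
        _ ≤ ∑ y ∈ D, (N y : ℝ) := by
            apply Finset.sum_le_sum_of_subset_of_nonneg (Finset.filter_subset _ _)
            intros; exact Nat.cast_nonneg _
    have hx' : (B.card : ℝ) * ((∑ y ∈ D, N y : ℕ) : ℝ) ≤ D.card * M * near.card := by
      exact_mod_cast hx
    have hBcard : R ^ 2 ≤ (B.card : ℝ) := by
      rw [hB, card_bx]
      push_cast
      apply pow_le_pow_left₀ hR0
      linarith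
    have hncard : (near.card : ℝ) ≤ ε * ν * R ^ 2 := by
      refine le_trans ?_ hbad
      have := card_thick bad K
      exact_mod_cast this
    have hR2 : 0 < R ^ 2 := by positivity
    have h1 : R ^ 2 * ((∑ y ∈ D, N y : ℕ) : ℝ) ≤ D.card * M * (ε * ν * R ^ 2) := by
      calc R ^ 2 * ((∑ y ∈ D, N y : ℕ) : ℝ) ≤ B.card * ((∑ y ∈ D, N y : ℕ) : ℝ) :=
            mul_le_mul_of_nonneg_right hBcard (Nat.cast_nonneg _)
        _ ≤ D.card * M * near.card := hx'
        _ ≤ _ := mul_le_mul_of_nonneg_left hncard (by positivity)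
    have h2 : ((∑ y ∈ D, N y : ℕ) : ℝ) ≤ D.card * ε * (ν * M) := by
      have : R ^ 2 * ((∑ y ∈ D, N y : ℕ) : ℝ) ≤ R ^ 2 * (D.card * ε * (ν * M)) := by
        refine h1.trans (le_of_eq ?_); ring
      exact le_of_mul_le_mul_left this hR2
    have h3 : (Db.card : ℝ) ≤ D.card * ε := by
      have : (Db.card : ℝ) * (ν * M) ≤ D.card * ε * (ν * M) := hS.trans h2
      exact le_of_mul_le_mul_right this (by positivity)
    linarith
  refine hcount.trans ?_
  rw [← Set.ncard_coe_finset D']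
  have hfin : {v ∈ box m | angle (pos x) (pos v) ≤
        (l * (R + 2 * M) + M * l * (8 * K ^ 2 * Real.sqrt δ)) * (1 + 2 * K * c) +
          4 * K * c * (ν * M) + 4 * M * c}.Finite := by
    apply Set.Finite.subset (bx m).finite_toSet
    intro v hv
    rw [Finset.mem_coe, mem_bx]
    exact hv.1
  have hle : (D' : Set (ℤ × ℤ)).ncard ≤ {v ∈ box m | angle (pos x) (pos v) ≤
        (l * (R + 2 * M) + M * l * (8 * K ^ 2 * Real.sqrt δ)) * (1 + 2 * K * c) +
          4 * K * c * (ν * M) + 4 * M * c}.ncard := by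
    apply Set.ncard_le_ncard_of_injOn (fun y => x + y) _ (fun a _ b _ h => add_left_cancel h) hfin
    intro y hy
    rw [Finset.mem_coe, hD', Finset.mem_filter, hD, Set.Finite.mem_toFinset] at hy
    obtain ⟨hyR, hyN⟩ := hy
    have hyR : eis y ≤ R ^ 2 := hyR
    obtain ⟨hy1, hy2⟩ := eis_abs_le hR0 hyR
    have hxy : x + y ∈ box m := by
      apply hbox_of
      · rw [Prod.fst_add]; push_cast
        refine (abs_add_le _ _).trans ?_
        linarith
      · rw [Prod.snd_add]; push_cast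
        refine (abs_add_le _ _).trans ?_
        linarith
    refine ⟨hxy, ?_⟩
    have hpb := pair_bound hl hδ hδ1 hc hK hM hunit hstep hKc hMc (near := near) (x := x) (y := y)
      (by
        intro t ht hn w hw1 hw2
        obtain ⟨hz1, hz2⟩ := hzb y hyR t ht.le
        have hw1' : |(w.1 : ℝ) - ((zp M x y t).1 : ℝ)| ≤ K := by exact_mod_cast hw1
        have hw2' : |(w.2 : ℝ) - ((zp M x y t).2 : ℝ)| ≤ K := by exact_mod_cast hw2
        apply hns w
        · apply hbox_of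
          · have := abs_le.1 hw1'; have := abs_le.1 hz1
            rw [abs_le]; constructor <;> linarith
          · have := abs_le.1 hw2'; have := abs_le.1 hz2
            rw [abs_le]; constructor <;> linarith
        · intro hwb
          exact hn (mem_thick hwb hw1 hw2))
      (by
        intro t ht
        obtain ⟨hz1, hz2⟩ := hzb y hyR t ht
        apply hbox_of <;> linarith)
      hxy (hkb _ hy1) (hkb _ hy2)
    refine hpb.trans ?_
    have hsq : Real.sqrt (eis y) ≤ R := by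
      rw [Real.sqrt_le_left hR0]; exact hyR
    have hc1 : 0 ≤ 1 + 2 * K * c := by positivity
    have h1 : (l * (Real.sqrt (eis y) + 2 * M) + M * l * (8 * K ^ 2 * Real.sqrt δ)) *
        (1 + 2 * K * c) ≤ (l * (R + 2 * M) + M * l * (8 * K ^ 2 * Real.sqrt δ)) *
        (1 + 2 * K * c) := by
      apply mul_le_mul_of_nonneg_right _ hc1
      have := mul_le_mul_of_nonneg_left hsq hl
      linarith
    have h2 : 4 * K * c * ((Finset.range M).filter (fun t => zp M x y t ∈ near)).card ≤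
        4 * K * c * (ν * M) := mul_le_mul_of_nonneg_left hyN (by positivity)
    linarith
  exact_mod_cast hle

theorem L0_le : Real.sqrt (8 * Real.pi / Real.sqrt 3) ≤ 4 := by
  have h3pos : 0 < Real.sqrt 3 := by positivity
  rw [Real.sqrt_le_left (by norm_num), div_le_iff₀ h3pos]
  have h1 : Real.pi < 3.15 := Real.pi_lt_d2
  have h2 : (1.73 : ℝ) ≤ Real.sqrt 3 := Real.le_sqrt_of_sq_le (by norm_num)
  nlinarith

theorem num_sq {R ε : ℝ} (hR : 0 < R) (h : 2 / R ≤ ε) : (1 - ε) * R ^ 2 ≤ (R - 1) ^ 2 := by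
  rw [div_le_iff₀ hR] at h
  nlinarith

theorem num_ang {l R M K0 K c δ' ν ε θ0 C ρ : ℝ} (hl : 0 ≤ l) (hR : 0 < R) (hM : 0 ≤ M)
    (hK0 : 2 ≤ K0) (hK : K = 3 * K0) (hc : 0 < c) (hδ'0 : 0 ≤ δ') (hδ' : δ' ≤ ε / (288 * K0))
    (hε : 0 < ε) (hε1 : ε ≤ 1 / 1000) (hθ0 : 0 < θ0) (hθ01 : θ0 ≤ 1 / 4) (hlR : l * R = θ0)
    (hcR : c * R = C * ρ) (hCρ : 0 < C * ρ) (hM2 : M ≤ 2 * (R / K0)) (hν : ν = ε / (192 * (C * ρ + 1)))
    (h6c : 6 * K0 * c ≤ ε / 8) (hMc : 4 * M * c ≤ ε / 8) (hK01 : 8 / ε ≤ K0) :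
    (l * (R + 2 * M) + M * l * (8 * K ^ 2 * δ')) * (1 + 2 * K * c) +
      4 * K * c * (ν * M) + 4 * M * c ≤ θ0 + ε := by
  have hK0pos : 0 < K0 := by linarith
  have hν0 : 0 < ν := by rw [hν]; positivity
  have hlM : l * M ≤ 2 * θ0 / K0 := by
    have h1 : l * M ≤ l * (2 * (R / K0)) := mul_le_mul_of_nonneg_left hM2 hl
    have h2 : l * (2 * (R / K0)) = 2 * θ0 / K0 := by rw [← hlR]; ring
    linarith
  have hθK : 2 * θ0 / K0 ≤ ε / 16 := by
    rw [div_le_iff₀ hε] at hK01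
    rw [div_le_iff₀ hK0pos]
    nlinarith
  have hA : l * (2 * M) ≤ ε / 8 := by linarith
  have hBt : M * l * (8 * K ^ 2 * δ') ≤ ε / 8 := by
    have h1 : M * l * (8 * K ^ 2 * δ') ≤ (2 * θ0 / K0) * (8 * K ^ 2 * (ε / (288 * K0))) := by
      apply mul_le_mul _ _ (by positivity) (by positivity)
      · linarith
      · exact mul_le_mul_of_nonneg_left hδ' (by positivity)
    have h2 : (2 * θ0 / K0) * (8 * K ^ 2 * (ε / (288 * K0))) = θ0 / 2 * ε := by
      rw [hK]; field_simp; ring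
    have h3 : θ0 / 2 * ε ≤ 1 / 8 * ε := mul_le_mul_of_nonneg_right (by linarith) hε.le
    linarith
  have hN : 4 * K * c * (ν * M) ≤ ε / 8 := by
    have h1 : 4 * K * c * (ν * M) ≤ 4 * K * c * (ν * (2 * (R / K0))) := by
      apply mul_le_mul_of_nonneg_left _ (by rw [hK]; positivity)
      exact mul_le_mul_of_nonneg_left hM2 hν0.le
    have h2 : 4 * K * c * (ν * (2 * (R / K0))) = 24 * (C * ρ) * ν := by
      rw [← hcR, hK]; field_simp; ring
    have h3 : 24 * (C * ρ) * ν ≤ ε / 8 := by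
      rw [hν, ← mul_div_assoc, div_le_iff₀ (by positivity)]
      have : 0 < C * ρ * ε := by positivity
      linarith
    linarith
  have hfac : 2 * K * c ≤ ε / 8 := by rw [hK]; linarith
  have hsum1 : l * (R + 2 * M) + M * l * (8 * K ^ 2 * δ') ≤ θ0 + ε / 4 := by
    have : l * (R + 2 * M) = l * R + l * (2 * M) := by ring
    rw [this, hlR]; linarith
  have h0 : 0 ≤ 2 * K * c := by rw [hK]; positivity
  have hprod : (l * (R + 2 * M) + M * l * (8 * K ^ 2 * δ')) * (1 + 2 * K * c) ≤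
      (θ0 + ε / 4) * (1 + ε / 8) := by
    apply mul_le_mul hsum1 (by linarith) (by linarith) (by positivity)
  have hprod2 : (θ0 + ε / 4) * (1 + ε / 8) ≤ θ0 + ε / 4 + ε / 8 := by nlinarith
  linarith

theorem num_final {θ0 ε θ1 : ℝ} (hθ0 : 0 < θ0) (hθ01 : θ0 ≤ 1 / 4) (hε : ε = θ0 ^ 4 / 800)
    (hθ1 : θ1 = θ0 + ε) (hε1 : ε ≤ 1 / 1000)
    (h : (1 - ε) * ((1 - ε) * (θ0 ^ 2 / 4)) ≤ (θ1 ^ 2 / 2 - θ1 ^ 4 / 80) / 2 + ε) : False := by
  have hε0 : 0 < ε := by rw [hε]; positivity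
  have hθ14 : θ0 ^ 4 ≤ θ1 ^ 4 := pow_le_pow_left₀ hθ0.le (by linarith) 4
  have hθ04 : θ0 ^ 4 = 800 * ε := by rw [hε]; ring
  have hθ12 : θ1 ^ 2 ≤ θ0 ^ 2 + ε := by
    rw [hθ1]; nlinarith
  have hθ02 : θ0 ^ 2 ≤ 1 / 16 := by nlinarith
  have h1 : θ0 ^ 2 / 4 - 2 * ε * (θ0 ^ 2 / 4) ≤ (1 - ε) * ((1 - ε) * (θ0 ^ 2 / 4)) := by
    have : 0 ≤ ε ^ 2 * (θ0 ^ 2 / 4) := by positivity
    nlinarith
  have h2 : ε * (θ0 ^ 2 / 4) ≤ ε * (1 / 64) := mul_le_mul_of_nonneg_left (by linarith) hε0.le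
  nlinarith

theorem sqrt_f_facts {f : ℕ} (hf : 0 < f) : lHex f * Real.sqrt f = Real.sqrt (8 * Real.pi / Real.sqrt 3) := by
  rw [lHex, ← Real.sqrt_mul (by positivity)]
  congr 1
  have : (f : ℝ) ≠ 0 := by positivity
  have h3 : Real.sqrt 3 ≠ 0 := by positivity
  field_simp

/-- There is no large patch of lattice points on the sphere which is almost everywhere
almost isometric and almost injective in the sense of cap counts. -/
theorem no_flat_patch {C κ : ℝ} (hC : 0 < C) (hκ : 0 < κ) :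
    ∃ δ : ℝ, 0 < δ ∧ ∃ F₀ : ℕ, ∀ f : ℕ, F₀ ≤ f → ∀ (pos : ℤ × ℤ → E3) (m : ℕ),
      κ * Real.sqrt f ≤ m →
      (∀ v, ‖pos v‖ = 1) →
      (∀ v ∈ box m, ∀ k < 6, ‖pos (v + hdir k) - pos v‖ ≤ C / Real.sqrt f) →
      ∀ bad : Finset (ℤ × ℤ), (bad.card : ℝ) ≤ δ * f →
      (∀ v ∈ box m, v ∉ bad → NearStar pos (lHex f) δ v) →
      (∀ (c : E3) (θ : ℝ), ‖c‖ = 1 → 0 ≤ θ → θ ≤ 1 →
        ({v ∈ box m | InnerProductGeometry.angle c (pos v) ≤ θ}.ncard : ℝ) ≤
          f * (1 - Real.cos θ) / 2 + δ * f) →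
      False := by
  set L0 := Real.sqrt (8 * Real.pi / Real.sqrt 3) with hL0
  have hpi := Real.pi_gt_three
  have hpi4 := Real.pi_lt_four
  have h3pos : 0 < Real.sqrt 3 := by positivity
  have h3sq : Real.sqrt 3 ^ 2 = 3 := Real.sq_sqrt (by norm_num)
  have hL0pos : 0 < L0 := Real.sqrt_pos.2 (by positivity)
  have hL0sq : L0 ^ 2 = 8 * Real.pi / Real.sqrt 3 := Real.sq_sqrt (by positivity)
  have hL04 : L0 ≤ 4 := L0_le
  set ρ := min (κ / 8) (1 / 16) with hρ
  have hρ0 : 0 < ρ := lt_min (by positivity) (by norm_num)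
  have hρκ : ρ ≤ κ / 8 := min_le_left _ _
  have hρ1 : ρ ≤ 1 / 16 := min_le_right _ _
  set θ0 := L0 * ρ with hθ0
  have hθ0pos : 0 < θ0 := by positivity
  have hθ0le : θ0 ≤ 1 / 4 := by nlinarith
  set ε := θ0 ^ 4 / 800 with hε
  have hεpos : 0 < ε := by positivity
  have hεle : ε ≤ 1 / 1000 := by
    rw [hε]
    have : θ0 ^ 4 ≤ (1 / 4) ^ 4 := pow_le_pow_left₀ hθ0pos.le hθ0le 4
    norm_num at this
    linarith
  obtain ⟨K0, hK0⟩ := exists_nat_ge (max (max (8 / ε) (64 * C * ρ / ε)) 2)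
  have hK01 : 8 / ε ≤ K0 := (le_max_left _ _).trans ((le_max_left _ _).trans hK0)
  have hK02 : 64 * C * ρ / ε ≤ K0 := (le_max_right _ _).trans ((le_max_left _ _).trans hK0)
  have hK03 : (2 : ℝ) ≤ K0 := (le_max_right _ _).trans hK0
  have hK0pos : (0 : ℝ) < K0 := by linarith
  set K := 3 * K0 with hK
  have hKR : (K : ℝ) = 3 * K0 := by rw [hK]; push_cast; ring
  set ν := ε / (192 * (C * ρ + 1)) with hν
  have hνpos : 0 < ν := by positivity
  set δ := min (min (1 / 4) ε) (min ((ε / (288 * K0)) ^ 2) (ε * ν * ρ ^ 2 / (2 * K + 1) ^ 2)) with hδ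
  have hδpos : 0 < δ := by
    refine lt_min (lt_min (by norm_num) hεpos) (lt_min (by positivity) (by positivity))
  have hδ1 : δ ≤ 1 / 4 := (min_le_left _ _).trans (min_le_left _ _)
  have hδ2 : δ ≤ ε := (min_le_left _ _).trans (min_le_right _ _)
  have hδ3 : δ ≤ (ε / (288 * K0)) ^ 2 := (min_le_right _ _).trans (min_le_left _ _)
  have hδ4 : δ ≤ ε * ν * ρ ^ 2 / (2 * K + 1) ^ 2 := (min_le_right _ _).trans (min_le_right _ _)
  have hsqδ : Real.sqrt δ ≤ ε / (288 * K0) := by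
    rw [Real.sqrt_le_left (by positivity)]; exact hδ3
  refine ⟨δ, hδpos, ?_⟩
  obtain ⟨W, hW⟩ := exists_nat_ge (max (max (K / ρ) (2 / (ε * ρ))) (max (48 * K0 * C / ε) 1))
  have hW1 : K / ρ ≤ W := (le_max_left _ _).trans ((le_max_left _ _).trans hW)
  have hW2 : 2 / (ε * ρ) ≤ W := (le_max_right _ _).trans ((le_max_left _ _).trans hW)
  have hW3 : 48 * K0 * C / ε ≤ W := (le_max_left _ _).trans ((le_max_right _ _).trans hW)
  have hW4 : (1 : ℝ) ≤ W := (le_max_right _ _).trans ((le_max_right _ _).trans hW)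
  refine ⟨W ^ 2, ?_⟩
  intro f hf pos m hm hunit hstep bad hbad hns hcap
  have hfW : ((W : ℝ)) ^ 2 ≤ f := by exact_mod_cast hf
  have hWpos : (0 : ℝ) < W := by linarith
  have hfpos : (0 : ℝ) < f := lt_of_lt_of_le (by positivity) hfW
  have hfpos' : 0 < f := by exact_mod_cast hfpos
  set s := Real.sqrt f with hs
  have hsW : (W : ℝ) ≤ s := Real.le_sqrt_of_sq_le hfW
  have hspos : 0 < s := lt_of_lt_of_le hWpos hsW
  have hs2 : s ^ 2 = f := Real.sq_sqrt hfpos.le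
  set R := ρ * s with hR
  have hRpos : 0 < R := by positivity
  have hRK : (K : ℝ) ≤ R := by
    have : K / ρ ≤ s := hW1.trans hsW
    rw [div_le_iff₀ hρ0] at this
    rw [hR]; linarith
  have hRε : 2 / R ≤ ε := by
    have h1 : 2 / (ε * ρ) ≤ s := hW2.trans hsW
    rw [div_le_iff₀ (by positivity)] at h1
    rw [div_le_iff₀ hRpos, hR]
    nlinarith
  have hR1 : 1 ≤ R := by
    have : (1 : ℝ) ≤ K := by rw [hKR]; linarith
    linarith
  set c := C / s with hc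
  have hcpos : 0 < c := by positivity
  have hlf : lHex f * s = L0 := sqrt_f_facts hfpos'
  set l := lHex f with hl
  have hlnn : 0 ≤ l := Real.sqrt_nonneg _
  have hlR : l * R = θ0 := by rw [hR, hθ0, ← hlf]; ring
  have hcR : c * R = C * ρ := by rw [hc, hR]; field_simp
  set M := ⌈R / K0⌉₊ with hM
  have hM1 : R / K0 ≤ M := Nat.le_ceil _
  have hRK0 : 1 ≤ R / K0 := by
    rw [le_div_iff₀ hK0pos]
    linarith
  have hM2 : (M : ℝ) ≤ 2 * (R / K0) := by
    have := Nat.ceil_lt_add_one (a := R / K0) (by positivity)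
    linarith
  have hMpos : 1 ≤ M := by
    have : (1 : ℝ) ≤ M := hRK0.trans hM1
    exact_mod_cast this
  have hMR : (M : ℝ) ≤ R := by
    have : 2 * (R / K0) ≤ R := by
      rw [← mul_div_assoc, div_le_iff₀ hK0pos]
      nlinarith
    linarith
  have hRM : R ≤ K0 * M := by
    rw [div_le_iff₀ hK0pos] at hM1
    linarith
  have h6c : 6 * K0 * c ≤ ε / 8 := by
    have h1 : 48 * K0 * C / ε ≤ s := hW3.trans hsW
    rw [div_le_iff₀ hεpos] at h1
    rw [hc, ← mul_div_assoc, div_le_iff₀ hspos]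
    linarith
  have hMc : 4 * M * c ≤ ε / 8 := by
    have h1 : 4 * M * c ≤ 4 * (2 * (R / K0)) * c := by
      apply mul_le_mul_of_nonneg_right _ hcpos.le
      linarith
    have h2 : 4 * (2 * (R / K0)) * c = 8 * (C * ρ) / K0 := by rw [← hcR]; ring
    have h3 : 8 * (C * ρ) / K0 ≤ ε / 8 := by
      rw [div_le_iff₀ hεpos] at hK02
      rw [div_le_iff₀ hK0pos]
      linarith
    linarith
  have hcore := flat_core (pos := pos) (l := l) (δ := δ) (c := c) (R := R) (ν := ν) (m := m)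
    (K := K) (M := M) hlnn hδpos.le hδ1 hcpos.le (by
      have : (1 : ℝ) ≤ K := by rw [hKR]; linarith
      exact_mod_cast this) hMpos hR1 hνpos hunit hstep
    (by rw [hKR]; linarith) (by linarith) hns hMR hRK
    (by
      have : 8 * R ≤ κ * s := by rw [hR]; nlinarith
      linarith)
    (by rw [hKR]
        have : (M : ℝ) ≤ K0 * M := by nlinarith [show (0 : ℝ) ≤ M from Nat.cast_nonneg _]
        linarith)
    (ε := ε) (by
      have h1 : (bad.card : ℝ) * (2 * K + 1) ^ 2 ≤ δ * f * (2 * K + 1) ^ 2 :=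
        mul_le_mul_of_nonneg_right hbad (by positivity)
      have h2 : δ * f * (2 * K + 1) ^ 2 ≤ (ε * ν * ρ ^ 2 / (2 * K + 1) ^ 2) * f * (2 * K + 1) ^ 2 := by
        apply mul_le_mul_of_nonneg_right _ (by positivity)
        exact mul_le_mul_of_nonneg_right hδ4 hfpos.le
      have h3 : (ε * ν * ρ ^ 2 / (2 * K + 1) ^ 2) * f * (2 * K + 1) ^ 2 = ε * ν * R ^ 2 := by
        rw [hR, mul_pow, hs2]; field_simp
      linarith)
  obtain ⟨x, hx⟩ := hcore
  -- the angle bound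
  set θ1 := θ0 + ε with hθ1
  have hang : (l * (R + 2 * M) + M * l * (8 * K ^ 2 * Real.sqrt δ)) * (1 + 2 * K * c) +
      4 * K * c * (ν * M) + 4 * M * c ≤ θ1 :=
    num_ang hlnn hRpos (Nat.cast_nonneg _) hK03 hKR hcpos (Real.sqrt_nonneg _) hsqδ hεpos hεle
      hθ0pos hθ0le hlR hcR (by positivity) hM2 hν h6c hMc hK01
  have hθ1pos : 0 ≤ θ1 := by positivity
  have hθ1le : θ1 ≤ 1 := by rw [hθ1]; linarith
  have hcap1 := hcap (pos x) θ1 (hunit x) hθ1pos hθ1le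
  have hmono : ({v ∈ box m | angle (pos x) (pos v) ≤
        (l * (R + 2 * M) + M * l * (8 * K ^ 2 * Real.sqrt δ)) * (1 + 2 * K * c) +
          4 * K * c * (ν * M) + 4 * M * c}.ncard : ℝ) ≤
      ({v ∈ box m | angle (pos x) (pos v) ≤ θ1}.ncard : ℝ) := by
    have hfin : {v ∈ box m | angle (pos x) (pos v) ≤ θ1}.Finite := by
      apply Set.Finite.subset (bx m).finite_toSet
      intro v hv
      rw [Finset.mem_coe, mem_bx]
      exact hv.1
    have := Set.ncard_le_ncard (s := {v ∈ box m | angle (pos x) (pos v) ≤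
        (l * (R + 2 * M) + M * l * (8 * K ^ 2 * Real.sqrt δ)) * (1 + 2 * K * c) +
          4 * K * c * (ν * M) + 4 * M * c}) (t := {v ∈ box m | angle (pos x) (pos v) ≤ θ1})
      (fun v hv => ⟨hv.1, hv.2.trans hang⟩) hfin
    exact_mod_cast this
  have hcnt := eis_count hR1
  have hcnt2 : (1 - ε) * (θ0 ^ 2 / 4 * f) ≤ 2 * Real.pi / Real.sqrt 3 * (R - 1) ^ 2 := by
    have h1 : θ0 ^ 2 / 4 * f = 2 * Real.pi / Real.sqrt 3 * R ^ 2 := by
      rw [hθ0, mul_pow, hL0sq, hR, mul_pow, hs2]; ring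
    rw [h1]
    have h2 : (1 - ε) * R ^ 2 ≤ (R - 1) ^ 2 := num_sq hRpos hRε
    have h3 : 0 ≤ 2 * Real.pi / Real.sqrt 3 := by positivity
    have := mul_le_mul_of_nonneg_left h2 h3
    linarith
  have hε1 : 0 ≤ 1 - ε := by linarith
  have hlow : (1 - ε) * ((1 - ε) * (θ0 ^ 2 / 4 * f)) ≤ f * (1 - Real.cos θ1) / 2 + δ * f := by
    have h1 := mul_le_mul_of_nonneg_left (hcnt2.trans hcnt) hε1
    linarith
  have hcos := one_sub_cos_le hθ1pos hθ1le
  have hup : f * (1 - Real.cos θ1) / 2 + δ * f ≤ f * ((θ1 ^ 2 / 2 - θ1 ^ 4 / 80) / 2 + ε) := by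
    have h1 : f * (1 - Real.cos θ1) ≤ f * (θ1 ^ 2 / 2 - θ1 ^ 4 / 80) :=
      mul_le_mul_of_nonneg_left hcos hfpos.le
    have h2 : δ * f ≤ ε * f := mul_le_mul_of_nonneg_right hδ2 hfpos.le
    linarith
  have hfinal : (1 - ε) * ((1 - ε) * (θ0 ^ 2 / 4)) ≤ (θ1 ^ 2 / 2 - θ1 ^ 4 / 80) / 2 + ε := by
    have h1 := hlow.trans hup
    have h2 : f * ((1 - ε) * ((1 - ε) * (θ0 ^ 2 / 4))) ≤ f * ((θ1 ^ 2 / 2 - θ1 ^ 4 / 80) / 2 + ε) := by
      refine le_trans (le_of_eq ?_) h1; ring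
    exact le_of_mul_le_mul_left h2 hfpos
  exact num_final hθ0pos hθ0le hε hθ1 hεle hfinal

end Gold
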