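import Pool.Agent.Lib.H81.Gold.Faces

/-!
# Counting faces along lines (chunk L)
-/

noncomputable section

open MeasureTheory Metric Set
open scoped RealInnerProductSpace ENNReal

namespace Gold
namespace LN

theorem reach_mono {ι : Type*} (R : ι → ι → Prop) (i : ι) {a b : ℕ} (h : a ≤ b) :
    reach R i a ⊆ reach R i b := by
  induction h with
  | refl => exact subset_rfl
  | step _ ih => exact ih.trans subset_union_left

theorem reach_trans {ι : Type*} (R : ι → ι → Prop) {i j : ι} {a : ℕ}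
    (h1 : j ∈ reach R i a) (b : ℕ) : ∀ {k : ι}, k ∈ reach R j b → k ∈ reach R i (a + b) := by
  induction b with
  | zero =>
    intro k h2
    have : k = j := h2
    subst this; exact h1
  | succ b ih =>
    intro k h2
    rcases h2 with h2 | ⟨l, hl, hr⟩
    · exact Or.inl (ih h2)
    · exact Or.inr ⟨l, ih hl, hr⟩

theorem chain {ι : Type*} [Finite ι] (R : ι → ι → Prop) {a b : ℝ}
    (K : ι → Set ℝ) (hK : ∀ i, IsClosed (K i)) (cov : Icc a b ⊆ ⋃ i, K i)
    (hR : ∀ i j, ∀ x ∈ Icc a b, x ∈ K i → x ∈ K j → i = j ∨ R i j)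
    (i : ι) (hi : (Icc a b ∩ K i).Nonempty) :
    {k | (Icc a b ∩ K k).Nonempty} ⊆ reach R i {k | (Icc a b ∩ K k).Nonempty}.ncard := by
  set T := {k | (Icc a b ∩ K k).Nonempty} with hT
  have key : ∀ m, T ⊆ reach R i m ∨ m + 1 ≤ (reach R i m ∩ T).ncard := by
    intro m
    induction m with
    | zero =>
      right
      have : reach R i 0 ∩ T = {i} := by
        ext k; constructor
        · rintro ⟨h, _⟩; exact h
        · intro h; rw [mem_singleton_iff] at h; subst h; exact ⟨rfl, hi⟩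
      rw [this, ncard_singleton]
    | succ m ih =>
      by_cases hsub : T ⊆ reach R i m
      · left; exact hsub.trans subset_union_left
      · right
        rcases ih with h | h
        · exact absurd h hsub
        obtain ⟨l, hlT, hlm⟩ := not_subset.mp hsub
        have hpc : IsPreconnected (Icc a b) := isPreconnected_Icc
        rw [isPreconnected_closed_iff] at hpc
        obtain ⟨x, hx, hxU, hxV⟩ := hpc (⋃ k ∈ (reach R i m ∩ T), K k)
          (⋃ k ∈ (T \ reach R i m), K k)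
          ((Set.toFinite _).isClosed_biUnion fun k _ => hK k)
          ((Set.toFinite _).isClosed_biUnion fun k _ => hK k)
          (by
            intro x hx
            obtain ⟨k, hk⟩ := mem_iUnion.mp (cov hx)
            have hkT : k ∈ T := ⟨x, hx, hk⟩
            by_cases hkr : k ∈ reach R i m
            · exact Or.inl (mem_biUnion (show k ∈ reach R i m ∩ T from ⟨hkr, hkT⟩) hk)
            · exact Or.inr (mem_biUnion (show k ∈ T \ reach R i m from ⟨hkT, hkr⟩) hk))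
          (by
            obtain ⟨x, hx, hxi⟩ := hi
            refine ⟨x, hx, mem_biUnion (show i ∈ reach R i m ∩ T from ⟨?_, ⟨x, hx, hxi⟩⟩) hxi⟩
            exact reach_mono R i (Nat.zero_le m) rfl)
          (by
            obtain ⟨x, hx, hxl⟩ := hlT
            exact ⟨x, hx, mem_biUnion (show l ∈ T \ reach R i m from ⟨⟨x, hx, hxl⟩, hlm⟩) hxl⟩)
        obtain ⟨k, ⟨hkr, hkT⟩, hxk⟩ := mem_iUnion₂.mp hxU
        obtain ⟨k', ⟨hk'T, hk'r⟩, hxk'⟩ := mem_iUnion₂.mp hxV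
        have hRk : R k k' := by
          rcases hR k k' x hx hxk hxk' with h | h
          · exact absurd (h ▸ hkr) hk'r
          · exact h
        have hsub2 : insert k' (reach R i m ∩ T) ⊆ reach R i (m + 1) ∩ T := by
          rintro q (rfl | hq)
          · exact ⟨Or.inr ⟨k, hkr, hRk⟩, hk'T⟩
          · exact ⟨Or.inl hq.1, hq.2⟩
        have hc := ncard_le_ncard hsub2 (Set.toFinite _)
        rw [ncard_insert_of_notMem (fun h => hk'r h.1) (Set.toFinite _)] at hc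
        omega
  rcases key T.ncard with h | h
  · exact h
  · have := ncard_le_ncard (inter_subset_right : reach R i T.ncard ∩ T ⊆ T) (Set.toFinite _)
    omega


/-- The number of sets of a finite family containing a point, as a sum of indicators. -/
theorem sum_ind {ι : Type*} [Fintype ι] (H : ι → Set ℝ) (y : ℝ) :
    ∑ i, (H i).indicator (fun _ => (1 : ℝ≥0∞)) y = ({i | y ∈ H i}.ncard : ℝ≥0∞) := by
  classical
  have h1 : ∀ i, (H i).indicator (fun _ => (1 : ℝ≥0∞)) y = if y ∈ H i then 1 else 0 := by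
    intro i; by_cases h : y ∈ H i <;> simp [h]
  rw [Finset.sum_congr rfl fun i _ => h1 i, Finset.sum_boole]
  congr 1
  rw [Set.ncard_eq_toFinset_card']
  congr 1
  ext i; simp

theorem bad_small {ι : Type*} [Fintype ι] (H : ι → Set ℝ) {s w : ℝ} (_hs : 0 < s) (hw : 0 < w)
    (hm : ∀ i, MeasurableSet (H i)) (hvol : ∀ i, volume (H i) ≤ ENNReal.ofReal w)
    {S : Set ι} {A : ℕ} (hA : S.ncard ≤ A) (hS : ∀ i, ∀ y ∈ H i, i ∈ S) {n : ℕ}
    (hn : 8 * w * A ≤ n * s) :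
    volume {y | n < 2 * {i | y ∈ H i}.ncard} ≤ ENNReal.ofReal (s / 4) := by
  classical
  have hint : ∫⁻ y, ∑ i, (H i).indicator (fun _ => (1 : ℝ≥0∞)) y ≤
      ENNReal.ofReal (A * w) := by
    rw [lintegral_finsetSum _ (fun i _ => measurable_const.indicator (hm i))]
    have h1 : ∀ i, ∫⁻ y, (H i).indicator (fun _ => (1 : ℝ≥0∞)) y ≤
        if i ∈ S then ENNReal.ofReal w else 0 := by
      intro i
      rw [lintegral_indicator (hm i), setLIntegral_one]
      by_cases hi : i ∈ S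
      · rw [if_pos hi]; exact hvol i
      · rw [if_neg hi]
        have : H i = ∅ := by
          rw [eq_empty_iff_forall_notMem]; exact fun y hy => hi (hS i y hy)
        rw [this]; simp
    refine (Finset.sum_le_sum fun i _ => h1 i).trans ?_
    rw [← Finset.sum_filter, Finset.sum_const, nsmul_eq_mul]
    have hcard : (Finset.univ.filter fun i => i ∈ S).card = S.ncard := by
      rw [Set.ncard_eq_toFinset_card']; congr 1; ext i; simp
    rw [hcard, ENNReal.ofReal_mul (by positivity), ENNReal.ofReal_natCast]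
    gcongr
  rcases Nat.eq_zero_or_pos n with rfl | hnpos
  · have hA0 : A = 0 := by
      by_contra h
      have : (1 : ℝ) ≤ A := by exact_mod_cast Nat.one_le_iff_ne_zero.mpr h
      have : 0 < 8 * w * A := by positivity
      simp at hn; linarith
    have hSe : S = ∅ := by
      rw [hA0] at hA
      exact (Set.ncard_eq_zero (Set.toFinite S)).mp (Nat.le_zero.mp hA)
    have : {y | 0 < 2 * {i | y ∈ H i}.ncard} = ∅ := by
      rw [eq_empty_iff_forall_notMem]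
      intro y hy
      have h0 : {i | y ∈ H i} = ∅ := by
        rw [eq_empty_iff_forall_notMem]
        intro i hi
        have := hS i y hi
        rw [hSe] at this; exact this
      simp only [Set.mem_ofPred_eq] at hy
      rw [h0] at hy; simp at hy
    rw [this]; simp
  · have hsub : {y | n < 2 * {i | y ∈ H i}.ncard} ⊆
        {y | ENNReal.ofReal (n / 2) ≤ ∑ i, (H i).indicator (fun _ => (1 : ℝ≥0∞)) y} := by
      intro y hy
      have hy' : n < 2 * {i | y ∈ H i}.ncard := hy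
      show ENNReal.ofReal (n / 2) ≤ ∑ i, (H i).indicator (fun _ => (1 : ℝ≥0∞)) y
      rw [sum_ind, ← ENNReal.ofReal_natCast]
      apply ENNReal.ofReal_le_ofReal
      have : (n : ℝ) < 2 * ({i | y ∈ H i}.ncard : ℝ) := by exact_mod_cast hy'
      linarith
    have hmeas : Measurable fun y => ∑ i, (H i).indicator (fun _ => (1 : ℝ≥0∞)) y :=
      Finset.measurable_fun_sum _ fun i _ => measurable_const.indicator (hm i)
    have hmk := mul_meas_ge_le_lintegral₀ (μ := volume) hmeas.aemeasurable (ENNReal.ofReal (n / 2))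
    have hn2 : (0 : ℝ) < n / 2 := by positivity
    have h2 : ENNReal.ofReal (n / 2) * volume {y | n < 2 * {i | y ∈ H i}.ncard} ≤
        ENNReal.ofReal (n / 2) * ENNReal.ofReal (s / 4) := by
      refine ((mul_le_mul_right (measure_mono hsub) _).trans hmk).trans (hint.trans ?_)
      rw [← ENNReal.ofReal_mul hn2.le]
      apply ENNReal.ofReal_le_ofReal
      nlinarith
    exact (ENNReal.mul_le_mul_iff_right (ENNReal.ofReal_pos.mpr hn2).ne' ENNReal.ofReal_ne_top).mp h2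


theorem vol_le_of_width {H : Set ℝ} {w : ℝ} (_hw : 0 ≤ w) (h : ∀ x ∈ H, ∀ y ∈ H, |x - y| ≤ w) :
    volume H ≤ ENNReal.ofReal w := by
  refine (Real.volume_le_diam H).trans (Metric.ediam_le fun x hx y hy => ?_)
  rw [edist_dist, Real.dist_eq]
  exact ENNReal.ofReal_le_ofReal (h x hx y hy)

theorem count {ι : Type*} [Fintype ι] (R : ι → ι → Prop) (P : ι → ℝ → ℝ → Prop) {s w : ℝ}
    (hs : 0 < s) (hw : 0 < w)
    (hcl : ∀ i, IsClosed {p : ℝ × ℝ | P i p.1 p.2})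
    (hex : ∀ x ∈ Icc (-s) s, ∀ y ∈ Icc (-s) s, ∃ i, P i x y)
    (hadj : ∀ i j, ∀ x ∈ Icc (-s) s, ∀ y ∈ Icc (-s) s, P i x y → P j x y → i = j ∨ R i j)
    (hwid : ∀ i, ∀ x ∈ Icc (-s) s, ∀ y ∈ Icc (-s) s, ∀ x' ∈ Icc (-s) s, ∀ y' ∈ Icc (-s) s,
      P i x y → P i x' y' → |x - x'| ≤ w ∧ |y - y'| ≤ w)
    {S : Set ι} {A : ℕ} (hA : S.ncard ≤ A)
    (hS : ∀ i, ∀ x ∈ Icc (-s) s, ∀ y ∈ Icc (-s) s, P i x y → i ∈ S) {n : ℕ}
    (hn : 8 * w * A ≤ n * s) :
    ∃ i₀ ∈ S, s ^ 2 / w ^ 2 ≤ ((reach R i₀ n).ncard : ℝ) := by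
  classical
  set Q := Icc (-s) s with hQ
  have h0Q : (0 : ℝ) ∈ Q := ⟨by linarith, hs.le⟩
  -- projections
  set HY : ι → Set ℝ := fun i => {y | y ∈ Q ∧ ∃ x ∈ Q, P i x y} with hHY
  set HX : ι → Set ℝ := fun i => {x | x ∈ Q ∧ ∃ y ∈ Q, P i x y} with hHX
  have hcomp : ∀ i, IsCompact ((Q ×ˢ Q) ∩ {p : ℝ × ℝ | P i p.1 p.2}) := fun i =>
    (isCompact_Icc.prod isCompact_Icc).inter_right (hcl i)
  have hYm : ∀ i, MeasurableSet (HY i) := by
    intro i
    have : HY i = Prod.snd '' ((Q ×ˢ Q) ∩ {p : ℝ × ℝ | P i p.1 p.2}) := by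
      ext y; constructor
      · rintro ⟨hy, x, hx, hp⟩
        exact ⟨(x, y), ⟨⟨hx, hy⟩, hp⟩, rfl⟩
      · rintro ⟨⟨x, y'⟩, ⟨⟨hx, hy⟩, hp⟩, rfl⟩
        exact ⟨hy, x, hx, hp⟩
    rw [this]
    exact ((hcomp i).image continuous_snd).measurableSet
  have hXm : ∀ i, MeasurableSet (HX i) := by
    intro i
    have : HX i = Prod.fst '' ((Q ×ˢ Q) ∩ {p : ℝ × ℝ | P i p.1 p.2}) := by
      ext x; constructor
      · rintro ⟨hx, y, hy, hp⟩
        exact ⟨(x, y), ⟨⟨hx, hy⟩, hp⟩, rfl⟩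
      · rintro ⟨⟨x', y⟩, ⟨⟨hx, hy⟩, hp⟩, rfl⟩
        exact ⟨hx, y, hy, hp⟩
    rw [this]
    exact ((hcomp i).image continuous_fst).measurableSet
  have hYv : ∀ i, volume (HY i) ≤ ENNReal.ofReal w := fun i =>
    vol_le_of_width hw.le (by
      rintro y ⟨hy, x, hx, hp⟩ y' ⟨hy', x', hx', hp'⟩
      exact (hwid i x hx y hy x' hx' y' hy' hp hp').2)
  have hXv : ∀ i, volume (HX i) ≤ ENNReal.ofReal w := fun i =>
    vol_le_of_width hw.le (by
      rintro x ⟨hx, y, hy, hp⟩ x' ⟨hx', y', hy', hp'⟩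
      exact (hwid i x hx y hy x' hx' y' hy' hp hp').1)
  have badY := bad_small HY hs hw hYm hYv hA (by
    rintro i y ⟨hy, x, hx, hp⟩; exact hS i x hx y hy hp) hn
  have badX := bad_small HX hs hw hXm hXv hA (by
    rintro i x ⟨hx, y, hy, hp⟩; exact hS i x hx y hy hp) hn
  -- a good vertical line
  obtain ⟨x0, hx0, hgx0⟩ : ∃ x0 ∈ Q, 2 * {i | x0 ∈ HX i}.ncard ≤ n := by
    by_contra hcon
    push Not at hcon
    have hsub : Q ⊆ {y | n < 2 * {i | y ∈ HX i}.ncard} := fun y hy => hcon y hy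
    have h1 := (measure_mono (μ := volume) hsub).trans badX
    rw [hQ, Real.volume_Icc] at h1
    have h2 := (ENNReal.ofReal_le_ofReal_iff (by positivity)).mp h1
    linarith
  obtain ⟨i0, hi0⟩ := hex x0 hx0 0 h0Q
  refine ⟨i0, hS i0 x0 hx0 0 h0Q hi0, ?_⟩
  set Z := reach R i0 n with hZ
  -- all faces of good horizontal lines are reached
  have hreach : ∀ y ∈ Q, 2 * {i | y ∈ HY i}.ncard ≤ n → {i | y ∈ HY i} ⊆ Z := by
    intro y hy hgy i hi
    have hv := chain R (a := -s) (b := s) (fun k => {y | P k x0 y})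
      (fun k => (hcl k).preimage (by fun_prop : Continuous fun y : ℝ => (x0, y)))
      (by intro y hy; obtain ⟨k, hk⟩ := hex x0 hx0 y hy; exact mem_iUnion.mpr ⟨k, hk⟩)
      (fun i j y hy h1 h2 => hadj i j x0 hx0 y hy h1 h2) i0 ⟨0, h0Q, hi0⟩
    have hTe : {k | (Icc (-s) s ∩ {y | P k x0 y}).Nonempty} = {i | x0 ∈ HX i} := by
      ext k; constructor
      · rintro ⟨y, hy, hp⟩; exact ⟨hx0, y, hy, hp⟩
      · rintro ⟨_, y, hy, hp⟩; exact ⟨y, hy, hp⟩
    rw [hTe] at hv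
    obtain ⟨k, hk⟩ := hex x0 hx0 y hy
    have hk1 := hv (show k ∈ {i | x0 ∈ HX i} from ⟨hx0, y, hy, hk⟩)
    have hh := chain R (a := -s) (b := s) (fun k => {x | P k x y})
      (fun k => (hcl k).preimage (by fun_prop : Continuous fun x : ℝ => (x, y)))
      (by intro x hx; obtain ⟨k, hk⟩ := hex x hx y hy; exact mem_iUnion.mpr ⟨k, hk⟩)
      (fun i j x hx h1 h2 => hadj i j x hx y hy h1 h2) k ⟨x0, hx0, hk⟩
    have hTe2 : {k | (Icc (-s) s ∩ {x | P k x y}).Nonempty} = {i | y ∈ HY i} := by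
      ext k; constructor
      · rintro ⟨x, hx, hp⟩; exact ⟨hy, x, hx, hp⟩
      · rintro ⟨_, x, hx, hp⟩; exact ⟨x, hx, hp⟩
    rw [hTe2] at hh
    have hi2 := reach_trans R hk1 _ (hh hi)
    exact reach_mono R i0 (by omega) hi2
  -- every horizontal line meets many faces
  have hmany : ∀ y ∈ Q, 2 * s ≤ {i | y ∈ HY i}.ncard * w := by
    intro y hy
    have hcov : Q ⊆ ⋃ i ∈ (Set.toFinite {i | y ∈ HY i}).toFinset, (Q ∩ {x | P i x y}) := by
      intro x hx
      obtain ⟨k, hk⟩ := hex x hx y hy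
      refine mem_biUnion (x := k) ?_ ⟨hx, hk⟩
      show k ∈ ((Set.toFinite {i | y ∈ HY i}).toFinset : Set ι)
      rw [Set.Finite.coe_toFinset]
      exact ⟨hy, x, hx, hk⟩
    have h1 : volume Q ≤ ∑ i ∈ (Set.toFinite {i | y ∈ HY i}).toFinset, ENNReal.ofReal w :=
      (measure_mono hcov).trans ((measure_biUnion_finset_le _ _).trans
        (Finset.sum_le_sum fun i _ => vol_le_of_width hw.le (by
          rintro x ⟨hx, hp⟩ x' ⟨hx', hp'⟩
          exact (hwid i x hx y hy x' hx' y hy hp hp').1)))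
    rw [Finset.sum_const, nsmul_eq_mul, ← Set.ncard_eq_toFinset_card _ (Set.toFinite _), hQ,
      Real.volume_Icc, ← ENNReal.ofReal_natCast, ← ENNReal.ofReal_mul (by positivity)] at h1
    have h2 := (ENNReal.ofReal_le_ofReal_iff (by positivity)).mp h1
    linarith
  -- integrate over the good heights
  set H' : ι → Set ℝ := fun i => if i ∈ Z then HY i else ∅ with hH'
  have hH'm : ∀ i, MeasurableSet (H' i) := by
    intro i; simp only [hH']; split_ifs
    · exact hYm i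
    · exact MeasurableSet.empty
  have hint : ∫⁻ y, ∑ i, (H' i).indicator (fun _ => (1 : ℝ≥0∞)) y ≤
      ENNReal.ofReal (Z.ncard * w) := by
    rw [lintegral_finsetSum _ (fun i _ => measurable_const.indicator (hH'm i))]
    have h1 : ∀ i, ∫⁻ y, (H' i).indicator (fun _ => (1 : ℝ≥0∞)) y ≤
        if i ∈ Z then ENNReal.ofReal w else 0 := by
      intro i
      rw [lintegral_indicator (hH'm i), setLIntegral_one]
      simp only [hH']
      split_ifs with h
      · exact hYv i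
      · simp
    refine (Finset.sum_le_sum fun i _ => h1 i).trans ?_
    rw [← Finset.sum_filter, Finset.sum_const, nsmul_eq_mul]
    have hcard : (Finset.univ.filter fun i => i ∈ Z).card = Z.ncard := by
      rw [Set.ncard_eq_toFinset_card']; congr 1; ext i; simp
    rw [hcard, ENNReal.ofReal_mul (by positivity), ENNReal.ofReal_natCast]
  set G := Q \ {y | n < 2 * {i | y ∈ HY i}.ncard} with hG
  have hGsub : G ⊆ {y | ENNReal.ofReal (2 * s / w) ≤
      ∑ i, (H' i).indicator (fun _ => (1 : ℝ≥0∞)) y} := by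
    rintro y ⟨hy, hyb⟩
    have hgood : 2 * {i | y ∈ HY i}.ncard ≤ n := not_lt.mp hyb
    have hsubZ := hreach y hy hgood
    show ENNReal.ofReal (2 * s / w) ≤ ∑ i, (H' i).indicator (fun _ => (1 : ℝ≥0∞)) y
    rw [sum_ind, ← ENNReal.ofReal_natCast]
    apply ENNReal.ofReal_le_ofReal
    have he : {i | y ∈ H' i} = {i | y ∈ HY i} := by
      ext i; constructor
      · intro hi
        have hi' : y ∈ H' i := hi
        simp only [hH'] at hi'
        split_ifs at hi' with h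
        · exact hi'
        · exact absurd hi' (notMem_empty y)
      · intro hi
        have hZi : i ∈ Z := hsubZ hi
        show y ∈ H' i
        simp only [hH']
        rw [if_pos hZi]; exact hi
    rw [he, div_le_iff₀ hw]
    exact hmany y hy
  have hmeas : Measurable fun y => ∑ i, (H' i).indicator (fun _ => (1 : ℝ≥0∞)) y :=
    Finset.measurable_fun_sum _ fun i _ => measurable_const.indicator (hH'm i)
  have hmk := mul_meas_ge_le_lintegral₀ (μ := volume) hmeas.aemeasurable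
    (ENNReal.ofReal (2 * s / w))
  have hfin : ENNReal.ofReal (2 * s / w) * volume G ≤ ENNReal.ofReal (Z.ncard * w) :=
    ((mul_le_mul_right (measure_mono hGsub) _).trans hmk).trans hint
  have hGQ : volume G ≤ ENNReal.ofReal (2 * s) := by
    refine (measure_mono (sdiff_subset : G ⊆ Q)).trans ?_
    rw [hQ, Real.volume_Icc]
    exact ENNReal.ofReal_le_ofReal (by linarith)
  have hGlow : ENNReal.ofReal (2 * s) ≤ volume G + ENNReal.ofReal (s / 4) := by
    have h1 : volume Q ≤ volume G + volume {y | n < 2 * {i | y ∈ HY i}.ncard} := by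
      refine (measure_mono ?_).trans (measure_union_le _ _)
      intro y hy
      by_cases h : y ∈ {y | n < 2 * {i | y ∈ HY i}.ncard}
      · exact Or.inr h
      · exact Or.inl ⟨hy, h⟩
    rw [hQ, Real.volume_Icc] at h1
    calc ENNReal.ofReal (2 * s) = ENNReal.ofReal (s - -s) := by congr 1; ring
      _ ≤ _ := h1
      _ ≤ _ := by gcongr
  obtain ⟨g, hg0, hg⟩ : ∃ g : ℝ, 0 ≤ g ∧ volume G = ENNReal.ofReal g :=
    ⟨(volume G).toReal, ENNReal.toReal_nonneg,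
      (ENNReal.ofReal_toReal (ne_top_of_le_ne_top ENNReal.ofReal_ne_top hGQ)).symm⟩
  rw [hg, ← ENNReal.ofReal_mul (by positivity)] at hfin
  rw [hg, ← ENNReal.ofReal_add hg0 (by positivity)] at hGlow
  have h3 := (ENNReal.ofReal_le_ofReal_iff (by positivity)).mp hfin
  have h4 := (ENNReal.ofReal_le_ofReal_iff (by positivity)).mp hGlow
  rw [div_mul_eq_mul_div, div_le_iff₀ hw] at h3
  rw [div_le_iff₀ (by positivity)]
  nlinarith [mul_pos hs hs]

/-- The point over `(x, y)` in the tangent plane at `c`. -/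
def gp (e₁ e₂ c : E3) (x y : ℝ) : E3 := c + x • e₁ + y • e₂

/-- The face `i` is seen in the direction of `gp x y`. -/
def Cell {f : ℕ} (u : Fin f → E3) (e₁ e₂ c : E3) (i : Fin f) (x y : ℝ) : Prop :=
  ∀ j, ⟪u j, gp e₁ e₂ c x y⟫ ≤ ⟪u i, gp e₁ e₂ c x y⟫

theorem frame (c : E3) (hc : ‖c‖ = 1) : ∃ e₁ e₂ : E3, ‖e₁‖ = 1 ∧ ‖e₂‖ = 1 ∧ ⟪e₁, e₂⟫ = 0 ∧
    ⟪e₁, c⟫ = 0 ∧ ⟪e₂, c⟫ = 0 := by
  have hv : Orthonormal ℝ (({2} : Set (Fin 3)).domRestrict fun _ => c) := by
    rw [orthonormal_iff_ite]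
    intro i j
    have hij : i = j := Subsingleton.elim _ _
    subst hij
    simp [Set.domRestrict, hc]
  obtain ⟨b, hb⟩ := hv.exists_orthonormalBasis_extension_of_card_eq
    (by simp : Module.finrank ℝ E3 = Fintype.card (Fin 3))
  have hb2 : b 2 = c := hb 2 rfl
  refine ⟨b 0, b 1, b.norm_eq_one 0, b.norm_eq_one 1, ?_, ?_, ?_⟩
  · exact b.inner_eq_zero (by decide)
  · rw [← hb2]; exact b.inner_eq_zero (by decide)
  · rw [← hb2]; exact b.inner_eq_zero (by decide)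

section
variable {f : ℕ} {u : Fin f → E3} {e₁ e₂ c : E3} (h1 : ‖e₁‖ = 1) (h2 : ‖e₂‖ = 1)
  (h3 : ‖c‖ = 1) (h12 : ⟪e₁, e₂⟫ = 0) (h13 : ⟪e₁, c⟫ = 0) (h23 : ⟪e₂, c⟫ = 0)

include h1 h12 h13 in
theorem gp_e1 (x y : ℝ) : ⟪gp e₁ e₂ c x y, e₁⟫ = x := by
  have a1 : ⟪c, e₁⟫ = 0 := by rw [real_inner_comm]; exact h13
  have a2 : ⟪e₂, e₁⟫ = 0 := by rw [real_inner_comm]; exact h12
  rw [gp, inner_add_left, inner_add_left, real_inner_smul_left, real_inner_smul_left, a1, a2,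
    real_inner_self_eq_norm_sq, h1]
  ring

include h2 h12 h23 in
theorem gp_e2 (x y : ℝ) : ⟪gp e₁ e₂ c x y, e₂⟫ = y := by
  have a1 : ⟪c, e₂⟫ = 0 := by rw [real_inner_comm]; exact h23
  rw [gp, inner_add_left, inner_add_left, real_inner_smul_left, real_inner_smul_left, a1, h12,
    real_inner_self_eq_norm_sq, h2]
  ring

include h3 h13 h23 in
theorem gp_c (x y : ℝ) : ⟪gp e₁ e₂ c x y, c⟫ = 1 := by
  rw [gp, inner_add_left, inner_add_left, real_inner_smul_left, real_inner_smul_left, h13, h23,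
    real_inner_self_eq_norm_sq, h3]
  ring

include h1 h2 h3 h12 h13 h23 in
theorem gp_norm (x y : ℝ) : ‖gp e₁ e₂ c x y‖ ^ 2 = 1 + x ^ 2 + y ^ 2 := by
  rw [← real_inner_self_eq_norm_sq]
  nth_rw 2 [gp]
  rw [inner_add_right, inner_add_right, real_inner_smul_right, real_inner_smul_right,
    gp_e1 h1 h12 h13, gp_e2 h2 h12 h23, gp_c h3 h13 h23]
  ring

include h1 h2 h3 h12 h13 h23 in
/-- Data of a cell: the point of the polytope over it. -/
theorem cell_data (hu : ∀ i, ‖u i‖ = 1) {r s : ℝ} (hr : 0 < r) (hrs : r ≤ s) (hs8 : s ≤ 1 / 8)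
    (hR : ∀ x ∈ Poly u, ‖x‖ ^ 2 ≤ 1 + r ^ 2) {x y : ℝ} (hx : x ∈ Icc (-s) s)
    (hy : y ∈ Icc (-s) s) {i : Fin f} (hi : Cell u e₁ e₂ c i x y) :
    ∃ τ : ℝ, 0 < τ ∧ τ * ⟪u i, gp e₁ e₂ c x y⟫ = 1 ∧ τ ^ 2 ≤ 1 + s ^ 2 ∧
      1 ≤ τ ^ 2 * (1 + 2 * s ^ 2) ∧ τ • gp e₁ e₂ c x y ∈ Poly u ∧
      ‖τ • gp e₁ e₂ c x y - u i‖ ≤ r := by
  set g := gp e₁ e₂ c x y with hg
  have hgn : ‖g‖ ^ 2 = 1 + x ^ 2 + y ^ 2 := gp_norm h1 h2 h3 h12 h13 h23 x y
  have hxx : x ^ 2 ≤ s ^ 2 := by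
    rw [sq_le_sq, abs_of_pos (lt_of_lt_of_le hr hrs)]; exact abs_le.mpr hx
  have hyy : y ^ 2 ≤ s ^ 2 := by
    rw [sq_le_sq, abs_of_pos (lt_of_lt_of_le hr hrs)]; exact abs_le.mpr hy
  have hs0 : 0 < s := lt_of_lt_of_le hr hrs
  have hpos : 0 < ⟪u i, g⟫ := by
    by_contra hneg
    push Not at hneg
    have hmem : (2 : ℝ) • g ∈ Poly u := by
      intro j
      rw [real_inner_smul_right]
      have := hi j
      linarith
    have := hR _ hmem
    rw [norm_smul, mul_pow, hgn, Real.norm_eq_abs, abs_two] at this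
    nlinarith
  set t := ⟪u i, g⟫ with ht
  have htg : t ≤ ‖g‖ := by
    have := real_inner_le_norm (u i) g
    rw [hu i, one_mul] at this; exact this
  have hmem : t⁻¹ • g ∈ Poly u := by
    intro j
    rw [real_inner_smul_right, inv_mul_le_iff₀ hpos, mul_one]
    exact hi j
  have hRb := hR _ hmem
  have hnb : ‖t⁻¹ • g‖ ^ 2 = t⁻¹ ^ 2 * (1 + x ^ 2 + y ^ 2) := by
    rw [norm_smul, mul_pow, hgn, Real.norm_eq_abs, sq_abs]
  refine ⟨t⁻¹, inv_pos.mpr hpos, inv_mul_cancel₀ hpos.ne', ?_, ?_, hmem, ?_⟩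
  · rw [hnb] at hRb
    have h5 : t⁻¹ ^ 2 ≤ t⁻¹ ^ 2 * (1 + x ^ 2 + y ^ 2) := by
      nlinarith [sq_nonneg (t⁻¹), mul_nonneg (sq_nonneg (t⁻¹)) (sq_nonneg x),
        mul_nonneg (sq_nonneg (t⁻¹)) (sq_nonneg y)]
    nlinarith
  · have h5 : t ^ 2 ≤ 1 + 2 * s ^ 2 := by
      have : t ^ 2 ≤ ‖g‖ ^ 2 := by gcongr
      rw [hgn] at this; linarith
    have h6 : t⁻¹ ^ 2 * t ^ 2 = 1 := by
      rw [← mul_pow, inv_mul_cancel₀ hpos.ne', one_pow]
    nlinarith [sq_nonneg (t⁻¹)]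
  · have h7 : ‖t⁻¹ • g - u i‖ ^ 2 ≤ r ^ 2 := by
      rw [norm_sub_sq_real, hu i, real_inner_smul_left, real_inner_comm, ← ht,
        inv_mul_cancel₀ hpos.ne']
      linarith
    exact (sq_le_sq₀ (norm_nonneg _) hr.le).mp h7

end

section
variable {f : ℕ} {u : Fin f → E3} {e₁ e₂ c : E3} (h1 : ‖e₁‖ = 1) (h2 : ‖e₂‖ = 1)
  (h3 : ‖c‖ = 1) (h12 : ⟪e₁, e₂⟫ = 0) (h13 : ⟪e₁, c⟫ = 0) (h23 : ⟪e₂, c⟫ = 0)

include h1 h2 h3 h12 h13 h23 in
theorem cell_near (hu : ∀ i, ‖u i‖ = 1) {r s : ℝ} (hr : 0 < r) (hrs : r ≤ s) (hs8 : s ≤ 1 / 8)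
    (hR : ∀ x ∈ Poly u, ‖x‖ ^ 2 ≤ 1 + r ^ 2) {x y : ℝ} (hx : x ∈ Icc (-s) s)
    (hy : y ∈ Icc (-s) s) {i : Fin f} (hi : Cell u e₁ e₂ c i x y) : ‖u i - c‖ ≤ 4 * s := by
  obtain ⟨τ, hτ0, -, hτ1, hτ2, -, hd⟩ :=
    cell_data h1 h2 h3 h12 h13 h23 hu hr hrs hs8 hR hx hy hi
  have hs0 : 0 < s := lt_of_lt_of_le hr hrs
  have hxx : x ^ 2 ≤ s ^ 2 := by
    rw [sq_le_sq, abs_of_pos hs0]; exact abs_le.mpr hx
  have hyy : y ^ 2 ≤ s ^ 2 := by
    rw [sq_le_sq, abs_of_pos hs0]; exact abs_le.mpr hy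
  have hbc : ‖τ • gp e₁ e₂ c x y - c‖ ^ 2 ≤ (3 * s) ^ 2 := by
    rw [norm_sub_sq_real, h3, real_inner_smul_left, gp_c h3 h13 h23, norm_smul, mul_pow,
      gp_norm h1 h2 h3 h12 h13 h23, Real.norm_eq_abs, sq_abs]
    have ha : (τ - 1) ^ 2 ≤ 4 * s ^ 2 := by
      have hb : |τ - 1| ≤ 2 * s := by
        rw [abs_le]; constructor
        · by_contra hcon
          push Not at hcon
          have hq : τ ^ 2 ≤ (1 - 2 * s) ^ 2 := by
            have : τ ≤ 1 - 2 * s := by linarith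
            gcongr
          have hq2 : τ ^ 2 * (1 + 2 * s ^ 2) ≤ (1 - 2 * s) ^ 2 * (1 + 2 * s ^ 2) := by gcongr
          have hq3 : (1 - 2 * s) ^ 2 * (1 + 2 * s ^ 2) =
              1 - s * (4 - 6 * s + 8 * s ^ 2 - 8 * s ^ 3) := by ring
          have hq4 : 0 < 4 - 6 * s + 8 * s ^ 2 - 8 * s ^ 3 := by
            have : s ^ 3 ≤ s ^ 2 := by nlinarith [sq_nonneg s]
            nlinarith
          have := mul_pos hs0 hq4
          linarith
        · by_contra hcon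
          push Not at hcon
          have hq : (1 + 2 * s) ^ 2 ≤ τ ^ 2 := by
            have : 1 + 2 * s ≤ τ := by linarith
            gcongr
          nlinarith
      rw [← sq_abs]
      calc |τ - 1| ^ 2 ≤ (2 * s) ^ 2 := by gcongr
        _ = 4 * s ^ 2 := by ring
    have hc : τ ^ 2 * (x ^ 2 + y ^ 2) ≤ (1 + s ^ 2) * (2 * s ^ 2) := by
      gcongr; linarith
    have hs2 : s ^ 2 ≤ 1 := by nlinarith
    have hs4 : s ^ 2 * s ^ 2 ≤ 1 * s ^ 2 := by gcongr
    have he : τ ^ 2 * (1 + x ^ 2 + y ^ 2) - 2 * (τ * 1) + 1 ^ 2 =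
        (τ - 1) ^ 2 + τ ^ 2 * (x ^ 2 + y ^ 2) := by ring
    rw [he]
    nlinarith [sq_nonneg s]
  have hbc' := (sq_le_sq₀ (norm_nonneg _) (by positivity)).mp hbc
  calc ‖u i - c‖ = ‖(τ • gp e₁ e₂ c x y - c) - (τ • gp e₁ e₂ c x y - u i)‖ := by
        congr 1; abel
    _ ≤ ‖τ • gp e₁ e₂ c x y - c‖ + ‖τ • gp e₁ e₂ c x y - u i‖ := norm_sub_le _ _
    _ ≤ 3 * s + r := add_le_add hbc' hd
    _ ≤ 4 * s := by linarith

include h1 h2 h3 h12 h13 h23 in
theorem cell_width (hu : ∀ i, ‖u i‖ = 1) {r s : ℝ} (hr : 0 < r) (hrs : r ≤ s) (hs8 : s ≤ 1 / 8)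
    (hR : ∀ x ∈ Poly u, ‖x‖ ^ 2 ≤ 1 + r ^ 2) {x y x' y' : ℝ} (hx : x ∈ Icc (-s) s)
    (hy : y ∈ Icc (-s) s) (hx' : x' ∈ Icc (-s) s) (hy' : y' ∈ Icc (-s) s) {i : Fin f}
    (hi : Cell u e₁ e₂ c i x y) (hi' : Cell u e₁ e₂ c i x' y') :
    |x - x'| ≤ 5 * r ∧ |y - y'| ≤ 5 * r := by
  obtain ⟨τ, hτ0, -, hτ1, hτ2, -, hd⟩ :=
    cell_data h1 h2 h3 h12 h13 h23 hu hr hrs hs8 hR hx hy hi
  obtain ⟨τ', hτ0', -, hτ1', hτ2', -, hd'⟩ :=
    cell_data h1 h2 h3 h12 h13 h23 hu hr hrs hs8 hR hx' hy' hi'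
  have hs0 : 0 < s := lt_of_lt_of_le hr hrs
  set d := τ • gp e₁ e₂ c x y - τ' • gp e₁ e₂ c x' y' with hdd
  have hdn : ‖d‖ ≤ 2 * r := by
    calc ‖d‖ = ‖(τ • gp e₁ e₂ c x y - u i) - (τ' • gp e₁ e₂ c x' y' - u i)‖ := by
          rw [hdd]; congr 1; abel
      _ ≤ _ := norm_sub_le _ _
      _ ≤ r + r := add_le_add hd hd'
      _ = 2 * r := by ring
  have hd1 : |⟪d, e₁⟫| ≤ 2 * r := by
    have := abs_real_inner_le_norm d e₁
    rw [h1, mul_one] at this; linarith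
  have hd2 : |⟪d, e₂⟫| ≤ 2 * r := by
    have := abs_real_inner_le_norm d e₂
    rw [h2, mul_one] at this; linarith
  have hd3 : |⟪d, c⟫| ≤ 2 * r := by
    have := abs_real_inner_le_norm d c
    rw [h3, mul_one] at this; linarith
  have e1v : ⟪d, e₁⟫ = τ * x - τ' * x' := by
    rw [hdd, inner_sub_left, real_inner_smul_left, real_inner_smul_left, gp_e1 h1 h12 h13,
      gp_e1 h1 h12 h13]
  have e2v : ⟪d, e₂⟫ = τ * y - τ' * y' := by
    rw [hdd, inner_sub_left, real_inner_smul_left, real_inner_smul_left, gp_e2 h2 h12 h23,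
      gp_e2 h2 h12 h23]
  have ecv : ⟪d, c⟫ = τ - τ' := by
    rw [hdd, inner_sub_left, real_inner_smul_left, real_inner_smul_left, gp_c h3 h13 h23,
      gp_c h3 h13 h23]
    ring
  have hτlow : 1 / 2 ≤ τ := by
    by_contra hcon
    push Not at hcon
    have hq : τ ^ 2 ≤ (1 / 2) ^ 2 := by gcongr
    have hs2 : s ^ 2 ≤ 1 := by nlinarith
    have hq2 : τ ^ 2 * (1 + 2 * s ^ 2) ≤ (1 / 2) ^ 2 * (1 + 2 * 1) := by gcongr
    norm_num at hq2
    linarith
  have key : ∀ p p' q : ℝ, |q| ≤ 2 * r → q = τ * p - τ' * p' → p' ∈ Icc (-s) s →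
      |p - p'| ≤ 5 * r := by
    intro p p' q hq hqe hp'
    have h : τ * (p - p') = q - p' * ⟪d, c⟫ := by rw [ecv, hqe]; ring
    have h4 : |p' * ⟪d, c⟫| ≤ (1 / 8) * (2 * r) := by
      rw [abs_mul]
      have : |p'| ≤ 1 / 8 := (abs_le.mpr hp').trans hs8
      gcongr
    have h5 : τ * |p - p'| ≤ 2 * r + (1 / 8) * (2 * r) := by
      rw [← abs_of_pos hτ0, ← abs_mul, h]
      exact (abs_sub _ _).trans (add_le_add hq h4)
    nlinarith [abs_nonneg (p - p')]
  exact ⟨key x x' _ hd1 e1v hx', key y y' _ hd2 e2v hy'⟩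

end

end LN

/-- Graph balls have quadratically many faces. -/
theorem lines_count {f : ℕ} {u : Fin f → E3} (hc : IsConfig u) (hs : IsSimple u)
    {r s : ℝ} (hr : 0 < r) (hrs : r ≤ s) (hs8 : s ≤ 1 / 8)
    (hR : ∀ x ∈ Poly u, ‖x‖ ^ 2 ≤ 1 + r ^ 2) {c : E3} (hcn : ‖c‖ = 1) {A : ℕ}
    (hA : {i | ‖u i - c‖ ≤ 4 * s}.ncard ≤ A) {n : ℕ} (hn : 40 * r * A ≤ n * s) :
    ∃ i₀, ‖u i₀ - c‖ ≤ 4 * s ∧ s ^ 2 / (25 * r ^ 2) ≤ ((reach (Adj u) i₀ n).ncard : ℝ) := by
  have _ := hs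
  have hs0 : 0 < s := lt_of_lt_of_le hr hrs
  obtain ⟨e₁, e₂, h1, h2, h12, h13, h23⟩ := LN.frame c hcn
  have hne : Nonempty (Fin f) := by
    by_contra hemp
    rw [not_nonempty_iff] at hemp
    have hmem : (2 : ℝ) • c ∈ Poly u := fun i => (hemp.false i).elim
    have := hR _ hmem
    rw [norm_smul, hcn, Real.norm_eq_abs, abs_two] at this
    nlinarith
  have hgcont : Continuous fun p : ℝ × ℝ => LN.gp e₁ e₂ c p.1 p.2 := by
    unfold LN.gp; fun_prop
  obtain ⟨i₀, hi₀, h⟩ := LN.count (Adj u) (LN.Cell u e₁ e₂ c) (s := s) (w := 5 * r) hs0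
    (by positivity)
    (by
      intro i
      have : {p : ℝ × ℝ | LN.Cell u e₁ e₂ c i p.1 p.2} =
          ⋂ j, {p : ℝ × ℝ | ⟪u j, LN.gp e₁ e₂ c p.1 p.2⟫ ≤ ⟪u i, LN.gp e₁ e₂ c p.1 p.2⟫} := by
        ext p; simp only [LN.Cell, Set.mem_ofPred_eq, mem_iInter]
      rw [this]
      exact isClosed_iInter fun j => isClosed_le (continuous_const.inner hgcont)
        (continuous_const.inner hgcont))
    (by
      intro x _ y _
      obtain ⟨i, hi⟩ := Finite.exists_max fun i => ⟪u i, LN.gp e₁ e₂ c x y⟫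
      exact ⟨i, hi⟩)
    (by
      intro i j x hx y hy hi hj
      by_cases hij : i = j
      · exact Or.inl hij
      · right
        obtain ⟨τ, hτ0, hτ, -, -, hmem, -⟩ :=
          LN.cell_data h1 h2 hcn h12 h13 h23 hc.unit hr hrs hs8 hR hx hy hi
        have he : ⟪u j, LN.gp e₁ e₂ c x y⟫ = ⟪u i, LN.gp e₁ e₂ c x y⟫ :=
          le_antisymm (hi j) (hj i)
        refine ⟨hij, _, hmem, ?_, ?_⟩
        · rw [real_inner_smul_right]; exact hτ
        · rw [real_inner_smul_right, he]; exact hτ)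
    (by
      intro i x hx y hy x' hx' y' hy' hi hi'
      exact LN.cell_width h1 h2 hcn h12 h13 h23 hc.unit hr hrs hs8 hR hx hy hx' hy' hi hi')
    hA
    (by
      intro i x hx y hy hi
      exact LN.cell_near h1 h2 hcn h12 h13 h23 hc.unit hr hrs hs8 hR hx hy hi)
    (n := n) (by linarith)
  refine ⟨i₀, hi₀, ?_⟩
  have : (5 * r) ^ 2 = 25 * r ^ 2 := by ring
  rw [this] at h
  exact h


end Gold
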