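import Pool.Agent.Lib.H81.Gold.Defect

/-!
# Local geometry at near-ideal faces (chunk J)
-/

noncomputable section

open MeasureTheory Metric Set
open scoped RealInnerProductSpace

namespace Gold

/-- The lattice vector of a dart. -/
def dl {f : ℕ} (u : Fin f → E3) (d : Dart u) : E3 := u d.1.2 - u d.1.1

/-- Every lattice vector is short when the polytope is round. -/
theorem norm_dl_le {f : ℕ} {u : Fin f → E3} (hc : IsConfig u) {r : ℝ}
    (hr : 0 ≤ r) (hR : ∀ x ∈ Poly u, ‖x‖ ^ 2 ≤ 1 + r ^ 2) (d : Dart u) :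
    ‖dl u d‖ ≤ 2 * r := by
  obtain ⟨x, hx, h1, h2⟩ := d.2.2
  have key : ∀ i, ⟪u i, x⟫ = 1 → ‖x - u i‖ ≤ r := by
    intro i hi
    have h3 : ‖x - u i‖ ^ 2 ≤ r ^ 2 := by
      rw [norm_sub_sq_real, real_inner_comm, hi, hc.unit i]
      have := hR x hx
      linarith
    exact (abs_le_of_sq_le_sq' h3 hr).2
  have h3 := key _ h1
  have h4 := key _ h2
  have h5 : dl u d = (x - u d.1.1) - (x - u d.1.2) := by rw [dl]; abel
  rw [h5]
  calc ‖(x - u d.1.1) - (x - u d.1.2)‖ ≤ ‖x - u d.1.1‖ + ‖x - u d.1.2‖ := norm_sub_le _ _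
    _ ≤ 2 * r := by linarith

/-! ### Vector algebra -/

namespace LG

theorem gram3 (e a b : E3) : det3 e a b ^ 2 = ‖e‖ ^ 2 * ‖a‖ ^ 2 * ‖b‖ ^ 2
    + 2 * ⟪e, a⟫ * ⟪a, b⟫ * ⟪e, b⟫ - ‖e‖ ^ 2 * ⟪a, b⟫ ^ 2 - ‖a‖ ^ 2 * ⟪e, b⟫ ^ 2
    - ‖b‖ ^ 2 * ⟪e, a⟫ ^ 2 := by
  rw [normsq3, normsq3, normsq3, inner3, inner3, inner3]; simp only [det3]; ring

theorem expand3 (z e x : E3) : (‖z‖ ^ 2 * ‖e‖ ^ 2 - ⟪z, e⟫ ^ 2) • x =
    det3 x z e • cr z e + (‖e‖ ^ 2 * ⟪x, z⟫ - ⟪z, e⟫ * ⟪x, e⟫) • z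
      + (‖z‖ ^ 2 * ⟪x, e⟫ - ⟪z, e⟫ * ⟪x, z⟫) • e := by
  rw [normsq3, normsq3, inner3, inner3, inner3]
  ext i
  fin_cases i
  all_goals
    simp [det3]
    ring

theorem foot {e v p q : E3} (he : ‖e‖ = 1) (hv : ‖v‖ = 1) (hve : v ≠ e) (hp : ⟪e, p⟫ = 1)
    (hq : ⟪e, q⟫ = 1) (hvp : ⟪v, p⟫ = 1) (hvq : ⟪v, q⟫ = 1) (hD : 0 < det3 e p q) :
    v - e = (2 * det3 e p q / (‖q - p‖ ^ 2 + det3 e p q ^ 2)) •
      (cr (q - p) e - det3 e p q • e) := by
  set D := det3 e p q with hDdef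
  set z := q - p with hz
  set Δ := v - e with hΔ
  have hze : ⟪z, e⟫ = 0 := by
    rw [real_inner_comm, hz, inner_sub_right, hp, hq]; ring
  have hΔz : ⟪Δ, z⟫ = 0 := by
    rw [hΔ, hz, inner_sub_left, inner_sub_right, inner_sub_right, hp, hq, hvp, hvq]; ring
  have hz0 : z ≠ 0 := by
    intro h0
    have : q = p := by rw [hz, sub_eq_zero] at h0; exact h0
    rw [hDdef, this] at hD
    have h2 : det3 e p p = 0 := by simp [det3]; ring
    linarith
  have hzpos : 0 < ‖z‖ ^ 2 := by positivity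
  have hex := expand3 z e Δ
  rw [he, hze, hΔz] at hex
  simp only [one_pow, mul_one, ne_eq, OfNat.ofNat_ne_zero, not_false_eq_true, zero_pow, sub_zero,
    mul_zero, zero_mul, zero_smul, add_zero] at hex
  set β := ⟪Δ, e⟫ with hβ
  set A := det3 Δ z e with hA
  have hcrΔ : ⟪cr z e, Δ⟫ = A := by
    rw [real_inner_comm, inner_cr_right, hA]
  have hcrp : ⟪cr z e, p⟫ = D := by
    rw [inner_cr_left, hz, hDdef]
    simp [det3]
    ring
  have hΔp : ⟪Δ, p⟫ = 0 := by rw [hΔ, inner_sub_left, hvp, hp]; ring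
  have h1 : A * D + ‖z‖ ^ 2 * β = 0 := by
    have := congrArg (fun x => ⟪x, p⟫) hex
    simp only [inner_add_left, real_inner_smul_left, hΔp, hcrp, hp] at this
    linarith
  have hnorm : ‖Δ‖ ^ 2 = -2 * β := by
    have h3 : v = e + Δ := by rw [hΔ]; abel
    have h4 : ‖v‖ ^ 2 = ‖e‖ ^ 2 + 2 * ⟪e, Δ⟫ + ‖Δ‖ ^ 2 := by
      rw [h3, norm_add_sq_real]
    rw [hv, he, real_inner_comm, ← hβ] at h4
    linarith
  have h2 : -2 * β * ‖z‖ ^ 2 = A ^ 2 + ‖z‖ ^ 2 * β ^ 2 := by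
    have := congrArg (fun x => ⟪x, Δ⟫) hex
    simp only [inner_add_left, real_inner_smul_left, hcrΔ, real_inner_self_eq_norm_sq,
      hnorm] at this
    have h5 : ⟪e, Δ⟫ = β := by rw [hβ, real_inner_comm]
    rw [h5] at this
    linarith
  have hAne : A ≠ 0 := by
    intro hA0
    rw [hA0] at h1
    have hβ0 : β = 0 := by
      have : ‖z‖ ^ 2 * β = 0 := by linarith
      rcases mul_eq_zero.1 this with h | h
      · exact absurd h hzpos.ne'
      · exact h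
    rw [hβ0] at hnorm
    have : Δ = 0 := by
      have h6 : ‖Δ‖ ^ 2 = 0 := by linarith
      exact norm_eq_zero.1 (pow_eq_zero_iff (two_ne_zero) |>.1 h6)
    rw [hΔ, sub_eq_zero] at this
    exact hve this
  have h3 : A = 2 * D + D * β := by
    have h4 : A * (2 * D - A + D * β) = 0 := by
      linear_combination h2 + (2 + β) * h1
    rcases mul_eq_zero.1 h4 with h | h
    · exact absurd h hAne
    · linarith
  have hDpos : 0 < D := hD
  have hden : 0 < ‖z‖ ^ 2 + D ^ 2 := by positivity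
  have hβv : β = -(2 * D ^ 2) / (‖z‖ ^ 2 + D ^ 2) := by
    rw [eq_div_iff hden.ne']
    rw [h3] at h1
    linear_combination h1
  have hAv : A = 2 * D * ‖z‖ ^ 2 / (‖z‖ ^ 2 + D ^ 2) := by
    rw [h3, hβv]
    field_simp
    ring
  have hfin : ‖z‖ ^ 2 • Δ = ‖z‖ ^ 2 •
      ((2 * D / (‖z‖ ^ 2 + D ^ 2)) • (cr z e - D • e)) := by
    rw [hex, hAv, hβv, smul_sub, smul_sub, smul_smul, smul_smul, smul_smul,
      sub_eq_add_neg, ← neg_smul]
    congr 2
    · field_simp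
    · field_simp
  exact smul_right_injective _ hzpos.ne' hfin

/-! ### The complex coordinate of the tangent plane -/

/-- The point of the plane `e^⊥` with complex coordinate `z` in the frame `b, e × b`. -/
def pe (e b : E3) (z : ℂ) : E3 := z.re • b + z.im • cr e b

theorem pe_add (e b : E3) (z w : ℂ) : pe e b (z + w) = pe e b z + pe e b w := by
  simp only [pe, Complex.add_re, Complex.add_im, add_smul]; abel

theorem pe_sub (e b : E3) (z w : ℂ) : pe e b (z - w) = pe e b z - pe e b w := by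
  simp only [pe, Complex.sub_re, Complex.sub_im, sub_smul]; abel

theorem pe_smul (e b : E3) (t : ℝ) (z : ℂ) : pe e b ((t : ℂ) * z) = t • pe e b z := by
  simp [pe, smul_smul]

theorem cr_cr {e b : E3} (he : ‖e‖ = 1) (hb : ⟪e, b⟫ = 0) : cr e (cr e b) = -b := by
  have h1 : e 0 ^ 2 + e 1 ^ 2 + e 2 ^ 2 = 1 := by rw [← normsq3, he]; norm_num
  rw [inner3] at hb
  ext i
  fin_cases i
  · simp
    linear_combination (-(b 0)) * h1 + e 0 * hb
  · simp
    linear_combination (-(b 1)) * h1 + e 1 * hb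
  · simp
    linear_combination (-(b 2)) * h1 + e 2 * hb

theorem cr_self_left (e b : E3) : cr e (-b) = -cr e b := by
  ext i; fin_cases i <;> simp <;> ring

theorem cr_add_right (e a b : E3) : cr e (a + b) = cr e a + cr e b := by
  ext i; fin_cases i <;> simp <;> ring

theorem cr_smul_right (e a : E3) (t : ℝ) : cr e (t • a) = t • cr e a := by
  ext i; fin_cases i <;> simp <;> ring

theorem cr_anti (a b : E3) : cr a b = -cr b a := by
  ext i; fin_cases i <;> simp <;> ring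

theorem cr_pe {e b : E3} (he : ‖e‖ = 1) (hb : ⟪e, b⟫ = 0) (z : ℂ) :
    cr e (pe e b z) = pe e b (Complex.I * z) := by
  rw [pe, cr_add_right, cr_smul_right, cr_smul_right, cr_cr he hb, pe]
  simp
  abel

theorem inner_e_pe {e b : E3} (hb : ⟪e, b⟫ = 0) (z : ℂ) : ⟪e, pe e b z⟫ = 0 := by
  have h : ⟪e, cr e b⟫ = 0 := by rw [inner_cr_right]; simp [det3]; ring
  rw [pe, inner_add_right, real_inner_smul_right, real_inner_smul_right, hb, h]; ring

theorem inner_pe {e b : E3} (he : ‖e‖ = 1) (hb1 : ‖b‖ = 1) (hb : ⟪e, b⟫ = 0) (z w : ℂ) :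
    ⟪pe e b z, pe e b w⟫ = z.re * w.re + z.im * w.im := by
  have h1 : ⟪b, cr e b⟫ = 0 := by rw [inner_cr_right]; simp [det3]; ring
  have h2 : ⟪cr e b, b⟫ = 0 := by rw [real_inner_comm]; exact h1
  have h3 : ⟪cr e b, cr e b⟫ = 1 := by
    rw [real_inner_self_eq_norm_sq, normsq_cr, he, hb1, hb]; norm_num
  simp only [pe, inner_add_left, inner_add_right, real_inner_smul_left, real_inner_smul_right,
    h1, h2, h3, real_inner_self_eq_norm_sq, hb1]
  ring

theorem norm_pe {e b : E3} (he : ‖e‖ = 1) (hb1 : ‖b‖ = 1) (hb : ⟪e, b⟫ = 0) (z : ℂ) :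
    ‖pe e b z‖ = ‖z‖ := by
  have h : ‖pe e b z‖ ^ 2 = ‖z‖ ^ 2 := by
    rw [← real_inner_self_eq_norm_sq, inner_pe he hb1 hb, Complex.sq_norm, Complex.normSq_apply]
  exact (pow_left_inj₀ (norm_nonneg _) (norm_nonneg _) two_ne_zero).1 h

theorem det_pe {e b : E3} (he : ‖e‖ = 1) (hb1 : ‖b‖ = 1) (hb : ⟪e, b⟫ = 0) (z w : ℂ) :
    det3 e (pe e b z) (pe e b w) = z.re * w.im - z.im * w.re := by
  have h : det3 e (pe e b z) (pe e b w) = ⟪pe e b w, cr e (pe e b z)⟫ := by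
    rw [inner_cr_right, det3_rot, det3_rot]
  rw [h, cr_pe he hb, inner_pe he hb1 hb]
  simp
  ring

theorem pe_neg (e b : E3) (z : ℂ) : pe e b (-z) = -pe e b z := by
  simp only [pe, Complex.neg_re, Complex.neg_im, neg_smul]; abel

theorem cr_pe_left {e b : E3} (he : ‖e‖ = 1) (hb : ⟪e, b⟫ = 0) (z : ℂ) :
    cr (pe e b z) e = pe e b (-(Complex.I * z)) := by
  rw [cr_anti, cr_pe he hb, pe_neg]

theorem det_eq_sin {e w w' : E3} (he : ‖e‖ = 1) (h1 : ⟪e, w⟫ = 0) (h2 : ⟪e, w'⟫ = 0)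
    (hdet : 0 < det3 e w w') :
    det3 e w w' = ‖w‖ * ‖w'‖ * Real.sin (InnerProductGeometry.angle w w') := by
  have hg := gram3 e w w'
  rw [he, h1, h2] at hg
  have hcos := InnerProductGeometry.cos_angle_mul_norm_mul_norm w w'
  have hsin : 0 ≤ Real.sin (InnerProductGeometry.angle w w') :=
    InnerProductGeometry.sin_angle_nonneg w w'
  have hsq := Real.sin_sq (InnerProductGeometry.angle w w')
  have h : det3 e w w' ^ 2 =
      (‖w‖ * ‖w'‖ * Real.sin (InnerProductGeometry.angle w w')) ^ 2 := by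
    rw [hg, ← hcos]
    linear_combination (-(‖w‖ * ‖w'‖) ^ 2) * hsq
  exact (pow_left_inj₀ hdet.le (by positivity) two_ne_zero).1 h

theorem polar_step {e b w w' : E3} {z : ℂ} (he : ‖e‖ = 1) (hb : ⟪e, b⟫ = 0)
    (hw : w = pe e b z) (h2 : ⟪e, w'⟫ = 0) (hdet : 0 < det3 e w w') :
    w' = pe e b (((‖w'‖ / ‖w‖ : ℝ) : ℂ) *
      (Complex.exp ((InnerProductGeometry.angle w w' : ℝ) * Complex.I) * z)) := by
  have h1 : ⟪e, w⟫ = 0 := by rw [hw]; exact inner_e_pe hb z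
  have hD := det_eq_sin he h1 h2 hdet
  have hcos := InnerProductGeometry.cos_angle_mul_norm_mul_norm w w'
  set ψ := InnerProductGeometry.angle w w' with hψ
  have hwpos : 0 < ‖w‖ := by
    rcases (norm_nonneg w).eq_or_lt with h | h
    · rw [← h, zero_mul, zero_mul] at hD; linarith
    · exact h
  have hex := expand3 w e w'
  have h1' : ⟪w, e⟫ = 0 := by rw [real_inner_comm]; exact h1
  have h2' : ⟪w', e⟫ = 0 := by rw [real_inner_comm]; exact h2
  have h3 : det3 w' w e = -det3 e w w' := by simp [det3]; ring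
  rw [he, h1', h2', h3, hD, real_inner_comm, ← hcos] at hex
  have hex2 : ‖w‖ ^ 2 • w' = (‖w‖ * ‖w'‖ * Real.sin ψ) • cr e w
      + (Real.cos ψ * (‖w‖ * ‖w'‖)) • w := by
    rw [cr_anti w e] at hex
    simpa using hex
  rw [pe_smul]
  have h4 : pe e b (Complex.exp ((ψ : ℝ) * Complex.I) * z)
      = Real.cos ψ • w + Real.sin ψ • cr e w := by
    rw [hw, cr_pe he hb, ← pe_smul, ← pe_smul, ← pe_add, Complex.exp_mul_I]
    congr 1
    push_cast
    ring
  rw [h4]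
  have hfin : ‖w‖ ^ 2 • w' = ‖w‖ ^ 2 • ((‖w'‖ / ‖w‖) •
      (Real.cos ψ • w + Real.sin ψ • cr e w)) := by
    rw [hex2, smul_add, smul_add, smul_smul, smul_smul, smul_smul, smul_smul, add_comm]
    congr 2
    · field_simp
    · field_simp
  exact smul_right_injective _ (pow_ne_zero 2 hwpos.ne') hfin

/-- Twice the area of the triangle `0, a, c`. -/
def dc (a c : ℂ) : ℝ := a.re * c.im - a.im * c.re

/-- Tangential part of a lattice vector. -/
def Pc (a c : ℂ) (s : ℝ) : ℂ :=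
  ((2 * dc a c / (Complex.normSq (c - a) + s ^ 2 * dc a c ^ 2) : ℝ) : ℂ) *
    (-(Complex.I * (c - a)))

/-- Normal part of a lattice vector. -/
def Tc (a c : ℂ) (s : ℝ) : ℝ :=
  -(2 * s * dc a c ^ 2 / (Complex.normSq (c - a) + s ^ 2 * dc a c ^ 2))

theorem dl_eq {f : ℕ} {u : Fin f → E3} (hc : IsConfig u) (hs : IsSimple u) (d : Dart u)
    {b : E3} (hb1 : ‖b‖ = 1) (hb : ⟪u d.1.1, b⟫ = 0) {s : ℝ} (hs0 : 0 < s) {a c : ℂ}
    (ha : wv hc hs ((rhoE hc hs)⁻¹ d) = pe (u d.1.1) b ((s : ℂ) * a))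
    (hcc : wv hc hs d = pe (u d.1.1) b ((s : ℂ) * c)) :
    dl u d = s • (pe (u d.1.1) b (Pc a c s) + Tc a c s • u d.1.1) ∧
      dd hc hs d = s ^ 2 * dc a c := by
  set e := u d.1.1 with he
  have he1 : ‖e‖ = 1 := hc.unit _
  set p := vtx hc hs ((rhoE hc hs)⁻¹ d) with hp
  set q := vtx hc hs d with hq
  have hpe : ⟪e, p⟫ = 1 := vtx_tail hc hs ((rhoE hc hs)⁻¹ d)
  have hqe : ⟪e, q⟫ = 1 := vtx_tail hc hs d
  have hvp : ⟪u d.1.2, p⟫ = 1 := by
    have h1 := vtx_third hc hs ((rhoE hc hs)⁻¹ d)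
    have h2 : (rhoE hc hs) ((rhoE hc hs)⁻¹ d) = d := (rhoE hc hs).apply_symm_apply d
    rwa [h2] at h1
  have hvq : ⟪u d.1.2, q⟫ = 1 := vtx_head hc hs d
  have hve : u d.1.2 ≠ e := fun h => d.2.1 (hc.inj h).symm
  have hD : 0 < det3 e p q := det_pos hc hs d
  have hft := foot he1 (hc.unit d.1.2) hve hpe hqe hvp hvq hD
  have hpa : p - e = pe e b ((s : ℂ) * a) := ha
  have hqc : q - e = pe e b ((s : ℂ) * c) := hcc
  have hDv : det3 e p q = s ^ 2 * dc a c := by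
    have h1 : det3 e p q = det3 e (p - e) (q - e) := by simp [det3]; ring
    rw [h1, hpa, hqc, det_pe he1 hb1 hb, dc]
    simp
    ring
  have hqp : q - p = pe e b ((s : ℂ) * (c - a)) := by
    have : q - p = (q - e) - (p - e) := by abel
    rw [this, hpa, hqc, ← pe_sub]
    congr 1
    ring
  have hN : ‖q - p‖ ^ 2 = s ^ 2 * Complex.normSq (c - a) := by
    rw [hqp, norm_pe he1 hb1 hb, norm_mul, mul_pow, Complex.norm_real,
      Real.norm_eq_abs, sq_abs, Complex.sq_norm]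
  refine ⟨?_, hDv⟩
  have hdc : 0 < dc a c := by
    rw [hDv] at hD
    exact (pos_iff_pos_of_mul_pos hD).1 (by positivity)
  have hden : 0 < Complex.normSq (c - a) + s ^ 2 * dc a c ^ 2 := by
    have := Complex.normSq_nonneg (c - a)
    positivity
  rw [dl, ← he, hft, hN, hDv, hqp, cr_pe_left he1 hb, Pc, pe_smul, Tc]
  have h5 : pe e b (-(Complex.I * ((s : ℂ) * (c - a)))) =
      s • pe e b (-(Complex.I * (c - a))) := by
    rw [← pe_smul]; congr 1; ring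
  rw [h5]
  have h6 : 2 * (s ^ 2 * dc a c) / (s ^ 2 * Complex.normSq (c - a) + (s ^ 2 * dc a c) ^ 2)
      = 2 * dc a c / (Complex.normSq (c - a) + s ^ 2 * dc a c ^ 2) := by
    have : s ^ 2 * Complex.normSq (c - a) + (s ^ 2 * dc a c) ^ 2 =
      s ^ 2 * (Complex.normSq (c - a) + s ^ 2 * dc a c ^ 2) := by ring
    rw [this]
    field_simp
  rw [h6]
  set N := Complex.normSq (c - a) + s ^ 2 * dc a c ^ 2 with hNd
  set V := pe e b (-(Complex.I * (c - a))) with hV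
  have h7 : -(2 * s * dc a c ^ 2 / N) = -(2 * dc a c / N * (s * dc a c)) := by
    field_simp
  rw [h7]
  module

/-- Complex coordinates of four consecutive vertices, in units of `s`. -/
def c0 (x : Fin 8 → ℝ) : ℂ := x 0
/-- Second vertex. -/
def c1 (x : Fin 8 → ℝ) : ℂ := x 1 * Complex.exp ((x 4 : ℝ) * Complex.I)
/-- Third vertex. -/
def c2 (x : Fin 8 → ℝ) : ℂ := x 2 * Complex.exp ((x 4 + x 5 : ℝ) * Complex.I)
/-- Fourth vertex. -/
def c3 (x : Fin 8 → ℝ) : ℂ := x 3 * Complex.exp ((x 4 + x 5 + x 6 : ℝ) * Complex.I)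

/-- The ideal values. -/
def x0 : Fin 8 → ℝ := ![1, 1, 1, 1, Real.pi / 3, Real.pi / 3, Real.pi / 3, 0]

/-- Half of the square root of three, as an abbreviation for the proofs. -/
def h3 : ℝ := Real.sqrt 3 / 2

theorem h3_sq : h3 ^ 2 = 3 / 4 := by
  rw [h3, div_pow, Real.sq_sqrt (by norm_num)]; norm_num

theorem h3_pos : 0 < h3 := by rw [h3]; positivity

theorem polar_mk (p ψ : ℝ) : (p : ℂ) * Complex.exp ((ψ : ℝ) * Complex.I) =
    ⟨p * Real.cos ψ, p * Real.sin ψ⟩ := by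
  apply Complex.ext
  · rw [Complex.re_ofReal_mul, Complex.exp_ofReal_mul_I_re]
  · rw [Complex.im_ofReal_mul, Complex.exp_ofReal_mul_I_im]

theorem c0_x0 : c0 x0 = ⟨1, 0⟩ := by
  simp [c0, x0, Complex.ext_iff]

theorem c1_x0 : c1 x0 = ⟨1 / 2, h3⟩ := by
  rw [c1, polar_mk]
  simp [x0, h3]

theorem c2_x0 : c2 x0 = ⟨-(1 / 2), h3⟩ := by
  have h : Real.pi / 3 + Real.pi / 3 = Real.pi - Real.pi / 3 := by ring
  rw [c2, polar_mk]
  simp only [x0, Matrix.cons_val]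
  rw [h, Real.cos_pi_sub, Real.sin_pi_sub]
  simp [h3]

theorem c3_x0 : c3 x0 = ⟨-1, 0⟩ := by
  have h : Real.pi / 3 + Real.pi / 3 + Real.pi / 3 = Real.pi := by ring
  rw [c3, polar_mk]
  simp only [x0, Matrix.cons_val]
  rw [h]
  simp

theorem dc_cont {a c : (Fin 8 → ℝ) → ℂ} (ha : Continuous a) (hc : Continuous c) :
    Continuous fun x => dc (a x) (c x) := by
  unfold dc
  exact ((Complex.continuous_re.comp ha).mul (Complex.continuous_im.comp hc)).sub
    ((Complex.continuous_im.comp ha).mul (Complex.continuous_re.comp hc))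

theorem den_cont {a c : (Fin 8 → ℝ) → ℂ} (ha : Continuous a) (hc : Continuous c) :
    Continuous fun x => Complex.normSq (c x - a x) + x 7 ^ 2 * dc (a x) (c x) ^ 2 :=
  (Complex.continuous_normSq.comp (hc.sub ha)).add
    (((continuous_apply 7).pow 2).mul ((dc_cont ha hc).pow 2))

theorem Pc_cont {a c : (Fin 8 → ℝ) → ℂ} (ha : Continuous a) (hc : Continuous c)
    (h : Complex.normSq (c x0 - a x0) ≠ 0) :
    ContinuousAt (fun x => Pc (a x) (c x) (x 7)) x0 := by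
  unfold Pc
  have h7 : x0 7 = 0 := rfl
  refine ContinuousAt.mul ?_ ?_
  · refine Complex.continuous_ofReal.continuousAt.comp ?_
    refine ContinuousAt.div ?_ (den_cont ha hc).continuousAt ?_
    · exact (continuous_const.mul (dc_cont ha hc)).continuousAt
    · rw [h7]; simpa using h
  · exact ((continuous_const.mul (hc.sub ha)).neg).continuousAt

theorem Tc_cont {a c : (Fin 8 → ℝ) → ℂ} (ha : Continuous a) (hc : Continuous c)
    (h : Complex.normSq (c x0 - a x0) ≠ 0) :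
    ContinuousAt (fun x => Tc (a x) (c x) (x 7)) x0 := by
  unfold Tc
  have h7 : x0 7 = 0 := rfl
  refine ContinuousAt.neg ?_
  refine ContinuousAt.div ?_ (den_cont ha hc).continuousAt ?_
  · exact ((continuous_const.mul (continuous_apply 7)).mul ((dc_cont ha hc).pow 2)).continuousAt
  · rw [h7]; simpa using h

theorem c0_cont : Continuous c0 := by unfold c0; fun_prop
theorem c1_cont : Continuous c1 := by unfold c1; fun_prop
theorem c2_cont : Continuous c2 := by unfold c2; fun_prop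
theorem c3_cont : Continuous c3 := by unfold c3; fun_prop

/-- Defect of the hexagonal relation. -/
def F1 (x : Fin 8 → ℝ) : ℝ :=
  ‖Pc (c1 x) (c2 x) (x 7) - Pc (c0 x) (c1 x) (x 7) - Pc (c2 x) (c3 x) (x 7)‖ +
    |Tc (c1 x) (c2 x) (x 7) - Tc (c0 x) (c1 x) (x 7) - Tc (c2 x) (c3 x) (x 7)|

/-- Squared length of the first lattice vector. -/
def F2 (x : Fin 8 → ℝ) : ℝ := ‖Pc (c0 x) (c1 x) (x 7)‖ ^ 2 + Tc (c0 x) (c1 x) (x 7) ^ 2

/-- Determinant of the first triangle. -/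
def F3 (x : Fin 8 → ℝ) : ℝ := dc (c0 x) (c1 x)

theorem ns01 : Complex.normSq (c1 x0 - c0 x0) = 1 := by
  have := h3_sq
  rw [c0_x0, c1_x0, Complex.normSq_apply]
  simp
  nlinarith

theorem ns12 : Complex.normSq (c2 x0 - c1 x0) = 1 := by
  rw [c1_x0, c2_x0, Complex.normSq_apply]
  simp
  norm_num

theorem ns23 : Complex.normSq (c3 x0 - c2 x0) = 1 := by
  have := h3_sq
  rw [c2_x0, c3_x0, Complex.normSq_apply]
  simp
  nlinarith

theorem F1_cont : ContinuousAt F1 x0 := by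
  have h01 := Pc_cont c0_cont c1_cont (by rw [ns01]; norm_num)
  have h12 := Pc_cont c1_cont c2_cont (by rw [ns12]; norm_num)
  have h23 := Pc_cont c2_cont c3_cont (by rw [ns23]; norm_num)
  have t01 := Tc_cont c0_cont c1_cont (by rw [ns01]; norm_num)
  have t12 := Tc_cont c1_cont c2_cont (by rw [ns12]; norm_num)
  have t23 := Tc_cont c2_cont c3_cont (by rw [ns23]; norm_num)
  exact ((h12.sub h01).sub h23).norm.add ((t12.sub t01).sub t23).abs

theorem F2_cont : ContinuousAt F2 x0 := by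
  have h01 := Pc_cont c0_cont c1_cont (by rw [ns01]; norm_num)
  have t01 := Tc_cont c0_cont c1_cont (by rw [ns01]; norm_num)
  exact (h01.norm.pow 2).add (t01.pow 2)

theorem F3_cont : ContinuousAt F3 x0 := (dc_cont c0_cont c1_cont).continuousAt

theorem dc01 : dc (c0 x0) (c1 x0) = h3 := by
  rw [dc, c0_x0, c1_x0]; simp

theorem dc12 : dc (c1 x0) (c2 x0) = h3 := by
  rw [dc, c1_x0, c2_x0]; simp; ring

theorem dc23 : dc (c2 x0) (c3 x0) = h3 := by
  rw [dc, c2_x0, c3_x0]; simp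

theorem F1_x0 : F1 x0 = 0 := by
  have h7 : x0 7 = 0 := rfl
  rw [F1, Pc, Pc, Pc, Tc, Tc, Tc, h7, ns01, ns12, ns23, dc01, dc12, dc23, c0_x0, c1_x0, c2_x0,
    c3_x0]
  have h : (((2 * h3 / (1 + 0 ^ 2 * h3 ^ 2) : ℝ) : ℂ) * -(Complex.I * ((⟨-(1 / 2), h3⟩ : ℂ) - ⟨1 / 2, h3⟩)) -
      ((2 * h3 / (1 + 0 ^ 2 * h3 ^ 2) : ℝ) : ℂ) * -(Complex.I * ((⟨1 / 2, h3⟩ : ℂ) - ⟨1, 0⟩)) -
      ((2 * h3 / (1 + 0 ^ 2 * h3 ^ 2) : ℝ) : ℂ) * -(Complex.I * ((⟨-1, 0⟩ : ℂ) - ⟨-(1 / 2), h3⟩))) = 0 := by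
    apply Complex.ext
    · simp
    · simp
      ring
  rw [h]
  simp

theorem F2_x0 : F2 x0 = 3 := by
  have h7 : x0 7 = 0 := rfl
  have h := h3_sq
  rw [F2, Pc, Tc, h7, ns01, dc01, norm_mul, mul_pow, Complex.norm_real, Real.norm_eq_abs, sq_abs,
    norm_neg, norm_mul, Complex.norm_I, one_mul, Complex.sq_norm, ns01]
  have h2 : (2 * h3) ^ 2 = 3 := by rw [mul_pow, h]; norm_num
  simp [h2]

theorem F3_x0 : F3 x0 = h3 := dc01

/-- The coordinates of four consecutive vertices. -/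
def xv {f : ℕ} {u : Fin f → E3} (hc : IsConfig u) (hs : IsSimple u) (s : ℝ) (d : Dart u) :
    Fin 8 → ℝ :=
  ![‖wv hc hs ((rhoE hc hs)⁻¹ d)‖ / s, ‖wv hc hs d‖ / s, ‖wv hc hs (rhoE hc hs d)‖ / s,
    ‖wv hc hs (rhoE hc hs (rhoE hc hs d))‖ / s, ang hc hs d, ang hc hs (rhoE hc hs d),
    ang hc hs (rhoE hc hs (rhoE hc hs d)), s]

theorem det_wv {f : ℕ} {u : Fin f → E3} (hc : IsConfig u) (hs : IsSimple u) (d : Dart u) :
    0 < det3 (u d.1.1) (wv hc hs ((rhoE hc hs)⁻¹ d)) (wv hc hs d) := by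
  have h := det_pos hc hs d
  have h2 : det3 (u d.1.1) (wv hc hs ((rhoE hc hs)⁻¹ d)) (wv hc hs d) =
      det3 (u d.1.1) (vtx hc hs ((rhoE hc hs)⁻¹ d)) (vtx hc hs d) := by
    have h3 : wv hc hs ((rhoE hc hs)⁻¹ d) = vtx hc hs ((rhoE hc hs)⁻¹ d) - u d.1.1 := rfl
    rw [h3, wv]
    simp [det3]
    ring
  rw [h2]
  exact h

theorem step_wv {f : ℕ} {u : Fin f → E3} (hc : IsConfig u) (hs : IsSimple u) (d : Dart u)
    {s : ℝ} (hs0 : 0 < s) {b : E3} (hb : ⟪u d.1.1, b⟫ = 0) {θ : ℝ}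
    (h : wv hc hs ((rhoE hc hs)⁻¹ d) = pe (u d.1.1) b ((s : ℂ) *
      ((‖wv hc hs ((rhoE hc hs)⁻¹ d)‖ / s : ℝ) * Complex.exp ((θ : ℝ) * Complex.I)))) :
    wv hc hs d = pe (u d.1.1) b ((s : ℂ) *
      ((‖wv hc hs d‖ / s : ℝ) * Complex.exp ((θ + ang hc hs d : ℝ) * Complex.I))) := by
  have h1 := polar_step (hc.unit d.1.1) hb h (inner_wv hc hs d) (det_wv hc hs d)
  have hne : ‖wv hc hs ((rhoE hc hs)⁻¹ d)‖ ≠ 0 := by
    intro h0
    have h2 := det_wv hc hs d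
    rw [norm_eq_zero.1 h0] at h2
    simp [det3] at h2
  have hang : ang hc hs d = InnerProductGeometry.angle (wv hc hs ((rhoE hc hs)⁻¹ d))
    (wv hc hs d) := rfl
  rw [hang]
  set n0 := ‖wv hc hs ((rhoE hc hs)⁻¹ d)‖ with hn0
  set ψ := InnerProductGeometry.angle (wv hc hs ((rhoE hc hs)⁻¹ d)) (wv hc hs d) with hψ
  set n1 := ‖wv hc hs d‖ with hn1
  rw [h1]
  congr 1
  push_cast
  rw [add_mul, Complex.exp_add]
  have hsne : (s : ℂ) ≠ 0 := by exact_mod_cast hs0.ne'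
  have hn0' : (n0 : ℂ) ≠ 0 := by exact_mod_cast hne
  field_simp

theorem coords {f : ℕ} {u : Fin f → E3} (hc : IsConfig u) (hs : IsSimple u) (d : Dart u)
    {s : ℝ} (hs0 : 0 < s) : ∃ b : E3, ‖b‖ = 1 ∧ ⟪u d.1.1, b⟫ = 0 ∧
      wv hc hs ((rhoE hc hs)⁻¹ d) = pe (u d.1.1) b ((s : ℂ) * c0 (xv hc hs s d)) ∧
      wv hc hs d = pe (u d.1.1) b ((s : ℂ) * c1 (xv hc hs s d)) ∧
      wv hc hs (rhoE hc hs d) = pe (u d.1.1) b ((s : ℂ) * c2 (xv hc hs s d)) ∧
      wv hc hs (rhoE hc hs (rhoE hc hs d)) =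
        pe (u d.1.1) b ((s : ℂ) * c3 (xv hc hs s d)) := by
  set w := wv hc hs ((rhoE hc hs)⁻¹ d) with hw
  have hne : ‖w‖ ≠ 0 := by
    intro h0
    have h2 := det_wv hc hs d
    rw [← hw, norm_eq_zero.1 h0] at h2
    simp [det3] at h2
  have hew : ⟪u d.1.1, w⟫ = 0 := inner_wv hc hs ((rhoE hc hs)⁻¹ d)
  have hb : ⟪u d.1.1, ‖w‖⁻¹ • w⟫ = 0 := by rw [real_inner_smul_right, hew, mul_zero]
  have h0 : w = pe (u d.1.1) (‖w‖⁻¹ • w) ((s : ℂ) *
      ((‖w‖ / s : ℝ) * Complex.exp (((0 : ℝ) : ℝ) * Complex.I))) := by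
    have h1 : ((s : ℂ) * ((‖w‖ / s : ℝ) * Complex.exp (((0 : ℝ) : ℝ) * Complex.I))) =
        ((‖w‖ : ℝ) : ℂ) := by
      have hsne : (s : ℂ) ≠ 0 := by exact_mod_cast hs0.ne'
      push_cast
      rw [zero_mul, Complex.exp_zero]
      field_simp
    rw [h1]
    simp [pe, smul_smul, mul_inv_cancel₀ hne]
  have h1 := step_wv hc hs d hs0 hb h0
  have hr : (rhoE hc hs)⁻¹ (rhoE hc hs d) = d := (rhoE hc hs).symm_apply_apply d
  have hr2 : (rhoE hc hs)⁻¹ (rhoE hc hs (rhoE hc hs d)) = rhoE hc hs d :=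
    (rhoE hc hs).symm_apply_apply _
  have h2 := step_wv hc hs (rhoE hc hs d) hs0 (b := ‖w‖⁻¹ • w) hb
    (θ := 0 + ang hc hs d) (by rw [hr]; exact h1)
  have h3 := step_wv hc hs (rhoE hc hs (rhoE hc hs d)) hs0 (b := ‖w‖⁻¹ • w) hb
    (θ := 0 + ang hc hs d + ang hc hs (rhoE hc hs d)) (by rw [hr2]; exact h2)
  refine ⟨‖w‖⁻¹ • w, ?_, hb, ?_, ?_, ?_, ?_⟩
  · rw [norm_smul, norm_inv, norm_norm, inv_mul_cancel₀ hne]
  · rw [c0, xv]
    simp only [Matrix.cons_val]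
    rw [← hw]
    nth_rewrite 1 [h0]
    congr 1
    simp
  · rw [zero_add] at h1
    exact h1
  · rw [zero_add] at h2
    exact h2
  · rw [zero_add] at h3
    exact h3

theorem lHex_sq (f : ℕ) : lHex f ^ 2 = 3 * sHex f ^ 2 := by
  rw [lHex, sHex, Real.sq_sqrt (by positivity), Real.sq_sqrt (by positivity)]
  rcases Nat.eq_zero_or_pos f with h | h
  · subst h; simp
  · have : (0 : ℝ) < f := by exact_mod_cast h
    field_simp

theorem sHex_le_lHex (f : ℕ) : sHex f ≤ lHex f := by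
  have h1 : 0 ≤ sHex f := Real.sqrt_nonneg _
  have h2 : 0 ≤ lHex f := Real.sqrt_nonneg _
  have h3 := lHex_sq f
  nlinarith

theorem sHex_tendsto : Filter.Tendsto sHex Filter.atTop (nhds 0) := by
  have h1 : Filter.Tendsto (fun f : ℕ => 8 * Real.pi / (3 * Real.sqrt 3 * f)) Filter.atTop
      (nhds 0) :=
    tendsto_const_nhds.div_atTop (Filter.Tendsto.const_mul_atTop (by positivity)
      tendsto_natCast_atTop_atTop)
  have h2 := (Real.continuous_sqrt.tendsto 0).comp h1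
  rw [Real.sqrt_zero] at h2
  exact h2

end LG

open LG in
/-- At near-ideal faces the lattice vectors form a near-ideal hexagonal star. -/
theorem local_geo {δ : ℝ} (hδ : 0 < δ) :
    ∃ δ' : ℝ, 0 < δ' ∧ ∃ F₀ : ℕ, ∀ f : ℕ, F₀ ≤ f → ∀ (u : Fin f → E3) (hc : IsConfig u)
      (hs : IsSimple u) (i : Fin f), NearHex hc hs δ' i →
      (∀ d : Dart u, d.1.1 = i → |‖dl u d‖ ^ 2 - lHex f ^ 2| ≤ δ * lHex f ^ 2 ∧
        ‖dl u (rhoE hc hs d) - dl u d - dl u (rhoE hc hs (rhoE hc hs d))‖ ≤ δ * lHex f) ∧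
      (1 - δ) * (4 * Real.pi / (3 * f)) ≤
        ∑ d ∈ (Finset.univ : Finset (Dart u)).filter (fun d => d.1.1 = i), dd hc hs d / 6 := by
  obtain ⟨η1, hη1, H1⟩ := Metric.continuousAt_iff.1 F1_cont δ hδ
  obtain ⟨η2, hη2, H2⟩ := Metric.continuousAt_iff.1 F2_cont δ hδ
  obtain ⟨η3, hη3, H3⟩ := Metric.continuousAt_iff.1 F3_cont (δ / 2) (by positivity)
  set η := min η1 (min η2 η3) with hη
  have hηpos : 0 < η := lt_min hη1 (lt_min hη2 hη3)
  obtain ⟨F₁, hF₁⟩ := Filter.eventually_atTop.1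
    (sHex_tendsto.eventually (gt_mem_nhds hηpos))
  refine ⟨η / 2, by positivity, max F₁ 1, ?_⟩
  intro f hf u hc hs i hi
  have hf1 : 1 ≤ f := le_trans (le_max_right _ _) hf
  have hfpos : (0 : ℝ) < f := by exact_mod_cast hf1
  have hsη : sHex f < η := hF₁ f (le_trans (le_max_left _ _) hf)
  have hs0 : 0 < sHex f := by rw [sHex]; positivity
  set s := sHex f with hsd
  obtain ⟨hdeg, hnear⟩ := hi
  have hpp : ∀ d : Dart u, d.1.1 = i → |‖wv hc hs d‖ / s - 1| < η := by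
    intro d hd
    have h1 := (hnear d hd).1
    have h2 : ‖wv hc hs d‖ / s - 1 = (‖wv hc hs d‖ - s) / s := by field_simp
    rw [h2, abs_div, abs_of_pos hs0, div_lt_iff₀ hs0]
    nlinarith
  have haa : ∀ d : Dart u, d.1.1 = i → |ang hc hs d - Real.pi / 3| < η := by
    intro d hd
    have h1 := (hnear d hd).2
    linarith
  have hx : ∀ d : Dart u, d.1.1 = i → dist (xv hc hs s d) x0 < η := by
    intro d hd
    rw [dist_pi_lt_iff hηpos]
    intro k
    rw [Real.dist_eq]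
    fin_cases k
    · exact hpp ((rhoE hc hs)⁻¹ d) hd
    · exact hpp d hd
    · exact hpp (rhoE hc hs d) hd
    · exact hpp (rhoE hc hs (rhoE hc hs d)) hd
    · exact haa d hd
    · exact haa (rhoE hc hs d) hd
    · exact haa (rhoE hc hs (rhoE hc hs d)) hd
    · show |s - 0| < η
      rw [sub_zero, abs_of_pos hs0]
      exact hsη
  have hk1 : η ≤ η1 := min_le_left _ _
  have hk2 : η ≤ η2 := le_trans (min_le_right _ _) (min_le_left _ _)
  have hk3 : η ≤ η3 := le_trans (min_le_right _ _) (min_le_right _ _)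
  have hl := lHex_sq f
  have hsl := sHex_le_lHex f
  rw [← hsd] at hl hsl
  constructor
  · intro d hd
    obtain ⟨b, hb1, hb, q0, q1, q2, q3⟩ := coords hc hs d hs0
    set x := xv hc hs s d with hxd
    have hx7 : x 7 = s := rfl
    have hr : (rhoE hc hs)⁻¹ (rhoE hc hs d) = d := (rhoE hc hs).symm_apply_apply d
    have hr2 : (rhoE hc hs)⁻¹ (rhoE hc hs (rhoE hc hs d)) = rhoE hc hs d :=
      (rhoE hc hs).symm_apply_apply _
    have e1 := (dl_eq hc hs d hb1 hb hs0 q0 q1).1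
    have e2 := (dl_eq hc hs (rhoE hc hs d) (b := b) hb1 hb hs0 (a := c1 x) (c := c2 x)
      (by rw [hr]; exact q1) q2).1
    have e3 := (dl_eq hc hs (rhoE hc hs (rhoE hc hs d)) (b := b) hb1 hb hs0 (a := c2 x)
      (c := c3 x) (by rw [hr2]; exact q2) q3).1
    have g1 : (rhoE hc hs d).1.1 = d.1.1 := rfl
    have g2 : (rhoE hc hs (rhoE hc hs d)).1.1 = d.1.1 := rfl
    rw [g1] at e2
    rw [g2] at e3
    have hu1 : ‖u d.1.1‖ = 1 := hc.unit _
    have d1 := H1 (lt_of_lt_of_le (hx d hd) hk1)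
    have d2 := H2 (lt_of_lt_of_le (hx d hd) hk2)
    rw [← hxd, Real.dist_eq, F1_x0, sub_zero] at d1
    rw [← hxd, Real.dist_eq, F2_x0] at d2
    constructor
    · have hnorm : ‖dl u d‖ ^ 2 = s ^ 2 * F2 x := by
        have hor : ⟪pe (u d.1.1) b (Pc (c0 x) (c1 x) s), Tc (c0 x) (c1 x) s • u d.1.1⟫ = 0 := by
          rw [real_inner_smul_right, real_inner_comm, inner_e_pe hb, mul_zero]
        rw [e1, norm_smul, mul_pow, norm_add_sq_real, hor, norm_pe hu1 hb1 hb, norm_smul, hu1,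
          F2, hx7, Real.norm_eq_abs, Real.norm_eq_abs, sq_abs, mul_one, sq_abs]
        ring
      rw [hnorm, hl]
      have h5 : s ^ 2 * F2 x - 3 * s ^ 2 = s ^ 2 * (F2 x - 3) := by ring
      rw [h5, abs_mul, abs_of_pos (by positivity : 0 < s ^ 2)]
      have h6 : 0 < s ^ 2 := by positivity
      nlinarith
    · have h5 : dl u (rhoE hc hs d) - dl u d - dl u (rhoE hc hs (rhoE hc hs d)) =
          s • (pe (u d.1.1) b (Pc (c1 x) (c2 x) s - Pc (c0 x) (c1 x) s - Pc (c2 x) (c3 x) s) +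
            (Tc (c1 x) (c2 x) s - Tc (c0 x) (c1 x) s - Tc (c2 x) (c3 x) s) • u d.1.1) := by
        rw [e1, e2, e3, pe_sub, pe_sub]
        module
      rw [h5, norm_smul, Real.norm_eq_abs, abs_of_pos hs0]
      have h6 : ‖pe (u d.1.1) b (Pc (c1 x) (c2 x) s - Pc (c0 x) (c1 x) s - Pc (c2 x) (c3 x) s) +
            (Tc (c1 x) (c2 x) s - Tc (c0 x) (c1 x) s - Tc (c2 x) (c3 x) s) • u d.1.1‖ ≤
            F1 x := by
        refine le_trans (norm_add_le _ _) ?_
        rw [norm_pe hu1 hb1 hb, norm_smul, hu1, mul_one, Real.norm_eq_abs, F1, hx7]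
      have h7 : F1 x ≤ δ := le_trans (le_abs_self _) d1.le
      calc s * _ ≤ s * δ := by
            apply mul_le_mul_of_nonneg_left (le_trans h6 h7) hs0.le
        _ ≤ δ * lHex f := by nlinarith
  · have hlow : ∀ d ∈ (Finset.univ : Finset (Dart u)).filter (fun d => d.1.1 = i),
        (1 - δ) * (4 * Real.pi / (3 * f)) / 6 ≤ dd hc hs d / 6 := by
      intro d hd
      have hd' : d.1.1 = i := (Finset.mem_filter.1 hd).2
      obtain ⟨b, hb1, hb, q0, q1, q2, q3⟩ := coords hc hs d hs0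
      have e1 := (dl_eq hc hs d hb1 hb hs0 q0 q1).2
      have d3 := H3 (lt_of_lt_of_le (hx d hd') hk3)
      rw [Real.dist_eq, F3_x0] at d3
      have h5 := (abs_lt.1 d3).1
      rw [e1]
      have h6 : dc (c0 (xv hc hs s d)) (c1 (xv hc hs s d)) = F3 (xv hc hs s d) := rfl
      rw [h6]
      have h7 : s ^ 2 = 8 * Real.pi / (3 * Real.sqrt 3 * f) := by
        rw [hsd, sHex, Real.sq_sqrt (by positivity)]
      have h8 : 4 * Real.pi / (3 * f) = s ^ 2 * h3 := by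
        rw [h7, h3]
        field_simp
        ring
      rw [h8]
      have h9 : (1 : ℝ) / 2 ≤ h3 := by
        have := h3_sq
        have := h3_pos
        nlinarith
      have h10 : (1 - δ) * h3 ≤ F3 (xv hc hs s d) := by nlinarith
      have h11 : 0 < s ^ 2 := by positivity
      have h12 : (1 - δ) * (s ^ 2 * h3) ≤ s ^ 2 * F3 (xv hc hs s d) := by nlinarith
      linarith
    have hcard : ((Finset.univ : Finset (Dart u)).filter (fun d => d.1.1 = i)).card = 6 := by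
      have h1 := card_darts_tail u i
      rw [hdeg] at h1
      rw [← h1, ← Set.ncard_coe_finset]
      congr 1
      ext d
      simp
    have h2 := Finset.sum_le_sum hlow
    rw [Finset.sum_const, hcard] at h2
    have h3 : (6 : ℕ) • ((1 - δ) * (4 * Real.pi / (3 * f)) / 6) =
        (1 - δ) * (4 * Real.pi / (3 * f)) := by
      rw [nsmul_eq_mul]; push_cast; ring
    rw [h3] at h2
    exact h2

end Gold
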