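import Pool.Agent.Lib.H81.Gold.Cut
import Pool.Agent.Lib.H81.Gold.LocalGeo
import Pool.Agent.Lib.H81.Gold.Cap
import Pool.Agent.Lib.H81.Gold.Lines
import Pool.Agent.Lib.H81.Gold.Flat

/-!
# Assembly of the core theorem (chunk N)
-/

noncomputable section

open MeasureTheory Metric Set
open scoped RealInnerProductSpace Pointwise

namespace Gold

variable {f : ℕ} {u : Fin f → E3}

theorem cmap_A (hc : IsConfig u) (hs : IsSimple u) : (cmap hc hs).A = Adj u := by
  funext i j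
  apply propext
  constructor
  · rintro ⟨d, rfl, rfl⟩
    exact d.2
  · intro h
    exact ⟨⟨(i, j), h⟩, rfl, rfl⟩

theorem reach_dist (hc : IsConfig u) {r : ℝ} (hr : 0 ≤ r)
    (hR : ∀ x ∈ Poly u, ‖x‖ ^ 2 ≤ 1 + r ^ 2) (i₀ : Fin f) (n : ℕ) :
    ∀ i ∈ reach (Adj u) i₀ n, ‖u i - u i₀‖ ≤ n * (2 * r) := by
  induction n with
  | zero =>
    intro i hi
    have : i = i₀ := hi
    simp [this]
  | succ n ih =>
    intro i hi
    rcases hi with hi | ⟨j, hj, hji⟩
    · have := ih i hi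
      push_cast
      nlinarith
    · have h1 := ih j hj
      have h2 := norm_dl_le hc hr hR (⟨(j, i), hji⟩ : Dart u)
      have h3 : u i - u i₀ = (u j - u i₀) + dl u (⟨(j, i), hji⟩ : Dart u) := by
        simp [dl]
      rw [h3]
      refine (norm_add_le _ _).trans ?_
      push_cast
      linarith

/-- The number of pentagons is twelve. -/
theorem card_pentagons (hm : IsMedial u) :
    (Finset.univ.filter (fun i => deg u i = 5)).card = 12 := by
  have h := euler hm.toIsConfig hm.simple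
  have h1 : ∀ i, deg u i + (if deg u i = 5 then 1 else 0) = 6 := by
    intro i
    rcases hm.degs i with h5 | h6
    · simp [h5]
    · simp [h6]
  have h2 : ∑ i, (deg u i + (if deg u i = 5 then 1 else 0)) = 6 * f := by
    simp [h1, mul_comm]
  rw [Finset.sum_add_distrib] at h2
  rw [Finset.card_filter]
  omega

/-- Candidate centres. -/
def cand (k : ℕ) : E3 :=
  !₂[((k : ℝ) - 6) / 7, Real.sqrt (1 - (((k : ℝ) - 6) / 7) ^ 2), 0]

theorem norm_cand {k : ℕ} (hk : k ≤ 12) : ‖cand k‖ = 1 := by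
  have h1 : ‖cand k‖ ^ 2 = 1 := by
    rw [normsq3]
    have h2 : (0 : ℝ) ≤ 1 - (((k : ℝ) - 6) / 7) ^ 2 := by
      have h3 : (k : ℝ) ≤ 12 := by exact_mod_cast hk
      have h4 : (0 : ℝ) ≤ k := Nat.cast_nonneg k
      nlinarith
    simp only [cand, PiLp.toLp_apply, Matrix.cons_val_zero, Matrix.cons_val_one,
      Matrix.cons_val]
    rw [Real.sq_sqrt h2]
    ring
  have h5 : (0 : ℝ) ≤ ‖cand k‖ := norm_nonneg _
  nlinarith

theorem cand_sep {k l : ℕ} {x : E3} (hk : ‖x - cand k‖ < 1 / 14) (hl : ‖x - cand l‖ < 1 / 14) :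
    k = l := by
  have h1 : |(cand k - cand l) 0| ≤ ‖cand k - cand l‖ := by
    have := PiLp.norm_apply_le (cand k - cand l) 0
    simpa using this
  have h2 : ‖cand k - cand l‖ < 1 / 7 := by
    have h3 : cand k - cand l = (x - cand l) - (x - cand k) := by abel
    rw [h3]
    refine (norm_sub_le _ _).trans_lt ?_
    linarith
  have h3 : (cand k - cand l) 0 = ((k : ℝ) - l) / 7 := by
    simp [cand]; ring
  rw [h3] at h1
  have h4 : |((k : ℝ) - l)| < 1 := by
    rw [abs_div] at h1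
    have : |(7 : ℝ)| = 7 := by norm_num
    rw [this] at h1
    have h5 := h1.trans_lt h2
    rw [div_lt_div_iff_of_pos_right (by norm_num)] at h5
    exact h5
  have h5 : |((k : ℤ) - l)| < 1 := by exact_mod_cast h4
  have h6 : (k : ℤ) - l = 0 := Int.abs_lt_one_iff.mp h5
  omega

theorem exists_center (hm : IsMedial u) :
    ∃ c : E3, ‖c‖ = 1 ∧ ∀ i, ‖u i - c‖ < 1 / 14 → deg u i = 6 := by
  by_contra hcon
  push Not at hcon
  have h1 : ∀ k : Fin 13, ∃ i, ‖u i - cand k‖ < 1 / 14 ∧ deg u i = 5 := by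
    intro k
    obtain ⟨i, hi, hi6⟩ := hcon (cand k) (norm_cand (by omega))
    exact ⟨i, hi, (hm.degs i).resolve_right hi6⟩
  choose g hg hg5 using h1
  have hinj : Function.Injective g := by
    intro k l hkl
    have := cand_sep (hg k) (by rw [hkl]; exact hg l)
    exact Fin.ext this
  have h2 : (Finset.univ.image g).card = 13 := by
    rw [Finset.card_image_of_injective _ hinj]; simp
  have h3 : Finset.univ.image g ⊆ Finset.univ.filter (fun i => deg u i = 5) := by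
    intro i hi
    rw [Finset.mem_image] at hi
    obtain ⟨k, _, rfl⟩ := hi
    simp [hg5]
  have h4 := Finset.card_le_card h3
  rw [h2, card_pentagons hm] at h4
  omega

theorem angle_le_of_norm_sub_le {x y : E3} (hx : ‖x‖ = 1) (hy : ‖y‖ = 1) {s : ℝ} (hs : 0 ≤ s)
    (hs1 : s ≤ 1 / 14) (h : ‖x - y‖ ≤ 4 * s) : InnerProductGeometry.angle y x ≤ 7 * s := by
  have h1 : ⟪y, x⟫ = 1 - ‖x - y‖ ^ 2 / 2 := by
    have := norm_sub_sq_real x y
    rw [hx, hy, real_inner_comm] at this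
    linarith
  have h2 : ‖x - y‖ ^ 2 ≤ (4 * s) ^ 2 := by
    have := norm_nonneg (x - y)
    nlinarith
  have h3 : Real.cos (7 * s) ≤ ⟪y, x⟫ := by
    have h4 := Real.cos_bound (x := 7 * s) (by rw [abs_of_nonneg (by positivity)]; linarith)
    have h5 := (abs_le.mp h4).2
    have h6 : |7 * s| = 7 * s := abs_of_nonneg (by positivity)
    rw [h6] at h5
    have h7 : (7 * s) ^ 4 * (5 / 96) ≤ (7 * s) ^ 2 * (5 / 96) := by
      have h8 : (7 * s) ^ 2 ≤ 1 := by nlinarith
      have h9 : (0 : ℝ) ≤ (7 * s) ^ 2 := by positivity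
      nlinarith
    rw [h1]
    nlinarith
  have h4 : InnerProductGeometry.angle y x = Real.arccos ⟪y, x⟫ := by
    rw [InnerProductGeometry.angle, hx, hy]; simp
  rw [h4]
  have h5 : Real.arccos (Real.cos (7 * s)) = 7 * s := by
    apply Real.arccos_cos (by positivity)
    have := Real.pi_gt_three
    linarith
  rw [← h5]
  exact Real.arccos_le_arccos h3

/-- Everything except the choice of `f`. -/
theorem flat_contradiction {C : ℝ} (hC : 1 ≤ C) :
    ∃ ε : ℝ, 0 < ε ∧ ∃ F₂ : ℕ, ∀ f : ℕ, F₂ ≤ f → ∀ u : Fin f → E3, IsMedial u →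
      (∀ x ∈ Poly u, ‖x‖ ^ 2 ≤ 1 + C ^ 2 / f) →
      vol (Poly u) ≤ 4 * Real.pi / 3 + (cHex + ε) / f → False := by
  have hC0 : 0 < C := by linarith
  obtain ⟨s, hs⟩ : ∃ s : ℝ, s = 1 / (1000000 * C ^ 2) := ⟨_, rfl⟩
  have hCs : C ^ 2 * s = 1 / 1000000 := by rw [hs]; field_simp
  have hs0 : 0 < s := by rw [hs]; positivity
  have hC2 : 1 ≤ C ^ 2 := by nlinarith
  have hs1 : s ≤ 1 / 1000000 := by nlinarith
  obtain ⟨κ, hκ⟩ : ∃ κ : ℝ, κ = s / (900000 * C ^ 3) := ⟨_, rfl⟩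
  have hκ0 : 0 < κ := by rw [hκ]; positivity
  obtain ⟨δM, hδM, FM, hM⟩ := no_flat_patch (C := 2 * C) (κ := κ) (by positivity) hκ0
  obtain ⟨δP, hδP, FP, hP⟩ := cap_count (C := C) (δ := min δM (s ^ 2 / 4)) hC0
    (lt_min hδM (by positivity))
  obtain ⟨δJ, hδJ, FJ, hJ⟩ := local_geo (δ := min δM δP) (lt_min hδM hδP)
  obtain ⟨ε, hε, FS, hS⟩ := stability (C := C) (δ := min δJ (min δP δM)) hC0
    (lt_min hδJ (lt_min hδP hδM))
  obtain ⟨FB, hFB⟩ := exists_nat_ge ((7200000 * C ^ 3 / s) ^ 2)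
  refine ⟨ε, hε, FM + FP + FJ + FS + FB + 1, ?_⟩
  intro f hf u hm hR hvol
  have hfpos : 0 < f := by omega
  have hf0 : (0 : ℝ) < f := by exact_mod_cast hfpos
  obtain ⟨q, hq⟩ : ∃ q : ℝ, q = Real.sqrt f := ⟨_, rfl⟩
  have hq0 : 0 < q := by rw [hq]; exact Real.sqrt_pos.mpr hf0
  have hqq : q ^ 2 = f := by rw [hq]; exact Real.sq_sqrt hf0.le
  have hqB : 7200000 * C ^ 3 / s ≤ q := by
    rw [hq]
    apply Real.le_sqrt_of_sq_le
    refine hFB.trans ?_
    exact_mod_cast (by omega : FB ≤ f)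
  have hqs : 7200000 * C ^ 3 ≤ s * q := by
    rw [div_le_iff₀ hs0] at hqB; linarith
  have hC3 : 1 ≤ C ^ 3 := by nlinarith
  have hsq : 7200000 ≤ s * q := by nlinarith
  obtain ⟨r, hr⟩ : ∃ r : ℝ, r = C / q := ⟨_, rfl⟩
  have hr0 : 0 < r := by rw [hr]; positivity
  have hrq : r * q = C := by rw [hr]; field_simp
  have hR' : ∀ x ∈ Poly u, ‖x‖ ^ 2 ≤ 1 + r ^ 2 := by
    intro x hx
    have := hR x hx
    rw [hr, div_pow, hqq]
    exact this
  have hrs : r ≤ s := by
    have h1 : C ≤ C ^ 3 := by nlinarith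
    have h2 : C ≤ s * q := by nlinarith
    rw [hr, div_le_iff₀ hq0]
    exact h2
  set hc := hm.toIsConfig with hhc
  set hsim := hm.simple with hhsim
  obtain ⟨bad, hbad, hnear⟩ := hS f (by omega) u hm hR hvol
  -- local geometry at the good faces
  have hgood : ∀ i, i ∉ bad → NearHex hc hsim δJ i := by
    intro i hi
    have h1 := hnear i hi
    refine ⟨h1.1, fun d hd => ?_⟩
    have h2 := h1.2 d hd
    have h3 : min δJ (min δP δM) ≤ δJ := min_le_left _ _
    have h4 : 0 ≤ sHex f := Real.sqrt_nonneg _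
    exact ⟨h2.1.trans (by nlinarith), h2.2.trans h3⟩
  have hbadP : (bad.card : ℝ) ≤ δP * f :=
    hbad.trans (by
      have : min δJ (min δP δM) ≤ δP := (min_le_right _ _).trans (min_le_left _ _)
      nlinarith)
  have hbadM : (bad.card : ℝ) ≤ δM * f :=
    hbad.trans (by
      have : min δJ (min δP δM) ≤ δM := (min_le_right _ _).trans (min_le_right _ _)
      nlinarith)
  have hsum : ∀ i, i ∉ bad → (1 - δP) * (4 * Real.pi / (3 * f)) ≤
      ∑ d ∈ (Finset.univ : Finset (Dart u)).filter (fun d => d.1.1 = i), dd hc hsim d / 6 := by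
    intro i hi
    have h1 := (hJ f (by omega) u hc hsim i (hgood i hi)).2
    refine le_trans ?_ h1
    have h2 : min δM δP ≤ δP := min_le_right _ _
    have h3 : 0 ≤ 4 * Real.pi / (3 * f) := by positivity
    nlinarith
  have hcap := hP f (by omega) u hc hsim hR bad hbadP hsum
  -- the centre
  obtain ⟨c, hc1, hcpent⟩ := exists_center hm
  have hA : (({i | ‖u i - c‖ ≤ 4 * s}.ncard : ℕ) : ℝ) ≤ 13 * s ^ 2 * f := by
    have h1 : {i | ‖u i - c‖ ≤ 4 * s} ⊆ {i | InnerProductGeometry.angle c (u i) ≤ 7 * s} := by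
      intro i hi
      exact angle_le_of_norm_sub_le (hc.unit i) hc1 hs0.le (by linarith) hi
    have h2 := Set.ncard_le_ncard h1 (Set.toFinite _)
    have h3 := hcap c (7 * s) hc1 (by positivity) (by linarith)
    have h4 : (({i | ‖u i - c‖ ≤ 4 * s}.ncard : ℕ) : ℝ) ≤
        ({i | InnerProductGeometry.angle c (u i) ≤ 7 * s}.ncard : ℝ) := by exact_mod_cast h2
    have h5 := Real.one_sub_sq_div_two_le_cos (x := 7 * s)
    have h6 : min δM (s ^ 2 / 4) ≤ s ^ 2 / 4 := min_le_right _ _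
    have h7 : min δM (s ^ 2 / 4) * f ≤ s ^ 2 / 4 * f := by nlinarith
    have h8 : (f : ℝ) * (1 - Real.cos (7 * s)) / 2 ≤ f * ((7 * s) ^ 2 / 2) / 2 := by
      have : 1 - Real.cos (7 * s) ≤ (7 * s) ^ 2 / 2 := by linarith
      nlinarith
    nlinarith
  -- graph ball radius
  obtain ⟨n, hn⟩ : ∃ n : ℕ, n = ⌈520 * C * s * q⌉₊ := ⟨_, rfl⟩
  have hn1 : 520 * C * s * q ≤ n := by rw [hn]; exact Nat.le_ceil _
  have hCsq : 1 ≤ C * s * q := by nlinarith
  have hn2 : (n : ℝ) ≤ 521 * C * s * q := by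
    have : (n : ℝ) < 520 * C * s * q + 1 := by
      rw [hn]; exact Nat.ceil_lt_add_one (by positivity)
    nlinarith
  obtain ⟨i₀, hi₀, hball⟩ := lines_count hc hsim hr0 hrs (by linarith) hR' hc1
    (A := {i | ‖u i - c‖ ≤ 4 * s}.ncard) le_rfl (n := n) (by
      have h1 : 40 * r * (({i | ‖u i - c‖ ≤ 4 * s}.ncard : ℕ) : ℝ) ≤
          40 * r * (13 * s ^ 2 * f) := by
        apply mul_le_mul_of_nonneg_left hA (by positivity)
      have h2 : 40 * r * (13 * s ^ 2 * f) = 520 * C * s * q * s := by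
        rw [← hqq, ← hrq]; ring
      rw [h2] at h1
      refine h1.trans ?_
      exact mul_le_mul_of_nonneg_right hn1 hs0.le)
  -- the hexagonal region
  have hhexdist : ∀ i ∈ reach (Adj u) i₀ (40 * n), deg u i = 6 := by
    intro i hi
    apply hcpent
    have h1 := reach_dist hc hr0.le hR' i₀ (40 * n) i hi
    have h2 : ‖u i - c‖ ≤ ‖u i - u i₀‖ + ‖u i₀ - c‖ := by
      have : u i - c = (u i - u i₀) + (u i₀ - c) := by abel
      rw [this]; exact norm_add_le _ _
    have h3 : ((40 * n : ℕ) : ℝ) * (2 * r) ≤ 41680 * (C ^ 2 * s) := by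
      push_cast
      have h4 : (n : ℝ) * r ≤ 521 * C * s * q * r := mul_le_mul_of_nonneg_right hn2 hr0.le
      have h5 : 521 * C * s * q * r = 521 * (C ^ 2 * s) := by
        rw [show C ^ 2 = C * (r * q) by rw [hrq]; ring]; ring
      rw [h5] at h4
      nlinarith
    rw [hCs] at h3
    have h4 : (4 : ℝ) * s ≤ 4 / 1000000 := by linarith
    have h5 : ‖u i - c‖ ≤ 41680 * (1 / 1000000) + 4 / 1000000 := by linarith
    refine h5.trans_lt ?_
    norm_num
  set Mp := cmap hc hsim with hMp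
  have hAeq : Mp.A = Adj u := cmap_A hc hsim
  obtain ⟨d₀, hd₀⟩ : ∃ d₀ : Dart u, d₀.1.1 = i₀ := by
    have h1 : deg u i₀ = 6 := by
      apply hhexdist
      have : ∀ k, i₀ ∈ reach (Adj u) i₀ k := by
        intro k
        induction k with
        | zero => exact rfl
        | succ k ih => exact Or.inl ih
      exact this _
    have h2 : {j | Adj u i₀ j}.Nonempty := by
      apply Set.nonempty_of_ncard_ne_zero
      rw [show {j | Adj u i₀ j}.ncard = deg u i₀ from rfl, h1]; norm_num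
    obtain ⟨j, hj⟩ := h2
    exact ⟨⟨(i₀, j), hj⟩, rfl⟩
  have htail : Mp.tail d₀ = i₀ := hd₀
  have hHex : ∀ i ∈ reach Mp.A (Mp.tail d₀) (40 * n), Mp.Hex i := by
    intro i hi
    rw [hAeq, htail] at hi
    exact hex_of_deg hc hsim (hhexdist i hi)
  -- the box
  obtain ⟨m, hmdef⟩ : ∃ m : ℕ, m = ⌊s * q / (800000 * C ^ 3)⌋₊ := ⟨_, rfl⟩
  have hm1 : (m : ℝ) ≤ s * q / (800000 * C ^ 3) := by
    rw [hmdef]; exact Nat.floor_le (by positivity)
  have hm2 : κ * q ≤ m := by
    have h1 : s * q / (800000 * C ^ 3) < m + 1 := by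
      rw [hmdef]; exact Nat.lt_floor_add_one _
    have h2 : κ * q + 1 ≤ s * q / (800000 * C ^ 3) := by
      rw [hκ, le_div_iff₀ (by positivity)]
      have h3 : s / (900000 * C ^ 3) * q * (800000 * C ^ 3) = s * q * (8 / 9) := by
        field_simp; ring
      rw [add_mul, h3]
      nlinarith
    linarith
  have hm3 : 1 ≤ m := by
    have h1 : (0 : ℝ) < m := lt_of_lt_of_le (by positivity) hm2
    exact_mod_cast h1
  have hsqC : s * q / (800000 * C ^ 3) ≤ s * q := by
    apply div_le_self (by positivity)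
    nlinarith
  have hm4 : m ≤ n := by
    have h1 : (m : ℝ) ≤ n := by
      refine hm1.trans (hsqC.trans ?_)
      refine le_trans ?_ hn1
      nlinarith
    exact_mod_cast h1
  have hcard : 60 * m * n < (reach Mp.A (Mp.tail d₀) n).ncard := by
    rw [hAeq, htail]
    have h1 : (60 : ℝ) * m * n < ((reach (Adj u) i₀ n).ncard : ℝ) := by
      refine lt_of_lt_of_le ?_ hball
      have h2 : s ^ 2 / (25 * r ^ 2) = s ^ 2 * q ^ 2 / (25 * C ^ 2) := by
        rw [hr]; field_simp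
      rw [h2]
      have h3 : (m : ℝ) * n ≤ s * q / (800000 * C ^ 3) * (521 * C * s * q) := by
        apply mul_le_mul hm1 hn2 (by positivity) (by positivity)
      have h4 : s * q / (800000 * C ^ 3) * (521 * C * s * q) =
          521 / 800000 * (s ^ 2 * q ^ 2 / C ^ 2) := by
        field_simp
      have h5 : 0 < s ^ 2 * q ^ 2 / C ^ 2 := by positivity
      have h6 : s ^ 2 * q ^ 2 / (25 * C ^ 2) = 1 / 25 * (s ^ 2 * q ^ 2 / C ^ 2) := by
        field_simp
      rw [h6]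
      rw [h4] at h3
      nlinarith
    exact_mod_cast h1
  have hinj : ∀ p ∈ box m, ∀ p' ∈ box m, Mp.pt d₀ p = Mp.pt d₀ p' → p = p' := by
    intro p hp p' hp' h
    exact Mp.inj_box hHex hm3 hm4 le_rfl hcard hp.1 hp.2 hp'.1 hp'.2 h
  -- apply the flat patch theorem
  have hnb : ∀ v ∈ box m, ∀ k < 6,
      Mp.tail (Mp.sig ((Mp.rho ^ k) (Mp.Psi d₀ v))) = Mp.pt d₀ (v + hdir k) := by
    intro v hv k hk
    have h1 : CMap.dir k = hdir k := by
      interval_cases k <;> rfl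
    rw [← h1]
    apply Mp.neighbours hHex ?_ hk
    have h2 := hv.1
    have h3 := hv.2
    have h4 : (m : ℤ) ≤ n := by exact_mod_cast hm4
    have h5 : (1 : ℤ) ≤ m := by exact_mod_cast hm3
    push_cast
    linarith
  have hbox0 : ∀ v ∈ box m, Mp.pt d₀ v ∈ reach Mp.A (Mp.tail d₀) (40 * n) := by
    intro v hv
    apply Mp.pt_mem_reach hHex ?_ le_rfl
    have h2 := hv.1
    have h3 := hv.2
    have h4 : (m : ℤ) ≤ n := by exact_mod_cast hm4
    have h5 : (1 : ℤ) ≤ m := by exact_mod_cast hm3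
    push_cast
    linarith
  have htailrho : ∀ (k : ℕ) (d : Mp.D), Mp.tail ((Mp.rho ^ k) d) = Mp.tail d := by
    intro k
    induction k with
    | zero => intro d; rfl
    | succ k ih =>
      intro d
      rw [pow_succ', Equiv.Perm.mul_apply, Mp.tail_rho, ih]
  have hstep : ∀ v ∈ box m, ∀ k < 6,
      dl u ((Mp.rho ^ k) (Mp.Psi d₀ v) : Dart u) =
        u (Mp.pt d₀ (v + hdir k)) - u (Mp.pt d₀ v) := by
    intro v hv k hk
    have h1 := hnb v hv k hk
    have h2 : Mp.tail ((Mp.rho ^ k) (Mp.Psi d₀ v)) = Mp.pt d₀ v := htailrho k _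
    rw [← h1, ← h2]
    rfl
  have hboxfin : (box m).Finite := by
    have : box m ⊆ (Set.Icc (-(m : ℤ)) m) ×ˢ (Set.Icc (-(m : ℤ)) m) := by
      intro v hv
      have h1 := abs_le.mp hv.1
      have h2 := abs_le.mp hv.2
      exact ⟨⟨h1.1, h1.2⟩, ⟨h2.1, h2.2⟩⟩
    exact ((Set.finite_Icc _ _).prod (Set.finite_Icc _ _)).subset this
  classical
  obtain ⟨badL, hbadL⟩ : ∃ badL : Finset (ℤ × ℤ),
      badL = hboxfin.toFinset.filter (fun v => Mp.pt d₀ v ∈ bad) := ⟨_, rfl⟩
  have hbadLcard : (badL.card : ℝ) ≤ δM * f := by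
    have h1 : badL.card ≤ bad.card := by
      apply Finset.card_le_card_of_injOn (fun v => Mp.pt d₀ v)
      · intro v hv
        rw [hbadL] at hv
        have := Finset.mem_coe.mp hv
        rw [Finset.mem_filter] at this
        exact this.2
      · intro v hv v' hv' h
        rw [hbadL] at hv hv'
        have h2 := Finset.mem_coe.mp hv
        have h3 := Finset.mem_coe.mp hv'
        rw [Finset.mem_filter, Set.Finite.mem_toFinset] at h2 h3
        exact hinj v h2.1 v' h3.1 h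
    have h2 : (badL.card : ℝ) ≤ bad.card := by exact_mod_cast h1
    exact h2.trans hbadM
  refine hM f (by omega) (fun v => u (Mp.pt d₀ v)) m ?_ ?_ ?_ badL hbadLcard ?_ ?_
  · rw [← hq]; exact hm2
  · intro v; exact hc.unit _
  · intro v hv k hk
    rw [← hstep v hv k hk, ← hq]
    refine (norm_dl_le hc hr0.le hR' _).trans ?_
    rw [hr]
    apply le_of_eq
    ring
  · intro v hv hvb
    have h1 : Mp.pt d₀ v ∉ bad := by
      intro h
      apply hvb
      rw [hbadL, Finset.mem_filter, Set.Finite.mem_toFinset]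
      exact ⟨hv, h⟩
    have h2 := (hJ f (by omega) u hc hsim _ (hgood _ h1)).1
    have hHexv : Mp.Hex (Mp.pt d₀ v) := hHex _ (hbox0 v hv)
    have h6 : (Mp.rho ^ 6) (Mp.Psi d₀ v) = Mp.Psi d₀ v := (hHexv _ rfl).1
    intro k hk
    have h3 := h2 ((Mp.rho ^ k) (Mp.Psi d₀ v)) (htailrho k _)
    have h4 : rhoE hc hsim ((Mp.rho ^ k) (Mp.Psi d₀ v)) =
        (Mp.rho ^ ((k + 1) % 6)) (Mp.Psi d₀ v) := by
      have h5 : rhoE hc hsim ((Mp.rho ^ k) (Mp.Psi d₀ v)) =
        (Mp.rho ^ (k + 1)) (Mp.Psi d₀ v) := by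
        rw [pow_succ', Equiv.Perm.mul_apply]; rfl
      rw [h5]
      interval_cases k <;> try rfl
      exact h6
    have h5 : rhoE hc hsim (rhoE hc hsim ((Mp.rho ^ k) (Mp.Psi d₀ v))) =
        (Mp.rho ^ ((k + 2) % 6)) (Mp.Psi d₀ v) := by
      have h7 : rhoE hc hsim (rhoE hc hsim ((Mp.rho ^ k) (Mp.Psi d₀ v))) =
        (Mp.rho ^ (k + 2)) (Mp.Psi d₀ v) := by
        rw [show k + 2 = (k + 1) + 1 by ring, pow_succ', Equiv.Perm.mul_apply, pow_succ',
          Equiv.Perm.mul_apply]; rfl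
      rw [h7]
      interval_cases k <;> try rfl
      · exact h6
      · show (Mp.rho ^ (6 + 1)) (Mp.Psi d₀ v) = _
        rw [pow_succ', Equiv.Perm.mul_apply, h6]
        rfl
    have hk1 : (k + 1) % 6 < 6 := Nat.mod_lt _ (by norm_num)
    have hk2 : (k + 2) % 6 < 6 := Nat.mod_lt _ (by norm_num)
    rw [h5, h4] at h3
    rw [hstep v hv k hk, hstep v hv _ hk1, hstep v hv _ hk2] at h3
    have h7 : min δM δP ≤ δM := min_le_left _ _
    have h8 : 0 ≤ lHex f := Real.sqrt_nonneg _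
    refine ⟨h3.1.trans ?_, h3.2.trans ?_⟩
    · exact mul_le_mul_of_nonneg_right h7 (by positivity)
    · exact mul_le_mul_of_nonneg_right h7 h8
  · intro c' θ hc' hθ0 hθ1
    have h1 := hcap c' θ hc' hθ0 hθ1
    have h2 : {v ∈ box m | InnerProductGeometry.angle c' (u (Mp.pt d₀ v)) ≤ θ}.ncard ≤
        {i : Fin f | InnerProductGeometry.angle c' (u i) ≤ θ}.ncard := by
      apply Set.ncard_le_ncard_of_injOn (fun v => Mp.pt d₀ v)
      · intro v hv; exact hv.2
      · intro v hv v' hv' h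
        exact hinj v hv.1 v' hv'.1 h
    have h3 : ({v ∈ box m | InnerProductGeometry.angle c' (u (Mp.pt d₀ v)) ≤ θ}.ncard : ℝ) ≤
        ({i : Fin f | InnerProductGeometry.angle c' (u i) ≤ θ}.ncard : ℝ) := by exact_mod_cast h2
    refine h3.trans (h1.trans ?_)
    have h4 : min δM (s ^ 2 / 4) ≤ δM := min_le_left _ _
    have h5 : min δM (s ^ 2 / 4) * f ≤ δM * f := mul_le_mul_of_nonneg_right h4 hf0.le
    linarith

/-- Among any `F, ..., 2 F` with `F` large there is an `f` such that no medial configuration with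
`f` faces is minimal. -/
theorem core : ∃ F₁ : ℕ, ∀ F : ℕ, F₁ ≤ F → ∃ f, F ≤ f ∧ f ≤ 2 * F ∧
    ∀ u : Fin f → E3, IsMedial u → ¬ IsMin u := by
  obtain ⟨C₁, hC₁, F₁, hround⟩ := exists_round
  obtain ⟨ε, hε, F₂, hflat⟩ := flat_contradiction (C := max C₁ 1) (le_max_right _ _)
  obtain ⟨F₃, hub⟩ := upper_bound hε
  refine ⟨F₁ + F₂ + F₃, fun F hF => ?_⟩
  by_contra hcon
  push Not at hcon
  have hcon' : ∀ f : ℕ, ∃ u : Fin f → E3, F ≤ f → f ≤ 2 * F → IsMedial u ∧ IsMin u := by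
    intro f
    by_cases hf : F ≤ f ∧ f ≤ 2 * F
    · obtain ⟨u, hu⟩ := hcon f hf.1 hf.2
      exact ⟨u, fun _ _ => hu⟩
    · exact ⟨fun _ => 0, fun h h' => absurd ⟨h, h'⟩ hf⟩
  choose U hU using hcon'
  obtain ⟨f, hf1, hf2, hRf⟩ := hround F (by omega) U (fun f h1 h2 =>
    ⟨(hU f h1 h2).1.toIsConfig, (hU f h1 h2).2⟩)
  obtain ⟨w, hw, hwv⟩ := hub f (by omega)
  have h1 := hU f (by omega) (by omega)
  refine hflat f (by omega) (U f) h1.1 ?_ ((h1.2 w hw).trans hwv)
  intro x hx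
  refine (hRf x hx).trans ?_
  have h2 : C₁ ^ 2 ≤ (max C₁ 1) ^ 2 := by
    have := le_max_left C₁ 1
    nlinarith
  have h3 : C₁ ^ 2 / f ≤ (max C₁ 1) ^ 2 / f := div_le_div_of_nonneg_right h2 (Nat.cast_nonneg _)
  linarith

end Gold
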