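import Mathlib
import Pool.Agent.Lib.H31.BrunnMinkowski

/-!
# The equality case of the Brunn-Minkowski inequality in `E3` (chunk A)

Slices orthogonal to a unit vector `e` are described through a linear isometry from the plane
onto the orthogonal complement of `e`.  The volume quantile functions of the two bodies in the
direction `e` have the same derivative (equality in the mean inequalities for matched slabs), so
the projections of the two bodies are translates of each other; the centroids give a common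
translation vector.
-/

noncomputable section

open MeasureTheory Metric Set
open scoped RealInnerProductSpace Pointwise Topology

namespace Gold
namespace BM

/-- The Euclidean plane. -/
abbrev P2 := EuclideanSpace ℝ (Fin 2)
/-- Euclidean three-space. -/
abbrev P3 := EuclideanSpace ℝ (Fin 3)

theorem exists_frame {e : P3} (he : ‖e‖ = 1) : ∃ L : P2 →ₗᵢ[ℝ] P3, (∀ p, ⟪e, L p⟫ = 0) ∧
    ∀ x : P3, ⟪e, x⟫ = 0 → ∃ p, L p = x := by
  have h0 : e ≠ 0 := by
    rintro rfl
    simp at he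
  have : Fact (Module.finrank ℝ P3 = 2 + 1) := ⟨by simp⟩
  let b : OrthonormalBasis (Fin 2) ℝ (ℝ ∙ e)ᗮ := OrthonormalBasis.fromOrthogonalSpanSingleton 2 h0
  refine ⟨(ℝ ∙ e)ᗮ.subtypeₗᵢ.comp b.repr.symm.toLinearIsometry, fun p => ?_, fun x hx => ?_⟩
  · have h1 : ((b.repr.symm p : (ℝ ∙ e)ᗮ) : P3) ∈ (ℝ ∙ e)ᗮ := (b.repr.symm p).2
    exact Submodule.mem_orthogonal_singleton_iff_inner_right.mp h1
  · have h1 : x ∈ (ℝ ∙ e)ᗮ := Submodule.mem_orthogonal_singleton_iff_inner_right.mpr hx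
    refine ⟨b.repr ⟨x, h1⟩, ?_⟩
    simp

/-- Frames adapted to a unit vector. -/
structure Frame (e : P3) (L : P2 →ₗᵢ[ℝ] P3) : Prop where
  unit : ‖e‖ = 1
  orth : ∀ p, ⟪e, L p⟫ = 0
  surj : ∀ x : P3, ⟪e, x⟫ = 0 → ∃ p, L p = x

/-- The slice at height `z`. -/
def sl (e : P3) (L : P2 →ₗᵢ[ℝ] P3) (T : Set P3) (z : ℝ) : Set P2 := {p | z • e + L p ∈ T}

variable {e : P3} {L : P2 →ₗᵢ[ℝ] P3}

theorem Frame.inner_eq (hL : Frame e L) (z : ℝ) (p : P2) : ⟪e, z • e + L p⟫ = z := by
  rw [inner_add_right, inner_smul_right, real_inner_self_eq_norm_sq, hL.unit, hL.orth]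
  simp

theorem Frame.exists_eq (hL : Frame e L) (x : P3) : ∃ p, ⟪e, x⟫ • e + L p = x := by
  obtain ⟨p, hp⟩ := hL.surj (x - ⟪e, x⟫ • e) (by
    rw [inner_sub_right, inner_smul_right, real_inner_self_eq_norm_sq, hL.unit]; simp)
  exact ⟨p, by rw [hp]; abel⟩

theorem Frame.norm_le (hL : Frame e L) (z : ℝ) (p : P2) : ‖p‖ ≤ ‖z • e + L p‖ := by
  have h1 : ‖z • e + L p‖ ^ 2 = z ^ 2 + ‖p‖ ^ 2 := by
    rw [norm_add_sq_real, norm_smul, hL.unit, real_inner_smul_left, hL.orth, L.norm_map]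
    simp
  refine abs_le_of_sq_le_sq' ?_ (norm_nonneg _) |>.2
  rw [h1]
  nlinarith [sq_nonneg z]

theorem Frame.vol_sl (hL : Frame e L) {T : Set P3} (hT : MeasurableSet T) :
    volume T = ∫⁻ z : ℝ, volume (sl e L T z) := by
  have h0 : e ≠ 0 := by
    rintro rfl
    simpa using hL.unit
  have h := EuclideanGeometry.euclideanHausdorffMeasure_eq_lintegral (0 : P3) h0 hT
  rw [InnerProductSpace.euclideanHausdorffMeasure_eq_volume] at h
  have h3 : Module.finrank ℝ P3 - 1 = 2 := by simp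
  rw [h3] at h
  have h1 : ‖e‖ₑ = 1 := by
    rw [enorm_eq_nnnorm]
    have : ‖e‖₊ = 1 := by ext; simpa using hL.unit
    simp [this]
  rw [h, h1, one_mul]
  refine lintegral_congr fun z => ?_
  have hiso : Isometry (fun p : P2 => z • e + L p) :=
    (IsometryEquiv.addLeft (z • e)).isometry.comp L.isometry
  rw [← EuclideanSpace.euclideanHausdorffMeasure_eq_volume, ← hiso.euclideanHausdorffMeasure_image]
  congr 1
  ext y
  rw [mem_inter_iff, SetLike.mem_coe, AffineSubspace.mem_mk',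
    Submodule.mem_orthogonal_singleton_iff_inner_right]
  simp only [vadd_eq_add, add_zero, vsub_eq_sub, inner_sub_right, inner_smul_right,
    real_inner_self_eq_norm_sq, hL.unit]
  constructor
  · rintro ⟨hy, hz⟩
    obtain ⟨p, hp⟩ := hL.exists_eq y
    have hz' : ⟪e, y⟫ = z := by linarith
    rw [hz'] at hp
    exact ⟨p, by rw [sl, mem_ofPred_eq, hp]; exact hy, hp⟩
  · rintro ⟨p, hp, rfl⟩
    refine ⟨hp, ?_⟩
    rw [hL.inner_eq]
    ring

theorem isOpen_sl {T : Set P3} (hT : IsOpen T) (z : ℝ) : IsOpen (sl e L T z) :=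
  hT.preimage (by fun_prop)

theorem measurableSet_sl {T : Set P3} (hT : MeasurableSet T) (z : ℝ) :
    MeasurableSet (sl e L T z) := by
  have : Continuous fun p : P2 => z • e + L p := by fun_prop
  exact hT.preimage this.measurable

theorem Frame.sl_subset (hL : Frame e L) {T : Set P3} {R : ℝ} (hT : T ⊆ closedBall 0 R) (z : ℝ) :
    sl e L T z ⊆ closedBall 0 R := by
  intro p hp
  have := hT hp
  rw [mem_closedBall_zero_iff] at this ⊢
  exact (hL.norm_le z p).trans this

/-- Area of the slices. -/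
def fd (e : P3) (L : P2 →ₗᵢ[ℝ] P3) (T : Set P3) (z : ℝ) : ℝ := (volume (sl e L T z)).toReal

/-- Volume below the height `z`. -/
def Fd (e : P3) (T : Set P3) (z : ℝ) : ℝ := (volume (T ∩ {x | ⟪e, x⟫ < z})).toReal

theorem Frame.sl_ne_top (hL : Frame e L) {T : Set P3} (hT : Bornology.IsBounded T) (z : ℝ) :
    volume (sl e L T z) ≠ ⊤ := by
  obtain ⟨R, hR⟩ := hT.subset_closedBall 0
  exact ((measure_mono (hL.sl_subset hR z)).trans_lt measure_closedBall_lt_top).ne

/-- Brunn-Minkowski for slices. -/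
theorem Frame.bm2 (hL : Frame e L) {U W C : Set P3} (hU : IsOpen U) (hW : IsOpen W)
    (hC : MeasurableSet C) (hUb : Bornology.IsBounded U) (hWb : Bornology.IsBounded W)
    (hCb : Bornology.IsBounded C) {a b : ℝ} (ha : 0 < a) (hb : 0 < b)
    (h : ∀ x ∈ U, ∀ y ∈ W, a • x + b • y ∈ C) {z w : ℝ} (hz : (sl e L U z).Nonempty)
    (hw : (sl e L W w).Nonempty) :
    a * √(fd e L U z) + b * √(fd e L W w) ≤ √(fd e L C (a * z + b * w)) := by
  have hfa : volume (a • sl e L U z) = ENNReal.ofReal (a ^ 2) * volume (sl e L U z) := by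
    rw [Measure.addHaar_smul, finrank_euclideanSpace_fin, abs_of_pos (by positivity)]
  have hfb : volume (b • sl e L W w) = ENNReal.ofReal (b ^ 2) * volume (sl e L W w) := by
    rw [Measure.addHaar_smul, finrank_euclideanSpace_fin, abs_of_pos (by positivity)]
  have key := Pool.Agent.Lib.H31.brunn_minkowski_add (d := 2) (by norm_num)
    (A := a • sl e L U z) (B := b • sl e L W w) (C := sl e L C (a * z + b * w))
    ((isOpen_sl hU z).smul₀ ha.ne') ((isOpen_sl hW w).smul₀ hb.ne') (measurableSet_sl hC _)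
    hz.smul_set hw.smul_set
    (by rw [hfa]; exact ENNReal.mul_ne_top ENNReal.ofReal_ne_top (hL.sl_ne_top hUb z))
    (by rw [hfb]; exact ENNReal.mul_ne_top ENNReal.ofReal_ne_top (hL.sl_ne_top hWb w))
    (hL.sl_ne_top hCb _) (by
      rintro _ ⟨p, hp, rfl⟩ _ ⟨q, hq, rfl⟩
      have h1 := h _ hp _ hq
      change (a * z + b * w) • e + L (a • p + b • q) ∈ C
      have e1 : (a * z + b * w) • e + L (a • p + b • q) =
          a • (z • e + L p) + b • (w • e + L q) := by
        rw [map_add, map_smul, map_smul]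
        module
      rw [e1]
      exact h1)
  rw [hfa, hfb, ENNReal.toReal_mul, ENNReal.toReal_mul, ENNReal.toReal_ofReal (by positivity),
    ENNReal.toReal_ofReal (by positivity)] at key
  have e2 : (1 / ((2 : ℕ) : ℝ)) = 1 / 2 := by norm_num
  rw [e2, ← Real.sqrt_eq_rpow, ← Real.sqrt_eq_rpow, ← Real.sqrt_eq_rpow,
    Real.sqrt_mul (by positivity), Real.sqrt_mul (by positivity), Real.sqrt_sq ha.le,
    Real.sqrt_sq hb.le] at key
  exact key

/-- A distribution function with continuous positive density on an open interval. -/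
structure Cdf (I : Set ℝ) (f F : ℝ → ℝ) (V : ℝ) : Prop where
  opn : IsOpen I
  conv : Convex ℝ I
  cont : ContinuousOn f I
  pos : ∀ x ∈ I, 0 < f x
  der : ∀ x ∈ I, HasDerivAt F (f x) x
  mapsTo : ∀ x ∈ I, F x ∈ Ioo 0 V
  surj : ∀ τ ∈ Ioo 0 V, ∃ x ∈ I, F x = τ

theorem Cdf.strictMonoOn {I : Set ℝ} {f F : ℝ → ℝ} {V : ℝ} (h : Cdf I f F V) :
    StrictMonoOn F I := by
  refine strictMonoOn_of_deriv_pos h.conv (fun x hx => (h.der x hx).continuousAt.continuousWithinAt)
    fun x hx => ?_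
  have hx' := interior_subset hx
  rw [(h.der x hx').deriv]
  exact h.pos x hx'

theorem Cdf.exists_quantile {I : Set ℝ} {f F : ℝ → ℝ} {V : ℝ} (h : Cdf I f F V) :
    ∃ α : ℝ → ℝ, (∀ τ ∈ Ioo 0 V, α τ ∈ I) ∧ (∀ τ ∈ Ioo 0 V, F (α τ) = τ) ∧
      (∀ τ ∈ Ioo 0 V, HasDerivAt α (f (α τ))⁻¹ τ) ∧ (∀ x ∈ I, α (F x) = x) ∧
      StrictMonoOn α (Ioo 0 V) := by
  classical
  have hch : ∀ τ : ℝ, ∃ x : ℝ, τ ∈ Ioo 0 V → x ∈ I ∧ F x = τ := by
    intro τ
    by_cases hτ : τ ∈ Ioo 0 V
    · obtain ⟨x, hx⟩ := h.surj τ hτ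
      exact ⟨x, fun _ => hx⟩
    · exact ⟨0, fun h => absurd h hτ⟩
  choose α hα using hch
  have h1 : ∀ τ ∈ Ioo 0 V, α τ ∈ I := fun τ hτ => (hα τ hτ).1
  have h2 : ∀ τ ∈ Ioo 0 V, F (α τ) = τ := fun τ hτ => (hα τ hτ).2
  have h4 : ∀ x ∈ I, α (F x) = x := fun x hx =>
    h.strictMonoOn.injOn (h1 _ (h.mapsTo x hx)) hx (h2 _ (h.mapsTo x hx))
  have h5 : StrictMonoOn α (Ioo 0 V) := by
    intro τ hτ τ' hτ' hlt
    rw [← h.strictMonoOn.lt_iff_lt (h1 τ hτ) (h1 τ' hτ'), h2 τ hτ, h2 τ' hτ']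
    exact hlt
  refine ⟨α, h1, h2, fun τ hτ => ?_, h4, h5⟩
  have hnh : Ioo 0 V ∈ 𝓝 τ := Ioo_mem_nhds hτ.1 hτ.2
  have hca : ContinuousAt α τ := by
    refine h5.continuousAt_of_image_mem_nhds hnh ?_
    refine Filter.mem_of_superset (h.opn.mem_nhds (h1 τ hτ)) fun x hx => ?_
    exact ⟨F x, h.mapsTo x hx, h4 x hx⟩
  refine HasDerivAt.of_local_left_inverse hca (h.der _ (h1 τ hτ)) (h.pos _ (h1 τ hτ)).ne' ?_
  filter_upwards [hnh] with τ' hτ'
  exact h2 τ' hτ'

theorem amgm_eq {p q : ℝ} (hp : 0 < p) (hq : 0 < q)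
    (h : ((√p + √q) / 2) ^ 2 * ((p⁻¹ + q⁻¹) / 2) ≤ 1) : p = q := by
  have hu : 0 < √p := Real.sqrt_pos.mpr hp
  have hv : 0 < √q := Real.sqrt_pos.mpr hq
  have hpu : p = √p ^ 2 := (Real.sq_sqrt hp.le).symm
  have hqv : q = √q ^ 2 := (Real.sq_sqrt hq.le).symm
  set u := √p
  set v := √q
  rw [hpu, hqv] at h ⊢
  have h1 : ((u + v) / 2) ^ 2 * (((u ^ 2)⁻¹ + (v ^ 2)⁻¹) / 2) =
      (u + v) ^ 2 * (u ^ 2 + v ^ 2) / (8 * u ^ 2 * v ^ 2) := by
    field_simp
    ring
  rw [h1, div_le_one (by positivity)] at h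
  have h2 : 4 * (u * v) * (u - v) ^ 2 ≤ 0 := by
    nlinarith [mul_nonneg (sq_nonneg (u - v)) (by positivity : 0 ≤ u ^ 2 + v ^ 2)]
  have h3 : (u - v) ^ 2 ≤ 0 := by
    by_contra hc
    push Not at hc
    have : 0 < 4 * (u * v) * (u - v) ^ 2 := by positivity
    linarith
  have h4 : u - v = 0 := by
    have := le_antisymm h3 (sq_nonneg _)
    exact pow_eq_zero_iff (two_ne_zero) |>.mp this
  rw [sub_eq_zero.mp h4]

theorem matched_const {I J : Set ℝ} {f F g G H : ℝ → ℝ} {V : ℝ} (hF : Cdf I f F V)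
    (hG : Cdf J g G V)
    (hmatch : ∀ x ∈ I, ∀ y ∈ J, F x = G y → H ((x + y) / 2) = F x)
    (hH : ∀ x ∈ I, ∀ x' ∈ I, ∀ y ∈ J, ∀ y' ∈ J, x < x' → y < y' →
      ((√(min (f x) (f x')) + √(min (g y) (g y'))) / 2) ^ 2 * ((x' - x + (y' - y)) / 2) ≤
        H ((x' + y') / 2) - H ((x + y) / 2)) :
    ∃ t : ℝ, (∀ x ∈ I, x - t ∈ J ∧ G (x - t) = F x) ∧ (∀ y ∈ J, y + t ∈ I) := by
  obtain ⟨α, hα1, hα2, hα3, hα4, hα5⟩ := hF.exists_quantile
  obtain ⟨β, hβ1, hβ2, hβ3, hβ4, hβ5⟩ := hG.exists_quantile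
  have key : ∀ τ ∈ Ioo 0 V, f (α τ) = g (β τ) := by
    intro τ hτ
    have hp := hF.pos _ (hα1 τ hτ)
    have hq := hG.pos _ (hβ1 τ hτ)
    refine amgm_eq hp hq ?_
    have hcf : ContinuousAt (fun σ => f (α σ)) τ :=
      ContinuousAt.comp (g := f) (hF.cont.continuousAt (hF.opn.mem_nhds (hα1 τ hτ)))
        (hα3 τ hτ).continuousAt
    have hcg : ContinuousAt (fun σ => g (β σ)) τ :=
      ContinuousAt.comp (g := g) (hG.cont.continuousAt (hG.opn.mem_nhds (hβ1 τ hτ)))
        (hβ3 τ hτ).continuousAt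
    have hsa := (hasDerivAt_iff_tendsto_slope.mp (hα3 τ hτ)).mono_left
      (nhdsWithin_mono τ (fun x (hx : x ∈ Ioi τ) => ne_of_gt hx))
    have hsb := (hasDerivAt_iff_tendsto_slope.mp (hβ3 τ hτ)).mono_left
      (nhdsWithin_mono τ (fun x (hx : x ∈ Ioi τ) => ne_of_gt hx))
    have hlim : Filter.Tendsto (fun σ => ((√(min (f (α τ)) (f (α σ))) +
        √(min (g (β τ)) (g (β σ)))) / 2) ^ 2 * ((slope α τ σ + slope β τ σ) / 2)) (𝓝[>] τ)
        (𝓝 (((√(min (f (α τ)) (f (α τ))) + √(min (g (β τ)) (g (β τ)))) / 2) ^ 2 *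
          (((f (α τ))⁻¹ + (g (β τ))⁻¹) / 2))) := by
      refine Filter.Tendsto.mul ?_ ((hsa.add hsb).div_const 2)
      refine Filter.Tendsto.mono_left ?_ nhdsWithin_le_nhds
      have h1 : ContinuousAt (fun σ => ((√(min (f (α τ)) (f (α σ))) +
        √(min (g (β τ)) (g (β σ)))) / 2) ^ 2) τ :=
        (((continuousAt_const.min hcf).sqrt.add (continuousAt_const.min hcg).sqrt).div_const 2).pow 2
      exact h1
    rw [min_self, min_self] at hlim
    refine le_of_tendsto hlim ?_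
    have : Ioo τ V ∈ 𝓝[>] τ := Ioo_mem_nhdsGT hτ.2
    filter_upwards [this] with σ hσ
    have hσ' : σ ∈ Ioo 0 V := ⟨hτ.1.trans hσ.1, hσ.2⟩
    have h1 := hH _ (hα1 τ hτ) _ (hα1 σ hσ') _ (hβ1 τ hτ) _ (hβ1 σ hσ') (hα5 hτ hσ' hσ.1)
      (hβ5 hτ hσ' hσ.1)
    rw [hmatch _ (hα1 τ hτ) _ (hβ1 τ hτ) (by rw [hα2 τ hτ, hβ2 τ hτ]),
      hmatch _ (hα1 σ hσ') _ (hβ1 σ hσ') (by rw [hα2 σ hσ', hβ2 σ hσ']), hα2 τ hτ, hα2 σ hσ'] at h1
    have hd : 0 < σ - τ := sub_pos.mpr hσ.1
    rw [slope_def_field, slope_def_field]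
    calc _ = (((√(min (f (α τ)) (f (α σ))) + √(min (g (β τ)) (g (β σ)))) / 2) ^ 2 *
          ((α σ - α τ + (β σ - β τ)) / 2)) / (σ - τ) := by ring
      _ ≤ (σ - τ) / (σ - τ) := by gcongr
      _ = 1 := div_self hd.ne'
  -- the difference of the quantile functions is constant
  have hder : ∀ τ ∈ Ioo 0 V, HasDerivAt (fun σ => α σ - β σ) 0 τ := by
    intro τ hτ
    have h1 := (hα3 τ hτ).sub (hβ3 τ hτ)
    rwa [key τ hτ, sub_self] at h1
  obtain ⟨t, ht⟩ := isOpen_Ioo.exists_is_const_of_deriv_eq_zero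
    (isPreconnected_Ioo (a := 0) (b := V)) (f := fun σ => α σ - β σ)
    (fun τ hτ => (hder τ hτ).differentiableAt.differentiableWithinAt)
    (fun τ hτ => (hder τ hτ).deriv)
  refine ⟨t, fun x hx => ?_, fun y hy => ?_⟩
  · have hτ := hF.mapsTo x hx
    have h1 := ht _ hτ
    simp only [hα4 x hx] at h1
    have h2 : x - t = β (F x) := by linarith
    rw [h2]
    exact ⟨hβ1 _ hτ, hβ2 _ hτ⟩
  · have hτ := hG.mapsTo y hy
    have h1 := ht _ hτ
    simp only [hβ4 y hy] at h1
    have h2 : y + t = α (G y) := by linarith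
    rw [h2]
    exact hα1 _ hτ


theorem Fd_sub {T : Set P3} (hT : MeasurableSet T) (hfin : volume T ≠ ⊤) {z z' : ℝ} (hz : z ≤ z') :
    Fd e T z' - Fd e T z = (volume (T ∩ {x | z ≤ ⟪e, x⟫ ∧ ⟪e, x⟫ < z'})).toReal := by
  have hce : Continuous fun x : P3 => ⟪e, x⟫ := by fun_prop
  have hm1 : MeasurableSet (T ∩ {x | z ≤ ⟪e, x⟫ ∧ ⟪e, x⟫ < z'}) :=
    hT.inter ((measurableSet_le measurable_const hce.measurable).inter
      (measurableSet_lt hce.measurable measurable_const))
  have h1 : T ∩ {x | ⟪e, x⟫ < z'} = (T ∩ {x | ⟪e, x⟫ < z}) ∪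
      (T ∩ {x | z ≤ ⟪e, x⟫ ∧ ⟪e, x⟫ < z'}) := by
    ext x
    simp only [mem_inter_iff, mem_ofPred_eq, mem_union]
    constructor
    · rintro ⟨h1, h2⟩
      by_cases h3 : ⟪e, x⟫ < z
      · exact Or.inl ⟨h1, h3⟩
      · exact Or.inr ⟨h1, not_lt.mp h3, h2⟩
    · rintro (⟨h1, h2⟩ | ⟨h1, h2, h3⟩)
      · exact ⟨h1, h2.trans_le hz⟩
      · exact ⟨h1, h3⟩
  have hd : Disjoint (T ∩ {x | ⟪e, x⟫ < z}) (T ∩ {x | z ≤ ⟪e, x⟫ ∧ ⟪e, x⟫ < z'}) := by
    rw [Set.disjoint_left]
    rintro x ⟨-, h1⟩ ⟨-, h2, -⟩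
    exact absurd h1 (not_lt.mpr h2)
  have hf : ∀ S : Set P3, volume (T ∩ S) ≠ ⊤ := fun S =>
    ((measure_mono inter_subset_left).trans_lt (lt_top_iff_ne_top.mpr hfin)).ne
  rw [Fd, Fd, h1, measure_union hd hm1, ENNReal.toReal_add (hf _) (hf _)]
  ring

theorem Frame.vol_slab (hL : Frame e L) {T : Set P3} (hT : MeasurableSet T) (z z' : ℝ) :
    volume (T ∩ {x | z ≤ ⟪e, x⟫ ∧ ⟪e, x⟫ < z'}) =
      ∫⁻ s : ℝ, (Ico z z').indicator (fun s => volume (sl e L T s)) s := by
  have hce : Continuous fun x : P3 => ⟪e, x⟫ := by fun_prop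
  have hm1 : MeasurableSet (T ∩ {x | z ≤ ⟪e, x⟫ ∧ ⟪e, x⟫ < z'}) :=
    hT.inter ((measurableSet_le measurable_const hce.measurable).inter
      (measurableSet_lt hce.measurable measurable_const))
  rw [hL.vol_sl hm1]
  refine lintegral_congr fun s => ?_
  by_cases hs : s ∈ Ico z z'
  · rw [indicator_of_mem hs]
    congr 1
    ext p
    simp only [sl, mem_ofPred_eq, mem_inter_iff, hL.inner_eq]
    exact ⟨fun h => h.1, fun h => ⟨h, hs⟩⟩
  · rw [indicator_of_notMem hs]
    have : sl e L (T ∩ {x | z ≤ ⟪e, x⟫ ∧ ⟪e, x⟫ < z'}) s = ∅ := by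
      rw [eq_empty_iff_forall_notMem]
      intro p hp
      simp only [sl, mem_ofPred_eq, mem_inter_iff, hL.inner_eq] at hp
      exact hs hp.2
    rw [this, measure_empty]

theorem Frame.Fd_sub_le (hL : Frame e L) {T : Set P3} (hT : MeasurableSet T)
    (hb : Bornology.IsBounded T) {z z' M : ℝ} (hz : z ≤ z') (hM0 : 0 ≤ M)
    (hM : ∀ s ∈ Icc z z', fd e L T s ≤ M) : Fd e T z' - Fd e T z ≤ M * (z' - z) := by
  rw [Fd_sub hT hb.measure_lt_top.ne hz, hL.vol_slab hT]
  have h1 : ∫⁻ s : ℝ, (Ico z z').indicator (fun s => volume (sl e L T s)) s ≤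
      ENNReal.ofReal (M * (z' - z)) := by
    calc _ ≤ ∫⁻ s : ℝ, (Ico z z').indicator (fun _ => ENNReal.ofReal M) s := by
          refine lintegral_mono fun s => ?_
          by_cases hs : s ∈ Ico z z'
          · rw [indicator_of_mem hs, indicator_of_mem hs]
            exact (ENNReal.le_ofReal_iff_toReal_le (hL.sl_ne_top hb s) hM0).mpr
              (hM s ⟨hs.1, hs.2.le⟩)
          · rw [indicator_of_notMem hs, indicator_of_notMem hs]
      _ = _ := by
          rw [lintegral_indicator measurableSet_Ico, lintegral_const,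
            Measure.restrict_apply_univ, Real.volume_Ico, ENNReal.ofReal_mul hM0]
  refine ENNReal.toReal_le_of_le_ofReal ?_ h1
  exact mul_nonneg hM0 (by linarith)

theorem Frame.le_Fd_sub (hL : Frame e L) {T : Set P3} (hT : MeasurableSet T)
    (hb : Bornology.IsBounded T) {z z' m : ℝ} (hz : z ≤ z') (hm0 : 0 ≤ m)
    (hm : ∀ s ∈ Icc z z', m ≤ fd e L T s) : m * (z' - z) ≤ Fd e T z' - Fd e T z := by
  rw [Fd_sub hT hb.measure_lt_top.ne hz]
  have hfin : volume (T ∩ {x | z ≤ ⟪e, x⟫ ∧ ⟪e, x⟫ < z'}) ≠ ⊤ :=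
    ((measure_mono inter_subset_left).trans_lt hb.measure_lt_top).ne
  rw [← ENNReal.ofReal_le_iff_le_toReal hfin, hL.vol_slab hT]
  calc _ = ∫⁻ s : ℝ, (Ico z z').indicator (fun _ => ENNReal.ofReal m) s := by
        rw [lintegral_indicator measurableSet_Ico, lintegral_const,
          Measure.restrict_apply_univ, Real.volume_Ico, ENNReal.ofReal_mul hm0]
    _ ≤ _ := by
        refine lintegral_mono fun s => ?_
        by_cases hs : s ∈ Ico z z'
        · rw [indicator_of_mem hs, indicator_of_mem hs]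
          exact (ENNReal.ofReal_le_iff_le_toReal (hL.sl_ne_top hb s)).mpr (hm s ⟨hs.1, hs.2.le⟩)
        · rw [indicator_of_notMem hs, indicator_of_notMem hs]

/-- The projection of `U` to the line. -/
def pr (e : P3) (U : Set P3) : Set ℝ := (fun x => ⟪e, x⟫) '' U

theorem Frame.mem_pr (hL : Frame e L) {U : Set P3} {z : ℝ} :
    z ∈ pr e U ↔ (sl e L U z).Nonempty := by
  constructor
  · rintro ⟨x, hx, rfl⟩
    obtain ⟨p, hp⟩ := hL.exists_eq x
    exact ⟨p, by simp only [sl, mem_ofPred_eq]; rw [hp]; exact hx⟩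
  · rintro ⟨p, hp⟩
    exact ⟨_, hp, hL.inner_eq z p⟩

theorem isOpen_pr (he : ‖e‖ = 1) {U : Set P3} (hU : IsOpen U) : IsOpen (pr e U) := by
  rw [Metric.isOpen_iff] at hU ⊢
  rintro _ ⟨x, hx, rfl⟩
  obtain ⟨ε, hε, hball⟩ := hU x hx
  refine ⟨ε, hε, fun w hw => ?_⟩
  refine ⟨x + (w - ⟪e, x⟫) • e, hball ?_, ?_⟩
  · rw [mem_ball, dist_eq_norm, add_sub_cancel_left, norm_smul, he, mul_one]
    exact hw
  · simp only
    rw [inner_add_right, inner_smul_right, real_inner_self_eq_norm_sq, he]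
    ring

theorem convex_pr {U : Set P3} (hU : Convex ℝ U) : Convex ℝ (pr e U) :=
  hU.linear_image (innerₛₗ ℝ e)

theorem Frame.fd_pos (hL : Frame e L) {U : Set P3} (hU : IsOpen U) (hb : Bornology.IsBounded U)
    {z : ℝ} (hz : z ∈ pr e U) : 0 < fd e L U z :=
  ENNReal.toReal_pos ((isOpen_sl hU z).measure_pos volume (hL.mem_pr.mp hz)).ne'
    (hL.sl_ne_top hb z)

theorem Frame.sqrt_concave (hL : Frame e L) {U : Set P3} (hU : IsOpen U)
    (hb : Bornology.IsBounded U) (hc : Convex ℝ U) :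
    ConcaveOn ℝ (pr e U) (fun z => √(fd e L U z)) := by
  refine ⟨convex_pr hc, fun z hz w hw a b ha hb' hab => ?_⟩
  rcases ha.eq_or_lt with rfl | ha
  · have : b = 1 := by linarith
    subst this
    simp
  rcases hb'.eq_or_lt with rfl | hb'
  · have : a = 1 := by linarith
    subst this
    simp
  exact hL.bm2 hU hU hU.measurableSet hb hb hb ha hb' (fun x hx y hy => hc hx hy ha.le hb'.le hab)
    (hL.mem_pr.mp hz) (hL.mem_pr.mp hw)

theorem Frame.fd_cont (hL : Frame e L) {U : Set P3} (hU : IsOpen U)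
    (hb : Bornology.IsBounded U) (hc : Convex ℝ U) : ContinuousOn (fd e L U) (pr e U) := by
  have h1 := (hL.sqrt_concave hU hb hc).continuousOn (isOpen_pr hL.unit hU)
  refine (h1.pow 2).congr fun z hz => ?_
  exact (Real.sq_sqrt ENNReal.toReal_nonneg).symm

theorem Frame.fd_le (hL : Frame e L) {T : Set P3} (hb : Bornology.IsBounded T) :
    ∃ M : ℝ, 0 ≤ M ∧ ∀ z, fd e L T z ≤ M := by
  obtain ⟨R, hR⟩ := hb.subset_closedBall 0
  refine ⟨(volume (closedBall (0 : P2) R)).toReal, ENNReal.toReal_nonneg, fun z => ?_⟩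
  exact ENNReal.toReal_mono measure_closedBall_lt_top.ne (measure_mono (hL.sl_subset hR z))

theorem Frame.Fd_cont (hL : Frame e L) {T : Set P3} (hT : MeasurableSet T)
    (hb : Bornology.IsBounded T) : Continuous (Fd e T) := by
  obtain ⟨M, hM0, hM⟩ := hL.fd_le hb
  have h1 : ∀ z z' : ℝ, z ≤ z' → |Fd e T z' - Fd e T z| ≤ M * |z' - z| := by
    intro z z' hz
    rw [abs_of_nonneg (sub_nonneg.mpr hz), abs_of_nonneg]
    · exact hL.Fd_sub_le hT hb hz hM0 fun s _ => hM s
    · rw [Fd_sub hT hb.measure_lt_top.ne hz]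
      exact ENNReal.toReal_nonneg
  have h2 : LipschitzWith ⟨M, hM0⟩ (Fd e T) := by
    refine LipschitzWith.of_dist_le_mul fun z z' => ?_
    rw [Real.dist_eq, Real.dist_eq]
    rcases le_total z z' with h | h
    · rw [abs_sub_comm, abs_sub_comm z z']
      exact h1 z z' h
    · exact h1 z' z h
  exact h2.continuous

theorem Frame.Fd_der (hL : Frame e L) {U : Set P3} (hU : IsOpen U)
    (hb : Bornology.IsBounded U) (hc : Convex ℝ U) {z : ℝ} (hz : z ∈ pr e U) :
    HasDerivAt (Fd e U) (fd e L U z) z := by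
  rw [hasDerivAt_iff_isLittleO, Asymptotics.isLittleO_iff]
  intro ε hε
  have hcz := (hL.fd_cont hU hb hc).continuousAt ((isOpen_pr hL.unit hU).mem_nhds hz)
  rw [Metric.continuousAt_iff] at hcz
  obtain ⟨δ, hδ, hδ'⟩ := hcz ε hε
  filter_upwards [Metric.ball_mem_nhds z hδ] with w hw
  rw [mem_ball, Real.dist_eq] at hw
  have hbd : ∀ s, |s - z| < δ → |fd e L U s - fd e L U z| ≤ ε := fun s hs => (hδ' hs).le
  have hpos : 0 ≤ fd e L U z := ENNReal.toReal_nonneg
  rw [Real.norm_eq_abs, Real.norm_eq_abs, smul_eq_mul]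
  rcases le_total z w with h | h
  · have hs : ∀ s ∈ Icc z w, |fd e L U s - fd e L U z| ≤ ε := fun s hs => hbd s (by
      rw [abs_of_nonneg (by linarith [hs.1])]
      rw [abs_of_nonneg (by linarith)] at hw
      linarith [hs.2])
    have h1 := hL.Fd_sub_le hU.measurableSet hb h (M := fd e L U z + ε) (by linarith)
      fun s hs' => by linarith [(abs_le.mp (hs s hs')).2]
    have h2 := hL.le_Fd_sub hU.measurableSet hb h (m := max (fd e L U z - ε) 0) (le_max_right _ _)
      fun s hs' => max_le (by linarith [(abs_le.mp (hs s hs')).1]) ENNReal.toReal_nonneg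
    have h3 : (fd e L U z - ε) * (w - z) ≤ max (fd e L U z - ε) 0 * (w - z) :=
      mul_le_mul_of_nonneg_right (le_max_left _ _) (by linarith)
    rw [abs_of_nonneg (sub_nonneg.mpr h), abs_le]
    constructor <;> linarith
  · have hs : ∀ s ∈ Icc w z, |fd e L U s - fd e L U z| ≤ ε := fun s hs => hbd s (by
      rw [abs_of_nonpos (by linarith [hs.2])]
      rw [abs_of_nonpos (by linarith)] at hw
      linarith [hs.1])
    have h1 := hL.Fd_sub_le hU.measurableSet hb h (M := fd e L U z + ε) (by linarith)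
      fun s hs' => by linarith [(abs_le.mp (hs s hs')).2]
    have h2 := hL.le_Fd_sub hU.measurableSet hb h (m := max (fd e L U z - ε) 0) (le_max_right _ _)
      fun s hs' => max_le (by linarith [(abs_le.mp (hs s hs')).1]) ENNReal.toReal_nonneg
    have h3 : (fd e L U z - ε) * (z - w) ≤ max (fd e L U z - ε) 0 * (z - w) :=
      mul_le_mul_of_nonneg_right (le_max_left _ _) (by linarith)
    rw [abs_of_nonpos (sub_nonpos.mpr h), abs_le]
    constructor <;> linarith

theorem vol_lt_ne_top {T S : Set P3} (hb : Bornology.IsBounded T) : volume (T ∩ S) ≠ ⊤ :=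
  ((measure_mono inter_subset_left).trans_lt hb.measure_lt_top).ne

theorem Frame.Cdf (hL : Frame e L) {U : Set P3} (hU : IsOpen U)
    (hb : Bornology.IsBounded U) (hc : Convex ℝ U) :
    Cdf (pr e U) (fd e L U) (Fd e U) (volume U).toReal := by
  have hce : Continuous fun x : P3 => ⟪e, x⟫ := by fun_prop
  have hopr := isOpen_pr hL.unit hU
  refine ⟨hopr, convex_pr hc, hL.fd_cont hU hb hc, fun x hx => hL.fd_pos hU hb hx,
    fun x hx => hL.Fd_der hU hb hc hx, fun z hz => ?_, fun τ hτ => ?_⟩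
  · obtain ⟨ε, hε, hball⟩ := Metric.isOpen_iff.mp hopr z hz
    obtain ⟨x₁, hx₁, hz₁⟩ : z - ε / 2 ∈ pr e U := hball (by
      rw [mem_ball, Real.dist_eq, sub_sub_cancel_left, abs_neg, abs_of_pos (by positivity)]
      linarith)
    obtain ⟨x₂, hx₂, hz₂⟩ := hz
    simp only at hz₁ hz₂
    constructor
    · have hop : IsOpen (U ∩ {x | ⟪e, x⟫ < z}) := hU.inter (isOpen_lt hce continuous_const)
      have hlt : ⟪e, x₁⟫ < z := by linarith
      exact ENNReal.toReal_pos (hop.measure_pos volume ⟨x₁, hx₁, hlt⟩).ne' (vol_lt_ne_top hb)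
    · obtain ⟨x₃, hx₃, hz₃⟩ : z + ε / 2 ∈ pr e U := hball (by
        rw [mem_ball, Real.dist_eq, add_sub_cancel_left, abs_of_pos (by positivity)]
        linarith)
      simp only at hz₃
      have hd : Disjoint (U ∩ {x | ⟪e, x⟫ < z}) (U ∩ {x | z < ⟪e, x⟫}) := by
        rw [Set.disjoint_left]
        rintro x ⟨-, h1⟩ ⟨-, h2⟩
        exact absurd (show ⟪e, x⟫ < z from h1) (not_lt.mpr (le_of_lt (show z < ⟪e, x⟫ from h2)))
      have hop : IsOpen (U ∩ {x | z < ⟪e, x⟫}) := hU.inter (isOpen_lt continuous_const hce)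
      have h1 : volume (U ∩ {x | ⟪e, x⟫ < z}) + volume (U ∩ {x | z < ⟪e, x⟫}) ≤ volume U := by
        rw [← measure_union hd hop.measurableSet]
        exact measure_mono (union_subset inter_subset_left inter_subset_left)
      have h2 : 0 < (volume (U ∩ {x | z < ⟪e, x⟫})).toReal := by
        have hlt : z < ⟪e, x₃⟫ := by linarith
        exact ENNReal.toReal_pos (hop.measure_pos volume ⟨x₃, hx₃, hlt⟩).ne' (vol_lt_ne_top hb)
      have h3 := ENNReal.toReal_mono hb.measure_lt_top.ne h1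
      rw [ENNReal.toReal_add (vol_lt_ne_top hb) (vol_lt_ne_top hb)] at h3
      change (volume (U ∩ {x | ⟪e, x⟫ < z})).toReal < _
      linarith
  · obtain ⟨R, hR⟩ := hb.subset_closedBall 0
    have habs : ∀ x ∈ U, |⟪e, x⟫| ≤ R := fun x hx => by
      have h1 := hR hx
      rw [mem_closedBall_zero_iff] at h1
      calc |⟪e, x⟫| ≤ ‖e‖ * ‖x‖ := abs_real_inner_le_norm _ _
        _ ≤ R := by rw [hL.unit, one_mul]; exact h1
    have hne : U.Nonempty := by
      by_contra hU0
      rw [not_nonempty_iff_eq_empty] at hU0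
      rw [hU0, measure_empty] at hτ
      exact absurd (hτ.1.trans hτ.2) (lt_irrefl _)
    obtain ⟨x₀, hx₀⟩ := hne
    have hR0 : 0 ≤ R := (abs_nonneg _).trans (habs x₀ hx₀)
    have hlow : Fd e U (-R - 1) = 0 := by
      have : U ∩ {x | ⟪e, x⟫ < -R - 1} = ∅ := by
        rw [eq_empty_iff_forall_notMem]
        rintro x ⟨h1, h2⟩
        have h3 := (abs_le.mp (habs x h1)).1
        simp only [mem_ofPred_eq] at h2
        linarith
      rw [Fd, this, measure_empty, ENNReal.toReal_zero]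
    have hhigh : Fd e U (R + 1) = (volume U).toReal := by
      have : U ∩ {x | ⟪e, x⟫ < R + 1} = U := by
        refine inter_eq_left.mpr fun x hx => ?_
        simp only [mem_ofPred_eq]
        linarith [(abs_le.mp (habs x hx)).2]
      rw [Fd, this]
    obtain ⟨z, -, hz⟩ := intermediate_value_Icc (a := -R - 1) (b := R + 1) (by linarith)
      (hL.Fd_cont hU.measurableSet hb).continuousOn
      (show τ ∈ Icc (Fd e U (-R - 1)) (Fd e U (R + 1)) by
        rw [hlow, hhigh]; exact ⟨hτ.1.le, hτ.2.le⟩)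
    refine ⟨z, ?_, hz⟩
    -- there are points of `U` on both sides of `z`
    obtain ⟨x₁, hx₁, hz₁⟩ : ∃ x ∈ U, ⟪e, x⟫ < z := by
      by_contra hcon
      push Not at hcon
      have : U ∩ {x | ⟪e, x⟫ < z} = ∅ := by
        rw [eq_empty_iff_forall_notMem]
        rintro x ⟨h1, h2⟩
        exact absurd h2 (not_lt.mpr (hcon x h1))
      rw [Fd, this, measure_empty, ENNReal.toReal_zero] at hz
      linarith [hτ.1]
    obtain ⟨x₂, hx₂, hz₂⟩ : ∃ x ∈ U, z ≤ ⟪e, x⟫ := by
      by_contra hcon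
      push Not at hcon
      have : U ∩ {x | ⟪e, x⟫ < z} = U := inter_eq_left.mpr fun x hx => hcon x hx
      rw [Fd, this] at hz
      linarith [hτ.2]
    exact (convex_pr hc).ordConnected.out ⟨x₁, hx₁, rfl⟩ ⟨x₂, hx₂, rfl⟩ ⟨hz₁.le, hz₂⟩

/-- Volume of the part strictly above a height. -/
theorem Frame.vol_above (hL : Frame e L) {U : Set P3} (hU : IsOpen U)
    (hb : Bornology.IsBounded U) (z : ℝ) :
    (volume (U ∩ {x | z < ⟪e, x⟫})).toReal = (volume U).toReal - Fd e U z := by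
  have hce : Continuous fun x : P3 => ⟪e, x⟫ := by fun_prop
  have hm : MeasurableSet (U ∩ {x | ⟪e, x⟫ = z}) :=
    hU.measurableSet.inter (isClosed_eq hce continuous_const).measurableSet
  have hnull : volume (U ∩ {x | ⟪e, x⟫ = z}) = 0 := by
    have h1 : volume (U ∩ {x | ⟪e, x⟫ = z}) ≤ ∫⁻ s : ℝ, ({z} : Set ℝ).indicator
        (fun s => volume (sl e L U s)) s := by
      rw [hL.vol_sl hm]
      refine lintegral_mono fun s => ?_
      by_cases hs : s ∈ ({z} : Set ℝ)
      · rw [indicator_of_mem hs]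
        refine measure_mono fun p hp => ?_
        exact hp.1
      · rw [indicator_of_notMem hs]
        have : sl e L (U ∩ {x | ⟪e, x⟫ = z}) s = ∅ := by
          rw [eq_empty_iff_forall_notMem]
          intro p hp
          simp only [sl, mem_ofPred_eq, mem_inter_iff, hL.inner_eq] at hp
          exact hs hp.2
        rw [this, measure_empty]
    rw [lintegral_indicator (measurableSet_singleton z), Measure.restrict_singleton,
      Real.volume_singleton, zero_smul, lintegral_zero_measure] at h1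
    exact le_antisymm h1 zero_le
  have hd : Disjoint (U ∩ {x | ⟪e, x⟫ < z}) (U ∩ {x | z < ⟪e, x⟫}) := by
    rw [Set.disjoint_left]
    rintro x ⟨-, h1⟩ ⟨-, h2⟩
    exact absurd (show ⟪e, x⟫ < z from h1) (not_lt.mpr (le_of_lt (show z < ⟪e, x⟫ from h2)))
  have hd' : Disjoint ((U ∩ {x | ⟪e, x⟫ < z}) ∪ (U ∩ {x | z < ⟪e, x⟫}))
      (U ∩ {x | ⟪e, x⟫ = z}) := by
    rw [Set.disjoint_left]
    rintro x (⟨-, h1⟩ | ⟨-, h1⟩) ⟨-, h2⟩
    · exact absurd h2 (ne_of_lt h1)
    · exact absurd h2 (ne_of_gt h1)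
  have hop : IsOpen (U ∩ {x | z < ⟪e, x⟫}) := hU.inter (isOpen_lt continuous_const hce)
  have hU' : U = ((U ∩ {x | ⟪e, x⟫ < z}) ∪ (U ∩ {x | z < ⟪e, x⟫})) ∪ (U ∩ {x | ⟪e, x⟫ = z}) := by
    ext x
    simp only [mem_union, mem_inter_iff, mem_ofPred_eq]
    constructor
    · intro hx
      rcases lt_trichotomy ⟪e, x⟫ z with h | h | h
      · exact Or.inl (Or.inl ⟨hx, h⟩)
      · exact Or.inr ⟨hx, h⟩
      · exact Or.inl (Or.inr ⟨hx, h⟩)
    · rintro ((h | h) | h) <;> exact h.1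
  have h3 : volume U = volume (U ∩ {x | ⟪e, x⟫ < z}) + volume (U ∩ {x | z < ⟪e, x⟫}) := by
    conv_lhs => rw [hU']
    rw [measure_union hd' hm, hnull, add_zero, measure_union hd hop.measurableSet]
  rw [h3, ENNReal.toReal_add (vol_lt_ne_top hb) (vol_lt_ne_top hb), Fd]
  ring

/-- Brunn-Minkowski for equal volumes. -/
theorem bm_half {A B C : Set P3} (hA : IsOpen A) (hB : IsOpen B) (hC : MeasurableSet C)
    (hAne : A.Nonempty) (hBne : B.Nonempty) (hAb : Bornology.IsBounded A)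
    (hBb : Bornology.IsBounded B) (hCb : Bornology.IsBounded C)
    (h : ∀ x ∈ A, ∀ y ∈ B, (1 / 2 : ℝ) • x + (1 / 2 : ℝ) • y ∈ C)
    (hv : (volume A).toReal = (volume B).toReal) : (volume A).toReal ≤ (volume C).toReal := by
  have h2 : (0 : ℝ) < 1 / 2 := by norm_num
  have hs : ∀ D : Set P3, volume ((1 / 2 : ℝ) • D) = ENNReal.ofReal ((1 / 2) ^ 3) * volume D := by
    intro D
    rw [Measure.addHaar_smul, finrank_euclideanSpace_fin, abs_of_pos (by positivity)]
  have hfs : ∀ D : Set P3, Bornology.IsBounded D → volume ((1 / 2 : ℝ) • D) ≠ ⊤ := by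
    intro D hD
    rw [hs]
    exact ENNReal.mul_ne_top ENNReal.ofReal_ne_top hD.measure_lt_top.ne
  have key := Pool.Agent.Lib.H31.brunn_minkowski_add (d := 3) (by norm_num)
    (A := (1 / 2 : ℝ) • A) (B := (1 / 2 : ℝ) • B) (C := C) (hA.smul₀ h2.ne') (hB.smul₀ h2.ne') hC
    hAne.smul_set hBne.smul_set (hfs A hAb) (hfs B hBb) hCb.measure_lt_top.ne (by
      rintro _ ⟨x, hx, rfl⟩ _ ⟨y, hy, rfl⟩
      exact h x hx y hy)
  rw [hs, hs, ENNReal.toReal_mul, ENNReal.toReal_mul, ENNReal.toReal_ofReal (by positivity), ← hv]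
    at key
  set v := (volume A).toReal with hvd
  have hv0 : 0 ≤ v := ENNReal.toReal_nonneg
  have hC0 : 0 ≤ (volume C).toReal := ENNReal.toReal_nonneg
  have e1 : (1 / ((3 : ℕ) : ℝ)) = 1 / 3 := by norm_num
  rw [e1] at key
  have e2 : ((1 / 2 : ℝ) ^ 3 * v) ^ (1 / 3 : ℝ) = 1 / 2 * v ^ (1 / 3 : ℝ) := by
    rw [Real.mul_rpow (by positivity) hv0, ← Real.rpow_natCast, ← Real.rpow_mul (by positivity)]
    norm_num
  rw [e2] at key
  have e3 : v ^ (1 / 3 : ℝ) ≤ (volume C).toReal ^ (1 / 3 : ℝ) := by linarith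
  exact (Real.rpow_le_rpow_iff hv0 hC0 (by norm_num)).mp e3

theorem Frame.shift (hL : Frame e L) {A B C : Set P3} (hA : IsOpen A) (hB : IsOpen B)
    (hAc : Convex ℝ A) (hBc : Convex ℝ B) (hAb : Bornology.IsBounded A)
    (hBb : Bornology.IsBounded B) (hC : MeasurableSet C) (hCb : Bornology.IsBounded C)
    (h : ∀ x ∈ A, ∀ y ∈ B, (1 / 2 : ℝ) • x + (1 / 2 : ℝ) • y ∈ C)
    (hv : (volume A).toReal = (volume B).toReal)
    (hCv : (volume C).toReal ≤ (volume A).toReal) :
    ∃ t : ℝ, (∀ x ∈ pr e A, x - t ∈ pr e B ∧ Fd e B (x - t) = Fd e A x) ∧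
      (∀ y ∈ pr e B, y + t ∈ pr e A) := by
  have hce : Continuous fun x : P3 => ⟪e, x⟫ := by fun_prop
  have hcA := hL.Cdf hA hAb hAc
  have hcB := hL.Cdf hB hBb hBc
  rw [← hv] at hcB
  refine matched_const (H := Fd e C) hcA hcB (fun x hx y hy hxy => ?_) ?_
  · have hFx := hcA.mapsTo x hx
    have hbd : ∀ {T S : Set P3}, Bornology.IsBounded T → Bornology.IsBounded (T ∩ S) :=
      fun hT => hT.subset inter_subset_left
    have hnonempty : ∀ S : Set P3, 0 < (volume S).toReal → S.Nonempty := by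
      intro S hS
      by_contra hS0
      rw [not_nonempty_iff_eq_empty] at hS0
      rw [hS0, measure_empty] at hS
      exact absurd hS (lt_irrefl _)
    have hmC : MeasurableSet (C ∩ {z | ⟪e, z⟫ < (x + y) / 2}) :=
      hC.inter (measurableSet_lt hce.measurable measurable_const)
    have hmC' : MeasurableSet (C ∩ {z | (x + y) / 2 < ⟪e, z⟫}) :=
      hC.inter (measurableSet_lt measurable_const hce.measurable)
    have hlow : Fd e A x ≤ Fd e C ((x + y) / 2) := by
      refine bm_half (A := A ∩ {z | ⟪e, z⟫ < x}) (B := B ∩ {z | ⟪e, z⟫ < y})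
        (C := C ∩ {z | ⟪e, z⟫ < (x + y) / 2})
        (hA.inter (isOpen_lt hce continuous_const)) (hB.inter (isOpen_lt hce continuous_const))
        hmC (hnonempty _ hFx.1) (hnonempty _ ?_) (hbd hAb) (hbd hBb) (hbd hCb) ?_ hxy
      · change 0 < Fd e B y
        rw [← hxy]; exact hFx.1
      · rintro a ⟨ha, ha'⟩ b ⟨hb, hb'⟩
        refine ⟨h a ha b hb, ?_⟩
        simp only [mem_ofPred_eq] at ha' hb' ⊢
        rw [inner_add_right, inner_smul_right, inner_smul_right]
        linarith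
    have hup : (volume A).toReal - Fd e A x ≤
        (volume (C ∩ {z | (x + y) / 2 < ⟪e, z⟫})).toReal := by
      rw [← hL.vol_above hA hAb]
      refine bm_half (A := A ∩ {z | x < ⟪e, z⟫}) (B := B ∩ {z | y < ⟪e, z⟫})
        (C := C ∩ {z | (x + y) / 2 < ⟪e, z⟫})
        (hA.inter (isOpen_lt continuous_const hce)) (hB.inter (isOpen_lt continuous_const hce))
        hmC' (hnonempty _ ?_) (hnonempty _ ?_) (hbd hAb) (hbd hBb) (hbd hCb) ?_ ?_
      · rw [hL.vol_above hA hAb]
        linarith [hFx.2]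
      · rw [hL.vol_above hB hBb, ← hv, ← hxy]
        linarith [hFx.2]
      · rintro a ⟨ha, ha'⟩ b ⟨hb, hb'⟩
        refine ⟨h a ha b hb, ?_⟩
        simp only [mem_ofPred_eq] at ha' hb' ⊢
        rw [inner_add_right, inner_smul_right, inner_smul_right]
        linarith
      · rw [hL.vol_above hA hAb, hL.vol_above hB hBb, ← hv, ← hxy]
    have hd : Disjoint (C ∩ {z | ⟪e, z⟫ < (x + y) / 2}) (C ∩ {z | (x + y) / 2 < ⟪e, z⟫}) := by
      rw [Set.disjoint_left]
      rintro z ⟨-, h1⟩ ⟨-, h2⟩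
      simp only [mem_ofPred_eq] at h1 h2
      linarith
    have h1 : volume (C ∩ {z | ⟪e, z⟫ < (x + y) / 2}) + volume (C ∩ {z | (x + y) / 2 < ⟪e, z⟫}) ≤
        volume C := by
      rw [← measure_union hd hmC']
      exact measure_mono (union_subset inter_subset_left inter_subset_left)
    have h3 := ENNReal.toReal_mono hCb.measure_lt_top.ne h1
    rw [ENNReal.toReal_add (vol_lt_ne_top hCb) (vol_lt_ne_top hCb)] at h3
    have h4 : Fd e C ((x + y) / 2) = (volume (C ∩ {z | ⟪e, z⟫ < (x + y) / 2})).toReal := rfl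
    linarith
  · intro x hx x' hx' y hy y' hy' hxx hyy
    set m : ℝ := ((√(min (fd e L A x) (fd e L A x')) + √(min (fd e L B y) (fd e L B y'))) / 2) ^ 2
      with hm
    have h1 := hL.le_Fd_sub hC hCb (z := (x + y) / 2) (z' := (x' + y') / 2) (m := m)
      (by linarith) (by positivity) (fun s hs => ?_)
    · calc m * ((x' - x + (y' - y)) / 2) = m * ((x' + y') / 2 - (x + y) / 2) := by ring
        _ ≤ _ := h1
    · set lam : ℝ := (s - (x + y) / 2) / ((x' + y') / 2 - (x + y) / 2) with hlam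
      have hd : 0 < (x' + y') / 2 - (x + y) / 2 := by linarith
      have hlam0 : 0 ≤ lam := div_nonneg (by linarith [hs.1]) hd.le
      have hlam1 : lam ≤ 1 := (div_le_one hd).mpr (by linarith [hs.2])
      set xs : ℝ := x + lam * (x' - x) with hxs
      set ys : ℝ := y + lam * (y' - y) with hys
      have hxs' : xs ∈ Icc x x' := ⟨by nlinarith, by nlinarith⟩
      have hys' : ys ∈ Icc y y' := ⟨by nlinarith, by nlinarith⟩
      have hss : s = 1 / 2 * xs + 1 / 2 * ys := by
        have : lam * ((x' + y') / 2 - (x + y) / 2) = s - (x + y) / 2 :=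
          div_mul_cancel₀ _ hd.ne'
        rw [hxs, hys]
        linarith
      have hxI : xs ∈ pr e A := (convex_pr hAc).ordConnected.out hx hx' hxs'
      have hyI : ys ∈ pr e B := (convex_pr hBc).ordConnected.out hy hy' hys'
      have h2 : √(min (fd e L A x) (fd e L A x')) ≤ √(fd e L A xs) := by
        rw [Real.sqrt_monotone.map_min]
        exact (hL.sqrt_concave hA hAb hAc).min_le_of_mem_Icc hx hx' hxs'
      have h3 : √(min (fd e L B y) (fd e L B y')) ≤ √(fd e L B ys) := by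
        rw [Real.sqrt_monotone.map_min]
        exact (hL.sqrt_concave hB hBb hBc).min_le_of_mem_Icc hy hy' hys'
      have h4 := hL.bm2 hA hB hC hAb hBb hCb (a := 1 / 2) (b := 1 / 2) (by norm_num) (by norm_num)
        h (hL.mem_pr.mp hxI) (hL.mem_pr.mp hyI)
      rw [← hss] at h4
      calc m ≤ (√(fd e L C s)) ^ 2 := by
            rw [hm]
            gcongr
            linarith
        _ = fd e L C s := Real.sq_sqrt ENNReal.toReal_nonneg

theorem Fd_ge {T : Set P3} (hT : MeasurableSet T) (hb : Bornology.IsBounded T) (z : ℝ) :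
    (volume (T ∩ {x | z ≤ ⟪e, x⟫})).toReal = (volume T).toReal - Fd e T z := by
  have hce : Continuous fun x : P3 => ⟪e, x⟫ := by fun_prop
  have hm : MeasurableSet (T ∩ {x | z ≤ ⟪e, x⟫}) :=
    hT.inter (measurableSet_le measurable_const hce.measurable)
  have hd : Disjoint (T ∩ {x | ⟪e, x⟫ < z}) (T ∩ {x | z ≤ ⟪e, x⟫}) := by
    rw [Set.disjoint_left]
    rintro x ⟨-, h1⟩ ⟨-, h2⟩
    simp only [mem_ofPred_eq] at h1 h2
    linarith
  have hT' : T = (T ∩ {x | ⟪e, x⟫ < z}) ∪ (T ∩ {x | z ≤ ⟪e, x⟫}) := by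
    ext x
    simp only [mem_union, mem_inter_iff, mem_ofPred_eq]
    constructor
    · intro hx
      rcases lt_or_ge ⟪e, x⟫ z with h | h
      · exact Or.inl ⟨hx, h⟩
      · exact Or.inr ⟨hx, h⟩
    · rintro (h | h) <;> exact h.1
  have h3 : volume T = volume (T ∩ {x | ⟪e, x⟫ < z}) + volume (T ∩ {x | z ≤ ⟪e, x⟫}) := by
    conv_lhs => rw [hT']
    rw [measure_union hd hm]
  rw [h3, ENNReal.toReal_add (vol_lt_ne_top hb) (vol_lt_ne_top hb), Fd]
  ring

/-- The distribution functions are translates of each other on the whole line. -/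
theorem shift_all {A B : Set P3}
    (hAc : Convex ℝ A) (hv : (volume A).toReal = (volume B).toReal) {t : ℝ}
    (h1 : ∀ x ∈ pr e A, x - t ∈ pr e B ∧ Fd e B (x - t) = Fd e A x)
    (h2 : ∀ y ∈ pr e B, y + t ∈ pr e A) (z : ℝ) : Fd e B (z - t) = Fd e A z := by
  by_cases hz : z ∈ pr e A
  · exact (h1 z hz).2
  -- `z` is below or above the whole projection
  have hcase : (∀ w ∈ pr e A, z < w) ∨ (∀ w ∈ pr e A, w < z) := by
    by_contra hcon
    push Not at hcon
    obtain ⟨⟨w, hw, hwz⟩, ⟨w', hw', hwz'⟩⟩ := hcon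
    exact hz ((convex_pr hAc).ordConnected.out hw hw' ⟨hwz, hwz'⟩)
  rcases hcase with hcase | hcase
  · have e1 : A ∩ {x | ⟪e, x⟫ < z} = ∅ := by
      rw [eq_empty_iff_forall_notMem]
      rintro x ⟨hx, hx'⟩
      have := hcase _ ⟨x, hx, rfl⟩
      simp only [mem_ofPred_eq] at hx' this
      linarith
    have e2 : B ∩ {x | ⟪e, x⟫ < z - t} = ∅ := by
      rw [eq_empty_iff_forall_notMem]
      rintro x ⟨hx, hx'⟩
      have := hcase _ (h2 _ ⟨x, hx, rfl⟩)
      simp only [mem_ofPred_eq] at hx' this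
      linarith
    rw [Fd, Fd, e1, e2]
  · have e1 : A ∩ {x | ⟪e, x⟫ < z} = A := by
      refine inter_eq_left.mpr fun x hx => ?_
      have := hcase _ ⟨x, hx, rfl⟩
      simp only [mem_ofPred_eq] at this ⊢
      linarith
    have e2 : B ∩ {x | ⟪e, x⟫ < z - t} = B := by
      refine inter_eq_left.mpr fun x hx => ?_
      have := hcase _ (h2 _ ⟨x, hx, rfl⟩)
      simp only [mem_ofPred_eq] at this ⊢
      linarith
    rw [Fd, Fd, e1, e2, hv]

/-- The first moments differ by the translation. -/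
theorem moment_shift {A B : Set P3} (hA : IsOpen A) (hB : IsOpen B)
    (hAb : Bornology.IsBounded A) (hBb : Bornology.IsBounded B)
    (hv : (volume A).toReal = (volume B).toReal) {t : ℝ}
    (h : ∀ z, Fd e B (z - t) = Fd e A z) :
    ∫ x in A, ⟪e, x⟫ = (∫ x in B, ⟪e, x⟫) + t * (volume A).toReal := by
  have hce : Continuous fun x : P3 => ⟪e, x⟫ := by fun_prop
  have hce' : Continuous fun x : P3 => ⟪e, x⟫ + t := by fun_prop
  have hfinA : IsFiniteMeasure (volume.restrict A) :=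
    ⟨by rw [Measure.restrict_apply_univ]; exact hAb.measure_lt_top⟩
  have hfinB : IsFiniteMeasure (volume.restrict B) :=
    ⟨by rw [Measure.restrict_apply_univ]; exact hBb.measure_lt_top⟩
  have hmap : (volume.restrict A).map (fun x : P3 => ⟪e, x⟫) =
      (volume.restrict B).map (fun x : P3 => ⟪e, x⟫ + t) := by
    refine Measure.ext_of_Ici _ _ fun z => ?_
    rw [Measure.map_apply hce.measurable measurableSet_Ici,
      Measure.map_apply hce'.measurable measurableSet_Ici,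
      Measure.restrict_apply (hce.measurable measurableSet_Ici),
      Measure.restrict_apply (hce'.measurable measurableSet_Ici)]
    have e1 : (fun x : P3 => ⟪e, x⟫) ⁻¹' Ici z ∩ A = A ∩ {x | z ≤ ⟪e, x⟫} := by
      rw [inter_comm]; rfl
    have e2 : (fun x : P3 => ⟪e, x⟫ + t) ⁻¹' Ici z ∩ B = B ∩ {x | z - t ≤ ⟪e, x⟫} := by
      rw [inter_comm]
      ext x
      simp only [mem_inter_iff, mem_preimage, mem_Ici, mem_ofPred_eq, sub_le_iff_le_add]
    rw [e1, e2]
    have h3 := Fd_ge (e := e) hA.measurableSet hAb z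
    have h4 := Fd_ge (e := e) hB.measurableSet hBb (z - t)
    rw [h, ← hv, ← h3] at h4
    exact ((ENNReal.toReal_eq_toReal_iff' (vol_lt_ne_top hBb) (vol_lt_ne_top hAb)).mp h4).symm
  have h1 : ∫ x in A, ⟪e, x⟫ = ∫ z, z ∂((volume.restrict A).map (fun x : P3 => ⟪e, x⟫)) := by
    rw [integral_map hce.measurable.aemeasurable (by fun_prop)]
  have h2 : ∫ x in B, (⟪e, x⟫ + t) =
      ∫ z, z ∂((volume.restrict B).map (fun x : P3 => ⟪e, x⟫ + t)) := by
    rw [integral_map hce'.measurable.aemeasurable (by fun_prop)]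
  have hint : Integrable (fun x : P3 => ⟪e, x⟫) (volume.restrict B) :=
    (hce.continuousOn.integrableOn_compact hBb.isCompact_closure).mono_set subset_closure
  rw [h1, hmap, ← h2, integral_add hint (integrable_const t)]
  congr 1
  rw [integral_const, smul_eq_mul, Measure.real, Measure.restrict_apply_univ, hv]
  ring

theorem subset_of_support {A B : Set P3} {x₀ : P3} (hAcl : IsClosed A) (hAc : Convex ℝ A)
    (hAne : A.Nonempty) (hB : B ⊆ closure (interior B))
    (h : ∀ e : P3, ‖e‖ = 1 → ∀ y ∈ interior B, ∃ a ∈ A, ⟪e, a⟫ = ⟪e, y⟫ + ⟪e, x₀⟫) :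
    ∀ y ∈ B, y + x₀ ∈ A := by
  intro y hy
  by_contra hcon
  obtain ⟨f, u, hf1, hf2⟩ := geometric_hahn_banach_closed_point hAc hAcl hcon
  set v : P3 := (InnerProductSpace.toDual ℝ P3).symm f with hv
  have hfv : ∀ x, f x = ⟪v, x⟫ := fun x => (InnerProductSpace.toDual_symm_apply).symm
  have hv0 : v ≠ 0 := by
    intro h0
    obtain ⟨a, ha⟩ := hAne
    have h1 := hf1 a ha
    rw [hfv, h0, inner_zero_left] at h1 hf2
    linarith
  have hvn : 0 < ‖v‖ := norm_pos_iff.mpr hv0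
  have hop : IsOpen {z : P3 | u < ⟪v, z + x₀⟫} := isOpen_lt continuous_const (by fun_prop)
  have hmem : y ∈ {z : P3 | u < ⟪v, z + x₀⟫} := by
    rw [mem_ofPred_eq, ← hfv]; exact hf2
  obtain ⟨y', hy'1, hy'2⟩ := mem_closure_iff.mp (hB hy) _ hop hmem
  obtain ⟨a, ha, hae⟩ := h (‖v‖⁻¹ • v) (by
    rw [norm_smul, norm_inv, norm_norm, inv_mul_cancel₀ hvn.ne']) y' hy'2
  rw [real_inner_smul_left, real_inner_smul_left, real_inner_smul_left, ← mul_add] at hae
  have h1 : ⟪v, a⟫ = ⟪v, y'⟫ + ⟪v, x₀⟫ := mul_left_cancel₀ (inv_ne_zero hvn.ne') hae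
  have h2 := hf1 a ha
  rw [hfv, h1] at h2
  rw [mem_ofPred_eq, inner_add_right] at hy'1
  linarith

end BM

/-- Two convex bodies of equal volume whose Minkowski mean does not have larger volume are
translates of each other. -/
theorem bm_equality {A B : Set (EuclideanSpace ℝ (Fin 3))} (hA : Convex ℝ A) (hB : Convex ℝ B)
    (hAk : IsCompact A) (hBk : IsCompact B) (hAi : (interior A).Nonempty)
    (hBi : (interior B).Nonempty) (hvol : volume A = volume B)
    (hmid : volume ((1 / 2 : ℝ) • A + (1 / 2 : ℝ) • B) ≤ volume A) :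
    ∃ x : EuclideanSpace ℝ (Fin 3), B = (fun y => x + y) '' A := by
  have hvA : volume (interior A) = volume A :=
    measure_interior_of_null_frontier (hA.addHaar_frontier volume)
  have hvB : volume (interior B) = volume B :=
    measure_interior_of_null_frontier (hB.addHaar_frontier volume)
  have hAb : Bornology.IsBounded (interior A) := hAk.isBounded.subset interior_subset
  have hBb : Bornology.IsBounded (interior B) := hBk.isBounded.subset interior_subset
  have hCk : IsCompact ((1 / 2 : ℝ) • A + (1 / 2 : ℝ) • B) :=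
    (hAk.smul (1 / 2 : ℝ)).add (hBk.smul (1 / 2 : ℝ))
  have hv : (volume (interior A)).toReal = (volume (interior B)).toReal := by
    rw [hvA, hvB, hvol]
  set V : ℝ := (volume (interior A)).toReal with hV
  have hV0 : 0 < V := ENNReal.toReal_pos (isOpen_interior.measure_pos volume hAi).ne'
    hAb.measure_lt_top.ne
  set x₀ : EuclideanSpace ℝ (Fin 3) :=
    V⁻¹ • ((∫ x in interior A, x) - ∫ x in interior B, x) with hx₀
  have hmain : ∀ e : EuclideanSpace ℝ (Fin 3), ‖e‖ = 1 →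
      (∀ x ∈ BM.pr e (interior A), x - ⟪e, x₀⟫ ∈ BM.pr e (interior B)) ∧
      (∀ y ∈ BM.pr e (interior B), y + ⟪e, x₀⟫ ∈ BM.pr e (interior A)) := by
    intro e he
    obtain ⟨L, hL1, hL2⟩ := BM.exists_frame he
    have hL : BM.Frame e L := ⟨he, hL1, hL2⟩
    obtain ⟨t, ht1, ht2⟩ := hL.shift isOpen_interior isOpen_interior hA.interior hB.interior hAb
      hBb hCk.measurableSet hCk.isBounded (fun x hx y hy =>
        ⟨_, ⟨x, interior_subset hx, rfl⟩, _, ⟨y, interior_subset hy, rfl⟩, rfl⟩) hv (by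
        rw [hvA]
        exact ENNReal.toReal_mono hAk.measure_lt_top.ne hmid)
    have hall := BM.shift_all hA.interior hv ht1 ht2
    have hmom := BM.moment_shift isOpen_interior isOpen_interior hAb hBb hv hall
    have hintA : Integrable (fun x : EuclideanSpace ℝ (Fin 3) => x)
        (volume.restrict (interior A)) :=
      (continuous_id.continuousOn.integrableOn_compact hAk).mono_set interior_subset
    have hintB : Integrable (fun x : EuclideanSpace ℝ (Fin 3) => x)
        (volume.restrict (interior B)) :=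
      (continuous_id.continuousOn.integrableOn_compact hBk).mono_set interior_subset
    rw [integral_inner hintA, integral_inner hintB] at hmom
    have ht : t = ⟪e, x₀⟫ := by
      rw [hx₀, inner_smul_right, inner_sub_right, hmom]
      field_simp
      ring
    rw [← ht]
    exact ⟨fun x hx => (ht1 x hx).1, ht2⟩
  have hclA : A ⊆ closure (interior A) := by
    rw [hA.closure_interior_eq_closure_of_nonempty_interior hAi]
    exact subset_closure
  have hclB : B ⊆ closure (interior B) := by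
    rw [hB.closure_interior_eq_closure_of_nonempty_interior hBi]
    exact subset_closure
  have h1 : ∀ y ∈ B, y + x₀ ∈ A := by
    refine BM.subset_of_support hAk.isClosed hA (hAi.mono interior_subset) hclB ?_
    intro e he y hy
    obtain ⟨a, ha, hae⟩ := (hmain e he).2 _ ⟨y, hy, rfl⟩
    exact ⟨a, interior_subset ha, hae⟩
  have h2 : ∀ x ∈ A, x + -x₀ ∈ B := by
    refine BM.subset_of_support hBk.isClosed hB (hBi.mono interior_subset) hclA ?_
    intro e he y hy
    obtain ⟨a, ha, hae⟩ := (hmain e he).1 _ ⟨y, hy, rfl⟩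
    refine ⟨a, interior_subset ha, ?_⟩
    rw [inner_neg_right]
    simp only at hae
    linarith
  refine ⟨-x₀, ?_⟩
  ext y
  constructor
  · intro hy
    exact ⟨y + x₀, h1 y hy, by simp⟩
  · rintro ⟨x, hx, rfl⟩
    have := h2 x hx
    rwa [add_comm] at this

end Gold
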