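import Pool.Agent.Lib.H81.Gold.BridgeB

/-!
# Surface area and volume of a circumscribed polyhedron (chunk C2)
-/

noncomputable section

open MeasureTheory Metric Set Filter Topology
open scoped RealInnerProductSpace Pointwise ENNReal

namespace Gold

namespace BrB

variable {f : ℕ} {u : Fin f → E3}

/-- The part of `Poly u` on which the index `i` is maximal. -/
def Cell (u : Fin f → E3) (i : Fin f) : Set E3 :=
  {x | x ∈ Poly u ∧ ∀ j, ⟪u j, x⟫ ≤ ⟪u i, x⟫}

theorem isClosed_Cell (u : Fin f → E3) (i : Fin f) : IsClosed (Cell u i) := by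
  have : Cell u i = Poly u ∩ ⋂ j, {x | ⟪u j, x⟫ ≤ ⟪u i, x⟫} := by
    ext x; simp [Cell]
  rw [this]
  exact isClosed_HPoly.inter (isClosed_iInter fun j => isClosed_le (by fun_prop) (by fun_prop))

theorem measurable_Cell (u : Fin f → E3) (i : Fin f) : MeasurableSet (Cell u i) :=
  (isClosed_Cell u i).measurableSet

/-- Slices of Euclidean space orthogonal to a unit vector. -/
theorem volume_eq_slices {e : E3} (he : ‖e‖ = 1) {s : Set E3} (hs : MeasurableSet s) :
    volume s = ∫⁻ t : ℝ, μHE[2] (s ∩ {x | ⟪e, x⟫ = t}) := by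
  have he0 : e ≠ 0 := by
    intro h
    rw [h, norm_zero] at he
    norm_num at he
  have h1 := EuclideanGeometry.euclideanHausdorffMeasure_eq_lintegral (0 : E3) he0 hs
  have h2 : Module.finrank ℝ E3 = 3 := by simp
  rw [h2] at h1
  have h3 : (μHE[3] : Measure E3) = volume := by
    have := InnerProductSpace.euclideanHausdorffMeasure_eq_volume (V := E3)
    rwa [h2] at this
  rw [h3] at h1
  rw [h1]
  have h4 : ‖e‖ₑ = 1 := by
    rw [← ofReal_norm, he, ENNReal.ofReal_one]
  rw [h4, one_mul]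
  refine lintegral_congr fun t => ?_
  congr 2
  ext x
  rw [SetLike.mem_coe, AffineSubspace.mem_mk', Submodule.mem_orthogonal_singleton_iff_inner_right]
  simp only [vsub_eq_sub, vadd_eq_add, add_zero, inner_sub_right, inner_smul_right,
    real_inner_self_eq_norm_sq, he, mem_ofPred_eq]
  constructor
  · intro h; linarith
  · intro h; linarith

theorem slice_Cell_of_pos {i : Fin f} {t : ℝ} (ht0 : 0 < t) (ht1 : t ≤ 1) :
    Cell u i ∩ {x | ⟪u i, x⟫ = t} = t • HFace u (fun _ => 1) i := by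
  ext x
  rw [mem_smul_set_iff_inv_smul_mem₀ ht0.ne']
  simp only [Cell, HFace, HPoly, mem_inter_iff, mem_ofPred_eq, inner_smul_right]
  constructor
  · rintro ⟨⟨h1, h2⟩, h3⟩
    refine ⟨fun j => ?_, ?_⟩
    · rw [inv_mul_le_iff₀ ht0, mul_one, ← h3]
      exact h2 j
    · rw [h3, inv_mul_cancel₀ ht0.ne']
  · rintro ⟨h1, h2⟩
    have h3 : ⟪u i, x⟫ = t := by
      rw [inv_mul_eq_iff_eq_mul₀ ht0.ne', mul_one] at h2
      exact h2
    have h4 : ∀ j, ⟪u j, x⟫ ≤ t := by
      intro j
      have := h1 j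
      rwa [inv_mul_le_iff₀ ht0, mul_one] at this
    exact ⟨⟨fun j => (h4 j).trans ht1, fun j => by rw [h3]; exact h4 j⟩, h3⟩

theorem slice_Cell_of_gt {i : Fin f} {t : ℝ} (ht1 : 1 < t) :
    Cell u i ∩ {x | ⟪u i, x⟫ = t} = ∅ := by
  rw [eq_empty_iff_forall_notMem]
  rintro x ⟨⟨h1, -⟩, h3⟩
  have := h1 i
  simp only [mem_ofPred_eq] at h3
  linarith

theorem slice_Cell_of_neg (hu : IsConfig u) {i : Fin f} {t : ℝ} (ht : t < 0) :
    Cell u i ∩ {x | ⟪u i, x⟫ = t} = ∅ := by
  rw [eq_empty_iff_forall_notMem]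
  rintro x ⟨⟨h1, h2⟩, h3⟩
  simp only [mem_ofPred_eq] at h3
  obtain ⟨R, hR⟩ := hu.bdd.subset_closedBall 0
  have hx0 : 0 < ‖x‖ := by
    rw [norm_pos_iff]
    rintro rfl
    rw [inner_zero_right] at h3
    linarith
  have hall : ∀ s : ℝ, 0 ≤ s → s • x ∈ Poly u := by
    intro s hs j
    rw [inner_smul_right]
    have := h2 j
    nlinarith
  have h4 := hR (hall ((|R| + 1) / ‖x‖) (by positivity))
  rw [mem_closedBall_zero_iff, norm_smul, Real.norm_eq_abs, abs_of_nonneg (by positivity),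
    div_mul_cancel₀ _ hx0.ne'] at h4
  linarith [le_abs_self R]

theorem lintegral_sq : ∫⁻ t in Ioc (0 : ℝ) 1, ENNReal.ofReal (t ^ 2) = 3⁻¹ := by
  rw [← ofReal_integral_eq_lintegral_ofReal]
  · rw [← intervalIntegral.integral_of_le zero_le_one, integral_pow]
    norm_num
    rw [one_div, ENNReal.ofReal_inv_of_pos (by norm_num)]
    norm_num
  · exact (continuous_pow 2).integrableOn_Ioc
  · exact Filter.Eventually.of_forall fun t => by positivity

theorem volume_Cell (hu : IsConfig u) (i : Fin f) :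
    volume (Cell u i) = 3⁻¹ * μHE[2] (HFace u (fun _ => 1) i) := by
  rw [volume_eq_slices (hu.unit i) (measurable_Cell u i)]
  have h1 : ∫⁻ t : ℝ, μHE[2] (Cell u i ∩ {x | ⟪u i, x⟫ = t}) =
      ∫⁻ t : ℝ, (Ioc (0 : ℝ) 1).indicator
        (fun t => ENNReal.ofReal (t ^ 2) * μHE[2] (HFace u (fun _ => 1) i)) t := by
    apply lintegral_congr_ae
    have hne : ∀ᵐ t : ℝ, t ≠ 0 := by
      rw [ae_iff]
      simp
    filter_upwards [hne] with t ht
    by_cases h0 : t ∈ Ioc (0 : ℝ) 1
    · rw [indicator_of_mem h0, slice_Cell_of_pos h0.1 h0.2,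
        Measure.euclideanHausdorffMeasure_smul₀ 2 h0.1.ne', ENNReal.smul_def, smul_eq_mul]
      congr 1
      rw [ENNReal.ofReal, ENNReal.coe_inj]
      apply NNReal.eq
      rw [NNReal.coe_pow, coe_nnnorm, Real.norm_eq_abs, sq_abs,
        Real.coe_toNNReal _ (by positivity)]
    · rw [indicator_of_notMem h0]
      rcases lt_trichotomy t 0 with h | h | h
      · rw [slice_Cell_of_neg hu h, measure_empty]
      · exact absurd h ht
      · have h1 : 1 < t := by
          by_contra hcon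
          exact h0 ⟨h, not_lt.1 hcon⟩
        rw [slice_Cell_of_gt h1, measure_empty]
  rw [h1, lintegral_indicator measurableSet_Ioc, lintegral_mul_const _ (by fun_prop),
    lintegral_sq]

theorem union_Cell (hf : 0 < f) : Poly u = ⋃ i, Cell u i := by
  have : Nonempty (Fin f) := ⟨⟨0, hf⟩⟩
  apply Subset.antisymm
  · intro x hx
    obtain ⟨i, hi⟩ := Finite.exists_max (fun i => ⟪u i, x⟫)
    exact mem_iUnion.2 ⟨i, hx, hi⟩
  · exact iUnion_subset fun i x hx => hx.1

theorem null_of_inner {e : E3} (he : e ≠ 0) : volume {x : E3 | ⟪e, x⟫ = 0} = 0 := by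
  have h1 : ({x : E3 | ⟪e, x⟫ = 0} : Set E3) = ((ℝ ∙ e)ᗮ : Submodule ℝ E3) := by
    ext x
    rw [SetLike.mem_coe, Submodule.mem_orthogonal_singleton_iff_inner_right]
    rfl
  rw [h1]
  apply Measure.addHaar_submodule
  intro h
  have h2 := finrank_orth' he
  rw [h, finrank_top] at h2
  simp at h2

theorem ae_disjoint_Cell (hu : IsConfig u) :
    Pairwise (Function.onFun (AEDisjoint volume) (Cell u)) := by
  intro i j hij
  have h1 : Cell u i ∩ Cell u j ⊆ {x : E3 | ⟪u i - u j, x⟫ = 0} := by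
    rintro x ⟨⟨-, h2⟩, ⟨-, h3⟩⟩
    simp only [mem_ofPred_eq, inner_sub_left]
    linarith [h2 j, h3 i]
  exact measure_mono_null h1 (null_of_inner (sub_ne_zero.2 (fun h => hij (hu.inj h))))

theorem pos_of_isConfig (hu : IsConfig u) : 0 < f := by
  rcases Nat.eq_zero_or_pos f with h | h
  · exfalso
    subst h
    have h1 : Poly u = univ := by
      ext x
      simp [Poly]
    have h2 := hu.bdd
    rw [h1] at h2
    exact NormedSpace.unbounded_univ ℝ E3 h2
  · exact h

theorem volume_Poly (hu : IsConfig u) :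
    volume (Poly u) = 3⁻¹ * ∑ i, μHE[2] (HFace u (fun _ => 1) i) := by
  conv_lhs => rw [union_Cell (pos_of_isConfig hu)]
  rw [measure_iUnion₀ (ae_disjoint_Cell hu) (fun i => (measurable_Cell u i).nullMeasurableSet),
    tsum_fintype, Finset.mul_sum]
  exact Finset.sum_congr rfl fun i _ => volume_Cell hu i

theorem volume_Poly_ne_top (hu : IsConfig u) : volume (Poly u) ≠ ∞ := hu.bdd.measure_lt_top.ne

theorem hface_ne_top (hu : IsConfig u) (i : Fin f) : μHE[2] (HFace u (fun _ => 1) i) ≠ ∞ := by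
  intro h
  have h1 := volume_Cell hu i
  rw [h, ENNReal.mul_top (by simp)] at h1
  have h2 : volume (Cell u i) ≤ volume (Poly u) := measure_mono (fun x hx => hx.1)
  rw [h1] at h2
  exact volume_Poly_ne_top hu (top_le_iff.1 h2)

/-- `S = 3 V` for circumscribed polyhedra. -/
theorem sum_farea (hu : IsConfig u) : ∑ i, farea u (fun _ => 1) i = 3 * vol (Poly u) := by
  rw [vol, volume_Poly hu, ENNReal.toReal_mul, ENNReal.toReal_sum (fun i _ => hface_ne_top hu i)]
  simp only [farea, ENNReal.toReal_inv, ENNReal.toReal_ofNat]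
  ring

theorem isHRep_one (hu : IsConfig u) : IsHRep u (fun _ => 1) where
  unit := hu.unit
  inj := hu.inj
  bdd := hu.bdd
  int := ⟨0, fun i => by rw [inner_zero_right]; norm_num⟩
  facet := fun i => ⟨u i, (inner_unit_eq_one_iff hu).2 rfl,
    fun _ hj => inner_unit_lt_one hu hj⟩

theorem vol_Poly_pos (hu : IsConfig u) : 0 < (volume (Poly u)).toReal := by
  apply ENNReal.toReal_pos _ (volume_Poly_ne_top hu)
  have h1 : 0 < volume (ball (0 : E3) 1) := measure_ball_pos _ _ one_pos
  exact (lt_of_lt_of_le h1 (measure_mono (ball_subset_Poly hu))).ne'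

/-- `S³ / V² = 27 V` for circumscribed polyhedra, given the surface area formula. -/
theorem isoQuot_Poly_of (hu : IsConfig u)
    (hS : Goldberg.surfaceArea (HPoly u (fun _ => 1)) = ∑ i, farea u (fun _ => 1) i) :
    Goldberg.isoQuot (Poly u) = 27 * (volume (Poly u)).toReal := by
  have hV := vol_Poly_pos hu
  rw [Goldberg.isoQuot, poly_eq_HPoly, hS, sum_farea hu, poly_eq_HPoly, vol]
  rw [poly_eq_HPoly] at hV
  field_simp
  ring

end BrB

end Gold
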