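import Mathlib

/-!
# Polyhedra, faces, surface area: intrinsic definitions
-/

noncomputable section

open MeasureTheory Metric Set
open scoped RealInnerProductSpace Pointwise

namespace Goldberg

/-- Euclidean three-space. -/
abbrev Space := EuclideanSpace ℝ (Fin 3)

/-- A convex polyhedron: a compact set with nonempty interior which is the intersection of
finitely many closed half-spaces. -/
def IsPolyhedron (P : Set Space) : Prop :=
  IsCompact P ∧ (interior P).Nonempty ∧
    ∃ (m : ℕ) (n : Fin m → Space) (h : Fin m → ℝ), P = {x | ∀ i, ⟪n i, x⟫ ≤ h i}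

/-- The `k`-dimensional faces of `P` (nonempty exposed faces of dimension `k`): vertices for
`k = 0`, edges for `k = 1`, the faces of the polyhedron for `k = 2`. -/
def faces (P : Set Space) (k : ℕ) : Set (Set Space) :=
  {F | F.Nonempty ∧ IsExposed ℝ P F ∧ Module.finrank ℝ (vectorSpan ℝ F) = k}

/-- Surface area: the two-dimensional (Lebesgue-normalised) Hausdorff measure of the
boundary. -/
def surfaceArea (P : Set Space) : ℝ := (μHE[2] (frontier P)).toReal

/-- The isoperimetric quotient `S³ / V²`. -/
def isoQuot (P : Set Space) : ℝ := surfaceArea P ^ 3 / (volume P).toReal ^ 2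

/-- `P` is simple: every vertex lies on exactly three edges. -/
def IsSimple (P : Set Space) : Prop :=
  ∀ v ∈ faces P 0, {e | e ∈ faces P 1 ∧ v ⊆ e}.ncard = 3

/-- Number of sides of a face: the number of vertices on it. -/
def sides (P F : Set Space) : ℕ := {v | v ∈ faces P 0 ∧ v ⊆ F}.ncard

/-- `k_f = ⌊6 - 12 / f⌋`. -/
def kf (f : ℕ) : ℤ := ⌊(6 : ℝ) - 12 / f⌋

/-- Medial polyhedra with `f` faces. -/
def IsMedial (f : ℕ) (P : Set Space) : Prop :=
  IsPolyhedron P ∧ (faces P 2).ncard = f ∧ IsSimple P ∧
    ∀ F ∈ faces P 2, (sides P F : ℤ) = kf f ∨ (sides P F : ℤ) = kf f + 1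

end Goldberg
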