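import Pool.Agent.Lib.H81.Gold.Lindelof
import Pool.Agent.Lib.H81.Gold.BridgeDefs

/-!
# Surface area of a polyhedron in terms of its faces (chunk C1, second part)
-/

noncomputable section

open MeasureTheory Metric Set
open scoped RealInnerProductSpace Pointwise

namespace Gold

/-- Two vectors orthogonal to the same two independent vectors are proportional. -/
theorem eq_smul_cr {a b z : E3} (hd : cr a b ≠ 0) (ha : ⟪a, z⟫ = 0) (hb : ⟪b, z⟫ = 0) :
    z = (⟪z, cr a b⟫ / ‖cr a b‖ ^ 2) • cr a b := by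
  have hn : ‖cr a b‖ ^ 2 ≠ 0 := by
    have : ‖cr a b‖ ≠ 0 := norm_ne_zero_iff.mpr hd
    positivity
  rw [inner3] at ha hb
  have key : ‖cr a b‖ ^ 2 • z = ⟪z, cr a b⟫ • cr a b := by
    rw [normsq3, inner3]
    ext k
    fin_cases k
    · simp only [PiLp.smul_apply, smul_eq_mul, cr_0, cr_1, cr_2, Fin.zero_eta, Fin.isValue]
      linear_combination (((a 2 * b 0 - a 0 * b 2) * a 2 - (a 0 * b 1 - a 1 * b 0) * a 1) * hb +
        (-(a 2 * b 0 - a 0 * b 2) * b 2 + (a 0 * b 1 - a 1 * b 0) * b 1) * ha)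
    · simp only [PiLp.smul_apply, smul_eq_mul, cr_0, cr_1, cr_2, Fin.mk_one, Fin.isValue]
      linear_combination (((a 0 * b 1 - a 1 * b 0) * a 0 - (a 1 * b 2 - a 2 * b 1) * a 2) * hb +
        (-(a 0 * b 1 - a 1 * b 0) * b 0 + (a 1 * b 2 - a 2 * b 1) * b 2) * ha)
    · simp only [PiLp.smul_apply, smul_eq_mul, cr_0, cr_1, cr_2, Fin.reduceFinMk, Fin.isValue]
      linear_combination (((a 1 * b 2 - a 2 * b 1) * a 1 - (a 2 * b 0 - a 0 * b 2) * a 0) * hb +
        (-(a 1 * b 2 - a 2 * b 1) * b 1 + (a 2 * b 0 - a 0 * b 2) * b 0) * ha)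
  rw [div_eq_inv_mul, mul_smul, ← key, smul_smul, inv_mul_cancel₀ hn, one_smul]

/-- A subset of a line is null for the two-dimensional measure. -/
theorem area_line {s : Set E3} {p d : E3} (hs : s ⊆ range fun t : ℝ => p + t • d) :
    μHE[2] s = 0 := by
  have h1 : dimH (range fun t : ℝ => p + t • d) ≤ (Module.finrank ℝ ℝ : ℕ) := by
    apply ContDiff.dimH_range_le
    fun_prop
  have h2 : dimH s < ((2 : ℕ) : ENNReal) := by
    refine lt_of_le_of_lt ((dimH_mono hs).trans h1) ?_
    rw [Module.finrank_self]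
    norm_num
  have h3 : μH[((2 : ℕ) : ℝ)] s = 0 := by
    have := hausdorffMeasure_of_dimH_lt (d := ((2 : ℕ) : NNReal)) (s := s) (by exact_mod_cast h2)
    simpa using this
  rw [Measure.euclideanHausdorffMeasure_def, Measure.smul_apply, h3, smul_zero]

variable {f : ℕ} {n : Fin f → E3} {h : Fin f → ℝ}

theorem interior_HPoly (H : IsHRep n h) :
    interior (HPoly n h) = {x | ∀ i, ⟪n i, x⟫ < h i} := by
  apply Subset.antisymm
  · intro x hx i
    rw [mem_interior_iff_mem_nhds, Metric.mem_nhds_iff] at hx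
    obtain ⟨ε, hε, hball⟩ := hx
    have h1 : x + (ε / 2) • n i ∈ ball x ε := by
      rw [mem_ball_iff_norm, add_sub_cancel_left, norm_smul, H.unit i, mul_one, Real.norm_eq_abs,
        abs_of_pos (by linarith)]
      linarith
    have h2 := hball h1 i
    rw [inner_add_right, real_inner_smul_right, real_inner_self_eq_norm_sq, H.unit i] at h2
    linarith
  · apply interior_maximal
    · intro x hx i; exact (hx i).le
    · rw [Set.ofPred_forall]
      exact isOpen_iInter_of_finite fun i => isOpen_lt (by fun_prop) continuous_const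

theorem frontier_HPoly (H : IsHRep n h) : frontier (HPoly n h) = ⋃ i, HFace n h i := by
  rw [frontier, (Lind.isClosed_HPoly n h).closure_eq, interior_HPoly H]
  ext x
  simp only [mem_sdiff, mem_iUnion, HFace, Set.mem_ofPred_eq, not_forall, not_lt]
  constructor
  · rintro ⟨h1, i, h2⟩
    exact ⟨i, h1, le_antisymm (h1 i) h2⟩
  · rintro ⟨i, h1, h2⟩
    exact ⟨h1, i, h2.ge⟩

theorem area_inter (H : IsHRep n h) {i j : Fin f} (hij : i ≠ j) :
    μHE[2] (HFace n h i ∩ HFace n h j) = 0 := by
  by_cases hd : cr (n i) (n j) = 0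
  · -- parallel normals: the intersection is empty
    have h1 : ⟪n i, n j⟫ ^ 2 = 1 := by
      have := normsq_cr (n i) (n j)
      rw [hd, H.unit, H.unit] at this
      simp at this
      linarith
    have h2 : n j = -n i := by
      have h3 : ⟪n i, n j⟫ = 1 ∨ ⟪n i, n j⟫ = -1 := by
        have : (⟪n i, n j⟫ - 1) * (⟪n i, n j⟫ + 1) = 0 := by linarith
        rcases mul_eq_zero.mp this with h | h
        · left; linarith
        · right; linarith
      rcases h3 with h3 | h3
      · exact absurd (H.inj ((inner_eq_one_iff_of_norm_eq_one (H.unit i) (H.unit j)).mp h3)) hij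
      · have h4 : ‖n i + n j‖ ^ 2 = 0 := by
          rw [norm_add_sq_real, h3, H.unit, H.unit]; norm_num
        have h5 : n i + n j = 0 := by
          rw [← norm_eq_zero]
          exact pow_eq_zero_iff two_ne_zero |>.mp h4
        rw [eq_neg_iff_add_eq_zero, add_comm]
        exact h5
    have h3 : HFace n h i ∩ HFace n h j = ∅ := by
      rw [Set.eq_empty_iff_forall_notMem]
      rintro x ⟨⟨_, h4⟩, ⟨_, h5⟩⟩
      obtain ⟨x0, hx0⟩ := H.int
      have h6 := hx0 i
      have h7 := hx0 j
      rw [h2, inner_neg_left] at h5 h7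
      linarith
    rw [h3, measure_empty]
  · rcases (HFace n h i ∩ HFace n h j).eq_empty_or_nonempty with h0 | ⟨p, hp⟩
    · rw [h0, measure_empty]
    · apply area_line (p := p) (d := cr (n i) (n j))
      intro x hx
      refine ⟨⟪x - p, cr (n i) (n j)⟫ / ‖cr (n i) (n j)‖ ^ 2, ?_⟩
      have e1 : ⟪n i, x - p⟫ = 0 := by
        rw [inner_sub_right, hx.1.2, hp.1.2, sub_self]
      have e2 : ⟪n j, x - p⟫ = 0 := by
        rw [inner_sub_right, hx.2.2, hp.2.2, sub_self]
      show p + (⟪x - p, cr (n i) (n j)⟫ / ‖cr (n i) (n j)‖ ^ 2) • cr (n i) (n j) = x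
      rw [← eq_smul_cr hd e1 e2]
      abel

end Gold

namespace Goldberg

/-- Surface area of a polyhedron given by an irredundant description. -/
theorem surfaceArea_HPoly {f : ℕ} {n : Fin f → Space} {h : Fin f → ℝ} (H : Gold.IsHRep n h) :
    surfaceArea (Gold.HPoly n h) = ∑ i, Gold.farea n h i := by
  rw [surfaceArea, Gold.frontier_HPoly H]
  have h1 : μHE[2] (⋃ i, Gold.HFace n h i) = ∑ i, μHE[2] (Gold.HFace n h i) := by
    rw [measure_iUnion₀, tsum_fintype]
    · intro i j hij
      exact Gold.area_inter H hij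
    · intro i
      exact (Gold.Lind.isClosed_HFace n h i).measurableSet.nullMeasurableSet
  rw [h1, ENNReal.toReal_sum fun i _ => Gold.Lind.area_HFace_ne_top H i]
  rfl

end Goldberg
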