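import Pool.Agent.Lib.H81.Gold.BridgeA
import Pool.Agent.Lib.H81.Gold.BridgeS
import Pool.Agent.Lib.H81.Gold.BridgeC

/-!
# The translation from polyhedra to configurations (chunk C)

`exists_hrep` is in `BridgeA.lean`, `surfaceArea_HPoly` in `BridgeS.lean`.
-/

noncomputable section

open MeasureTheory Metric Set
open scoped RealInnerProductSpace Pointwise

namespace Goldberg

/-- The polyhedron of a configuration. -/
theorem isPolyhedron_Poly {f : ℕ} {w : Fin f → Space} (hw : Gold.IsConfig w) :
    IsPolyhedron (Gold.Poly w) ∧ (faces (Gold.Poly w) 2).ncard = f :=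
  ⟨Gold.BrB.isPolyhedron_Poly hw, Gold.BrB.ncard_faces_two hw⟩

/-- `S = 3 V` for circumscribed polyhedra, hence `S³ / V² = 27 V`. -/
theorem isoQuot_Poly {f : ℕ} {w : Fin f → Space} (hw : Gold.IsConfig w) :
    isoQuot (Gold.Poly w) = 27 * (volume (Gold.Poly w)).toReal :=
  Gold.BrB.isoQuot_Poly_of hw (surfaceArea_HPoly (Gold.BrB.isHRep_one hw))

/-- A medial polyhedron which is homothetic to the polyhedron of a configuration comes from a
medial configuration. -/
theorem isMedial_of_homothetic {f : ℕ} (hf : 12 ≤ f) {P : Set Space} (hP : IsMedial f P)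
    {u : Fin f → Space} (hu : Gold.IsConfig u) {c : ℝ} (hc : 0 < c) {x : Space}
    (h : P = (fun y => x + c • y) '' Gold.Poly u) : Gold.IsMedial u :=
  Gold.BrB.isMedial_of_homothetic hf hP hu hc h

end Goldberg
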