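import Pool.Agent.Lib.H81.Gold.Lindelof
import Pool.Agent.Lib.H81.Gold.BridgeDefs

/-!
# Every polyhedron with `f` faces has an irredundant description by `f` half-spaces (chunk C1)
-/

noncomputable section

open MeasureTheory Metric Set
open scoped RealInnerProductSpace Pointwise

namespace Goldberg

namespace HRep

/-- `P` is an intersection of `m` half-spaces. -/
def Rep (P : Set Space) (m : ℕ) : Prop :=
  ∃ (n : Fin m → Space) (h : Fin m → ℝ), P = {x | ∀ i, ⟪n i, x⟫ ≤ h i}

/-- Dropping a redundant half-space. -/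
theorem rep_of_redundant {P : Set Space} {m : ℕ} {n : Fin (m + 1) → Space} {h : Fin (m + 1) → ℝ}
    (hP : P = {x | ∀ i, ⟪n i, x⟫ ≤ h i}) (i : Fin (m + 1))
    (hi : ∀ z, (∀ j, j ≠ i → ⟪n j, z⟫ ≤ h j) → ⟪n i, z⟫ ≤ h i) : Rep P m := by
  refine ⟨fun j => n (i.succAbove j), fun j => h (i.succAbove j), ?_⟩
  rw [hP]
  ext x
  constructor
  · intro hx j
    exact hx _
  · intro hx
    have hx' : ∀ j, j ≠ i → ⟪n j, x⟫ ≤ h j := by
      intro j hj
      obtain ⟨k, rfl⟩ := Fin.exists_succAbove_eq hj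
      exact hx k
    intro j
    by_cases hj : j = i
    · subst hj
      exact hi x hx'
    · exact hx' j hj

/-- interior points satisfy the constraints strictly -/
theorem lt_of_mem_interior {P : Set Space} {m : ℕ} {n : Fin m → Space} {h : Fin m → ℝ}
    (hP : P = {x | ∀ i, ⟪n i, x⟫ ≤ h i}) {y : Space} (hy : y ∈ interior P) (i : Fin m)
    (hi : n i ≠ 0) : ⟪n i, y⟫ < h i := by
  rw [mem_interior_iff_mem_nhds, Metric.mem_nhds_iff] at hy
  obtain ⟨ε, hε, hb⟩ := hy
  have hn : 0 < ‖n i‖ := norm_pos_iff.2 hi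
  have hmem : y + (ε / 2 / ‖n i‖) • n i ∈ P := by
    apply hb
    rw [mem_ball, dist_eq_norm, add_sub_cancel_left, norm_smul, Real.norm_eq_abs,
      abs_of_pos (by positivity), div_mul_cancel₀ _ hn.ne']
    linarith
  rw [hP] at hmem
  have h1 := hmem i
  rw [inner_add_right, real_inner_smul_right, real_inner_self_eq_norm_sq] at h1
  have h2 : 0 < ε / 2 / ‖n i‖ * ‖n i‖ ^ 2 := by positivity
  linarith

/-- The minimal representation is irredundant. -/
theorem exists_irredundant {P : Set Space} (hc : IsCompact P) (hint : (interior P).Nonempty)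
    (hr : ∃ m, Rep P m) :
    ∃ (m : ℕ) (n : Fin m → Space) (h : Fin m → ℝ), Gold.IsHRep n h ∧ P = Gold.HPoly n h := by
  classical
  obtain ⟨y, hy⟩ := hint
  obtain ⟨m, hm, hmin⟩ : ∃ m, Rep P m ∧ ∀ k < m, ¬ Rep P k :=
    ⟨Nat.find hr, Nat.find_spec hr, fun k hk => Nat.find_min hr hk⟩
  obtain ⟨n, h, hP⟩ := hm
  -- no redundant constraint
  have hirr : ∀ i : Fin m, ∃ z, (∀ j, j ≠ i → ⟪n j, z⟫ ≤ h j) ∧ h i < ⟪n i, z⟫ := by
    intro i
    by_contra hcon
    push Not at hcon
    cases m with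
    | zero => exact i.elim0
    | succ k => exact hmin k (Nat.lt_succ_self k) (rep_of_redundant hP i hcon)
  have hyP : y ∈ P := interior_subset hy
  have hn0 : ∀ i, n i ≠ 0 := by
    intro i hi
    obtain ⟨z, -, hz⟩ := hirr i
    have h1 : ⟪n i, y⟫ ≤ h i := by
      rw [hP] at hyP
      exact hyP i
    rw [hi, inner_zero_left] at h1 hz
    linarith
  have hnp : ∀ i, 0 < ‖n i‖ := fun i => norm_pos_iff.2 (hn0 i)
  have hys : ∀ i, ⟪n i, y⟫ < h i := fun i => lt_of_mem_interior hP hy i (hn0 i)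
  -- normalise
  have hin : ∀ i x, ⟪(‖n i‖)⁻¹ • n i, x⟫ = (‖n i‖)⁻¹ * ⟪n i, x⟫ := fun i x => by
    rw [real_inner_smul_left]
  have hPeq : P = Gold.HPoly (fun i => (‖n i‖)⁻¹ • n i) (fun i => (‖n i‖)⁻¹ * h i) := by
    rw [hP]
    ext x
    constructor
    · intro hx i
      change ⟪(‖n i‖)⁻¹ • n i, x⟫ ≤ _
      rw [hin]
      exact mul_le_mul_of_nonneg_left (hx i) (inv_nonneg.2 (hnp i).le)
    · intro hx i
      have h1 : ⟪(‖n i‖)⁻¹ • n i, x⟫ ≤ (‖n i‖)⁻¹ * h i := hx i
      rw [hin] at h1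
      exact le_of_mul_le_mul_left h1 (inv_pos.2 (hnp i))
  have hfacet : ∀ i, ∃ x, ⟪n i, x⟫ = h i ∧ ∀ j, j ≠ i → ⟪n j, x⟫ < h j := by
    intro i
    obtain ⟨z, hz1, hz2⟩ := hirr i
    have hd : 0 < ⟪n i, z⟫ - ⟪n i, y⟫ := by linarith [hys i]
    set t : ℝ := (h i - ⟪n i, y⟫) / (⟪n i, z⟫ - ⟪n i, y⟫) with ht
    have ht0 : 0 < t := div_pos (by linarith [hys i]) hd
    have ht1 : t < 1 := by
      rw [ht, div_lt_one hd]
      linarith
    have htm : t * (⟪n i, z⟫ - ⟪n i, y⟫) = h i - ⟪n i, y⟫ := by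
      rw [ht, div_mul_cancel₀ _ hd.ne']
    refine ⟨(1 - t) • y + t • z, ?_, ?_⟩
    · rw [inner_add_right, real_inner_smul_right, real_inner_smul_right]
      linarith
    · intro j hj
      rw [inner_add_right, real_inner_smul_right, real_inner_smul_right]
      have h1 : (1 - t) * ⟪n j, y⟫ < (1 - t) * h j :=
        mul_lt_mul_of_pos_left (hys j) (by linarith)
      have h2 : t * ⟪n j, z⟫ ≤ t * h j := mul_le_mul_of_nonneg_left (hz1 j hj) ht0.le
      linarith
  refine ⟨m, fun i => (‖n i‖)⁻¹ • n i, fun i => (‖n i‖)⁻¹ * h i, ?_, hPeq⟩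
  refine ⟨fun i => ?_, ?_, ?_, ⟨y, fun i => ?_⟩, fun i => ?_⟩
  · rw [norm_smul, norm_inv, norm_norm, inv_mul_cancel₀ (hnp i).ne']
  · intro i j hij
    by_contra hne
    have hij' : (‖n i‖)⁻¹ • n i = (‖n j‖)⁻¹ • n j := hij
    obtain ⟨x, hx1, hx2⟩ := hfacet i
    obtain ⟨x', hx1', hx2'⟩ := hfacet j
    have e1 := hx2 j (Ne.symm hne)
    have e2 := hx2' i hne
    have f1 : (‖n i‖)⁻¹ * ⟪n i, x⟫ = (‖n j‖)⁻¹ * ⟪n j, x⟫ := by rw [← hin, ← hin, hij']
    have f2 : (‖n i‖)⁻¹ * ⟪n i, x'⟫ = (‖n j‖)⁻¹ * ⟪n j, x'⟫ := by rw [← hin, ← hin, hij']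
    have g1 : (‖n j‖)⁻¹ * ⟪n j, x⟫ < (‖n j‖)⁻¹ * h j :=
      mul_lt_mul_of_pos_left e1 (inv_pos.2 (hnp j))
    have g2 : (‖n i‖)⁻¹ * ⟪n i, x'⟫ < (‖n i‖)⁻¹ * h i :=
      mul_lt_mul_of_pos_left e2 (inv_pos.2 (hnp i))
    rw [hx1] at f1
    rw [hx1'] at f2
    linarith
  · rw [← hPeq]
    exact hc.isBounded
  · rw [hin]
    exact mul_lt_mul_of_pos_left (hys i) (inv_pos.2 (hnp i))
  · obtain ⟨x, hx1, hx2⟩ := hfacet i
    refine ⟨x, ?_, fun j hj => ?_⟩
    · rw [hin, hx1]
    · rw [hin]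
      exact mul_lt_mul_of_pos_left (hx2 j hj) (inv_pos.2 (hnp j))

variable {m : ℕ} {n : Fin m → Space} {h : Fin m → ℝ}

/-- The direction space of a facet. -/
theorem vectorSpan_HFace (H : Gold.IsHRep n h) (i : Fin m) :
    vectorSpan ℝ (Gold.HFace n h i) = (ℝ ∙ (n i))ᗮ := by
  apply le_antisymm
  · rw [vectorSpan_def, Submodule.span_le]
    rintro v ⟨x, hx, y, hy, rfl⟩
    rw [SetLike.mem_coe, Submodule.mem_orthogonal_singleton_iff_inner_right]
    change ⟪n i, x - y⟫ = 0
    rw [inner_sub_right, hx.2, hy.2, sub_self]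
  · intro v hv
    rw [Submodule.mem_orthogonal_singleton_iff_inner_right] at hv
    obtain ⟨x, hx1, hx2⟩ := H.facet i
    -- a small multiple of v can be added to x
    obtain ⟨δ, hδ, hδi⟩ := Gold.Lind.exists_pos_le (fun j => h j - ⟪n j, x⟫) (fun j => j ≠ i)
      (fun j hj => sub_pos.2 (hx2 j hj))
    have hc : 0 < δ / (‖v‖ + 1) := div_pos hδ (by positivity)
    have hx : x ∈ Gold.HFace n h i := by
      refine ⟨fun j => ?_, hx1⟩
      by_cases hj : j = i
      · rw [hj, hx1]
      · exact (hx2 j hj).le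
    have hxv : x + (δ / (‖v‖ + 1)) • v ∈ Gold.HFace n h i := by
      refine ⟨fun j => ?_, ?_⟩
      · rw [inner_add_right, real_inner_smul_right]
        by_cases hj : j = i
        · rw [hj, hx1, hv, mul_zero, add_zero]
        · have h1 := hδi j hj
          have h2 : ⟪n j, v⟫ ≤ ‖v‖ := by
            have := real_inner_le_norm (n j) v
            rwa [H.unit j, one_mul] at this
          have h3 : δ / (‖v‖ + 1) * ⟪n j, v⟫ ≤ δ := by
            calc δ / (‖v‖ + 1) * ⟪n j, v⟫ ≤ δ / (‖v‖ + 1) * (‖v‖ + 1) :=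
                  mul_le_mul_of_nonneg_left (by linarith) hc.le
              _ = δ := div_mul_cancel₀ _ (by positivity)
          linarith
      · rw [inner_add_right, real_inner_smul_right, hx1, hv, mul_zero, add_zero]
    have h4 : (δ / (‖v‖ + 1)) • v ∈ vectorSpan ℝ (Gold.HFace n h i) := by
      have := vsub_mem_vectorSpan ℝ hxv hx
      rwa [vsub_eq_sub, add_sub_cancel_left] at this
    have h5 := Submodule.smul_mem _ (δ / (‖v‖ + 1))⁻¹ h4
    rwa [smul_smul, inv_mul_cancel₀ hc.ne', one_smul] at h5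

theorem finrank_orth (H : Gold.IsHRep n h) (i : Fin m) :
    Module.finrank ℝ ((ℝ ∙ (n i))ᗮ : Submodule ℝ Space) = 2 := by
  have hne : n i ≠ 0 := by
    intro h0
    have := H.unit i
    rw [h0, norm_zero] at this
    exact zero_ne_one this
  have h1 := Submodule.finrank_add_finrank_orthogonal (ℝ ∙ (n i))
  rw [finrank_span_singleton hne, finrank_euclideanSpace, Fintype.card_fin] at h1
  omega

theorem isExposed_HFace (i : Fin m) :
    IsExposed ℝ (Gold.HPoly n h) (Gold.HFace n h i) := by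
  rintro ⟨x, hx⟩
  refine ⟨innerSL ℝ (n i), ?_⟩
  ext z
  constructor
  · rintro ⟨hz1, hz2⟩
    refine ⟨hz1, fun y hy => ?_⟩
    rw [innerSL_apply_apply, innerSL_apply_apply, hz2]
    exact hy i
  · rintro ⟨hz1, hz2⟩
    refine ⟨hz1, le_antisymm (hz1 i) ?_⟩
    have h1 := hz2 x hx.1
    rw [innerSL_apply_apply, innerSL_apply_apply, hx.2] at h1
    exact h1

theorem nonempty_HFace (H : Gold.IsHRep n h) (i : Fin m) : (Gold.HFace n h i).Nonempty := by
  obtain ⟨x, hx1, hx2⟩ := H.facet i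
  refine ⟨x, fun j => ?_, hx1⟩
  by_cases hj : j = i
  · rw [hj, hx1]
  · exact (hx2 j hj).le

theorem HFace_mem_faces (H : Gold.IsHRep n h) (i : Fin m) :
    Gold.HFace n h i ∈ faces (Gold.HPoly n h) 2 := by
  refine ⟨nonempty_HFace H i, isExposed_HFace i, ?_⟩
  rw [vectorSpan_HFace H i]
  exact finrank_orth H i

theorem HFace_injective (H : Gold.IsHRep n h) : Function.Injective (Gold.HFace n h) := by
  intro i j hij
  by_contra hne
  obtain ⟨x, hx1, hx2⟩ := H.facet i
  have hx : x ∈ Gold.HFace n h i := by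
    refine ⟨fun k => ?_, hx1⟩
    by_cases hk : k = i
    · rw [hk, hx1]
    · exact (hx2 k hk).le
  rw [hij] at hx
  have h1 := hx2 j (Ne.symm hne)
  rw [hx.2] at h1
  exact lt_irrefl _ h1

/-- A point with all constraints inactive is an interior point. -/
theorem mem_interior_of_lt (H : Gold.IsHRep n h) {x : Space} (hx : ∀ i, ⟪n i, x⟫ < h i) :
    x ∈ interior (Gold.HPoly n h) := by
  rw [mem_interior_iff_mem_nhds, Metric.mem_nhds_iff]
  obtain ⟨δ, hδ, hδi⟩ := Gold.Lind.exists_pos_le (fun j => h j - ⟪n j, x⟫) (fun _ => True)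
    (fun j _ => sub_pos.2 (hx j))
  refine ⟨δ, hδ, fun y hy j => ?_⟩
  have h1 := hδi j trivial
  have h2 : ⟪n j, y - x⟫ ≤ ‖y - x‖ := by
    have := real_inner_le_norm (n j) (y - x)
    rwa [H.unit j, one_mul] at this
  rw [mem_ball, dist_eq_norm] at hy
  rw [inner_sub_right] at h2
  linarith

/-- For a nonempty convex set covered by the facets there is a facet containing it. -/
theorem exists_common_active {F : Set Space} (hF : F.Nonempty) (hc : Convex ℝ F)
    (hsub : F ⊆ Gold.HPoly n h) (hcov : ∀ x ∈ F, ∃ i, ⟪n i, x⟫ = h i) :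
    ∃ i, ∀ x ∈ F, ⟪n i, x⟫ = h i := by
  by_contra hcon
  push Not at hcon
  choose p hpF hp using hcon
  obtain ⟨x0, hx0⟩ := hF
  obtain ⟨i0, hi0⟩ := hcov x0 hx0
  have hm : 0 < m := lt_of_le_of_lt (Nat.zero_le _) i0.isLt
  have hmR : (0 : ℝ) < (m : ℝ) := by exact_mod_cast hm
  -- the average of the `p j`
  have hsum : ∑ _j : Fin m, (m : ℝ)⁻¹ = 1 := by
    rw [Finset.sum_const, Finset.card_univ, Fintype.card_fin, nsmul_eq_mul,
      mul_inv_cancel₀ hmR.ne']
  have havg : ∑ j : Fin m, (m : ℝ)⁻¹ • p j ∈ F :=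
    hc.sum_mem (fun _ _ => (inv_pos.2 hmR).le) hsum (fun j _ => hpF j)
  obtain ⟨i, hi⟩ := hcov _ havg
  have hlt : ⟪n i, ∑ j : Fin m, (m : ℝ)⁻¹ • p j⟫ < h i := by
    rw [inner_sum]
    calc ∑ j, ⟪n i, (m : ℝ)⁻¹ • p j⟫ < ∑ _j : Fin m, (m : ℝ)⁻¹ * h i := by
          apply Finset.sum_lt_sum
          · intro j _
            rw [real_inner_smul_right]
            exact mul_le_mul_of_nonneg_left (hsub (hpF j) i) (inv_pos.2 hmR).le
          · refine ⟨i, Finset.mem_univ _, ?_⟩
            rw [real_inner_smul_right]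
            exact mul_lt_mul_of_pos_left (lt_of_le_of_ne (hsub (hpF i) i) (hp i))
              (inv_pos.2 hmR)
      _ = h i := by rw [← Finset.sum_mul, hsum, one_mul]
  exact hlt.ne hi

theorem faces_eq_range (H : Gold.IsHRep n h) :
    faces (Gold.HPoly n h) 2 = Set.range (Gold.HFace n h) := by
  apply Subset.antisymm
  · rintro F ⟨hne, hexp, hrank⟩
    obtain ⟨l, hl⟩ := hexp hne
    have hsub : F ⊆ Gold.HPoly n h := by
      rw [hl]
      exact fun x hx => hx.1
    have hconv : Convex ℝ F := hexp.convex (Gold.Lind.convex_HPoly n h)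
    obtain ⟨y, hy⟩ := H.int
    have hyP : y ∈ Gold.HPoly n h := fun i => (hy i).le
    have hyi : y ∈ interior (Gold.HPoly n h) := mem_interior_of_lt H hy
    -- l is not zero
    have hl0 : l ≠ 0 := by
      rintro rfl
      have hFP : F = Gold.HPoly n h := by
        rw [hl]
        ext x
        constructor
        · exact fun hx => hx.1
        · exact fun hx => ⟨hx, fun _ _ => le_rfl⟩
      have hspan : affineSpan ℝ (Gold.HPoly n h) = ⊤ := by
        have h1 : affineSpan ℝ (interior (Gold.HPoly n h)) = ⊤ :=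
          IsOpen.affineSpan_eq_top isOpen_interior ⟨y, hyi⟩
        have h2 := affineSpan_mono ℝ (interior_subset (s := Gold.HPoly n h))
        rw [h1] at h2
        exact top_le_iff.1 h2
      have h3 : vectorSpan ℝ F = ⊤ := by
        rw [hFP, ← direction_affineSpan, hspan, AffineSubspace.direction_top]
      rw [h3, finrank_top, finrank_euclideanSpace, Fintype.card_fin] at hrank
      omega
    -- the points of F are not interior points
    have hcov : ∀ x ∈ F, ∃ i, ⟪n i, x⟫ = h i := by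
      intro x hx
      by_contra hcon
      push Not at hcon
      have hxlt : ∀ i, ⟪n i, x⟫ < h i := fun i => lt_of_le_of_ne (hsub hx i) (hcon i)
      have hxi := mem_interior_of_lt H hxlt
      rw [mem_interior_iff_mem_nhds, Metric.mem_nhds_iff] at hxi
      obtain ⟨ε, hε, hb⟩ := hxi
      rw [hl] at hx
      apply hl0
      ext v
      rw [zero_apply]
      have key : ∀ w : Space, l w ≤ 0 := by
        intro w
        have hw : 0 < ε / 2 / (‖w‖ + 1) := by positivity
        have hmem : x + (ε / 2 / (‖w‖ + 1)) • w ∈ Gold.HPoly n h := by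
          apply hb
          rw [mem_ball, dist_eq_norm, add_sub_cancel_left, norm_smul, Real.norm_eq_abs,
            abs_of_pos hw]
          calc ε / 2 / (‖w‖ + 1) * ‖w‖ ≤ ε / 2 / (‖w‖ + 1) * (‖w‖ + 1) :=
                mul_le_mul_of_nonneg_left (by linarith) hw.le
            _ = ε / 2 := div_mul_cancel₀ _ (by positivity)
            _ < ε := by linarith
        have h1 := hx.2 _ hmem
        rw [map_add, map_smul, smul_eq_mul] at h1
        by_contra hpos
        push Not at hpos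
        have := mul_pos hw hpos
        linarith
      have h2 := key v
      have h3 := key (-v)
      rw [map_neg] at h3
      linarith
    obtain ⟨i, hi⟩ := exists_common_active hne hconv hsub hcov
    refine ⟨i, ?_⟩
    -- the direction of F
    have hle : vectorSpan ℝ F ≤ (ℝ ∙ (n i))ᗮ := by
      rw [vectorSpan_def, Submodule.span_le]
      rintro v ⟨x, hx, z, hz, rfl⟩
      rw [SetLike.mem_coe, Submodule.mem_orthogonal_singleton_iff_inner_right]
      change ⟪n i, x - z⟫ = 0
      rw [inner_sub_right, hi x hx, hi z hz, sub_self]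
    have heq : vectorSpan ℝ F = (ℝ ∙ (n i))ᗮ := by
      apply Submodule.eq_of_le_of_finrank_eq hle
      rw [hrank, finrank_orth H i]
    -- l vanishes on the direction
    have hlv : ∀ v : Space, ⟪n i, v⟫ = 0 → l v = 0 := by
      intro v hv
      have hv' : v ∈ vectorSpan ℝ F := by
        rw [heq, Submodule.mem_orthogonal_singleton_iff_inner_right]
        exact hv
      have hker : vectorSpan ℝ F ≤ LinearMap.ker (l : Space →ₗ[ℝ] ℝ) := by
        rw [vectorSpan_def, Submodule.span_le]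
        rintro v ⟨x, hx, z, hz, rfl⟩
        rw [SetLike.mem_coe, LinearMap.mem_ker]
        change l (x - z) = 0
        rw [hl] at hx hz
        rw [map_sub, sub_eq_zero]
        exact le_antisymm (hz.2 x hx.1) (hx.2 z hz.1)
      exact hker hv'
    have hlc : ∀ v : Space, l v = l (n i) * ⟪n i, v⟫ := by
      intro v
      have h1 : ⟪n i, v - ⟪n i, v⟫ • n i⟫ = 0 := by
        rw [inner_sub_right, real_inner_smul_right, real_inner_self_eq_norm_sq, H.unit i]
        ring
      have h2 := hlv _ h1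
      rw [map_sub, map_smul, smul_eq_mul] at h2
      linarith
    have hc0 : l (n i) ≠ 0 := by
      intro h0
      apply hl0
      ext v
      rw [hlc v, h0, zero_mul, zero_apply]
    obtain ⟨x, hx⟩ := hne
    have hxm : ∀ z ∈ Gold.HPoly n h, l z ≤ l x := by
      have hx' := hx
      rw [hl] at hx'
      exact hx'.2
    have hcpos : 0 < l (n i) := by
      rcases lt_or_gt_of_ne hc0 with hneg | hpos
      · exfalso
        have h1 := hxm y hyP
        rw [hlc y, hlc x, hi x hx] at h1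
        have h2 := hy i
        have := mul_lt_mul_of_neg_left h2 hneg
        linarith
      · exact hpos
    ext z
    constructor
    · rintro ⟨hz1, hz2⟩
      rw [hl]
      refine ⟨hz1, fun w hw => ?_⟩
      rw [hlc w, hlc z, hz2]
      exact mul_le_mul_of_nonneg_left (hw i) hcpos.le
    · intro hz
      exact ⟨hsub hz, hi z hz⟩
  · rintro _ ⟨i, rfl⟩
    exact HFace_mem_faces H i

end HRep

/-- Every polyhedron with `f` faces has an irredundant description by `f` half-spaces. -/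
theorem exists_hrep {f : ℕ} {P : Set Space} (hP : IsPolyhedron P)
    (hf : (faces P 2).ncard = f) (_hf0 : 0 < f) :
    ∃ (n : Fin f → Space) (h : Fin f → ℝ), Gold.IsHRep n h ∧ P = Gold.HPoly n h := by
  obtain ⟨hc, hint, m, n0, h0, hrep⟩ := hP
  obtain ⟨k, n, h, H, hPe⟩ := HRep.exists_irredundant hc hint ⟨m, n0, h0, hrep⟩
  have hk : (faces P 2).ncard = k := by
    rw [hPe, HRep.faces_eq_range H, Set.ncard_range_of_injective (HRep.HFace_injective H),
      Nat.card_eq_fintype_card, Fintype.card_fin]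
  rw [hk] at hf
  subst hf
  exact ⟨n, h, H, hPe⟩

end Goldberg
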