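import Mathlib

/-!
# Combinatorial maps and the development of a hexagonal region (chunk K)

Pure combinatorics, no geometry.  See README.md for the proofs.
-/

noncomputable section

open Set

namespace Gold

/-- Faces reachable from `i₀` in at most `n` steps of the relation `R`. -/
def reach {ι : Type*} (R : ι → ι → Prop) (i₀ : ι) : ℕ → Set ι
  | 0 => {i₀}
  | n + 1 => reach R i₀ n ∪ {j | ∃ i ∈ reach R i₀ n, R i j}

/-- A combinatorial map: darts with rotation `rho` about the tail, reversal `sig`,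
triangular vertices `(rho sig)^3 = 1`, one `rho`-cycle for each face. -/
structure CMap (ι : Type) where
  D : Type
  tail : D → ι
  rho : Equiv.Perm D
  sig : Equiv.Perm D
  sig_sig : ∀ d, sig (sig d) = d
  rs3 : ∀ d, rho (sig (rho (sig (rho (sig d))))) = d
  tail_rho : ∀ d, tail (rho d) = tail d
  cyc : ∀ d d', tail d = tail d' → ∃ n : ℕ, (rho ^ n) d = d'
  loopless : ∀ d, tail (sig d) ≠ tail d

theorem reach_mono {ι : Type*} (R : ι → ι → Prop) (i₀ : ι) {m n : ℕ} (h : m ≤ n) :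
    reach R i₀ m ⊆ reach R i₀ n := by
  induction h with
  | refl => exact le_rfl
  | step _ ih => exact ih.trans (fun x hx => Or.inl hx)

namespace CMap

variable {ι : Type} (M : CMap ι)

/-- Adjacency of faces. -/
def A (i j : ι) : Prop := ∃ d, M.tail d = i ∧ M.tail (M.sig d) = j

/-- The face `i` is a hexagon. -/
def Hex (i : ι) : Prop :=
  ∀ d, M.tail d = i → (M.rho ^ 6) d = d ∧ ∀ n, 0 < n → n < 6 → (M.rho ^ n) d ≠ d

/-- One step straight ahead. -/
def T : Equiv.Perm M.D := M.rho ^ 3 * M.sig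

/-- One step in the direction `ω = exp (i π / 3)`, keeping the direction of the dart. -/
def U : Equiv.Perm M.D := M.rho⁻¹ * M.T * M.rho

/-- The developed dart at the lattice point `v`. -/
def Psi (d₀ : M.D) (v : ℤ × ℤ) : M.D := (M.T ^ v.1) ((M.U ^ v.2) d₀)

/-- The developed face at the lattice point `v`. -/
def pt (d₀ : M.D) (v : ℤ × ℤ) : ι := M.tail (M.Psi d₀ v)

/-- The six lattice directions `ω ^ k`. -/
def dir : ℕ → ℤ × ℤ
  | 0 => (1, 0)
  | 1 => (0, 1)
  | 2 => (-1, 1)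
  | 3 => (-1, 0)
  | 4 => (0, -1)
  | _ => (1, -1)

/-! ### Identities in the group of permutations -/

theorem sig_mul_sig : M.sig * M.sig = 1 := by
  ext d; exact M.sig_sig d

theorem sig_inv : M.sig⁻¹ = M.sig := inv_eq_of_mul_eq_one_left M.sig_mul_sig

theorem rs3' : M.rho * M.sig * M.rho * M.sig * M.rho * M.sig = 1 := by
  ext d; exact M.rs3 d

/-- `σ ρ⁻¹ σ = ρ σ ρ` -/
theorem srs_inv : M.sig * M.rho⁻¹ * M.sig = M.rho * M.sig * M.rho := by
  have h := M.rs3'
  have h2 : (M.rho * M.sig * M.rho) * (M.sig * M.rho * M.sig) = 1 := by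
    rw [← h]; group
  have h3 : M.rho * M.sig * M.rho = (M.sig * M.rho * M.sig)⁻¹ := eq_inv_of_mul_eq_one_left h2
  rw [h3, mul_inv_rev, mul_inv_rev, M.sig_inv]
  group

/-- `σ ρ σ = ρ⁻¹ σ ρ⁻¹` -/
theorem srs : M.sig * M.rho * M.sig = M.rho⁻¹ * M.sig * M.rho⁻¹ := by
  have h := congrArg (fun x => x⁻¹) M.srs_inv
  simp only [mul_inv_rev, inv_inv, M.sig_inv] at h
  rw [mul_assoc, h, mul_assoc]

theorem U_eq : M.U = M.rho ^ 2 * M.sig * M.rho := by
  rw [U, T]; group

theorem T_inv : M.T⁻¹ = M.sig * M.rho⁻¹ ^ 3 := by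
  rw [T, mul_inv_rev, M.sig_inv, inv_pow]

theorem U_inv : M.U⁻¹ = M.rho⁻¹ * M.sig * M.rho⁻¹ ^ 2 := by
  rw [U_eq, mul_inv_rev, mul_inv_rev, M.sig_inv]; group

theorem S2_eq : M.rho⁻¹ ^ 2 * M.T * M.rho ^ 2 = M.T⁻¹ * M.U := by
  have h := M.srs_inv
  calc M.rho⁻¹ ^ 2 * M.T * M.rho ^ 2 = (M.rho * M.sig * M.rho) * M.rho := by
        rw [T]; group; rw [mul_assoc _ M.rho M.rho, ← pow_two]; rfl
    _ = (M.sig * M.rho⁻¹ * M.sig) * M.rho := by rw [h]
    _ = M.T⁻¹ * M.U := by rw [T_inv, U_eq]; group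

theorem TU_eq : M.T * M.U = M.rho ^ 2 * M.sig * (M.rho⁻¹ ^ 2 * M.sig) := by
  have h := M.srs
  calc M.T * M.U = M.rho ^ 3 * (M.sig * M.rho * (M.rho * M.sig)) * M.rho := by
        rw [T, U_eq, pow_two]; simp only [mul_assoc]
    _ = M.rho ^ 3 * (M.sig * M.rho * (M.sig * M.sig) * (M.rho * M.sig)) * M.rho := by
        rw [sig_mul_sig, mul_one]
    _ = M.rho ^ 3 * ((M.sig * M.rho * M.sig) * (M.sig * M.rho * M.sig)) * M.rho := by
        group
    _ = M.rho ^ 3 * ((M.rho⁻¹ * M.sig * M.rho⁻¹) * (M.rho⁻¹ * M.sig * M.rho⁻¹)) * M.rho := by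
        rw [h]
    _ = _ := by group

theorem UT_eq : M.U * M.T = M.rho ^ 2 * M.sig * (M.rho ^ 4 * M.sig) := by
  rw [T, U_eq]; group

theorem TUinv_eq : M.T * M.U⁻¹ = M.rho ^ 4 * M.sig * M.rho⁻¹ := by
  have h := M.srs_inv
  calc M.T * M.U⁻¹ = M.rho ^ 3 * (M.sig * M.rho⁻¹ * M.sig) * M.rho⁻¹ ^ 2 := by
        rw [T, U_inv]; group
    _ = M.rho ^ 3 * (M.rho * M.sig * M.rho) * M.rho⁻¹ ^ 2 := by rw [h]
    _ = _ := by group

/-! ### Tails -/

theorem tail_rho_pow (n : ℕ) (d : M.D) : M.tail ((M.rho ^ n) d) = M.tail d := by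
  induction n with
  | zero => simp
  | succ n ih => rw [pow_succ', Equiv.Perm.mul_apply, M.tail_rho, ih]

theorem tail_rho_inv (d : M.D) : M.tail (M.rho⁻¹ d) = M.tail d := by
  have h := M.tail_rho (M.rho⁻¹ d)
  rw [← h]
  simp

theorem tail_rho_inv_pow (n : ℕ) (d : M.D) : M.tail ((M.rho⁻¹ ^ n) d) = M.tail d := by
  induction n with
  | zero => simp
  | succ n ih => rw [pow_succ', Equiv.Perm.mul_apply, M.tail_rho_inv, ih]

theorem tail_T (d : M.D) : M.tail (M.T d) = M.tail (M.sig d) := by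
  rw [T, Equiv.Perm.mul_apply, tail_rho_pow]

theorem A_T (d : M.D) : M.A (M.tail d) (M.tail (M.T d)) := ⟨d, rfl, (M.tail_T d).symm⟩

theorem A_Tinv (d : M.D) : M.A (M.tail d) (M.tail (M.T⁻¹ d)) := by
  refine ⟨(M.rho⁻¹ ^ 3) d, M.tail_rho_inv_pow 3 d, ?_⟩
  rw [T_inv, Equiv.Perm.mul_apply]

theorem A_U (d : M.D) : M.A (M.tail d) (M.tail (M.U d)) := by
  refine ⟨M.rho d, M.tail_rho d, ?_⟩
  rw [U, Equiv.Perm.mul_apply, Equiv.Perm.mul_apply, M.tail_rho_inv, M.tail_T]

theorem A_Uinv (d : M.D) : M.A (M.tail d) (M.tail (M.U⁻¹ d)) := by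
  refine ⟨(M.rho⁻¹ ^ 2) d, M.tail_rho_inv_pow 2 d, ?_⟩
  rw [U_inv, Equiv.Perm.mul_apply, Equiv.Perm.mul_apply, M.tail_rho_inv]

/-! ### Recursions for the development -/

theorem Psi_zero (d₀ : M.D) : M.Psi d₀ (0, 0) = d₀ := by simp [Psi]

theorem Psi_T (d₀ : M.D) (x y : ℤ) : M.T (M.Psi d₀ (x, y)) = M.Psi d₀ (x + 1, y) := by
  simp only [Psi]
  rw [← Equiv.Perm.mul_apply, ← zpow_one_add, add_comm]

theorem Psi_Tinv (d₀ : M.D) (x y : ℤ) : M.T⁻¹ (M.Psi d₀ (x, y)) = M.Psi d₀ (x - 1, y) := by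
  have h := M.Psi_T d₀ (x - 1) y
  rw [sub_add_cancel] at h
  rw [← h]; simp

theorem Psi_U0 (d₀ : M.D) (y : ℤ) : M.U (M.Psi d₀ (0, y)) = M.Psi d₀ (0, y + 1) := by
  simp only [Psi, zpow_zero, Equiv.Perm.one_apply]
  rw [← Equiv.Perm.mul_apply, ← zpow_one_add, add_comm]

theorem Psi_Uinv0 (d₀ : M.D) (y : ℤ) : M.U⁻¹ (M.Psi d₀ (0, y)) = M.Psi d₀ (0, y - 1) := by
  have h := M.Psi_U0 d₀ (y - 1)
  rw [sub_add_cancel] at h
  rw [← h]; simp

theorem reach_step {i j i₀ : ι} {n : ℕ} (hi : i ∈ reach M.A i₀ n) (h : M.A i j) :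
    j ∈ reach M.A i₀ (n + 1) := Or.inr ⟨i, hi, h⟩

theorem pt_mem_reach_aux (d₀ : M.D) (n : ℕ) :
    ∀ v : ℤ × ℤ, |v.1| + |v.2| ≤ n → M.pt d₀ v ∈ reach M.A (M.tail d₀) n := by
  induction n with
  | zero =>
    rintro ⟨x, y⟩ hv
    simp only [Nat.cast_zero] at hv
    have hx : x = 0 := by rw [← abs_nonpos_iff]; linarith [abs_nonneg y]
    have hy : y = 0 := by rw [← abs_nonpos_iff]; linarith [abs_nonneg x]
    subst hx hy
    simp only [pt, Psi_zero]
    exact rfl
  | succ n ih =>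
    rintro ⟨x, y⟩ hv
    simp only [Nat.cast_add, Nat.cast_one] at hv
    rcases lt_trichotomy x 0 with hx | hx | hx
    · have h1 := ih (x + 1, y) (by
        simp only
        rw [abs_of_neg hx] at hv
        have : |x + 1| = -x - 1 := by rw [abs_of_nonpos (by omega)]; ring
        rw [this]; linarith)
      have h2 := M.reach_step h1 (M.A_Tinv _)
      rw [Psi_Tinv, add_sub_cancel_right] at h2
      exact h2
    · subst hx
      rcases lt_trichotomy y 0 with hy | hy | hy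
      · have h1 := ih (0, y + 1) (by
          simp only
          rw [abs_of_neg hy] at hv
          have : |y + 1| = -y - 1 := by rw [abs_of_nonpos (by omega)]; ring
          rw [this]; linarith)
        have h2 := M.reach_step h1 (M.A_Uinv _)
        rw [Psi_Uinv0, add_sub_cancel_right] at h2
        exact h2
      · subst hy
        exact reach_mono M.A (M.tail d₀) (Nat.le_succ n) (ih (0, 0) (by simp))
      · have h1 := ih (0, y - 1) (by
          simp only
          rw [abs_of_pos hy] at hv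
          have : |y - 1| = y - 1 := by rw [abs_of_nonneg (by omega)]
          rw [this]; linarith)
        have h2 := M.reach_step h1 (M.A_U _)
        rw [Psi_U0, sub_add_cancel] at h2
        exact h2
    · have h1 := ih (x - 1, y) (by
        simp only
        rw [abs_of_pos hx] at hv
        have : |x - 1| = x - 1 := by rw [abs_of_nonneg (by omega)]
        rw [this]; linarith)
      have h2 := M.reach_step h1 (M.A_T _)
      rw [Psi_T, sub_add_cancel] at h2
      exact h2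

/-- Commutation of `T` and `U` at a dart whose head is a hexagon. -/
theorem TU_comm {d : M.D} (h : M.Hex (M.tail (M.T d))) : M.T (M.U d) = M.U (M.T d) := by
  have h1 := congrArg (fun f => f d) M.TU_eq
  have h2 := congrArg (fun f => f d) M.UT_eq
  simp only [Equiv.Perm.mul_apply] at h1 h2
  rw [h1, h2]
  congr 2
  rw [tail_T] at h
  have h6 := (h (M.sig d) rfl).1
  have : M.rho ^ 4 = M.rho⁻¹ ^ 2 * M.rho ^ 6 := by group
  rw [this, Equiv.Perm.mul_apply, h6]

theorem Psi_U {d₀ : M.D} {N : ℕ} (hN : ∀ v : ℤ × ℤ, |v.1| + |v.2| ≤ N → M.Hex (M.pt d₀ v))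
    (x y : ℤ) (h : |x| + |y| ≤ N) : M.U (M.Psi d₀ (x, y)) = M.Psi d₀ (x, y + 1) := by
  induction x using Int.induction_on with
  | zero => exact M.Psi_U0 d₀ y
  | succ x ih =>
    have hx : |(x : ℤ) + 1| = x + 1 := abs_of_nonneg (by omega)
    have hx' : |(x : ℤ)| = x := abs_of_nonneg (by omega)
    rw [hx] at h
    rw [← Psi_T, ← TU_comm, ih (by rw [hx']; linarith), Psi_T]
    rw [Psi_T]
    exact hN (x + 1, y) (by simp only; rw [hx]; exact h)
  | pred x ih =>
    have hx : |-(x : ℤ) - 1| = x + 1 := by rw [abs_of_nonpos (by omega)]; ring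
    have hx' : |-(x : ℤ)| = x := by rw [abs_of_nonpos (by omega)]; ring
    rw [hx] at h
    have h1 : M.T (M.U (M.T⁻¹ (M.Psi d₀ (-x, y)))) = M.U (M.Psi d₀ (-x, y)) := by
      have h3 : M.T (M.T⁻¹ (M.Psi d₀ (-x, y))) = M.Psi d₀ (-x, y) := by simp
      rw [TU_comm, h3]
      rw [h3]
      exact hN (-x, y) (by simp only; rw [hx']; linarith)
    rw [ih (by rw [hx']; linarith), Psi_Tinv] at h1
    rw [← M.Psi_Tinv d₀ (-x) (y + 1), ← h1]
    simp

theorem Psi_Uinv {d₀ : M.D} {N : ℕ}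
    (hN : ∀ v : ℤ × ℤ, |v.1| + |v.2| ≤ N → M.Hex (M.pt d₀ v))
    (x y : ℤ) (h : |x| + |y| + 1 ≤ N) : M.U⁻¹ (M.Psi d₀ (x, y)) = M.Psi d₀ (x, y - 1) := by
  have h1 := M.Psi_U hN x (y - 1) (by
    have := abs_sub y 1
    have h2 : |(1 : ℤ)| = 1 := abs_one
    linarith)
  rw [sub_add_cancel] at h1
  rw [← h1]; simp

/-- The step in direction `ω ^ k`, keeping the direction of the dart. -/
def S (k : ℕ) : Equiv.Perm M.D := M.rho⁻¹ ^ k * M.T * M.rho ^ k

theorem S_apply (k : ℕ) (d : M.D) : M.S k d = (M.rho⁻¹ ^ k) (M.T ((M.rho ^ k) d)) := rfl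

theorem tail_S (k : ℕ) (d : M.D) : M.tail (M.S k d) = M.tail (M.sig ((M.rho ^ k) d)) := by
  rw [S_apply, tail_rho_inv_pow, tail_T]

theorem rho6 {d : M.D} (h : M.Hex (M.tail d)) : (M.rho ^ 6) d = d := (h d rfl).1

theorem rho_add6 {d : M.D} (h : M.Hex (M.tail d)) (k : ℕ) :
    (M.rho ^ (k + 6)) d = (M.rho ^ k) d := by
  rw [pow_add, Equiv.Perm.mul_apply, M.rho6 h]

theorem rho_inv_add6 {d : M.D} (h : M.Hex (M.tail d)) (k : ℕ) :
    (M.rho⁻¹ ^ (k + 6)) d = (M.rho⁻¹ ^ k) d := by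
  rw [pow_add, Equiv.Perm.mul_apply]
  congr 1
  have := M.rho6 h
  conv_lhs => rw [← this]
  rw [← Equiv.Perm.mul_apply]
  simp

theorem rho_mod {d : M.D} (h : M.Hex (M.tail d)) (k : ℕ) :
    (M.rho ^ k) d = (M.rho ^ (k % 6)) d := by
  conv_lhs => rw [← Nat.mod_add_div k 6]
  generalize k / 6 = q
  generalize k % 6 = r
  induction q with
  | zero => simp
  | succ q ih =>
    rw [show r + 6 * (q + 1) = r + 6 * q + 6 by ring, M.rho_add6 h, ih]

theorem S_Psi_lt {d₀ : M.D} {N : ℕ}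
    (hN : ∀ v : ℤ × ℤ, |v.1| + |v.2| ≤ N → M.Hex (M.pt d₀ v))
    {v : ℤ × ℤ} (hv : |v.1| + |v.2| + 2 ≤ N) {k : ℕ} (hk : k < 6) :
    M.S k (M.Psi d₀ v) = M.Psi d₀ (v + dir k) := by
  obtain ⟨x, y⟩ := v
  simp only at hv
  have hex : M.Hex (M.tail (M.Psi d₀ (x, y))) := hN (x, y) (by simp only; linarith)
  have ax : ∀ a : ℤ, |a + 1| ≤ |a| + 1 := fun a => by
    have := abs_add_le a 1; rwa [abs_one] at this
  have ax' : ∀ a : ℤ, |a - 1| ≤ |a| + 1 := fun a => by
    have := abs_sub a 1; rwa [abs_one] at this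
  have hU := M.Psi_U hN x y (by linarith)
  have hUi := M.Psi_Uinv hN x y (by linarith)
  interval_cases k
  · simp only [S_apply, pow_zero, Equiv.Perm.one_apply, dir, Prod.mk_add_mk, add_zero]
    exact M.Psi_T d₀ x y
  · simp only [dir, Prod.mk_add_mk, add_zero]
    rw [← hU, S, U, pow_one, pow_one]
  · simp only [dir, Prod.mk_add_mk]
    rw [S, S2_eq, Equiv.Perm.mul_apply, hU, Psi_Tinv]
    rfl
  · simp only [dir, Prod.mk_add_mk, add_zero]
    have h1 : M.S 3 (M.Psi d₀ (x, y)) = M.sig ((M.rho ^ 3) (M.Psi d₀ (x, y))) := by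
      rw [S_apply, T, Equiv.Perm.mul_apply, ← Equiv.Perm.mul_apply]
      simp
    have h2 : M.T⁻¹ (M.Psi d₀ (x, y)) = M.sig ((M.rho⁻¹ ^ 3) (M.Psi d₀ (x, y))) := by
      rw [T_inv, Equiv.Perm.mul_apply]
    have h3 : (M.rho ^ 3) (M.Psi d₀ (x, y)) = (M.rho⁻¹ ^ 3) (M.Psi d₀ (x, y)) := by
      conv_rhs => rw [← M.rho6 hex, ← Equiv.Perm.mul_apply]
      congr 1
      group
    rw [h1, h3, ← h2, Psi_Tinv]
    rfl
  · simp only [dir, Prod.mk_add_mk, add_zero]
    have h1 : M.S 4 (M.Psi d₀ (x, y)) = (M.rho⁻¹ * M.sig) ((M.rho ^ 4) (M.Psi d₀ (x, y))) := by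
      rw [S_apply, T, Equiv.Perm.mul_apply, ← Equiv.Perm.mul_apply, ← Equiv.Perm.mul_apply]
      congr 1
      group
    have h2 : M.U⁻¹ (M.Psi d₀ (x, y))
        = (M.rho⁻¹ * M.sig) ((M.rho⁻¹ ^ 2) (M.Psi d₀ (x, y))) := by
      rw [U_inv, Equiv.Perm.mul_apply]
    have h3 : (M.rho ^ 4) (M.Psi d₀ (x, y)) = (M.rho⁻¹ ^ 2) (M.Psi d₀ (x, y)) := by
      conv_rhs => rw [← M.rho6 hex, ← Equiv.Perm.mul_apply]
      congr 1
      group
    rw [h1, h3, ← h2, hUi]
    rfl
  · simp only [dir, Prod.mk_add_mk]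
    have h1 : M.S 5 (M.Psi d₀ (x, y))
        = (M.rho⁻¹ ^ 2) (M.sig ((M.rho ^ 5) (M.Psi d₀ (x, y)))) := by
      rw [S_apply, T, Equiv.Perm.mul_apply, ← Equiv.Perm.mul_apply]
      congr 1
      group
    have h2 : M.T (M.U⁻¹ (M.Psi d₀ (x, y)))
        = (M.rho ^ 4) (M.sig (M.rho⁻¹ (M.Psi d₀ (x, y)))) := by
      have := congrArg (fun f => f (M.Psi d₀ (x, y))) M.TUinv_eq
      simpa only [Equiv.Perm.mul_apply] using this
    have h3 : (M.rho ^ 5) (M.Psi d₀ (x, y)) = M.rho⁻¹ (M.Psi d₀ (x, y)) := by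
      conv_rhs => rw [← M.rho6 hex, ← Equiv.Perm.mul_apply]
      congr 1
      group
    have h4 : M.T (M.U⁻¹ (M.Psi d₀ (x, y))) = M.Psi d₀ (x + 1, y - 1) := by
      rw [hUi, Psi_T]
    have h5 : M.Hex (M.tail (M.sig (M.rho⁻¹ (M.Psi d₀ (x, y))))) := by
      have h6 : M.tail (M.sig (M.rho⁻¹ (M.Psi d₀ (x, y)))) = M.pt d₀ (x + 1, y - 1) := by
        rw [pt, ← h4, h2, tail_rho_pow]
      rw [h6]
      exact hN _ (by simp only; linarith [ax x, ax' y])
    have h7 : ∀ e : M.D, M.Hex (M.tail e) → (M.rho⁻¹ ^ 2) e = (M.rho ^ 4) e := by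
      intro e he
      conv_lhs => rw [← M.rho6 he, ← Equiv.Perm.mul_apply]
      congr 1
      group
    rw [h1, h3, h7 _ h5, ← h2, h4]
    rfl

theorem abs_dir (k : ℕ) : |(dir k).1| ≤ 1 ∧ |(dir k).2| ≤ 1 ∧ |(dir k).1| + |(dir k).2| ≤ 2 := by
  rcases k with _ | _ | _ | _ | _ | k <;> simp [dir]

theorem S_Psi {d₀ : M.D} {N : ℕ}
    (hN : ∀ v : ℤ × ℤ, |v.1| + |v.2| ≤ N → M.Hex (M.pt d₀ v))
    {v : ℤ × ℤ} (hv : |v.1| + |v.2| + 2 ≤ N) (k : ℕ) :
    M.S k (M.Psi d₀ v) = M.Psi d₀ (v + dir (k % 6)) := by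
  have hex : M.Hex (M.tail (M.Psi d₀ v)) := hN v (by linarith)
  have hk : k % 6 < 6 := Nat.mod_lt _ (by norm_num)
  rw [← M.S_Psi_lt hN hv hk]
  have h0 : M.S k (M.Psi d₀ v) = (M.rho⁻¹ ^ k) (M.T ((M.rho ^ (k % 6)) (M.Psi d₀ v))) := by
    rw [S_apply, M.rho_mod hex]
  rw [h0, S_apply]
  set e := M.T ((M.rho ^ (k % 6)) (M.Psi d₀ v)) with he
  have hexe : M.Hex (M.tail e) := by
    have h1 : M.tail e = M.pt d₀ (v + dir (k % 6)) := by
      rw [pt, ← M.S_Psi_lt hN hv hk, S_apply, tail_rho_inv_pow]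
    rw [h1]
    refine hN _ ?_
    have h2 := abs_dir (k % 6)
    have h3 := abs_add_le v.1 (dir (k % 6)).1
    have h4 := abs_add_le v.2 (dir (k % 6)).2
    simp only [Prod.fst_add, Prod.snd_add]
    linarith [h2.2.2]
  conv_lhs => rw [← Nat.mod_add_div k 6]
  generalize k / 6 = q
  generalize k % 6 = r
  induction q with
  | zero => simp
  | succ q ih =>
    rw [show r + 6 * (q + 1) = r + 6 * q + 6 by ring, M.rho_inv_add6 hexe, ih]

theorem hexAll {d₀ : M.D} {N : ℕ} (hN : ∀ i ∈ reach M.A (M.tail d₀) N, M.Hex i) :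
    ∀ v : ℤ × ℤ, |v.1| + |v.2| ≤ N → M.Hex (M.pt d₀ v) :=
  fun v hv => hN _ (M.pt_mem_reach_aux d₀ N v hv)

/-- In a hexagonal region the six neighbours of the developed face are the developed
faces of the six neighbours. -/
theorem neighbours {d₀ : M.D} {N : ℕ} (hN : ∀ i ∈ reach M.A (M.tail d₀) N, M.Hex i)
    {v : ℤ × ℤ} (hv : |v.1| + |v.2| + 2 ≤ N) {k : ℕ} (hk : k < 6) :
    M.tail (M.sig ((M.rho ^ k) (M.Psi d₀ v))) = M.pt d₀ (v + dir k) := by
  rw [← tail_S, M.S_Psi_lt (M.hexAll hN) hv hk, pt]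

/-- The developed face is reached in at most `|v.1| + |v.2|` steps. -/
theorem pt_mem_reach {d₀ : M.D} {N : ℕ} (hN : ∀ i ∈ reach M.A (M.tail d₀) N, M.Hex i)
    {v : ℤ × ℤ} {n : ℕ} (hv : |v.1| + |v.2| ≤ n) (hn : n ≤ N) :
    M.pt d₀ v ∈ reach M.A (M.tail d₀) n :=
  M.pt_mem_reach_aux d₀ n v hv

/-- Every face reached in at most `n` steps is the developed face of a lattice point of
sup-norm at most `n`. -/
theorem reach_subset {d₀ : M.D} {N : ℕ} (hN : ∀ i ∈ reach M.A (M.tail d₀) N, M.Hex i)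
    {n : ℕ} (hn : 2 * n + 2 ≤ N) {i : ι} (hi : i ∈ reach M.A (M.tail d₀) n) :
    ∃ v : ℤ × ℤ, |v.1| ≤ n ∧ |v.2| ≤ n ∧ M.pt d₀ v = i := by
  induction n generalizing i with
  | zero =>
    refine ⟨(0, 0), by simp, by simp, ?_⟩
    rw [pt, Psi_zero]
    exact (show i = M.tail d₀ from hi).symm
  | succ n ih =>
    rcases hi with hi | ⟨i', hi', d, hd1, hd2⟩
    · obtain ⟨v, h1, h2, h3⟩ := ih (by omega) hi
      exact ⟨v, by push_cast; linarith, by push_cast; linarith, h3⟩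
    · obtain ⟨v, h1, h2, h3⟩ := ih (by omega) hi'
      have hNz : ((2 * (n + 1) + 2 : ℕ) : ℤ) ≤ N := by exact_mod_cast hn
      push_cast at hNz
      have hex : M.Hex (M.tail (M.Psi d₀ v)) := M.hexAll hN v (by linarith)
      obtain ⟨k, hk⟩ := M.cyc (M.Psi d₀ v) d (by rw [hd1, ← h3, pt])
      rw [M.rho_mod hex] at hk
      have hk6 : k % 6 < 6 := Nat.mod_lt _ (by norm_num)
      have h4 := M.neighbours hN (v := v) (by linarith) hk6
      rw [hk, hd2] at h4
      have h5 := abs_dir (k % 6)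
      have h6 := abs_add_le v.1 (dir (k % 6)).1
      have h7 := abs_add_le v.2 (dir (k % 6)).2
      refine ⟨v + dir (k % 6), ?_, ?_, h4.symm⟩
      · simp only [Prod.fst_add]; push_cast; linarith [h5.1]
      · simp only [Prod.snd_add]; push_cast; linarith [h5.2.1]

/-- Rotation by `ω` in lattice coordinates. -/
def rot (v : ℤ × ℤ) : ℤ × ℤ := (-v.2, v.1 + v.2)

/-- iterated rotation -/
def rotn : ℕ → ℤ × ℤ → ℤ × ℤ
  | 0, v => v
  | j + 1, v => rot (rotn j v)

theorem rotn_add (j : ℕ) (v w : ℤ × ℤ) : rotn j (v + w) = rotn j v + rotn j w := by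
  induction j with
  | zero => rfl
  | succ j ih =>
    simp only [rotn, ih, rot, Prod.fst_add, Prod.snd_add, Prod.mk_add_mk]
    congr 1 <;> ring

theorem rotn_dir {j k : ℕ} (hj : j < 6) (hk : k < 6) : rotn j (dir k) = dir ((k + j) % 6) := by
  interval_cases j <;> interval_cases k <;> simp [rotn, rot, dir]

theorem rotn_abs {j : ℕ} (hj : j < 6) (v : ℤ × ℤ) :
    |(rotn j v).1| + |(rotn j v).2| ≤ 2 * (|v.1| + |v.2|) := by
  have h := abs_add_le v.1 v.2
  have h1 := abs_nonneg v.1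
  have h2 := abs_nonneg v.2
  interval_cases j <;> simp only [rotn, rot]
  · linarith
  · rw [abs_neg]; linarith
  · have e1 : |-(v.1 + v.2)| = |v.1 + v.2| := abs_neg _
    have e2 : -v.2 + (v.1 + v.2) = v.1 := by ring
    rw [e1, e2]; linarith
  · have e1 : -(-v.2 + (v.1 + v.2)) = -v.1 := by ring
    have e2 : -(v.1 + v.2) + (-v.2 + (v.1 + v.2)) = -v.2 := by ring
    rw [e1, e2, abs_neg, abs_neg]; linarith
  · have e1 : -(-(v.1 + v.2) + (-v.2 + (v.1 + v.2))) = v.2 := by ring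
    have e2 : -(-v.2 + (v.1 + v.2)) + (-(v.1 + v.2) + (-v.2 + (v.1 + v.2))) = -(v.1 + v.2) := by
      ring
    rw [e1, e2, abs_neg]; linarith
  · have e1 : -(-(-v.2 + (v.1 + v.2)) + (-(v.1 + v.2) + (-v.2 + (v.1 + v.2)))) = v.1 + v.2 := by
      ring
    have e2 : -(-(v.1 + v.2) + (-v.2 + (v.1 + v.2))) + (-(-v.2 + (v.1 + v.2)) +
        (-(v.1 + v.2) + (-v.2 + (v.1 + v.2)))) = -v.1 := by
      ring
    rw [e1, e2, abs_neg]; linarith

theorem S_mul (k j : ℕ) : M.S k * M.rho ^ j = M.rho ^ j * M.S (k + j) := by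
  rw [S, S]; group

/-- One step of the transport. -/
theorem transport_step {d₀ : M.D} {N : ℕ}
    (hN : ∀ v : ℤ × ℤ, |v.1| + |v.2| ≤ N → M.Hex (M.pt d₀ v))
    {a b : ℤ × ℤ} {j k : ℕ} (ha : |a.1| + |a.2| + 2 ≤ N) (hb : |b.1| + |b.2| + 2 ≤ N)
    (hk : k < 6) (h : M.Psi d₀ a = (M.rho ^ j) (M.Psi d₀ b)) :
    M.Psi d₀ (a + dir k) = (M.rho ^ j) (M.Psi d₀ (b + dir ((k + j) % 6))) := by
  rw [← M.S_Psi_lt hN ha hk, ← M.S_Psi hN hb (k + j), h, ← Equiv.Perm.mul_apply, S_mul,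
    Equiv.Perm.mul_apply]

theorem norm_add (v w : ℤ × ℤ) :
    |(v + w).1| + |(v + w).2| ≤ (|v.1| + |v.2|) + (|w.1| + |w.2|) := by
  have h1 := abs_add_le v.1 w.1
  have h2 := abs_add_le v.2 w.2
  simp only [Prod.fst_add, Prod.snd_add]
  linarith

/-- Transport of `Ψ q = ρ^j Ψ p`. -/
theorem transport {d₀ : M.D} {N : ℕ}
    (hN : ∀ v : ℤ × ℤ, |v.1| + |v.2| ≤ N → M.Hex (M.pt d₀ v))
    {p q : ℤ × ℤ} {j : ℕ} (hj : j < 6) (h : M.Psi d₀ q = (M.rho ^ j) (M.Psi d₀ p)) (n : ℕ)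
    (hq : (|q.1| + |q.2|) + n + 2 ≤ N) (hp : (|p.1| + |p.2|) + 2 * n + 2 ≤ N) :
    ∀ v : ℤ × ℤ, |v.1| + |v.2| ≤ n →
      M.Psi d₀ (q + v) = (M.rho ^ j) (M.Psi d₀ (p + rotn j v)) := by
  induction n with
  | zero =>
    rintro ⟨x, y⟩ hv
    simp only [Nat.cast_zero] at hv
    have hx : x = 0 := by rw [← abs_nonpos_iff]; linarith [abs_nonneg y]
    have hy : y = 0 := by rw [← abs_nonpos_iff]; linarith [abs_nonneg x]
    subst hx hy
    have h0 : rotn j (0, 0) = (0, 0) := by interval_cases j <;> simp [rotn, rot]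
    rw [h0]
    have h1 : ∀ w : ℤ × ℤ, w + (0, 0) = w := fun w => by
      ext <;> simp
    rw [h1, h1, h]
  | succ n ih =>
    push_cast at hq hp
    have ih' := ih (by linarith) (by linarith)
    have key : ∀ (v' : ℤ × ℤ) (k : ℕ), k < 6 → |v'.1| + |v'.2| ≤ n →
        M.Psi d₀ (q + (v' + dir k)) = (M.rho ^ j) (M.Psi d₀ (p + rotn j (v' + dir k))) := by
      intro v' k hk hv'
      have h1 := ih' v' hv'
      have h2 := norm_add q v'
      have h3 := norm_add p (rotn j v')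
      have h4 := rotn_abs hj v'
      have h5 := M.transport_step hN (by linarith) (by linarith) hk h1
      rw [← rotn_dir hj hk, add_assoc, add_assoc, ← rotn_add] at h5
      exact h5
    rintro ⟨x, y⟩ hv
    simp only [Nat.cast_add, Nat.cast_one] at hv
    rcases lt_trichotomy x 0 with hx | hx | hx
    · have h1 := key (x + 1, y) 3 (by norm_num) (by
        simp only
        rw [abs_of_neg hx] at hv
        have : |x + 1| = -x - 1 := by rw [abs_of_nonpos (by omega)]; ring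
        rw [this]; linarith)
      simpa [dir] using h1
    · subst hx
      rcases lt_trichotomy y 0 with hy | hy | hy
      · have h1 := key (0, y + 1) 4 (by norm_num) (by
          simp only
          rw [abs_of_neg hy] at hv
          have : |y + 1| = -y - 1 := by rw [abs_of_nonpos (by omega)]; ring
          rw [this]; linarith)
        simpa [dir] using h1
      · subst hy
        exact ih' (0, 0) (by simp)
      · have h1 := key (0, y - 1) 1 (by norm_num) (by
          simp only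
          rw [abs_of_pos hy] at hv
          have : |y - 1| = y - 1 := by rw [abs_of_nonneg (by omega)]
          rw [this]; linarith)
        simpa [dir] using h1
    · have h1 := key (x - 1, y) 0 (by norm_num) (by
        simp only
        rw [abs_of_pos hx] at hv
        have : |x - 1| = x - 1 := by rw [abs_of_nonneg (by omega)]
        rw [this]; linarith)
      simpa [dir] using h1

/-- A rotation about a lattice point, an edge midpoint or a vertex. -/
theorem exists_fix {j : ℕ} (hj0 : 0 < j) (hj : j < 6) (t : ℤ × ℤ) {m : ℤ} (hm : 1 ≤ m)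
    (h1 : |t.1| ≤ 2 * m) (h2 : |t.2| ≤ 2 * m) :
    ∃ v : ℤ × ℤ, |v.1| + |v.2| ≤ 7 * m ∧
      (t + v = rotn j v ∨ ∃ k, k < 6 ∧ t + v = rotn j v + dir k) := by
  obtain ⟨a, b⟩ := t
  simp only at h1 h2
  rw [abs_le] at h1 h2
  have bound : ∀ x y X Y : ℤ, -X ≤ x → x ≤ X → -Y ≤ y → y ≤ Y → X + Y ≤ 7 * m →
      |x| + |y| ≤ 7 * m := by
    intro x y X Y hx1 hx2 hy1 hy2 h
    have := abs_le.mpr ⟨hx1, hx2⟩
    have := abs_le.mpr ⟨hy1, hy2⟩
    linarith
  interval_cases j
  · refine ⟨(b, -a - b), bound _ _ (2 * m) (4 * m) (by omega) (by omega) (by omega) (by omega)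
      (by omega), Or.inl ?_⟩
    simp only [rotn, rot, Prod.mk_add_mk, Prod.mk.injEq]
    constructor
    · omega
    · trivial
  · obtain ⟨r, hr | hr | hr⟩ : ∃ r : ℤ, a - b = 3 * r ∨ a - b = 3 * r + 1 ∨ a - b = 3 * r + 2 :=
      ⟨(a - b) / 3, by omega⟩
    · refine ⟨(-r, -b - r), bound _ _ (2 * m) (4 * m + 1) (by omega) (by omega) (by omega)
        (by omega) (by omega), Or.inl ?_⟩
      simp only [rotn, rot, Prod.mk_add_mk, Prod.mk.injEq]
      constructor <;> omega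
    · refine ⟨(-r, -b - r), bound _ _ (2 * m) (4 * m + 1) (by omega) (by omega) (by omega)
        (by omega) (by omega), Or.inr ⟨0, by norm_num, ?_⟩⟩
      simp only [rotn, rot, dir, Prod.mk_add_mk, Prod.mk.injEq]
      constructor <;> omega
    · refine ⟨(-r - 1, -b - r), bound _ _ (2 * m) (4 * m + 1) (by omega) (by omega) (by omega)
        (by omega) (by omega), Or.inr ⟨1, by norm_num, ?_⟩⟩
      simp only [rotn, rot, dir, Prod.mk_add_mk, Prod.mk.injEq]
      constructor <;> omega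
  · obtain ⟨r, hr⟩ : ∃ r : ℤ, a = 2 * r ∨ a = 2 * r + 1 := ⟨a / 2, by omega⟩
    obtain ⟨s, hs⟩ : ∃ s : ℤ, b = 2 * s ∨ b = 2 * s + 1 := ⟨b / 2, by omega⟩
    rcases hr with hr | hr <;> rcases hs with hs | hs
    · refine ⟨(-r, -s), bound _ _ m m (by omega) (by omega) (by omega)
        (by omega) (by omega), Or.inl ?_⟩
      simp only [rotn, rot, Prod.mk_add_mk, Prod.mk.injEq]
      constructor <;> omega
    · refine ⟨(-r, -s), bound _ _ m (m + 1) (by omega) (by omega) (by omega)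
        (by omega) (by omega), Or.inr ⟨1, by norm_num, ?_⟩⟩
      simp only [rotn, rot, dir, Prod.mk_add_mk, Prod.mk.injEq]
      constructor <;> omega
    · refine ⟨(-r, -s), bound _ _ (m + 1) m (by omega) (by omega) (by omega)
        (by omega) (by omega), Or.inr ⟨0, by norm_num, ?_⟩⟩
      simp only [rotn, rot, dir, Prod.mk_add_mk, Prod.mk.injEq]
      constructor <;> omega
    · refine ⟨(-r, -s - 1), bound _ _ (m + 1) (m + 1) (by omega) (by omega) (by omega)
        (by omega) (by omega), Or.inr ⟨5, by norm_num, ?_⟩⟩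
      simp only [rotn, rot, dir, Prod.mk_add_mk, Prod.mk.injEq]
      constructor <;> omega
  · obtain ⟨r, hr | hr | hr⟩ : ∃ r : ℤ, b - a = 3 * r ∨ b - a = 3 * r + 1 ∨ b - a = 3 * r + 2 :=
      ⟨(b - a) / 3, by omega⟩
    · refine ⟨(-r - a, -r), bound _ _ (4 * m + 1) (2 * m) (by omega) (by omega) (by omega)
        (by omega) (by omega), Or.inl ?_⟩
      simp only [rotn, rot, Prod.mk_add_mk, Prod.mk.injEq]
      constructor <;> omega
    · refine ⟨(-r - a, -r), bound _ _ (4 * m + 1) (2 * m) (by omega) (by omega) (by omega)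
        (by omega) (by omega), Or.inr ⟨1, by norm_num, ?_⟩⟩
      simp only [rotn, rot, dir, Prod.mk_add_mk, Prod.mk.injEq]
      constructor <;> omega
    · refine ⟨(-r - a, -r - 1), bound _ _ (4 * m + 1) (2 * m) (by omega) (by omega) (by omega)
        (by omega) (by omega), Or.inr ⟨0, by norm_num, ?_⟩⟩
      simp only [rotn, rot, dir, Prod.mk_add_mk, Prod.mk.injEq]
      constructor <;> omega
  · refine ⟨(-a - b, a), bound _ _ (4 * m) (2 * m) (by omega) (by omega) (by omega) (by omega)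
      (by omega), Or.inl ?_⟩
    simp only [rotn, rot, Prod.mk_add_mk, Prod.mk.injEq]
    constructor <;> omega

/-- Reduction of one coordinate modulo a period. -/
theorem exists_reduce {a b s r n m : ℤ} (hs0 : s ≠ 0) (hrs : |r| ≤ |s|) (hs : |s| ≤ 2 * m)
    (ha : |a| ≤ n) (hb : |b| ≤ n) :
    ∃ c : ℤ, 0 ≤ a + c * s ∧ a + c * s < 2 * m ∧ |b + c * r| ≤ 2 * n + 2 * m ∧
      |c| * |s| ≤ n + 2 * m := by
  refine ⟨-(a / s), ?_⟩
  have h1 : a + -(a / s) * s = a % s := by
    have := Int.emod_add_mul_ediv a s; linarith [mul_comm s (a / s)]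
  have h2 := Int.emod_nonneg a hs0
  have h3 := Int.emod_lt_abs a hs0
  have h4 : |-(a / s)| * |s| ≤ n + 2 * m := by
    rw [← abs_mul]
    have : -(a / s) * s = a % s - a := by linarith
    rw [this]
    have h5 := abs_sub (a % s) a
    rw [abs_of_nonneg h2] at h5
    linarith
  refine ⟨by rw [h1]; exact h2, by rw [h1]; linarith, ?_, h4⟩
  have h5 := abs_add_le b (-(a / s) * r)
  have h6 : |-(a / s) * r| ≤ |-(a / s)| * |s| := by
    rw [abs_mul]
    exact mul_le_mul_of_nonneg_left hrs (abs_nonneg _)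
  linarith

/-- If the region is hexagonal up to distance `40 n` and the ball of radius `n` has more
than `60 m n` faces, then the development is injective on the box of size `m`. -/
theorem inj_box {d₀ : M.D} {N : ℕ} (hN : ∀ i ∈ reach M.A (M.tail d₀) N, M.Hex i)
    {m n : ℕ} (hm : 1 ≤ m) (hmn : m ≤ n) (hn : 40 * n ≤ N)
    (hcard : 60 * m * n < (reach M.A (M.tail d₀) n).ncard)
    {p q : ℤ × ℤ} (hp1 : |p.1| ≤ m) (hp2 : |p.2| ≤ m) (hq1 : |q.1| ≤ m) (hq2 : |q.2| ≤ m)
    (h : M.pt d₀ p = M.pt d₀ q) : p = q := by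
  by_contra hpq
  have hex := M.hexAll hN
  have hmz : (1 : ℤ) ≤ m := by exact_mod_cast hm
  have hmnz : (m : ℤ) ≤ n := by exact_mod_cast hmn
  have hnz : 40 * (n : ℤ) ≤ N := by exact_mod_cast hn
  obtain ⟨k, hk⟩ := M.cyc (M.Psi d₀ p) (M.Psi d₀ q) h
  have hexp : M.Hex (M.tail (M.Psi d₀ p)) := hex p (by linarith)
  rw [M.rho_mod hexp] at hk
  have hk6 : k % 6 < 6 := Nat.mod_lt _ (by norm_num)
  generalize k % 6 = j at hk hk6
  set t : ℤ × ℤ := q - p with ht
  have ht1 : |t.1| ≤ 2 * (m : ℤ) := by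
    have := abs_sub q.1 p.1
    rw [ht, Prod.fst_sub]; linarith
  have ht2 : |t.2| ≤ 2 * (m : ℤ) := by
    have := abs_sub q.2 p.2
    rw [ht, Prod.snd_sub]; linarith
  have hqt : q = p + t := by rw [ht]; abel
  rcases Nat.eq_zero_or_pos j with hj | hj
  · -- translation
    subst hj
    have ht0 : t ≠ 0 := by
      intro h0; apply hpq; rw [hqt, h0, add_zero]
    have shift : ∀ v : ℤ × ℤ, |v.1| + |v.2| ≤ 16 * (n : ℤ) → M.Psi d₀ (v + t) = M.Psi d₀ v := by
      intro v hv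
      have h1 := M.transport hex (p := p) (q := q) (j := 0) (by norm_num) hk.symm (18 * n)
        (by push_cast; linarith) (by push_cast; linarith) (v - p) (by
          have h2 := abs_sub v.1 p.1
          have h3 := abs_sub v.2 p.2
          simp only [Prod.fst_sub, Prod.snd_sub]
          push_cast; linarith)
      have e1 : q + (v - p) = v + t := by rw [hqt]; abel
      have e2 : p + rotn 0 (v - p) = v := by simp only [rotn]; abel
      rw [e1, e2] at h1
      simpa using h1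
    have shifts : ∀ (v : ℤ × ℤ) (c : ℤ), |v.1| ≤ n → |v.2| ≤ n →
        |c| * |t.1| ≤ n + 2 * m → |c| * |t.2| ≤ n + 2 * m →
        M.Psi d₀ (v + c • t) = M.Psi d₀ v := by
      intro v c hv1 hv2
      have small : ∀ c : ℤ, |c| * |t.1| ≤ n + 2 * m → |c| * |t.2| ≤ n + 2 * m →
          |(v + c • t).1| + |(v + c • t).2| ≤ 16 * (n : ℤ) := by
        intro c h1 h2
        have h3 := abs_add_le v.1 (c * t.1)
        have h4 := abs_add_le v.2 (c * t.2)
        rw [abs_mul] at h3 h4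
        simp only [Prod.fst_add, Prod.snd_add, Prod.smul_fst, Prod.smul_snd, smul_eq_mul]
        linarith
      induction c using Int.induction_on with
      | zero => intro _ _; simp
      | succ c ih =>
        intro h1 h2
        have hc : |(c : ℤ)| ≤ |(c : ℤ) + 1| := by
          rw [abs_of_nonneg (by omega), abs_of_nonneg (by omega)]; omega
        have h1' : |(c : ℤ)| * |t.1| ≤ n + 2 * m :=
          (mul_le_mul_of_nonneg_right hc (abs_nonneg _)).trans h1
        have h2' : |(c : ℤ)| * |t.2| ≤ n + 2 * m :=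
          (mul_le_mul_of_nonneg_right hc (abs_nonneg _)).trans h2
        rw [← ih h1' h2', ← shift _ (small c h1' h2')]
        congr 1
        rw [add_smul, one_smul, add_assoc]
      | pred c ih =>
        intro h1 h2
        have hc : |(-(c : ℤ))| ≤ |-(c : ℤ) - 1| := by
          rw [abs_of_nonpos (by omega), abs_of_nonpos (by omega)]; omega
        have h1' : |(-(c : ℤ))| * |t.1| ≤ n + 2 * m :=
          (mul_le_mul_of_nonneg_right hc (abs_nonneg _)).trans h1
        have h2' : |(-(c : ℤ))| * |t.2| ≤ n + 2 * m :=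
          (mul_le_mul_of_nonneg_right hc (abs_nonneg _)).trans h2
        rw [← ih h1' h2', ← shift _ (small _ h1 h2)]
        congr 1
        rw [sub_smul, one_smul]; abel
    -- the image of a small box contains the ball
    have bigcase : ∀ F : Finset (ℤ × ℤ), F.card ≤ 18 * m * n →
        (∀ v : ℤ × ℤ, |v.1| ≤ n → |v.2| ≤ n → ∃ w ∈ F, M.Psi d₀ w = M.Psi d₀ v) → False := by
      intro F hF hcov
      have hsub : reach M.A (M.tail d₀) n ⊆ (fun w => M.pt d₀ w) '' (F : Set (ℤ × ℤ)) := by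
        intro i hi
        obtain ⟨v, hv1, hv2, hv3⟩ := M.reach_subset hN (by omega) hi
        obtain ⟨w, hw, hw2⟩ := hcov v hv1 hv2
        exact ⟨w, hw, by simp only [pt, hw2]; exact hv3⟩
      have h1 := Set.ncard_le_ncard hsub ((F.finite_toSet).image _)
      have h2 := Set.ncard_image_le (f := fun w => M.pt d₀ w) F.finite_toSet
      rw [Set.ncard_coe_finset] at h2
      have h3 : 18 * m * n ≤ 60 * m * n := by
        have : 0 ≤ m * n := Nat.zero_le _
        nlinarith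
      omega
    have hcardF : (2 * m) * (4 * n + 4 * m + 1) ≤ 18 * m * n := by nlinarith
    have hI1 : (Finset.Ico (0 : ℤ) (2 * m)).card = 2 * m := by
      rw [Int.card_Ico]; omega
    have hI2 : (Finset.Icc (-(2 * (n : ℤ) + 2 * m)) (2 * n + 2 * m)).card = 4 * n + 4 * m + 1 := by
      rw [Int.card_Icc]; omega
    rcases le_total |t.2| |t.1| with hle | hle
    · have hs0 : t.1 ≠ 0 := by
        intro h0
        rw [h0, abs_zero, abs_nonpos_iff] at hle
        exact ht0 (Prod.ext h0 hle)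
      refine bigcase (Finset.Ico (0 : ℤ) (2 * m) ×ˢ
        Finset.Icc (-(2 * (n : ℤ) + 2 * m)) (2 * n + 2 * m)) ?_ ?_
      · rw [Finset.card_product, hI1, hI2]; exact hcardF
      · intro v hv1 hv2
        obtain ⟨c, hc1, hc2, hc3, hc4⟩ := exists_reduce hs0 hle ht1 hv1 hv2
        refine ⟨v + c • t, ?_, shifts v c hv1 hv2 hc4
          ((mul_le_mul_of_nonneg_left hle (abs_nonneg _)).trans hc4)⟩
        rw [Finset.mem_product, Finset.mem_Ico, Finset.mem_Icc]
        rw [abs_le] at hc3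
        simp only [Prod.fst_add, Prod.snd_add, Prod.smul_fst, Prod.smul_snd, smul_eq_mul]
        exact ⟨⟨hc1, hc2⟩, hc3⟩
    · have hs0 : t.2 ≠ 0 := by
        intro h0
        rw [h0, abs_zero, abs_nonpos_iff] at hle
        exact ht0 (Prod.ext hle h0)
      refine bigcase (Finset.Icc (-(2 * (n : ℤ) + 2 * m)) (2 * n + 2 * m) ×ˢ
        Finset.Ico (0 : ℤ) (2 * m)) ?_ ?_
      · rw [Finset.card_product, hI1, hI2, mul_comm]; exact hcardF
      · intro v hv1 hv2
        obtain ⟨c, hc1, hc2, hc3, hc4⟩ := exists_reduce hs0 hle ht2 hv2 hv1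
        refine ⟨v + c • t, ?_, shifts v c hv1 hv2
          ((mul_le_mul_of_nonneg_left hle (abs_nonneg _)).trans hc4) hc4⟩
        rw [Finset.mem_product, Finset.mem_Ico, Finset.mem_Icc]
        rw [abs_le] at hc3
        simp only [Prod.fst_add, Prod.snd_add, Prod.smul_fst, Prod.smul_snd, smul_eq_mul]
        exact ⟨hc3, ⟨hc1, hc2⟩⟩
  · -- rotation
    obtain ⟨v, hv, hcase⟩ := exists_fix hj hk6 t hmz ht1 ht2
    have h1 := M.transport hex (p := p) (q := q) hk6 hk.symm (7 * n)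
      (by push_cast; linarith) (by push_cast; linarith) v (by push_cast; linarith)
    set b : ℤ × ℤ := p + rotn j v with hb
    have hbn : |b.1| + |b.2| + 2 ≤ N := by
      have h2 := norm_add p (rotn j v)
      have h3 := rotn_abs hk6 v
      rw [hb]; linarith
    have hexb : M.Hex (M.tail (M.Psi d₀ b)) := hex b (by linarith)
    rcases hcase with hc | ⟨k', hk', hc⟩
    · have e1 : q + v = b := by rw [hqt, hb, ← hc]; abel
      rw [e1] at h1
      exact (hexb _ rfl).2 j hj hk6 h1.symm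
    · have e1 : q + v = b + dir k' := by rw [hqt, hb, add_assoc, hc]; abel
      rw [e1] at h1
      have h2 := M.neighbours hN hbn hk'
      have h3 : M.pt d₀ (b + dir k') = M.tail (M.Psi d₀ b) := by
        rw [pt, h1, tail_rho_pow]
      rw [h3] at h2
      refine M.loopless ((M.rho ^ k') (M.Psi d₀ b)) ?_
      rw [h2, tail_rho_pow]

end CMap

end Gold
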