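import Pool.Agent.Lib.H81.Gold.Vec
import Pool.Agent.Lib.H81.Gold.CMap

/-!
# The face structure of a simple circumscribed polytope (chunk D)
-/

noncomputable section

open MeasureTheory Metric Set
open scoped RealInnerProductSpace

namespace Gold

/-- expansion of a vector orthogonal to `a` and `b` -/
theorem expand_cr {a b w : E3} (ha : ⟪a, w⟫ = 0) (hb : ⟪b, w⟫ = 0) :
    (‖cr a b‖ ^ 2) • w = ⟪cr a b, w⟫ • cr a b := by
  rw [normsq3, inner3 (cr a b)]
  rw [inner3] at ha hb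
  ext i
  fin_cases i
  · simp only [Fin.zero_eta, PiLp.smul_apply, cr_0, cr_1, cr_2, smul_eq_mul]
    linear_combination (-((a 2 * b 0 - a 0 * b 2) * b 2 - (a 0 * b 1 - a 1 * b 0) * b 1)) * ha +
      ((a 2 * b 0 - a 0 * b 2) * a 2 - (a 0 * b 1 - a 1 * b 0) * a 1) * hb
  · simp only [Fin.mk_one, PiLp.smul_apply, cr_0, cr_1, cr_2, smul_eq_mul]
    linear_combination (-((a 0 * b 1 - a 1 * b 0) * b 0 - (a 1 * b 2 - a 2 * b 1) * b 2)) * ha +
      ((a 0 * b 1 - a 1 * b 0) * a 0 - (a 1 * b 2 - a 2 * b 1) * a 2) * hb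
  · simp only [Fin.reduceFinMk, PiLp.smul_apply, cr_0, cr_1, cr_2, smul_eq_mul]
    linear_combination (-((a 1 * b 2 - a 2 * b 1) * b 1 - (a 2 * b 0 - a 0 * b 2) * b 0)) * ha +
      ((a 1 * b 2 - a 2 * b 1) * a 1 - (a 2 * b 0 - a 0 * b 2) * a 0) * hb

/-- a vector orthogonal to three independent vectors vanishes -/
theorem eq_zero_of_det3 {a b c w : E3} (h : det3 a b c ≠ 0) (ha : ⟪a, w⟫ = 0)
    (hb : ⟪b, w⟫ = 0) (hc : ⟪c, w⟫ = 0) : w = 0 := by
  have h1 := expand_cr ha hb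
  have h2 : ⟪cr a b, c⟫ ≠ 0 := by rw [inner_cr_left]; exact h
  have h3 : cr a b ≠ 0 := by
    intro h0
    rw [h0, inner_zero_left] at h2
    exact h2 rfl
  have h4 : (‖cr a b‖ ^ 2) ≠ 0 := pow_ne_zero _ (norm_ne_zero_iff.2 h3)
  have h5 : ⟪c, (‖cr a b‖ ^ 2) • w⟫ = 0 := by rw [inner_smul_right, hc, mul_zero]
  rw [h1, inner_smul_right] at h5
  rcases mul_eq_zero.1 h5 with h6 | h6
  · rw [h6, zero_smul] at h1
    exact (smul_eq_zero.1 h1).resolve_left h4
  · rw [real_inner_comm] at h6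
    exact absurd h6 h2

variable {f : ℕ} {u : Fin f → E3}

theorem Adj.symm {i j : Fin f} (h : Adj u i j) : Adj u j i :=
  ⟨h.1.symm, h.2.imp fun _ hx => ⟨hx.1, hx.2.2, hx.2.1⟩⟩

theorem IsCorner.rot {i j k : Fin f} (h : IsCorner u i j k) : IsCorner u j k i :=
  ⟨by rw [det3_rot]; exact h.1, h.2.imp fun _ hx => ⟨hx.1, hx.2.2.1, hx.2.2.2, hx.2.1⟩⟩

theorem IsCorner.ne {i j k : Fin f} (h : IsCorner u i j k) : i ≠ j := by
  rintro rfl
  have := h.1
  have h2 : det3 (u i) (u i) (u k) = 0 := by simp [det3]; ring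
  linarith

theorem IsCorner.adj {i j k : Fin f} (h : IsCorner u i j k) : Adj u i j :=
  ⟨h.ne, h.2.imp fun _ hx => ⟨hx.1, hx.2.1, hx.2.2.1⟩⟩

/-- The cross product of the normals of two adjacent faces does not vanish. -/
theorem cr_ne_zero (hc : IsConfig u) {i j : Fin f} (h : Adj u i j) : cr (u i) (u j) ≠ 0 := by
  intro h0
  have h1 := normsq_cr (u i) (u j)
  rw [h0, hc.unit, hc.unit, norm_zero] at h1
  have h2 : ⟪u i, u j⟫ ^ 2 = 1 := by nlinarith
  have h3 : ⟪u i, u j⟫ ≠ 1 := by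
    intro h3
    exact h.1 (hc.inj ((inner_eq_one_iff_of_norm_eq_one (hc.unit i) (hc.unit j)).1 h3))
  have h4 : ⟪u i, u j⟫ = -1 := by
    rcases sq_eq_one_iff.1 h2 with h5 | h5
    · exact absurd h5 h3
    · exact h5
  have h5 : u i = -u j := by
    have : ⟪u i, -u j⟫ = 1 := by rw [inner_neg_right, h4, neg_neg]
    exact (inner_eq_one_iff_of_norm_eq_one (hc.unit i) (by rw [norm_neg]; exact hc.unit j)).1 this
  obtain ⟨x, -, hx1, hx2⟩ := h.2
  rw [h5, inner_neg_left, hx2] at hx1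
  norm_num at hx1

/-- From a point of the polytope one can move in every direction which is feasible for the
active constraints. -/
theorem exists_move {x d : E3} (hx : x ∈ Poly u) (h : ∀ k, ⟪u k, x⟫ = 1 → ⟪u k, d⟫ ≤ 0) :
    ∃ ε : ℝ, 0 < ε ∧ x + ε • d ∈ Poly u := by
  have h1 : ∀ k : Fin f, ∀ᶠ ε : ℝ in nhdsWithin 0 (Ioi 0), ⟪u k, x + ε • d⟫ ≤ 1 := by
    intro k
    by_cases hk : ⟪u k, x⟫ = 1
    · filter_upwards [self_mem_nhdsWithin] with ε hε
      rw [inner_add_right, inner_smul_right, hk]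
      have := h k hk
      have hε' : (0 : ℝ) < ε := hε
      nlinarith
    · have hlt : ⟪u k, x⟫ < 1 := lt_of_le_of_ne (hx k) hk
      have hcont : Continuous fun ε : ℝ => ⟪u k, x + ε • d⟫ := by fun_prop
      have h2 : ∀ᶠ ε : ℝ in nhds 0, ⟪u k, x + ε • d⟫ < 1 := by
        apply hcont.continuousAt.eventually_lt continuousAt_const
        simpa using hlt
      filter_upwards [nhdsWithin_le_nhds h2] with ε hε using hε.le
  have h2 := Filter.eventually_all.2 h1
  obtain ⟨ε, hε, h3⟩ := (h2.and self_mem_nhdsWithin).exists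
  exact ⟨ε, h3, hε⟩

theorem isClosed_Poly (u : Fin f → E3) : IsClosed (Poly u) := by
  have : Poly u = ⋂ i, {x | ⟪u i, x⟫ ≤ 1} := by ext x; simp [Poly]
  rw [this]
  exact isClosed_iInter fun i => isClosed_le (by fun_prop) continuous_const

theorem isCompact_Poly (hc : IsConfig u) : IsCompact (Poly u) :=
  Metric.isCompact_of_isClosed_isBounded (isClosed_Poly u) hc.bdd

theorem convex_Poly (u : Fin f → E3) : Convex ℝ (Poly u) := by
  intro x hx y hy a b ha hb hab i
  rw [inner_add_right, inner_smul_right, inner_smul_right]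
  have := hx i
  have := hy i
  nlinarith

/-- The edge `i j` as a point set. -/
def edge (u : Fin f → E3) (i j : Fin f) : Set E3 := {x | x ∈ Poly u ∧ ⟪u i, x⟫ = 1 ∧ ⟪u j, x⟫ = 1}

theorem isCompact_edge (hc : IsConfig u) (i j : Fin f) : IsCompact (edge u i j) := by
  have : edge u i j = Poly u ∩ ({x | ⟪u i, x⟫ = 1} ∩ {x | ⟪u j, x⟫ = 1}) := rfl
  rw [this]
  exact (isCompact_Poly hc).inter_right ((isClosed_eq (by fun_prop) continuous_const).inter
    (isClosed_eq (by fun_prop) continuous_const))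

/-- Points of the same edge differ by a multiple of the cross product. -/
theorem edge_diff (hc : IsConfig u) {i j : Fin f} (h : Adj u i j) {x y : E3}
    (hx : x ∈ edge u i j) (hy : y ∈ edge u i j) : ∃ t : ℝ, y = x + t • cr (u i) (u j) := by
  have h1 : ⟪u i, y - x⟫ = 0 := by rw [inner_sub_right, hx.2.1, hy.2.1, sub_self]
  have h2 : ⟪u j, y - x⟫ = 0 := by rw [inner_sub_right, hx.2.2, hy.2.2, sub_self]
  have h3 := expand_cr h1 h2
  have h4 : (‖cr (u i) (u j)‖ ^ 2) ≠ 0 := pow_ne_zero _ (norm_ne_zero_iff.2 (cr_ne_zero hc h))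
  refine ⟨(‖cr (u i) (u j)‖ ^ 2)⁻¹ * ⟪cr (u i) (u j), y - x⟫, ?_⟩
  rw [mul_smul, ← h3, smul_smul, inv_mul_cancel₀ h4, one_smul]
  abel

theorem exists_corner (hc : IsConfig u) {i j : Fin f} (h : Adj u i j) :
    ∃ k, IsCorner u i j k := by
  obtain ⟨v, hv, hmax⟩ := (isCompact_edge hc i j).exists_isMaxOn
    (by obtain ⟨x, hx⟩ := h.2; exact ⟨x, hx⟩)
    (f := fun x => ⟪cr (u i) (u j), x⟫) (by fun_prop)
  by_contra hno
  push Not at hno
  obtain ⟨ε, hε, hmem⟩ := exists_move (d := cr (u i) (u j)) hv.1 (fun k hk => by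
    by_contra hlt
    push Not at hlt
    rw [real_inner_comm, inner_cr_left] at hlt
    exact hno k ⟨hlt, v, hv.1, hv.2.1, hv.2.2, hk⟩)
  have h1 : v + ε • cr (u i) (u j) ∈ edge u i j := by
    refine ⟨hmem, ?_, ?_⟩
    · rw [inner_add_right, inner_smul_right, inner_cr_right, hv.2.1]
      simp [det3]; right; ring
    · rw [inner_add_right, inner_smul_right, inner_cr_right, hv.2.2]
      simp [det3]; right; ring
  have h2 := hmax h1
  simp only [mem_ofPred_eq, inner_add_right, inner_smul_right, real_inner_self_eq_norm_sq] at h2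
  have h3 : 0 < ‖cr (u i) (u j)‖ ^ 2 := by
    have := norm_pos_iff.2 (cr_ne_zero hc h)
    positivity
  nlinarith

/-- The point of a corner is extreme on the edge. -/
theorem corner_extreme {i j k : Fin f} (hk : 0 < det3 (u i) (u j) (u k)) {x : E3}
    (hx : ⟪u k, x⟫ = 1) {t : ℝ} (hy : x + t • cr (u i) (u j) ∈ Poly u) : t ≤ 0 := by
  have h1 := hy k
  rw [inner_add_right, inner_smul_right, hx, inner_cr_right, det3_rot, det3_rot] at h1
  by_contra h
  push Not at h
  have := mul_pos h hk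
  linarith

theorem corner_pt_unique {i j k : Fin f} (hk : det3 (u i) (u j) (u k) ≠ 0) {x y : E3}
    (hx1 : ⟪u i, x⟫ = 1) (hx2 : ⟪u j, x⟫ = 1) (hx3 : ⟪u k, x⟫ = 1)
    (hy1 : ⟪u i, y⟫ = 1) (hy2 : ⟪u j, y⟫ = 1) (hy3 : ⟪u k, y⟫ = 1) : x = y := by
  have := eq_zero_of_det3 hk (w := x - y) (by rw [inner_sub_right, hx1, hy1, sub_self])
    (by rw [inner_sub_right, hx2, hy2, sub_self]) (by rw [inner_sub_right, hx3, hy3, sub_self])
  exact sub_eq_zero.1 this

theorem card_le_three (hs : IsSimple u) {x : E3} (hx : x ∈ Poly u) (s : Finset (Fin f))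
    (h : ∀ a ∈ s, ⟪u a, x⟫ = 1) : s.card ≤ 3 := by
  rw [← Set.ncard_coe_finset]
  exact (Set.ncard_le_ncard (fun a ha => h a ha) (Set.toFinite _)).trans (hs x hx)

theorem active_cases (hs : IsSimple u) {x : E3} (hx : x ∈ Poly u) {i j k l : Fin f}
    (hij : i ≠ j) (hjk : j ≠ k) (hki : k ≠ i) (h1 : ⟪u i, x⟫ = 1) (h2 : ⟪u j, x⟫ = 1)
    (h3 : ⟪u k, x⟫ = 1) (h4 : ⟪u l, x⟫ = 1) : l = i ∨ l = j ∨ l = k := by
  by_contra hno
  push Not at hno
  obtain ⟨n1, n2, n3⟩ := hno
  have hcard := card_le_three hs hx ({i, j, k, l} : Finset (Fin f)) (by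
    intro a ha
    simp only [Finset.mem_insert, Finset.mem_singleton] at ha
    rcases ha with rfl | rfl | rfl | rfl <;> assumption)
  rw [Finset.card_insert_of_notMem (by simp [hij, hki.symm, n1.symm]),
    Finset.card_insert_of_notMem (by simp [hjk, n2.symm]),
    Finset.card_insert_of_notMem (by simp [n3.symm]), Finset.card_singleton] at hcard
  omega

/-- Each edge has exactly one end whose third face is on the positive side. -/
theorem exists_unique_corner (hc : IsConfig u) (hs : IsSimple u) {i j : Fin f}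
    (h : Adj u i j) : ∃! k, IsCorner u i j k := by
  obtain ⟨k, hk⟩ := exists_corner hc h
  refine ⟨k, hk, fun k' hk' => ?_⟩
  obtain ⟨x, hx, hx1, hx2, hx3⟩ := hk.2
  obtain ⟨y, hy, hy1, hy2, hy3⟩ := hk'.2
  obtain ⟨t, ht⟩ := edge_diff hc h (x := x) (y := y) ⟨hx, hx1, hx2⟩ ⟨hy, hy1, hy2⟩
  have h1 : t ≤ 0 := corner_extreme hk.1 hx3 (by rw [← ht]; exact hy)
  have h2 : -t ≤ 0 := corner_extreme hk'.1 hy3 (by
    have : y + (-t) • cr (u i) (u j) = x := by rw [ht]; module
    rw [this]; exact hx)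
  have h3 : t = 0 := by linarith
  have h4 : y = x := by rw [ht, h3]; simp
  rw [h4] at hy3
  rcases active_cases hs hx hk.ne hk.rot.ne hk.rot.rot.ne hx1 hx2 hx3 hy3 with h5 | h5 | h5
  · exact absurd h5 hk'.rot.rot.ne
  · exact absurd h5.symm hk'.rot.ne
  · exact h5

/-- The third face at the positive end of the edge `i j`. -/
def third (hc : IsConfig u) (hs : IsSimple u) {i j : Fin f} (h : Adj u i j) : Fin f :=
  (exists_unique_corner hc hs h).choose

theorem third_spec (hc : IsConfig u) (hs : IsSimple u) {i j : Fin f} (h : Adj u i j) :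
    IsCorner u i j (third hc hs h) := (exists_unique_corner hc hs h).choose_spec.1

theorem third_eq (hc : IsConfig u) (hs : IsSimple u) {i j k : Fin f} (h : Adj u i j)
    (hk : IsCorner u i j k) : third hc hs h = k :=
  ((exists_unique_corner hc hs h).choose_spec.2 k hk).symm

/-- Darts: ordered pairs of adjacent faces. -/
abbrev Dart {f : ℕ} (u : Fin f → E3) : Type := {p : Fin f × Fin f // Adj u p.1 p.2}

/-- Reversal of darts. -/
def sigE (u : Fin f → E3) : Equiv.Perm (Dart u) where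
  toFun d := ⟨(d.1.2, d.1.1), d.2.symm⟩
  invFun d := ⟨(d.1.2, d.1.1), d.2.symm⟩
  left_inv _ := rfl
  right_inv _ := rfl

/-- Rotation of darts about the tail. -/
def rhoF (hc : IsConfig u) (hs : IsSimple u) (d : Dart u) : Dart u :=
  ⟨(d.1.1, third hc hs d.2), (third_spec hc hs d.2).rot.rot.adj.symm⟩

/-- Inverse rotation of darts about the tail. -/
def rhoG (hc : IsConfig u) (hs : IsSimple u) (d : Dart u) : Dart u :=
  ⟨(d.1.1, third hc hs d.2.symm), (third_spec hc hs d.2.symm).rot.adj⟩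

theorem rhoG_rhoF (hc : IsConfig u) (hs : IsSimple u) (d : Dart u) :
    rhoG hc hs (rhoF hc hs d) = d := by
  apply Subtype.ext
  refine Prod.ext rfl ?_
  exact third_eq hc hs (rhoF hc hs d).2.symm (third_spec hc hs d.2).rot.rot

theorem rhoF_rhoG (hc : IsConfig u) (hs : IsSimple u) (d : Dart u) :
    rhoF hc hs (rhoG hc hs d) = d := by
  apply Subtype.ext
  refine Prod.ext rfl ?_
  exact third_eq hc hs (rhoG hc hs d).2 (third_spec hc hs d.2.symm).rot

/-- Rotation of darts about the tail, as a permutation. -/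
def rhoE (hc : IsConfig u) (hs : IsSimple u) : Equiv.Perm (Dart u) where
  toFun := rhoF hc hs
  invFun := rhoG hc hs
  left_inv := rhoG_rhoF hc hs
  right_inv := rhoF_rhoG hc hs

theorem rho_inv (hc : IsConfig u) (hs : IsSimple u) (d : Dart u) :
    rhoE hc hs ((rhoE hc hs)⁻¹ d) = d := (rhoE hc hs).apply_symm_apply d

theorem inv_rho (hc : IsConfig u) (hs : IsSimple u) (d : Dart u) :
    (rhoE hc hs)⁻¹ (rhoE hc hs d) = d := (rhoE hc hs).symm_apply_apply d

theorem rs3E (hc : IsConfig u) (hs : IsSimple u) (d : Dart u) :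
    rhoE hc hs (sigE u (rhoE hc hs (sigE u (rhoE hc hs (sigE u d))))) = d := by
  obtain ⟨⟨i, j⟩, h⟩ := d
  have h1 := third_spec hc hs h.symm
  set k := third hc hs h.symm with hk
  have e1 : rhoE hc hs (sigE u ⟨(i, j), h⟩) = ⟨(j, k), h1.rot.rot.adj.symm⟩ := rfl
  have e2 : rhoE hc hs (sigE u ⟨(j, k), h1.rot.rot.adj.symm⟩) =
      ⟨(k, i), h1.rot.adj.symm⟩ := by
    apply Subtype.ext
    refine Prod.ext rfl ?_
    exact third_eq hc hs h1.rot.rot.adj h1.rot.rot
  have e3 : rhoE hc hs (sigE u ⟨(k, i), h1.rot.adj.symm⟩) = ⟨(i, j), h⟩ := by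
    apply Subtype.ext
    refine Prod.ext rfl ?_
    exact third_eq hc hs h1.rot.adj h1.rot
  rw [e1, e2, e3]

/-- The vertex at the positive end of the edge of `d`. -/
def vtx (hc : IsConfig u) (hs : IsSimple u) (d : Dart u) : E3 :=
  (third_spec hc hs d.2).2.choose

theorem vtx_mem (hc : IsConfig u) (hs : IsSimple u) (d : Dart u) : vtx hc hs d ∈ Poly u :=
  (third_spec hc hs d.2).2.choose_spec.1

theorem vtx_tail (hc : IsConfig u) (hs : IsSimple u) (d : Dart u) :
    ⟪u d.1.1, vtx hc hs d⟫ = 1 :=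
  (third_spec hc hs d.2).2.choose_spec.2.1

theorem vtx_head (hc : IsConfig u) (hs : IsSimple u) (d : Dart u) :
    ⟪u d.1.2, vtx hc hs d⟫ = 1 :=
  (third_spec hc hs d.2).2.choose_spec.2.2.1

theorem vtx_third (hc : IsConfig u) (hs : IsSimple u) (d : Dart u) :
    ⟪u (rhoE hc hs d).1.2, vtx hc hs d⟫ = 1 :=
  (third_spec hc hs d.2).2.choose_spec.2.2.2

theorem det_third (hc : IsConfig u) (hs : IsSimple u) (d : Dart u) :
    0 < det3 (u d.1.1) (u d.1.2) (u (rhoE hc hs d).1.2) :=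
  (third_spec hc hs d.2).1

theorem vtx_unique (hc : IsConfig u) (hs : IsSimple u) (d : Dart u) {x : E3}
    (h1 : ⟪u d.1.1, x⟫ = 1) (h2 : ⟪u d.1.2, x⟫ = 1) (h3 : ⟪u (rhoE hc hs d).1.2, x⟫ = 1) :
    vtx hc hs d = x :=
  corner_pt_unique (det_third hc hs d).ne' (vtx_tail hc hs d) (vtx_head hc hs d)
    (vtx_third hc hs d) h1 h2 h3

/-- Both ends of an edge. -/
theorem vtx_sig (hc : IsConfig u) (hs : IsSimple u) (d : Dart u) :
    vtx hc hs (sigE u d) = vtx hc hs ((rhoE hc hs)⁻¹ d) := by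
  apply vtx_unique
  · exact (by
      have := vtx_third hc hs ((rhoE hc hs)⁻¹ d)
      rw [rho_inv] at this
      exact this)
  · exact vtx_tail hc hs ((rhoE hc hs)⁻¹ d)
  · exact vtx_head hc hs ((rhoE hc hs)⁻¹ d)

/-- The faces through the vertex of `d`. -/
theorem active_vtx (hc : IsConfig u) (hs : IsSimple u) (d : Dart u) :
    {i | ⟪u i, vtx hc hs d⟫ = 1} = {d.1.1, d.1.2, (rhoE hc hs d).1.2} := by
  have hk : IsCorner u d.1.1 d.1.2 (rhoE hc hs d).1.2 := third_spec hc hs d.2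
  ext l
  simp only [mem_ofPred_eq, mem_insert_iff, mem_singleton_iff]
  constructor
  · intro hl
    exact active_cases hs (vtx_mem hc hs d) hk.ne hk.rot.ne hk.rot.rot.ne (vtx_tail hc hs d)
      (vtx_head hc hs d) (vtx_third hc hs d) hl
  · rintro (rfl | rfl | rfl)
    · exact vtx_tail hc hs d
    · exact vtx_head hc hs d
    · exact vtx_third hc hs d

/-- Vertex vectors relative to the touching point of the tail face. -/
def wv (hc : IsConfig u) (hs : IsSimple u) (d : Dart u) : E3 := vtx hc hs d - u d.1.1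

theorem inner_wv (hc : IsConfig u) (hs : IsSimple u) (d : Dart u) :
    ⟪u d.1.1, wv hc hs d⟫ = 0 := by
  rw [wv, inner_sub_right, vtx_tail, real_inner_self_eq_norm_sq, hc.unit]; norm_num

/-- The other end of an edge is on the negative side. -/
theorem vtx_inv_eq (hc : IsConfig u) (hs : IsSimple u) (d : Dart u) :
    ∃ t : ℝ, t < 0 ∧ vtx hc hs ((rhoE hc hs)⁻¹ d) =
      vtx hc hs d + t • cr (u d.1.1) (u d.1.2) := by
  have hp : vtx hc hs ((rhoE hc hs)⁻¹ d) ∈ edge u d.1.1 d.1.2 := by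
    rw [← vtx_sig]
    exact ⟨vtx_mem hc hs _, vtx_head hc hs (sigE u d), vtx_tail hc hs (sigE u d)⟩
  obtain ⟨t, ht⟩ := edge_diff hc d.2 ⟨vtx_mem hc hs d, vtx_tail hc hs d, vtx_head hc hs d⟩ hp
  have h1 : t ≤ 0 := corner_extreme (det_third hc hs d) (vtx_third hc hs d)
    (by rw [← ht]; exact vtx_mem hc hs _)
  refine ⟨t, lt_of_le_of_ne h1 ?_, ht⟩
  rintro rfl
  rw [zero_smul, add_zero, ← vtx_sig] at ht
  have hk : IsCorner u d.1.1 d.1.2 (rhoE hc hs d).1.2 := third_spec hc hs d.2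
  have hk' : IsCorner u d.1.2 d.1.1 (rhoE hc hs (sigE u d)).1.2 := third_spec hc hs d.2.symm
  have h2 := vtx_third hc hs (sigE u d)
  rw [ht] at h2
  rcases active_cases hs (vtx_mem hc hs d) hk.ne hk.rot.ne hk.rot.rot.ne (vtx_tail hc hs d)
      (vtx_head hc hs d) (vtx_third hc hs d) h2 with h3 | h3 | h3
  · exact hk'.rot.ne h3.symm
  · exact hk'.rot.rot.ne h3
  · have h4 := hk.1
    have h5 := hk'.1
    rw [h3, det3_swap] at h5
    linarith

/-- Positive orientation of the triangle over the edge of `d`. -/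
theorem det_pos (hc : IsConfig u) (hs : IsSimple u) (d : Dart u) :
    0 < det3 (u d.1.1) (vtx hc hs ((rhoE hc hs)⁻¹ d)) (vtx hc hs d) := by
  obtain ⟨t, ht, h⟩ := vtx_inv_eq hc hs d
  rw [h]
  have e : det3 (u d.1.1) (vtx hc hs d + t • cr (u d.1.1) (u d.1.2)) (vtx hc hs d) =
      t * (⟪u d.1.1, u d.1.2⟫ * ⟪u d.1.1, vtx hc hs d⟫ -
        ‖u d.1.1‖ ^ 2 * ⟪u d.1.2, vtx hc hs d⟫) := by
    rw [normsq3, inner3, inner3, inner3]
    simp only [det3, PiLp.add_apply, PiLp.smul_apply, cr_0, cr_1, cr_2, smul_eq_mul]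
    ring
  rw [e, vtx_tail, vtx_head, hc.unit]
  have h2 : ⟪u d.1.1, u d.1.2⟫ < 1 := by
    refine lt_of_le_of_ne ?_ ?_
    · have := real_inner_le_norm (u d.1.1) (u d.1.2)
      rw [hc.unit, hc.unit] at this
      linarith
    · intro h3
      exact d.2.1 (hc.inj ((inner_eq_one_iff_of_norm_eq_one (hc.unit _) (hc.unit _)).1 h3))
  nlinarith

/-- The points of the face of `d.1.1` on the edge of `d` are the segment between the two
vertices. -/
theorem edge_eq_segment (hc : IsConfig u) (hs : IsSimple u) (d : Dart u) :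
    {x | x ∈ Poly u ∧ ⟪u d.1.1, x⟫ = 1 ∧ ⟪u d.1.2, x⟫ = 1} =
      segment ℝ (vtx hc hs ((rhoE hc hs)⁻¹ d)) (vtx hc hs d) := by
  obtain ⟨t, ht, h⟩ := vtx_inv_eq hc hs d
  apply Set.Subset.antisymm
  · intro x hx
    obtain ⟨s, hs1⟩ := edge_diff hc d.2 ⟨vtx_mem hc hs d, vtx_tail hc hs d, vtx_head hc hs d⟩ hx
    have h1 : s ≤ 0 := corner_extreme (det_third hc hs d) (vtx_third hc hs d)
      (by rw [← hs1]; exact hx.1)
    have h2 : s - t ≥ 0 := by
      have h3 : vtx hc hs (sigE u d) + (t - s) • cr (u (sigE u d).1.1) (u (sigE u d).1.2)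
          = x := by
        rw [vtx_sig, h, hs1]
        have : cr (u (sigE u d).1.1) (u (sigE u d).1.2) = - cr (u d.1.1) (u d.1.2) := by
          ext i
          fin_cases i <;> simp [sigE] <;> ring
        rw [this]
        module
      have h4 := corner_extreme (det_third hc hs (sigE u d)) (vtx_third hc hs (sigE u d))
        (t := t - s) (by rw [h3]; exact hx.1)
      linarith
    refine ⟨s / t, 1 - s / t, div_nonneg_of_nonpos h1 ht.le, ?_, by ring, ?_⟩
    · rw [sub_nonneg, div_le_one_of_neg ht]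
      linarith
    · rw [h, hs1, smul_add, smul_smul, div_mul_cancel₀ _ ht.ne]
      module
  · intro x hx
    have h1 : vtx hc hs ((rhoE hc hs)⁻¹ d) ∈ edge u d.1.1 d.1.2 := by
      rw [← vtx_sig]
      exact ⟨vtx_mem hc hs _, vtx_head hc hs (sigE u d), vtx_tail hc hs (sigE u d)⟩
    obtain ⟨a, b, ha, hb, hab, rfl⟩ := hx
    refine ⟨(convex_Poly u) h1.1 (vtx_mem hc hs d) ha hb hab, ?_, ?_⟩
    · rw [inner_add_right, inner_smul_right, inner_smul_right, h1.2.1, vtx_tail]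
      linarith
    · rw [inner_add_right, inner_smul_right, inner_smul_right, h1.2.2, vtx_head]
      linarith

/-- The face `i` as a point set. -/
def face (u : Fin f → E3) (i : Fin f) : Set E3 := {x | x ∈ Poly u ∧ ⟪u i, x⟫ = 1}

theorem vtx_mem_face (hc : IsConfig u) (hs : IsSimple u) (d : Dart u) :
    vtx hc hs d ∈ face u d.1.1 := ⟨vtx_mem hc hs d, vtx_tail hc hs d⟩

theorem vtx_inv_mem_face (hc : IsConfig u) (hs : IsSimple u) (d : Dart u) :
    vtx hc hs ((rhoE hc hs)⁻¹ d) ∈ face u d.1.1 :=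
  ⟨vtx_mem hc hs _, vtx_tail hc hs ((rhoE hc hs)⁻¹ d)⟩

theorem head_vtx_inv (hc : IsConfig u) (hs : IsSimple u) (d : Dart u) :
    ⟪u d.1.2, vtx hc hs ((rhoE hc hs)⁻¹ d)⟫ = 1 := by
  rw [← vtx_sig]
  exact vtx_tail hc hs (sigE u d)

theorem third_vtx_inv_lt (hc : IsConfig u) (hs : IsSimple u) (d : Dart u) :
    ⟪u (rhoE hc hs d).1.2, vtx hc hs ((rhoE hc hs)⁻¹ d)⟫ < 1 := by
  obtain ⟨t, ht, h⟩ := vtx_inv_eq hc hs d
  rw [h, inner_add_right, inner_smul_right, vtx_third, inner_cr_right, det3_rot, det3_rot]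
  have := mul_neg_of_neg_of_pos ht (det_third hc hs d)
  linarith

theorem head_vtx_rho_lt (hc : IsConfig u) (hs : IsSimple u) (d : Dart u) :
    ⟪u d.1.2, vtx hc hs (rhoE hc hs d)⟫ < 1 := by
  obtain ⟨t, ht, h⟩ := vtx_inv_eq hc hs (rhoE hc hs d)
  rw [inv_rho] at h
  have h1 := congrArg (fun z => ⟪u d.1.2, z⟫) h
  simp only [inner_add_right, inner_smul_right, vtx_head, inner_cr_right] at h1
  have h2 : det3 (u d.1.2) (u (rhoE hc hs d).1.1) (u (rhoE hc hs d).1.2) < 0 := by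
    have h3 := det_third hc hs d
    rw [det3_swap] at h3
    exact neg_pos.1 h3
  have := mul_pos_of_neg_of_neg ht h2
  linarith

/-- The face is contained in the cone spanned by two consecutive edges. -/
theorem face_cone (hc : IsConfig u) (hs : IsSimple u) (d : Dart u) {x : E3}
    (hx : x ∈ face u d.1.1) : ∃ α β : ℝ, 0 ≤ α ∧ 0 ≤ β ∧
      x - vtx hc hs d = α • (vtx hc hs ((rhoE hc hs)⁻¹ d) - vtx hc hs d) +
        β • (vtx hc hs (rhoE hc hs d) - vtx hc hs d) := by
  have h1 : ⟪u (rhoE hc hs d).1.2, vtx hc hs ((rhoE hc hs)⁻¹ d) - vtx hc hs d⟫ < 0 := by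
    rw [inner_sub_right, vtx_third]
    linarith [third_vtx_inv_lt hc hs d]
  have h2 : ⟪u d.1.2, vtx hc hs (rhoE hc hs d) - vtx hc hs d⟫ < 0 := by
    rw [inner_sub_right, vtx_head]
    linarith [head_vtx_rho_lt hc hs d]
  have h3 : ⟪u (rhoE hc hs d).1.2, x - vtx hc hs d⟫ ≤ 0 := by
    rw [inner_sub_right, vtx_third]
    linarith [hx.1 (rhoE hc hs d).1.2]
  have h4 : ⟪u d.1.2, x - vtx hc hs d⟫ ≤ 0 := by
    rw [inner_sub_right, vtx_head]
    linarith [hx.1 d.1.2]
  refine ⟨⟪u (rhoE hc hs d).1.2, x - vtx hc hs d⟫ /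
      ⟪u (rhoE hc hs d).1.2, vtx hc hs ((rhoE hc hs)⁻¹ d) - vtx hc hs d⟫,
    ⟪u d.1.2, x - vtx hc hs d⟫ / ⟪u d.1.2, vtx hc hs (rhoE hc hs d) - vtx hc hs d⟫,
    div_nonneg_of_nonpos h3 h1.le, div_nonneg_of_nonpos h4 h2.le, ?_⟩
  rw [← sub_eq_zero]
  apply eq_zero_of_det3 (det_third hc hs d).ne'
  · simp only [inner_sub_right, inner_add_right, inner_smul_right]
    have e1 : ⟪u d.1.1, vtx hc hs (rhoE hc hs d)⟫ = 1 := vtx_tail hc hs (rhoE hc hs d)
    have e2 : ⟪u d.1.1, vtx hc hs ((rhoE hc hs)⁻¹ d)⟫ = 1 := vtx_tail hc hs ((rhoE hc hs)⁻¹ d)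
    rw [e1, e2, hx.2, vtx_tail]
    ring
  · rw [inner_sub_right, inner_add_right, inner_smul_right, inner_smul_right,
      div_mul_cancel₀ _ h2.ne]
    have e1 : ⟪u d.1.2, vtx hc hs ((rhoE hc hs)⁻¹ d) - vtx hc hs d⟫ = 0 := by
      rw [inner_sub_right, head_vtx_inv, vtx_head, sub_self]
    rw [e1]
    ring
  · rw [inner_sub_right, inner_add_right, inner_smul_right, inner_smul_right,
      div_mul_cancel₀ _ h1.ne]
    have e1 : ⟪u (rhoE hc hs d).1.2, vtx hc hs (rhoE hc hs d) - vtx hc hs d⟫ = 0 := by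
      rw [inner_sub_right, vtx_head hc hs (rhoE hc hs d), vtx_third, sub_self]
    rw [e1]
    ring

/-- A local maximum of a linear functional on a face is a global maximum. -/
theorem face_max (hc : IsConfig u) (hs : IsSimple u) (d : Dart u) {l : E3}
    (h1 : ⟪l, vtx hc hs ((rhoE hc hs)⁻¹ d)⟫ ≤ ⟪l, vtx hc hs d⟫)
    (h2 : ⟪l, vtx hc hs (rhoE hc hs d)⟫ ≤ ⟪l, vtx hc hs d⟫) {x : E3}
    (hx : x ∈ face u d.1.1) : ⟪l, x⟫ ≤ ⟪l, vtx hc hs d⟫ := by
  obtain ⟨α, β, hα, hβ, h⟩ := face_cone hc hs d hx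
  have h3 := congrArg (fun z => ⟪l, z⟫) h
  simp only [inner_sub_right, inner_add_right, inner_smul_right] at h3
  nlinarith [mul_nonneg hα (sub_nonneg.2 h1), mul_nonneg hβ (sub_nonneg.2 h2)]

theorem rhoE_pow_tail (hc : IsConfig u) (hs : IsSimple u) (d : Dart u) (n : ℕ) :
    (((rhoE hc hs) ^ n) d).1.1 = d.1.1 := by
  induction n with
  | zero => rfl
  | succ n ih => rw [pow_succ', Equiv.Perm.mul_apply]; exact ih

/-- Two darts with the same tail and the same vertex are equal. -/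
theorem dart_eq_of_vtx (hc : IsConfig u) (hs : IsSimple u) {d d' : Dart u}
    (h : d.1.1 = d'.1.1) (hv : vtx hc hs d = vtx hc hs d') : d = d' := by
  have hk : IsCorner u d.1.1 d.1.2 (rhoE hc hs d).1.2 := third_spec hc hs d.2
  have hk' : IsCorner u d'.1.1 d'.1.2 (rhoE hc hs d').1.2 := third_spec hc hs d'.2
  have e1 : d.1.2 = d'.1.2 := by
    have a1 := vtx_head hc hs d
    have a2 := vtx_third hc hs d
    rw [hv] at a1 a2
    rcases active_cases hs (vtx_mem hc hs d') hk'.ne hk'.rot.ne hk'.rot.rot.ne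
      (vtx_tail hc hs d') (vtx_head hc hs d') (vtx_third hc hs d') a1 with h3 | h3 | h3
    · exact absurd (h.trans h3.symm) hk.ne
    · exact h3
    · rcases active_cases hs (vtx_mem hc hs d') hk'.ne hk'.rot.ne hk'.rot.rot.ne
        (vtx_tail hc hs d') (vtx_head hc hs d') (vtx_third hc hs d') a2 with h4 | h4 | h4
      · exact absurd (h4.trans h.symm) hk.rot.rot.ne
      · have h5 := hk.1
        have h6 := hk'.1
        rw [h, h3, h4, det3_swap'] at h5
        linarith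
      · exact absurd (h3.trans h4.symm) hk.rot.ne
  exact Subtype.ext (Prod.ext h e1)

instance (u : Fin f → E3) : Finite (Dart u) := Subtype.finite

/-- A face has a single cycle of edges. -/
theorem rhoE_cyc (hc : IsConfig u) (hs : IsSimple u) (d d' : Dart u)
    (h : d.1.1 = d'.1.1) : ∃ n : ℕ, ((rhoE hc hs) ^ n) d = d' := by
  obtain ⟨e, ⟨n, hn⟩, hmax⟩ := Set.exists_max_image
    (Set.range fun n : ℕ => ((rhoE hc hs) ^ n) d)
    (fun e => ⟪u d'.1.2 + u (rhoE hc hs d').1.2, vtx hc hs e⟫) (Set.toFinite _) ⟨_, 0, rfl⟩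
  have hn' : ((rhoE hc hs) ^ n) d = e := hn
  have hte : e.1.1 = d'.1.1 := by rw [← hn', rhoE_pow_tail, h]
  have h1 : rhoE hc hs e ∈ Set.range fun n : ℕ => ((rhoE hc hs) ^ n) d :=
    ⟨n + 1, by show ((rhoE hc hs) ^ (n + 1)) d = _; rw [pow_succ', Equiv.Perm.mul_apply, hn']⟩
  have h2 : (rhoE hc hs)⁻¹ e ∈ Set.range fun n : ℕ => ((rhoE hc hs) ^ n) d := by
    have hpos : 0 < orderOf (rhoE hc hs) := orderOf_pos _
    refine ⟨orderOf (rhoE hc hs) - 1 + n, ?_⟩
    show ((rhoE hc hs) ^ (orderOf (rhoE hc hs) - 1 + n)) d = _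
    rw [pow_add, Equiv.Perm.mul_apply, hn']
    have : (rhoE hc hs) ^ (orderOf (rhoE hc hs) - 1) = (rhoE hc hs)⁻¹ := by
      rw [eq_inv_iff_mul_eq_one, ← pow_succ, Nat.sub_add_cancel hpos, pow_orderOf_eq_one]
    rw [this]
  have h3 := face_max hc hs e (hmax _ h2) (hmax _ h1) (x := vtx hc hs d')
    (by rw [hte]; exact vtx_mem_face hc hs d')
  rw [inner_add_left, inner_add_left, vtx_head, vtx_third] at h3
  have h4 := vtx_mem hc hs e d'.1.2
  have h5 := vtx_mem hc hs e (rhoE hc hs d').1.2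
  have h6 : vtx hc hs d' = vtx hc hs e := by
    apply vtx_unique
    · rw [← hte]; exact vtx_tail hc hs e
    · linarith
    · linarith
  exact ⟨n, hn'.trans (dart_eq_of_vtx hc hs hte h6.symm)⟩

/-- The combinatorial map of a simple configuration. -/
def cmap (hc : IsConfig u) (hs : IsSimple u) : CMap (Fin f) where
  D := Dart u
  tail d := d.1.1
  rho := rhoE hc hs
  sig := sigE u
  sig_sig _ := rfl
  rs3 := rs3E hc hs
  tail_rho _ := rfl
  cyc := rhoE_cyc hc hs
  loopless d := d.2.1.symm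

theorem card_darts_tail (u : Fin f → E3) (i : Fin f) :
    {d : Dart u | d.1.1 = i}.ncard = deg u i := by
  have h : {j | Adj u i j} = (fun d : Dart u => d.1.2) '' {d : Dart u | d.1.1 = i} := by
    ext j
    constructor
    · intro hj
      exact ⟨⟨(i, j), hj⟩, rfl, rfl⟩
    · rintro ⟨⟨⟨a, b⟩, hab⟩, ha, hb⟩
      have ha' : a = i := ha
      have hb' : b = j := hb
      subst ha' hb'
      exact hab
  rw [deg, h, Set.InjOn.ncard_image]
  rintro ⟨⟨a, b⟩, hab⟩ ha ⟨⟨a', b'⟩, hab'⟩ ha' hbb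
  have e1 : a = i := ha
  have e2 : a' = i := ha'
  have e3 : b = b' := hbb
  subst e1 e2 e3
  rfl

/-- A face with six neighbours is a hexagon of the combinatorial map. -/
theorem hex_of_deg (hc : IsConfig u) (hs : IsSimple u) {i : Fin f} (h : deg u i = 6) :
    (cmap hc hs).Hex i := by
  intro d hd
  have hd' : (d : Dart u).1.1 = i := hd
  have hper : d ∈ Function.periodicPts (rhoE hc hs) := by
    refine ⟨orderOf (rhoE hc hs), orderOf_pos _, ?_⟩
    show (rhoE hc hs)^[orderOf (rhoE hc hs)] d = d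
    rw [← Equiv.Perm.coe_pow, pow_orderOf_eq_one]
    rfl
  have hset : {e : Dart u | e.1.1 = i} =
      (fun n : ℕ => (rhoE hc hs)^[n] d) '' Set.Iio (Function.minimalPeriod (rhoE hc hs) d) := by
    ext e
    constructor
    · intro he
      have he' : e.1.1 = i := he
      obtain ⟨n, hn⟩ := rhoE_cyc hc hs d e (hd'.trans he'.symm)
      refine ⟨n % Function.minimalPeriod (rhoE hc hs) d,
        Nat.mod_lt _ (Function.minimalPeriod_pos_of_mem_periodicPts hper), ?_⟩
      show (rhoE hc hs)^[n % Function.minimalPeriod (rhoE hc hs) d] d = e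
      rw [Function.iterate_mod_minimalPeriod_eq, ← Equiv.Perm.coe_pow, hn]
    · rintro ⟨n, -, rfl⟩
      show ((rhoE hc hs)^[n] d).1.1 = i
      rw [← Equiv.Perm.coe_pow, rhoE_pow_tail, hd']
  have hcard : Function.minimalPeriod (rhoE hc hs) d = 6 := by
    have h1 := card_darts_tail u i
    rw [hset, Function.iterate_injOn_Iio_minimalPeriod.ncard_image, h] at h1
    rw [← h1]
    rw [Set.ncard_eq_toFinset_card' (Set.Iio _)]
    simp
  constructor
  · have := Function.iterate_minimalPeriod (f := (rhoE hc hs)) (x := d)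
    rw [hcard, ← Equiv.Perm.coe_pow] at this
    exact this
  · intro n h0 h6 hn
    have h7 : Function.IsPeriodicPt (rhoE hc hs) n d := by
      show (rhoE hc hs)^[n] d = d
      rw [← Equiv.Perm.coe_pow]
      exact hn
    have := h7.minimalPeriod_le h0
    omega

end Gold
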