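import Pool.Agent.Lib.H81.Gold.Lindelof
import Pool.Agent.Lib.H81.Gold.BridgeDefs
import Pool.Agent.Lib.H81.Gold.Faces

/-!
# Face theory of polyhedra given by inequalities (chunk C2)
-/

noncomputable section

open MeasureTheory Metric Set Filter Topology
open scoped RealInnerProductSpace Pointwise

namespace Gold

namespace BrB

section General

variable {f : ℕ} {n : Fin f → E3} {h : Fin f → ℝ}

/-- The minimal face of `x`: the points at which all constraints active at `x` are active. -/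
def mface (n : Fin f → E3) (h : Fin f → ℝ) (x : E3) : Set E3 :=
  {y | y ∈ HPoly n h ∧ ∀ i, ⟪n i, x⟫ = h i → ⟪n i, y⟫ = h i}

/-- The directions along which the constraints active at `x` stay active. -/
def lin (n : Fin f → E3) (h : Fin f → ℝ) (x : E3) : Submodule ℝ E3 where
  carrier := {z | ∀ i, ⟪n i, x⟫ = h i → ⟪n i, z⟫ = 0}
  add_mem' := by
    intro a b ha hb i hi
    rw [inner_add_right, ha i hi, hb i hi, add_zero]
  zero_mem' := by
    intro i _
    exact inner_zero_right _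
  smul_mem' := by
    intro c a ha i hi
    rw [inner_smul_right, ha i hi, mul_zero]

theorem mem_lin {x z : E3} : z ∈ lin n h x ↔ ∀ i, ⟪n i, x⟫ = h i → ⟪n i, z⟫ = 0 := Iff.rfl

theorem self_mem_mface {x : E3} (hx : x ∈ HPoly n h) : x ∈ mface n h x := ⟨hx, fun _ h => h⟩

theorem mface_subset {x : E3} : mface n h x ⊆ HPoly n h := fun _ hy => hy.1

theorem mface_subset_mface {x y : E3} (hy : y ∈ mface n h x) : mface n h y ⊆ mface n h x :=
  fun _ hz => ⟨hz.1, fun i hi => hz.2 i (hy.2 i hi)⟩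

/-- One can move a little in a direction which does not violate the active constraints. -/
theorem exists_eps {x z : E3} (hx : x ∈ HPoly n h) (hz : ∀ i, ⟪n i, x⟫ = h i → ⟪n i, z⟫ ≤ 0) :
    ∃ ε : ℝ, 0 < ε ∧ ∀ t : ℝ, 0 ≤ t → t ≤ ε → x + t • z ∈ HPoly n h := by
  have key : ∀ᶠ t in 𝓝 (0 : ℝ), ∀ i, 0 ≤ t → ⟪n i, x + t • z⟫ ≤ h i := by
    rw [Filter.eventually_all]
    intro i
    by_cases hi : ⟪n i, x⟫ = h i
    · refine Filter.Eventually.of_forall fun t ht => ?_
      rw [inner_add_right, inner_smul_right, hi]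
      nlinarith [hz i hi]
    · have h1 : ⟪n i, x⟫ < h i := lt_of_le_of_ne (hx i) hi
      have hc : ContinuousAt (fun t : ℝ => ⟪n i, x + t • z⟫) 0 := by fun_prop
      have h2 : (fun t : ℝ => ⟪n i, x + t • z⟫) 0 < h i := by simpa using h1
      filter_upwards [hc.eventually_lt continuousAt_const h2] with t ht _
      exact ht.le
  obtain ⟨ε, hε, hb⟩ := Metric.eventually_nhds_iff.1 key
  refine ⟨ε / 2, by positivity, fun t ht hte i => hb ?_ i ht⟩
  rw [Real.dist_eq, sub_zero, abs_of_nonneg ht]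
  linarith

theorem exists_eps_two {x z : E3} (hx : x ∈ HPoly n h) (hz : z ∈ lin n h x) :
    ∃ ε : ℝ, 0 < ε ∧ x + ε • z ∈ mface n h x ∧ x + ε • (-z) ∈ mface n h x := by
  obtain ⟨ε₁, h1, k1⟩ := exists_eps hx (fun i hi => (hz i hi).le)
  obtain ⟨ε₂, h2, k2⟩ := exists_eps (z := -z) hx
    (fun i hi => by rw [inner_neg_right, hz i hi, neg_zero])
  refine ⟨min ε₁ ε₂, lt_min h1 h2, ⟨k1 _ (lt_min h1 h2).le (min_le_left _ _), ?_⟩,
    ⟨k2 _ (lt_min h1 h2).le (min_le_right _ _), ?_⟩⟩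
  · intro i hi
    rw [inner_add_right, inner_smul_right, hz i hi, hi]; ring
  · intro i hi
    rw [inner_add_right, inner_smul_right, inner_neg_right, hz i hi, hi]; ring

theorem vectorSpan_mface {x : E3} (hx : x ∈ HPoly n h) :
    vectorSpan ℝ (mface n h x) = lin n h x := by
  apply le_antisymm
  · rw [vectorSpan_def, Submodule.span_le]
    rintro _ ⟨y, hy, y', hy', rfl⟩
    intro i hi
    simp only [vsub_eq_sub]
    rw [inner_sub_right, hy.2 i hi, hy'.2 i hi, sub_self]
  · intro z hz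
    obtain ⟨ε, hε, h1, -⟩ := exists_eps_two hx hz
    have h2 : (x + ε • z) -ᵥ x ∈ vectorSpan ℝ (mface n h x) :=
      vsub_mem_vectorSpan ℝ h1 (self_mem_mface hx)
    have h3 : (x + ε • z) -ᵥ x = ε • z := by simp
    rw [h3] at h2
    have h4 := Submodule.smul_mem _ ε⁻¹ h2
    rwa [smul_smul, inv_mul_cancel₀ hε.ne', one_smul] at h4

theorem isExposed_mface {x : E3} (hx : x ∈ HPoly n h) :
    IsExposed ℝ (HPoly n h) (mface n h x) := by
  classical
  intro _
  refine ⟨∑ i ∈ Finset.univ.filter (fun i => ⟪n i, x⟫ = h i), innerSL ℝ (n i), ?_⟩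
  ext y
  simp only [mem_ofPred_eq, sum_apply, innerSL_apply_apply]
  constructor
  · rintro ⟨hy, hy2⟩
    refine ⟨hy, fun w hw => Finset.sum_le_sum fun i hi => ?_⟩
    rw [hy2 i (Finset.mem_filter.1 hi).2]
    exact hw i
  · rintro ⟨hy, hy2⟩
    refine ⟨hy, fun i hi => ?_⟩
    have h1 := hy2 x hx
    have h2 : ∀ j ∈ Finset.univ.filter (fun i => ⟪n i, x⟫ = h i), ⟪n j, y⟫ ≤ ⟪n j, x⟫ := by
      intro j hj
      rw [(Finset.mem_filter.1 hj).2]
      exact hy j
    have h3 := (Finset.sum_eq_sum_iff_of_le h2).1 (le_antisymm (Finset.sum_le_sum h2) h1)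
    rw [h3 i (Finset.mem_filter.2 ⟨Finset.mem_univ _, hi⟩), hi]

/-- Every nonempty exposed face is a minimal face. -/
theorem exists_mface_of_isExposed {F : Set E3} (hF : IsExposed ℝ (HPoly n h) F)
    (hne : F.Nonempty) : ∃ x ∈ F, x ∈ HPoly n h ∧ F = mface n h x := by
  classical
  obtain ⟨l, hl⟩ := hF hne
  set act : E3 → ℕ := fun x => (Finset.univ.filter (fun i => ⟪n i, x⟫ = h i)).card with hact
  obtain ⟨x, hx, hmin⟩ : ∃ x ∈ F, ∀ y ∈ F, act x ≤ act y := by
    obtain ⟨x, hx, hm⟩ := WellFounded.has_min (measure act).wf F hne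
    exact ⟨x, hx, fun y hy => not_lt.1 (hm y hy)⟩
  have hxl : x ∈ HPoly n h ∧ ∀ y ∈ HPoly n h, l y ≤ l x := by rw [hl] at hx; exact hx
  refine ⟨x, hx, hxl.1, Subset.antisymm ?_ ?_⟩
  · intro y hy
    have hyl : y ∈ HPoly n h ∧ ∀ w ∈ HPoly n h, l w ≤ l y := by rw [hl] at hy; exact hy
    refine ⟨hyl.1, fun i hi => ?_⟩
    set m : E3 := (1 / 2 : ℝ) • x + (1 / 2 : ℝ) • y with hm
    have hin : ∀ j, ⟪n j, m⟫ = (⟪n j, x⟫ + ⟪n j, y⟫) / 2 := by
      intro j
      rw [hm, inner_add_right, inner_smul_right, inner_smul_right]; ring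
    have hmP : m ∈ HPoly n h := by
      intro j
      rw [hin]
      linarith [hxl.1 j, hyl.1 j]
    have hmF : m ∈ F := by
      rw [hl]
      refine ⟨hmP, fun w hw => ?_⟩
      rw [hm, map_add, map_smul, map_smul, smul_eq_mul, smul_eq_mul]
      linarith [hxl.2 w hw, hyl.2 w hw]
    have hsub : Finset.univ.filter (fun i => ⟪n i, m⟫ = h i) ⊆
        Finset.univ.filter (fun i => ⟪n i, x⟫ = h i) := by
      intro j hj
      have hj2 := (Finset.mem_filter.1 hj).2
      rw [hin] at hj2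
      refine Finset.mem_filter.2 ⟨Finset.mem_univ _, ?_⟩
      linarith [hxl.1 j, hyl.1 j]
    have heq := Finset.eq_of_subset_of_card_le hsub (hmin m hmF)
    have him : i ∈ Finset.univ.filter (fun i => ⟪n i, m⟫ = h i) := by
      rw [heq]; exact Finset.mem_filter.2 ⟨Finset.mem_univ _, hi⟩
    have him2 := (Finset.mem_filter.1 him).2
    rw [hin] at him2
    linarith
  · intro y hy
    rw [hl]
    refine ⟨hy.1, fun w hw => ?_⟩
    have hz : x - y ∈ lin n h x := by
      intro i hi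
      rw [inner_sub_right, hi, hy.2 i hi, sub_self]
    obtain ⟨ε, hε, h1, -⟩ := exists_eps_two hxl.1 hz
    have h2 := hxl.2 _ h1.1
    rw [map_add, map_smul, map_sub, smul_eq_mul] at h2
    have h3 : l x ≤ l y := by
      by_contra hcon
      push Not at hcon
      nlinarith
    exact (hxl.2 w hw).trans h3

theorem mem_faces_iff {k : ℕ} {F : Set E3} :
    F ∈ Goldberg.faces (HPoly n h) k ↔
      ∃ x ∈ HPoly n h, F = mface n h x ∧ Module.finrank ℝ (lin n h x) = k := by
  constructor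
  · rintro ⟨hne, hex, hk⟩
    obtain ⟨x, -, hx, rfl⟩ := exists_mface_of_isExposed hex hne
    rw [vectorSpan_mface hx] at hk
    exact ⟨x, hx, rfl, hk⟩
  · rintro ⟨x, hx, rfl, hk⟩
    refine ⟨⟨x, self_mem_mface hx⟩, isExposed_mface hx, ?_⟩
    rw [vectorSpan_mface hx]
    exact hk

theorem mface_eq_singleton {x : E3} (hx : x ∈ HPoly n h) (hl : lin n h x = ⊥) :
    mface n h x = {x} := by
  refine Subset.antisymm ?_ (singleton_subset_iff.2 (self_mem_mface hx))
  intro y hy
  have hz : y - x ∈ lin n h x := by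
    intro i hi
    rw [inner_sub_right, hi, hy.2 i hi, sub_self]
  rw [hl, Submodule.mem_bot, sub_eq_zero] at hz
  exact hz

theorem mem_faces_zero_iff {F : Set E3} :
    F ∈ Goldberg.faces (HPoly n h) 0 ↔ ∃ x ∈ HPoly n h, F = {x} ∧ lin n h x = ⊥ := by
  rw [mem_faces_iff]
  constructor
  · rintro ⟨x, hx, rfl, hk⟩
    have := Submodule.finrank_eq_zero.1 hk
    exact ⟨x, hx, mface_eq_singleton hx this, this⟩
  · rintro ⟨x, hx, rfl, hk⟩
    exact ⟨x, hx, (mface_eq_singleton hx hk).symm, Submodule.finrank_eq_zero.2 hk⟩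

theorem isClosed_HPoly : IsClosed (HPoly n h) := by
  have : HPoly n h = ⋂ i, {x | ⟪n i, x⟫ ≤ h i} := by
    ext x; simp [HPoly]
  rw [this]
  exact isClosed_iInter fun i => isClosed_le (by fun_prop) continuous_const

theorem convex_HPoly : Convex ℝ (HPoly n h) := by
  intro x hx y hy a b ha hb hab i
  rw [inner_add_right, inner_smul_right, inner_smul_right]
  have h1 := hx i
  have h2 := hy i
  calc a * ⟪n i, x⟫ + b * ⟪n i, y⟫ ≤ a * h i + b * h i := by gcongr
    _ = h i := by rw [← add_mul, hab, one_mul]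

theorem isClosed_mface {x : E3} : IsClosed (mface n h x) := by
  have : mface n h x = HPoly n h ∩ ⋂ i, {y | ⟪n i, x⟫ = h i → ⟪n i, y⟫ = h i} := by
    ext y; simp [mface]
  rw [this]
  refine isClosed_HPoly.inter (isClosed_iInter fun i => ?_)
  by_cases hi : ⟪n i, x⟫ = h i
  · simp only [hi, forall_const]
    exact isClosed_eq (by fun_prop) continuous_const
  · simp [hi]

/-- Every point of a bounded polyhedron has all its active constraints active at some vertex. -/
theorem exists_vertex {x : E3} (hb : Bornology.IsBounded (HPoly n h)) (hx : x ∈ HPoly n h) :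
    ∃ v ∈ mface n h x, lin n h v = ⊥ := by
  have hcomp : IsCompact (mface n h x) :=
    Metric.isCompact_of_isClosed_isBounded isClosed_mface (hb.subset mface_subset)
  obtain ⟨v, hv⟩ := hcomp.extremePoints_nonempty ⟨x, self_mem_mface hx⟩
  refine ⟨v, hv.1, ?_⟩
  rw [eq_bot_iff]
  intro z hz
  obtain ⟨ε, hε, h1, h2⟩ := exists_eps_two hv.1.1 hz
  have k1 := mface_subset_mface hv.1 h1
  have k2 := mface_subset_mface hv.1 h2
  have hseg : v ∈ openSegment ℝ (v + ε • z) (v + ε • (-z)) := by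
    refine ⟨1 / 2, 1 / 2, by norm_num, by norm_num, by norm_num, ?_⟩
    rw [smul_neg]
    module
  have := hv.2 k1 k2 hseg
  have h3 : ε • z = 0 := by
    simpa using this
  rw [Submodule.mem_bot]
  exact (smul_eq_zero.1 h3).resolve_left hε.ne'

end General


section Config

variable {f : ℕ} {u : Fin f → E3}

theorem poly_eq_HPoly (u : Fin f → E3) : Poly u = HPoly u (fun _ => 1) := rfl

theorem inner_unit_eq_one_iff (hu : IsConfig u) {i j : Fin f} : ⟪u i, u j⟫ = 1 ↔ i = j := by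
  rw [inner_eq_one_iff_of_norm_eq_one (hu.unit i) (hu.unit j)]
  exact hu.inj.eq_iff

theorem inner_unit_le_one (hu : IsConfig u) (i j : Fin f) : ⟪u i, u j⟫ ≤ 1 := by
  have := real_inner_le_norm (u i) (u j)
  rwa [hu.unit, hu.unit, one_mul] at this

theorem unit_mem_Poly (hu : IsConfig u) (j : Fin f) : u j ∈ Poly u :=
  fun i => inner_unit_le_one hu i j

theorem zero_mem_Poly (u : Fin f → E3) : (0 : E3) ∈ Poly u := by
  intro i
  rw [inner_zero_right]
  norm_num

theorem lin_unit (hu : IsConfig u) (i : Fin f) :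
    lin u (fun _ => 1) (u i) = (ℝ ∙ u i)ᗮ := by
  ext z
  rw [mem_lin, Submodule.mem_orthogonal_singleton_iff_inner_right]
  constructor
  · intro hz
    exact hz i ((inner_unit_eq_one_iff hu).2 rfl)
  · intro hz j hj
    rw [inner_unit_eq_one_iff hu] at hj
    rw [hj]; exact hz

theorem unit_ne_zero (hu : IsConfig u) (i : Fin f) : u i ≠ 0 := by
  intro h0
  have := hu.unit i
  rw [h0, norm_zero] at this
  norm_num at this

theorem finrank_orth' {v : E3} (hv : v ≠ 0) : Module.finrank ℝ (ℝ ∙ v)ᗮ = 2 := by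
  have : Fact (Module.finrank ℝ E3 = 2 + 1) := ⟨by simp⟩
  exact Submodule.finrank_orthogonal_span_singleton hv

theorem finrank_orth (hu : IsConfig u) (i : Fin f) :
    Module.finrank ℝ (ℝ ∙ u i)ᗮ = 2 := by
  exact finrank_orth' (unit_ne_zero hu i)

theorem active_of_finrank_two (hu : IsConfig u) {x : E3}
    (hk : Module.finrank ℝ (lin u (fun _ => 1) x) = 2) :
    ∃ i, ∀ j, ⟪u j, x⟫ = 1 ↔ j = i := by
  have hne : ∃ i, ⟪u i, x⟫ = 1 := by
    by_contra hcon
    push Not at hcon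
    have : lin u (fun _ => 1) x = ⊤ := by
      rw [eq_top_iff]
      intro z _ i hi
      exact absurd hi (hcon i)
    rw [this, finrank_top] at hk
    simp at hk
  obtain ⟨i, hi⟩ := hne
  refine ⟨i, fun j => ⟨fun hj => ?_, fun hj => hj ▸ hi⟩⟩
  have key : ∀ k, ⟪u k, x⟫ = 1 → lin u (fun _ => 1) x = (ℝ ∙ u k)ᗮ := by
    intro k hkx
    apply Submodule.eq_of_le_of_finrank_eq
    · intro z hz
      rw [Submodule.mem_orthogonal_singleton_iff_inner_right]
      exact hz k hkx
    · rw [hk, finrank_orth hu]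
  have h1 : (ℝ ∙ u j)ᗮᗮ = (ℝ ∙ u i)ᗮᗮ := by rw [← key i hi, ← key j hj]
  rw [Submodule.orthogonal_orthogonal, Submodule.orthogonal_orthogonal] at h1
  have h2 : u j ∈ (ℝ ∙ u i) := by
    rw [← h1]; exact Submodule.mem_span_singleton_self _
  obtain ⟨c, hc⟩ := Submodule.mem_span_singleton.1 h2
  have h3 : c = 1 := by
    rw [← hc, inner_smul_left, hi] at hj
    simpa using hj
  rw [h3, one_smul] at hc
  exact (hu.inj hc).symm

theorem mem_mface_unit (hu : IsConfig u) {i : Fin f} {y : E3} :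
    y ∈ mface u (fun _ => 1) (u i) ↔ y ∈ Poly u ∧ ⟪u i, y⟫ = 1 := by
  constructor
  · rintro ⟨h1, h2⟩
    exact ⟨h1, h2 i ((inner_unit_eq_one_iff hu).2 rfl)⟩
  · rintro ⟨h1, h2⟩
    refine ⟨h1, fun j hj => ?_⟩
    rw [inner_unit_eq_one_iff hu] at hj
    rw [hj]; exact h2

theorem faces_two (hu : IsConfig u) :
    Goldberg.faces (Poly u) 2 = range (fun i => mface u (fun _ => 1) (u i)) := by
  ext F
  rw [poly_eq_HPoly, mem_faces_iff]
  constructor
  · rintro ⟨x, hx, rfl, hk⟩
    obtain ⟨i, hi⟩ := active_of_finrank_two hu hk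
    refine ⟨i, ?_⟩
    ext y
    rw [mem_mface_unit hu]
    constructor
    · rintro ⟨h1, h2⟩
      refine ⟨h1, fun j hj => ?_⟩
      rw [hi] at hj
      rw [hj]; exact h2
    · rintro ⟨h1, h2⟩
      exact ⟨h1, h2 i ((hi i).2 rfl)⟩
  · rintro ⟨i, rfl⟩
    refine ⟨u i, unit_mem_Poly hu i, rfl, ?_⟩
    rw [lin_unit hu, finrank_orth hu]

theorem mface_unit_injective (hu : IsConfig u) :
    Function.Injective (fun i => mface u (fun _ => 1) (u i)) := by
  intro i j hij
  have h1 : u j ∈ mface u (fun _ => 1) (u j) := self_mem_mface (unit_mem_Poly hu j)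
  simp only at hij
  rw [← hij, mem_mface_unit hu] at h1
  exact (inner_unit_eq_one_iff hu).1 h1.2

theorem ncard_faces_two (hu : IsConfig u) : (Goldberg.faces (Poly u) 2).ncard = f := by
  rw [faces_two hu, ← image_univ, ncard_image_of_injective _ (mface_unit_injective hu),
    ncard_univ, Nat.card_eq_fintype_card, Fintype.card_fin]

theorem ball_subset_Poly (hu : IsConfig u) : ball (0 : E3) 1 ⊆ Poly u := by
  intro x hx i
  have h1 := real_inner_le_norm (u i) x
  rw [hu.unit, one_mul] at h1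
  rw [mem_ball_zero_iff] at hx
  linarith

theorem isPolyhedron_Poly (hu : IsConfig u) : Goldberg.IsPolyhedron (Poly u) := by
  refine ⟨Metric.isCompact_of_isClosed_isBounded isClosed_HPoly hu.bdd, ?_,
    f, u, fun _ => 1, rfl⟩
  exact ⟨0, interior_maximal (ball_subset_Poly hu) isOpen_ball (mem_ball_self one_pos)⟩


/-- An edge lies in at most two facets. -/
theorem active_le_two (hu : IsConfig u) {x : E3}
    (hk : Module.finrank ℝ (lin u (fun _ => 1) x) = 1) :
    {i | ⟪u i, x⟫ = 1}.ncard ≤ 2 := by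
  by_contra hcon
  push Not at hcon
  obtain ⟨i, j, k, hi, hj, hk', hij, hik, hjk⟩ := (two_lt_ncard_iff (toFinite _)).1 hcon
  simp only [mem_ofPred_eq] at hi hj hk'
  obtain ⟨d, hd, hd0⟩ : ∃ d ∈ lin u (fun _ => 1) x, d ≠ 0 := by
    apply Submodule.exists_mem_ne_zero_of_ne_bot
    intro hb
    rw [hb] at hk
    simp at hk
  have hcos : EuclideanGeometry.Cospherical ({u i, u j, u k} : Set E3) := by
    refine ⟨0, 1, ?_⟩
    intro p hp
    simp only [mem_insert_iff, mem_singleton_iff] at hp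
    rcases hp with rfl | rfl | rfl <;> rw [dist_zero_right, hu.unit]
  have haff := hcos.affineIndependent_of_ne (fun h => hij (hu.inj h)) (fun h => hik (hu.inj h))
    (fun h => hjk (hu.inj h))
  have hfin := haff.finrank_vectorSpan (n := 2) (by simp)
  have hx0 : x ≠ 0 := by
    intro h0
    rw [h0, inner_zero_right] at hi
    norm_num at hi
  have hr : ∀ y ∈ range ![u i, u j, u k], ⟪y, x⟫ = 1 ∧ ⟪y, d⟫ = 0 := by
    rintro y ⟨a, rfl⟩
    fin_cases a
    · exact ⟨hi, hd i hi⟩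
    · exact ⟨hj, hd j hj⟩
    · exact ⟨hk', hd k hk'⟩
  have h1 : vectorSpan ℝ (range ![u i, u j, u k]) = (ℝ ∙ x)ᗮ := by
    apply Submodule.eq_of_le_of_finrank_eq
    · rw [vectorSpan_def, Submodule.span_le]
      rintro _ ⟨y, hy, y', hy', rfl⟩
      simp only [vsub_eq_sub, SetLike.mem_coe]
      rw [Submodule.mem_orthogonal_singleton_iff_inner_left, inner_sub_left, (hr y hy).1,
        (hr y' hy').1, sub_self]
    · rw [hfin, finrank_orth' hx0]
  have h2 : vectorSpan ℝ (range ![u i, u j, u k]) = (ℝ ∙ d)ᗮ := by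
    apply Submodule.eq_of_le_of_finrank_eq
    · rw [vectorSpan_def, Submodule.span_le]
      rintro _ ⟨y, hy, y', hy', rfl⟩
      simp only [vsub_eq_sub, SetLike.mem_coe]
      rw [Submodule.mem_orthogonal_singleton_iff_inner_left, inner_sub_left, (hr y hy).2,
        (hr y' hy').2, sub_self]
    · rw [hfin, finrank_orth' hd0]
  have h3 : (ℝ ∙ x)ᗮᗮ = (ℝ ∙ d)ᗮᗮ := by rw [← h1, ← h2]
  rw [Submodule.orthogonal_orthogonal, Submodule.orthogonal_orthogonal] at h3
  have h4 : x ∈ (ℝ ∙ d) := by rw [← h3]; exact Submodule.mem_span_singleton_self _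
  obtain ⟨c, hc⟩ := Submodule.mem_span_singleton.1 h4
  have hid : ⟪u i, d⟫ = 0 := hd i hi
  rw [← hc, inner_smul_right, hid, mul_zero] at hi
  norm_num at hi

open Classical in
/-- The normals of the constraints active at `v`, the others replaced by zero. -/
def cn (u : Fin f → E3) (v : E3) (k : Fin f) : E3 := if ⟪u k, v⟫ = 1 then u k else 0

theorem cn_pos {v : E3} {k : Fin f} (h : ⟪u k, v⟫ = 1) : cn u v k = u k := by
  rw [cn, if_pos h]

theorem cn_neg {v : E3} {k : Fin f} (h : ⟪u k, v⟫ ≠ 1) : cn u v k = 0 := by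
  rw [cn, if_neg h]

/-- A slice of the tangent cone of the facet `i` at `v`. -/
def csl (u : Fin f → E3) (v : E3) (i : Fin f) : Set E3 :=
  {z | z ∈ HPoly (cn u v) (fun _ => 0) ∧ ⟪u i, z⟫ = 0 ∧ ⟪∑ k, cn u v k, z⟫ = -1}

theorem csl_convex (v : E3) (i : Fin f) : Convex ℝ (csl u v i) := by
  intro x hx y hy a b ha hb hab
  refine ⟨convex_HPoly hx.1 hy.1 ha hb hab, ?_, ?_⟩
  · rw [inner_add_right, inner_smul_right, inner_smul_right, hx.2.1, hy.2.1]; ring
  · rw [inner_add_right, inner_smul_right, inner_smul_right, hx.2.2, hy.2.2]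
    linear_combination -hab

theorem csl_isClosed (v : E3) (i : Fin f) : IsClosed (csl u v i) := by
  have : csl u v i = HPoly (cn u v) (fun _ => 0) ∩ ({z | ⟪u i, z⟫ = 0} ∩
      {z | ⟪∑ k, cn u v k, z⟫ = -1}) := by
    ext z; rfl
  rw [this]
  exact isClosed_HPoly.inter ((isClosed_eq (by fun_prop) continuous_const).inter
    (isClosed_eq (by fun_prop) continuous_const))

theorem csl_bound {v : E3} {i : Fin f} {z : E3} (hz : z ∈ csl u v i) (k : Fin f) :
    |⟪cn u v k, z⟫| ≤ 1 := by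
  have h1 : ∑ k, ⟪cn u v k, z⟫ = -1 := by rw [← sum_inner]; exact hz.2.2
  have h2 : ∑ k, (-⟪cn u v k, z⟫) = 1 := by rw [Finset.sum_neg_distrib, h1]; norm_num
  have h3 : -⟪cn u v k, z⟫ ≤ ∑ k, (-⟪cn u v k, z⟫) :=
    Finset.single_le_sum (f := fun k => -⟪cn u v k, z⟫)
      (fun j _ => by have := hz.1 j; simp only at this; linarith) (Finset.mem_univ k)
  have h4 := hz.1 k
  simp only at h4
  rw [abs_le]
  constructor <;> linarith

theorem csl_compact {v : E3} (hl : lin u (fun _ => 1) v = ⊥) (i : Fin f) :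
    IsCompact (csl u v i) := by
  apply Metric.isCompact_of_isClosed_isBounded (csl_isClosed v i)
  set Φ : E3 →ₗ[ℝ] (Fin f → ℝ) := LinearMap.pi (fun k => (innerSL ℝ (cn u v k)).toLinearMap)
    with hΦ
  have hΦa : ∀ z k, Φ z k = ⟪cn u v k, z⟫ := fun z k => rfl
  have hker : LinearMap.ker Φ = ⊥ := by
    rw [eq_bot_iff]
    intro z hz
    rw [← hl]
    intro k hk
    have := congrFun (LinearMap.mem_ker.1 hz) k
    rw [hΦa, cn_pos hk] at this
    exact this
  obtain ⟨K, hK, hA⟩ := Φ.exists_antilipschitzWith hker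
  apply hA.isBounded_preimage (s := closedBall 0 1) isBounded_closedBall |>.subset
  intro z hz
  rw [mem_preimage, mem_closedBall_zero_iff, pi_norm_le_iff_of_nonneg zero_le_one]
  intro k
  rw [hΦa, Real.norm_eq_abs]
  exact csl_bound hz k


theorem inner_unit_lt_one (hu : IsConfig u) {i j : Fin f} (hij : i ≠ j) : ⟪u i, u j⟫ < 1 :=
  lt_of_le_of_ne (inner_unit_le_one hu i j) (fun h => hij ((inner_unit_eq_one_iff hu).1 h))

/-- The slice is not a single point. -/
theorem csl_two (hu : IsConfig u) {v : E3} (hl : lin u (fun _ => 1) v = ⊥) {i : Fin f}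
    (hi : ⟪u i, v⟫ = 1) : ∃ z ∈ csl u v i, ∃ z' ∈ csl u v i, z ≠ z' := by
  obtain ⟨k, hk, hki⟩ : ∃ k, ⟪u k, v⟫ = 1 ∧ k ≠ i := by
    by_contra hcon
    push Not at hcon
    have : lin u (fun _ => 1) v = (ℝ ∙ u i)ᗮ := by
      ext z
      rw [mem_lin, Submodule.mem_orthogonal_singleton_iff_inner_right]
      exact ⟨fun hz => hz i hi, fun hz j hj => by rw [hcon j hj]; exact hz⟩
    have h2 := finrank_orth hu i
    rw [← this, hl] at h2
    simp at h2
  set w : E3 := u i - v with hw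
  have hwk : ∀ j, ⟪cn u v j, w⟫ ≤ 0 := by
    intro j
    by_cases hj : ⟪u j, v⟫ = 1
    · rw [cn_pos hj, hw, inner_sub_right, hj]
      linarith [inner_unit_le_one hu j i]
    · rw [cn_neg hj, inner_zero_left]
  have hwk2 : ∀ j, ⟪u j, v⟫ = 1 → j ≠ i → ⟪u j, w⟫ < 0 := by
    intro j hj hji
    rw [hw, inner_sub_right, hj]
    linarith [inner_unit_lt_one hu hji]
  have hwi : ⟪u i, w⟫ = 0 := by
    rw [hw, inner_sub_right, hi, (inner_unit_eq_one_iff hu).2 rfl, sub_self]
  set S : ℝ := ⟪∑ k, cn u v k, w⟫ with hS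
  have hSneg : S < 0 := by
    rw [hS, sum_inner]
    apply Finset.sum_neg' (fun j _ => hwk j)
    exact ⟨k, Finset.mem_univ _, by rw [cn_pos hk]; exact hwk2 k hk hki⟩
  set z₀ : E3 := (-S)⁻¹ • w with hz0
  have hpos : 0 < (-S)⁻¹ := inv_pos.2 (by linarith)
  have hz0m : z₀ ∈ csl u v i := by
    refine ⟨fun j => ?_, ?_, ?_⟩
    · rw [hz0, inner_smul_right]
      exact mul_nonpos_of_nonneg_of_nonpos hpos.le (hwk j)
    · rw [hz0, inner_smul_right, hwi, mul_zero]
    · rw [hz0, inner_smul_right, ← hS, inv_neg, neg_mul, inv_mul_cancel₀ hSneg.ne]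
  -- a direction orthogonal to both
  set Ψ : E3 →ₗ[ℝ] (Fin 2 → ℝ) := LinearMap.pi
    ![(innerSL ℝ (u i)).toLinearMap, (innerSL ℝ (∑ k, cn u v k)).toLinearMap] with hΨ
  obtain ⟨d, hd, hd0⟩ : ∃ d ∈ LinearMap.ker Ψ, d ≠ 0 := by
    apply Submodule.exists_mem_ne_zero_of_ne_bot
    apply LinearMap.ker_ne_bot_of_finrank_lt
    simp
  have hd1 : ⟪u i, d⟫ = 0 := congrFun (LinearMap.mem_ker.1 hd) 0
  have hd2 : ⟪∑ k, cn u v k, d⟫ = 0 := congrFun (LinearMap.mem_ker.1 hd) 1
  obtain ⟨ε, hε, hm⟩ := exists_eps (z := d) hz0m.1 (by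
    intro j hj
    by_cases hjv : ⟪u j, v⟫ = 1
    · rw [cn_pos hjv] at hj ⊢
      by_cases hji : j = i
      · rw [hji, hd1]
      · exfalso
        rw [hz0, inner_smul_right] at hj
        have := hwk2 j hjv hji
        nlinarith
    · rw [cn_neg hjv, inner_zero_left])
  refine ⟨z₀, hz0m, z₀ + ε • d, ⟨hm ε hε.le le_rfl, ?_, ?_⟩, ?_⟩
  · rw [inner_add_right, hz0m.2.1, inner_smul_right, hd1]; ring
  · rw [inner_add_right, hz0m.2.2, inner_smul_right, hd2]; ring
  · intro h
    have h2 : ε • d = 0 := by simpa using h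
    exact hd0 ((smul_eq_zero.1 h2).resolve_left hε.ne')

theorem csl_extreme (hu : IsConfig u) {v : E3} (hl : lin u (fun _ => 1) v = ⊥) {i : Fin f}
    (hi : ⟪u i, v⟫ = 1) :
    ∃ p ∈ (csl u v i).extremePoints ℝ, ∃ q ∈ (csl u v i).extremePoints ℝ, p ≠ q := by
  obtain ⟨z, hz, z', hz', hne⟩ := csl_two hu hl hi
  obtain ⟨p, hp⟩ := (csl_compact hl i).extremePoints_nonempty ⟨z, hz⟩
  by_contra hcon
  push Not at hcon
  have h1 : (csl u v i).extremePoints ℝ = {p} :=
    Subset.antisymm (fun q hq => (hcon p hp q hq).symm) (singleton_subset_iff.2 hp)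
  have h2 := closure_convexHull_extremePoints (csl_compact hl i) (csl_convex v i)
  rw [h1, convexHull_singleton, closure_singleton] at h2
  rw [← h2] at hz hz'
  exact hne (by rw [mem_singleton_iff.1 hz, mem_singleton_iff.1 hz'])

theorem ext_dir {v p : E3} {i : Fin f} (hi : ⟪u i, v⟫ = 1)
    (hp : p ∈ (csl u v i).extremePoints ℝ) {z : E3}
    (hz : ∀ k, ⟪u k, v⟫ = 1 → ⟪u k, p⟫ = 0 → ⟪u k, z⟫ = 0) :
    z = (-⟪∑ k, cn u v k, z⟫) • p := by
  set c : ℝ := ⟪∑ k, cn u v k, z⟫ with hc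
  set z' : E3 := z + c • p with hz'
  have hz0 : z' ∈ lin (cn u v) (fun _ => 0) p := by
    intro k hk
    by_cases hkv : ⟪u k, v⟫ = 1
    · rw [cn_pos hkv] at hk ⊢
      rw [hz', inner_add_right, inner_smul_right, hk, hz k hkv hk]; ring
    · rw [cn_neg hkv, inner_zero_left]
  obtain ⟨ε, hε, h1, h2⟩ := exists_eps_two hp.1.1 hz0
  have hiz : ⟪u i, z'⟫ = 0 := by
    rw [hz', inner_add_right, inner_smul_right, hp.1.2.1, hz i hi hp.1.2.1]; ring
  have hgz : ⟪∑ k, cn u v k, z'⟫ = 0 := by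
    rw [hz', inner_add_right, inner_smul_right, hp.1.2.2, ← hc]; ring
  have k1 : p + ε • z' ∈ csl u v i := by
    refine ⟨h1.1, ?_, ?_⟩
    · rw [inner_add_right, inner_smul_right, hiz, hp.1.2.1]; ring
    · rw [inner_add_right, inner_smul_right, hgz, hp.1.2.2]; ring
  have k2 : p + ε • (-z') ∈ csl u v i := by
    refine ⟨h2.1, ?_, ?_⟩
    · rw [inner_add_right, inner_smul_right, inner_neg_right, hiz, hp.1.2.1]; ring
    · rw [inner_add_right, inner_smul_right, inner_neg_right, hgz, hp.1.2.2]; ring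
  have hseg : p ∈ openSegment ℝ (p + ε • z') (p + ε • (-z')) := by
    refine ⟨1 / 2, 1 / 2, by norm_num, by norm_num, by norm_num, ?_⟩
    module
  have h3 := hp.2 k1 k2 hseg
  have h4 : ε • z' = 0 := by simpa using h3
  have h5 : z' = 0 := (smul_eq_zero.1 h4).resolve_left hε.ne'
  rw [hz'] at h5
  rw [neg_smul]
  exact eq_neg_of_add_eq_zero_left h5

theorem ext_point {v p : E3} {i : Fin f} (hv : v ∈ Poly u) (hp : p ∈ csl u v i) :
    ∃ x ∈ Poly u, ∀ k, ⟪u k, x⟫ = 1 ↔ ⟪u k, v⟫ = 1 ∧ ⟪u k, p⟫ = 0 := by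
  obtain ⟨ε, hε, hm⟩ := exists_eps (n := u) (h := fun _ => 1) (z := p) hv (by
    intro k hk
    have := hp.1 k
    rwa [cn_pos hk] at this)
  have h1 := hm (ε / 2) (by positivity) (by linarith)
  refine ⟨v + (ε / 2) • p, h1, fun k => ?_⟩
  have h2 := hm ε hε.le le_rfl k
  have h3 := hv k
  simp only [inner_add_right, inner_smul_right] at h2 ⊢
  constructor
  · intro h4
    have h5 : ⟪u k, v⟫ = 1 := by
      linarith
    exact ⟨h5, by nlinarith⟩
  · rintro ⟨h4, h5⟩
    rw [h4, h5]; ring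

theorem ext_edge {v p : E3} {i : Fin f} (hv : v ∈ Poly u) (hi : ⟪u i, v⟫ = 1)
    (hp : p ∈ (csl u v i).extremePoints ℝ) :
    ∃ e ∈ Goldberg.faces (Poly u) 1, v ∈ e ∧ e ⊆ {y | ⟪u i, y⟫ = 1} ∧
      vectorSpan ℝ e = ℝ ∙ p := by
  obtain ⟨x, hx, hact⟩ := ext_point hv hp.1
  have hlin : lin u (fun _ => 1) x = ℝ ∙ p := by
    apply le_antisymm
    · intro z hz
      rw [Submodule.mem_span_singleton]
      exact ⟨_, (ext_dir hi hp (fun k h1 h2 => hz k ((hact k).2 ⟨h1, h2⟩))).symm⟩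
    · rw [Submodule.span_singleton_le_iff_mem]
      intro k hk
      exact ((hact k).1 hk).2
  have hp0 : p ≠ 0 := by
    intro h0
    have := hp.1.2.2
    rw [h0, inner_zero_right] at this
    norm_num at this
  refine ⟨mface u (fun _ => 1) x, ?_, ?_, ?_, ?_⟩
  · rw [poly_eq_HPoly, mem_faces_iff]
    exact ⟨x, hx, rfl, by rw [hlin, finrank_span_singleton hp0]⟩
  · exact ⟨hv, fun k hk => ((hact k).1 hk).1⟩
  · intro y hy
    exact hy.2 i ((hact i).2 ⟨hi, hp.1.2.1⟩)
  · rw [vectorSpan_mface hx, hlin]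

/-- At a vertex, each facet through it contains two edges through it. -/
theorem two_edges (hu : IsConfig u) {v : E3} (hv : v ∈ Poly u)
    (hl : lin u (fun _ => 1) v = ⊥) {i : Fin f} (hi : ⟪u i, v⟫ = 1) :
    ∃ e₁ e₂, e₁ ≠ e₂ ∧ (e₁ ∈ Goldberg.faces (Poly u) 1 ∧ v ∈ e₁ ∧ e₁ ⊆ {y | ⟪u i, y⟫ = 1}) ∧
      (e₂ ∈ Goldberg.faces (Poly u) 1 ∧ v ∈ e₂ ∧ e₂ ⊆ {y | ⟪u i, y⟫ = 1}) := by
  obtain ⟨p, hp, q, hq, hpq⟩ := csl_extreme hu hl hi
  obtain ⟨e₁, h1, h2, h3, h4⟩ := ext_edge hv hi hp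
  obtain ⟨e₂, k1, k2, k3, k4⟩ := ext_edge hv hi hq
  refine ⟨e₁, e₂, ?_, ⟨h1, h2, h3⟩, ⟨k1, k2, k3⟩⟩
  rintro rfl
  rw [h4] at k4
  have h5 : q ∈ (ℝ ∙ p) := by rw [k4]; exact Submodule.mem_span_singleton_self _
  obtain ⟨c, hc⟩ := Submodule.mem_span_singleton.1 h5
  have h6 := hq.1.2.2
  rw [← hc, inner_smul_right, hp.1.2.2] at h6
  have h7 : c = 1 := by linarith
  rw [h7, one_smul] at hc
  exact hpq hc


/-- A vertex lying on exactly three edges lies in at most three facets. -/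
theorem vertex_active_le (hu : IsConfig u) {v : E3} (hv : v ∈ Poly u)
    (hl : lin u (fun _ => 1) v = ⊥)
    (h3 : {e | e ∈ Goldberg.faces (Poly u) 1 ∧ {v} ⊆ e}.ncard = 3) :
    {i | ⟪u i, v⟫ = 1}.ncard ≤ 3 := by
  classical
  have hfin : {e | e ∈ Goldberg.faces (Poly u) 1 ∧ {v} ⊆ e}.Finite := by
    apply finite_of_ncard_ne_zero
    rw [h3]; norm_num
  set E : Finset (Set E3) := hfin.toFinset with hE
  set A : Finset (Fin f) := Finset.univ.filter (fun i => ⟪u i, v⟫ = 1) with hA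
  have hEc : E.card = 3 := by rw [hE, ← ncard_eq_toFinset_card _ hfin, h3]
  have hAc : {i | ⟪u i, v⟫ = 1}.ncard = A.card := by
    rw [hA, ← ncard_coe_finset]
    congr 1
    ext i
    simp
  have hmE : ∀ e, e ∈ E ↔ e ∈ Goldberg.faces (Poly u) 1 ∧ v ∈ e := by
    intro e
    rw [hE, Finite.mem_toFinset]
    simp
  have key := Finset.card_mul_le_card_mul (s := A) (t := E) (m := 2) (n := 2)
    (fun i e => e ⊆ {y | ⟪u i, y⟫ = 1}) ?_ ?_
  · rw [hAc]
    rw [hEc] at key
    omega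
  · intro i hi
    have hi2 : ⟪u i, v⟫ = 1 := (Finset.mem_filter.1 hi).2
    obtain ⟨e₁, e₂, hne, ⟨h1, h2, h3'⟩, ⟨k1, k2, k3⟩⟩ := two_edges hu hv hl hi2
    have : ({e₁, e₂} : Finset (Set E3)) ⊆ Finset.bipartiteAbove
        (fun i e => e ⊆ {y | ⟪u i, y⟫ = 1}) E i := by
      intro e he
      rw [Finset.mem_insert, Finset.mem_singleton] at he
      rw [Finset.mem_bipartiteAbove]
      rcases he with rfl | rfl
      · exact ⟨(hmE _).2 ⟨h1, h2⟩, h3'⟩
      · exact ⟨(hmE _).2 ⟨k1, k2⟩, k3⟩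
    calc 2 = ({e₁, e₂} : Finset (Set E3)).card := (Finset.card_pair hne).symm
      _ ≤ _ := Finset.card_le_card this
  · intro e he
    obtain ⟨he1, he2⟩ := (hmE e).1 he
    rw [poly_eq_HPoly, mem_faces_iff] at he1
    obtain ⟨x, hx, rfl, hk⟩ := he1
    have h1 := active_le_two hu hk
    have h2 : {i | ⟪u i, x⟫ = 1}.ncard = (Finset.univ.filter (fun i => ⟪u i, x⟫ = 1)).card := by
      rw [← ncard_coe_finset]
      congr 1
      ext i
      simp
    rw [h2] at h1
    refine le_trans (Finset.card_le_card ?_) h1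
    intro i hi
    rw [Finset.mem_bipartiteBelow] at hi
    exact Finset.mem_filter.2 ⟨Finset.mem_univ _, hi.2 (self_mem_mface hx)⟩

/-- Simplicity in terms of edges implies simplicity in terms of active constraints. -/
theorem isSimple_of (hu : IsConfig u) (hs : Goldberg.IsSimple (Poly u)) : IsSimple u := by
  intro x hx
  obtain ⟨v, hv, hl⟩ := exists_vertex (n := u) (h := fun _ => 1) hu.bdd hx
  have h1 : {v} ∈ Goldberg.faces (Poly u) 0 := by
    rw [poly_eq_HPoly, mem_faces_zero_iff]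
    exact ⟨v, hv.1, rfl, hl⟩
  have h2 := vertex_active_le hu hv.1 hl (hs _ h1)
  refine le_trans (ncard_le_ncard ?_ (toFinite _)) h2
  intro i hi
  exact hv.2 i hi

theorem inner_cr_cr (a b c : E3) :
    ⟪cr a b, cr a c⟫ = ⟪a, a⟫ * ⟪b, c⟫ - ⟪a, c⟫ * ⟪a, b⟫ := by
  rw [inner3, inner3, inner3, inner3, inner3]; simp; ring

theorem det_ne_zero_of_lin (hu : IsConfig u) {v : E3} {i j k : Fin f}
    (hact : ∀ a, ⟪u a, v⟫ = 1 ↔ a = i ∨ a = j ∨ a = k) (hl : lin u (fun _ => 1) v = ⊥) :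
    det3 (u i) (u j) (u k) ≠ 0 := by
  intro hdet
  have key : ∀ z : E3, ⟪u i, z⟫ = 0 → ⟪u j, z⟫ = 0 → ⟪u k, z⟫ = 0 → z = 0 := by
    intro z h1 h2 h3
    have : z ∈ lin u (fun _ => 1) v := by
      intro a ha
      rcases (hact a).1 ha with rfl | rfl | rfl
      · exact h1
      · exact h2
      · exact h3
    rw [hl] at this
    exact (Submodule.mem_bot ℝ).1 this
  have h1 : cr (u i) (u j) = 0 := by
    apply key
    · rw [inner_cr_right]; simp [det3]; ring
    · rw [inner_cr_right]; simp [det3]; ring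
    · rw [inner_cr_right, ← det3_rot, hdet]
  have h3 : cr (u i) (u k) = 0 := by
    apply key
    · rw [inner_cr_right]; simp [det3]; ring
    · rw [inner_cr_right, det3_swap, hdet, neg_zero]
    · rw [inner_cr_right]; simp [det3]; ring
  obtain ⟨d, hd, hd0⟩ : ∃ d ∈ (ℝ ∙ u i)ᗮ, d ≠ 0 := by
    apply Submodule.exists_mem_ne_zero_of_ne_bot
    intro hb
    have := finrank_orth hu i
    rw [hb] at this
    simp at this
  rw [Submodule.mem_orthogonal_singleton_iff_inner_right] at hd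
  have hii : ⟪u i, u i⟫ = 1 := (inner_unit_eq_one_iff hu).2 rfl
  apply hd0
  apply key d hd
  · have := inner_cr_cr (u i) (u j) d
    rw [h1, inner_zero_left, hd, hii] at this
    linarith
  · have := inner_cr_cr (u i) (u k) d
    rw [h3, inner_zero_left, hd, hii] at this
    linarith

/-- A vertex of a simple configuration has exactly three active constraints. -/
theorem exists_three (hs : IsSimple u) {v : E3} (hv : v ∈ Poly u)
    {i : Fin f} (hi : ⟪u i, v⟫ = 1) :
    ∃ j k, ∀ a, ⟪u a, v⟫ = 1 ↔ a = i ∨ a = j ∨ a = k := by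
  classical
  set A : Finset (Fin f) := Finset.univ.filter (fun i => ⟪u i, v⟫ = 1) with hA
  have hAc : {i | ⟪u i, v⟫ = 1}.ncard = A.card := by
    rw [hA, ← ncard_coe_finset]
    congr 1
    ext i
    simp
  have h1 : A.card ≤ 3 := by rw [← hAc]; exact hs v hv
  have hmA : ∀ a, ⟪u a, v⟫ = 1 ↔ a ∈ A := by
    intro a
    rw [hA, Finset.mem_filter]
    simp
  have h2 : (A.erase i).card ≤ 2 := by
    rw [Finset.card_erase_of_mem ((hmA i).1 hi)]
    omega
  rcases Nat.lt_or_ge (A.erase i).card 2 with h4 | h4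
  · rcases Nat.lt_or_ge (A.erase i).card 1 with h5 | h5
    · have h6 : A.erase i = ∅ := Finset.card_eq_zero.1 (by omega)
      refine ⟨i, i, fun a => ?_⟩
      rw [hmA]
      constructor
      · intro ha
        by_contra hcon
        push Not at hcon
        have : a ∈ A.erase i := Finset.mem_erase.2 ⟨hcon.1, ha⟩
        rw [h6] at this
        simp at this
      · rintro (rfl | rfl | rfl) <;> exact (hmA _).1 hi
    · obtain ⟨j, hj⟩ := Finset.card_eq_one.1 (show (A.erase i).card = 1 by omega)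
      refine ⟨j, j, fun a => ?_⟩
      rw [hmA]
      constructor
      · intro ha
        by_cases hai : a = i
        · exact Or.inl hai
        · have : a ∈ A.erase i := Finset.mem_erase.2 ⟨hai, ha⟩
          rw [hj, Finset.mem_singleton] at this
          exact Or.inr (Or.inl this)
      · have hjA : j ∈ A := by
          have : j ∈ A.erase i := by rw [hj]; exact Finset.mem_singleton_self _
          exact Finset.mem_of_mem_erase this
        rintro (rfl | rfl | rfl)
        · exact (hmA _).1 hi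
        · exact hjA
        · exact hjA
  · obtain ⟨j, k, hjk, hj⟩ := Finset.card_eq_two.1 (show (A.erase i).card = 2 by omega)
    refine ⟨j, k, fun a => ?_⟩
    rw [hmA]
    have hjA : j ∈ A := by
      have : j ∈ A.erase i := by rw [hj]; simp
      exact Finset.mem_of_mem_erase this
    have hkA : k ∈ A := by
      have : k ∈ A.erase i := by rw [hj]; simp
      exact Finset.mem_of_mem_erase this
    constructor
    · intro ha
      by_cases hai : a = i
      · exact Or.inl hai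
      · have : a ∈ A.erase i := Finset.mem_erase.2 ⟨hai, ha⟩
        rw [hj, Finset.mem_insert, Finset.mem_singleton] at this
        exact Or.inr this
    · rintro (rfl | rfl | rfl)
      · exact (hmA _).1 hi
      · exact hjA
      · exact hkA

/-- Three equations with nonzero determinant have at most one solution. -/
theorem eq_of_three {a b c x y : E3} (hdet : det3 a b c ≠ 0) (h1 : ⟪a, x⟫ = ⟪a, y⟫)
    (h2 : ⟪b, x⟫ = ⟪b, y⟫) (h3 : ⟪c, x⟫ = ⟪c, y⟫) : x = y := by
  have e1 : ⟪a, x - y⟫ = 0 := by rw [inner_sub_right, h1, sub_self]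
  have e2 : ⟪b, x - y⟫ = 0 := by rw [inner_sub_right, h2, sub_self]
  have e3 : ⟪c, x - y⟫ = 0 := by rw [inner_sub_right, h3, sub_self]
  set z := x - y with hz
  rw [inner3] at e1 e2 e3
  have k0 : det3 a b c * z 0 = 0 := by
    simp only [det3]
    linear_combination (b 1 * c 2 - b 2 * c 1) * e1 + (c 1 * a 2 - c 2 * a 1) * e2 +
      (a 1 * b 2 - a 2 * b 1) * e3
  have k1 : det3 a b c * z 1 = 0 := by
    simp only [det3]
    linear_combination (b 2 * c 0 - b 0 * c 2) * e1 + (c 2 * a 0 - c 0 * a 2) * e2 +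
      (a 2 * b 0 - a 0 * b 2) * e3
  have k2 : det3 a b c * z 2 = 0 := by
    simp only [det3]
    linear_combination (b 0 * c 1 - b 1 * c 0) * e1 + (c 0 * a 1 - c 1 * a 0) * e2 +
      (a 0 * b 1 - a 1 * b 0) * e3
  have hz0 : z = 0 := by
    ext t
    fin_cases t
    · exact (mul_eq_zero.1 k0).resolve_left hdet
    · exact (mul_eq_zero.1 k1).resolve_left hdet
    · exact (mul_eq_zero.1 k2).resolve_left hdet
  exact sub_eq_zero.1 (hz ▸ hz0)

theorem lin_vtx (hc : IsConfig u) (hs : IsSimple u) (d : Dart u) :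
    lin u (fun _ => 1) (vtx hc hs d) = ⊥ := by
  rw [eq_bot_iff]
  intro z hz
  rw [Submodule.mem_bot]
  have hdet := (third_spec hc hs d.2).1.ne'
  apply eq_of_three hdet
  · rw [inner_zero_right]; exact hz _ (vtx_tail hc hs d)
  · rw [inner_zero_right]; exact hz _ (vtx_head hc hs d)
  · rw [inner_zero_right]; exact hz _ (vtx_third hc hs d)

theorem exists_dart (hc : IsConfig u) (hs : IsSimple u) {v : E3} (hv : v ∈ Poly u)
    (hl : lin u (fun _ => 1) v = ⊥) {i : Fin f} (hi : ⟪u i, v⟫ = 1) :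
    ∃ d : Dart u, d.1.1 = i ∧ vtx hc hs d = v := by
  obtain ⟨j, k, hact⟩ := exists_three hs hv hi
  have hdet := det_ne_zero_of_lin hc hact hl
  have hj : ⟪u j, v⟫ = 1 := (hact j).2 (by simp)
  have hk : ⟪u k, v⟫ = 1 := (hact k).2 (by simp)
  have main : ∀ j k : Fin f, ⟪u j, v⟫ = 1 → ⟪u k, v⟫ = 1 → 0 < det3 (u i) (u j) (u k) →
      ∃ d : Dart u, d.1.1 = i ∧ vtx hc hs d = v := by
    intro j k hj hk hpos
    have hcor : IsCorner u i j k := ⟨hpos, v, hv, hi, hj, hk⟩
    refine ⟨⟨(i, j), hcor.adj⟩, rfl, ?_⟩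
    have h3 : third hc hs hcor.adj = k := third_eq hc hs _ hcor
    apply eq_of_three hpos.ne'
    · rw [hi]; exact vtx_tail hc hs ⟨(i, j), hcor.adj⟩
    · rw [hj]; exact vtx_head hc hs ⟨(i, j), hcor.adj⟩
    · rw [hk]
      have := vtx_third hc hs ⟨(i, j), hcor.adj⟩
      have h4 : ((rhoE hc hs) ⟨(i, j), hcor.adj⟩ : Dart u).1.2 = k := h3
      rw [h4] at this
      exact this
  rcases lt_or_gt_of_ne hdet with h | h
  · exact main k j hk hj (by rw [det3_swap']; linarith)
  · exact main j k hj hk h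

theorem vtx_injOn (hc : IsConfig u) (hs : IsSimple u) {d d' : Dart u}
    (ht : d.1.1 = d'.1.1) (h : vtx hc hs d = vtx hc hs d') : d = d' := by
  have h1 := active_vtx hc hs d
  rw [h, active_vtx hc hs d'] at h1
  have h2 : d'.1.2 ∈ ({d.1.1, d.1.2, (rhoE hc hs d).1.2} : Set (Fin f)) := by
    rw [← h1]; simp
  simp only [mem_insert_iff, mem_singleton_iff] at h2
  have hne : d'.1.2 ≠ d.1.1 := by rw [ht]; exact d'.2.1.symm
  have hp1 : 0 < det3 (u d.1.1) (u d.1.2) (u (rhoE hc hs d).1.2) := (third_spec hc hs d.2).1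
  have hp2 : 0 < det3 (u d'.1.1) (u d'.1.2) (u (rhoE hc hs d').1.2) :=
    (third_spec hc hs d'.2).1
  rcases h2 with h2 | h2 | h2
  · exact absurd h2 hne
  · exact Subtype.ext (Prod.ext ht h2.symm)
  · exfalso
    have h3 : (rhoE hc hs d').1.2 ∈ ({d.1.1, d.1.2, (rhoE hc hs d).1.2} : Set (Fin f)) := by
      rw [← h1]; simp
    simp only [mem_insert_iff, mem_singleton_iff] at h3
    rcases h3 with h3 | h3 | h3
    · rw [← ht, h3] at hp2
      have : det3 (u d.1.1) (u d'.1.2) (u d.1.1) = 0 := by simp [det3]; ring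
      linarith
    · rw [← ht, h2, h3, det3_swap'] at hp2
      linarith
    · rw [← ht, h2, h3] at hp2
      have : det3 (u d.1.1) (u (rhoE hc hs d).1.2) (u (rhoE hc hs d).1.2) = 0 := by
        simp [det3]; ring
      linarith

/-- The number of sides of a facet is the number of its neighbours. -/
theorem sides_eq_deg (hc : IsConfig u) (hs : IsSimple u) (i : Fin f) :
    Goldberg.sides (Poly u) (mface u (fun _ => 1) (u i)) = deg u i := by
  rw [← card_darts_tail, Goldberg.sides]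
  have himg : {v | v ∈ Goldberg.faces (Poly u) 0 ∧ v ⊆ mface u (fun _ => 1) (u i)} =
      (fun d : Dart u => ({vtx hc hs d} : Set E3)) '' {d : Dart u | d.1.1 = i} := by
    ext F
    simp only [mem_ofPred_eq, mem_image]
    rw [poly_eq_HPoly, mem_faces_zero_iff]
    constructor
    · rintro ⟨⟨x, hx, rfl, hl⟩, hsub⟩
      have h1 := (mem_mface_unit hc).1 (hsub (mem_singleton x))
      obtain ⟨d, hd1, hd2⟩ := exists_dart hc hs hx hl h1.2
      exact ⟨d, hd1, by rw [hd2]⟩
    · rintro ⟨d, hd, rfl⟩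
      refine ⟨⟨vtx hc hs d, vtx_mem hc hs d, rfl, lin_vtx hc hs d⟩, ?_⟩
      rw [singleton_subset_iff, mem_mface_unit hc]
      exact ⟨vtx_mem hc hs d, by rw [← hd]; exact vtx_tail hc hs d⟩
  rw [himg, InjOn.ncard_image]
  intro d hd d' hd' h
  have h1 : vtx hc hs d = vtx hc hs d' := singleton_injective h
  have h2 : d.1.1 = i := hd
  have h3 : d'.1.1 = i := hd'
  exact vtx_injOn hc hs (h2.trans h3.symm) h1

end Config

section Homothety

/-- The homothety `y ↦ x + c • y` as an affine equivalence. -/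
def hom (x : E3) (c : ℝ) (hc : c ≠ 0) : E3 ≃ᵃ[ℝ] E3 :=
  (LinearEquiv.smulOfNeZero ℝ E3 c hc).toAffineEquiv.trans (AffineEquiv.constVAdd ℝ E3 x)

theorem hom_apply (x : E3) (c : ℝ) (hc : c ≠ 0) (y : E3) : hom x c hc y = x + c • y := rfl

theorem hom_symm_apply (x : E3) (c : ℝ) (hc : c ≠ 0) (y : E3) :
    (-(c⁻¹ • x)) + c⁻¹ • (x + c • y) = y := by
  rw [smul_add, smul_smul, inv_mul_cancel₀ hc, one_smul]
  abel

theorem face_image {Q F : Set E3} {k : ℕ} (x : E3) {c : ℝ} (hc : 0 < c)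
    (hF : F ∈ Goldberg.faces Q k) :
    (fun y => x + c • y) '' F ∈ Goldberg.faces ((fun y => x + c • y) '' Q) k := by
  obtain ⟨h1, h2, h3⟩ := hF
  refine ⟨h1.image _, ?_, ?_⟩
  · intro _
    obtain ⟨l, hl⟩ := h2 h1
    refine ⟨l, ?_⟩
    ext z
    constructor
    · rintro ⟨y, hy, rfl⟩
      rw [hl] at hy
      refine ⟨mem_image_of_mem _ hy.1, ?_⟩
      rintro _ ⟨w, hw, rfl⟩
      simp only [map_add, map_smul, smul_eq_mul]
      have := hy.2 w hw
      nlinarith
    · rintro ⟨⟨y, hy, rfl⟩, hz⟩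
      refine mem_image_of_mem _ ?_
      rw [hl]
      refine ⟨hy, fun w hw => ?_⟩
      have := hz _ (mem_image_of_mem _ hw)
      simp only [map_add, map_smul, smul_eq_mul] at this
      by_contra hcon
      push Not at hcon
      nlinarith
  · have himg : (fun y => x + c • y) '' F = (hom x c hc.ne').toAffineMap '' F := rfl
    rw [himg, ← AffineMap.map_vectorSpan]
    have h4 : (hom x c hc.ne').toAffineMap.linear =
        (LinearEquiv.smulOfNeZero ℝ E3 c hc.ne').toLinearMap := rfl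
    rw [h4, LinearEquiv.finrank_map_eq, h3]

theorem faces_image_iff {Q F : Set E3} {k : ℕ} (x : E3) {c : ℝ} (hc : 0 < c) :
    (fun y => x + c • y) '' F ∈ Goldberg.faces ((fun y => x + c • y) '' Q) k ↔
      F ∈ Goldberg.faces Q k := by
  refine ⟨fun h => ?_, face_image x hc⟩
  have h1 := face_image (-(c⁻¹ • x)) (inv_pos.2 hc) h
  rw [image_image, image_image] at h1
  simpa only [hom_symm_apply _ _ hc.ne', image_id'] using h1

theorem exists_preimage_face {Q G : Set E3} {k : ℕ} {x : E3} {c : ℝ} (hc : 0 < c)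
    (hG : G ∈ Goldberg.faces ((fun y => x + c • y) '' Q) k) :
    ∃ F ∈ Goldberg.faces Q k, (fun y => x + c • y) '' F = G := by
  have hG2 : G ⊆ range (fun y : E3 => x + c • y) := by
    intro z _
    refine ⟨c⁻¹ • (z - x), ?_⟩
    simp only
    rw [smul_smul, mul_inv_cancel₀ hc.ne', one_smul]
    abel
  obtain ⟨F, rfl⟩ := subset_range_iff_exists_image_eq.1 hG2
  exact ⟨F, (faces_image_iff x hc).1 hG, rfl⟩

theorem injective_hom (x : E3) {c : ℝ} (hc : 0 < c) :
    Function.Injective (fun y : E3 => x + c • y) := (hom x c hc.ne').injective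

theorem ncard_image_faces {Q V : Set E3} {k : ℕ} (x : E3) {c : ℝ} (hc : 0 < c) :
    {e | e ∈ Goldberg.faces ((fun y => x + c • y) '' Q) k ∧ (fun y => x + c • y) '' V ⊆ e}.ncard =
      {e | e ∈ Goldberg.faces Q k ∧ V ⊆ e}.ncard := by
  have : {e | e ∈ Goldberg.faces ((fun y => x + c • y) '' Q) k ∧
      (fun y => x + c • y) '' V ⊆ e} =
      (fun F => (fun y => x + c • y) '' F) '' {e | e ∈ Goldberg.faces Q k ∧ V ⊆ e} := by
    ext e
    constructor
    · rintro ⟨h1, h2⟩
      obtain ⟨F, hF, rfl⟩ := exists_preimage_face hc h1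
      exact ⟨F, ⟨hF, (image_subset_image_iff (injective_hom x hc)).1 h2⟩, rfl⟩
    · rintro ⟨F, ⟨h1, h2⟩, rfl⟩
      exact ⟨face_image x hc h1, image_mono h2⟩
  rw [this, ncard_image_of_injective _ (injective_hom x hc).image_injective]

theorem sides_image {Q F : Set E3} (x : E3) {c : ℝ} (hc : 0 < c) :
    Goldberg.sides ((fun y => x + c • y) '' Q) ((fun y => x + c • y) '' F) =
      Goldberg.sides Q F := by
  have : {v | v ∈ Goldberg.faces ((fun y => x + c • y) '' Q) 0 ∧
      v ⊆ (fun y => x + c • y) '' F} =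
      (fun F => (fun y => x + c • y) '' F) '' {v | v ∈ Goldberg.faces Q 0 ∧ v ⊆ F} := by
    ext e
    constructor
    · rintro ⟨h1, h2⟩
      obtain ⟨V, hV, rfl⟩ := exists_preimage_face hc h1
      exact ⟨V, ⟨hV, (image_subset_image_iff (injective_hom x hc)).1 h2⟩, rfl⟩
    · rintro ⟨V, ⟨h1, h2⟩, rfl⟩
      exact ⟨face_image x hc h1, image_mono h2⟩
  rw [Goldberg.sides, this, ncard_image_of_injective _ (injective_hom x hc).image_injective]
  rfl

theorem isSimple_image {Q : Set E3} (x : E3) {c : ℝ} (hc : 0 < c)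
    (h : Goldberg.IsSimple ((fun y => x + c • y) '' Q)) : Goldberg.IsSimple Q := by
  intro v hv
  rw [← ncard_image_faces x hc]
  exact h _ (face_image x hc hv)

theorem kf_eq_five {f : ℕ} (hf : 12 ≤ f) : Goldberg.kf f = 5 := by
  rw [Goldberg.kf, Int.floor_eq_iff]
  have h1 : (12 : ℝ) ≤ f := by exact_mod_cast hf
  have h2 : (12 : ℝ) / f ≤ 1 := by rw [div_le_one (by linarith)]; exact h1
  have h3 : (0 : ℝ) < 12 / f := by positivity
  constructor
  · push_cast
    linarith
  · push_cast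
    linarith

end Homothety

/-- A medial polyhedron which is homothetic to the polyhedron of a configuration comes from a
medial configuration. -/
theorem isMedial_of_homothetic {f : ℕ} (hf : 12 ≤ f) {P : Set E3} (hP : Goldberg.IsMedial f P)
    {u : Fin f → E3} (hu : IsConfig u) {c : ℝ} (hc : 0 < c) {x : E3}
    (h : P = (fun y => x + c • y) '' Poly u) : IsMedial u := by
  obtain ⟨-, -, h3, h4⟩ := hP
  rw [h] at h3 h4
  have hs : IsSimple u := isSimple_of hu (isSimple_image x hc h3)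
  refine { toIsConfig := hu, simple := hs, degs := fun i => ?_ }
  have h5 : mface u (fun _ => 1) (u i) ∈ Goldberg.faces (Poly u) 2 := by
    rw [faces_two hu]
    exact mem_range_self i
  have h6 := h4 _ (face_image x hc h5)
  rw [sides_image x hc, sides_eq_deg hu hs, kf_eq_five hf] at h6
  rcases h6 with h6 | h6
  · left
    exact_mod_cast h6
  · right
    have : ((deg u i : ℕ) : ℤ) = 6 := by rw [h6]; norm_num
    exact_mod_cast this

end BrB

end Gold
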