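import Pool.Agent.Lib.H81.Gold.UpperBound

/-!
# Cutting off a far vertex, and the pigeonhole choice of the number of faces (chunk H)
-/

noncomputable section

open MeasureTheory Metric Set
open scoped RealInnerProductSpace

namespace Gold

/-- Every unit vector can be completed to a positively oriented orthonormal frame. -/
theorem exists_frameH {c : E3} (hc : ‖c‖ = 1) :
    ∃ a b : E3, ‖a‖ = 1 ∧ ‖b‖ = 1 ∧ ⟪c, a⟫ = 0 ∧ ⟪c, b⟫ = 0 ∧ det3 c a b = 1 := by
  have hc2 : c 0 ^ 2 + c 1 ^ 2 + c 2 ^ 2 = 1 := by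
    rw [← normsq3, hc]; norm_num
  -- a nonzero vector orthogonal to `c`
  obtain ⟨v, hv0, hv⟩ : ∃ v : E3, v ≠ 0 ∧ ⟪c, v⟫ = 0 := by
    by_cases h : c 0 = 0 ∧ c 1 = 0
    · refine ⟨!₂[1, 0, 0], ?_, ?_⟩
      · intro h0
        have := congrArg (fun w : E3 => w 0) h0
        simp at this
      · rw [inner3]
        simp [h.1]
    · refine ⟨!₂[-c 1, c 0, 0], ?_, ?_⟩
      · intro h0
        have e0 := congrArg (fun w : E3 => w 0) h0
        have e1 := congrArg (fun w : E3 => w 1) h0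
        simp at e0 e1
        exact h ⟨e1, e0⟩
      · rw [inner3]
        simp
        ring
  have hvn : 0 < ‖v‖ := norm_pos_iff.mpr hv0
  set a : E3 := (‖v‖)⁻¹ • v with ha
  have han : ‖a‖ = 1 := by
    rw [ha, norm_smul, norm_inv, norm_norm]
    exact inv_mul_cancel₀ hvn.ne'
  have hca : ⟪c, a⟫ = 0 := by
    rw [ha, inner_smul_right, hv, mul_zero]
  have hbn : ‖cr c a‖ ^ 2 = 1 := by
    rw [normsq_cr, hc, han, hca]; norm_num
  have hbn1 : ‖cr c a‖ = 1 := by
    have h0 : 0 ≤ ‖cr c a‖ := norm_nonneg _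
    nlinarith
  refine ⟨a, cr c a, han, hbn1, hca, ?_, ?_⟩
  · rw [inner_cr_right]
    simp [det3]; ring
  · rw [← inner_cr_left, real_inner_self_eq_norm_sq, hbn]

/-- The point at height one on the segment from `ρ c` to a tangent point. -/
theorem inner_tangent_le {v c a : E3} {ρ : ℝ} (hv : ‖v‖ = 1) (hc : ‖c‖ = 1) (ha : ‖a‖ = 1)
    (hca : ⟪c, a⟫ = 0) (hρ : 1 < ρ) (hvx : ⟪v, ρ • c⟫ ≤ 1) :
    ⟪v, c⟫ + Real.sqrt ((ρ - 1) / (ρ + 1)) * ⟪v, a⟫ ≤ 1 := by
  set r := Real.sqrt ((ρ - 1) / (ρ + 1)) with hr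
  have hr2 : r ^ 2 = (ρ - 1) / (ρ + 1) :=
    Real.sq_sqrt (div_nonneg (by linarith) (by linarith))
  have hr0 : 0 ≤ r := Real.sqrt_nonneg _
  have hp : 0 < ρ + 1 := by linarith
  have hr3 : r ^ 2 * (ρ + 1) = ρ - 1 := by
    rw [hr2]; field_simp
  -- the tangent point
  have ht : ‖(1 / ρ) • c + (r * (ρ + 1) / ρ) • a‖ = 1 := by
    have h0 : ‖(1 / ρ) • c + (r * (ρ + 1) / ρ) • a‖ ^ 2 = 1 := by
      rw [norm_add_sq_real, norm_smul, norm_smul, real_inner_smul_left, real_inner_smul_right,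
        hca, hc, ha, Real.norm_eq_abs, Real.norm_eq_abs]
      rw [mul_one, mul_one, sq_abs, sq_abs]
      have hρ0 : ρ ≠ 0 := by linarith
      field_simp
      nlinarith [hr3]
    have h1 : 0 ≤ ‖(1 / ρ) • c + (r * (ρ + 1) / ρ) • a‖ := norm_nonneg _
    nlinarith
  have h2 : ⟪v, (1 / ρ) • c + (r * (ρ + 1) / ρ) • a⟫ ≤ 1 := by
    have := real_inner_le_norm v ((1 / ρ) • c + (r * (ρ + 1) / ρ) • a)
    rw [hv, ht] at this
    linarith
  rw [inner_add_right, inner_smul_right, inner_smul_right] at h2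
  rw [inner_smul_right] at hvx
  have hρ0 : 0 < ρ := by linarith
  -- combine with weights 1/(ρ+1) and ρ/(ρ+1)
  have h3 : ρ * ⟪v, c⟫ + ρ * (1 / ρ * ⟪v, c⟫ + r * (ρ + 1) / ρ * ⟪v, a⟫) ≤ 1 + ρ * 1 :=
    add_le_add hvx (mul_le_mul_of_nonneg_left h2 hρ0.le)
  have h4 : ρ * ⟪v, c⟫ + ρ * (1 / ρ * ⟪v, c⟫ + r * (ρ + 1) / ρ * ⟪v, a⟫) =
      (ρ + 1) * (⟪v, c⟫ + r * ⟪v, a⟫) := by
    field_simp
    ring
  rw [h4] at h3
  have h5 : (ρ + 1) * (⟪v, c⟫ + r * ⟪v, a⟫) ≤ (ρ + 1) * 1 := by linarith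
  exact le_of_mul_le_mul_left h5 hp

theorem isClosed_PolyH {f : ℕ} (u : Fin f → E3) : IsClosed (Poly u) := by
  have : Poly u = ⋂ i, {x : E3 | ⟪u i, x⟫ ≤ 1} := by
    ext x; simp [Poly]
  rw [this]
  exact isClosed_iInter fun i =>
    isClosed_le (continuous_const.inner continuous_id) continuous_const

/-- Cutting off a point of norm `> 1` by one more face. -/
theorem cut {f : ℕ} {u : Fin f → E3} (hc : IsConfig u) {x : E3} (hx : x ∈ Poly u)
    (h1 : 1 < ‖x‖) :
    ∃ w : Fin (f + 1) → E3, IsConfig w ∧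
      vol (Poly w) ≤ vol (Poly u) - (‖x‖ - 1) ^ 2 / (6 * (‖x‖ + 1)) := by
  set ρ := ‖x‖ with hρ
  have hρ0 : 0 < ρ := by linarith
  set c : E3 := ρ⁻¹ • x with hcdef
  have hcn : ‖c‖ = 1 := by
    rw [hcdef, norm_smul, norm_inv, Real.norm_eq_abs, abs_of_pos hρ0, ← hρ]
    exact inv_mul_cancel₀ hρ0.ne'
  have hxc : x = ρ • c := by
    rw [hcdef, smul_smul, mul_inv_cancel₀ hρ0.ne', one_smul]
  have hcx : ⟪c, x⟫ = ρ := by
    rw [hxc, inner_smul_right, real_inner_self_eq_norm_sq, hcn]; ring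
  set w : Fin (f + 1) → E3 := Fin.snoc u c with hw
  have hwlast : w (Fin.last f) = c := by simp [hw]
  have hwcast : ∀ i : Fin f, w i.castSucc = u i := by intro i; simp [hw]
  have hsub : Poly w ⊆ Poly u := by
    intro y hy i
    have := hy i.castSucc
    rwa [hwcast] at this
  have hcfg : IsConfig w := by
    refine ⟨?_, ?_, hc.bdd.subset hsub⟩
    · intro i
      refine Fin.lastCases ?_ (fun j => ?_) i
      · rw [hwlast, hcn]
      · rw [hwcast]; exact hc.unit j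
    · have hne : ∀ i : Fin f, u i ≠ c := by
        intro i h
        have := hx i
        rw [h, hcx] at this
        linarith
      intro i j
      refine Fin.lastCases ?_ (fun i => ?_) i
      · refine Fin.lastCases ?_ (fun j => ?_) j
        · intro _; rfl
        · intro h
          rw [hwlast, hwcast] at h
          exact absurd h.symm (hne j)
      · refine Fin.lastCases ?_ (fun j => ?_) j
        · intro h
          rw [hwlast, hwcast] at h
          exact absurd h (hne i)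
        · intro h
          rw [hwcast, hwcast] at h
          rw [hc.inj h]
  refine ⟨w, hcfg, ?_⟩
  obtain ⟨a, b, ha, hb, hca, hcb, hdet⟩ := exists_frameH hcn
  set r := Real.sqrt ((ρ - 1) / (ρ + 1)) with hr
  have hr2 : r ^ 2 = (ρ - 1) / (ρ + 1) :=
    Real.sq_sqrt (div_nonneg (by linarith) (by linarith))
  have hdet2 : det3 ((ρ - 1) • c) (r • a) (r • b) = (ρ - 1) ^ 2 / (ρ + 1) := by
    have h3 : det3 ((ρ - 1) • c) (r • a) (r • b) = (ρ - 1) * r ^ 2 * det3 c a b := by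
      simp [det3]; ring
    rw [h3, hdet, hr2]
    field_simp
  have hpos : 0 < det3 ((ρ - 1) • c) (r • a) (r • b) := by
    rw [hdet2]
    have : 0 < ρ - 1 := by linarith
    positivity
  set K : Set E3 := osx ((ρ - 1) • c) (r • a) (r • b) with hK
  set T : Set E3 := (fun y => c + y) '' K with hT
  have hTvol : volume T = ENNReal.ofReal ((ρ - 1) ^ 2 / (6 * (ρ + 1))) := by
    have h5 : volume T = volume K := by
      rw [hT]
      simp
    rw [h5, hK, volume_osx hpos, hdet2]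
    congr 1
    field_simp
  have hTsub : T ⊆ Poly u := by
    rintro _ ⟨y, ⟨α, β, γ, h2, h3, h4, h5, rfl⟩, rfl⟩ i
    have e1 := real_inner_le_norm (u i) c
    rw [hc.unit i, hcn, mul_one] at e1
    have e2 : ⟪u i, ρ • c⟫ ≤ 1 := by rw [← hxc]; exact hx i
    have e3 := inner_tangent_le (hc.unit i) hcn ha hca h1 e2
    have e4 := inner_tangent_le (hc.unit i) hcn hb hcb h1 e2
    rw [← hr] at e3 e4
    rw [inner_smul_right] at e2
    show ⟪u i, c + (α • ((ρ - 1) • c) + β • (r • a) + γ • (r • b))⟫ ≤ 1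
    simp only [inner_add_right, inner_smul_right]
    have h6 : ⟪u i, c⟫ + (α * ((ρ - 1) * ⟪u i, c⟫) + β * (r * ⟪u i, a⟫) + γ * (r * ⟪u i, b⟫)) =
        (1 - α - β - γ) * ⟪u i, c⟫ + α * (ρ * ⟪u i, c⟫) + β * (⟪u i, c⟫ + r * ⟪u i, a⟫) +
          γ * (⟪u i, c⟫ + r * ⟪u i, b⟫) := by ring
    rw [h6]
    have f1 : (1 - α - β - γ) * ⟪u i, c⟫ ≤ (1 - α - β - γ) * 1 :=
      mul_le_mul_of_nonneg_left e1 (by linarith)
    have f2 : α * (ρ * ⟪u i, c⟫) ≤ α * 1 := mul_le_mul_of_nonneg_left e2 h2.le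
    have f3 := mul_le_mul_of_nonneg_left e3 h3.le
    have f4 := mul_le_mul_of_nonneg_left e4 h4.le
    linarith
  have hdisj : Disjoint (Poly w) T := by
    rw [Set.disjoint_left]
    rintro y hy ⟨z, ⟨α, β, γ, h2, h3, h4, h5, rfl⟩, rfl⟩
    have h6 := hy (Fin.last f)
    rw [hwlast] at h6
    simp only [inner_add_right, inner_smul_right, real_inner_self_eq_norm_sq, hcn, hca, hcb] at h6
    have : 0 < α * (ρ - 1) := mul_pos h2 (by linarith)
    nlinarith
  have hfin : volume (Poly u) ≠ ⊤ := hc.bdd.measure_lt_top.ne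
  have hfinw : volume (Poly w) ≠ ⊤ := hcfg.bdd.measure_lt_top.ne
  have hsum : volume (Poly w) + volume T ≤ volume (Poly u) := by
    rw [← measure_union' hdisj (isClosed_PolyH w).measurableSet]
    exact measure_mono (union_subset hsub hTsub)
  have hsum2 := ENNReal.toReal_mono hfin hsum
  have hTfin : volume T ≠ ⊤ := by rw [hTvol]; exact ENNReal.ofReal_ne_top
  rw [ENNReal.toReal_add hfinw hTfin, hTvol, ENNReal.toReal_ofReal (by positivity)] at hsum2
  show (volume (Poly w)).toReal ≤ (volume (Poly u)).toReal - _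
  linarith

theorem ball_subset_Poly' {f : ℕ} {u : Fin f → E3} (hc : IsConfig u) :
    ball (0 : E3) 1 ⊆ Poly u := by
  intro x hx i
  have h1 := real_inner_le_norm (u i) x
  rw [hc.unit i, one_mul] at h1
  rw [mem_ball_zero_iff] at hx
  linarith

theorem four_pi_le_vol' {f : ℕ} {u : Fin f → E3} (hc : IsConfig u) :
    4 * Real.pi / 3 ≤ vol (Poly u) := by
  have h1 : volume (ball (0 : E3) 1) ≤ volume (Poly u) := measure_mono (ball_subset_Poly' hc)
  have h2 := ENNReal.toReal_mono hc.bdd.measure_lt_top.ne h1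
  have h3 : (volume (ball (0 : E3) 1)).toReal = 4 * Real.pi / 3 := by
    rw [EuclideanSpace.volume_ball_fin_three]
    simp
    rw [ENNReal.toReal_ofReal (by positivity)]
    ring
  rw [h3] at h2
  exact h2

/-- Among the minimal configurations with `F ≤ f ≤ 2 F` faces, one is uniformly round. -/
theorem exists_round :
    ∃ C : ℝ, 0 < C ∧ ∃ F₁ : ℕ, ∀ F : ℕ, F₁ ≤ F → ∀ U : (f : ℕ) → Fin f → E3,
      (∀ f, F ≤ f → f ≤ 2 * F → IsConfig (U f) ∧ IsMin (U f)) →
      ∃ f, F ≤ f ∧ f < 2 * F ∧ ∀ x ∈ Poly (U f), ‖x‖ ^ 2 ≤ 1 + C ^ 2 / f := by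
  obtain ⟨F₀, hF₀⟩ := upper_bound (ε := 1) one_pos
  set C0 : ℝ := cHex + 1 with hC0
  have hC0pos : 0 < C0 := by
    have : 0 < cHex := by unfold cHex; positivity
    linarith
  set q : ℝ := Real.sqrt (6 * C0) with hq
  have hq2 : q ^ 2 = 6 * C0 := Real.sq_sqrt (by linarith)
  have hqpos : 0 < q := Real.sqrt_pos.mpr (by linarith)
  refine ⟨Real.sqrt (16 * q), Real.sqrt_pos.mpr (by linarith), max F₀ (max 1 ⌈q⌉₊), ?_⟩
  intro F hF U hU
  have hFF₀ : F₀ ≤ F := (le_max_left _ _).trans hF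
  have hF1 : 1 ≤ F := ((le_max_left _ _).trans (le_max_right _ _)).trans hF
  have hFq : q ≤ F := by
    have h1 : ⌈q⌉₊ ≤ F := ((le_max_right _ _).trans (le_max_right _ _)).trans hF
    exact (Nat.le_ceil q).trans (by exact_mod_cast h1)
  have hFpos : (0 : ℝ) < F := by exact_mod_cast hF1
  set v : ℕ → ℝ := fun k => vol (Poly (U (F + k))) with hv
  have hup : v 0 ≤ 4 * Real.pi / 3 + C0 / F := by
    obtain ⟨w, hw, hwv⟩ := hF₀ F hFF₀
    exact ((hU F le_rfl (by omega)).2 w hw).trans hwv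
  have hlow : 4 * Real.pi / 3 ≤ v F := four_pi_le_vol' (hU (F + F) (by omega) (by omega)).1
  -- pigeonhole
  obtain ⟨k, hk, hkv⟩ : ∃ k < F, v k - v (k + 1) ≤ C0 / F ^ 2 := by
    by_contra hcon
    push Not at hcon
    have h1 : ∑ k ∈ Finset.range F, C0 / (F : ℝ) ^ 2 < ∑ k ∈ Finset.range F, (v k - v (k + 1)) :=
      Finset.sum_lt_sum_of_nonempty ⟨0, Finset.mem_range.mpr hF1⟩
        (fun k hk => hcon k (Finset.mem_range.mp hk))
    rw [Finset.sum_range_sub', Finset.sum_const, Finset.card_range, nsmul_eq_mul] at h1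
    have h2 : (F : ℝ) * (C0 / (F : ℝ) ^ 2) = C0 / F := by field_simp
    rw [h2] at h1
    linarith
  refine ⟨F + k, by omega, by omega, ?_⟩
  intro x hx
  have hfk : (0 : ℝ) < ((F + k : ℕ) : ℝ) := by exact_mod_cast (by omega : 0 < F + k)
  rw [Real.sq_sqrt (by linarith)]
  by_cases h1 : ‖x‖ ≤ 1
  · have h2 : 0 ≤ 16 * q / ((F + k : ℕ) : ℝ) := by positivity
    have h3 : 0 ≤ ‖x‖ := norm_nonneg x
    nlinarith
  push Not at h1
  obtain ⟨w, hw, hwv⟩ := cut (hU (F + k) (by omega) (by omega)).1 hx h1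
  have h2 : v (k + 1) ≤ vol (Poly w) := (hU (F + k + 1) (by omega) (by omega)).2 w hw
  set s := ‖x‖ - 1 with hs
  have hs0 : 0 < s := by linarith
  have h3 : s ^ 2 / (6 * (‖x‖ + 1)) ≤ C0 / F ^ 2 := by
    have : v k = vol (Poly (U (F + k))) := rfl
    linarith
  have h4 : ‖x‖ + 1 = s + 2 := by linarith
  rw [h4, div_le_div_iff₀ (by linarith) (by positivity)] at h3
  -- s² F² ≤ 6 C0 (s+2) = q² (s+2)
  have h5 : (s * F) ^ 2 ≤ q ^ 2 * (s + 2) := by
    rw [hq2]; nlinarith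
  have h6 : s ≤ 2 := by
    by_contra hcon
    push Not at hcon
    have h7 : (s * q) ^ 2 ≤ (s * F) ^ 2 := by
      apply pow_le_pow_left₀ (by positivity)
      exact mul_le_mul_of_nonneg_left hFq hs0.le
    have h8 : q ^ 2 * s ^ 2 ≤ q ^ 2 * (s + 2) := by nlinarith
    have h9 : s ^ 2 ≤ s + 2 := le_of_mul_le_mul_left h8 (by positivity)
    nlinarith
  have h7 : s * F ≤ 2 * q := by
    have h8 : (s * F) ^ 2 ≤ (2 * q) ^ 2 := by nlinarith
    exact (pow_le_pow_iff_left₀ (by positivity) (by positivity) two_ne_zero).mp h8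
  have h8 : ‖x‖ ^ 2 = 1 + s * (s + 2) := by
    have : ‖x‖ = s + 1 := by linarith
    rw [this]; ring
  rw [h8]
  have h9 : s * (s + 2) ≤ 4 * s := by nlinarith
  have h10 : 4 * s ≤ 16 * q / ((F + k : ℕ) : ℝ) := by
    rw [le_div_iff₀ hfk]
    have h11 : ((F + k : ℕ) : ℝ) ≤ 2 * F := by
      push_cast
      have : (k : ℝ) ≤ F := by exact_mod_cast hk.le
      linarith
    nlinarith
  linarith

end Gold
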