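import Pool.Agent.Lib.H81.Gold.Vec

/-!
# Simplex integrals (chunk S)
-/

noncomputable section

open MeasureTheory Metric Set
open scoped RealInnerProductSpace

namespace Gold

/-- Open simplex with vertices `0, a, b, c`. -/
def osx (a b c : E3) : Set E3 :=
  {x | ∃ α β γ : ℝ, 0 < α ∧ 0 < β ∧ 0 < γ ∧ α + β + γ < 1 ∧ x = α • a + β • b + γ • c}

/-- Closed simplex with vertices `0, a, b, c`. -/
def csx (a b c : E3) : Set E3 :=
  {x | ∃ α β γ : ℝ, 0 ≤ α ∧ 0 ≤ β ∧ 0 ≤ γ ∧ α + β + γ ≤ 1 ∧ x = α • a + β • b + γ • c}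

theorem osx_subset_csx (a b c : E3) : osx a b c ⊆ csx a b c := by
  rintro x ⟨α, β, γ, h1, h2, h3, h4, h5⟩
  exact ⟨α, β, γ, h1.le, h2.le, h3.le, h4.le, h5⟩

namespace Sx

/-- Fubini over the region under a graph. -/
theorem setIntegral_under {X : Type*} [MeasureSpace X] [SFinite (volume : Measure X)]
    {S0 : Set X} (hS0 : MeasurableSet S0) {g : X → ℝ} {S : Set (X × ℝ)} (hS : MeasurableSet S)
    (hS' : ∀ p z, (p, z) ∈ S ↔ p ∈ S0 ∧ z ∈ Ioo 0 (g p)) {F : X × ℝ → ℝ}
    (hF : IntegrableOn F S) :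
    ∫ w in S, F w = ∫ p in S0, ∫ z in Ioo 0 (g p), F (p, z) := by
  rw [← integral_indicator hS, Measure.volume_eq_prod, integral_prod, ← integral_indicator hS0]
  · refine integral_congr_ae (Filter.Eventually.of_forall fun p => ?_)
    by_cases hp : p ∈ S0
    · simp only [indicator_of_mem hp]
      rw [← integral_indicator measurableSet_Ioo]
      refine integral_congr_ae (Filter.Eventually.of_forall fun z => ?_)
      by_cases hz : z ∈ Ioo 0 (g p)
      · simp only
        rw [indicator_of_mem hz, indicator_of_mem ((hS' p z).2 ⟨hp, hz⟩)]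
      · simp only
        rw [indicator_of_notMem hz, indicator_of_notMem (fun h => hz ((hS' p z).1 h).2)]
    · simp only [indicator_of_notMem hp]
      have : ∀ z, S.indicator F (p, z) = 0 := fun z =>
        indicator_of_notMem (fun h => hp ((hS' p z).1 h).1) _
      simp [this]
  · rw [← Measure.volume_eq_prod]
    exact (integrable_indicator_iff hS).2 hF

/-- coordinates -/
def co : E3 ≃ᵐ (ℝ × ℝ) × ℝ :=
  (MeasurableEquiv.toLp 2 (Fin 3 → ℝ)).symm.trans
    ((MeasurableEquiv.piFinSuccAbove (fun _ => ℝ) (Fin.last 2)).trans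
      (((MeasurableEquiv.refl ℝ).prodCongr MeasurableEquiv.finTwoArrow).trans
        MeasurableEquiv.prodComm))

theorem co_apply (w : E3) : co w = ((w 0, w 1), w 2) := by
  simp only [co, MeasurableEquiv.trans_apply]
  rfl

theorem co_mp : MeasurePreserving co := by
  refine ((EuclideanSpace.volume_preserving_symm_measurableEquiv_toLp (Fin 3))).trans ?_
  refine (volume_preserving_piFinSuccAbove (fun _ => ℝ) (Fin.last 2)).trans ?_
  refine ((MeasurePreserving.id volume).prod (volume_preserving_finTwoArrow ℝ)).trans ?_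
  exact Measure.measurePreserving_swap

/-- the standard open simplex -/
def ST : Set E3 := {w | 0 < w 0 ∧ 0 < w 1 ∧ 0 < w 2 ∧ w 0 + w 1 + w 2 < 1}

theorem isOpen_ST : IsOpen ST := by
  have e : ST = {w : E3 | 0 < w 0} ∩ ({w : E3 | 0 < w 1} ∩ ({w : E3 | 0 < w 2} ∩
    {w : E3 | w 0 + w 1 + w 2 < 1})) := rfl
  rw [e]
  exact (isOpen_lt continuous_const (by fun_prop)).inter
    ((isOpen_lt continuous_const (by fun_prop)).inter
      ((isOpen_lt continuous_const (by fun_prop)).inter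
        (isOpen_lt (by fun_prop) continuous_const)))

theorem ST_integral {G : (ℝ × ℝ) × ℝ → ℝ} (hG : Continuous G) :
    ∫ w in ST, G ((w 0, w 1), w 2) =
      ∫ x in (0:ℝ)..1, ∫ y in (0:ℝ)..(1 - x), ∫ z in (0:ℝ)..(1 - x - y), G ((x, y), z) := by
  set S : Set ((ℝ × ℝ) × ℝ) := {p | 0 < p.1.1 ∧ 0 < p.1.2 ∧ 0 < p.2 ∧ p.1.1 + p.1.2 + p.2 < 1}
    with hSdef
  have hSo : IsOpen S := by
    have e : S = {p : (ℝ × ℝ) × ℝ | 0 < p.1.1} ∩ ({p | 0 < p.1.2} ∩ ({p | 0 < p.2} ∩
      {p | p.1.1 + p.1.2 + p.2 < 1})) := rfl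
    rw [e]
    exact (isOpen_lt continuous_const (by fun_prop)).inter
      ((isOpen_lt continuous_const (by fun_prop)).inter
        ((isOpen_lt continuous_const (by fun_prop)).inter
          (isOpen_lt (by fun_prop) continuous_const)))
  have hpre : ST = co ⁻¹' S := by
    ext w
    rw [mem_preimage, co_apply]
    rfl
  have h1 : ∫ w in ST, G ((w 0, w 1), w 2) = ∫ p in S, G p := by
    rw [hpre]
    rw [← co_mp.setIntegral_preimage_emb co.measurableEmbedding G S]
    refine setIntegral_congr_fun (co.measurable hSo.measurableSet) fun w _ => ?_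
    simp only [co_apply]
  have hK : IsCompact ((Icc (0:ℝ) 1 ×ˢ Icc (0:ℝ) 1) ×ˢ Icc (0:ℝ) 1) :=
    (isCompact_Icc.prod isCompact_Icc).prod isCompact_Icc
  have hSK : S ⊆ (Icc (0:ℝ) 1 ×ˢ Icc (0:ℝ) 1) ×ˢ Icc (0:ℝ) 1 := by
    rintro p ⟨h1, h2, h3, h4⟩
    exact ⟨⟨⟨h1.le, by linarith⟩, ⟨h2.le, by linarith⟩⟩, ⟨h3.le, by linarith⟩⟩
  have hint : IntegrableOn G S := (hG.continuousOn.integrableOn_compact hK).mono_set hSK
  set S0 : Set (ℝ × ℝ) := {p | 0 < p.1 ∧ 0 < p.2 ∧ p.1 + p.2 < 1} with hS0def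
  have hS0o : IsOpen S0 := by
    have e : S0 = {p : ℝ × ℝ | 0 < p.1} ∩ ({p | 0 < p.2} ∩ {p | p.1 + p.2 < 1}) := rfl
    rw [e]
    exact (isOpen_lt continuous_const (by fun_prop)).inter
      ((isOpen_lt continuous_const (by fun_prop)).inter
        (isOpen_lt (by fun_prop) continuous_const))
  have h2 := setIntegral_under (S0 := S0) hS0o.measurableSet (g := fun p => 1 - p.1 - p.2)
    hSo.measurableSet (by
      intro p z
      simp only [hSdef, hS0def, Set.mem_ofPred_eq, mem_Ioo]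
      constructor
      · rintro ⟨h1, h2, h3, h4⟩; exact ⟨⟨h1, h2, by linarith⟩, h3, by linarith⟩
      · rintro ⟨⟨h1, h2, h3⟩, h4, h5⟩; exact ⟨h1, h2, h4, by linarith⟩) hint
  have h3 : ∀ p ∈ S0, ∫ z in Ioo 0 (1 - p.1 - p.2), G (p, z) =
      ∫ z in (0:ℝ)..(1 - p.1 - p.2), G (p, z) := by
    rintro p ⟨h1, h2, h3⟩
    rw [intervalIntegral.integral_of_le (by linarith), integral_Ioc_eq_integral_Ioo]
  rw [h1, h2, setIntegral_congr_fun hS0o.measurableSet h3]
  have hK0 : IsCompact (Icc (0:ℝ) 1 ×ˢ Icc (0:ℝ) 1) := isCompact_Icc.prod isCompact_Icc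
  have hSK0 : S0 ⊆ Icc (0:ℝ) 1 ×ˢ Icc (0:ℝ) 1 := by
    rintro p ⟨h1, h2, h3⟩
    exact ⟨⟨h1.le, by linarith⟩, ⟨h2.le, by linarith⟩⟩
  have hc : Continuous (fun p : ℝ × ℝ => ∫ z in (0:ℝ)..(1 - p.1 - p.2), G (p, z)) := by
    apply intervalIntegral.continuous_parametric_intervalIntegral_of_continuous
    · exact hG
    · fun_prop
  have hint0 := (hc.continuousOn.integrableOn_compact hK0 (μ := volume)).mono_set hSK0
  have h4 := setIntegral_under (S0 := Ioo (0:ℝ) 1) measurableSet_Ioo (g := fun x => 1 - x)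
    hS0o.measurableSet (by
      intro p z
      simp only [hS0def, Set.mem_ofPred_eq, mem_Ioo]
      constructor
      · rintro ⟨h1, h2, h3⟩; exact ⟨⟨h1, by linarith⟩, h2, by linarith⟩
      · rintro ⟨⟨h1, h2⟩, h4, h5⟩; exact ⟨h1, h4, by linarith⟩) hint0
  rw [h4, intervalIntegral.integral_of_le zero_le_one, integral_Ioc_eq_integral_Ioo]
  refine setIntegral_congr_fun measurableSet_Ioo fun x hx => ?_
  simp only
  rw [intervalIntegral.integral_of_le (by linarith [hx.2]), integral_Ioc_eq_integral_Ioo]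

/-- integral of a quartic polynomial -/
theorem int4 (a0 a1 a2 a3 a4 c : ℝ) (f : ℝ → ℝ)
    (hf : ∀ x, f x = a0 + a1 * x + a2 * x ^ 2 + a3 * x ^ 3 + a4 * x ^ 4) :
    ∫ x in (0:ℝ)..c, f x =
      a0 * c + a1 * c ^ 2 / 2 + a2 * c ^ 3 / 3 + a3 * c ^ 4 / 4 + a4 * c ^ 5 / 5 := by
  have h : ∀ x ∈ uIcc (0:ℝ) c, HasDerivAt
      (fun x => a0 * x + a1 * x ^ 2 / 2 + a2 * x ^ 3 / 3 + a3 * x ^ 4 / 4 + a4 * x ^ 5 / 5)
      (f x) x := by
    intro x _
    have h1 := ((hasDerivAt_id x).const_mul a0)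
    have h2 := (((hasDerivAt_pow 2 x).const_mul a1).div_const 2)
    have h3 := (((hasDerivAt_pow 3 x).const_mul a2).div_const 3)
    have h4 := (((hasDerivAt_pow 4 x).const_mul a3).div_const 4)
    have h5 := (((hasDerivAt_pow 5 x).const_mul a4).div_const 5)
    refine ((((h1.add h2).add h3).add h4).add h5).congr_deriv ?_
    rw [hf]
    norm_num
    ring
  rw [intervalIntegral.integral_eq_sub_of_hasDerivAt h]
  · ring
  · apply Continuous.intervalIntegrable
    have : f = fun x => a0 + a1 * x + a2 * x ^ 2 + a3 * x ^ 3 + a4 * x ^ 4 := funext hf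
    rw [this]
    fun_prop

theorem ST_one : ∫ _w in ST, (1 : ℝ) = 1 / 6 := by
  rw [ST_integral (G := fun _ => 1) continuous_const]
  have h0 : ∀ x y : ℝ, ∫ z in (0:ℝ)..(1 - x - y), (1:ℝ) = 1 - x - y := fun x y => by
    rw [int4 1 0 0 0 0 _ _ (fun z => by ring)]; ring
  have h1 : ∀ x : ℝ, ∫ y in (0:ℝ)..(1 - x), (1 - x - y) = (1 - x) ^ 2 / 2 := fun x => by
    rw [int4 (1 - x) (-1) 0 0 0 _ _ (fun z => by ring)]; ring
  simp_rw [h0, h1]
  rw [int4 (1/2) (-1) (1/2) 0 0 _ _ (fun z => by ring)]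
  norm_num

theorem ST_xx : ∫ w in ST, (w 0) ^ 2 = 1 / 60 := by
  rw [ST_integral (G := fun p => p.1.1 ^ 2) (by fun_prop)]
  have h0 : ∀ x y : ℝ, ∫ z in (0:ℝ)..(1 - x - y), x ^ 2 = x ^ 2 * (1 - x - y) := fun x y => by
    rw [int4 (x ^ 2) 0 0 0 0 _ _ (fun z => by ring)]; ring
  have h1 : ∀ x : ℝ, ∫ y in (0:ℝ)..(1 - x), x ^ 2 * (1 - x - y) = x ^ 2 * (1 - x) ^ 2 / 2 :=
    fun x => by
      rw [int4 (x ^ 2 * (1 - x)) (-x ^ 2) 0 0 0 _ _ (fun z => by ring)]; ring
  simp_rw [h0, h1]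
  rw [int4 0 0 (1/2) (-1) (1/2) _ _ (fun z => by ring)]
  norm_num

theorem ST_yy : ∫ w in ST, (w 1) ^ 2 = 1 / 60 := by
  rw [ST_integral (G := fun p => p.1.2 ^ 2) (by fun_prop)]
  have h0 : ∀ x y : ℝ, ∫ z in (0:ℝ)..(1 - x - y), y ^ 2 = y ^ 2 * (1 - x - y) := fun x y => by
    rw [int4 (y ^ 2) 0 0 0 0 _ _ (fun z => by ring)]; ring
  have h1 : ∀ x : ℝ, ∫ y in (0:ℝ)..(1 - x), y ^ 2 * (1 - x - y) = (1 - x) ^ 4 / 12 :=
    fun x => by
      rw [int4 0 0 (1 - x) (-1) 0 _ _ (fun z => by ring)]; ring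
  simp_rw [h0, h1]
  rw [int4 (1/12) (-4/12) (6/12) (-4/12) (1/12) _ _ (fun z => by ring)]
  norm_num

theorem ST_zz : ∫ w in ST, (w 2) ^ 2 = 1 / 60 := by
  rw [ST_integral (G := fun p => p.2 ^ 2) (by fun_prop)]
  have h0 : ∀ x y : ℝ, ∫ z in (0:ℝ)..(1 - x - y), z ^ 2 = (1 - x - y) ^ 3 / 3 := fun x y => by
    rw [int4 0 0 1 0 0 _ _ (fun z => by ring)]; ring
  have h1 : ∀ x : ℝ, ∫ y in (0:ℝ)..(1 - x), (1 - x - y) ^ 3 / 3 = (1 - x) ^ 4 / 12 :=
    fun x => by
      rw [int4 ((1 - x) ^ 3 / 3) (-(1 - x) ^ 2) (1 - x) (-1/3) 0 _ _ (fun z => by ring)]; ring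
  simp_rw [h0, h1]
  rw [int4 (1/12) (-4/12) (6/12) (-4/12) (1/12) _ _ (fun z => by ring)]
  norm_num

theorem ST_xy : ∫ w in ST, w 0 * w 1 = 1 / 120 := by
  rw [ST_integral (G := fun p => p.1.1 * p.1.2) (by fun_prop)]
  have h0 : ∀ x y : ℝ, ∫ z in (0:ℝ)..(1 - x - y), x * y = x * y * (1 - x - y) := fun x y => by
    rw [int4 (x * y) 0 0 0 0 _ _ (fun z => by ring)]; ring
  have h1 : ∀ x : ℝ, ∫ y in (0:ℝ)..(1 - x), x * y * (1 - x - y) = x * (1 - x) ^ 3 / 6 :=
    fun x => by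
      rw [int4 0 (x * (1 - x)) (-x) 0 0 _ _ (fun z => by ring)]; ring
  simp_rw [h0, h1]
  rw [int4 0 (1/6) (-3/6) (3/6) (-1/6) _ _ (fun z => by ring)]
  norm_num

theorem ST_yz : ∫ w in ST, w 1 * w 2 = 1 / 120 := by
  rw [ST_integral (G := fun p => p.1.2 * p.2) (by fun_prop)]
  have h0 : ∀ x y : ℝ, ∫ z in (0:ℝ)..(1 - x - y), y * z = y * (1 - x - y) ^ 2 / 2 :=
    fun x y => by
      rw [int4 0 y 0 0 0 _ _ (fun z => by ring)]; ring
  have h1 : ∀ x : ℝ, ∫ y in (0:ℝ)..(1 - x), y * (1 - x - y) ^ 2 / 2 = (1 - x) ^ 4 / 24 :=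
    fun x => by
      rw [int4 0 ((1 - x) ^ 2 / 2) (-(1 - x)) (1/2) 0 _ _ (fun z => by ring)]; ring
  simp_rw [h0, h1]
  rw [int4 (1/24) (-4/24) (6/24) (-4/24) (1/24) _ _ (fun z => by ring)]
  norm_num

theorem ST_zx : ∫ w in ST, w 2 * w 0 = 1 / 120 := by
  rw [ST_integral (G := fun p => p.2 * p.1.1) (by fun_prop)]
  have h0 : ∀ x y : ℝ, ∫ z in (0:ℝ)..(1 - x - y), z * x = x * (1 - x - y) ^ 2 / 2 :=
    fun x y => by
      rw [int4 0 x 0 0 0 _ _ (fun z => by ring)]; ring
  have h1 : ∀ x : ℝ, ∫ y in (0:ℝ)..(1 - x), x * (1 - x - y) ^ 2 / 2 = x * (1 - x) ^ 3 / 6 :=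
    fun x => by
      rw [int4 (x * (1 - x) ^ 2 / 2) (-x * (1 - x)) (x / 2) 0 0 _ _ (fun z => by ring)]; ring
  simp_rw [h0, h1]
  rw [int4 0 (1/6) (-3/6) (3/6) (-1/6) _ _ (fun z => by ring)]
  norm_num

/-- The linear map sending the standard basis to `a, b, c`. -/
def L (a b c : E3) : E3 →L[ℝ] E3 :=
  LinearMap.toContinuousLinearMap
    { toFun := fun w => w 0 • a + w 1 • b + w 2 • c
      map_add' := fun v w => by simp only [PiLp.add_apply, add_smul]; abel
      map_smul' := fun r w => by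
        simp only [PiLp.smul_apply, smul_eq_mul, mul_smul, RingHom.id_apply, smul_add] }

theorem L_apply (a b c w : E3) : L a b c w = w 0 • a + w 1 • b + w 2 • c := rfl

theorem L_det (a b c : E3) : (L a b c).det = det3 a b c := by
  have h1 : ((L a b c : E3 →L[ℝ] E3) : E3 →ₗ[ℝ] E3) =
      Matrix.toLin (EuclideanSpace.basisFun (Fin 3) ℝ).toBasis
        (EuclideanSpace.basisFun (Fin 3) ℝ).toBasis
        !![a 0, b 0, c 0; a 1, b 1, c 1; a 2, b 2, c 2] := by
    apply (EuclideanSpace.basisFun (Fin 3) ℝ).toBasis.ext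
    intro i
    rw [Matrix.toLin_self]
    ext j
    fin_cases i <;> fin_cases j <;>
      simp [L_apply, Fin.sum_univ_three]
  rw [ContinuousLinearMap.det, h1, LinearMap.det_toLin, Matrix.det_fin_three]
  simp [det3]
  ring

theorem osx_eq (a b c : E3) : osx a b c = L a b c '' ST := by
  ext x
  constructor
  · rintro ⟨α, β, γ, h1, h2, h3, h4, rfl⟩
    exact ⟨!₂[α, β, γ], ⟨h1, h2, h3, h4⟩, rfl⟩
  · rintro ⟨w, ⟨h1, h2, h3, h4⟩, rfl⟩
    exact ⟨w 0, w 1, w 2, h1, h2, h3, h4, rfl⟩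

theorem ST_bdd : ST ⊆ closedBall (0 : E3) 2 := by
  rintro w ⟨h1, h2, h3, h4⟩
  rw [mem_closedBall_zero_iff]
  have h5 : ‖w‖ ^ 2 ≤ 2 ^ 2 := by
    rw [normsq3]
    nlinarith
  exact le_of_pow_le_pow_left₀ (by norm_num) (by norm_num) h5

theorem volume_ST_ne_top : volume ST ≠ ⊤ :=
  ne_top_of_le_ne_top (isCompact_closedBall (0 : E3) 2).measure_lt_top.ne (measure_mono ST_bdd)

theorem volume_ST : volume ST = ENNReal.ofReal (1 / 6) := by
  have h := ST_one
  rw [setIntegral_const, smul_eq_mul, mul_one] at h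
  rw [← h, Measure.real, ENNReal.ofReal_toReal volume_ST_ne_top]

theorem integrableOn_ST {F : E3 → ℝ} (hF : Continuous F) : IntegrableOn F ST :=
  (hF.continuousOn.integrableOn_compact (isCompact_closedBall (0 : E3) 2)).mono_set ST_bdd

end Sx

open Sx

theorem isOpen_osx {a b c : E3} (h : 0 < det3 a b c) : IsOpen (osx a b c) := by
  rw [osx_eq]
  have hu : IsUnit (L a b c).det := by rw [L_det]; exact h.ne'.isUnit
  have := (ContinuousLinearMap.toContinuousLinearEquivOfDetNeZero (L a b c)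
    (by rw [L_det]; exact h.ne')).toHomeomorph.isOpenMap ST isOpen_ST
  exact this

theorem isCompact_csx (a b c : E3) : IsCompact (csx a b c) := by
  set K : Set E3 := {w | 0 ≤ w 0 ∧ 0 ≤ w 1 ∧ 0 ≤ w 2 ∧ w 0 + w 1 + w 2 ≤ 1} with hK
  have hKc : IsClosed K := by
    have e : K = {w : E3 | 0 ≤ w 0} ∩ ({w : E3 | 0 ≤ w 1} ∩ ({w : E3 | 0 ≤ w 2} ∩
      {w : E3 | w 0 + w 1 + w 2 ≤ 1})) := rfl
    rw [e]
    exact (isClosed_le continuous_const (by fun_prop)).inter
      ((isClosed_le continuous_const (by fun_prop)).inter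
        ((isClosed_le continuous_const (by fun_prop)).inter
          (isClosed_le (by fun_prop) continuous_const)))
  have hKb : K ⊆ closedBall (0 : E3) 2 := by
    rintro w ⟨h1, h2, h3, h4⟩
    rw [mem_closedBall_zero_iff]
    have h5 : ‖w‖ ^ 2 ≤ 2 ^ 2 := by
      rw [normsq3]
      nlinarith
    exact le_of_pow_le_pow_left₀ (by norm_num) (by norm_num) h5
  have hKk : IsCompact K := (isCompact_closedBall (0 : E3) 2).of_isClosed_subset hKc hKb
  have e : csx a b c = L a b c '' K := by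
    ext x
    constructor
    · rintro ⟨α, β, γ, h1, h2, h3, h4, rfl⟩
      exact ⟨!₂[α, β, γ], ⟨h1, h2, h3, h4⟩, rfl⟩
    · rintro ⟨w, ⟨h1, h2, h3, h4⟩, rfl⟩
      exact ⟨w 0, w 1, w 2, h1, h2, h3, h4, rfl⟩
  rw [e]
  exact hKk.image (L a b c).continuous

theorem volume_osx {a b c : E3} (h : 0 < det3 a b c) :
    volume (osx a b c) = ENNReal.ofReal (det3 a b c / 6) := by
  rw [osx_eq, Measure.addHaar_image_continuousLinearMap]
  change ENNReal.ofReal |(L a b c).det| * _ = _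
  rw [L_det, abs_of_pos h, volume_ST, ← ENNReal.ofReal_mul h.le]
  congr 1
  ring

theorem integral_normsq_osx {a b c : E3} (h : 0 < det3 a b c) :
    ∫ x in osx a b c, ‖x‖ ^ 2 = det3 a b c / 60 *
      (‖a‖ ^ 2 + ‖b‖ ^ 2 + ‖c‖ ^ 2 + ⟪a, b⟫ + ⟪b, c⟫ + ⟪c, a⟫) := by
  have hinj : Function.Injective (L a b c) :=
    (ContinuousLinearMap.toContinuousLinearEquivOfDetNeZero (L a b c)
      (by rw [L_det]; exact h.ne')).injective
  rw [osx_eq, integral_image_eq_integral_abs_det_fderiv_smul volume isOpen_ST.measurableSet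
    (fun x _ => (L a b c).hasFDerivAt.hasFDerivWithinAt) hinj.injOn]
  rw [integral_smul, L_det, abs_of_pos h]
  have e : ∀ w : E3, ‖L a b c w‖ ^ 2 = ‖a‖ ^ 2 * (w 0) ^ 2 + ‖b‖ ^ 2 * (w 1) ^ 2 +
      ‖c‖ ^ 2 * (w 2) ^ 2 + (2 * ⟪a, b⟫) * (w 0 * w 1) + (2 * ⟪b, c⟫) * (w 1 * w 2) +
      (2 * ⟪c, a⟫) * (w 2 * w 0) := by
    intro w
    rw [L_apply, normsq3, normsq3, normsq3, normsq3, inner3, inner3, inner3]
    simp only [PiLp.add_apply, PiLp.smul_apply, smul_eq_mul]
    ring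
  simp_rw [e]
  rw [integral_add, integral_add, integral_add, integral_add, integral_add]
  rotate_left
  any_goals exact integrableOn_ST (by fun_prop)
  simp only [integral_const_mul]
  rw [ST_xx, ST_yy, ST_zz, ST_xy, ST_yz, ST_zx, smul_eq_mul]
  ring

open scoped Pointwise in
/-- In a cone, `5 |x|² - 3` integrates to zero over the unit ball. -/
theorem cone_integral {C : Set E3} (hC : MeasurableSet C)
    (hcone : ∀ x ∈ C, ∀ t : ℝ, 0 < t → t • x ∈ C) :
    ∫ x in C ∩ closedBall 0 1, (5 * ‖x‖ ^ 2 - 3) = 0 := by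
  set B : Set E3 := C ∩ closedBall 0 1 with hB
  have hBm : MeasurableSet B := hC.inter isClosed_closedBall.measurableSet
  have hBsub : B ⊆ closedBall (0 : E3) 1 := inter_subset_right
  have hBfin : volume B ≠ ⊤ :=
    ne_top_of_le_ne_top (isCompact_closedBall (0 : E3) 1).measure_lt_top.ne (measure_mono hBsub)
  have hint : IntegrableOn (fun x : E3 => ‖x‖ ^ 2) B :=
    (Continuous.continuousOn (by fun_prop)).integrableOn_compact
      (isCompact_closedBall (0 : E3) 1) |>.mono_set hBsub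
  have hconst : ∀ c : ℝ, IntegrableOn (fun _ : E3 => c) B := fun c =>
    integrableOn_const hBfin
  set V : ℝ := vol B with hV
  set Φ : ℝ := ∫ x in B, ‖x‖ ^ 2 with hΦ
  have hmain : ∀ r : ℝ, 0 < r → r < 1 →
      r ^ 2 * ((1 + r + r ^ 2) * V) ≤ (1 + r + r ^ 2 + r ^ 3 + r ^ 4) * Φ ∧
      (1 + r + r ^ 2 + r ^ 3 + r ^ 4) * Φ ≤ (1 + r + r ^ 2) * V := by
    intro r hr0 hr1
    have hrB : r • B = C ∩ closedBall 0 r := by
      ext x
      constructor
      · rintro ⟨y, ⟨hy1, hy2⟩, rfl⟩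
        refine ⟨hcone y hy1 r hr0, ?_⟩
        rw [mem_closedBall_zero_iff] at hy2 ⊢
        simp only
        rw [norm_smul, Real.norm_of_nonneg hr0.le]
        nlinarith
      · rintro ⟨hx1, hx2⟩
        refine ⟨r⁻¹ • x, ⟨hcone x hx1 _ (by positivity), ?_⟩, ?_⟩
        · rw [mem_closedBall_zero_iff] at hx2 ⊢
          rw [norm_smul, Real.norm_of_nonneg (by positivity), inv_mul_le_iff₀ hr0]
          linarith
        · simp only
          rw [smul_smul, mul_inv_cancel₀ hr0.ne', one_smul]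
    have hsub : r • B ⊆ B := by
      rw [hrB]
      exact inter_subset_inter_right _ (closedBall_subset_closedBall hr1.le)
    have hrBm : MeasurableSet (r • B) := by
      rw [hrB]; exact hC.inter isClosed_closedBall.measurableSet
    have h1 : ∫ x in r • B, ‖x‖ ^ 2 = r ^ 5 * Φ := by
      have := Measure.setIntegral_comp_smul_of_pos (volume : Measure E3)
        (fun x : E3 => ‖x‖ ^ 2) B hr0
      rw [finrank_euclideanSpace_fin] at this
      have e : ∀ x : E3, ‖r • x‖ ^ 2 = r ^ 2 * ‖x‖ ^ 2 := by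
        intro x; rw [norm_smul, Real.norm_of_nonneg hr0.le]; ring
      simp_rw [e] at this
      rw [integral_const_mul, smul_eq_mul] at this
      field_simp at this
      linarith
    have h2 : vol (r • B) = r ^ 3 * V := by
      rw [vol, Measure.addHaar_smul, finrank_euclideanSpace_fin, ENNReal.toReal_mul,
        ENNReal.toReal_ofReal (abs_nonneg _), abs_of_nonneg (by positivity), hV, vol]
    have h3 : ∫ x in B \ (r • B), ‖x‖ ^ 2 = Φ - r ^ 5 * Φ := by
      rw [← h1, hΦ, setIntegral_sdiff hrBm hint hsub]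
    have h4 : vol (B \ (r • B)) = V - r ^ 3 * V := by
      rw [← h2, hV, vol, vol, vol, measure_sdiff hsub hrBm.nullMeasurableSet
        (ne_top_of_le_ne_top hBfin (measure_mono hsub)),
        ENNReal.toReal_sub_of_le (measure_mono hsub) hBfin]
    have hDm : MeasurableSet (B \ (r • B)) := hBm.diff hrBm
    have hDfin : volume (B \ (r • B)) ≠ ⊤ :=
      ne_top_of_le_ne_top hBfin (measure_mono sdiff_subset)
    have hDint : IntegrableOn (fun x : E3 => ‖x‖ ^ 2) (B \ (r • B)) :=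
      hint.mono_set sdiff_subset
    have h5 : r ^ 2 * vol (B \ (r • B)) ≤ ∫ x in B \ (r • B), ‖x‖ ^ 2 := by
      have : ∫ _x in B \ (r • B), r ^ 2 ≤ ∫ x in B \ (r • B), ‖x‖ ^ 2 := by
        refine setIntegral_mono_on (integrableOn_const hDfin) hDint hDm ?_
        rintro x ⟨hx1, hx2⟩
        rw [hrB] at hx2
        have : r < ‖x‖ := by
          by_contra hcon
          exact hx2 ⟨hx1.1, by rw [mem_closedBall_zero_iff]; linarith⟩
        gcongr
      rw [setIntegral_const, smul_eq_mul, mul_comm] at this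
      exact this
    have h6 : ∫ x in B \ (r • B), ‖x‖ ^ 2 ≤ vol (B \ (r • B)) := by
      have : ∫ x in B \ (r • B), ‖x‖ ^ 2 ≤ ∫ _x in B \ (r • B), (1 : ℝ) := by
        refine setIntegral_mono_on hDint (integrableOn_const hDfin) hDm ?_
        rintro x ⟨hx1, hx2⟩
        have : ‖x‖ ≤ 1 := by simpa using hx1.2
        nlinarith [norm_nonneg x]
      rw [setIntegral_const, smul_eq_mul, mul_one] at this
      exact this
    rw [h3, h4] at h5 h6
    have hr : 0 < 1 - r := by linarith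
    constructor
    · have : (1 - r) * (r ^ 2 * ((1 + r + r ^ 2) * V)) ≤
          (1 - r) * ((1 + r + r ^ 2 + r ^ 3 + r ^ 4) * Φ) := by
        calc _ = r ^ 2 * (V - r ^ 3 * V) := by ring
          _ ≤ _ := h5
          _ = _ := by ring
      exact le_of_mul_le_mul_left this hr
    · have : (1 - r) * ((1 + r + r ^ 2 + r ^ 3 + r ^ 4) * Φ) ≤
          (1 - r) * ((1 + r + r ^ 2) * V) := by
        calc _ = Φ - r ^ 5 * Φ := by ring
          _ ≤ _ := h6
          _ = _ := by ring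
      exact le_of_mul_le_mul_left this hr
  have hev : ∀ᶠ r in nhdsWithin (1 : ℝ) (Iio 1), r ∈ Ioo (0 : ℝ) 1 :=
    Ioo_mem_nhdsLT one_pos
  have t1 : Filter.Tendsto (fun r : ℝ => r ^ 2 * ((1 + r + r ^ 2) * V)) (nhdsWithin 1 (Iio 1))
      (nhds (1 ^ 2 * ((1 + 1 + 1 ^ 2) * V))) :=
    (Continuous.tendsto (by fun_prop) 1).mono_left nhdsWithin_le_nhds
  have t2 : Filter.Tendsto (fun r : ℝ => (1 + r + r ^ 2 + r ^ 3 + r ^ 4) * Φ)
      (nhdsWithin 1 (Iio 1)) (nhds ((1 + 1 + 1 ^ 2 + 1 ^ 3 + 1 ^ 4) * Φ)) :=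
    (Continuous.tendsto (by fun_prop) 1).mono_left nhdsWithin_le_nhds
  have t3 : Filter.Tendsto (fun r : ℝ => (1 + r + r ^ 2) * V) (nhdsWithin 1 (Iio 1))
      (nhds ((1 + 1 + 1 ^ 2) * V)) :=
    (Continuous.tendsto (by fun_prop) 1).mono_left nhdsWithin_le_nhds
  have l1 := le_of_tendsto_of_tendsto t1 t2 (hev.mono fun r hr => (hmain r hr.1 hr.2).1)
  have l2 := le_of_tendsto_of_tendsto t2 t3 (hev.mono fun r hr => (hmain r hr.1 hr.2).2)
  rw [integral_sub (hint.const_mul 5) (hconst 3), integral_const_mul, setIntegral_const,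
    smul_eq_mul]
  change 5 * Φ - V * 3 = 0
  linarith

/-- The second moment of the triangle `e, p, q` about `e`, when it lies in the tangent plane
of the unit ball at `e`. -/
def mom (e p q : E3) : ℝ :=
  det3 e p q / 12 * (‖p - e‖ ^ 2 + ‖q - e‖ ^ 2 + ⟪p - e, q - e⟫)

/-- A set contained in a plane through the origin is null. -/
theorem volume_plane {e : E3} (he : e ≠ 0) : volume {x : E3 | ⟪e, x⟫ = 0} = 0 := by
  have h1 : {x : E3 | ⟪e, x⟫ = 0} = ((ℝ ∙ e)ᗮ : Submodule ℝ E3) := by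
    ext x
    rw [SetLike.mem_coe, Submodule.mem_orthogonal_singleton_iff_inner_right]
    rfl
  rw [h1]
  refine Measure.addHaar_submodule _ _ fun htop => he ?_
  have : e ∈ (ℝ ∙ e)ᗮ := htop ▸ Submodule.mem_top
  rw [Submodule.mem_orthogonal_singleton_iff_inner_right] at this
  exact inner_self_eq_zero.1 this

namespace Sx

/-- the open cone -/
def ocone (a b c : E3) : Set E3 :=
  {x | ∃ α β γ : ℝ, 0 < α ∧ 0 < β ∧ 0 < γ ∧ x = α • a + β • b + γ • c}

theorem ocone_eq (a b c : E3) :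
    ocone a b c = L a b c '' {w : E3 | 0 < w 0 ∧ 0 < w 1 ∧ 0 < w 2} := by
  ext x
  constructor
  · rintro ⟨α, β, γ, h1, h2, h3, rfl⟩
    exact ⟨!₂[α, β, γ], ⟨h1, h2, h3⟩, rfl⟩
  · rintro ⟨w, ⟨h1, h2, h3⟩, rfl⟩
    exact ⟨w 0, w 1, w 2, h1, h2, h3, rfl⟩

theorem isOpen_ocone {a b c : E3} (h : 0 < det3 a b c) : IsOpen (ocone a b c) := by
  rw [ocone_eq]
  have hO : IsOpen {w : E3 | 0 < w 0 ∧ 0 < w 1 ∧ 0 < w 2} := by
    have e : {w : E3 | 0 < w 0 ∧ 0 < w 1 ∧ 0 < w 2} =
      {w : E3 | 0 < w 0} ∩ ({w : E3 | 0 < w 1} ∩ {w : E3 | 0 < w 2}) := rfl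
    rw [e]
    exact (isOpen_lt continuous_const (by fun_prop)).inter
      ((isOpen_lt continuous_const (by fun_prop)).inter
        (isOpen_lt continuous_const (by fun_prop)))
  exact (ContinuousLinearMap.toContinuousLinearEquivOfDetNeZero (L a b c)
    (by rw [L_det]; exact h.ne')).toHomeomorph.isOpenMap _ hO

theorem L_injective {a b c : E3} (h : 0 < det3 a b c) : Function.Injective (L a b c) :=
  (ContinuousLinearMap.toContinuousLinearEquivOfDetNeZero (L a b c)
    (by rw [L_det]; exact h.ne')).injective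

theorem ocone_inter_ball {e p q : E3} (he : ‖e‖ = 1) (hp : ⟪e, p⟫ = 1) (hq : ⟪e, q⟫ = 1)
    (h : 0 < det3 e p q) : ocone e p q ∩ closedBall 0 1 = osx e p q ∩ closedBall 0 1 := by
  ext x
  constructor
  · rintro ⟨⟨α, β, γ, h1, h2, h3, rfl⟩, hx⟩
    refine ⟨⟨α, β, γ, h1, h2, h3, ?_, rfl⟩, hx⟩
    rw [mem_closedBall_zero_iff] at hx
    set x := α • e + β • p + γ • q with hxdef
    have hs : ⟪e, x⟫ = α + β + γ := by
      rw [hxdef, inner_add_right, inner_add_right, real_inner_smul_right, real_inner_smul_right,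
        real_inner_smul_right, real_inner_self_eq_norm_sq, he, hp, hq]
      ring
    have hle : ⟪e, x⟫ ≤ ‖e‖ * ‖x‖ := real_inner_le_norm e x
    rw [he, one_mul] at hle
    rcases lt_or_eq_of_le (hs ▸ hle.trans hx : α + β + γ ≤ 1) with h4 | h4
    · exact h4
    · exfalso
      have hx1 : ‖x‖ = 1 := le_antisymm hx (by linarith)
      have hxe : x = e := by
        have : ‖x - e‖ ^ 2 = 0 := by
          rw [norm_sub_sq_real, real_inner_comm, hs, h4, hx1, he]; norm_num
        have := pow_eq_zero_iff (two_ne_zero) |>.1 this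
        exact sub_eq_zero.1 (norm_eq_zero.1 this)
      have h5 : L e p q !₂[α, β, γ] = L e p q !₂[1, 0, 0] := by
        rw [L_apply, L_apply]
        simpa using hxe
      have h6 := L_injective h h5
      have h7 := congrArg (fun w : E3 => w 1) h6
      simp at h7
      linarith
  · rintro ⟨⟨α, β, γ, h1, h2, h3, _, rfl⟩, hx⟩
    exact ⟨⟨α, β, γ, h1, h2, h3, rfl⟩, hx⟩

theorem osx_bdd {a b c : E3} : Bornology.IsBounded (osx a b c) :=
  (isCompact_csx a b c).isBounded.subset (osx_subset_csx a b c)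

theorem integrableOn_osx {a b c : E3} {F : E3 → ℝ} (hF : Continuous F) :
    IntegrableOn F (osx a b c) :=
  (hF.continuousOn.integrableOn_compact (isCompact_csx a b c)).mono_set (osx_subset_csx a b c)

theorem volume_osx_ne_top {a b c : E3} : volume (osx a b c) ≠ ⊤ :=
  ne_top_of_le_ne_top (isCompact_csx a b c).measure_lt_top.ne
    (measure_mono (osx_subset_csx a b c))

end Sx

theorem volume_csx {a b c : E3} (h : 0 < det3 a b c) :
    volume (csx a b c) = ENNReal.ofReal (det3 a b c / 6) := by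
  rw [← volume_osx h]
  refine le_antisymm ?_ (measure_mono (osx_subset_csx a b c))
  -- the boundary is contained in four planes
  have hcr : ∀ u v w : E3, 0 < det3 u v w → cr u v ≠ 0 := by
    intro u v w hw h0
    rw [← inner_cr_left, h0, inner_zero_left] at hw
    exact lt_irrefl _ hw
  have h1 : 0 < det3 b c a := by rw [det3_rot]; exact h
  have h2 : 0 < det3 c a b := by rw [det3_rot, det3_rot]; exact h
  have h3 : 0 < det3 (b - a) (c - a) a := by
    have : det3 (b - a) (c - a) a = det3 a b c := by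
      simp [det3]; ring
    rw [this]; exact h
  have hsub : csx a b c ⊆ osx a b c ∪ ({x | ⟪cr b c, x⟫ = 0} ∪ {x | ⟪cr c a, x⟫ = 0} ∪
      {x | ⟪cr a b, x⟫ = 0} ∪ (fun x => x + a) '' {x | ⟪cr (b - a) (c - a), x⟫ = 0}) := by
    rintro x ⟨α, β, γ, g1, g2, g3, g4, rfl⟩
    rcases g1.lt_or_eq with g1 | g1
    · rcases g2.lt_or_eq with g2 | g2
      · rcases g3.lt_or_eq with g3 | g3
        · rcases g4.lt_or_eq with g4 | g4
          · exact Or.inl ⟨α, β, γ, g1, g2, g3, g4, rfl⟩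
          · right; right
            refine ⟨β • (b - a) + γ • (c - a), ?_, ?_⟩
            · change ⟪cr (b - a) (c - a), β • (b - a) + γ • (c - a)⟫ = 0
              rw [inner_cr_left]
              simp [det3]; ring
            · have : α = 1 - β - γ := by linarith
              rw [this]
              module
        · right; left; right
          change ⟪cr a b, α • a + β • b + γ • c⟫ = 0
          rw [inner_cr_left, ← g3]
          simp [det3]; ring
      · right; left; left; right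
        change ⟪cr c a, α • a + β • b + γ • c⟫ = 0
        rw [inner_cr_left, ← g2]
        simp [det3]; ring
    · right; left; left; left
      change ⟪cr b c, α • a + β • b + γ • c⟫ = 0
      rw [inner_cr_left, ← g1]
      simp [det3]; ring
  refine (measure_mono hsub).trans ?_
  have z1 := volume_plane (hcr b c a h1)
  have z2 := volume_plane (hcr c a b h2)
  have z3 := volume_plane (hcr a b c h)
  have z4 : volume ((fun x => x + a) '' {x | ⟪cr (b - a) (c - a), x⟫ = 0}) = 0 := by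
    rw [image_add_right, measure_preimage_add_right]
    exact volume_plane (hcr _ _ _ h3)
  have z : volume ({x | ⟪cr b c, x⟫ = 0} ∪ {x | ⟪cr c a, x⟫ = 0} ∪
      {x | ⟪cr a b, x⟫ = 0} ∪ (fun x => x + a) '' {x | ⟪cr (b - a) (c - a), x⟫ = 0}) = 0 :=
    measure_union_null (measure_union_null (measure_union_null z1 z2) z3) z4
  exact (measure_union_le _ _).trans (by rw [z, add_zero])

theorem mom_eq {e p q : E3} (he : ‖e‖ = 1) (hp : ⟪e, p⟫ = 1) (hq : ⟪e, q⟫ = 1)
    (h : 0 < det3 e p q) :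
    ∫ x in osx e p q \ closedBall 0 1, (5 * ‖x‖ ^ 2 - 3) = mom e p q := by
  have hc := cone_integral (C := ocone e p q) (isOpen_ocone h).measurableSet (by
    rintro _ ⟨α, β, γ, h1, h2, h3, rfl⟩ t ht
    exact ⟨t * α, t * β, t * γ, by positivity, by positivity, by positivity, by module⟩)
  rw [ocone_inter_ball he hp hq h] at hc
  have hF : Continuous (fun x : E3 => 5 * ‖x‖ ^ 2 - 3) := by fun_prop
  have hint := integrableOn_osx (a := e) (b := p) (c := q) hF
  have h1 : ∫ x in osx e p q, (5 * ‖x‖ ^ 2 - 3) = mom e p q := by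
    rw [integral_sub ((integrableOn_osx (a := e) (b := p) (c := q)
      (F := fun x => ‖x‖ ^ 2) (by fun_prop)).const_mul 5) (integrableOn_const volume_osx_ne_top),
      integral_const_mul, integral_normsq_osx h, setIntegral_const, smul_eq_mul, Measure.real,
      volume_osx h, ENNReal.toReal_ofReal (by positivity), mom]
    have e1 : ‖p - e‖ ^ 2 = ‖p‖ ^ 2 - 1 := by
      rw [norm_sub_sq_real, real_inner_comm, hp, he]; ring
    have e2 : ‖q - e‖ ^ 2 = ‖q‖ ^ 2 - 1 := by
      rw [norm_sub_sq_real, real_inner_comm, hq, he]; ring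
    have e3 : ⟪p - e, q - e⟫ = ⟪p, q⟫ - 1 := by
      have hp' : ⟪p, e⟫ = (1 : ℝ) := by rw [real_inner_comm]; exact hp
      rw [inner_sub_left, inner_sub_right, inner_sub_right, hq, hp',
        real_inner_self_eq_norm_sq, he]
      ring
    rw [e1, e2, e3, he, hp, real_inner_comm e q, hq]
    ring
  have hm : MeasurableSet (osx e p q) := (isOpen_osx h).measurableSet
  have h2 := setIntegral_sdiff (f := fun x : E3 => 5 * ‖x‖ ^ 2 - 3)
    (hm.inter (isClosed_closedBall (x := (0 : E3)) (ε := 1)).measurableSet) hint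
    (inter_subset_left)
  rw [sdiff_self_inter] at h2
  rw [h2, h1, hc, sub_zero]

namespace Sx

theorem vol_csx_diff {e p q : E3} (h : 0 < det3 e p q) :
    vol (csx e p q \ closedBall 0 1) = vol (osx e p q \ closedBall 0 1) := by
  have h0 : volume (csx e p q \ osx e p q) = 0 := by
    rw [measure_sdiff (osx_subset_csx e p q) (isOpen_osx h).measurableSet.nullMeasurableSet
      volume_osx_ne_top, volume_csx h, volume_osx h, tsub_self]
  rw [vol, vol]
  congr 1
  refine le_antisymm ?_ (measure_mono (sdiff_subset_sdiff_left (osx_subset_csx e p q)))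
  have hsub : csx e p q \ closedBall 0 1 ⊆
      (osx e p q \ closedBall 0 1) ∪ (csx e p q \ osx e p q) := by
    rintro x ⟨h1, h2⟩
    by_cases hx : x ∈ osx e p q
    · exact Or.inl ⟨hx, h2⟩
    · exact Or.inr ⟨h1, hx⟩
  refine (measure_mono hsub).trans ((measure_union_le _ _).trans ?_)
  rw [h0, add_zero]

theorem diff_fin {a b c : E3} : volume (osx a b c \ closedBall 0 1) ≠ ⊤ :=
  ne_top_of_le_ne_top volume_osx_ne_top (measure_mono sdiff_subset)

end Sx

theorem two_vol_le_mom {e p q : E3} (he : ‖e‖ = 1) (hp : ⟪e, p⟫ = 1) (hq : ⟪e, q⟫ = 1)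
    (h : 0 < det3 e p q) :
    2 * vol (csx e p q \ closedBall 0 1) ≤ mom e p q := by
  rw [vol_csx_diff h, ← mom_eq he hp hq h]
  have hm : MeasurableSet (osx e p q \ closedBall 0 1) :=
    (isOpen_osx h).measurableSet.diff isClosed_closedBall.measurableSet
  have h1 : ∫ _x in osx e p q \ closedBall 0 1, (2 : ℝ) ≤
      ∫ x in osx e p q \ closedBall 0 1, (5 * ‖x‖ ^ 2 - 3) := by
    refine setIntegral_mono_on (integrableOn_const diff_fin)
      ((integrableOn_osx (by fun_prop)).mono_set sdiff_subset) hm ?_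
    rintro x ⟨-, hx⟩
    rw [mem_closedBall_zero_iff, not_le] at hx
    nlinarith
  rw [setIntegral_const, smul_eq_mul, mul_comm] at h1
  exact h1

theorem mom_le {e p q : E3} (he : ‖e‖ = 1) (hp : ⟪e, p⟫ = 1) (hq : ⟪e, q⟫ = 1)
    (h : 0 < det3 e p q) {R : ℝ} (hR : ∀ x ∈ osx e p q, ‖x‖ ^ 2 ≤ R) :
    mom e p q ≤ (5 * R - 3) * vol (osx e p q \ closedBall 0 1) := by
  rw [← mom_eq he hp hq h]
  have hm : MeasurableSet (osx e p q \ closedBall 0 1) :=
    (isOpen_osx h).measurableSet.diff isClosed_closedBall.measurableSet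
  have h1 : ∫ x in osx e p q \ closedBall 0 1, (5 * ‖x‖ ^ 2 - 3) ≤
      ∫ _x in osx e p q \ closedBall 0 1, (5 * R - 3) := by
    refine setIntegral_mono_on ((integrableOn_osx (by fun_prop)).mono_set sdiff_subset)
      (integrableOn_const diff_fin) hm ?_
    rintro x ⟨hx, -⟩
    linarith [hR x hx]
  rw [setIntegral_const, smul_eq_mul, mul_comm] at h1
  exact h1

end Gold
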