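import Pool.Agent.Lib.H81.Gold.Faces
import Pool.Agent.Lib.H81.Gold.SimplexInt

/-!
# Decomposition of the polytope into simplices (chunk F)
-/

noncomputable section

open MeasureTheory Metric Set
open scoped RealInnerProductSpace

namespace Gold

variable {f : ℕ} {u : Fin f → E3}

instance instFintypeDart (u : Fin f → E3) : Fintype (Dart u) := Fintype.ofFinite _

/-- The vertex at the negative end of the edge of `d`. -/
def vtm (hc : IsConfig u) (hs : IsSimple u) (d : Dart u) : E3 :=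
  vtx hc hs ((rhoE hc hs)⁻¹ d)

/-- Determinant of the simplex of `d` (twice the area of its triangle). -/
def dd (hc : IsConfig u) (hs : IsSimple u) (d : Dart u) : ℝ :=
  det3 (u d.1.1) (vtm hc hs d) (vtx hc hs d)

/-- Second moment of the triangle of `d`. -/
def mm (hc : IsConfig u) (hs : IsSimple u) (d : Dart u) : ℝ :=
  mom (u d.1.1) (vtm hc hs d) (vtx hc hs d)

/-- Angle of the triangle of `d` at the touching point. -/
def ang (hc : IsConfig u) (hs : IsSimple u) (d : Dart u) : ℝ :=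
  InnerProductGeometry.angle (vtm hc hs d - u d.1.1) (vtx hc hs d - u d.1.1)

/-! ### Elementary facts -/

theorem IsConfig.inner_le (hc : IsConfig u) (k i : Fin f) : ⟪u k, u i⟫ ≤ 1 :=
  real_inner_le_one_of_norm_eq_one (hc.unit k) (hc.unit i)

theorem IsConfig.inner_self (hc : IsConfig u) (i : Fin f) : ⟪u i, u i⟫ = 1 := by
  rw [real_inner_self_eq_norm_sq, hc.unit]; norm_num

theorem IsConfig.inner_lt (hc : IsConfig u) {k i : Fin f} (h : k ≠ i) : ⟪u k, u i⟫ < 1 := by
  refine lt_of_le_of_ne (hc.inner_le k i) fun h1 => h ?_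
  exact hc.inj ((inner_eq_one_iff_of_norm_eq_one (hc.unit k) (hc.unit i)).1 h1)

theorem IsConfig.mem (hc : IsConfig u) (i : Fin f) : u i ∈ Poly u := fun k => hc.inner_le k i

theorem dd_pos (hc : IsConfig u) (hs : IsSimple u) (d : Dart u) : 0 < dd hc hs d :=
  det_pos hc hs d

theorem vtm_mem (hc : IsConfig u) (hs : IsSimple u) (d : Dart u) : vtm hc hs d ∈ Poly u :=
  vtx_mem hc hs _

theorem vtm_tail (hc : IsConfig u) (hs : IsSimple u) (d : Dart u) :
    ⟪u d.1.1, vtm hc hs d⟫ = 1 :=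
  vtx_tail hc hs ((rhoE hc hs)⁻¹ d)

theorem vtm_head (hc : IsConfig u) (hs : IsSimple u) (d : Dart u) :
    ⟪u d.1.2, vtm hc hs d⟫ = 1 := by
  rw [vtm, ← vtx_sig]
  exact vtx_tail hc hs (sigE u d)

/-- Cramer's rule. -/
theorem det3_smul (p q r v : E3) :
    det3 p q r • v = ⟪p, v⟫ • cr q r + ⟪q, v⟫ • cr r p + ⟪r, v⟫ • cr p q := by
  ext k
  fin_cases k <;> simp [det3, inner3] <;> ring

theorem eq_zero_of_inner {p q r v : E3} (h : det3 p q r ≠ 0) (hp : ⟪p, v⟫ = 0)
    (hq : ⟪q, v⟫ = 0) (hr : ⟪r, v⟫ = 0) : v = 0 := by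
  have := det3_smul p q r v
  rw [hp, hq, hr] at this
  simp only [zero_smul, add_zero] at this
  exact (smul_eq_zero.1 this).resolve_left h

theorem eq_of_inner {p q r v w : E3} (h : det3 p q r ≠ 0) (hp : ⟪p, v⟫ = ⟪p, w⟫)
    (hq : ⟪q, v⟫ = ⟪q, w⟫) (hr : ⟪r, v⟫ = ⟪r, w⟫) : v = w := by
  rw [← sub_eq_zero]
  apply eq_zero_of_inner h <;> rw [inner_sub_right] <;> linarith

/-- The unit ball is in the polytope. -/
theorem ball_subset_Poly (hc : IsConfig u) : closedBall (0 : E3) 1 ⊆ Poly u := by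
  intro x hx i
  rw [mem_closedBall, dist_zero_right] at hx
  calc ⟪u i, x⟫ ≤ ‖u i‖ * ‖x‖ := real_inner_le_norm _ _
    _ ≤ 1 := by rw [hc.unit, one_mul]; exact hx

theorem csx_subset_Poly (hc : IsConfig u) (hs : IsSimple u) (d : Dart u) :
    csx (u d.1.1) (vtm hc hs d) (vtx hc hs d) ⊆ Poly u := by
  rintro x ⟨α, β, γ, h1, h2, h3, h4, rfl⟩ k
  rw [inner_add_right, inner_add_right, inner_smul_right, inner_smul_right, inner_smul_right]
  have a1 := mul_le_mul_of_nonneg_left (hc.inner_le k d.1.1) h1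
  have a2 := mul_le_mul_of_nonneg_left (vtm_mem hc hs d k) h2
  have a3 := mul_le_mul_of_nonneg_left (vtx_mem hc hs d k) h3
  linarith

/-! ### Rays leaving the polytope -/

/-- If all inner products with `w` were nonpositive the polytope would be unbounded. -/
theorem exists_pos_inner (hc : IsConfig u) {w : E3} (hw : w ≠ 0) : ∃ k, 0 < ⟪u k, w⟫ := by
  by_contra hcon
  push Not at hcon
  obtain ⟨C, hC⟩ := hc.bdd.exists_norm_le
  have hC0 : 0 ≤ C := by
    have := hC 0 (by intro i; simp)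
    simpa using this
  have hw' : 0 < ‖w‖ := norm_pos_iff.2 hw
  have hmem : ((C + 1) / ‖w‖) • w ∈ Poly u := by
    intro i
    rw [inner_smul_right]
    have : (C + 1) / ‖w‖ * ⟪u i, w⟫ ≤ 0 :=
      mul_nonpos_of_nonneg_of_nonpos (by positivity) (hcon i)
    linarith
  have := hC _ hmem
  rw [norm_smul, Real.norm_of_nonneg (by positivity), div_mul_cancel₀ _ hw'.ne'] at this
  linarith

/-- The ray from the touching point `u i` in a direction `w` orthogonal to `u i` leaves the
polytope on an edge. -/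
theorem exists_exit (hc : IsConfig u) {i : Fin f} {w : E3} (hw : w ≠ 0) (hiw : ⟪u i, w⟫ = 0) :
    ∃ (T : ℝ) (k : Fin f), 0 < T ∧ k ≠ i ∧ u i + T • w ∈ Poly u ∧ ⟪u k, u i + T • w⟫ = 1 ∧
      ∀ t, 0 ≤ t → u i + t • w ∈ Poly u → t ≤ T := by
  classical
  obtain ⟨k0, hk0⟩ := exists_pos_inner hc hw
  let S : Finset (Fin f) := Finset.univ.filter fun k => 0 < ⟪u k, w⟫
  have hS : S.Nonempty := ⟨k0, by simp [S, hk0]⟩
  let g : Fin f → ℝ := fun k => (1 - ⟪u k, u i⟫) / ⟪u k, w⟫
  obtain ⟨k, hkS, hk⟩ := S.exists_min_image g hS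
  have hkw : 0 < ⟪u k, w⟫ := by simpa [S] using hkS
  have hki : k ≠ i := by
    rintro rfl
    rw [hiw] at hkw
    exact lt_irrefl _ hkw
  have hT : 0 < g k := div_pos (by linarith [hc.inner_lt hki]) hkw
  have hk1 : ⟪u k, u i + g k • w⟫ = 1 := by
    rw [inner_add_right, inner_smul_right]
    simp only [g]
    field_simp
    ring
  refine ⟨g k, k, hT, hki, ?_, hk1, ?_⟩
  · intro j
    rw [inner_add_right, inner_smul_right]
    rcases le_or_gt ⟪u j, w⟫ 0 with h | h
    · have := mul_nonpos_of_nonneg_of_nonpos hT.le h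
      linarith [hc.inner_le j i]
    · have h1 := hk j (by simp [S, h])
      have h2 : g k * ⟪u j, w⟫ ≤ g j * ⟪u j, w⟫ := mul_le_mul_of_nonneg_right h1 h.le
      have h3 : g j * ⟪u j, w⟫ = 1 - ⟪u j, u i⟫ := by
        simp only [g]; field_simp
      linarith
  · intro t ht hmem
    have := hmem k
    rw [inner_add_right, inner_smul_right] at this
    simp only [g]
    rw [le_div_iff₀ hkw]
    linarith

theorem exists_orth (e : E3) : ∃ w : E3, w ≠ 0 ∧ ⟪e, w⟫ = 0 := by
  by_cases h : e 0 = 0 ∧ e 1 = 0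
  · refine ⟨!₂[1, 0, 0], ?_, ?_⟩
    · intro h0
      have := congrFun (congrArg (fun v : E3 => (v : Fin 3 → ℝ)) h0) 0
      simp at this
    · rw [inner3]; simp [h.1]
  · refine ⟨!₂[- e 1, e 0, 0], ?_, ?_⟩
    · intro h0
      apply h
      have h1 := congrFun (congrArg (fun v : E3 => (v : Fin 3 → ℝ)) h0) 0
      have h2 := congrFun (congrArg (fun v : E3 => (v : Fin 3 → ℝ)) h0) 1
      simp at h1 h2
      exact ⟨h2, h1⟩
    · rw [inner3]; simp; ring

/-- A point of the face `i` lies in one of the closed triangles of the face. -/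
theorem exists_dart_of_face (hc : IsConfig u) (hs : IsSimple u) {i : Fin f} {w : E3}
    (hiw : ⟪u i, w⟫ = 0) (hmem : u i + w ∈ Poly u) :
    ∃ d : Dart u, d.1.1 = i ∧ ∃ β γ : ℝ, 0 ≤ β ∧ 0 ≤ γ ∧ β + γ ≤ 1 ∧
      w = β • (vtm hc hs d - u i) + γ • (vtx hc hs d - u i) := by
  have key : ∀ w : E3, w ≠ 0 → ⟪u i, w⟫ = 0 → u i + w ∈ Poly u →
      ∃ d : Dart u, d.1.1 = i ∧ ∃ β γ : ℝ, 0 ≤ β ∧ 0 ≤ γ ∧ β + γ ≤ 1 ∧
      w = β • (vtm hc hs d - u i) + γ • (vtx hc hs d - u i) := by
    intro w hw hiw hmem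
    obtain ⟨T, k, hT, hki, hz, hk1, hmax⟩ := exists_exit hc hw hiw
    have hT1 : 1 ≤ T := hmax 1 zero_le_one (by rwa [one_smul])
    have hi1 : ⟪u i, u i + T • w⟫ = 1 := by
      rw [inner_add_right, inner_smul_right, hiw, mul_zero, add_zero, hc.inner_self]
    have hadj : Adj u i k := ⟨hki.symm, _, hz, hi1, hk1⟩
    let d : Dart u := ⟨(i, k), hadj⟩
    have hseg : u i + T • w ∈ segment ℝ (vtm hc hs d) (vtx hc hs d) := by
      rw [vtm, ← edge_eq_segment]
      exact ⟨hz, hi1, hk1⟩
    obtain ⟨β, γ, hβ, hγ, hβγ, heq⟩ := hseg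
    refine ⟨d, rfl, β / T, γ / T, by positivity, by positivity, ?_, ?_⟩
    · rw [← add_div, hβγ, div_le_one hT]; exact hT1
    · have h1 : T • w = β • (vtm hc hs d - u i) + γ • (vtx hc hs d - u i) := by
        have : T • w = (β • vtm hc hs d + γ • vtx hc hs d) - (β + γ) • u i := by
          rw [heq, hβγ, one_smul]; abel
        rw [this]; module
      have h2 : w = T⁻¹ • (T • w) := by rw [smul_smul, inv_mul_cancel₀ hT.ne', one_smul]
      rw [h2, h1, smul_add, smul_smul, smul_smul, div_eq_inv_mul, div_eq_inv_mul]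
  by_cases hw : w = 0
  · obtain ⟨w', hw', hiw'⟩ := exists_orth (u i)
    obtain ⟨T, k, hT, hki, hz, hk1, hmax⟩ := exists_exit hc hw' hiw'
    obtain ⟨d, hd, _⟩ := key (T • w') (smul_ne_zero hT.ne' hw')
      (by rw [inner_smul_right, hiw', mul_zero]) hz
    exact ⟨d, hd, 0, 0, le_rfl, le_rfl, by norm_num, by simp [hw]⟩
  · exact key w hw hiw hmem

theorem Poly_subset_iUnion_csx (hc : IsConfig u) (hs : IsSimple u) :
    Poly u ⊆ ⋃ d : Dart u, csx (u d.1.1) (vtm hc hs d) (vtx hc hs d) := by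
  classical
  have key : ∀ y ∈ Poly u, y ≠ 0 →
      ∃ d : Dart u, y ∈ csx (u d.1.1) (vtm hc hs d) (vtx hc hs d) := by
    intro y hy hy0
    obtain ⟨k0, hk0⟩ := exists_pos_inner hc hy0
    obtain ⟨i, -, hi⟩ := (Finset.univ : Finset (Fin f)).exists_max_image (fun k => ⟪u k, y⟫)
      ⟨k0, Finset.mem_univ _⟩
    set M := ⟪u i, y⟫ with hM
    have hMpos : 0 < M := hk0.trans_le (hi k0 (Finset.mem_univ _))
    have hM1 : M ≤ 1 := hy i
    have hw : ⟪u i, M⁻¹ • y - u i⟫ = 0 := by
      rw [inner_sub_right, inner_smul_right, hc.inner_self, ← hM, inv_mul_cancel₀ hMpos.ne',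
        sub_self]
    have hmem : u i + (M⁻¹ • y - u i) ∈ Poly u := by
      intro k
      rw [add_sub_cancel, inner_smul_right, inv_mul_le_iff₀ hMpos, mul_one]
      exact hi k (Finset.mem_univ _)
    obtain ⟨d, hd, β, γ, hβ, hγ, hβγ, heq⟩ := exists_dart_of_face hc hs hw hmem
    refine ⟨d, M * (1 - β - γ), M * β, M * γ, mul_nonneg hMpos.le (by linarith),
      by positivity, by positivity, by nlinarith, ?_⟩
    have h1 : y = M • (M⁻¹ • y) := by rw [smul_smul, mul_inv_cancel₀ hMpos.ne', one_smul]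
    have h2 : M⁻¹ • y = (M⁻¹ • y - u i) + u i := by abel
    rw [h1, h2, heq, hd]
    module
  intro y hy
  rw [mem_iUnion]
  by_cases hy0 : y = 0
  · -- some nonzero point
    obtain ⟨w, hw, -⟩ := exists_orth (0 : E3)
    have hw' : 0 < ‖w‖ := norm_pos_iff.2 hw
    have hmem : ‖w‖⁻¹ • w ∈ Poly u := by
      apply ball_subset_Poly hc
      rw [mem_closedBall, dist_zero_right, norm_smul, norm_inv, norm_norm,
        inv_mul_cancel₀ hw'.ne']
    obtain ⟨d, -⟩ := key _ hmem (smul_ne_zero (inv_ne_zero hw'.ne') hw)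
    exact ⟨d, 0, 0, 0, le_rfl, le_rfl, le_rfl, by norm_num, by simp [hy0]⟩
  · exact key y hy hy0

/-! ### Disjointness -/

/-- A relatively interior point of an edge is on no third face. -/
theorem eq_head_of_inner (hc : IsConfig u) (hs : IsSimple u) (d : Dart u) {β γ : ℝ}
    (hβ : 0 < β) (hγ : 0 < γ) (hβγ : β + γ = 1) {k : Fin f} (hk : k ≠ d.1.1)
    (h : ⟪u k, β • vtm hc hs d + γ • vtx hc hs d⟫ = 1) : k = d.1.2 := by
  by_contra hne
  rw [inner_add_right, inner_smul_right, inner_smul_right] at h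
  have h1 := vtm_mem hc hs d k
  have h2 := vtx_mem hc hs d k
  have e1 : ⟪u k, vtm hc hs d⟫ = 1 := by nlinarith
  have e2 : ⟪u k, vtx hc hs d⟫ = 1 := by nlinarith
  have hk2 : k ∈ ({d.1.1, d.1.2, (rhoE hc hs d).1.2} : Set (Fin f)) := by
    rw [← active_vtx]; exact e2
  have hk3 : k = (rhoE hc hs d).1.2 := by
    rcases hk2 with h | h | h
    · exact absurd h hk
    · exact absurd h hne
    · exact h
  have hdet : 0 < det3 (u d.1.1) (u d.1.2) (u k) := by
    rw [hk3]
    exact (third_spec hc hs d.2).1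
  have heq : vtm hc hs d = vtx hc hs d := by
    apply eq_of_inner hdet.ne'
    · rw [vtm_tail, vtx_tail]
    · rw [vtm_head, vtx_head]
    · rw [e1, e2]
  have := dd_pos hc hs d
  rw [dd, heq] at this
  have h0 : det3 (u d.1.1) (vtx hc hs d) (vtx hc hs d) = 0 := by simp [det3]; ring
  linarith

/-- Two different open triangles of a face have disjoint sectors. -/
theorem sector_unique (hc : IsConfig u) (hs : IsSimple u) {d d' : Dart u}
    (hd : d.1.1 = d'.1.1) {β γ β' γ' : ℝ} (hβ : 0 < β) (hγ : 0 < γ) (hβ' : 0 < β')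
    (hγ' : 0 < γ')
    (h : β • (vtm hc hs d - u d.1.1) + γ • (vtx hc hs d - u d.1.1) =
      β' • (vtm hc hs d' - u d'.1.1) + γ' • (vtx hc hs d' - u d'.1.1)) : d = d' := by
  -- comparison of the exit times
  have key : ∀ {d d' : Dart u} (_ : d.1.1 = d'.1.1) {β γ β' γ' : ℝ} (_ : 0 < β) (_ : 0 < γ)
      (_ : β • (vtm hc hs d - u d.1.1) + γ • (vtx hc hs d - u d.1.1) =
      β' • (vtm hc hs d' - u d'.1.1) + γ' • (vtx hc hs d' - u d'.1.1)),
      β' + γ' ≤ β + γ := by
    intro d d' hd β γ β' γ' hβ hγ h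
    have hz : ⟪u d'.1.2, β • (vtm hc hs d - u d.1.1) + γ • (vtx hc hs d - u d.1.1)⟫ =
        (β' + γ') * (1 - ⟪u d'.1.2, u d.1.1⟫) := by
      rw [h, inner_add_right, inner_smul_right, inner_smul_right, inner_sub_right,
        inner_sub_right, vtm_head, vtx_head, hd]
      ring
    rw [inner_add_right, inner_smul_right, inner_smul_right, inner_sub_right,
      inner_sub_right] at hz
    have h1 := mul_le_mul_of_nonneg_left (vtm_mem hc hs d d'.1.2) hβ.le
    have h2 := mul_le_mul_of_nonneg_left (vtx_mem hc hs d d'.1.2) hγ.le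
    have h3 : ⟪u d'.1.2, u d.1.1⟫ < 1 := by
      apply hc.inner_lt
      rw [hd]
      exact d'.2.1.symm
    refine le_of_mul_le_mul_right (a := 1 - ⟪u d'.1.2, u d.1.1⟫) ?_ (by linarith)
    rw [← hz]
    linarith
  have e1 := key hd hβ hγ h
  have e2 := key hd.symm hβ' hγ' h.symm
  have e3 : β' + γ' = β + γ := le_antisymm e1 e2
  have hs0 : 0 < β + γ := by positivity
  have hz : (β / (β + γ)) • vtm hc hs d + (γ / (β + γ)) • vtx hc hs d =
      (β' / (β + γ)) • vtm hc hs d' + (γ' / (β + γ)) • vtx hc hs d' := by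
    have h1 : (β + γ) • ((β / (β + γ)) • vtm hc hs d + (γ / (β + γ)) • vtx hc hs d) =
        (β + γ) • ((β' / (β + γ)) • vtm hc hs d' + (γ' / (β + γ)) • vtx hc hs d') := by
      rw [smul_add, smul_add, smul_smul, smul_smul, smul_smul, smul_smul,
        mul_div_cancel₀ _ hs0.ne', mul_div_cancel₀ _ hs0.ne', mul_div_cancel₀ _ hs0.ne',
        mul_div_cancel₀ _ hs0.ne']
      have h2 : β • vtm hc hs d + γ • vtx hc hs d =
          (β • (vtm hc hs d - u d.1.1) + γ • (vtx hc hs d - u d.1.1)) +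
            (β + γ) • u d.1.1 := by module
      have h3 : β' • vtm hc hs d' + γ' • vtx hc hs d' =
          (β' • (vtm hc hs d' - u d'.1.1) + γ' • (vtx hc hs d' - u d'.1.1)) +
            (β' + γ') • u d'.1.1 := by module
      rw [h2, h3, h, e3, hd]
    exact smul_right_injective _ hs0.ne' h1
  have hk : d'.1.2 = d.1.2 := by
    apply eq_head_of_inner hc hs d (div_pos hβ hs0) (div_pos hγ hs0)
      (by rw [← add_div, div_self hs0.ne'])
    · rw [hd]; exact d'.2.1.symm
    · rw [hz, inner_add_right, inner_smul_right, inner_smul_right, vtm_head, vtx_head, mul_one,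
        mul_one, ← add_div, e3, div_self hs0.ne']
  exact Subtype.ext (Prod.ext hd hk.symm)

/-- In the open simplex of `d` the inner product with the tail is strictly the largest. -/
theorem inner_lt_of_mem_osx (hc : IsConfig u) (hs : IsSimple u) {d : Dart u} {α β γ : ℝ}
    (hα : 0 < α) (hβ : 0 < β) (hγ : 0 < γ) (k : Fin f) (hk : k ≠ d.1.1) :
    ⟪u k, α • u d.1.1 + β • vtm hc hs d + γ • vtx hc hs d⟫ < α + β + γ := by
  rw [inner_add_right, inner_add_right, inner_smul_right, inner_smul_right, inner_smul_right]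
  have a1 := mul_lt_mul_of_pos_left (hc.inner_lt hk) hα
  have a2 := mul_le_mul_of_nonneg_left (vtm_mem hc hs d k) hβ.le
  have a3 := mul_le_mul_of_nonneg_left (vtx_mem hc hs d k) hγ.le
  linarith

theorem inner_eq_of_comb (hc : IsConfig u) (hs : IsSimple u) (d : Dart u) (α β γ : ℝ) :
    ⟪u d.1.1, α • u d.1.1 + β • vtm hc hs d + γ • vtx hc hs d⟫ = α + β + γ := by
  rw [inner_add_right, inner_add_right, inner_smul_right, inner_smul_right, inner_smul_right,
    hc.inner_self, vtm_tail, vtx_tail, mul_one, mul_one, mul_one]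

theorem inner_le_of_mem_osx (hc : IsConfig u) (hs : IsSimple u) {d : Dart u} {x : E3}
    (hx : x ∈ osx (u d.1.1) (vtm hc hs d) (vtx hc hs d)) (k : Fin f) :
    ⟪u k, x⟫ ≤ ⟪u d.1.1, x⟫ := by
  obtain ⟨α, β, γ, h1, h2, h3, h4, rfl⟩ := hx
  by_cases hk : k = d.1.1
  · rw [hk]
  · rw [inner_eq_of_comb]
    exact (inner_lt_of_mem_osx hc hs h1 h2 h3 k hk).le

theorem disjoint_osx (hc : IsConfig u) (hs : IsSimple u) {d d' : Dart u} (h : d ≠ d') :
    Disjoint (osx (u d.1.1) (vtm hc hs d) (vtx hc hs d))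
      (osx (u d'.1.1) (vtm hc hs d') (vtx hc hs d')) := by
  rw [Set.disjoint_left]
  rintro x ⟨α, β, γ, h1, h2, h3, h4, h5⟩ ⟨α', β', γ', h1', h2', h3', h4', h5'⟩
  apply h
  have e1 : ⟪u d.1.1, x⟫ = α + β + γ := by rw [h5]; exact inner_eq_of_comb hc hs d α β γ
  have e2 : ⟪u d'.1.1, x⟫ = α' + β' + γ' := by
    rw [h5']; exact inner_eq_of_comb hc hs d' α' β' γ'
  have hd : d.1.1 = d'.1.1 := by
    by_contra hne
    have a1 := inner_lt_of_mem_osx hc hs (d := d) h1 h2 h3 d'.1.1 (Ne.symm hne)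
    have a2 := inner_lt_of_mem_osx hc hs (d := d') h1' h2' h3' d.1.1 hne
    rw [← h5, e2] at a1
    rw [← h5', e1] at a2
    linarith
  have e3 : α + β + γ = α' + β' + γ' := by rw [← e1, ← e2, hd]
  apply sector_unique hc hs hd h2 h3 h2' h3'
  have f1 : β • (vtm hc hs d - u d.1.1) + γ • (vtx hc hs d - u d.1.1) =
      x - (α + β + γ) • u d.1.1 := by rw [h5]; module
  have f2 : β' • (vtm hc hs d' - u d'.1.1) + γ' • (vtx hc hs d' - u d'.1.1) =
      x - (α' + β' + γ') • u d'.1.1 := by rw [h5']; module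
  rw [f1, f2, e3, hd]

/-! ### Volumes -/

theorem osx_subset_Poly (hc : IsConfig u) (hs : IsSimple u) (d : Dart u) :
    osx (u d.1.1) (vtm hc hs d) (vtx hc hs d) ⊆ Poly u :=
  (osx_subset_csx _ _ _).trans (csx_subset_Poly hc hs d)

theorem measurableSet_osx_dart (hc : IsConfig u) (hs : IsSimple u) (d : Dart u) :
    MeasurableSet (osx (u d.1.1) (vtm hc hs d) (vtx hc hs d)) :=
  (isOpen_osx (dd_pos hc hs d)).measurableSet

theorem volume_Poly_ne_top (hc : IsConfig u) : volume (Poly u) ≠ ⊤ :=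
  (isCompact_Poly hc).measure_lt_top.ne

/-- Sum of the volumes of some of the open simplices. -/
theorem sum_ofReal_dd (hc : IsConfig u) (hs : IsSimple u) (J : Finset (Dart u)) :
    volume (⋃ d ∈ J, osx (u d.1.1) (vtm hc hs d) (vtx hc hs d)) =
      ENNReal.ofReal (∑ d ∈ J, dd hc hs d / 6) := by
  rw [measure_biUnion_finset (fun d _ d' _ h => disjoint_osx hc hs h)
    (fun d _ => measurableSet_osx_dart hc hs d),
    ENNReal.ofReal_sum_of_nonneg fun d _ => div_nonneg (dd_pos hc hs d).le (by norm_num)]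
  exact Finset.sum_congr rfl fun d _ => volume_osx (dd_pos hc hs d)

theorem vol_eq_sum (hc : IsConfig u) (hs : IsSimple u) :
    vol (Poly u) = ∑ d : Dart u, dd hc hs d / 6 := by
  have hnn : 0 ≤ ∑ d : Dart u, dd hc hs d / 6 :=
    Finset.sum_nonneg fun d _ => div_nonneg (dd_pos hc hs d).le (by norm_num)
  have h1 : volume (Poly u) ≤ ENNReal.ofReal (∑ d : Dart u, dd hc hs d / 6) := by
    calc volume (Poly u) ≤ volume (⋃ d : Dart u, csx (u d.1.1) (vtm hc hs d) (vtx hc hs d)) :=
          measure_mono (Poly_subset_iUnion_csx hc hs)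
      _ ≤ ∑ d : Dart u, volume (csx (u d.1.1) (vtm hc hs d) (vtx hc hs d)) :=
          measure_iUnion_fintype_le _ _
      _ = ENNReal.ofReal (∑ d : Dart u, dd hc hs d / 6) := by
          rw [ENNReal.ofReal_sum_of_nonneg fun d _ => div_nonneg (dd_pos hc hs d).le
            (by norm_num)]
          exact Finset.sum_congr rfl fun d _ => volume_csx (dd_pos hc hs d)
  have h2 : ENNReal.ofReal (∑ d : Dart u, dd hc hs d / 6) ≤ volume (Poly u) := by
    rw [← sum_ofReal_dd hc hs Finset.univ]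
    exact measure_mono (iUnion₂_subset fun d _ => osx_subset_Poly hc hs d)
  rw [vol, le_antisymm h1 h2, ENNReal.toReal_ofReal hnn]

theorem vol_closedBall : vol (closedBall (0 : E3) 1) = 4 * Real.pi / 3 := by
  rw [vol, EuclideanSpace.volume_closedBall_fin_three, ENNReal.ofReal_one, one_pow, one_mul,
    ENNReal.toReal_ofReal (by positivity)]
  ring

theorem vol_mono {s t : Set E3} (h : s ⊆ t) (ht : volume t ≠ ⊤) : vol s ≤ vol t :=
  ENNReal.toReal_mono ht (measure_mono h)

theorem four_pi_le_vol (hc : IsConfig u) : 4 * Real.pi / 3 ≤ vol (Poly u) := by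
  rw [← vol_closedBall]
  exact vol_mono (ball_subset_Poly hc) (volume_Poly_ne_top hc)

theorem vol_Poly_diff (hc : IsConfig u) :
    vol (Poly u \ closedBall 0 1) = vol (Poly u) - 4 * Real.pi / 3 := by
  have h := measure_sdiff (μ := (volume : Measure E3)) (ball_subset_Poly hc)
    measurableSet_closedBall.nullMeasurableSet
    (measure_closedBall_lt_top.ne)
  rw [← vol_closedBall, vol, h, ENNReal.toReal_sub_of_le (measure_mono (ball_subset_Poly hc))
    (volume_Poly_ne_top hc)]
  rfl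

/-- The total second moment is controlled by the excess volume. -/
theorem sum_mm_le (hc : IsConfig u) (hs : IsSimple u) {R : ℝ}
    (hR : ∀ x ∈ Poly u, ‖x‖ ^ 2 ≤ R) :
    ∑ d : Dart u, mm hc hs d ≤ (5 * R - 3) * (vol (Poly u) - 4 * Real.pi / 3) := by
  have hR1 : 1 ≤ R := by
    obtain ⟨w, hw, -⟩ := exists_orth (0 : E3)
    have hw' : 0 < ‖w‖ := norm_pos_iff.2 hw
    have hn : ‖‖w‖⁻¹ • w‖ = 1 := by rw [norm_smul, norm_inv, norm_norm, inv_mul_cancel₀ hw'.ne']
    have := hR (‖w‖⁻¹ • w) (ball_subset_Poly hc (by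
      rw [mem_closedBall, dist_zero_right, hn]))
    rw [hn] at this
    linarith
  have h1 : ∀ d : Dart u, mm hc hs d ≤
      (5 * R - 3) * vol (osx (u d.1.1) (vtm hc hs d) (vtx hc hs d) \ closedBall 0 1) := by
    intro d
    exact mom_le (hc.unit _) (vtm_tail hc hs d) (vtx_tail hc hs d) (dd_pos hc hs d)
      fun x hx => hR x (osx_subset_Poly hc hs d hx)
  have h2 : ∑ d : Dart u, vol (osx (u d.1.1) (vtm hc hs d) (vtx hc hs d) \ closedBall 0 1) ≤
      vol (Poly u \ closedBall 0 1) := by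
    have hfin : volume (Poly u \ closedBall 0 1) ≠ ⊤ :=
      ((measure_mono sdiff_subset).trans_lt (volume_Poly_ne_top hc).lt_top).ne
    have h3 : volume (⋃ d ∈ (Finset.univ : Finset (Dart u)),
        osx (u d.1.1) (vtm hc hs d) (vtx hc hs d) \ closedBall 0 1) =
        ∑ d : Dart u, volume (osx (u d.1.1) (vtm hc hs d) (vtx hc hs d) \ closedBall 0 1) :=
      measure_biUnion_finset
        (fun d _ d' _ h => (disjoint_osx hc hs h).mono sdiff_subset sdiff_subset)
        fun d _ => (measurableSet_osx_dart hc hs d).diff measurableSet_closedBall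
    have h4 : (⋃ d ∈ (Finset.univ : Finset (Dart u)),
        osx (u d.1.1) (vtm hc hs d) (vtx hc hs d) \ closedBall 0 1) ⊆
        Poly u \ closedBall 0 1 :=
      iUnion₂_subset fun d _ => sdiff_subset_sdiff_left (osx_subset_Poly hc hs d)
    have h5 := vol_mono h4 hfin
    unfold vol at h5 ⊢
    rw [h3, ENNReal.toReal_sum] at h5
    · exact h5
    · intro d _
      refine ((measure_mono ?_).trans_lt hfin.lt_top).ne
      exact sdiff_subset_sdiff_left (osx_subset_Poly hc hs d)
  calc ∑ d : Dart u, mm hc hs d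
      ≤ ∑ d : Dart u, (5 * R - 3) *
        vol (osx (u d.1.1) (vtm hc hs d) (vtx hc hs d) \ closedBall 0 1) :=
        Finset.sum_le_sum fun d _ => h1 d
    _ = (5 * R - 3) * ∑ d : Dart u,
        vol (osx (u d.1.1) (vtm hc hs d) (vtx hc hs d) \ closedBall 0 1) := by
        rw [Finset.mul_sum]
    _ ≤ (5 * R - 3) * vol (Poly u \ closedBall 0 1) :=
        mul_le_mul_of_nonneg_left h2 (by linarith)
    _ = (5 * R - 3) * (vol (Poly u) - 4 * Real.pi / 3) := by rw [vol_Poly_diff hc]

/-- Sum of the simplex volumes of a set of faces is at most the volume of any measurable set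
containing the cones over these faces. -/
theorem sum_dd_le_vol (hc : IsConfig u) (hs : IsSimple u) (I : Finset (Fin f)) (Reg : Set E3)
    (hReg : volume Reg ≠ ⊤)
    (h : ∀ x ∈ Poly u, ∀ i ∈ I, (∀ j, ⟪u j, x⟫ ≤ ⟪u i, x⟫) → x ∈ Reg) :
    ∑ d ∈ (Finset.univ : Finset (Dart u)).filter (fun d => d.1.1 ∈ I), dd hc hs d / 6
      ≤ vol Reg := by
  have hnn : 0 ≤ ∑ d ∈ (Finset.univ : Finset (Dart u)).filter (fun d => d.1.1 ∈ I),
      dd hc hs d / 6 :=
    Finset.sum_nonneg fun d _ => div_nonneg (dd_pos hc hs d).le (by norm_num)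
  have h1 := sum_ofReal_dd hc hs
    ((Finset.univ : Finset (Dart u)).filter (fun d => d.1.1 ∈ I))
  have h2 : (⋃ d ∈ (Finset.univ : Finset (Dart u)).filter (fun d => d.1.1 ∈ I),
      osx (u d.1.1) (vtm hc hs d) (vtx hc hs d)) ⊆ Reg := by
    intro x hx
    rw [mem_iUnion₂] at hx
    obtain ⟨d, hd, hx⟩ := hx
    exact h x (osx_subset_Poly hc hs d hx) d.1.1 (Finset.mem_filter.1 hd).2
      fun j => inner_le_of_mem_osx hc hs hx j
  have h3 := vol_mono h2 hReg
  unfold vol at h3 ⊢
  rwa [h1, ENNReal.toReal_ofReal hnn] at h3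

/-! ### Sectors at a touching point -/

theorem cr_cr (a b c : E3) : cr a (cr b c) = ⟪a, c⟫ • b - ⟪a, b⟫ • c := by
  ext k
  fin_cases k <;> simp [inner3] <;> ring

theorem cr_anti (a b : E3) : cr b a = -cr a b := by
  ext k
  fin_cases k <;> simp <;> ring

theorem det3_comb (e b1 b2 : E3) (x y z w : ℝ) :
    det3 e (x • b1 + y • b2) (z • b1 + w • b2) = (x * w - y * z) * det3 e b1 b2 := by
  simp [det3]; ring

theorem det3_smul_mid (e p q : E3) (x : ℝ) : det3 e (x • p) q = x * det3 e p q := by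
  simp [det3]; ring

theorem det3_smul_right (e p q : E3) (x : ℝ) : det3 e p (x • q) = x * det3 e p q := by
  simp [det3]; ring

/-- An oriented orthonormal frame of the plane orthogonal to a unit vector. -/
theorem exists_frame {e : E3} (he : ‖e‖ = 1) : ∃ b1 b2 : E3, ⟪b1, b1⟫ = 1 ∧ ⟪b2, b2⟫ = 1 ∧
    ⟪b1, b2⟫ = 0 ∧ ⟪e, b1⟫ = 0 ∧ ⟪e, b2⟫ = 0 ∧ det3 e b1 b2 = 1 ∧
    ∀ v, ⟪e, v⟫ = 0 → v = ⟪b1, v⟫ • b1 + ⟪b2, v⟫ • b2 := by
  obtain ⟨w, hw, hew⟩ := exists_orth e
  have hw' : 0 < ‖w‖ := norm_pos_iff.2 hw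
  have hee : ⟪e, e⟫ = 1 := by rw [real_inner_self_eq_norm_sq, he]; norm_num
  set b1 : E3 := ‖w‖⁻¹ • w with hb1
  have h11 : ⟪b1, b1⟫ = 1 := by
    rw [hb1, inner_smul_left, inner_smul_right, real_inner_self_eq_norm_sq]
    simp
    field_simp
  have he1 : ⟪e, b1⟫ = 0 := by rw [hb1, inner_smul_right, hew, mul_zero]
  have h22 : ⟪cr e b1, cr e b1⟫ = 1 := by
    rw [real_inner_self_eq_norm_sq, normsq_cr, he, he1, ← real_inner_self_eq_norm_sq b1, h11]
    norm_num
  have hdet : det3 e b1 (cr e b1) = 1 := by rw [← inner_cr_left, h22]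
  have he2 : ⟪e, cr e b1⟫ = 0 := by rw [inner_cr_right]; simp [det3]; ring
  refine ⟨b1, cr e b1, h11, h22, ?_, he1, he2, hdet, ?_⟩
  · rw [inner_cr_right]; simp [det3]; ring
  · intro v hv
    have h := det3_smul e b1 (cr e b1) v
    rw [hdet, hv, one_smul, zero_smul, zero_add] at h
    have h3 : cr (cr e b1) e = b1 := by
      rw [cr_anti, cr_cr, he1, hee]; simp
    rw [h3] at h
    exact h

theorem measurableSet_arc (φ ψ : ℝ) :
    MeasurableSet {t : ℝ | 0 < Real.sin (t - φ) ∧ 0 < Real.sin (ψ - (t - φ))} := by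
  have h1 : IsOpen {t : ℝ | 0 < Real.sin (t - φ)} := isOpen_lt continuous_const (by fun_prop)
  have h2 : IsOpen {t : ℝ | 0 < Real.sin (ψ - (t - φ))} :=
    isOpen_lt continuous_const (by fun_prop)
  exact (h1.inter h2).measurableSet

/-- Measure of the directions in a sector. -/
theorem volume_arc {φ ψ : ℝ} (h0 : 0 < ψ) (h1 : ψ < Real.pi) :
    ∫ t in (-Real.pi)..Real.pi,
      {t | 0 < Real.sin (t - φ) ∧ 0 < Real.sin (ψ - (t - φ))}.indicator (fun _ => (1 : ℝ)) t
        = ψ := by
  set A : Set ℝ := {t | 0 < Real.sin (t - φ) ∧ 0 < Real.sin (ψ - (t - φ))} with hA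
  have hper : Function.Periodic (A.indicator fun _ => (1 : ℝ)) (2 * Real.pi) := by
    intro t
    have e1 : Real.sin (t + 2 * Real.pi - φ) = Real.sin (t - φ) := by
      rw [show t + 2 * Real.pi - φ = (t - φ) + 2 * Real.pi by ring, Real.sin_add_two_pi]
    have e2 : Real.sin (ψ - (t + 2 * Real.pi - φ)) = Real.sin (ψ - (t - φ)) := by
      rw [show ψ - (t + 2 * Real.pi - φ) = (ψ - (t - φ)) - 2 * Real.pi by ring,
        Real.sin_sub_two_pi]
    by_cases ht : t ∈ A
    · have ht' : t + 2 * Real.pi ∈ A := ⟨by rw [e1]; exact ht.1, by rw [e2]; exact ht.2⟩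
      rw [indicator_of_mem ht, indicator_of_mem ht']
    · have ht' : t + 2 * Real.pi ∉ A := fun h => ht ⟨by rw [← e1]; exact h.1,
        by rw [← e2]; exact h.2⟩
      rw [indicator_of_notMem ht, indicator_of_notMem ht']
  have hmeas : MeasurableSet A := measurableSet_arc φ ψ
  have h2 := hper.intervalIntegral_add_eq (-Real.pi) φ
  rw [show -Real.pi + 2 * Real.pi = Real.pi by ring] at h2
  rw [h2, intervalIntegral.integral_of_le (by linarith [Real.pi_pos]),
    integral_indicator hmeas, Measure.restrict_restrict hmeas]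
  have h3 : A ∩ Ioc φ (φ + 2 * Real.pi) = Ioo φ (φ + ψ) := by
    ext t
    simp only [hA, mem_inter_iff, mem_ofPred_eq, mem_Ioc, mem_Ioo]
    constructor
    · rintro ⟨⟨h4, h5⟩, h6, h7⟩
      have h8 : t - φ < Real.pi := by
        by_contra hcon
        push Not at hcon
        have : Real.sin (t - φ) ≤ 0 := by
          rw [← Real.sin_sub_two_pi]
          exact Real.sin_nonpos_of_nonpos_of_neg_pi_le (by linarith) (by linarith)
        linarith
      refine ⟨h6, ?_⟩
      by_contra hcon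
      push Not at hcon
      have : Real.sin (ψ - (t - φ)) ≤ 0 :=
        Real.sin_nonpos_of_nonpos_of_neg_pi_le (by linarith) (by linarith)
      linarith
    · rintro ⟨h4, h5⟩
      refine ⟨⟨Real.sin_pos_of_pos_of_lt_pi (by linarith) (by linarith),
        Real.sin_pos_of_pos_of_lt_pi (by linarith) (by linarith)⟩, h4, by linarith⟩
  rw [h3]
  simp only [integral_const, MeasurableSet.univ, measureReal_restrict_apply, univ_inter,
    smul_eq_mul, mul_one]
  rw [Real.volume_real_Ioo_of_le (by linarith)]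
  ring

theorem exists_polar {e b1 b2 : E3} (h11 : ⟪b1, b1⟫ = 1) (h22 : ⟪b2, b2⟫ = 1)
    (h12 : ⟪b1, b2⟫ = 0)
    (hb : ∀ v, ⟪e, v⟫ = 0 → v = ⟪b1, v⟫ • b1 + ⟪b2, v⟫ • b2) {v : E3} (hv : ⟪e, v⟫ = 0) :
    ∃ φ : ℝ, v = ‖v‖ • (Real.cos φ • b1 + Real.sin φ • b2) := by
  have h := hb v hv
  set x := ⟪b1, v⟫ with hx
  set y := ⟪b2, v⟫ with hy
  have hn : ‖v‖ ^ 2 = x ^ 2 + y ^ 2 := by
    rw [← real_inner_self_eq_norm_sq]
    nth_rw 2 [h]
    rw [inner_add_right, inner_smul_right, inner_smul_right, real_inner_comm b1 v,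
      real_inner_comm b2 v, ← hx, ← hy]
    ring
  have hz : ‖(⟨x, y⟩ : ℂ)‖ = ‖v‖ := by
    rw [Complex.norm_def, Complex.normSq_mk, show x * x + y * y = ‖v‖ ^ 2 by rw [hn]; ring,
      Real.sqrt_sq (norm_nonneg _)]
  refine ⟨Complex.arg ⟨x, y⟩, ?_⟩
  have e1 : ‖v‖ * Real.cos (Complex.arg ⟨x, y⟩) = x := by
    rw [← hz, Complex.norm_mul_cos_arg]
  have e2 : ‖v‖ * Real.sin (Complex.arg ⟨x, y⟩) = y := by
    rw [← hz, Complex.norm_mul_sin_arg]
  rw [smul_add, smul_smul, smul_smul, e1, e2]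
  exact h

/-- The sectors of the triangles at a touching point do not overlap. -/
theorem sum_ang_le (hc : IsConfig u) (hs : IsSimple u) (i : Fin f) :
    ∑ d ∈ (Finset.univ : Finset (Dart u)).filter (fun d => d.1.1 = i), ang hc hs d
      ≤ 2 * Real.pi := by
  obtain ⟨b1, b2, h11, h22, h12, he1, he2, hdet, hb⟩ := exists_frame (hc.unit i)
  set v : ℝ → E3 := fun t => Real.cos t • b1 + Real.sin t • b2 with hv
  let A : Dart u → Set ℝ := fun d =>
    {t | 0 < det3 (u i) (vtm hc hs d - u i) (v t) ∧ 0 < det3 (u i) (v t) (vtx hc hs d - u i)}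
  have hev : ∀ t, ⟪u i, v t⟫ = 0 := by
    intro t
    rw [hv]
    simp only
    rw [inner_add_right, inner_smul_right, inner_smul_right, he1, he2]
    ring
  have hcont : Continuous v := by
    rw [hv]; fun_prop
  -- each set has measure the angle
  have hang : ∀ d : Dart u, d.1.1 = i →
      ∫ t in (-Real.pi)..Real.pi, (A d).indicator (fun _ => (1 : ℝ)) t = ang hc hs d ∧
      IntervalIntegrable ((A d).indicator fun _ => (1 : ℝ)) volume (-Real.pi) Real.pi := by
    intro d hd
    set p := vtm hc hs d - u i with hp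
    set q := vtx hc hs d - u i with hq
    have hep : ⟪u i, p⟫ = 0 := by
      rw [hp, inner_sub_right, ← hd, vtm_tail, hc.inner_self, sub_self]
    have heq : ⟪u i, q⟫ = 0 := by
      rw [hq, inner_sub_right, ← hd, vtx_tail, hc.inner_self, sub_self]
    have hpq : 0 < det3 (u i) p q := by
      have := dd_pos hc hs d
      rw [dd, hd] at this
      have h3 : det3 (u i) p q = det3 (u i) (vtm hc hs d) (vtx hc hs d) := by
        rw [hp, hq]; simp [det3]; ring
      rwa [h3]
    obtain ⟨φ, hφ⟩ := exists_polar h11 h22 h12 hb hep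
    obtain ⟨φ', hφ'⟩ := exists_polar h11 h22 h12 hb heq
    have hp0 : 0 < ‖p‖ := by
      rw [norm_pos_iff]
      rintro h0
      rw [h0] at hpq
      simp [det3] at hpq
    have hq0 : 0 < ‖q‖ := by
      rw [norm_pos_iff]
      rintro h0
      rw [h0] at hpq
      simp [det3] at hpq
    have hsin : 0 < Real.sin (φ' - φ) := by
      rw [hφ, hφ', det3_smul_mid, det3_smul_right, det3_comb, hdet] at hpq
      rw [Real.sin_sub]
      have h4 : 0 < ‖p‖ * ‖q‖ * (Real.cos φ * Real.sin φ' - Real.sin φ * Real.cos φ') := by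
        linarith
      have h5 := (pos_iff_pos_of_mul_pos h4).1 (by positivity)
      linarith
    have hcos : ⟪p, q⟫ = ‖p‖ * ‖q‖ * Real.cos (φ' - φ) := by
      nth_rw 1 [hφ]
      nth_rw 1 [hφ']
      rw [inner_smul_left, inner_smul_right, inner_add_left, inner_add_right, inner_add_right,
        inner_smul_left, inner_smul_left, inner_smul_right, inner_smul_right, inner_smul_right,
        inner_smul_right, inner_smul_left, inner_smul_left, h11, h22, h12,
        real_inner_comm b1 b2, h12, Real.cos_sub]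
      simp
      ring
    set ψ := ang hc hs d with hψ
    have hψ' : ψ = InnerProductGeometry.angle p q := by rw [hψ, ang, hd]
    have hcosψ : Real.cos ψ = Real.cos (φ' - φ) := by
      rw [hψ', InnerProductGeometry.cos_angle, hcos]
      field_simp
    have hψ0 : 0 ≤ ψ := by rw [hψ']; exact InnerProductGeometry.angle_nonneg _ _
    have hψ1 : ψ ≤ Real.pi := by rw [hψ']; exact InnerProductGeometry.angle_le_pi _ _
    have hsinψ : Real.sin ψ = Real.sin (φ' - φ) := by
      have h6 : 0 ≤ Real.sin ψ := Real.sin_nonneg_of_nonneg_of_le_pi hψ0 hψ1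
      have h7 := Real.sin_sq_add_cos_sq ψ
      have h8 := Real.sin_sq_add_cos_sq (φ' - φ)
      rw [hcosψ] at h7
      have h9 : Real.sin ψ ^ 2 = Real.sin (φ' - φ) ^ 2 := by linarith
      exact (pow_left_inj₀ h6 hsin.le two_ne_zero).1 h9
    have hψpos : 0 < ψ := by
      rcases hψ0.lt_or_eq with h | h
      · exact h
      · rw [← hsinψ, ← h, Real.sin_zero] at hsin
        exact absurd hsin (lt_irrefl _)
    have hψlt : ψ < Real.pi := by
      rcases hψ1.lt_or_eq with h | h
      · exact h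
      · rw [← hsinψ, h, Real.sin_pi] at hsin
        exact absurd hsin (lt_irrefl _)
    have hset : A d = {t | 0 < Real.sin (t - φ) ∧ 0 < Real.sin (ψ - (t - φ))} := by
      ext t
      have e1 : det3 (u i) p (v t) = ‖p‖ * Real.sin (t - φ) := by
        rw [hφ, hv]
        simp only
        rw [det3_smul_mid, det3_comb, hdet, Real.sin_sub]
        have : ‖‖p‖ • (Real.cos φ • b1 + Real.sin φ • b2)‖ = ‖p‖ := by rw [← hφ]
        rw [this]; ring
      have e2 : det3 (u i) (v t) q = ‖q‖ * Real.sin (ψ - (t - φ)) := by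
        rw [hφ', hv]
        simp only
        rw [det3_smul_right, det3_comb, hdet, Real.sin_sub ψ, hsinψ, hcosψ, ← Real.sin_sub,
          show φ' - φ - (t - φ) = φ' - t by ring, Real.sin_sub]
        have : ‖‖q‖ • (Real.cos φ' • b1 + Real.sin φ' • b2)‖ = ‖q‖ := by rw [← hφ']
        rw [this]; ring
      simp only [A, mem_ofPred_eq]
      rw [← hp, ← hq, e1, e2, mul_pos_iff_of_pos_left hp0, mul_pos_iff_of_pos_left hq0]
    rw [hset]
    refine ⟨volume_arc hψpos hψlt, ?_⟩
    rw [intervalIntegrable_iff]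
    exact (integrableOn_const (by simp) (by simp)).indicator (measurableSet_arc φ ψ)
  -- the sets are disjoint
  have hdisj : ∀ d d' : Dart u, d.1.1 = i → d'.1.1 = i → ∀ t, t ∈ A d → t ∈ A d' → d = d' := by
    intro d d' hd hd' t ht ht'
    have key : ∀ d : Dart u, d.1.1 = i → t ∈ A d → ∃ β γ : ℝ, 0 < β ∧ 0 < γ ∧
        v t = β • (vtm hc hs d - u d.1.1) + γ • (vtx hc hs d - u d.1.1) := by
      intro d hd ht
      have hpq : 0 < det3 (u i) (vtm hc hs d - u i) (vtx hc hs d - u i) := by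
        have := dd_pos hc hs d
        rw [dd, hd] at this
        have h3 : det3 (u i) (vtm hc hs d - u i) (vtx hc hs d - u i) =
            det3 (u i) (vtm hc hs d) (vtx hc hs d) := by simp [det3]; ring
        rwa [h3]
      set p := vtm hc hs d - u i with hp
      set q := vtx hc hs d - u i with hq
      have hep : ⟪u i, p⟫ = 0 := by
        rw [hp, inner_sub_right, ← hd, vtm_tail, hc.inner_self, sub_self]
      have heq : ⟪u i, q⟫ = 0 := by
        rw [hq, inner_sub_right, ← hd, vtx_tail, hc.inner_self, sub_self]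
      have h0 : det3 (v t) p q = 0 := by
        by_contra hne
        have hu := eq_zero_of_inner (v := u i) hne (by rw [real_inner_comm]; exact hev t)
          (by rw [real_inner_comm]; exact hep) (by rw [real_inner_comm]; exact heq)
        have := hc.unit i
        rw [hu, norm_zero] at this
        norm_num at this
      have hid : det3 (u i) p q • v t = det3 (v t) p q • u i + det3 (u i) (v t) q • p +
          det3 (u i) p (v t) • q := by
        ext k
        fin_cases k <;> simp [det3] <;> ring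
      refine ⟨det3 (u i) (v t) q / det3 (u i) p q, det3 (u i) p (v t) / det3 (u i) p q,
        div_pos ht.2 hpq, div_pos ht.1 hpq, ?_⟩
      rw [hd, ← hp, ← hq]
      calc v t = (det3 (u i) p q)⁻¹ • (det3 (u i) p q • v t) := by
            rw [smul_smul, inv_mul_cancel₀ hpq.ne', one_smul]
        _ = _ := by
            rw [hid, h0, zero_smul, zero_add, smul_add, smul_smul, smul_smul, div_eq_inv_mul,
              div_eq_inv_mul]
    obtain ⟨β, γ, h1, h2, h3⟩ := key d hd ht
    obtain ⟨β', γ', h1', h2', h3'⟩ := key d' hd' ht'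
    exact sector_unique hc hs (hd.trans hd'.symm) h1 h2 h1' h2' (h3.symm.trans h3')
  set J := (Finset.univ : Finset (Dart u)).filter (fun d => d.1.1 = i) with hJ
  have hJi : ∀ d ∈ J, d.1.1 = i := fun d hd => (Finset.mem_filter.1 hd).2
  calc ∑ d ∈ J, ang hc hs d
      = ∑ d ∈ J, ∫ t in (-Real.pi)..Real.pi, (A d).indicator (fun _ => (1 : ℝ)) t :=
        Finset.sum_congr rfl fun d hd => (hang d (hJi d hd)).1.symm
    _ = ∫ t in (-Real.pi)..Real.pi, ∑ d ∈ J, (A d).indicator (fun _ => (1 : ℝ)) t := by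
        rw [intervalIntegral.integral_finsetSum fun d hd => (hang d (hJi d hd)).2]
    _ ≤ ∫ t in (-Real.pi)..Real.pi, (1 : ℝ) := by
        apply intervalIntegral.integral_mono_on (by linarith [Real.pi_pos])
        · have := IntervalIntegrable.sum J fun d hd => (hang d (hJi d hd)).2
          rwa [Finset.sum_fn] at this
        · exact intervalIntegrable_const
        · intro t _
          by_cases hex : ∃ d ∈ J, t ∈ A d
          · obtain ⟨d, hd, ht⟩ := hex
            rw [Finset.sum_eq_single_of_mem d hd]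
            · rw [indicator_of_mem ht]
            · intro d' hd' hne
              rw [indicator_of_notMem]
              intro ht'
              exact hne (hdisj d' d (hJi d' hd') (hJi d hd) t ht' ht)
          · push Not at hex
            rw [Finset.sum_eq_zero fun d hd => indicator_of_notMem (hex d hd) _]
            exact zero_le_one
    _ = 2 * Real.pi := by
        rw [intervalIntegral.integral_const, smul_eq_mul]
        ring

end Gold
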