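import Pool.Agent.Lib.H81.Gold.Faces

/-!
# Euler's formula by a generic linear functional (chunk E)

For a generic vector `e` every dart `d` gets `s d = 1` if the edge of `d` goes up from `vtx d`,
and `0` otherwise.  Counting local minima on the faces and local extrema of the polytope gives
`|D| - 3 ∑ s + 3 ∑ s s'' = 6`, with `∑ s = |D| / 2` and `∑ s s'' = f`.
-/

noncomputable section

open MeasureTheory Metric Set
open scoped RealInnerProductSpace

namespace Gold

namespace EulerAux

variable {f : ℕ} {u : Fin f → E3}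

/-- A vector is determined by its products with three independent vectors. -/
theorem eq_of_det {a b c x y : E3} (h : det3 a b c ≠ 0) (ha : ⟪a, x⟫ = ⟪a, y⟫)
    (hb : ⟪b, x⟫ = ⟪b, y⟫) (hc : ⟪c, x⟫ = ⟪c, y⟫) : x = y := by
  simp only [inner3] at ha hb hc
  have h0 : det3 a b c * (x 0 - y 0) = 0 := by
    simp only [det3]
    linear_combination (b 1 * c 2 - b 2 * c 1) * ha + (c 1 * a 2 - c 2 * a 1) * hb
      + (a 1 * b 2 - a 2 * b 1) * hc
  have h1 : det3 a b c * (x 1 - y 1) = 0 := by
    simp only [det3]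
    linear_combination (b 2 * c 0 - b 0 * c 2) * ha + (c 2 * a 0 - c 0 * a 2) * hb
      + (a 2 * b 0 - a 0 * b 2) * hc
  have h2 : det3 a b c * (x 2 - y 2) = 0 := by
    simp only [det3]
    linear_combination (b 0 * c 1 - b 1 * c 0) * ha + (c 0 * a 1 - c 1 * a 0) * hb
      + (a 0 * b 1 - a 1 * b 0) * hc
  have e0 : x 0 = y 0 := by
    rcases mul_eq_zero.1 h0 with h' | h'
    · exact absurd h' h
    · linarith
  have e1 : x 1 = y 1 := by
    rcases mul_eq_zero.1 h1 with h' | h'
    · exact absurd h' h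
    · linarith
  have e2 : x 2 = y 2 := by
    rcases mul_eq_zero.1 h2 with h' | h'
    · exact absurd h' h
    · linarith
  ext i
  fin_cases i
  · exact e0
  · exact e1
  · exact e2

theorem det3_self_left (a b : E3) : det3 a a b = 0 := by simp [det3]; ring

theorem det3_self_right (a b : E3) : det3 a b b = 0 := by simp [det3]; ring

theorem det3_self_mid (a b : E3) : det3 a b a = 0 := by simp [det3]; ring

/-- The next dart at the same vertex. -/
def tauF (hc : IsConfig u) (hs : IsSimple u) (d : Dart u) : Dart u :=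
  ⟨(d.1.2, third hc hs d.2), (third_spec hc hs d.2).rot.adj⟩

theorem tauF_tauF (hc : IsConfig u) (hs : IsSimple u) (d : Dart u) :
    (tauF hc hs (tauF hc hs d)).1 = (third hc hs d.2, d.1.1) := by
  refine Prod.ext rfl ?_
  exact third_eq hc hs (tauF hc hs d).2 (third_spec hc hs d.2).rot

theorem tauF_cube (hc : IsConfig u) (hs : IsSimple u) (d : Dart u) :
    tauF hc hs (tauF hc hs (tauF hc hs d)) = d := by
  apply Subtype.ext
  have h := tauF_tauF hc hs d
  refine Prod.ext ?_ ?_
  · change (tauF hc hs (tauF hc hs d)).1.2 = _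
    rw [h]
  · have h2 := tauF_tauF hc hs (tauF hc hs d)
    rw [h2]
    rfl

/-- `tauF` as a permutation. -/
def tau (hc : IsConfig u) (hs : IsSimple u) : Equiv.Perm (Dart u) where
  toFun := tauF hc hs
  invFun d := tauF hc hs (tauF hc hs d)
  left_inv := tauF_cube hc hs
  right_inv := tauF_cube hc hs

theorem vtx_unique (hc : IsConfig u) (hs : IsSimple u) (d : Dart u) {x : E3}
    (h1 : ⟪u d.1.1, x⟫ = 1) (h2 : ⟪u d.1.2, x⟫ = 1) (h3 : ⟪u (third hc hs d.2), x⟫ = 1) :
    x = vtx hc hs d := by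
  apply eq_of_det (third_spec hc hs d.2).1.ne'
  · rw [h1, vtx_tail]
  · rw [h2, vtx_head]
  · rw [h3]; exact (vtx_third hc hs d).symm

theorem vtx_tau (hc : IsConfig u) (hs : IsSimple u) (d : Dart u) :
    vtx hc hs (tau hc hs d) = vtx hc hs d := by
  symm
  apply vtx_unique
  · exact vtx_head hc hs d
  · exact vtx_third hc hs d
  · have h : third hc hs (tau hc hs d).2 = d.1.1 :=
      third_eq hc hs (tau hc hs d).2 (third_spec hc hs d.2).rot
    rw [h]
    exact vtx_tail hc hs d

theorem third_ne_left (hc : IsConfig u) (hs : IsSimple u) (d : Dart u) :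
    third hc hs d.2 ≠ d.1.1 := by
  have := (third_spec hc hs d.2).rot.rot.ne
  exact this

theorem third_ne_right (hc : IsConfig u) (hs : IsSimple u) (d : Dart u) :
    third hc hs d.2 ≠ d.1.2 := by
  have := (third_spec hc hs d.2).rot.ne
  exact this.symm

/-- Darts with the same vertex. -/
theorem same_vtx (hc : IsConfig u) (hs : IsSimple u) {d d' : Dart u}
    (h : vtx hc hs d' = vtx hc hs d) :
    d' = d ∨ d' = tau hc hs d ∨ d' = tau hc hs (tau hc hs d) := by
  have hact := active_vtx hc hs d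
  have m1 : d'.1.1 ∈ ({d.1.1, d.1.2, (rhoE hc hs d).1.2} : Set (Fin f)) := by
    rw [← hact]; change _ = _; rw [← h]; exact vtx_tail hc hs d'
  have m2 : d'.1.2 ∈ ({d.1.1, d.1.2, (rhoE hc hs d).1.2} : Set (Fin f)) := by
    rw [← hact]; change _ = _; rw [← h]; exact vtx_head hc hs d'
  have m3 : third hc hs d'.2 ∈ ({d.1.1, d.1.2, (rhoE hc hs d).1.2} : Set (Fin f)) := by
    rw [← hact]; change _ = _; rw [← h]; exact vtx_third hc hs d'
  have hr : (rhoE hc hs d).1.2 = third hc hs d.2 := rfl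
  rw [hr] at m1 m2 m3
  simp only [Set.mem_insert_iff, Set.mem_singleton_iff] at m1 m2 m3
  have n1 : d'.1.1 ≠ d'.1.2 := d'.2.1
  have n2 := third_ne_left hc hs d'
  have n3 := third_ne_right hc hs d'
  have p := (third_spec hc hs d.2).1
  have p' := (third_spec hc hs d'.2).1
  have hT2 := tauF_tauF hc hs d
  have bad : ∀ a b c : Fin f, det3 (u a) (u b) (u c) = - det3 (u d.1.1) (u d.1.2)
      (u (third hc hs d.2)) → d'.1.1 = a → d'.1.2 = b → third hc hs d'.2 = c → False := by
    intro a b c hdet ha hb hcc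
    have p'' : 0 < det3 (u a) (u b) (u c) := by
      rw [← ha, ← hb, ← hcc]; exact p'
    rw [hdet] at p''
    linarith
  rcases m1 with m1 | m1 | m1 <;> rcases m2 with m2 | m2 | m2 <;>
    rcases m3 with m3 | m3 | m3
  all_goals first
    | exact absurd (m1.trans m2.symm) n1
    | exact absurd (m3.trans m1.symm) n2
    | exact absurd (m3.trans m2.symm) n3
    | exact Or.inl (Subtype.ext (Prod.ext m1 m2))
    | exact Or.inr (Or.inl (Subtype.ext (Prod.ext m1 m2)))
    | exact Or.inr (Or.inr (Subtype.ext ((Prod.ext m1 m2).trans hT2.symm)))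
    | (exfalso; refine bad _ _ _ ?_ m1 m2 m3; simp only [det3]; ring)

/-- Moving from `vtx d` along the edge of `d` leaves the third face. -/
theorem step (hc : IsConfig u) (hs : IsSimple u) (d : Dart u) :
    ⟪u d.1.1, vtx hc hs (sigE u d) - vtx hc hs d⟫ = 0 ∧
    ⟪u d.1.2, vtx hc hs (sigE u d) - vtx hc hs d⟫ = 0 ∧
    ⟪u (third hc hs d.2), vtx hc hs (sigE u d) - vtx hc hs d⟫ < 0 := by
  refine ⟨?_, ?_, ?_⟩
  · rw [inner_sub_right, vtx_tail]
    have := vtx_head hc hs (sigE u d)
    change ⟪u d.1.1, vtx hc hs (sigE u d)⟫ = 1 at this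
    rw [this]; norm_num
  · rw [inner_sub_right, vtx_head]
    have := vtx_tail hc hs (sigE u d)
    change ⟪u d.1.2, vtx hc hs (sigE u d)⟫ = 1 at this
    rw [this]; norm_num
  · have h3 : ⟪u (third hc hs d.2), vtx hc hs d⟫ = 1 := vtx_third hc hs d
    rw [inner_sub_right, h3]
    have hle : ⟪u (third hc hs d.2), vtx hc hs (sigE u d)⟫ ≤ 1 := vtx_mem hc hs (sigE u d) _
    have hne : ⟪u (third hc hs d.2), vtx hc hs (sigE u d)⟫ ≠ 1 := by
      intro he
      have hv : vtx hc hs (sigE u d) = vtx hc hs d := by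
        apply vtx_unique hc hs d
        · exact vtx_head hc hs (sigE u d)
        · exact vtx_tail hc hs (sigE u d)
        · exact he
      have hne := d.2.1
      have ht1 := third_ne_left hc hs d
      have ht2 := third_ne_right hc hs d
      rcases same_vtx hc hs hv with h | h | h
      · have := congrArg (fun x : Dart u => x.1.1) h
        exact hne this.symm
      · have := congrArg (fun x : Dart u => x.1.2) h
        exact ht1 this.symm
      · have := congrArg (fun x : Dart u => x.1) h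
        have h2 := this.trans (tauF_tauF hc hs d)
        have := congrArg Prod.fst h2
        exact ht2 this.symm
    have := lt_of_le_of_ne hle hne
    linarith

theorem vtx_sigE_ne (hc : IsConfig u) (hs : IsSimple u) (d : Dart u) :
    vtx hc hs (sigE u d) ≠ vtx hc hs d := by
  intro h
  have := (step hc hs d).2.2
  rw [h, sub_self, inner_zero_right] at this
  exact lt_irrefl _ this

/-- Expansion of a vector in the three edge directions at the vertex of `d`. -/
theorem expand (hc : IsConfig u) (hs : IsSimple u) (d : Dart u) {x : E3} (hx : x ∈ Poly u) :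
    ∃ α β γ : ℝ, 0 ≤ α ∧ 0 ≤ β ∧ 0 ≤ γ ∧
      x - vtx hc hs d = α • (vtx hc hs (sigE u d) - vtx hc hs d)
        + β • (vtx hc hs (sigE u (tau hc hs d)) - vtx hc hs d)
        + γ • (vtx hc hs (sigE u (tau hc hs (tau hc hs d))) - vtx hc hs d) ∧
      (⟪u d.1.1, x⟫ = 1 → β = 0) := by
  obtain ⟨a1, a2, a3⟩ := step hc hs d
  obtain ⟨b1, b2, b3⟩ := step hc hs (tau hc hs d)
  obtain ⟨c1, c2, c3⟩ := step hc hs (tau hc hs (tau hc hs d))
  rw [vtx_tau] at b1 b2 b3
  rw [vtx_tau, vtx_tau] at c1 c2 c3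
  have e1 : (tau hc hs d).1.1 = d.1.2 := rfl
  have e2 : (tau hc hs d).1.2 = third hc hs d.2 := rfl
  have e3 : third hc hs (tau hc hs d).2 = d.1.1 :=
    third_eq hc hs (tau hc hs d).2 (third_spec hc hs d.2).rot
  have e4 : (tau hc hs (tau hc hs d)).1.1 = third hc hs d.2 := rfl
  have e5 : (tau hc hs (tau hc hs d)).1.2 = d.1.1 := e3
  have e6 : third hc hs (tau hc hs (tau hc hs d)).2 = d.1.2 :=
    congrArg (fun x : Dart u => x.1.2) (tauF_cube hc hs d)
  rw [e1] at b1
  rw [e2] at b2
  rw [e3] at b3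
  rw [e4] at c1
  rw [e5] at c2
  rw [e6] at c3
  have t1 := vtx_tail hc hs d
  have t2 := vtx_head hc hs d
  have t3 : ⟪u (third hc hs d.2), vtx hc hs d⟫ = 1 := vtx_third hc hs d
  generalize vtx hc hs (sigE u d) = P1 at *
  generalize vtx hc hs (sigE u (tau hc hs d)) = P2 at *
  generalize vtx hc hs (sigE u (tau hc hs (tau hc hs d))) = P3 at *
  generalize vtx hc hs d = v at *
  have hi : ⟪u d.1.1, x - v⟫ ≤ 0 := by
    rw [inner_sub_right, t1]; have := hx d.1.1; linarith
  have hj : ⟪u d.1.2, x - v⟫ ≤ 0 := by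
    rw [inner_sub_right, t2]; have := hx d.1.2; linarith
  have hk : ⟪u (third hc hs d.2), x - v⟫ ≤ 0 := by
    rw [inner_sub_right, t3]; have := hx (third hc hs d.2); linarith
  refine ⟨⟪u (third hc hs d.2), x - v⟫ / ⟪u (third hc hs d.2), P1 - v⟫,
    ⟪u d.1.1, x - v⟫ / ⟪u d.1.1, P2 - v⟫, ⟪u d.1.2, x - v⟫ / ⟪u d.1.2, P3 - v⟫,
    div_nonneg_of_nonpos hk a3.le, div_nonneg_of_nonpos hi b3.le,
    div_nonneg_of_nonpos hj c3.le, ?_, ?_⟩
  · apply eq_of_det (third_spec hc hs d.2).1.ne'
    · rw [inner_add_right, inner_add_right, inner_smul_right, inner_smul_right,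
        inner_smul_right, a1, c2, div_mul_cancel₀ _ b3.ne]
      ring
    · rw [inner_add_right, inner_add_right, inner_smul_right, inner_smul_right,
        inner_smul_right, a2, b1, div_mul_cancel₀ _ c3.ne]
      ring
    · rw [inner_add_right, inner_add_right, inner_smul_right, inner_smul_right,
        inner_smul_right, b2, c1, div_mul_cancel₀ _ a3.ne]
      ring
  · intro h1
    rw [inner_sub_right, h1, t1, sub_self, zero_div]

/-- A generic direction. -/
theorem exists_generic (hc : IsConfig u) (hs : IsSimple u) :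
    ∃ e : E3, ∀ d d' : Dart u, vtx hc hs d ≠ vtx hc hs d' →
      ⟪e, vtx hc hs d⟫ ≠ ⟪e, vtx hc hs d'⟫ := by
  classical
  let W : Dart u × Dart u → Submodule ℝ E3 := fun p =>
    (ℝ ∙ (vtx hc hs p.1 - vtx hc hs p.2))ᗮ
  let s : Finset (Submodule ℝ E3) :=
    ((Finset.univ : Finset (Dart u × Dart u)).filter
      (fun p => vtx hc hs p.1 ≠ vtx hc hs p.2)).image W
  have hs' : ⊤ ∉ s := by
    intro h
    obtain ⟨p, hp, hW⟩ := Finset.mem_image.1 h
    have hne := (Finset.mem_filter.1 hp).2
    have hmem : (vtx hc hs p.1 - vtx hc hs p.2) ∈ W p := by rw [hW]; trivial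
    have h0 := (Submodule.mem_orthogonal_singleton_iff_inner_right.1 hmem)
    rw [real_inner_self_eq_norm_sq] at h0
    have : ‖vtx hc hs p.1 - vtx hc hs p.2‖ = 0 := by
      simpa using h0
    exact hne (sub_eq_zero.1 (norm_eq_zero.1 this))
  have hcov := Subspace.biUnion_ne_univ_of_top_notMem hs'
  obtain ⟨e, he⟩ := (Set.ne_univ_iff_exists_notMem _).1 hcov
  refine ⟨e, fun d d' hne heq => he ?_⟩
  simp only [Set.mem_iUnion]
  refine ⟨W (d, d'), Finset.mem_image.2 ⟨(d, d'), by simp [hne], rfl⟩, ?_⟩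
  change e ∈ W (d, d')
  rw [Submodule.mem_orthogonal_singleton_iff_inner_left, inner_sub_right, heq, sub_self]

/-- A unit vector of `E3` has a nonzero orthogonal vector. -/
theorem exists_orthogonal (a : E3) : ∃ t : E3, t ≠ 0 ∧ ⟪a, t⟫ = 0 := by
  by_cases h : a 0 = 0 ∧ a 1 = 0
  · refine ⟨!₂[1, 0, 0], ?_, ?_⟩
    · intro h0
      have := congrArg (fun x : E3 => x 0) h0
      simp at this
    · rw [inner3]; simp [h.1]
  · refine ⟨!₂[a 1, -a 0, 0], ?_, ?_⟩
    · intro h0
      apply h
      have h1 := congrArg (fun x : E3 => x 0) h0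
      have h2 := congrArg (fun x : E3 => x 1) h0
      simp at h1 h2
      exact ⟨h2, h1⟩
    · rw [inner3]; simp; ring

/-- Every face has a neighbour. -/
theorem exists_adj (hc : IsConfig u) (i : Fin f) : ∃ j, Adj u i j := by
  classical
  obtain ⟨t, ht0, ht⟩ := exists_orthogonal (u i)
  have hii : ⟪u i, u i⟫ = 1 := by rw [real_inner_self_eq_norm_sq, hc.unit]; norm_num
  have hlt : ∀ j, j ≠ i → ⟪u j, u i⟫ < 1 := by
    intro j hj
    exact inner_lt_one_iff_real_of_norm_eq_one (hc.unit j) (hc.unit i) |>.2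
      (fun h => hj (hc.inj h))
  have hle : ∀ j, ⟪u j, u i⟫ ≤ 1 := by
    intro j
    by_cases h : j = i
    · rw [h, hii]
    · exact (hlt j h).le
  -- some `u j` has positive product with `t`
  have hpos : ∃ j, 0 < ⟪u j, t⟫ := by
    by_contra hcon
    push Not at hcon
    obtain ⟨R, hR⟩ := hc.bdd.exists_norm_le
    have hmem : ∀ r : ℝ, 0 ≤ r → u i + r • t ∈ Poly u := by
      intro r hr j
      rw [inner_add_right, inner_smul_right]
      nlinarith [hle j, hcon j]
    have htn : 0 < ‖t‖ := norm_pos_iff.2 ht0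
    have hR0 : 0 ≤ R := (norm_nonneg _).trans (hR _ (hmem 0 le_rfl))
    have h1 := hR _ (hmem ((R + 2) / ‖t‖) (by positivity))
    have h2 : ‖((R + 2) / ‖t‖) • t‖ = R + 2 := by
      rw [norm_smul, Real.norm_eq_abs, abs_of_nonneg (by positivity), div_mul_cancel₀ _ htn.ne']
    have h3 : ‖((R + 2) / ‖t‖) • t‖ ≤ ‖u i + ((R + 2) / ‖t‖) • t‖ + ‖u i‖ := by
      have := norm_sub_le (u i + ((R + 2) / ‖t‖) • t) (u i)
      rwa [add_sub_cancel_left] at this
    rw [h2, hc.unit] at h3
    linarith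
  obtain ⟨j0, hj0⟩ := hpos
  let S : Finset (Fin f) := Finset.univ.filter (fun j => 0 < ⟪u j, t⟫)
  have hS : S.Nonempty := ⟨j0, by simp [S, hj0]⟩
  obtain ⟨j, hjS, hjmin⟩ := S.exists_min_image (fun j => (1 - ⟪u j, u i⟫) / ⟪u j, t⟫) hS
  have hjt : 0 < ⟪u j, t⟫ := by simpa [S] using hjS
  have hji : j ≠ i := by rintro rfl; rw [ht] at hjt; exact lt_irrefl _ hjt
  refine ⟨j, hji.symm, u i + ((1 - ⟪u j, u i⟫) / ⟪u j, t⟫) • t, ?_, ?_, ?_⟩
  · intro l
    rw [inner_add_right, inner_smul_right]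
    have hr0 : 0 ≤ (1 - ⟪u j, u i⟫) / ⟪u j, t⟫ := by
      apply div_nonneg _ hjt.le
      have := hle j
      linarith
    by_cases hl : 0 < ⟪u l, t⟫
    · have := hjmin l (by simp [S, hl])
      have h4 : (1 - ⟪u j, u i⟫) / ⟪u j, t⟫ * ⟪u l, t⟫ ≤ 1 - ⟪u l, u i⟫ := by
        calc (1 - ⟪u j, u i⟫) / ⟪u j, t⟫ * ⟪u l, t⟫
            ≤ (1 - ⟪u l, u i⟫) / ⟪u l, t⟫ * ⟪u l, t⟫ := by gcongr
          _ = 1 - ⟪u l, u i⟫ := div_mul_cancel₀ _ hl.ne'
      linarith
    · push Not at hl
      have := hle l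
      nlinarith [mul_nonneg hr0 (neg_nonneg.2 hl)]
  · rw [inner_add_right, inner_smul_right, hii, ht]; ring
  · rw [inner_add_right, inner_smul_right, div_mul_cancel₀ _ hjt.ne']; ring

/-- `1` if the edge of `d` goes up from the vertex of `d`, else `0`. -/
def up (hc : IsConfig u) (hs : IsSimple u) (e : E3) (d : Dart u) : ℤ :=
  open Classical in
  if ⟪e, vtx hc hs d⟫ < ⟪e, vtx hc hs (sigE u d)⟫ then 1 else 0

section

variable (hc : IsConfig u) (hs : IsSimple u) (e : E3)
  (he : ∀ d d' : Dart u, vtx hc hs d ≠ vtx hc hs d' → ⟪e, vtx hc hs d⟫ ≠ ⟪e, vtx hc hs d'⟫)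

include he

theorem up_zero_or_one (d : Dart u) :
    (up hc hs e d = 1 ∧ ⟪e, vtx hc hs d⟫ < ⟪e, vtx hc hs (sigE u d)⟫) ∨
    (up hc hs e d = 0 ∧ ⟪e, vtx hc hs (sigE u d)⟫ < ⟪e, vtx hc hs d⟫) := by
  classical
  by_cases h : ⟪e, vtx hc hs d⟫ < ⟪e, vtx hc hs (sigE u d)⟫
  · left; exact ⟨if_pos h, h⟩
  · right
    exact ⟨if_neg h, lt_of_le_of_ne (not_lt.1 h) (he _ _ (vtx_sigE_ne hc hs d))⟩

theorem up_add_up_sig (d : Dart u) : up hc hs e d + up hc hs e (sigE u d) = 1 := by
  have hss : sigE u (sigE u d) = d := rfl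
  rcases up_zero_or_one hc hs e he d with ⟨h1, h2⟩ | ⟨h1, h2⟩ <;>
    rcases up_zero_or_one hc hs e he (sigE u d) with ⟨h3, h4⟩ | ⟨h3, h4⟩
  · rw [hss] at h4; exact absurd h2 (not_lt.2 h4.le)
  · rw [h1, h3]; rfl
  · rw [h1, h3]; rfl
  · rw [hss] at h4; exact absurd h2 (not_lt.2 h4.le)

/-- A local minimum on a face is the minimum of the face. -/
theorem face_min (d : Dart u) (h1 : up hc hs e d = 1)
    (h2 : up hc hs e (tau hc hs (tau hc hs d)) = 1) {x : E3} (hx : x ∈ Poly u)
    (hxi : ⟪u d.1.1, x⟫ = 1) : ⟪e, vtx hc hs d⟫ ≤ ⟪e, x⟫ := by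
  obtain ⟨α, β, γ, hα, hβ, hγ, hexp, hb⟩ := expand hc hs d hx
  have hβ0 := hb hxi
  have g1 : 0 < ⟪e, vtx hc hs (sigE u d) - vtx hc hs d⟫ := by
    rcases up_zero_or_one hc hs e he d with ⟨_, h⟩ | ⟨h, _⟩
    · rw [inner_sub_right]; linarith
    · rw [h] at h1; exact absurd h1 (by norm_num)
  have g2 : 0 < ⟪e, vtx hc hs (sigE u (tau hc hs (tau hc hs d))) - vtx hc hs d⟫ := by
    rcases up_zero_or_one hc hs e he (tau hc hs (tau hc hs d)) with ⟨_, h⟩ | ⟨h, _⟩
    · rw [vtx_tau, vtx_tau] at h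
      rw [inner_sub_right]; linarith
    · rw [h] at h2; exact absurd h2 (by norm_num)
  have : ⟪e, x - vtx hc hs d⟫ = α * ⟪e, vtx hc hs (sigE u d) - vtx hc hs d⟫
      + γ * ⟪e, vtx hc hs (sigE u (tau hc hs (tau hc hs d))) - vtx hc hs d⟫ := by
    rw [hexp, hβ0, inner_add_right, inner_add_right, inner_smul_right, inner_smul_right,
      inner_smul_right]
    ring
  rw [inner_sub_right] at this
  have := mul_nonneg hα g1.le
  have := mul_nonneg hγ g2.le
  linarith

/-- Exactly one vertex of a face is a local minimum. -/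
theorem face_sum (i : Fin f) [DecidablePred fun d : Dart u => d.1.1 = i] [Fintype (Dart u)] :
    ∑ d ∈ (Finset.univ : Finset (Dart u)).filter (fun d => d.1.1 = i),
      up hc hs e d * up hc hs e (tau hc hs (tau hc hs d)) = 1 := by
  classical
  set S := (Finset.univ : Finset (Dart u)).filter (fun d => d.1.1 = i) with hS
  have hne : S.Nonempty := by
    obtain ⟨j, hj⟩ := exists_adj hc i
    exact ⟨⟨(i, j), hj⟩, by simp [hS]⟩
  obtain ⟨d, hdS, hdmin⟩ := S.exists_min_image (fun d => ⟪e, vtx hc hs d⟫) hne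
  have hdi : d.1.1 = i := by simpa [hS] using hdS
  -- both edges of the face go up from the vertex of `d`
  have h1 : up hc hs e d = 1 := by
    rcases up_zero_or_one hc hs e he d with ⟨h, _⟩ | ⟨_, h⟩
    · exact h
    · exfalso
      have hm := hdmin (tau hc hs (sigE u d)) (by
        simp only [hS, Finset.mem_filter, Finset.mem_univ, true_and]
        exact hdi)
      simp only [vtx_tau] at hm
      exact absurd h (not_lt.2 hm)
  have h2 : up hc hs e (tau hc hs (tau hc hs d)) = 1 := by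
    rcases up_zero_or_one hc hs e he (tau hc hs (tau hc hs d)) with ⟨h, _⟩ | ⟨_, h⟩
    · exact h
    · exfalso
      have hm := hdmin (sigE u (tau hc hs (tau hc hs d))) (by
        simp only [hS, Finset.mem_filter, Finset.mem_univ, true_and]
        change (tau hc hs (tau hc hs d)).1.2 = i
        have := congrArg Prod.snd (tauF_tauF hc hs d)
        exact this.trans hdi)
      rw [vtx_tau, vtx_tau] at h
      exact absurd h (not_lt.2 hm)
  rw [Finset.sum_eq_single_of_mem d hdS]
  · rw [h1, h2]; rfl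
  · intro d' hd'S hne'
    have hd'i : d'.1.1 = i := by simpa [hS] using hd'S
    by_contra hprod
    have g1 : up hc hs e d' = 1 := by
      rcases up_zero_or_one hc hs e he d' with ⟨h, _⟩ | ⟨h, _⟩
      · exact h
      · rw [h, zero_mul] at hprod; exact absurd rfl hprod
    have g2 : up hc hs e (tau hc hs (tau hc hs d')) = 1 := by
      rcases up_zero_or_one hc hs e he (tau hc hs (tau hc hs d')) with ⟨h, _⟩ | ⟨h, _⟩
      · exact h
      · rw [h, mul_zero] at hprod; exact absurd rfl hprod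
    have k1 := face_min hc hs e he d h1 h2 (vtx_mem hc hs d')
      (by rw [hdi, ← hd'i]; exact vtx_tail hc hs d')
    have k2 := face_min hc hs e he d' g1 g2 (vtx_mem hc hs d)
      (by rw [hd'i, ← hdi]; exact vtx_tail hc hs d)
    have hv : vtx hc hs d' = vtx hc hs d := by
      by_contra hcon
      exact he _ _ hcon (le_antisymm k2 k1)
    rcases same_vtx hc hs hv with h | h | h
    · exact hne' h
    · have h5 := congrArg (fun x : Dart u => x.1.1) h
      have h6 : d.1.2 = d.1.1 := by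
        change d'.1.1 = d.1.2 at h5
        rw [← h5, hd'i, hdi]
      exact d.2.1 h6.symm
    · have h5 := congrArg (fun x : Dart u => x.1) h
      have h7 := congrArg Prod.fst (h5.trans (tauF_tauF hc hs d))
      simp only at h7
      exact third_ne_left hc hs d (by rw [← h7, hd'i, hdi])

/-- A vertex with three ascending edges is the minimum of the polytope. -/
theorem vertex_min (d : Dart u) (h1 : up hc hs e d = 1) (h2 : up hc hs e (tau hc hs d) = 1)
    (h3 : up hc hs e (tau hc hs (tau hc hs d)) = 1) {x : E3} (hx : x ∈ Poly u) :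
    ⟪e, vtx hc hs d⟫ ≤ ⟪e, x⟫ := by
  obtain ⟨α, β, γ, hα, hβ, hγ, hexp, -⟩ := expand hc hs d hx
  have g1 : 0 < ⟪e, vtx hc hs (sigE u d) - vtx hc hs d⟫ := by
    rcases up_zero_or_one hc hs e he d with ⟨_, h⟩ | ⟨h, _⟩
    · rw [inner_sub_right]; linarith
    · rw [h] at h1; exact absurd h1 (by norm_num)
  have g2 : 0 < ⟪e, vtx hc hs (sigE u (tau hc hs d)) - vtx hc hs d⟫ := by
    rcases up_zero_or_one hc hs e he (tau hc hs d) with ⟨_, h⟩ | ⟨h, _⟩
    · rw [vtx_tau] at h
      rw [inner_sub_right]; linarith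
    · rw [h] at h2; exact absurd h2 (by norm_num)
  have g3 : 0 < ⟪e, vtx hc hs (sigE u (tau hc hs (tau hc hs d))) - vtx hc hs d⟫ := by
    rcases up_zero_or_one hc hs e he (tau hc hs (tau hc hs d)) with ⟨_, h⟩ | ⟨h, _⟩
    · rw [vtx_tau, vtx_tau] at h
      rw [inner_sub_right]; linarith
    · rw [h] at h3; exact absurd h3 (by norm_num)
  have : ⟪e, x - vtx hc hs d⟫ = α * ⟪e, vtx hc hs (sigE u d) - vtx hc hs d⟫
      + β * ⟪e, vtx hc hs (sigE u (tau hc hs d)) - vtx hc hs d⟫
      + γ * ⟪e, vtx hc hs (sigE u (tau hc hs (tau hc hs d))) - vtx hc hs d⟫ := by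
    rw [hexp, inner_add_right, inner_add_right, inner_smul_right, inner_smul_right,
      inner_smul_right]
  rw [inner_sub_right] at this
  have := mul_nonneg hα g1.le
  have := mul_nonneg hβ g2.le
  have := mul_nonneg hγ g3.le
  linarith

/-- Exactly one vertex (three darts) is a local minimum. -/
theorem min_sum [Fintype (Dart u)] :
    ∑ d : Dart u, up hc hs e d * up hc hs e (tau hc hs d) *
      up hc hs e (tau hc hs (tau hc hs d)) = 3 := by
  classical
  have hne : (Finset.univ : Finset (Dart u)).Nonempty := by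
    have hf : Nonempty (Fin f) := by
      by_contra hcon
      have hemp : IsEmpty (Fin f) := not_nonempty_iff.1 hcon
      have huniv : Poly u = Set.univ := by
        ext x
        simp only [Poly, Set.mem_setOf_eq, Set.mem_univ, iff_true]
        exact fun i => hemp.elim i
      have hb := hc.bdd
      rw [huniv] at hb
      obtain ⟨R, hR⟩ := hb.exists_norm_le
      have h1 := hR ((|R| + 1) • (EuclideanSpace.single (0 : Fin 3) (1 : ℝ))) trivial
      rw [norm_smul, EuclideanSpace.norm_single, norm_one, mul_one, Real.norm_eq_abs,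
        abs_of_nonneg (by positivity)] at h1
      have := le_abs_self R
      linarith
    obtain ⟨i⟩ := hf
    obtain ⟨j, hj⟩ := exists_adj hc i
    exact ⟨⟨(i, j), hj⟩, Finset.mem_univ _⟩
  obtain ⟨d, -, hdmin⟩ := Finset.univ.exists_min_image (fun d => ⟪e, vtx hc hs d⟫) hne
  have hup : ∀ d' : Dart u, vtx hc hs d' = vtx hc hs d → up hc hs e d' = 1 := by
    intro d' hd'
    rcases up_zero_or_one hc hs e he d' with ⟨h, _⟩ | ⟨_, h⟩
    · exact h
    · exfalso
      have hm := hdmin (sigE u d') (Finset.mem_univ _)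
      rw [hd'] at h
      exact absurd h (not_lt.2 hm)
  have v1 : vtx hc hs (tau hc hs d) = vtx hc hs d := vtx_tau hc hs d
  have v2 : vtx hc hs (tau hc hs (tau hc hs d)) = vtx hc hs d := by
    rw [vtx_tau, vtx_tau]
  have hcube : tau hc hs (tau hc hs (tau hc hs d)) = d := tauF_cube hc hs d
  have hcube' : ∀ x, tau hc hs (tau hc hs (tau hc hs x)) = x := tauF_cube hc hs
  have n1 : d ≠ tau hc hs d := by
    intro h
    have := congrArg (fun x : Dart u => x.1.1) h
    exact d.2.1 this
  have n2 : d ≠ tau hc hs (tau hc hs d) := by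
    intro h
    have h1 := congrArg (tau hc hs) h
    rw [hcube] at h1
    exact n1 h1.symm
  have n3 : tau hc hs d ≠ tau hc hs (tau hc hs d) := by
    intro h
    exact n1 ((tau hc hs).injective h)
  rw [← Finset.sum_subset (Finset.subset_univ ({d, tau hc hs d, tau hc hs (tau hc hs d)} :
    Finset (Dart u)))]
  · rw [Finset.sum_insert (by simp [n1, n2]), Finset.sum_insert (by simp [n3]),
      Finset.sum_singleton]
    simp only [hcube]
    rw [hup d rfl, hup _ v1, hup _ v2]
    norm_num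
  · intro d' _ hd'
    by_contra hprod
    have g1 : up hc hs e d' = 1 := by
      rcases up_zero_or_one hc hs e he d' with ⟨h, _⟩ | ⟨h, _⟩
      · exact h
      · rw [h, zero_mul, zero_mul] at hprod; exact absurd rfl hprod
    have g2 : up hc hs e (tau hc hs d') = 1 := by
      rcases up_zero_or_one hc hs e he (tau hc hs d') with ⟨h, _⟩ | ⟨h, _⟩
      · exact h
      · rw [h, mul_zero, zero_mul] at hprod; exact absurd rfl hprod
    have g3 : up hc hs e (tau hc hs (tau hc hs d')) = 1 := by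
      rcases up_zero_or_one hc hs e he (tau hc hs (tau hc hs d')) with ⟨h, _⟩ | ⟨h, _⟩
      · exact h
      · rw [h, mul_zero] at hprod; exact absurd rfl hprod
    have k1 := vertex_min hc hs e he d' g1 g2 g3 (vtx_mem hc hs d)
    have k2 := hdmin d' (Finset.mem_univ _)
    have hv : vtx hc hs d' = vtx hc hs d := by
      by_contra hcon
      exact he _ _ hcon (le_antisymm k1 k2)
    apply hd'
    rcases same_vtx hc hs hv with h | h | h <;> simp [h]

end

theorem up_neg (hc : IsConfig u) (hs : IsSimple u) (e : E3)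
    (he : ∀ d d' : Dart u, vtx hc hs d ≠ vtx hc hs d' →
      ⟪e, vtx hc hs d⟫ ≠ ⟪e, vtx hc hs d'⟫) (d : Dart u) :
    up hc hs (-e) d = 1 - up hc hs e d := by
  have he' : ∀ d d' : Dart u, vtx hc hs d ≠ vtx hc hs d' →
      ⟪-e, vtx hc hs d⟫ ≠ ⟪-e, vtx hc hs d'⟫ := by
    intro d d' h
    rw [inner_neg_left, inner_neg_left]
    exact fun h2 => he d d' h (neg_injective h2)
  rcases up_zero_or_one hc hs e he d with ⟨h1, h2⟩ | ⟨h1, h2⟩ <;>
    rcases up_zero_or_one hc hs (-e) he' d with ⟨h3, h4⟩ | ⟨h3, h4⟩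
  · rw [inner_neg_left, inner_neg_left] at h4; linarith
  · rw [h1, h3]; rfl
  · rw [h1, h3]; rfl
  · rw [inner_neg_left, inner_neg_left] at h4; linarith

/-- The number of darts. -/
theorem card_darts (hc : IsConfig u) (hs : IsSimple u) [Fintype (Dart u)] :
    (Fintype.card (Dart u) : ℤ) + 12 = 6 * f := by
  classical
  obtain ⟨e, he⟩ := exists_generic hc hs
  have he' : ∀ d d' : Dart u, vtx hc hs d ≠ vtx hc hs d' →
      ⟪-e, vtx hc hs d⟫ ≠ ⟪-e, vtx hc hs d'⟫ := by
    intro d d' h
    rw [inner_neg_left, inner_neg_left]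
    exact fun h2 => he d d' h (neg_injective h2)
  set s := up hc hs e with hsdef
  set t := tau hc hs with htdef
  have hcube : ∀ d, t (t (t d)) = d := tauF_cube hc hs
  -- the half of the darts goes up
  have A1 : 2 * ∑ d : Dart u, s d = Fintype.card (Dart u) := by
    have h1 : ∑ d : Dart u, s (sigE u d) = ∑ d : Dart u, s d := Equiv.sum_comp (sigE u) s
    have h2 : ∑ d : Dart u, (s d + s (sigE u d)) = ∑ _d : Dart u, (1 : ℤ) :=
      Finset.sum_congr rfl fun d _ => up_add_up_sig hc hs e he d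
    rw [Finset.sum_add_distrib, h1] at h2
    simp only [Finset.sum_const, Finset.card_univ, nsmul_eq_mul, mul_one] at h2
    linarith
  -- the faces
  have A2 : ∑ d : Dart u, s d * s (t (t d)) = f := by
    rw [← Finset.sum_fiberwise (Finset.univ : Finset (Dart u)) (fun d => d.1.1)]
    have : ∀ i : Fin f, ∑ d ∈ (Finset.univ : Finset (Dart u)).filter (fun d => d.1.1 = i),
      s d * s (t (t d)) = 1 := fun i => face_sum hc hs e he i
    rw [Finset.sum_congr rfl fun i _ => this i]
    simp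
  -- extremal vertices
  have A3 : ∑ d : Dart u, s d * s (t d) * s (t (t d)) = 3 := min_sum hc hs e he
  have A4 : ∑ d : Dart u, (1 - s d) * (1 - s (t d)) * (1 - s (t (t d))) = 3 := by
    rw [← min_sum hc hs (-e) he']
    refine Finset.sum_congr rfl fun d _ => ?_
    rw [up_neg hc hs e he, up_neg hc hs e he, up_neg hc hs e he]
  -- reindexing
  have B1 : ∑ d : Dart u, s (t d) = ∑ d : Dart u, s d := Equiv.sum_comp t s
  have B2 : ∑ d : Dart u, s (t (t d)) = ∑ d : Dart u, s d := by
    rw [← B1]; exact Equiv.sum_comp t (fun d => s (t d))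
  have C1 : ∑ d : Dart u, s (t d) * s d = ∑ d : Dart u, s d * s (t (t d)) := by
    rw [← Equiv.sum_comp t (fun d => s d * s (t (t d)))]
    refine Finset.sum_congr rfl fun d _ => ?_
    simp only [hcube]
  have C2 : ∑ d : Dart u, s (t (t d)) * s (t d) = ∑ d : Dart u, s d * s (t (t d)) := by
    rw [← C1]
    exact Equiv.sum_comp t (fun d => s (t d) * s d)
  have D : ∑ d : Dart u, (1 - s d) * (1 - s (t d)) * (1 - s (t (t d)))
      + ∑ d : Dart u, s d * s (t d) * s (t (t d))
      = Fintype.card (Dart u) - ∑ d : Dart u, s d - ∑ d : Dart u, s (t d)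
        - ∑ d : Dart u, s (t (t d)) + ∑ d : Dart u, s (t d) * s d
        + ∑ d : Dart u, s d * s (t (t d)) + ∑ d : Dart u, s (t (t d)) * s (t d) := by
    have hcard : (Fintype.card (Dart u) : ℤ) = ∑ _d : Dart u, (1 : ℤ) := by simp
    rw [hcard, ← Finset.sum_add_distrib, ← Finset.sum_sub_distrib, ← Finset.sum_sub_distrib,
      ← Finset.sum_sub_distrib, ← Finset.sum_add_distrib, ← Finset.sum_add_distrib,
      ← Finset.sum_add_distrib]
    refine Finset.sum_congr rfl fun d _ => ?_
    ring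
  rw [A3, A4, B1, B2, C1, C2, A2] at D
  linarith

end EulerAux

/-- Euler's formula (chunk E). -/
theorem euler {f : ℕ} {u : Fin f → E3} (hc : IsConfig u) (hs : IsSimple u) :
    ∑ i, deg u i + 12 = 6 * f := by
  classical
  have h := EulerAux.card_darts hc hs
  have h2 : Fintype.card (Dart u) = ∑ i, deg u i := by
    rw [← Finset.card_univ, Finset.card_eq_sum_card_fiberwise
      (f := fun d : Dart u => d.1.1) (t := Finset.univ) (fun _ _ => Finset.mem_univ _)]
    refine Finset.sum_congr rfl fun i _ => ?_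
    rw [← card_darts_tail u i, Set.ncard_eq_toFinset_card']
    congr 1
    ext d
    simp
  rw [h2] at h
  exact_mod_cast h

end Gold
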