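import Pool.Agent.Lib.H81.Gold.Decomp
import Pool.Agent.Lib.H81.Gold.Euler

/-!
# The triangle inequality and stability (chunk I)
-/

noncomputable section

open MeasureTheory Metric Set
open scoped RealInnerProductSpace

namespace Gold

/-- The defect of a triangle with apex at the touching point, sides `p, q` and angle `ψ`
there, in units of the ideal hexagon. -/
def defect (p q ψ : ℝ) : ℝ :=
  p * q * Real.sin ψ / 12 * (p ^ 2 + q ^ 2 + p * q * Real.cos ψ - 5) + 5 * Real.sqrt 3 / 48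
    + (ψ - Real.pi / 3) / 6

/-- The tangent line of `3 sin ψ / (2 + cos ψ)` at `π / 3`, minus the function. -/
def tanGap (ψ : ℝ) : ℝ :=
  3 * Real.sqrt 3 / 5 + 24 / 25 * (ψ - Real.pi / 3) - 3 * Real.sin ψ / (2 + Real.cos ψ)

theorem two_add_cos_pos (ψ : ℝ) : 0 < 2 + Real.cos ψ := by
  have := Real.neg_one_le_cos ψ
  linarith

theorem hasDerivAt_tanGap (ψ : ℝ) :
    HasDerivAt tanGap (3 * ((2 * Real.cos ψ - 1) * (4 * Real.cos ψ - 7))
      / (25 * (2 + Real.cos ψ) ^ 2)) ψ := by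
  have hp := two_add_cos_pos ψ
  have h1 : HasDerivAt (fun ψ : ℝ => 3 * Real.sin ψ / (2 + Real.cos ψ))
      ((3 * Real.cos ψ * (2 + Real.cos ψ) - 3 * Real.sin ψ * (-Real.sin ψ))
        / (2 + Real.cos ψ) ^ 2) ψ :=
    ((Real.hasDerivAt_sin ψ).const_mul 3).div ((Real.hasDerivAt_cos ψ).const_add 2) hp.ne'
  have h2 : HasDerivAt (fun ψ : ℝ => 3 * Real.sqrt 3 / 5 + 24 / 25 * (ψ - Real.pi / 3))
      (24 / 25 * 1) ψ :=
    (((hasDerivAt_id ψ).sub_const _).const_mul (24 / 25 : ℝ)).const_add _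
  have h3 := h2.sub h1
  refine h3.congr_deriv ?_
  have hs := Real.sin_sq_add_cos_sq ψ
  field_simp
  nlinarith [hs]

theorem tanGap_third : tanGap (Real.pi / 3) = 0 := by
  unfold tanGap
  rw [Real.sin_pi_div_three, Real.cos_pi_div_three]
  ring

theorem tanGap_pos {ψ : ℝ} (h0 : 0 ≤ ψ) (h1 : ψ ≤ Real.pi) (h : ψ ≠ Real.pi / 3) :
    0 < tanGap ψ := by
  have hpi := Real.pi_pos
  have hcont : Continuous tanGap :=
    continuous_iff_continuousAt.2 fun x => (hasDerivAt_tanGap x).continuousAt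
  rcases lt_or_gt_of_ne h with hlt | hgt
  · have hanti : StrictAntiOn tanGap (Icc 0 (Real.pi / 3)) := by
      refine strictAntiOn_of_deriv_neg (convex_Icc _ _) hcont.continuousOn ?_
      intro x hx
      rw [interior_Icc] at hx
      rw [(hasDerivAt_tanGap x).deriv]
      have hc : 1 / 2 < Real.cos x := by
        rw [← Real.cos_pi_div_three]
        exact Real.cos_lt_cos_of_nonneg_of_le_pi hx.1.le (by linarith) hx.2
      have hc1 := Real.cos_le_one x
      apply div_neg_of_neg_of_pos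
      · have : (2 * Real.cos x - 1) * (4 * Real.cos x - 7) < 0 :=
          mul_neg_of_pos_of_neg (by linarith) (by linarith)
        linarith
      · have := two_add_cos_pos x
        positivity
    have := hanti ⟨h0, hlt.le⟩ ⟨by linarith, le_refl _⟩ hlt
    rwa [tanGap_third] at this
  · have hmono : StrictMonoOn tanGap (Icc (Real.pi / 3) Real.pi) := by
      refine strictMonoOn_of_deriv_pos (convex_Icc _ _) hcont.continuousOn ?_
      intro x hx
      rw [interior_Icc] at hx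
      rw [(hasDerivAt_tanGap x).deriv]
      have hc : Real.cos x < 1 / 2 := by
        rw [← Real.cos_pi_div_three]
        exact Real.cos_lt_cos_of_nonneg_of_le_pi (by linarith) hx.2.le hx.1
      apply div_pos
      · have : 0 < (2 * Real.cos x - 1) * (4 * Real.cos x - 7) :=
          mul_pos_of_neg_of_neg (by linarith) (by linarith)
        linarith
      · have := two_add_cos_pos x
        positivity
    have := hmono ⟨le_refl _, by linarith⟩ ⟨hgt.le, h1⟩ hgt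
    rwa [tanGap_third] at this

theorem tanGap_nonneg {ψ : ℝ} (h0 : 0 ≤ ψ) (h1 : ψ ≤ Real.pi) : 0 ≤ tanGap ψ := by
  by_cases h : ψ = Real.pi / 3
  · rw [h, tanGap_third]
  · exact (tanGap_pos h0 h1 h).le

theorem defect_eq (p q ψ : ℝ) :
    defect p q ψ = Real.sin ψ * (p * q * (p - q) ^ 2 / 12
      + (p * q * (2 + Real.cos ψ) - 5 / 2) ^ 2 / (12 * (2 + Real.cos ψ)))
      + 25 / 144 * tanGap ψ := by
  have hp := two_add_cos_pos ψ
  unfold defect tanGap
  field_simp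
  ring

theorem defect_nonneg {p q ψ : ℝ} (hp : 0 ≤ p) (hq : 0 ≤ q) (h0 : 0 ≤ ψ) (h1 : ψ ≤ Real.pi) :
    0 ≤ defect p q ψ := by
  rw [defect_eq]
  have h2 := two_add_cos_pos ψ
  have h3 := Real.sin_nonneg_of_nonneg_of_le_pi h0 h1
  have h4 := tanGap_nonneg h0 h1
  positivity

theorem eq_of_defect_eq_zero {p q ψ : ℝ} (hp : 0 ≤ p) (hq : 0 ≤ q) (h0 : 0 ≤ ψ)
    (h1 : ψ ≤ Real.pi) (h : defect p q ψ = 0) : p = 1 ∧ q = 1 ∧ ψ = Real.pi / 3 := by
  rw [defect_eq] at h
  have h2 := two_add_cos_pos ψ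
  have h3 := Real.sin_nonneg_of_nonneg_of_le_pi h0 h1
  have h4 := tanGap_nonneg h0 h1
  have h5 : 0 ≤ Real.sin ψ * (p * q * (p - q) ^ 2 / 12
      + (p * q * (2 + Real.cos ψ) - 5 / 2) ^ 2 / (12 * (2 + Real.cos ψ))) := by positivity
  have h6 : tanGap ψ = 0 := by linarith
  have h7 : ψ = Real.pi / 3 := by
    by_contra hne
    exact (tanGap_pos h0 h1 hne).ne' h6
  subst h7
  rw [h6, Real.sin_pi_div_three, Real.cos_pi_div_three] at h
  have h8 : 0 < Real.sqrt 3 := by positivity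
  have h9 : p * q * (p - q) ^ 2 / 12 + (p * q * (2 + 1 / 2) - 5 / 2) ^ 2 / (12 * (2 + 1 / 2)) = 0 := by
    have : Real.sqrt 3 / 2 * (p * q * (p - q) ^ 2 / 12
      + (p * q * (2 + 1 / 2) - 5 / 2) ^ 2 / (12 * (2 + 1 / 2))) = 0 := by linarith
    rcases mul_eq_zero.1 this with h | h
    · linarith
    · exact h
  have h10 : 0 ≤ p * q * (p - q) ^ 2 := by positivity
  have h11 : (p * q * (2 + 1 / 2) - 5 / 2) ^ 2 = 0 := by nlinarith [sq_nonneg (p * q * (2 + 1 / 2) - 5 / 2)]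
  have h12 : p * q = 1 := by
    have := pow_eq_zero_iff (two_ne_zero) |>.1 h11
    linarith
  have h13 : (p - q) ^ 2 = 0 := by
    rw [h12] at h9 h10
    nlinarith [sq_nonneg (p - q)]
  have h14 : p = q := by
    have := pow_eq_zero_iff (two_ne_zero) |>.1 h13
    linarith
  subst h14
  have h15 : p = 1 := by nlinarith
  exact ⟨h15, h15, rfl⟩

theorem continuous_defect : Continuous fun x : ℝ × ℝ × ℝ => defect x.1 x.2.1 x.2.2 := by
  unfold defect
  fun_prop

theorem defect_stable (C : ℝ) {δ : ℝ} (hδ : 0 < δ) :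
    ∃ η : ℝ, 0 < η ∧ ∀ p q ψ : ℝ, 0 ≤ p → p ≤ C → 0 ≤ q → q ≤ C → 0 ≤ ψ → ψ ≤ Real.pi →
      defect p q ψ ≤ η → |p - 1| ≤ δ ∧ |q - 1| ≤ δ ∧ |ψ - Real.pi / 3| ≤ δ := by
  set K : Set (ℝ × ℝ × ℝ) := (Icc 0 C ×ˢ (Icc 0 C ×ˢ Icc 0 Real.pi)) ∩
    {x | δ ≤ |x.1 - 1| ∨ δ ≤ |x.2.1 - 1| ∨ δ ≤ |x.2.2 - Real.pi / 3|} with hK
  have hcl : IsClosed {x : ℝ × ℝ × ℝ | δ ≤ |x.1 - 1| ∨ δ ≤ |x.2.1 - 1| ∨
      δ ≤ |x.2.2 - Real.pi / 3|} := by
    refine IsClosed.union ?_ (IsClosed.union ?_ ?_)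
    · exact isClosed_le continuous_const
        (by fun_prop : Continuous fun x : ℝ × ℝ × ℝ => |x.1 - 1|)
    · exact isClosed_le continuous_const
        (by fun_prop : Continuous fun x : ℝ × ℝ × ℝ => |x.2.1 - 1|)
    · exact isClosed_le continuous_const
        (by fun_prop : Continuous fun x : ℝ × ℝ × ℝ => |x.2.2 - Real.pi / 3|)
  have hcomp : IsCompact K :=
    (isCompact_Icc.prod (isCompact_Icc.prod isCompact_Icc)).inter_right hcl
  rcases K.eq_empty_or_nonempty with he | hne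
  · refine ⟨1, one_pos, ?_⟩
    intro p q ψ hp hp' hq hq' h0 h1 _
    by_contra hcon
    have : (p, q, ψ) ∈ K := by
      refine ⟨⟨⟨hp, hp'⟩, ⟨⟨hq, hq'⟩, ⟨h0, h1⟩⟩⟩, ?_⟩
      simp only [mem_ofPred_eq]
      by_contra hc
      push Not at hc
      exact hcon ⟨hc.1.le, hc.2.1.le, hc.2.2.le⟩
    rw [he] at this
    exact this
  · obtain ⟨x, hx, hmin⟩ := hcomp.exists_isMinOn hne continuous_defect.continuousOn
    have hxpos : 0 < defect x.1 x.2.1 x.2.2 := by
      have hnn := defect_nonneg hx.1.1.1 hx.1.2.1.1 hx.1.2.2.1 hx.1.2.2.2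
      rcases hnn.lt_or_eq with h | h
      · exact h
      · exfalso
        obtain ⟨e1, e2, e3⟩ := eq_of_defect_eq_zero hx.1.1.1 hx.1.2.1.1 hx.1.2.2.1 hx.1.2.2.2 h.symm
        rcases hx.2 with h | h | h
        · rw [e1] at h; simp at h; linarith
        · rw [e2] at h; simp at h; linarith
        · rw [e3] at h; simp at h; linarith
    refine ⟨defect x.1 x.2.1 x.2.2 / 2, by linarith, ?_⟩
    intro p q ψ hp hp' hq hq' h0 h1 hle
    by_contra hcon
    have hmem : (p, q, ψ) ∈ K := by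
      refine ⟨⟨⟨hp, hp'⟩, ⟨⟨hq, hq'⟩, ⟨h0, h1⟩⟩⟩, ?_⟩
      simp only [mem_ofPred_eq]
      by_contra hc
      push Not at hc
      exact hcon ⟨hc.1.le, hc.2.1.le, hc.2.2.le⟩
    have := hmin hmem
    simp only [mem_ofPred_eq] at this
    linarith

/-- All triangles of the face `i` are `δ`-close to the ideal triangle. -/
def NearHex {f : ℕ} {u : Fin f → E3} (hc : IsConfig u) (hs : IsSimple u) (δ : ℝ)
    (i : Fin f) : Prop :=
  deg u i = 6 ∧ ∀ d : Dart u, d.1.1 = i →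
    |‖wv hc hs d‖ - sHex f| ≤ δ * sHex f ∧ |ang hc hs d - Real.pi / 3| ≤ δ

variable {f : ℕ} {u : Fin f → E3}

theorem det3_sub_sub (e p q : E3) : det3 e (p - e) (q - e) = det3 e p q := by
  simp [det3]; ring

/-- For `e` a unit vector orthogonal to `a, b`, the determinant is the area. -/
theorem det3_sq_of_orth {e a b : E3} (he : ‖e‖ = 1) (ha : ⟪e, a⟫ = 0) (hb : ⟪e, b⟫ = 0) :
    det3 e a b ^ 2 = ‖a‖ ^ 2 * ‖b‖ ^ 2 - ⟪a, b⟫ ^ 2 := by
  have h1 : ‖e‖ ^ 2 = 1 := by rw [he]; norm_num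
  rw [normsq3] at h1
  rw [inner3] at ha hb
  rw [normsq3, normsq3, inner3]
  unfold det3
  -- Gram determinant
  have hg : (e 0 * (a 1 * b 2 - a 2 * b 1) + e 1 * (a 2 * b 0 - a 0 * b 2)
      + e 2 * (a 0 * b 1 - a 1 * b 0)) ^ 2
      = (e 0 ^ 2 + e 1 ^ 2 + e 2 ^ 2) * ((a 0 ^ 2 + a 1 ^ 2 + a 2 ^ 2) * (b 0 ^ 2 + b 1 ^ 2 + b 2 ^ 2)
        - (a 0 * b 0 + a 1 * b 1 + a 2 * b 2) ^ 2)
      - (e 0 * a 0 + e 1 * a 1 + e 2 * a 2) * ((e 0 * a 0 + e 1 * a 1 + e 2 * a 2)
        * (b 0 ^ 2 + b 1 ^ 2 + b 2 ^ 2)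
        - (a 0 * b 0 + a 1 * b 1 + a 2 * b 2) * (e 0 * b 0 + e 1 * b 1 + e 2 * b 2))
      + (e 0 * b 0 + e 1 * b 1 + e 2 * b 2) * ((e 0 * a 0 + e 1 * a 1 + e 2 * a 2)
        * (a 0 * b 0 + a 1 * b 1 + a 2 * b 2)
        - (a 0 ^ 2 + a 1 ^ 2 + a 2 ^ 2) * (e 0 * b 0 + e 1 * b 1 + e 2 * b 2)) := by ring
  rw [hg, h1, ha, hb]
  ring

theorem det3_eq_sin {e a b : E3} (he : ‖e‖ = 1) (ha : ⟪e, a⟫ = 0) (hb : ⟪e, b⟫ = 0)
    (h : 0 < det3 e a b) :
    det3 e a b = ‖a‖ * ‖b‖ * Real.sin (InnerProductGeometry.angle a b) := by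
  have h1 := det3_sq_of_orth he ha hb
  have h2 : ⟪a, b⟫ = ‖a‖ * ‖b‖ * Real.cos (InnerProductGeometry.angle a b) := by
    rw [← InnerProductGeometry.cos_angle_mul_norm_mul_norm]; ring
  have h3 := Real.sin_sq_add_cos_sq (InnerProductGeometry.angle a b)
  have h4 : 0 ≤ Real.sin (InnerProductGeometry.angle a b) := InnerProductGeometry.sin_angle_nonneg _ _
  have h5 : det3 e a b ^ 2 = (‖a‖ * ‖b‖ * Real.sin (InnerProductGeometry.angle a b)) ^ 2 := by
    rw [h1, h2]
    have : Real.sin (InnerProductGeometry.angle a b) ^ 2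
      = 1 - Real.cos (InnerProductGeometry.angle a b) ^ 2 := by linarith
    linear_combination (-(‖a‖ ^ 2 * ‖b‖ ^ 2)) * this
  have h6 : 0 ≤ ‖a‖ * ‖b‖ * Real.sin (InnerProductGeometry.angle a b) := by positivity
  exact (sq_eq_sq₀ h.le h6).1 h5

theorem rhoE_inv_tail (hc : IsConfig u) (hs : IsSimple u) (d : Dart u) :
    ((rhoE hc hs)⁻¹ d).1.1 = d.1.1 := rfl

theorem vtm_sub (hc : IsConfig u) (hs : IsSimple u) (d : Dart u) :
    vtm hc hs d - u d.1.1 = wv hc hs ((rhoE hc hs)⁻¹ d) := rfl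

theorem vtx_sub (hc : IsConfig u) (hs : IsSimple u) (d : Dart u) :
    vtx hc hs d - u d.1.1 = wv hc hs d := rfl

theorem dd_eq (hc : IsConfig u) (hs : IsSimple u) (d : Dart u) :
    dd hc hs d = ‖wv hc hs ((rhoE hc hs)⁻¹ d)‖ * ‖wv hc hs d‖ * Real.sin (ang hc hs d) := by
  have h0 : 0 < det3 (u d.1.1) (vtm hc hs d) (vtx hc hs d) := det_pos hc hs d
  unfold dd ang
  rw [← det3_sub_sub] at h0 ⊢
  rw [vtm_sub, vtx_sub] at h0 ⊢
  refine det3_eq_sin (hc.unit _) ?_ ?_ h0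
  · exact inner_wv hc hs ((rhoE hc hs)⁻¹ d)
  · exact inner_wv hc hs d

/-- The defect of a dart of the configuration. -/
def dfc (hc : IsConfig u) (hs : IsSimple u) (d : Dart u) : ℝ :=
  defect (‖wv hc hs ((rhoE hc hs)⁻¹ d)‖ / sHex f) (‖wv hc hs d‖ / sHex f) (ang hc hs d)

theorem dfc_eq (hc : IsConfig u) (hs : IsSimple u) (hf : 0 < sHex f) (d : Dart u) :
    dfc hc hs d = mm hc hs d / sHex f ^ 4 - 5 / 12 * (dd hc hs d / sHex f ^ 2)
      + 5 * Real.sqrt 3 / 48 + (ang hc hs d - Real.pi / 3) / 6 := by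
  have h1 := dd_eq hc hs d
  have h2 : mm hc hs d = dd hc hs d / 12 * (‖wv hc hs ((rhoE hc hs)⁻¹ d)‖ ^ 2
      + ‖wv hc hs d‖ ^ 2 + ‖wv hc hs ((rhoE hc hs)⁻¹ d)‖ * ‖wv hc hs d‖
        * Real.cos (ang hc hs d)) := by
    have : ⟪vtm hc hs d - u d.1.1, vtx hc hs d - u d.1.1⟫
        = ‖wv hc hs ((rhoE hc hs)⁻¹ d)‖ * ‖wv hc hs d‖ * Real.cos (ang hc hs d) := by
      rw [← InnerProductGeometry.cos_angle_mul_norm_mul_norm]
      unfold ang
      rw [vtm_sub, vtx_sub]
      ring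
    unfold mm mom
    rw [this, vtm_sub, vtx_sub]
    rfl
  unfold dfc defect
  rw [h2, h1]
  field_simp

theorem sHex_pos {f : ℕ} (hf : 0 < f) : 0 < sHex f := by
  unfold sHex
  have : (0:ℝ) < f := by exact_mod_cast hf
  have := Real.pi_pos
  positivity

theorem sHex_sq {f : ℕ} (hf : 0 < f) :
    sHex f ^ 2 = 8 * Real.pi / (3 * Real.sqrt 3 * f) := by
  unfold sHex
  have h1 : (0:ℝ) < f := by exact_mod_cast hf
  have := Real.pi_pos
  rw [Real.sq_sqrt]
  positivity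

theorem ang_nonneg (hc : IsConfig u) (hs : IsSimple u) (d : Dart u) : 0 ≤ ang hc hs d :=
  InnerProductGeometry.angle_nonneg _ _

theorem ang_le_pi (hc : IsConfig u) (hs : IsSimple u) (d : Dart u) : ang hc hs d ≤ Real.pi :=
  InnerProductGeometry.angle_le_pi _ _

theorem dfc_nonneg (hc : IsConfig u) (hs : IsSimple u) (hf : 0 < sHex f) (d : Dart u) :
    0 ≤ dfc hc hs d :=
  defect_nonneg (by positivity) (by positivity) (ang_nonneg hc hs d) (ang_le_pi hc hs d)

theorem norm_wv_sq (hc : IsConfig u) (hs : IsSimple u) (d : Dart u) :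
    ‖wv hc hs d‖ ^ 2 = ‖vtx hc hs d‖ ^ 2 - 1 := by
  unfold wv
  have h1 := vtx_tail hc hs d
  have h2 : ‖u d.1.1‖ = 1 := hc.unit _
  rw [norm_sub_sq_real, real_inner_comm, h1, h2]
  ring

/-- Sums over darts, face by face. -/
theorem sum_darts_eq (g : Dart u → ℝ) :
    ∑ d : Dart u, g d = ∑ i : Fin f,
      ∑ d ∈ (Finset.univ : Finset (Dart u)).filter (fun d => d.1.1 = i), g d :=
  (Finset.sum_fiberwise _ _ _).symm

theorem card_filter_tail (i : Fin f) :
    ((Finset.univ : Finset (Dart u)).filter (fun d => d.1.1 = i)).card = deg u i := by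
  rw [← card_darts_tail u i, Set.ncard_eq_toFinset_card']
  congr 1
  ext d
  simp

theorem card_darts (hc : IsConfig u) (hs : IsSimple u) :
    Fintype.card (Dart u) + 12 = 6 * f := by
  have h1 : Fintype.card (Dart u) = ∑ i, deg u i := by
    rw [← Finset.card_univ, Finset.card_eq_sum_card_fiberwise (f := fun d : Dart u => d.1.1)
      (t := Finset.univ) (fun _ _ => Finset.mem_univ _)]
    exact Finset.sum_congr rfl fun i _ => card_filter_tail i
  rw [h1]
  exact euler hc hs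

theorem card_pent (hm : IsMedial u) :
    ((Finset.univ : Finset (Fin f)).filter (fun i => deg u i ≠ 6)).card = 12 := by
  have h1 := euler hm.toIsConfig hm.simple
  have h2 : ∑ i, deg u i + ((Finset.univ : Finset (Fin f)).filter (fun i => deg u i ≠ 6)).card
      = 6 * f := by
    rw [Finset.card_filter, ← Finset.sum_add_distrib]
    have : ∀ i ∈ (Finset.univ : Finset (Fin f)), deg u i + (if deg u i ≠ 6 then 1 else 0) = 6 := by
      intro i _
      rcases hm.degs i with h | h <;> simp [h]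
    rw [Finset.sum_congr rfl this]
    simp [mul_comm]
  omega

theorem sum_dfc_le (hc : IsConfig u) (hs : IsSimple u) (hf : 0 < f) {C ε : ℝ}
    (_hε : 0 ≤ ε)
    (hR : ∀ x ∈ Poly u, ‖x‖ ^ 2 ≤ 1 + C ^ 2 / f)
    (hv : vol (Poly u) ≤ 4 * Real.pi / 3 + (cHex + ε) / f) :
    ∑ d : Dart u, dfc hc hs d ≤ 27 / (64 * Real.pi ^ 2) *
      (2 * ε * f + 5 * C ^ 2 * (cHex + ε)) := by
  have hs0 := sHex_pos hf
  have hfR : (0:ℝ) < f := by exact_mod_cast hf
  have hpi := Real.pi_pos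
  have h3 : 0 < Real.sqrt 3 := by positivity
  have h33 : Real.sqrt 3 * Real.sqrt 3 = 3 := Real.mul_self_sqrt (by norm_num)
  -- the sum
  have hsum : ∑ d : Dart u, dfc hc hs d = (∑ d : Dart u, mm hc hs d) / sHex f ^ 4
      - 5 / 12 * ((∑ d : Dart u, dd hc hs d) / sHex f ^ 2)
      + (Fintype.card (Dart u) : ℝ) * (5 * Real.sqrt 3 / 48 - Real.pi / 18)
      + (∑ d : Dart u, ang hc hs d) / 6 := by
    rw [Finset.sum_congr rfl fun d _ => dfc_eq hc hs hs0 d]
    simp only [Finset.sum_add_distrib, Finset.sum_sub_distrib, ← Finset.sum_div,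
      ← Finset.mul_sum, Finset.sum_const, Finset.card_univ, nsmul_eq_mul]
    ring
  -- the second moments
  have hcard : (Fintype.card (Dart u) : ℝ) ≤ 6 * f := by
    have := card_darts hc hs
    have h : Fintype.card (Dart u) ≤ 6 * f := by omega
    exact_mod_cast h
  have hang : ∑ d : Dart u, ang hc hs d ≤ f * (2 * Real.pi) := by
    rw [sum_darts_eq]
    calc _ ≤ ∑ i : Fin f, 2 * Real.pi := Finset.sum_le_sum fun i _ => sum_ang_le hc hs i
      _ = f * (2 * Real.pi) := by simp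
  have hdd : 8 * Real.pi ≤ ∑ d : Dart u, dd hc hs d := by
    have h1 := vol_eq_sum hc hs
    have h2 := four_pi_le_vol hc
    rw [← Finset.sum_div] at h1
    linarith
  have hmm : ∑ d : Dart u, mm hc hs d ≤ (2 + 5 * C ^ 2 / f) * ((cHex + ε) / f) := by
    have h1 := sum_mm_le hc hs hR
    have h2 : (5 * (1 + C ^ 2 / f) - 3) = 2 + 5 * C ^ 2 / f := by ring
    rw [h2] at h1
    refine h1.trans (mul_le_mul_of_nonneg_left (by linarith) (by positivity))
  have hconst : 0 < 5 * Real.sqrt 3 / 48 - Real.pi / 18 := by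
    have h1 : (1.73:ℝ) < Real.sqrt 3 := by
      rw [show (1.73:ℝ) = Real.sqrt (1.73 ^ 2) by rw [Real.sqrt_sq (by norm_num)]]
      exact Real.sqrt_lt_sqrt (by norm_num) (by norm_num)
    have h2 := Real.pi_lt_d2
    norm_num at h1 h2 ⊢
    linarith
  have hsq := sHex_sq hf
  have hs4 : sHex f ^ 4 = (8 * Real.pi / (3 * Real.sqrt 3 * f)) ^ 2 := by
    rw [← hsq]; ring
  have e1 : (∑ d : Dart u, mm hc hs d) / sHex f ^ 4
      ≤ ((2 + 5 * C ^ 2 / f) * ((cHex + ε) / f)) / sHex f ^ 4 :=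
    div_le_div_of_nonneg_right hmm (by positivity)
  have e2 : 8 * Real.pi / sHex f ^ 2 ≤ (∑ d : Dart u, dd hc hs d) / sHex f ^ 2 :=
    div_le_div_of_nonneg_right hdd (by positivity)
  have e3 : (Fintype.card (Dart u) : ℝ) * (5 * Real.sqrt 3 / 48 - Real.pi / 18)
      ≤ 6 * f * (5 * Real.sqrt 3 / 48 - Real.pi / 18) :=
    mul_le_mul_of_nonneg_right hcard hconst.le
  have e4 : 8 * Real.pi / sHex f ^ 2 = 3 * Real.sqrt 3 * f := by
    rw [hsq]; field_simp
  have e5 : ((2 + 5 * C ^ 2 / f) * ((cHex + ε) / f)) / sHex f ^ 4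
      = 27 / (64 * Real.pi ^ 2) * (2 * ε * f + 5 * C ^ 2 * (cHex + ε))
        + 5 * Real.sqrt 3 / 8 * f := by
    have h3' : Real.sqrt 3 ^ 2 = 3 := by rw [sq]; exact h33
    have e6 : (8 * Real.pi / (3 * Real.sqrt 3 * f)) ^ 2 = 64 * Real.pi ^ 2 / (27 * f ^ 2) := by
      rw [div_pow, mul_pow, mul_pow, mul_pow, h3']
      ring
    have e7 : 27 / (64 * Real.pi ^ 2) * (2 * cHex * f) = 5 * Real.sqrt 3 / 8 * f := by
      have : cHex * (9 * Real.sqrt 3) = 20 * Real.pi ^ 2 := by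
        unfold cHex; field_simp
      have h4 : cHex = 20 * Real.pi ^ 2 * Real.sqrt 3 / 27 := by
        have : cHex * (9 * Real.sqrt 3) * Real.sqrt 3 = 20 * Real.pi ^ 2 * Real.sqrt 3 := by
          rw [this]
        have h5 : cHex * (9 * Real.sqrt 3) * Real.sqrt 3 = 27 * cHex := by
          rw [mul_assoc, mul_assoc, h33]; ring
        linarith
      rw [h4]
      field_simp
      ring
    rw [hs4, e6, ← e7]
    field_simp
    ring
  rw [hsum]
  rw [e4] at e2
  rw [e5] at e1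
  linarith

/-- Stability: near-optimal medial configurations have almost only near-ideal faces. -/
theorem stability {C δ : ℝ} (hC : 0 < C) (hδ : 0 < δ) :
    ∃ ε : ℝ, 0 < ε ∧ ∃ F₀ : ℕ, ∀ f : ℕ, F₀ ≤ f → ∀ (u : Fin f → E3) (hm : IsMedial u),
      (∀ x ∈ Poly u, ‖x‖ ^ 2 ≤ 1 + C ^ 2 / f) →
      vol (Poly u) ≤ 4 * Real.pi / 3 + (cHex + ε) / f →
      ∃ bad : Finset (Fin f), (bad.card : ℝ) ≤ δ * f ∧
        ∀ i, i ∉ bad → NearHex hm.toIsConfig hm.simple δ i := by
  obtain ⟨η, hη, hst⟩ := defect_stable C hδ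
  have hpi := Real.pi_pos
  have h3 : 0 < Real.sqrt 3 := by positivity
  have hcH : 0 < cHex := by unfold cHex; positivity
  set k : ℝ := 27 / (64 * Real.pi ^ 2) with hk
  have hk0 : 0 < k := by positivity
  -- choose ε
  set ε : ℝ := δ * η / (4 * k) with hε
  have hε0 : 0 < ε := by positivity
  obtain ⟨F₁, hF₁⟩ := exists_nat_gt ((k * (5 * C ^ 2 * (cHex + ε)) / η + 12) * (2 / δ))
  refine ⟨ε, hε0, F₁ + 1, ?_⟩
  intro f hf u hm hR hv
  have hf0 : 0 < f := by omega
  have hfR : (0:ℝ) < f := by exact_mod_cast hf0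
  have hs0 := sHex_pos hf0
  set hc := hm.toIsConfig
  set hs := hm.simple
  have hsum := sum_dfc_le hc hs hf0 hε0.le hR hv
  set B : Finset (Dart u) := Finset.univ.filter (fun d => η < dfc hc hs d) with hB
  set bad : Finset (Fin f) := B.image (fun d => d.1.1) ∪
    (Finset.univ : Finset (Fin f)).filter (fun i => deg u i ≠ 6) with hbad
  have hBcard : (B.card : ℝ) * η ≤ k * (2 * ε * f + 5 * C ^ 2 * (cHex + ε)) := by
    calc (B.card : ℝ) * η = ∑ d ∈ B, η := by simp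
      _ ≤ ∑ d ∈ B, dfc hc hs d := Finset.sum_le_sum fun d hd => (Finset.mem_filter.1 hd).2.le
      _ ≤ ∑ d : Dart u, dfc hc hs d :=
        Finset.sum_le_sum_of_subset_of_nonneg (Finset.subset_univ _)
          fun d _ _ => dfc_nonneg hc hs hs0 d
      _ ≤ _ := hsum
  refine ⟨bad, ?_, ?_⟩
  · have h1 : bad.card ≤ B.card + 12 := by
      calc bad.card ≤ (B.image (fun d => d.1.1)).card
            + ((Finset.univ : Finset (Fin f)).filter (fun i => deg u i ≠ 6)).card :=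
          Finset.card_union_le _ _
        _ ≤ B.card + 12 := by
          rw [card_pent hm]
          exact Nat.add_le_add_right Finset.card_image_le _
    have h2 : (bad.card : ℝ) ≤ B.card + 12 := by exact_mod_cast h1
    have h3 : (B.card : ℝ) ≤ k * (2 * ε * f + 5 * C ^ 2 * (cHex + ε)) / η := by
      rw [le_div_iff₀ hη]; exact hBcard
    have h4 : k * (2 * ε * f + 5 * C ^ 2 * (cHex + ε)) / η
        = δ * f / 2 + k * (5 * C ^ 2 * (cHex + ε)) / η := by
      have : k * (2 * ε * f) / η = δ * f / 2 := by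
        rw [hε]; field_simp; ring
      rw [← this]; ring
    have h5 : k * (5 * C ^ 2 * (cHex + ε)) / η + 12 < δ * f / 2 := by
      have h6 : (F₁ : ℝ) ≤ f := by exact_mod_cast (by omega : F₁ ≤ f)
      have h7 : (k * (5 * C ^ 2 * (cHex + ε)) / η + 12) * (2 / δ) < f := lt_of_lt_of_le hF₁ h6
      have h8 : (k * (5 * C ^ 2 * (cHex + ε)) / η + 12) * (2 / δ) * (δ / 2) < f * (δ / 2) :=
        mul_lt_mul_of_pos_right h7 (by positivity)
      have h9 : (k * (5 * C ^ 2 * (cHex + ε)) / η + 12) * (2 / δ) * (δ / 2)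
        = k * (5 * C ^ 2 * (cHex + ε)) / η + 12 := by field_simp
      rw [h9] at h8
      linarith
    rw [h4] at h3
    linarith
  · intro i hi
    rw [hbad, Finset.mem_union, not_or] at hi
    refine ⟨?_, ?_⟩
    · by_contra hne
      exact hi.2 (Finset.mem_filter.2 ⟨Finset.mem_univ _, hne⟩)
    · intro d hd
      have hle : dfc hc hs d ≤ η := by
        by_contra hgt
        push Not at hgt
        exact hi.1 (Finset.mem_image.2 ⟨d, Finset.mem_filter.2 ⟨Finset.mem_univ _, hgt⟩, hd⟩)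
      have hbd : ∀ d : Dart u, ‖wv hc hs d‖ / sHex f ≤ C := by
        intro d
        rw [div_le_iff₀ hs0]
        have h1 : ‖wv hc hs d‖ ^ 2 ≤ C ^ 2 / f := by
          rw [norm_wv_sq]
          have := hR _ (vtx_mem hc hs d)
          linarith
        have h2 : C ^ 2 / f ≤ (C * sHex f) ^ 2 := by
          rw [mul_pow, sHex_sq hf0]
          have h4 : 1 / f ≤ 8 * Real.pi / (3 * Real.sqrt 3 * f) := by
            rw [div_le_div_iff₀ hfR (by positivity)]
            have h5 : Real.sqrt 3 ≤ 2 := by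
              rw [show (2:ℝ) = Real.sqrt (2 ^ 2) by rw [Real.sqrt_sq (by norm_num)]]
              exact Real.sqrt_le_sqrt (by norm_num)
            have h6 := Real.pi_gt_three
            have h7 : 3 * Real.sqrt 3 ≤ 8 * Real.pi := by linarith
            nlinarith
          calc C ^ 2 / f = C ^ 2 * (1 / f) := by ring
            _ ≤ _ := mul_le_mul_of_nonneg_left h4 (by positivity)
        exact (pow_le_pow_iff_left₀ (norm_nonneg _) (by positivity) two_ne_zero).1 (h1.trans h2)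
      obtain ⟨_, h2, h3⟩ := hst _ _ _ (by positivity) (hbd ((rhoE hc hs)⁻¹ d)) (by positivity)
        (hbd d) (ang_nonneg hc hs d) (ang_le_pi hc hs d) hle
      refine ⟨?_, h3⟩
      have h4 : ‖wv hc hs d‖ - sHex f = (‖wv hc hs d‖ / sHex f - 1) * sHex f := by
        field_simp
      rw [h4, abs_mul, abs_of_pos hs0]
      exact mul_le_mul_of_nonneg_right h2 hs0.le

end Gold
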