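import Mathlib

/-!
# Goldberg's conjecture: common definitions

`E3` is Euclidean three-space.  A configuration is an injective family of unit vectors
`u : Fin f → E3` whose polar set `Poly u = {x | ∀ i, ⟪u i, x⟫ ≤ 1}` is bounded: this is the
polytope circumscribed about the unit ball with outer normals `u i`.
-/

noncomputable section

open MeasureTheory Metric Set
open scoped RealInnerProductSpace

namespace Gold

/-- Euclidean three-space. -/
abbrev E3 := EuclideanSpace ℝ (Fin 3)

/-- The polytope circumscribed about the unit ball, with outer normals `u i`. -/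
def Poly {f : ℕ} (u : Fin f → E3) : Set E3 := {x | ∀ i, ⟪u i, x⟫ ≤ 1}

/-- Real-valued volume in `E3`. -/
def vol (s : Set E3) : ℝ := (volume s).toReal

/-- A configuration: distinct unit vectors with bounded polar. -/
structure IsConfig {f : ℕ} (u : Fin f → E3) : Prop where
  unit : ∀ i, ‖u i‖ = 1
  inj : Function.Injective u
  bdd : Bornology.IsBounded (Poly u)

/-- Two distinct faces that meet. -/
def Adj {f : ℕ} (u : Fin f → E3) (i j : Fin f) : Prop :=
  i ≠ j ∧ ∃ x ∈ Poly u, ⟪u i, x⟫ = 1 ∧ ⟪u j, x⟫ = 1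

/-- At most three faces through every point. -/
def IsSimple {f : ℕ} (u : Fin f → E3) : Prop :=
  ∀ x ∈ Poly u, {i | ⟪u i, x⟫ = 1}.ncard ≤ 3

/-- The number of neighbours of the face `i`. -/
def deg {f : ℕ} (u : Fin f → E3) (i : Fin f) : ℕ := {j | Adj u i j}.ncard

/-- A medial configuration for `f ≥ 12`: simple, all faces pentagons or hexagons. -/
structure IsMedial {f : ℕ} (u : Fin f → E3) : Prop extends IsConfig u where
  simple : IsSimple u
  degs : ∀ i, deg u i = 5 ∨ deg u i = 6

/-- `u` has the least volume among all configurations with `f` faces. -/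
def IsMin {f : ℕ} (u : Fin f → E3) : Prop :=
  ∀ w : Fin f → E3, IsConfig w → vol (Poly u) ≤ vol (Poly w)

/-- Cross product. -/
def cr (a b : E3) : E3 :=
  !₂[a 1 * b 2 - a 2 * b 1, a 2 * b 0 - a 0 * b 2, a 0 * b 1 - a 1 * b 0]

/-- Determinant of three vectors. -/
def det3 (a b c : E3) : ℝ :=
  a 0 * (b 1 * c 2 - b 2 * c 1) + a 1 * (b 2 * c 0 - b 0 * c 2) + a 2 * (b 0 * c 1 - b 1 * c 0)

/-- A corner: three faces meeting at a vertex, in positive order. -/
def IsCorner {f : ℕ} (u : Fin f → E3) (i j k : Fin f) : Prop :=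
  0 < det3 (u i) (u j) (u k) ∧ ∃ x ∈ Poly u, ⟪u i, x⟫ = 1 ∧ ⟪u j, x⟫ = 1 ∧ ⟪u k, x⟫ = 1

/-- The sharp constant `20 π² / (9 √3)` of the asymptotic formula. -/
def cHex : ℝ := 20 * Real.pi ^ 2 / (9 * Real.sqrt 3)

/-- Side (= circumradius) of a regular hexagon of area `4 π / f`. -/
def sHex (f : ℕ) : ℝ := Real.sqrt (8 * Real.pi / (3 * Real.sqrt 3 * f))

/-- Distance of the centres of adjacent regular hexagons of area `4 π / f`. -/
def lHex (f : ℕ) : ℝ := Real.sqrt (8 * Real.pi / (Real.sqrt 3 * f))

end Gold
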