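import Pool.Agent.Lib.H81.Gold.Vec
import Pool.Agent.Lib.H81.Gold.BMEq

/-!
# Lindelöf's theorem with the equality case (chunk B)
-/

noncomputable section

open MeasureTheory Metric Set
open scoped RealInnerProductSpace Pointwise

namespace Gold

/-- The polyhedron with outer normals `n i` and support numbers `h i`. -/
def HPoly {f : ℕ} (n : Fin f → E3) (h : Fin f → ℝ) : Set E3 := {x | ∀ i, ⟪n i, x⟫ ≤ h i}

/-- The face with outer normal `n i`. -/
def HFace {f : ℕ} (n : Fin f → E3) (h : Fin f → ℝ) (i : Fin f) : Set E3 :=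
  {x | x ∈ HPoly n h ∧ ⟪n i, x⟫ = h i}

/-- An irredundant description of a bounded polyhedron with nonempty interior. -/
structure IsHRep {f : ℕ} (n : Fin f → E3) (h : Fin f → ℝ) : Prop where
  unit : ∀ i, ‖n i‖ = 1
  inj : Function.Injective n
  bdd : Bornology.IsBounded (HPoly n h)
  int : ∃ x, ∀ i, ⟪n i, x⟫ < h i
  facet : ∀ i, ∃ x, ⟪n i, x⟫ = h i ∧ ∀ j, j ≠ i → ⟪n j, x⟫ < h j

/-- Area of a face. -/
def farea {f : ℕ} (n : Fin f → E3) (h : Fin f → ℝ) (i : Fin f) : ℝ :=
  (μHE[2] (HFace n h i)).toReal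

variable {f : ℕ} {n : Fin f → E3} {h : Fin f → ℝ}

namespace Lind

theorem isClosed_HPoly (n : Fin f → E3) (h : Fin f → ℝ) : IsClosed (HPoly n h) := by
  rw [HPoly, Set.ofPred_forall]
  exact isClosed_iInter fun i => isClosed_le (by fun_prop) continuous_const

theorem convex_HPoly (n : Fin f → E3) (h : Fin f → ℝ) : Convex ℝ (HPoly n h) := by
  intro x hx y hy a b ha hb hab i
  rw [inner_add_right, real_inner_smul_right, real_inner_smul_right]
  calc a * ⟪n i, x⟫ + b * ⟪n i, y⟫ ≤ a * h i + b * h i :=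
        add_le_add (mul_le_mul_of_nonneg_left (hx i) ha) (mul_le_mul_of_nonneg_left (hy i) hb)
    _ = h i := by rw [← add_mul, hab, one_mul]

/-- a positive number below finitely many positive numbers -/
theorem exists_pos_le {ι : Type*} [Finite ι] (g : ι → ℝ) (p : ι → Prop)
    (hg : ∀ i, p i → 0 < g i) : ∃ m : ℝ, 0 < m ∧ ∀ i, p i → m ≤ g i := by
  classical
  have := Fintype.ofFinite ι
  by_cases hne : (Finset.univ.filter p).Nonempty
  · obtain ⟨i, hi, hmin⟩ := Finset.exists_min_image _ g hne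
    refine ⟨g i, hg i (Finset.mem_filter.1 hi).2, fun j hj => hmin j (by simpa using hj)⟩
  · refine ⟨1, one_pos, fun i hi => absurd ⟨i, by simpa using hi⟩ hne⟩

theorem isBounded_Poly (H : IsHRep n h) : Bornology.IsBounded (Poly n) := by
  obtain ⟨x0, hx0⟩ := H.int
  obtain ⟨m, hm, hmi⟩ := exists_pos_le (fun i => h i - ⟪n i, x0⟫) (fun _ => True)
    (fun i _ => sub_pos.2 (hx0 i))
  have hsub : Poly n ⊆ (fun y : E3 => m⁻¹ • (y - x0)) '' HPoly n h := by
    intro x hx
    refine ⟨x0 + m • x, fun i => ?_, ?_⟩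
    · rw [inner_add_right, real_inner_smul_right]
      have h1 := hmi i trivial
      have h2 := mul_le_mul_of_nonneg_left (hx i) hm.le
      linarith
    · simp only [add_sub_cancel_left]
      rw [smul_smul, inv_mul_cancel₀ hm.ne', one_smul]
  refine Bornology.IsBounded.subset ?_ hsub
  have hK : IsCompact (HPoly n h) :=
    Metric.isCompact_of_isClosed_isBounded (isClosed_HPoly n h) H.bdd
  exact (hK.image (by fun_prop)).isBounded

end Lind

open Lind

theorem isConfig_of_isHRep (H : IsHRep n h) : IsConfig n := ⟨H.unit, H.inj, isBounded_Poly H⟩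

namespace Lind

theorem vol_slices {v : E3} (hv : ‖v‖ = 1) {T : Set E3} (hT : MeasurableSet T) :
    volume T = ∫⁻ s : ℝ, μHE[2] (T ∩ {x | ⟪v, x⟫ = s}) := by
  have hv0 : v ≠ 0 := by
    rintro rfl
    simp at hv
  have key := EuclideanGeometry.euclideanHausdorffMeasure_eq_lintegral (0 : E3) hv0 hT
  rw [finrank_euclideanSpace_fin, EuclideanSpace.euclideanHausdorffMeasure_eq_volume] at key
  rw [key]
  have h1 : ‖v‖ₑ = 1 := by
    rw [← ofReal_norm, hv]; simp
  rw [h1, one_mul]
  refine lintegral_congr fun s => ?_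
  congr 1
  ext x
  simp only [mem_inter_iff, SetLike.mem_coe, AffineSubspace.mem_mk', Set.mem_ofPred_eq,
    vsub_eq_sub, vadd_eq_add, add_zero]
  rw [Submodule.mem_orthogonal_singleton_iff_inner_right, inner_sub_right, real_inner_smul_right,
    real_inner_self_eq_norm_sq, hv]
  constructor
  · rintro ⟨h1, h2⟩; exact ⟨h1, by linarith⟩
  · rintro ⟨h1, h2⟩; exact ⟨h1, by linarith⟩


/-- the area of a translate -/
theorem area_translate (c : E3) (F : Set E3) : μHE[2] ((fun y => y + c) '' F) = μHE[2] F :=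
  (IsometryEquiv.addRight c).isometry.euclideanHausdorffMeasure_image F

theorem slab_le {v : E3} (hv : ‖v‖ = 1) {T : Set E3} (hT : MeasurableSet T) {a b : ℝ}
    (hab : ∀ x ∈ T, a < ⟪v, x⟫ ∧ ⟪v, x⟫ ≤ b) {M : ENNReal}
    (hM : ∀ s, a < s → s ≤ b → μHE[2] (T ∩ {x | ⟪v, x⟫ = s}) ≤ M) :
    volume T ≤ ENNReal.ofReal (b - a) * M := by
  rw [vol_slices hv hT]
  calc ∫⁻ s : ℝ, μHE[2] (T ∩ {x | ⟪v, x⟫ = s})
      ≤ ∫⁻ s : ℝ, (Ioc a b).indicator (fun _ => M) s := by
        refine lintegral_mono fun s => ?_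
        by_cases hs : s ∈ Ioc a b
        · rw [indicator_of_mem hs]
          exact hM s hs.1 hs.2
        · rw [indicator_of_notMem hs]
          have : T ∩ {x | ⟪v, x⟫ = s} = ∅ := by
            ext x
            simp only [mem_inter_iff, Set.mem_ofPred_eq, mem_empty_iff_false, iff_false, not_and]
            intro hx hxs
            exact hs (hxs ▸ hab x hx)
          rw [this, measure_empty]
    _ = ENNReal.ofReal (b - a) * M := by
        rw [lintegral_indicator_const measurableSet_Ioc, Real.volume_Ioc, mul_comm]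

theorem isClosed_HFace (n : Fin f → E3) (h : Fin f → ℝ) (i : Fin f) : IsClosed (HFace n h i) :=
  (isClosed_HPoly n h).inter (isClosed_eq (by fun_prop) continuous_const)

theorem isCompact_HPoly (H : IsHRep n h) : IsCompact (HPoly n h) :=
  Metric.isCompact_of_isClosed_isBounded (isClosed_HPoly n h) H.bdd

theorem isCompact_HFace (H : IsHRep n h) (i : Fin f) : IsCompact (HFace n h i) :=
  (isCompact_HPoly H).of_isClosed_subset (isClosed_HFace n h i) fun _ hx => hx.1

theorem area_HFace_ne_top (H : IsHRep n h) (i : Fin f) : μHE[2] (HFace n h i) ≠ ⊤ := by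
  set F := HFace n h i with hF
  set T : Set E3 := (fun z : E3 × ℝ => z.1 + z.2 • n i) '' (F ×ˢ Icc (0 : ℝ) 1) with hT
  have hTc : IsCompact T := ((isCompact_HFace H i).prod isCompact_Icc).image (by fun_prop)
  have h1 := vol_slices (H.unit i) hTc.measurableSet
  have h2 : μHE[2] F ≤ volume T := by
    rw [h1]
    calc μHE[2] F = ∫⁻ s : ℝ, (Icc (h i) (h i + 1)).indicator (fun _ => μHE[2] F) s := by
          rw [lintegral_indicator_const measurableSet_Icc, Real.volume_Icc]
          simp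
      _ ≤ _ := by
          refine lintegral_mono fun s => ?_
          by_cases hs : s ∈ Icc (h i) (h i + 1)
          · rw [indicator_of_mem hs, ← area_translate ((s - h i) • n i) F]
            refine measure_mono ?_
            rintro _ ⟨y, hy, rfl⟩
            refine ⟨⟨(y, s - h i), ⟨hy, ⟨by linarith [hs.1], by linarith [hs.2]⟩⟩, rfl⟩, ?_⟩
            have hy2 : ⟪n i, y⟫ = h i := hy.2
            simp only [Set.mem_ofPred_eq, inner_add_right, real_inner_smul_right,
              real_inner_self_eq_norm_sq, H.unit i, hy2]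
            ring
          · rw [indicator_of_notMem hs]
            exact bot_le
  exact ne_top_of_le_ne_top hTc.measure_lt_top.ne h2


/-- The slice of the parallel polyhedron at height `h i + τ`. -/
theorem slice_le {i : Fin f} (H : IsHRep n h) {p : E3} (hp : ⟪n i, p⟫ = h i)
    {m : ℝ} (hm : 0 < m) (hpm : ∀ j, j ≠ i → m ≤ h j - ⟪n j, p⟫) {t τ : ℝ} (ht : 0 < t)
    (hτ0 : 0 < τ) (hτ : τ ≤ t) :
    μHE[2] (HPoly n (fun j => h j + t) ∩ {x | ⟪n i, x⟫ = h i + τ}) ≤
      ENNReal.ofReal ((1 + 2 / m * t) ^ 2) * μHE[2] (HFace n h i) := by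
  set c : ℝ := 1 + 2 / m * t with hc
  have hc0 : 0 < c := by positivity
  have hsub : HPoly n (fun j => h j + t) ∩ {x | ⟪n i, x⟫ = h i + τ} ⊆
      (fun y => y + τ • n i) '' (AffineMap.homothety p c '' HFace n h i) := by
    rintro x ⟨hx, hxs⟩
    have hxs' : ⟪n i, x⟫ = h i + τ := hxs
    have hni : ⟪n i, n i⟫ = (1 : ℝ) := by rw [real_inner_self_eq_norm_sq, H.unit i]; norm_num
    refine ⟨x - τ • n i, ⟨c⁻¹ • (x - τ • n i - p) + p, ⟨fun j => ?_, ?_⟩, ?_⟩, ?_⟩
    · by_cases hj : j = i
      · subst hj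
        rw [inner_add_right, real_inner_smul_right, inner_sub_right, inner_sub_right,
          real_inner_smul_right, hni, hxs', hp]
        simp
      · have h1 := hpm j hj
        have h2 : ⟪n j, x⟫ ≤ h j + t := hx j
        have h3 : -1 ≤ ⟪n j, n i⟫ := by
          have := abs_real_inner_le_norm (n j) (n i)
          rw [H.unit, H.unit, one_mul, abs_le] at this
          exact this.1
        rw [inner_add_right, real_inner_smul_right, inner_sub_right, inner_sub_right,
          real_inner_smul_right]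
        have h4 : ⟪n j, x⟫ - τ * ⟪n j, n i⟫ - ⟪n j, p⟫ ≤ c * (h j - ⟪n j, p⟫) := by
          have h5 : 2 * t ≤ 2 / m * t * (h j - ⟪n j, p⟫) := by
            have : 2 / m * t * m ≤ 2 / m * t * (h j - ⟪n j, p⟫) :=
              mul_le_mul_of_nonneg_left h1 (by positivity)
            have e : 2 / m * t * m = 2 * t := by field_simp
            linarith
          have h6 : -(τ * ⟪n j, n i⟫) ≤ t := by nlinarith
          rw [hc]
          linarith
        have h7 := mul_le_mul_of_nonneg_left h4 (inv_nonneg.2 hc0.le)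
        rw [← mul_assoc, inv_mul_cancel₀ hc0.ne', one_mul] at h7
        linarith
    · rw [inner_add_right, real_inner_smul_right, inner_sub_right, inner_sub_right,
          real_inner_smul_right, hni, hxs', hp]
      ring
    · rw [AffineMap.homothety_apply, vsub_eq_sub, vadd_eq_add, add_sub_cancel_right, smul_smul,
        mul_inv_cancel₀ hc0.ne', one_smul, sub_add_cancel]
    · simp
  refine (measure_mono hsub).trans ?_
  rw [area_translate, MeasureTheory.euclideanHausdorffMeasure_homothety_image 2 p hc0.ne']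
  rw [ENNReal.smul_def, smul_eq_mul]
  refine mul_le_mul_left (le_of_eq ?_) _
  rw [ENNReal.ofReal_pow hc0.le, ENNReal.coe_pow]
  congr 1
  rw [ENNReal.ofReal, ENNReal.coe_inj]
  ext
  simp [hc0.le, abs_of_pos hc0]

theorem isBounded_HPoly_add (H : IsHRep n h) (t : ℝ) :
    Bornology.IsBounded (HPoly n (fun j => h j + t)) := by
  obtain ⟨x0, hx0⟩ := H.int
  obtain ⟨m, hm, hmi⟩ := exists_pos_le (fun i => h i - ⟪n i, x0⟫) (fun _ => True)
    (fun i _ => sub_pos.2 (hx0 i))
  set c : ℝ := (|t| + m) / m with hc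
  have hc0 : 0 < c := by positivity
  have hsub : HPoly n (fun j => h j + t) ⊆ (fun y : E3 => c • (y - x0) + x0) '' HPoly n h := by
    intro x hx
    refine ⟨c⁻¹ • (x - x0) + x0, fun i => ?_, ?_⟩
    · have h1 := hmi i trivial
      have h2 : ⟪n i, x⟫ ≤ h i + t := hx i
      rw [inner_add_right, real_inner_smul_right, inner_sub_right]
      have h3 : ⟪n i, x⟫ - ⟪n i, x0⟫ ≤ c * (h i - ⟪n i, x0⟫) := by
        have h4 : c * (h i - ⟪n i, x0⟫) = (h i - ⟪n i, x0⟫) + |t| / m * (h i - ⟪n i, x0⟫) := by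
          rw [hc]; field_simp
          ring
        have h5 : |t| / m * m ≤ |t| / m * (h i - ⟪n i, x0⟫) :=
          mul_le_mul_of_nonneg_left h1 (by positivity)
        rw [div_mul_cancel₀ _ hm.ne'] at h5
        linarith [le_abs_self t]
      have h7 := mul_le_mul_of_nonneg_left h3 (inv_nonneg.2 hc0.le)
      rw [← mul_assoc, inv_mul_cancel₀ hc0.ne', one_mul] at h7
      linarith
    · simp only [add_sub_cancel_right]
      rw [smul_smul, mul_inv_cancel₀ hc0.ne', one_smul, sub_add_cancel]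
  exact (((isCompact_HPoly H).image (by fun_prop)).isBounded).subset hsub

theorem isCompact_HPoly_add (H : IsHRep n h) (t : ℝ) :
    IsCompact (HPoly n (fun j => h j + t)) :=
  Metric.isCompact_of_isClosed_isBounded (isClosed_HPoly n _) (isBounded_HPoly_add H t)

/-- The volume of the parallel polyhedron. -/
theorem vol_add_le (H : IsHRep n h) : ∃ C : ℝ, 0 ≤ C ∧ ∀ t, 0 < t →
    vol (HPoly n (fun j => h j + t)) ≤
      vol (HPoly n h) + t * (1 + C * t) ^ 2 * ∑ i, farea n h i := by
  choose p hp1 hp2 using H.facet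
  obtain ⟨m, hm, hmi⟩ := exists_pos_le (fun z : Fin f × Fin f => h z.2 - ⟪n z.2, p z.1⟫)
    (fun z => z.2 ≠ z.1) (fun z hz => sub_pos.2 (hp2 z.1 z.2 hz))
  refine ⟨2 / m, by positivity, fun t ht => ?_⟩
  set Q := HPoly n (fun j => h j + t) with hQ
  have hQc : IsCompact Q := isCompact_HPoly_add H t
  have hslab : ∀ i, volume (Q ∩ {x | h i < ⟪n i, x⟫}) ≤
      ENNReal.ofReal (t * (1 + 2 / m * t) ^ 2) * μHE[2] (HFace n h i) := by
    intro i
    have hmeas : MeasurableSet (Q ∩ {x | h i < ⟪n i, x⟫}) :=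
      hQc.measurableSet.inter (isOpen_lt continuous_const (by fun_prop)).measurableSet
    have key := slab_le (H.unit i) hmeas (a := h i) (b := h i + t)
      (fun x hx => ⟨hx.2, hx.1 i⟩)
      (M := ENNReal.ofReal ((1 + 2 / m * t) ^ 2) * μHE[2] (HFace n h i)) (by
        intro s hs1 hs2
        have := slice_le H (hp1 i) hm (fun j hj => hmi (i, j) hj) ht (τ := s - h i)
          (by linarith) (by linarith)
        refine (measure_mono ?_).trans this
        rintro x ⟨⟨hx1, -⟩, hx3⟩
        refine ⟨hx1, ?_⟩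
        have : ⟪n i, x⟫ = s := hx3
        simp [this])
    refine key.trans (le_of_eq ?_)
    rw [← mul_assoc, add_sub_cancel_left, ← ENNReal.ofReal_mul ht.le]
  have hcover : Q ⊆ HPoly n h ∪ ⋃ i, (Q ∩ {x | h i < ⟪n i, x⟫}) := by
    intro x hx
    by_cases hxP : x ∈ HPoly n h
    · exact Or.inl hxP
    · right
      simp only [HPoly, Set.mem_ofPred_eq, not_forall, not_le] at hxP
      obtain ⟨i, hi⟩ := hxP
      exact mem_iUnion.2 ⟨i, hx, hi⟩
  have hfin : ∀ i, μHE[2] (HFace n h i) ≠ ⊤ := area_HFace_ne_top H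
  have h1 : volume Q ≤ volume (HPoly n h) +
      ∑ i, ENNReal.ofReal (t * (1 + 2 / m * t) ^ 2) * μHE[2] (HFace n h i) := by
    refine (measure_mono hcover).trans ((measure_union_le _ _).trans ?_)
    refine add_le_add le_rfl ((measure_iUnion_fintype_le _ _).trans ?_)
    exact Finset.sum_le_sum fun i _ => hslab i
  have hterm : ∀ i, ENNReal.ofReal (t * (1 + 2 / m * t) ^ 2) * μHE[2] (HFace n h i) ≠ ⊤ :=
    fun i => ENNReal.mul_ne_top ENNReal.ofReal_ne_top (hfin i)
  have hP : volume (HPoly n h) ≠ ⊤ := (isCompact_HPoly H).measure_lt_top.ne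
  have hsum : (∑ i, ENNReal.ofReal (t * (1 + 2 / m * t) ^ 2) * μHE[2] (HFace n h i)) ≠ ⊤ :=
    ENNReal.sum_ne_top.2 fun i _ => hterm i
  have h2 := ENNReal.toReal_mono (ENNReal.add_ne_top.2 ⟨hP, hsum⟩) h1
  rw [ENNReal.toReal_add hP hsum, ENNReal.toReal_sum fun i _ => hterm i] at h2
  refine h2.trans (le_of_eq ?_)
  rw [vol, Finset.mul_sum]
  congr 1
  refine Finset.sum_congr rfl fun i _ => ?_
  rw [ENNReal.toReal_mul, ENNReal.toReal_ofReal (by positivity), farea]


theorem interior_nonempty_HPoly (hint : ∃ x, ∀ i, ⟪n i, x⟫ < h i) :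
    (interior (HPoly n h)).Nonempty := by
  obtain ⟨x, hx⟩ := hint
  refine ⟨x, mem_interior.2 ⟨{y | ∀ i, ⟪n i, y⟫ < h i}, fun y hy i => (hy i).le, ?_, hx⟩⟩
  rw [Set.ofPred_forall]
  exact isOpen_iInter_of_finite fun i => isOpen_lt (by fun_prop) continuous_const

theorem vol_interior {A : Set E3} (hA : Convex ℝ A) : vol (interior A) = vol A := by
  rw [vol, vol]
  congr 1
  refine le_antisymm (measure_mono interior_subset) ?_
  have h1 : volume A ≤ volume (interior A ∪ frontier A) :=
    measure_mono (subset_closure.trans (closure_eq_interior_union_frontier A).subset)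
  refine h1.trans ((measure_union_le _ _).trans ?_)
  rw [hA.addHaar_frontier volume, add_zero]

theorem vol_smul {c : ℝ} (hc : 0 ≤ c) (A : Set E3) : vol (c • A) = c ^ 3 * vol A := by
  rw [vol, Measure.addHaar_smul, finrank_euclideanSpace_fin, ENNReal.toReal_mul,
    ENNReal.toReal_ofReal (abs_nonneg _), abs_of_nonneg (by positivity), vol]

theorem vol_nonneg (A : Set E3) : 0 ≤ vol A := ENNReal.toReal_nonneg

/-- Brunn-Minkowski for convex sets, in terms of cubes. -/
theorem bm_cube {A B C : Set E3} (hA : Convex ℝ A) (hB : Convex ℝ B)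
    (hAi : (interior A).Nonempty) (hBi : (interior B).Nonempty) (hAf : volume A ≠ ⊤)
    (hBf : volume B ≠ ⊤) (hC : MeasurableSet C) (hCf : volume C ≠ ⊤)
    (hABC : ∀ x ∈ A, ∀ y ∈ B, x + y ∈ C) {α β : ℝ} (hα : 0 ≤ α) (hβ : 0 ≤ β)
    (h1 : α ^ 3 ≤ vol A) (h2 : β ^ 3 ≤ vol B) : (α + β) ^ 3 ≤ vol C := by
  have key := Pool.Agent.Lib.H31.brunn_minkowski_add (d := 3) (by norm_num)
    (A := interior A) (B := interior B) (C := C) isOpen_interior isOpen_interior hC hAi hBi
    (ne_top_of_le_ne_top hAf (measure_mono interior_subset))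
    (ne_top_of_le_ne_top hBf (measure_mono interior_subset)) hCf
    (fun x hx y hy => hABC x (interior_subset hx) y (interior_subset hy))
  change (vol (interior A)) ^ _ + (vol (interior B)) ^ _ ≤ (vol C) ^ _ at key
  rw [vol_interior hA, vol_interior hB] at key
  have e : ∀ x : ℝ, 0 ≤ x → (x ^ 3) ^ (1 / ((3 : ℕ) : ℝ)) = x := by
    intro x hx
    rw [← Real.rpow_natCast, ← Real.rpow_mul hx]
    norm_num
  have e' : ∀ x : ℝ, 0 ≤ x → (x ^ (1 / ((3 : ℕ) : ℝ))) ^ 3 = x := by
    intro x hx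
    rw [← Real.rpow_natCast, ← Real.rpow_mul hx]
    norm_num
  have h3 : α ≤ (vol A) ^ (1 / ((3 : ℕ) : ℝ)) := by
    rw [← e α hα]
    exact Real.rpow_le_rpow (by positivity) h1 (by positivity)
  have h4 : β ≤ (vol B) ^ (1 / ((3 : ℕ) : ℝ)) := by
    rw [← e β hβ]
    exact Real.rpow_le_rpow (by positivity) h2 (by positivity)
  calc (α + β) ^ 3 ≤ ((vol C) ^ (1 / ((3 : ℕ) : ℝ))) ^ 3 := by
        gcongr
        linarith
    _ = vol C := e' _ (vol_nonneg C)

/-- The first order comparison. -/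
theorem first_order (H : IsHRep n h) {a β t0 : ℝ} (ha : 0 ≤ a) (haP : vol (HPoly n h) = a ^ 3)
    (hβ : 0 ≤ β) (ht0 : 0 < t0)
    (hQ : ∀ t, 0 < t → t < t0 → (a + t * β) ^ 3 ≤ vol (HPoly n (fun j => h j + t))) :
    3 * a ^ 2 * β ≤ ∑ i, farea n h i := by
  obtain ⟨C, hC, hvol⟩ := vol_add_le H
  set S := ∑ i, farea n h i with hS
  have hlim : Filter.Tendsto (fun t : ℝ => (1 + C * t) ^ 2 * S) (nhdsWithin 0 (Ioi 0))
      (nhds ((1 + C * 0) ^ 2 * S)) :=
    (Continuous.tendsto (by fun_prop) 0).mono_left nhdsWithin_le_nhds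
  have hev : ∀ᶠ t in nhdsWithin (0 : ℝ) (Ioi 0), 3 * a ^ 2 * β ≤ (1 + C * t) ^ 2 * S := by
    have hmem : Ioo (0 : ℝ) t0 ∈ nhdsWithin (0 : ℝ) (Ioi 0) := Ioo_mem_nhdsGT ht0
    filter_upwards [hmem] with t ht
    have h1 := (hQ t ht.1 ht.2).trans (hvol t ht.1)
    rw [haP] at h1
    have ht' : 0 < t := ht.1
    have h2 : t * (3 * a ^ 2 * β) ≤ t * ((1 + C * t) ^ 2 * S) := by
      have h3 : 0 ≤ 3 * a * (t * β) ^ 2 + (t * β) ^ 3 := by positivity
      nlinarith
    exact le_of_mul_le_mul_left h2 ht'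
  have := ge_of_tendsto hlim hev
  simpa using this

/-- the cube root of the volume -/
theorem exists_cube {x : ℝ} (hx : 0 ≤ x) : ∃ a : ℝ, 0 ≤ a ∧ a ^ 3 = x := by
  refine ⟨x ^ (1 / ((3 : ℕ) : ℝ)), by positivity, ?_⟩
  rw [← Real.rpow_natCast, ← Real.rpow_mul hx]
  norm_num

theorem Poly_int (n : Fin f → E3) : ∃ x, ∀ i, ⟪n i, x⟫ < (fun _ : Fin f => (1 : ℝ)) i :=
  ⟨0, fun i => by simp⟩

theorem isCompact_Poly' (H : IsHRep n h) : IsCompact (Poly n) :=
  Metric.isCompact_of_isClosed_isBounded (isClosed_HPoly n (fun _ => 1)) (isBounded_Poly H)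

theorem interior_smul_nonempty {c : ℝ} (hc : 0 < c) {A : Set E3} (hA : (interior A).Nonempty) :
    (interior (c • A)).Nonempty := by
  rw [interior_smul₀ hc.ne']
  exact hA.smul_set

theorem smul_ne_top {c : ℝ} {A : Set E3} (hA : volume A ≠ ⊤) : volume (c • A) ≠ ⊤ := by
  rw [Measure.addHaar_smul]
  exact ENNReal.mul_ne_top ENNReal.ofReal_ne_top hA

end Lind

open Lind

/-- Lindelöf's inequality. -/
theorem lindelof (H : IsHRep n h) :
    27 * vol (Poly n) * vol (HPoly n h) ^ 2 ≤ (∑ i, farea n h i) ^ 3 := by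
  obtain ⟨a, ha, ha3⟩ := exists_cube (vol_nonneg (HPoly n h))
  obtain ⟨b, hb, hb3⟩ := exists_cube (vol_nonneg (Poly n))
  have hK := convex_HPoly n (fun _ => 1)
  have key := first_order H ha ha3.symm hb one_pos (by
    intro t ht _
    refine bm_cube (A := HPoly n h) (B := t • Poly n) (convex_HPoly n h) (hK.smul t)
      (interior_nonempty_HPoly H.int)
      (interior_smul_nonempty ht (interior_nonempty_HPoly (Poly_int n)))
      (isCompact_HPoly H).measure_lt_top.ne
      (smul_ne_top (isCompact_Poly' H).measure_lt_top.ne)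
      (isCompact_HPoly_add H t).measurableSet (isCompact_HPoly_add H t).measure_lt_top.ne
      ?_ ha (by positivity) ha3.le ?_
    · rintro x hx _ ⟨y, hy, rfl⟩ i
      have h1 := hx i
      have h2 := mul_le_mul_of_nonneg_left (hy i) ht.le
      simp only [inner_add_right, real_inner_smul_right]
      linarith
    · rw [vol_smul ht.le, ← hb3, mul_pow])
  rw [← ha3, ← hb3]
  calc 27 * b ^ 3 * (a ^ 3) ^ 2 = (3 * a ^ 2 * b) ^ 3 := by ring
    _ ≤ _ := by
      have : 0 ≤ 3 * a ^ 2 * b := by positivity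
      gcongr

/-- Equality only for polyhedra homothetic to the circumscribed one. -/
theorem lindelof_eq (H : IsHRep n h)
    (heq : (∑ i, farea n h i) ^ 3 ≤ 27 * vol (Poly n) * vol (HPoly n h) ^ 2) :
    ∃ (c : ℝ) (x : E3), 0 < c ∧ HPoly n h = (fun y => x + c • y) '' Poly n := by
  obtain ⟨a, ha, ha3⟩ := exists_cube (vol_nonneg (HPoly n h))
  obtain ⟨b, hb, hb3⟩ := exists_cube (vol_nonneg (Poly n))
  have hPc : Convex ℝ (HPoly n h) := convex_HPoly n h
  have hKc : Convex ℝ (Poly n) := convex_HPoly n (fun _ => 1)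
  have hPk := isCompact_HPoly H
  have hKk := isCompact_Poly' H
  have hPi := interior_nonempty_HPoly H.int
  have hKi : (interior (Poly n)).Nonempty := interior_nonempty_HPoly (Poly_int n)
  have hpos : ∀ {A : Set E3}, IsCompact A → (interior A).Nonempty → 0 < vol A := by
    intro A hA hAi
    refine ENNReal.toReal_pos ?_ hA.measure_lt_top.ne
    exact (lt_of_lt_of_le (isOpen_interior.measure_pos volume hAi)
      (measure_mono interior_subset)).ne'
  have hVP := hpos hPk hPi
  have hVK := hpos hKk hKi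
  have ha0 : 0 < a := by
    rcases ha.lt_or_eq with h1 | h1
    · exact h1
    · rw [← h1] at ha3; norm_num at ha3; linarith
  have hb0 : 0 < b := by
    rcases hb.lt_or_eq with h1 | h1
    · exact h1
    · rw [← h1] at hb3; norm_num at hb3; linarith
  -- normalised bodies
  set A : Set E3 := b⁻¹ • Poly n with hA
  set B : Set E3 := a⁻¹ • HPoly n h with hB
  have hvolA : vol A = 1 := by
    rw [hA, vol_smul (by positivity), ← hb3, ← mul_pow, inv_mul_cancel₀ hb0.ne', one_pow]
  have hvolB : vol B = 1 := by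
    rw [hB, vol_smul (by positivity), ← ha3, ← mul_pow, inv_mul_cancel₀ ha0.ne', one_pow]
  have hAf : volume A ≠ ⊤ := smul_ne_top hKk.measure_lt_top.ne
  have hBf : volume B ≠ ⊤ := smul_ne_top hPk.measure_lt_top.ne
  have hAk : IsCompact A := hKk.smul _
  have hBk : IsCompact B := hPk.smul _
  set W : Set E3 := (1 / 2 : ℝ) • A + (1 / 2 : ℝ) • B with hW
  have hWk : IsCompact W := (hAk.smul _).add (hBk.smul _)
  have hWc : Convex ℝ W := ((hKc.smul _).smul _).add ((hPc.smul _).smul _)
  have hWi : (interior W).Nonempty := by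
    obtain ⟨x, hx⟩ := interior_smul_nonempty (c := (1 / 2 : ℝ)) (by norm_num)
      (interior_smul_nonempty (c := b⁻¹) (by positivity) hKi)
    obtain ⟨y, hy⟩ := interior_smul_nonempty (c := (1 / 2 : ℝ)) (by norm_num)
      (interior_smul_nonempty (c := a⁻¹) (by positivity) hPi)
    refine ⟨x + y, subset_interior_add_left ?_⟩
    exact Set.add_mem_add hx (interior_subset hy)
  -- the mean does not have larger volume
  have hmid : volume W ≤ volume A := by
    by_contra hcon
    rw [not_le] at hcon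
    have hv1 : 1 < vol W := by
      rw [← hvolA]
      exact (ENNReal.toReal_lt_toReal hAf hWk.measure_lt_top.ne).2 hcon
    obtain ⟨w, hw, hw3⟩ := exists_cube (vol_nonneg W)
    have hw1 : 1 < w := by
      by_contra hw1
      have : w ^ 3 ≤ 1 := pow_le_one₀ hw (not_lt.1 hw1)
      linarith
    have key := first_order H (t0 := a / b) (β := b * (2 * w - 1)) ha ha3.symm
      (by have : 0 ≤ 2 * w - 1 := by linarith
          positivity) (by positivity) (by
      intro t ht ht0
      set l : ℝ := t * b / a with hl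
      have hl0 : 0 < l := by positivity
      have hl1 : l < 1 := by
        rw [hl, div_lt_one ha0]
        rwa [lt_div_iff₀ hb0] at ht0
      have e : a + t * (b * (2 * w - 1)) = (1 - l) * a + (l * (2 * a)) * w := by
        have : l * a = t * b := by rw [hl]; field_simp
        linear_combination (1 - 2 * w) * this
      rw [e]
      refine bm_cube (A := (1 - l) • HPoly n h) (B := (l * (2 * a)) • W) (hPc.smul _)
        (hWc.smul _) (interior_smul_nonempty (by linarith) hPi)
        (interior_smul_nonempty (by positivity) hWi)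
        (smul_ne_top hPk.measure_lt_top.ne)
        (smul_ne_top hWk.measure_lt_top.ne)
        (isCompact_HPoly_add H t).measurableSet (isCompact_HPoly_add H t).measure_lt_top.ne
        ?_ (mul_nonneg (by linarith) ha) (by positivity) ?_ ?_
      · rintro _ ⟨x, hx, rfl⟩ _ ⟨_, ⟨_, ⟨_, ⟨y, hy, rfl⟩, rfl⟩, _, ⟨_, ⟨z, hz, rfl⟩, rfl⟩, rfl⟩,
          rfl⟩ i
        have h1 : ⟪n i, x⟫ ≤ h i := hx i
        have h2 : ⟪n i, y⟫ ≤ 1 := hy i
        have h3 : ⟪n i, z⟫ ≤ h i := hz i
        simp only [inner_add_right, real_inner_smul_right]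
        have e1 : (1 - l) * ⟪n i, x⟫ + l * (2 * a) * (1 / 2 * (b⁻¹ * ⟪n i, y⟫) +
            1 / 2 * (a⁻¹ * ⟪n i, z⟫)) = (1 - l) * ⟪n i, x⟫ + l * ⟪n i, z⟫ + t * ⟪n i, y⟫ := by
          rw [hl]
          field_simp
          ring
        rw [e1]
        have h4 := mul_le_mul_of_nonneg_left h1 (by linarith : 0 ≤ 1 - l)
        have h5 := mul_le_mul_of_nonneg_left h3 hl0.le
        have h6 := mul_le_mul_of_nonneg_left h2 ht.le
        linarith
      · rw [vol_smul (by linarith), ← ha3, mul_pow]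
      · rw [vol_smul (by positivity), ← hw3, mul_pow])
    have h1 : (3 * a ^ 2 * (b * (2 * w - 1))) ^ 3 ≤ (∑ i, farea n h i) ^ 3 := by
      have : 0 ≤ 3 * a ^ 2 * (b * (2 * w - 1)) := by
        have : 0 ≤ 2 * w - 1 := by linarith
        positivity
      gcongr
    have h2 := h1.trans heq
    rw [← ha3, ← hb3] at h2
    have h3 : 27 * b ^ 3 * (a ^ 3) ^ 2 = (3 * a ^ 2 * b) ^ 3 := by ring
    rw [h3] at h2
    have h4 : 3 * a ^ 2 * (b * (2 * w - 1)) ≤ 3 * a ^ 2 * b :=
      le_of_pow_le_pow_left₀ (by norm_num) (by positivity) h2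
    have h5 : 0 < 3 * a ^ 2 * b := by positivity
    nlinarith
  have hvolAB : volume A = volume B := by
    rw [← ENNReal.toReal_eq_toReal_iff' hAf hBf]
    exact hvolA.trans hvolB.symm
  obtain ⟨x, hx⟩ := bm_equality (hKc.smul _) (hPc.smul _) hAk hBk
    (interior_smul_nonempty (by positivity) hKi) (interior_smul_nonempty (by positivity) hPi)
    hvolAB hmid
  refine ⟨a / b, a • x, by positivity, ?_⟩
  have h1 : HPoly n h = a • B := by
    rw [hB, smul_smul, mul_inv_cancel₀ ha0.ne', one_smul]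
  have hx' : B = (fun y => x + y) '' A := hx
  rw [h1, hx']
  ext y
  simp only [hA, mem_image, Set.mem_smul_set]
  constructor
  · rintro ⟨_, ⟨_, ⟨z, hz, rfl⟩, rfl⟩, rfl⟩
    refine ⟨z, hz, ?_⟩
    rw [smul_add, smul_smul, div_eq_mul_inv]
  · rintro ⟨z, hz, rfl⟩
    refine ⟨x + b⁻¹ • z, ⟨b⁻¹ • z, ⟨z, hz, rfl⟩, rfl⟩, ?_⟩
    rw [smul_add, smul_smul, div_eq_mul_inv]

end Gold
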