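import Pool.Agent.Lib.H81.Gold.Assembly
import Pool.Agent.Lib.H81.Gold.Bridge

/-!
# Goldberg's conjecture is false for arbitrarily many numbers of faces
-/

noncomputable section

open MeasureTheory Metric Set
open scoped RealInnerProductSpace Pointwise

namespace Goldberg

theorem vol_HPoly_pos {f : ℕ} {n : Fin f → Space} {h : Fin f → ℝ} (H : Gold.IsHRep n h) :
    0 < (volume (Gold.HPoly n h)).toReal := by
  apply ENNReal.toReal_pos
  · have h1 := Gold.Lind.interior_nonempty_HPoly H.int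
    have h2 : 0 < volume (interior (Gold.HPoly n h)) := isOpen_interior.measure_pos volume h1
    exact (h2.trans_le (measure_mono interior_subset)).ne'
  · exact (Gold.Lind.isCompact_HPoly H).measure_ne_top

/-- Goldberg's conjecture fails for some number of faces in every interval `[F, 2 F]` with
`F` large. -/
theorem goldberg_false : ∃ F₁ : ℕ, ∀ F : ℕ, F₁ ≤ F → ∃ f : ℕ, F ≤ f ∧ f ≤ 2 * F ∧
    4 ≤ f ∧ f ≠ 11 ∧ f ≠ 13 ∧
    ∀ P : Set Space, IsMedial f P →
      ∃ Q : Set Space, IsPolyhedron Q ∧ (faces Q 2).ncard = f ∧ isoQuot Q < isoQuot P := by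
  obtain ⟨F₁, hF₁⟩ := Gold.core
  refine ⟨max F₁ 14, fun F hF => ?_⟩
  obtain ⟨f, h1, h1', hcore⟩ := hF₁ F ((le_max_left _ _).trans hF)
  have h2 : 14 ≤ f := ((le_max_right _ _).trans hF).trans h1
  refine ⟨f, h1, h1', by omega, by omega, by omega, ?_⟩
  intro P hP
  by_contra hcon
  push Not at hcon
  obtain ⟨n, h, H, rfl⟩ := exists_hrep hP.1 hP.2.1 (by omega)
  have hn := Gold.isConfig_of_isHRep H
  have hmin : ∀ w : Fin f → Space, Gold.IsConfig w →
      isoQuot (Gold.HPoly n h) ≤ 27 * (volume (Gold.Poly w)).toReal := by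
    intro w hw
    rw [← isoQuot_Poly hw]
    exact hcon _ (isPolyhedron_Poly hw).1 (isPolyhedron_Poly hw).2
  have hVpos : 0 < (volume (Gold.HPoly n h)).toReal := vol_HPoly_pos H
  have heq : (∑ i, Gold.farea n h i) ^ 3 ≤
      27 * Gold.vol (Gold.Poly n) * Gold.vol (Gold.HPoly n h) ^ 2 := by
    have := hmin n hn
    rw [isoQuot, surfaceArea_HPoly H, div_le_iff₀ (by positivity)] at this
    exact this
  obtain ⟨c, x, hc, hhom⟩ := Gold.lindelof_eq H heq
  have hmed := isMedial_of_homothetic (by omega) hP hn hc hhom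
  refine hcore n hmed ?_
  intro w hw
  have h3 := hmin w hw
  have h4 := Gold.lindelof H
  have h5 : 27 * Gold.vol (Gold.Poly n) ≤ isoQuot (Gold.HPoly n h) := by
    rw [isoQuot, surfaceArea_HPoly H, le_div_iff₀ (by positivity)]
    exact h4
  have h6 : 27 * Gold.vol (Gold.Poly n) ≤ 27 * (volume (Gold.Poly w)).toReal := h5.trans h3
  have h7 : Gold.vol (Gold.Poly w) = (volume (Gold.Poly w)).toReal := rfl
  linarith

end Goldberg
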