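import Pool.Agent.Lib.H81.Gold.SimplexInt

/-!
# Upper bound: hexagonal lattices in the charts of a fine cover (chunk G)

Directions are measured by `mdir` (volume in the unit ball); a fine open cover `U i` of the sphere
of total measure `≤ 4π/3 + η` comes from outer regularity; in every chart (tangent plane at the
centre of a small ball) we take the centres of the hexagonal lattice of circumradius `r` whose
directions are Lebesgue-deep in `U i`.  The cells are counted by volume of cones.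
-/

set_option linter.unusedSectionVars false
set_option linter.unusedVariables false

noncomputable section

open MeasureTheory Metric Set
open scoped RealInnerProductSpace ENNReal Pointwise

namespace Gold.UB
/-! ### directions -/

/-- The direction of a vector. -/
def nrm (x : E3) : E3 := ‖x‖⁻¹ • x

theorem norm_nrm {x : E3} (hx : x ≠ 0) : ‖nrm x‖ = 1 := by
  rw [nrm, norm_smul, norm_inv, norm_norm, inv_mul_cancel₀ (norm_ne_zero_iff.mpr hx)]

theorem nrm_smul {x : E3} {t : ℝ} (ht : 0 < t) : nrm (t • x) = nrm x := by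
  by_cases hx : x = 0
  · simp [nrm, hx]
  · have : ‖x‖ ≠ 0 := norm_ne_zero_iff.mpr hx
    rw [nrm, nrm, norm_smul, smul_smul, Real.norm_of_nonneg ht.le]
    congr 1
    field_simp

theorem measurable_nrm : Measurable nrm := by
  unfold nrm
  exact (measurable_norm.inv).smul measurable_id

/-- Directions are Lipschitz outside the unit ball. -/
theorem dist_nrm_le {x y : E3} (hx : 1 ≤ ‖x‖) (hy : 1 ≤ ‖y‖) : dist (nrm x) (nrm y) ≤ 2 * dist x y := by
  have hx0 : 0 < ‖x‖ := by linarith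
  have hy0 : 0 < ‖y‖ := by linarith
  rw [dist_eq_norm, dist_eq_norm]
  have h1 : nrm x - nrm y = ‖x‖⁻¹ • (x - y) + (‖x‖⁻¹ - ‖y‖⁻¹) • y := by
    unfold nrm
    module
  rw [h1]
  refine (norm_add_le _ _).trans ?_
  rw [norm_smul, norm_smul, norm_inv, norm_norm, Real.norm_eq_abs]
  have h2 : |‖x‖⁻¹ - ‖y‖⁻¹| * ‖y‖ ≤ ‖x - y‖ := by
    have h3 : ‖x‖⁻¹ - ‖y‖⁻¹ = (‖y‖ - ‖x‖) / (‖x‖ * ‖y‖) := by field_simp
    rw [h3, abs_div, abs_of_pos (mul_pos hx0 hy0)]
    have h4 : |‖y‖ - ‖x‖| ≤ ‖x - y‖ := by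
      rw [norm_sub_rev]; exact abs_norm_sub_norm_le y x
    rw [div_mul_eq_mul_div, div_le_iff₀ (mul_pos hx0 hy0)]
    nlinarith [norm_nonneg (x - y), mul_nonneg (sub_nonneg.mpr hx) hy0.le,
      mul_le_mul_of_nonneg_right h4 hy0.le,
      mul_nonneg (norm_nonneg (x - y)) (mul_nonneg (sub_nonneg.mpr hx) hy0.le)]
  have h5 : ‖x‖⁻¹ * ‖x - y‖ ≤ ‖x - y‖ := by
    have : ‖x‖⁻¹ ≤ 1 := inv_le_one_of_one_le₀ hx
    nlinarith [norm_nonneg (x - y)]
  linarith

/-! ### one cell -/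

/-- Data of one triangle of a planar hexagon. -/
structure Tri (a g G G' : E3) (r : ℝ) : Prop where
  ha : ‖a‖ = 1
  hg : ⟪a, g⟫ = 1
  hG : ⟪a, G - g⟫ = 0
  hG' : ⟪a, G' - g⟫ = 0
  nG : ‖G - g‖ ^ 2 = r ^ 2
  nG' : ‖G' - g‖ ^ 2 = r ^ 2
  ip : ⟪G - g, G' - g⟫ = r ^ 2 / 2
  det : det3 g G G' = Real.sqrt 3 / 2 * r ^ 2

variable {a g G G' : E3} {r h : ℝ}

theorem Tri.one_le_norm (H : Tri a g G G' r) : 1 ≤ ‖g‖ := by
  have := real_inner_le_norm a g
  rw [H.hg, H.ha, one_mul] at this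
  exact this

theorem Tri.inner_nrm (_H : Tri a g G G' r) (v : E3) : ⟪nrm g, v⟫ = ⟪g, v⟫ / ‖g‖ := by
  rw [nrm, real_inner_smul_left]
  ring

theorem Tri.inner_nrm_self (H : Tri a g G G' r) : ⟪nrm g, g⟫ = ‖g‖ := by
  have h1 := H.one_le_norm
  rw [H.inner_nrm, real_inner_self_eq_norm_sq]
  field_simp

theorem Tri.abs_inner (H : Tri a g G G' r) (hr : 0 < r) (hh : ‖nrm g - a‖ ≤ h) :
    |⟪nrm g, G - g⟫| ≤ h * r := by
  have h1 : ⟪nrm g, G - g⟫ = ⟪nrm g - a, G - g⟫ := by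
    rw [inner_sub_left, H.hG, sub_zero]
  have h2 : ‖G - g‖ = r := by
    have := H.nG
    exact (pow_left_inj₀ (norm_nonneg _) hr.le two_ne_zero).mp this
  rw [h1]
  refine (abs_real_inner_le_norm _ _).trans ?_
  rw [h2]
  exact mul_le_mul_of_nonneg_right hh hr.le

theorem Tri.swap_inner (H : Tri a g G G' r) (hr : 0 < r) (hh : ‖nrm g - a‖ ≤ h) :
    |⟪nrm g, G' - g⟫| ≤ h * r := by
  have h1 : ⟪nrm g, G' - g⟫ = ⟪nrm g - a, G' - g⟫ := by
    rw [inner_sub_left, H.hG', sub_zero]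
  have h2 : ‖G' - g‖ = r := by
    have := H.nG'
    exact (pow_left_inj₀ (norm_nonneg _) hr.le two_ne_zero).mp this
  rw [h1]
  refine (abs_real_inner_le_norm _ _).trans ?_
  rw [h2]
  exact mul_le_mul_of_nonneg_right hh hr.le

theorem Tri.inner_lower (H : Tri a g G G' r) (hr : 0 < r) :
    1 - r ≤ ⟪nrm g, G⟫ := by
  have h0 : nrm g ≠ 0 ∧ ‖nrm g‖ = 1 := by
    have : g ≠ 0 := by
      intro h0
      have := H.one_le_norm
      rw [h0, norm_zero] at this
      linarith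
    have h1 := norm_nrm this
    refine ⟨?_, h1⟩
    intro h2
    rw [h2, norm_zero] at h1
    norm_num at h1
  have h2 : ‖G - g‖ = r := by
    have := H.nG
    exact (pow_left_inj₀ (norm_nonneg _) hr.le two_ne_zero).mp this
  have h3 := abs_real_inner_le_norm (nrm g) (G - g)
  rw [h0.2, h2, one_mul] at h3
  have h4 : ⟪nrm g, G⟫ = ⟪nrm g, g⟫ + ⟪nrm g, G - g⟫ := by
    rw [inner_sub_right]; ring
  rw [h4, H.inner_nrm_self]
  have := H.one_le_norm
  have := (abs_le.mp h3).1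
  linarith

theorem Tri.inner_lower' (H : Tri a g G G' r) (hr : 0 < r) :
    1 - r ≤ ⟪nrm g, G'⟫ := by
  have h0 : ‖nrm g‖ = 1 := by
    have : g ≠ 0 := by
      intro h0
      have := H.one_le_norm
      rw [h0, norm_zero] at this
      linarith
    exact norm_nrm this
  have h2 : ‖G' - g‖ = r := by
    have := H.nG'
    exact (pow_left_inj₀ (norm_nonneg _) hr.le two_ne_zero).mp this
  have h3 := abs_real_inner_le_norm (nrm g) (G' - g)
  rw [h0, h2, one_mul] at h3
  have h4 : ⟪nrm g, G'⟫ = ⟪nrm g, g⟫ + ⟪nrm g, G' - g⟫ := by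
    rw [inner_sub_right]; ring
  rw [h4, H.inner_nrm_self]
  have := H.one_le_norm
  have := (abs_le.mp h3).1
  linarith

/-- Projection of a vertex to the tangent plane at `e`. -/
def prj (g G : E3) : E3 := ⟪nrm g, G⟫⁻¹ • G

theorem Tri.norm_nrm (H : Tri a g G G' r) : ‖nrm g‖ = 1 := by
  have : g ≠ 0 := by
    intro h0
    have := H.one_le_norm
    rw [h0, norm_zero] at this
    linarith
  exact Gold.UB.norm_nrm this

theorem det3_smul (x y z : ℝ) (a b c : E3) :
    det3 (x • a) (y • b) (z • c) = x * y * z * det3 a b c := by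
  simp [det3]; ring

theorem Tri.inner_prj (H : Tri a g G G' r) (hr : 0 < r) (hr1 : r < 1) :
    ⟪nrm g, prj g G⟫ = 1 := by
  have := H.inner_lower hr
  rw [prj, real_inner_smul_right, inv_mul_cancel₀]
  linarith

theorem Tri.inner_prj' (H : Tri a g G G' r) (hr : 0 < r) (hr1 : r < 1) :
    ⟪nrm g, prj g G'⟫ = 1 := by
  have := H.inner_lower' hr
  rw [prj, real_inner_smul_right, inv_mul_cancel₀]
  linarith

theorem Tri.det_prj (H : Tri a g G G' r) (hr : 0 < r) (hr1 : r < 1) :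
    det3 (nrm g) (prj g G) (prj g G') =
      Real.sqrt 3 / 2 * r ^ 2 / (‖g‖ * ⟪nrm g, G⟫ * ⟪nrm g, G'⟫) := by
  have h1 := H.one_le_norm
  have h2 := H.inner_lower hr
  have h3 := H.inner_lower' hr
  have e1 : det3 (nrm g) (prj g G) (prj g G') =
      ‖g‖⁻¹ * ⟪nrm g, G⟫⁻¹ * ⟪nrm g, G'⟫⁻¹ * det3 g G G' := by
    conv_lhs => rw [prj, prj]
    conv_lhs => arg 1; rw [nrm]
    rw [det3_smul]
  rw [e1, H.det]
  field_simp

theorem Tri.det_pos (H : Tri a g G G' r) (hr : 0 < r) (hr1 : r < 1) :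
    0 < det3 (nrm g) (prj g G) (prj g G') := by
  rw [H.det_prj hr hr1]
  have h1 := H.one_le_norm
  have h2 := H.inner_lower hr
  have h3 := H.inner_lower' hr
  have h4 : 0 < ⟪nrm g, G⟫ := by linarith
  have h5 : 0 < ⟪nrm g, G'⟫ := by linarith
  positivity

theorem Tri.det_le (H : Tri a g G G' r) (hr : 0 < r) (hr1 : r < 1) :
    det3 (nrm g) (prj g G) (prj g G') ≤ Real.sqrt 3 / 2 * r ^ 2 / (1 - r) ^ 2 := by
  rw [H.det_prj hr hr1]
  have h1 := H.one_le_norm
  have h2 := H.inner_lower hr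
  have h3 := H.inner_lower' hr
  have h4 : 0 < ⟪nrm g, G⟫ := by linarith
  have h5 : 0 < ⟪nrm g, G'⟫ := by linarith
  have h6 : (1 - r) ^ 2 ≤ ‖g‖ * ⟪nrm g, G⟫ * ⟪nrm g, G'⟫ := by
    have h7 : 0 < 1 - r := by linarith
    have h8 : (1 - r) * (1 - r) ≤ ⟪nrm g, G⟫ * ⟪nrm g, G'⟫ :=
      mul_le_mul h2 h3 h7.le h4.le
    have h9 : 0 < ⟪nrm g, G⟫ * ⟪nrm g, G'⟫ := mul_pos h4 h5
    nlinarith [mul_nonneg (sub_nonneg.mpr h1) h9.le]
  have h7 : 0 < (1 - r) ^ 2 := by
    have : 0 < 1 - r := by linarith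
    positivity
  exact div_le_div_of_nonneg_left (by positivity) h7 h6

theorem prj_sub_sq {g G : E3} {r : ℝ} (h1 : 1 ≤ ‖g‖) (nG : ‖G - g‖ ^ 2 = r ^ 2)
    (h2 : 1 - r ≤ ⟪nrm g, G⟫) (hr1 : r < 1) :
    ‖prj g G - nrm g‖ ^ 2 ≤ r ^ 2 / (1 - r) ^ 2 := by
  have hd : 0 < ⟪nrm g, G⟫ := by linarith
  have hg0 : g ≠ 0 := by
    intro h0
    rw [h0, norm_zero] at h1
    linarith
  have hgn : ‖nrm g‖ = 1 := norm_nrm hg0
  have hin : ∀ v, ⟪nrm g, v⟫ = ⟪g, v⟫ / ‖g‖ := by
    intro v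
    rw [nrm, real_inner_smul_left]
    ring
  have hself : ⟪nrm g, g⟫ = ‖g‖ := by
    rw [hin, real_inner_self_eq_norm_sq]
    field_simp
  have e1 : ‖prj g G - nrm g‖ ^ 2 = (‖G‖ ^ 2 - ⟪nrm g, G⟫ ^ 2) / ⟪nrm g, G⟫ ^ 2 := by
    rw [norm_sub_sq_real, prj, norm_smul, real_inner_smul_left, hgn, norm_inv,
      Real.norm_of_nonneg hd.le, real_inner_comm (nrm g) G]
    field_simp
    ring
  have e2 : ‖G‖ ^ 2 - ⟪nrm g, G⟫ ^ 2 ≤ r ^ 2 := by
    have h3 : G = g + (G - g) := by abel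
    have h4 : ‖G‖ ^ 2 = ‖g‖ ^ 2 + 2 * ⟪g, G - g⟫ + ‖G - g‖ ^ 2 := by
      conv_lhs => rw [h3]
      rw [norm_add_sq_real]
    have h5 : ⟪nrm g, G⟫ = ‖g‖ + ⟪g, G - g⟫ / ‖g‖ := by
      conv_lhs => rw [h3]
      rw [inner_add_right, hself, hin]
    rw [h4, h5, nG]
    have h6 : (‖g‖ + ⟪g, G - g⟫ / ‖g‖) ^ 2 =
        ‖g‖ ^ 2 + 2 * ⟪g, G - g⟫ + (⟪g, G - g⟫ / ‖g‖) ^ 2 := by
      field_simp
      ring
    rw [h6]
    nlinarith [sq_nonneg (⟪g, G - g⟫ / ‖g‖)]
  rw [e1]
  have h7 : 0 < 1 - r := by linarith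
  have h8 : (1 - r) ^ 2 ≤ ⟪nrm g, G⟫ ^ 2 := pow_le_pow_left₀ h7.le h2 2
  exact div_le_div₀ (by positivity) e2 (by positivity) h8

theorem Tri.norm_prj_sub (H : Tri a g G G' r) (hr : 0 < r) (hr1 : r < 1) :
    ‖prj g G - nrm g‖ ^ 2 ≤ r ^ 2 / (1 - r) ^ 2 :=
  prj_sub_sq H.one_le_norm H.nG (H.inner_lower hr) hr1

theorem Tri.norm_prj_sub' (H : Tri a g G G' r) (hr : 0 < r) (hr1 : r < 1) :
    ‖prj g G' - nrm g‖ ^ 2 ≤ r ^ 2 / (1 - r) ^ 2 :=
  prj_sub_sq H.one_le_norm H.nG' (H.inner_lower' hr) hr1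

theorem Tri.inner_prj_sub (H : Tri a g G G' r) (hr : 0 < r) (hr1 : r < 1)
    (hh : ‖nrm g - a‖ ≤ h) :
    ⟪prj g G - nrm g, prj g G' - nrm g⟫ ≤ r ^ 2 * (1 / 2 + h ^ 2) / (1 - r) ^ 2 := by
  have h1 := H.one_le_norm
  have h2 := H.inner_lower hr
  have h3 := H.inner_lower' hr
  have hd : 0 < ⟪nrm g, G⟫ := by linarith
  have hd' : 0 < ⟪nrm g, G'⟫ := by linarith
  have hgn : ‖nrm g‖ = 1 := H.norm_nrm
  have hh0 : 0 ≤ h := (norm_nonneg _).trans hh
  have e1 : ⟪prj g G - nrm g, prj g G' - nrm g⟫ =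
      (⟪G, G'⟫ - ⟪nrm g, G⟫ * ⟪nrm g, G'⟫) / (⟪nrm g, G⟫ * ⟪nrm g, G'⟫) := by
    rw [inner_sub_left, inner_sub_right, inner_sub_right, H.inner_prj' hr hr1,
      real_inner_self_eq_norm_sq, hgn, real_inner_comm (nrm g) (prj g G), H.inner_prj hr hr1,
      prj, prj, real_inner_smul_left, real_inner_smul_right]
    field_simp
    ring
  have e2 : ⟪G, G'⟫ - ⟪nrm g, G⟫ * ⟪nrm g, G'⟫ =
      r ^ 2 / 2 - ⟪nrm g, G - g⟫ * ⟪nrm g, G' - g⟫ := by
    have h4 : ⟪G, G'⟫ = ‖g‖ ^ 2 + ⟪g, G - g⟫ + ⟪g, G' - g⟫ + ⟪G - g, G' - g⟫ := by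
      simp only [inner_sub_left, inner_sub_right, real_inner_self_eq_norm_sq]
      rw [real_inner_comm g G]
      ring
    have h5 : ⟪nrm g, G⟫ = ‖g‖ + ⟪g, G - g⟫ / ‖g‖ := by
      have h3 : G = g + (G - g) := by abel
      conv_lhs => rw [h3]
      rw [inner_add_right, H.inner_nrm_self, H.inner_nrm]
    have h6 : ⟪nrm g, G'⟫ = ‖g‖ + ⟪g, G' - g⟫ / ‖g‖ := by
      have h3 : G' = g + (G' - g) := by abel
      conv_lhs => rw [h3]
      rw [inner_add_right, H.inner_nrm_self, H.inner_nrm]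
    rw [h4, h5, h6, H.ip, H.inner_nrm, H.inner_nrm]
    field_simp
    ring
  have e3 := H.abs_inner hr hh
  have e4 := H.swap_inner hr hh
  have e5 : |⟪nrm g, G - g⟫ * ⟪nrm g, G' - g⟫| ≤ (h * r) * (h * r) := by
    rw [abs_mul]
    exact mul_le_mul e3 e4 (abs_nonneg _) (by positivity)
  have e6 := (abs_le.mp e5).1
  have e7 : ⟪G, G'⟫ - ⟪nrm g, G⟫ * ⟪nrm g, G'⟫ ≤ r ^ 2 * (1 / 2 + h ^ 2) := by
    rw [e2]
    nlinarith
  rw [e1]
  have h7 : 0 < 1 - r := by linarith
  have h8 : (1 - r) ^ 2 ≤ ⟪nrm g, G⟫ * ⟪nrm g, G'⟫ := by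
    rw [sq]
    exact mul_le_mul h2 h3 h7.le hd.le
  exact div_le_div₀ (by positivity) e7 (by positivity) h8

theorem Tri.mom_le (H : Tri a g G G' r) (hr : 0 < r) (hr1 : r < 1)
    (hh : ‖nrm g - a‖ ≤ h) :
    mom (nrm g) (prj g G) (prj g G') ≤
      Real.sqrt 3 / 24 * r ^ 4 * (5 / 2 + h ^ 2) / (1 - r) ^ 4 := by
  have h7 : 0 < 1 - r := by linarith
  have e1 := H.det_le hr hr1
  have e2 := H.norm_prj_sub hr hr1
  have e3 := H.norm_prj_sub' hr hr1
  have e4 := H.inner_prj_sub hr hr1 hh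
  have e0 := H.det_pos hr hr1
  rw [mom]
  have e5 : ‖prj g G - nrm g‖ ^ 2 + ‖prj g G' - nrm g‖ ^ 2 + ⟪prj g G - nrm g, prj g G' - nrm g⟫
      ≤ r ^ 2 * (5 / 2 + h ^ 2) / (1 - r) ^ 2 := by
    have : r ^ 2 * (5 / 2 + h ^ 2) / (1 - r) ^ 2 = r ^ 2 / (1 - r) ^ 2 + r ^ 2 / (1 - r) ^ 2 +
      r ^ 2 * (1 / 2 + h ^ 2) / (1 - r) ^ 2 := by ring
    rw [this]
    linarith
  calc det3 (nrm g) (prj g G) (prj g G') / 12 * (‖prj g G - nrm g‖ ^ 2 +
        ‖prj g G' - nrm g‖ ^ 2 + ⟪prj g G - nrm g, prj g G' - nrm g⟫)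
      ≤ det3 (nrm g) (prj g G) (prj g G') / 12 * (r ^ 2 * (5 / 2 + h ^ 2) / (1 - r) ^ 2) :=
        mul_le_mul_of_nonneg_left e5 (by positivity)
    _ ≤ (Real.sqrt 3 / 2 * r ^ 2 / (1 - r) ^ 2) / 12 *
        (r ^ 2 * (5 / 2 + h ^ 2) / (1 - r) ^ 2) :=
        mul_le_mul_of_nonneg_right (by linarith) (by positivity)
    _ = Real.sqrt 3 / 24 * r ^ 4 * (5 / 2 + h ^ 2) / (1 - r) ^ 4 := by
        field_simp
        ring

/-- Points of the cone over the planar triangle below the tangent plane. -/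
theorem Tri.mem_csx (H : Tri a g G G' r) (hr : 0 < r) (hr1 : r < 1) {β γ s : ℝ}
    (hβ : 0 ≤ β) (hγ : 0 ≤ γ) (hβγ : β + γ ≤ 1) (hs : 0 ≤ s) {x : E3}
    (hx : x = s • (g + β • (G - g) + γ • (G' - g))) (hx1 : ⟪nrm g, x⟫ ≤ 1) :
    x ∈ csx (nrm g) (prj g G) (prj g G') := by
  have h1 := H.one_le_norm
  have h2 := H.inner_lower hr
  have h3 := H.inner_lower' hr
  have hd : 0 < ⟪nrm g, G⟫ := by linarith
  have hd' : 0 < ⟪nrm g, G'⟫ := by linarith
  have hg0 : 0 < ‖g‖ := by linarith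
  have e1 : x = (s * (1 - β - γ) * ‖g‖) • nrm g + (s * β * ⟪nrm g, G⟫) • prj g G +
      (s * γ * ⟪nrm g, G'⟫) • prj g G' := by
    have k1 : (s * (1 - β - γ) * ‖g‖) • nrm g = (s * (1 - β - γ)) • g := by
      rw [nrm, smul_smul]
      congr 1
      field_simp
    have k2 : (s * β * ⟪nrm g, G⟫) • prj g G = (s * β) • G := by
      rw [prj, smul_smul]
      congr 1
      field_simp
    have k3 : (s * γ * ⟪nrm g, G'⟫) • prj g G' = (s * γ) • G' := by
      rw [prj, smul_smul]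
      congr 1
      field_simp
    rw [k1, k2, k3, hx]
    module
  refine ⟨s * (1 - β - γ) * ‖g‖, s * β * ⟪nrm g, G⟫, s * γ * ⟪nrm g, G'⟫, ?_, ?_, ?_, ?_, e1⟩
  · have : 0 ≤ 1 - β - γ := by linarith
    positivity
  · positivity
  · positivity
  · have k4 : ⟪nrm g, x⟫ = s * (1 - β - γ) * ‖g‖ + s * β * ⟪nrm g, G⟫ + s * γ * ⟪nrm g, G'⟫ := by
      conv_lhs => rw [e1]
      rw [inner_add_right, inner_add_right, real_inner_smul_right, real_inner_smul_right,
        real_inner_smul_right, H.inner_prj hr hr1, H.inner_prj' hr hr1,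
        real_inner_self_eq_norm_sq, H.norm_nrm]
      ring
    rw [← k4]
    exact hx1

/-! ### the planar lattice in a chart -/

/-- An oriented orthonormal frame. -/
structure Frm (a b c : E3) : Prop where
  aa : ⟪a, a⟫ = 1
  bb : ⟪b, b⟫ = 1
  cc : ⟪c, c⟫ = 1
  ab : ⟪a, b⟫ = 0
  ac : ⟪a, c⟫ = 0
  bc : ⟪b, c⟫ = 0
  det : det3 a b c = 1

theorem exists_frm {a : E3} (ha : ‖a‖ = 1) : ∃ b c, Frm a b c := by
  have hex : ∃ b : E3, ⟪b, b⟫ = 1 ∧ ⟪a, b⟫ = 0 := by
    by_cases h : a 0 = 0 ∧ a 1 = 0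
    · refine ⟨!₂[1, 0, 0], ?_, ?_⟩
      · rw [inner3]; simp
      · rw [inner3]; simp [h.1]
    · have hpos : 0 < a 0 ^ 2 + a 1 ^ 2 := by
        by_contra h2
        push Not at h2
        have h3 : a 0 ^ 2 = 0 := by nlinarith [sq_nonneg (a 0), sq_nonneg (a 1)]
        have h4 : a 1 ^ 2 = 0 := by nlinarith [sq_nonneg (a 0), sq_nonneg (a 1)]
        exact h ⟨by simpa using h3, by simpa using h4⟩
      have hs : 0 < Real.sqrt (a 0 ^ 2 + a 1 ^ 2) := Real.sqrt_pos.mpr hpos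
      have hsq := Real.sq_sqrt hpos.le
      refine ⟨!₂[-(a 1) / Real.sqrt (a 0 ^ 2 + a 1 ^ 2), a 0 / Real.sqrt (a 0 ^ 2 + a 1 ^ 2), 0],
        ?_, ?_⟩
      · rw [inner3]; simp
        rw [div_mul_div_comm, div_mul_div_comm, ← sq (Real.sqrt _), hsq]
        field_simp
        ring
      · rw [inner3]; simp
        field_simp
        ring
  obtain ⟨b, hb, hab⟩ := hex
  have haa : ⟪a, a⟫ = 1 := by rw [real_inner_self_eq_norm_sq, ha]; norm_num
  have hnb : ‖b‖ = 1 := by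
    have : ‖b‖ ^ 2 = 1 := by rw [← real_inner_self_eq_norm_sq, hb]
    have h0 := norm_nonneg b
    nlinarith
  have hcc : ⟪cr a b, cr a b⟫ = 1 := by
    rw [real_inner_self_eq_norm_sq, normsq_cr, ha, hnb, hab]; norm_num
  refine ⟨b, cr a b, haa, hb, hcc, hab, ?_, ?_, ?_⟩
  · rw [inner_cr_right]; simp [det3]; ring
  · rw [inner_cr_right]; simp [det3]; ring
  · have : det3 a b (cr a b) = ⟪cr a b, cr a b⟫ := by
      rw [inner_cr_left]
    rw [this, hcc]

/-- The point with triangular coordinates `(x, y)` in the plane tangent at `a`. -/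
def lat (a b c : E3) (r x y : ℝ) : E3 :=
  a + (r * (x + y / 2)) • b + (r * (Real.sqrt 3 / 2 * y)) • c

section
variable {a b c : E3} (F : Frm a b c) (r : ℝ)
include F

theorem Frm.ba : ⟪b, a⟫ = 0 := by rw [real_inner_comm]; exact F.ab
theorem Frm.ca : ⟪c, a⟫ = 0 := by rw [real_inner_comm]; exact F.ac
theorem Frm.cb : ⟪c, b⟫ = 0 := by rw [real_inner_comm]; exact F.bc

theorem Frm.norm_a : ‖a‖ = 1 := by
  have h := F.aa
  rw [real_inner_self_eq_norm_sq] at h
  have h0 := norm_nonneg a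
  nlinarith

theorem inner_a_lat (x y : ℝ) : ⟪a, lat a b c r x y⟫ = 1 := by
  rw [lat, inner_add_right, inner_add_right, real_inner_smul_right, real_inner_smul_right,
    F.aa, F.ab, F.ac]
  ring

theorem inner_b_lat (x y : ℝ) : ⟪b, lat a b c r x y⟫ = r * (x + y / 2) := by
  rw [lat, inner_add_right, inner_add_right, real_inner_smul_right, real_inner_smul_right,
    F.ba, F.bb, F.bc]
  ring

theorem inner_c_lat (x y : ℝ) : ⟪c, lat a b c r x y⟫ = r * (Real.sqrt 3 / 2 * y) := by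
  rw [lat, inner_add_right, inner_add_right, real_inner_smul_right, real_inner_smul_right,
    F.ca, F.cb, F.cc]
  ring

omit F in
theorem lat_sub (x y x' y' : ℝ) : lat a b c r x y - lat a b c r x' y' =
    (r * ((x - x') + (y - y') / 2)) • b + (r * (Real.sqrt 3 / 2 * (y - y'))) • c := by
  unfold lat
  module

theorem inner_lat_sub (x y x' y' x₀ y₀ : ℝ) :
    ⟪lat a b c r x y - lat a b c r x₀ y₀, lat a b c r x' y' - lat a b c r x₀ y₀⟫ =
      r ^ 2 * ((x - x₀) * (x' - x₀) + ((x - x₀) * (y' - y₀) + (y - y₀) * (x' - x₀)) / 2 +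
        (y - y₀) * (y' - y₀)) := by
  have h3 : Real.sqrt 3 ^ 2 = 3 := Real.sq_sqrt (by norm_num)
  rw [lat_sub, lat_sub]
  simp only [inner_add_left, inner_add_right, real_inner_smul_left, real_inner_smul_right,
    F.bb, F.bc, F.cb, F.cc]
  linear_combination (r ^ 2 * (y - y₀) * (y' - y₀) / 4) * h3

theorem normsq_lat_sub (x y x₀ y₀ : ℝ) :
    ‖lat a b c r x y - lat a b c r x₀ y₀‖ ^ 2 =
      r ^ 2 * ((x - x₀) ^ 2 + (x - x₀) * (y - y₀) + (y - y₀) ^ 2) := by
  rw [← real_inner_self_eq_norm_sq, inner_lat_sub F]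
  ring

theorem det_lat (x₀ y₀ x₁ y₁ x₂ y₂ : ℝ) :
    det3 (lat a b c r x₀ y₀) (lat a b c r x₁ y₁) (lat a b c r x₂ y₂) =
      Real.sqrt 3 / 2 * r ^ 2 * ((x₁ - x₀) * (y₂ - y₀) - (y₁ - y₀) * (x₂ - x₀)) := by
  have h := F.det
  have e : det3 (lat a b c r x₀ y₀) (lat a b c r x₁ y₁) (lat a b c r x₂ y₂) =
      det3 a b c * (Real.sqrt 3 / 2 * r ^ 2 * ((x₁ - x₀) * (y₂ - y₀) - (y₁ - y₀) * (x₂ - x₀))) := by
    simp only [det3, lat, PiLp.add_apply, PiLp.smul_apply, smul_eq_mul]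
    ring
  rw [e, h, one_mul]

theorem exists_lat {r : ℝ} (hr : r ≠ 0) {z : E3} (hz : ⟪a, z⟫ = 1) :
    ∃ x y : ℝ, z = lat a b c r x y := by
  have h3 : Real.sqrt 3 ≠ 0 := by positivity
  set y : ℝ := ⟪c, z⟫ / (r * (Real.sqrt 3 / 2)) with hy
  set x : ℝ := ⟪b, z⟫ / r - y / 2 with hx
  refine ⟨x, y, ?_⟩
  -- a vector orthogonal to the frame vanishes
  have key : ∀ v : E3, ⟪a, v⟫ = 0 → ⟪b, v⟫ = 0 → ⟪c, v⟫ = 0 → v = 0 := by
    intro v ha hb hc
    rw [inner3] at ha hb hc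
    have hd := F.det
    simp only [det3] at hd
    have h0 : v 0 = 0 := by
      linear_combination (-(v 0)) * hd + (b 1 * c 2 - b 2 * c 1) * ha +
        (c 1 * a 2 - c 2 * a 1) * hb + (a 1 * b 2 - a 2 * b 1) * hc
    have h1 : v 1 = 0 := by
      linear_combination (-(v 1)) * hd + (b 2 * c 0 - b 0 * c 2) * ha +
        (c 2 * a 0 - c 0 * a 2) * hb + (a 2 * b 0 - a 0 * b 2) * hc
    have h2 : v 2 = 0 := by
      linear_combination (-(v 2)) * hd + (b 0 * c 1 - b 1 * c 0) * ha +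
        (c 0 * a 1 - c 1 * a 0) * hb + (a 0 * b 1 - a 1 * b 0) * hc
    ext i
    fin_cases i
    · exact h0
    · exact h1
    · exact h2
  have := key (z - lat a b c r x y) ?_ ?_ ?_
  · exact sub_eq_zero.mp this
  · rw [inner_sub_right, hz, inner_a_lat F]; ring
  · rw [inner_sub_right, inner_b_lat F, hx]
    field_simp
    ring
  · rw [inner_sub_right, inner_c_lat F, hy]
    field_simp
    ring

end

/-- The six directions of the triangular lattice. -/
def dr : ℕ → ℤ × ℤ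
  | 0 => (1, 0)
  | 1 => (0, 1)
  | 2 => (-1, 1)
  | 3 => (-1, 0)
  | 4 => (0, -1)
  | 5 => (1, -1)
  | _ => (1, 0)

/-- Every point of the plane is in a hexagon around a point of the sublattice of index 3. -/
theorem exists_cell (X Y : ℝ) : ∃ m n : ℤ, ∃ k < 6, ∃ β γ : ℝ, 0 ≤ β ∧ 0 ≤ γ ∧ β + γ ≤ 1 ∧
    X = (m - n : ℤ) + β * (dr k).1 + γ * (dr (k + 1)).1 ∧
    Y = (m + 2 * n : ℤ) + β * (dr k).2 + γ * (dr (k + 1)).2 := by
  obtain ⟨p, α, hα0, hα1, hX⟩ : ∃ (p : ℤ) (α : ℝ), 0 ≤ α ∧ α < 1 ∧ X = p + α :=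
    ⟨⌊X⌋, Int.fract X, Int.fract_nonneg X, Int.fract_lt_one X, (Int.floor_add_fract X).symm⟩
  obtain ⟨q, β, hβ0, hβ1, hY⟩ : ∃ (q : ℤ) (β : ℝ), 0 ≤ β ∧ β < 1 ∧ Y = q + β :=
    ⟨⌊Y⌋, Int.fract Y, Int.fract_nonneg Y, Int.fract_lt_one Y, (Int.floor_add_fract Y).symm⟩
  have hcen : ∀ x y : ℤ, (x - y) % 3 = 0 → ∃ m n : ℤ, m - n = x ∧ m + 2 * n = y := by
    intro x y hxy
    refine ⟨x + (y - x) / 3, (y - x) / 3, by ring, ?_⟩
    omega
  have hmod : (p - q) % 3 = 0 ∨ (p - q) % 3 = 1 ∨ (p - q) % 3 = 2 := by omega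
  by_cases hs : α + β ≤ 1
  · rcases hmod with h | h | h
    · obtain ⟨m, n, h1, h2⟩ := hcen p q h
      refine ⟨m, n, 0, by norm_num, α, β, hα0, hβ0, hs, ?_, ?_⟩
      · rw [h1, hX]; simp [dr]
      · rw [h2, hY]; simp [dr]
    · obtain ⟨m, n, h1, h2⟩ := hcen p (q + 1) (by omega)
      refine ⟨m, n, 4, by norm_num, 1 - α - β, α, by linarith, hα0, by linarith, ?_, ?_⟩
      · rw [h1, hX]; simp [dr]
      · rw [h2, hY]; simp [dr]; ring
    · obtain ⟨m, n, h1, h2⟩ := hcen (p + 1) q (by omega)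
      refine ⟨m, n, 2, by norm_num, β, 1 - α - β, hβ0, by linarith, by linarith, ?_, ?_⟩
      · rw [h1, hX]; simp [dr]; ring
      · rw [h2, hY]; simp [dr]
  · push Not at hs
    rcases hmod with h | h | h
    · obtain ⟨m, n, h1, h2⟩ := hcen (p + 1) (q + 1) (by omega)
      refine ⟨m, n, 3, by norm_num, 1 - α, 1 - β, by linarith, by linarith, by linarith, ?_, ?_⟩
      · rw [h1, hX]; simp [dr]
      · rw [h2, hY]; simp [dr]
    · obtain ⟨m, n, h1, h2⟩ := hcen p (q + 1) (by omega)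
      refine ⟨m, n, 5, by norm_num, 1 - β, α + β - 1, by linarith, by linarith, by linarith,
        ?_, ?_⟩
      · rw [h1, hX]; simp [dr]; ring
      · rw [h2, hY]; simp [dr]
    · obtain ⟨m, n, h1, h2⟩ := hcen (p + 1) q (by omega)
      refine ⟨m, n, 1, by norm_num, α + β - 1, 1 - α, by linarith, by linarith, by linarith,
        ?_, ?_⟩
      · rw [h1, hX]; simp [dr]
      · rw [h2, hY]; simp [dr]; ring

/-- Volume in the unit ball, seen from directions. -/
def mdir : Measure E3 := Measure.map nrm (volume.restrict (closedBall 0 1))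

theorem mdir_apply {U : Set E3} (hU : MeasurableSet U) :
    mdir U = volume (nrm ⁻¹' U ∩ closedBall 0 1) := by
  rw [mdir, Measure.map_apply measurable_nrm hU,
    Measure.restrict_apply (measurable_nrm hU)]

theorem mdir_univ : mdir univ = ENNReal.ofReal (4 * Real.pi / 3) := by
  rw [mdir_apply MeasurableSet.univ, preimage_univ, univ_inter,
    EuclideanSpace.volume_closedBall_fin_three]
  rw [ENNReal.ofReal_one, one_pow, one_mul]
  congr 1
  ring

instance : IsFiniteMeasure mdir := ⟨by rw [mdir_univ]; exact ENNReal.ofReal_lt_top⟩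

/-- Scaling. -/
theorem volume_cone {U : Set E3} (hU : MeasurableSet U) {ρ : ℝ} (hρ : 0 < ρ) :
    volume (nrm ⁻¹' U ∩ closedBall 0 ρ) = ENNReal.ofReal (ρ ^ 3) * mdir U := by
  have e : nrm ⁻¹' U ∩ closedBall 0 ρ = ρ • (nrm ⁻¹' U ∩ closedBall 0 1) := by
    ext x
    rw [mem_smul_set_iff_inv_smul_mem₀ hρ.ne']
    simp only [mem_inter_iff, mem_preimage, mem_closedBall, dist_zero_right]
    rw [nrm_smul (inv_pos.mpr hρ), norm_smul, norm_inv, Real.norm_of_nonneg hρ.le,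
      inv_mul_le_iff₀ hρ, mul_one]
  rw [e, Measure.addHaar_smul, mdir_apply hU]
  congr 2
  rw [finrank_euclideanSpace, Fintype.card_fin, abs_of_pos (by positivity)]

/-- A fine open cover of the sphere of small total measure. -/
theorem exists_cover {h η : ℝ} (hh : 0 < h) (hη : 0 < η) :
    ∃ (m : ℕ) (a : Fin m → E3) (U : Fin m → Set E3), (∀ i, ‖a i‖ = 1) ∧ (∀ i, IsOpen (U i)) ∧
      (∀ i, U i ⊆ ball (a i) h) ∧ sphere (0 : E3) 1 ⊆ ⋃ i, U i ∧
      ∑ i, mdir (U i) ≤ ENNReal.ofReal (4 * Real.pi / 3 + η) := by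
  obtain ⟨t, hts, htf, hcov⟩ := finite_cover_balls_of_compact (isCompact_sphere (0 : E3) 1) hh
  set T := htf.toFinset with hT
  obtain ⟨m, hm⟩ : ∃ m, T.card = m := ⟨_, rfl⟩
  have e : T ≃ Fin m := T.equivFinOfCardEq hm
  let a : Fin m → E3 := fun i => (e.symm i : E3)
  have ha : ∀ i, ‖a i‖ = 1 := by
    intro i
    have h1 : (a i) ∈ T := (e.symm i).2
    rw [hT, Set.Finite.mem_toFinset] at h1
    have := hts h1
    simpa using this
  have hcov' : sphere (0 : E3) 1 ⊆ ⋃ i, ball (a i) h := by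
    intro x hx
    have := hcov hx
    simp only [mem_iUnion] at this
    obtain ⟨y, hy, hxy⟩ := this
    rw [mem_iUnion]
    refine ⟨e ⟨y, htf.mem_toFinset.mpr hy⟩, ?_⟩
    simpa [a] using hxy
  let D : Fin m → Set E3 := disjointed (fun i => ball (a i) h)
  have hDm : ∀ i, MeasurableSet (D i) := by
    intro i
    simp only [D]
    rw [disjointed_apply, Finset.sup_set_eq_biUnion]
    exact measurableSet_ball.diff (Finset.measurableSet_biUnion _ fun j _ => measurableSet_ball)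
  have hDdisj : Pairwise (Function.onFun Disjoint D) := disjoint_disjointed _
  have hDunion : ⋃ i, D i = ⋃ i, ball (a i) h := iUnion_disjointed
  have hDsub : ∀ i, D i ⊆ ball (a i) h := fun i => disjointed_subset _ i
  have hsum : ∑ i, mdir (D i) ≤ ENNReal.ofReal (4 * Real.pi / 3) := by
    rw [← mdir_univ, ← tsum_fintype (L := .unconditional _), ← measure_iUnion hDdisj hDm]
    exact measure_mono (subset_univ _)
  have hη' : ENNReal.ofReal (η / (m + 1)) ≠ 0 := by
    rw [Ne, ENNReal.ofReal_eq_zero]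
    push Not
    positivity
  choose V hDV hVo hVm using fun i => (D i).exists_isOpen_le_add mdir hη'
  refine ⟨m, a, fun i => V i ∩ ball (a i) h, ha, fun i => (hVo i).inter isOpen_ball,
    fun i => inter_subset_right, ?_, ?_⟩
  · refine hcov'.trans ?_
    rw [← hDunion]
    exact iUnion_mono fun i => subset_inter (hDV i) (hDsub i)
  · calc ∑ i, mdir (V i ∩ ball (a i) h) ≤ ∑ i, (mdir (D i) + ENNReal.ofReal (η / (m + 1))) :=
          Finset.sum_le_sum fun i _ => (measure_mono inter_subset_left).trans (hVm i)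
      _ = ∑ i, mdir (D i) + m * ENNReal.ofReal (η / (m + 1)) := by
          rw [Finset.sum_add_distrib]; simp
      _ ≤ ENNReal.ofReal (4 * Real.pi / 3) + ENNReal.ofReal η := by
          refine add_le_add hsum ?_
          rw [← ENNReal.ofReal_natCast, ← ENNReal.ofReal_mul (by positivity)]
          apply ENNReal.ofReal_le_ofReal
          have : (m : ℝ) * (η / (m + 1)) = η * (m / (m + 1)) := by ring
          rw [this]
          have h1 : (m : ℝ) / (m + 1) ≤ 1 := by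
            rw [div_le_one (by positivity)]; linarith
          nlinarith
      _ = ENNReal.ofReal (4 * Real.pi / 3 + η) := by
          rw [ENNReal.ofReal_add (by positivity) hη.le]


/-! ### cells and counting -/

/-- Points of the plane in coordinates of the sublattice of index 3. -/
def slat (a b c : E3) (r M N : ℝ) : E3 := lat a b c r (M - N) (M + 2 * N)

section
variable {a b c : E3} (F : Frm a b c) (r : ℝ)
include F

theorem inner_a_slat (M N : ℝ) : ⟪a, slat a b c r M N⟫ = 1 := inner_a_lat F r _ _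

theorem normsq_slat_sub (M N M₀ N₀ : ℝ) :
    ‖slat a b c r M N - slat a b c r M₀ N₀‖ ^ 2 =
      3 * r ^ 2 * ((M - M₀) ^ 2 + (M - M₀) * (N - N₀) + (N - N₀) ^ 2) := by
  rw [slat, slat, normsq_lat_sub F]
  ring

theorem det_slat (M₀ N₀ M₁ N₁ M₂ N₂ : ℝ) :
    det3 (slat a b c r M₀ N₀) (slat a b c r M₁ N₁) (slat a b c r M₂ N₂) =
      3 * Real.sqrt 3 / 2 * r ^ 2 * ((M₁ - M₀) * (N₂ - N₀) - (N₁ - N₀) * (M₂ - M₀)) := by
  rw [slat, slat, slat, det_lat F]
  ring

end

/-- The two triangles of a cell of the sublattice, as open simplices with apex `0`. -/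
def tri (a b c : E3) (r : ℝ) (m n : ℤ) : Bool → Set E3
  | false => osx (slat a b c r m n) (slat a b c r (m + 1) n) (slat a b c r m (n + 1))
  | true => osx (slat a b c r (m + 1) (n + 1)) (slat a b c r m (n + 1)) (slat a b c r (m + 1) n)

section
variable {a b c : E3} (F : Frm a b c) {r : ℝ} (hr : 0 < r)
include F hr

theorem isOpen_tri (m n : ℤ) (t : Bool) : IsOpen (tri a b c r m n t) := by
  cases t
  · apply isOpen_osx
    rw [det_slat F]
    have : 0 < Real.sqrt 3 := by positivity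
    have e : ((m : ℝ) + 1 - m) * ((n : ℝ) + 1 - n) - ((n : ℝ) - n) * ((m : ℝ) - m) = 1 := by ring
    rw [e]; positivity
  · apply isOpen_osx
    rw [det_slat F]
    have : 0 < Real.sqrt 3 := by positivity
    have e : ((m : ℝ) - (m + 1)) * ((n : ℝ) - (n + 1)) -
      ((n : ℝ) + 1 - (n + 1)) * ((m : ℝ) + 1 - (m + 1)) = 1 := by ring
    rw [e]; positivity

theorem volume_tri (m n : ℤ) (t : Bool) :
    volume (tri a b c r m n t) = ENNReal.ofReal (Real.sqrt 3 / 4 * r ^ 2) := by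
  cases t
  · have e : ((m : ℝ) + 1 - m) * ((n : ℝ) + 1 - n) - ((n : ℝ) - n) * ((m : ℝ) - m) = 1 := by ring
    have h3 : 0 < Real.sqrt 3 := by positivity
    rw [tri, volume_osx, det_slat F, e]
    · congr 1; ring
    · rw [det_slat F, e]; positivity
  · have e : ((m : ℝ) - (m + 1)) * ((n : ℝ) - (n + 1)) -
      ((n : ℝ) + 1 - (n + 1)) * ((m : ℝ) + 1 - (m + 1)) = 1 := by ring
    have h3 : 0 < Real.sqrt 3 := by positivity
    rw [tri, volume_osx, det_slat F, e]
    · congr 1; ring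
    · rw [det_slat F, e]; positivity

omit hr in
theorem inner_b_slat (M N : ℝ) : ⟪b, slat a b c r M N⟫ = r * (3 / 2 * M) := by
  rw [slat, inner_b_lat F]; ring

omit hr in
theorem inner_c_slat (M N : ℝ) : ⟪c, slat a b c r M N⟫ = r * (Real.sqrt 3 / 2 * (M + 2 * N)) := by
  rw [slat, inner_c_lat F]

/-- Coordinates of the points of a triangle. -/
theorem tri_coord {m n : ℤ} {t : Bool} {x : E3} (hx : x ∈ tri a b c r m n t) :
    0 < ⟪a, x⟫ ∧ m * ⟪a, x⟫ < 2 * ⟪b, x⟫ / (3 * r) ∧ 2 * ⟪b, x⟫ / (3 * r) < (m + 1) * ⟪a, x⟫ ∧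
      n * ⟪a, x⟫ < ⟪c, x⟫ / (r * Real.sqrt 3) - ⟪b, x⟫ / (3 * r) ∧
      ⟪c, x⟫ / (r * Real.sqrt 3) - ⟪b, x⟫ / (3 * r) < (n + 1) * ⟪a, x⟫ ∧
      (t = false → 2 * ⟪b, x⟫ / (3 * r) - m * ⟪a, x⟫ +
        (⟪c, x⟫ / (r * Real.sqrt 3) - ⟪b, x⟫ / (3 * r) - n * ⟪a, x⟫) < ⟪a, x⟫) ∧
      (t = true → ⟪a, x⟫ < 2 * ⟪b, x⟫ / (3 * r) - m * ⟪a, x⟫ +
        (⟪c, x⟫ / (r * Real.sqrt 3) - ⟪b, x⟫ / (3 * r) - n * ⟪a, x⟫)) := by
  have h3 : 0 < Real.sqrt 3 := by positivity
  cases t
  · obtain ⟨α, β, γ, h1, h2, h4, h5, rfl⟩ := hx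
    have ea : ⟪a, α • slat a b c r m n + β • slat a b c r (m + 1) n +
        γ • slat a b c r m (n + 1)⟫ = α + β + γ := by
      simp only [inner_add_right, real_inner_smul_right, inner_a_slat F]; ring
    have eb : 2 * ⟪b, α • slat a b c r m n + β • slat a b c r (m + 1) n +
        γ • slat a b c r m (n + 1)⟫ / (3 * r) = m * (α + β + γ) + β := by
      simp only [inner_add_right, real_inner_smul_right, inner_b_slat F]
      field_simp; ring
    have ec : ⟪c, α • slat a b c r m n + β • slat a b c r (m + 1) n +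
        γ • slat a b c r m (n + 1)⟫ / (r * Real.sqrt 3) -
        ⟪b, α • slat a b c r m n + β • slat a b c r (m + 1) n +
        γ • slat a b c r m (n + 1)⟫ / (3 * r) = n * (α + β + γ) + γ := by
      simp only [inner_add_right, real_inner_smul_right, inner_b_slat F, inner_c_slat F]
      field_simp; ring
    rw [ea, eb, ec]
    refine ⟨by linarith, by linarith, by nlinarith, by linarith, by nlinarith, ?_, ?_⟩
    · intro _; linarith
    · intro h; simp at h
  · obtain ⟨α, β, γ, h1, h2, h4, h5, rfl⟩ := hx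
    have ea : ⟪a, α • slat a b c r (m + 1) (n + 1) + β • slat a b c r m (n + 1) +
        γ • slat a b c r (m + 1) n⟫ = α + β + γ := by
      simp only [inner_add_right, real_inner_smul_right, inner_a_slat F]; ring
    have eb : 2 * ⟪b, α • slat a b c r (m + 1) (n + 1) + β • slat a b c r m (n + 1) +
        γ • slat a b c r (m + 1) n⟫ / (3 * r) = (m + 1) * (α + β + γ) - β := by
      simp only [inner_add_right, real_inner_smul_right, inner_b_slat F]
      field_simp; ring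
    have ec : ⟪c, α • slat a b c r (m + 1) (n + 1) + β • slat a b c r m (n + 1) +
        γ • slat a b c r (m + 1) n⟫ / (r * Real.sqrt 3) -
        ⟪b, α • slat a b c r (m + 1) (n + 1) + β • slat a b c r m (n + 1) +
        γ • slat a b c r (m + 1) n⟫ / (3 * r) = (n + 1) * (α + β + γ) - γ := by
      simp only [inner_add_right, real_inner_smul_right, inner_b_slat F, inner_c_slat F]
      field_simp; ring
    rw [ea, eb, ec]
    refine ⟨by linarith, by nlinarith, by linarith, by nlinarith, by linarith, ?_, ?_⟩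
    · intro h; simp at h
    · intro _; linarith

theorem tri_inj {m n m' n' : ℤ} {t t' : Bool} {x : E3} (hx : x ∈ tri a b c r m n t)
    (hx' : x ∈ tri a b c r m' n' t') : m = m' ∧ n = n' ∧ t = t' := by
  obtain ⟨h0, h1, h2, h3, h4, h5, h6⟩ := tri_coord F hr hx
  obtain ⟨-, h1', h2', h3', h4', h5', h6'⟩ := tri_coord F hr hx'
  have e1 : m = m' := by
    have k1 : (m : ℝ) < m' + 1 := lt_of_mul_lt_mul_right (h1.trans h2') h0.le
    have k2 : (m' : ℝ) < m + 1 := lt_of_mul_lt_mul_right (h1'.trans h2) h0.le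
    have k3 : m < m' + 1 := by exact_mod_cast k1
    have k4 : m' < m + 1 := by exact_mod_cast k2
    omega
  have e2 : n = n' := by
    have k1 : (n : ℝ) < n' + 1 := lt_of_mul_lt_mul_right (h3.trans h4') h0.le
    have k2 : (n' : ℝ) < n + 1 := lt_of_mul_lt_mul_right (h3'.trans h4) h0.le
    have k3 : n < n' + 1 := by exact_mod_cast k1
    have k4 : n' < n + 1 := by exact_mod_cast k2
    omega
  subst e1 e2
  refine ⟨rfl, rfl, ?_⟩
  cases t <;> cases t'
  · rfl
  · have := h5 rfl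
    have := h6' rfl
    linarith
  · have := h6 rfl
    have := h5' rfl
    linarith
  · rfl

/-- Counting cells by volume. -/
theorem count_cells {S : Set (ℤ × ℤ)} {W : Set E3} (hW : volume W ≠ ⊤)
    (hS : ∀ p ∈ S, ∀ t, tri a b c r p.1 p.2 t ⊆ W) :
    S.Finite ∧ (S.ncard : ℝ) * (Real.sqrt 3 / 2 * r ^ 2) ≤ (volume W).toReal := by
  have h3 : 0 < Real.sqrt 3 := by positivity
  have key : ∀ T : Finset (ℤ × ℤ), ↑T ⊆ S →
      (T.card : ℝ) * (Real.sqrt 3 / 2 * r ^ 2) ≤ (volume W).toReal := by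
    intro T hT
    have h1 : volume (⋃ q ∈ (T ×ˢ (Finset.univ : Finset Bool)),
        tri a b c r q.1.1 q.1.2 q.2) ≤ volume W := by
      apply measure_mono
      intro x hx
      simp only [mem_iUnion] at hx
      obtain ⟨q, hq, hx⟩ := hx
      exact hS q.1 (hT (Finset.mem_product.mp hq).1) q.2 hx
    rw [measure_biUnion_finset] at h1
    · rw [Finset.sum_congr rfl (fun q _ => volume_tri F hr q.1.1 q.1.2 q.2), Finset.sum_const,
        Finset.card_product] at h1
      simp only [Finset.card_univ, Fintype.card_bool] at h1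
      rw [nsmul_eq_mul, ← ENNReal.ofReal_natCast, ← ENNReal.ofReal_mul (by positivity)] at h1
      have h2 := (ENNReal.ofReal_le_iff_le_toReal hW).mp h1
      push_cast at h2
      linarith
    · intro q hq q' hq' hne
      rw [Function.onFun, Set.disjoint_left]
      intro x hx hx'
      obtain ⟨e1, e2, e3⟩ := tri_inj F hr hx hx'
      exact hne (Prod.ext (Prod.ext e1 e2) e3)
    · intro q hq
      exact (isOpen_tri F hr _ _ _).measurableSet
  have hfin : S.Finite := by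
    by_contra hinf
    obtain ⟨k, hk⟩ := exists_nat_gt ((volume W).toReal / (Real.sqrt 3 / 2 * r ^ 2))
    obtain ⟨T, hTS, hTc⟩ := Set.Infinite.exists_subset_card_eq hinf k
    have := key T hTS
    rw [hTc] at this
    rw [div_lt_iff₀ (by positivity)] at hk
    linarith
  refine ⟨hfin, ?_⟩
  have := key hfin.toFinset (by simp)
  rwa [← Set.ncard_eq_toFinset_card S hfin] at this

/-- The triangles of a cell are close to the centre. -/
theorem tri_subset {m n : ℤ} {t : Bool} {U : Set E3} {h l : ℝ} (hh0 : 0 < h) (hh : h < 1)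
    (hU : U ⊆ ball a h) (hl : 6 * r < l) (hb : ball (nrm (slat a b c r m n)) l ⊆ U) :
    tri a b c r m n t ⊆ nrm ⁻¹' U ∩ closedBall 0 (1 / (1 - h ^ 2 / 2)) := by
  intro x hx
  have hρ : 0 < 1 - h ^ 2 / 2 := by nlinarith
  have hx0 : 0 < ⟪a, x⟫ := (tri_coord F hr hx).1
  have hx1 : ⟪a, x⟫ < 1 := by
    cases t
    · obtain ⟨α, β, γ, h1, h2, h4, h5, rfl⟩ := hx
      simp only [inner_add_right, real_inner_smul_right, inner_a_slat F]
      linarith
    · obtain ⟨α, β, γ, h1, h2, h4, h5, rfl⟩ := hx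
      simp only [inner_add_right, real_inner_smul_right, inner_a_slat F]
      linarith
  have hd : ‖x - ⟪a, x⟫ • slat a b c r m n‖ ≤ ⟪a, x⟫ * (3 * r) := by
    have hP : ∀ M N : ℝ, M = m ∨ M = m + 1 → N = n ∨ N = n + 1 →
        ‖slat a b c r M N - slat a b c r m n‖ ≤ 3 * r := by
      intro M N hM hN
      have h1 := normsq_slat_sub F r M N m n
      have h2 : ‖slat a b c r M N - slat a b c r m n‖ ^ 2 ≤ (3 * r) ^ 2 := by
        rw [h1]
        rcases hM with rfl | rfl <;> rcases hN with rfl | rfl <;> nlinarith [sq_nonneg r]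
      exact (pow_le_pow_iff_left₀ (norm_nonneg _) (by positivity) two_ne_zero).mp h2
    have hgen : ∀ (α β γ : ℝ) (P Q R g : E3), 0 < α → 0 < β → 0 < γ → ‖P - g‖ ≤ 3 * r →
        ‖Q - g‖ ≤ 3 * r → ‖R - g‖ ≤ 3 * r →
        ‖α • P + β • Q + γ • R - (α + β + γ) • g‖ ≤ (α + β + γ) * (3 * r) := by
      intro α β γ P Q R g hα hβ hγ h1 h2 h3
      have e : α • P + β • Q + γ • R - (α + β + γ) • g =
          α • (P - g) + β • (Q - g) + γ • (R - g) := by module
      rw [e]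
      refine (norm_add_le _ _).trans ?_
      have h4 := norm_add_le (α • (P - g)) (β • (Q - g))
      rw [norm_smul, norm_smul, Real.norm_of_nonneg hα.le, Real.norm_of_nonneg hβ.le] at h4
      rw [norm_smul, Real.norm_of_nonneg hγ.le]
      nlinarith
    cases t
    · obtain ⟨α, β, γ, h1, h2, h4, h5, rfl⟩ := hx
      have ea : ⟪a, α • slat a b c r m n + β • slat a b c r (m + 1) n +
          γ • slat a b c r m (n + 1)⟫ = α + β + γ := by
        simp only [inner_add_right, real_inner_smul_right, inner_a_slat F]; ring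
      rw [ea]
      exact hgen _ _ _ _ _ _ _ h1 h2 h4 (hP _ _ (Or.inl rfl) (Or.inl rfl))
        (hP _ _ (Or.inr rfl) (Or.inl rfl)) (hP _ _ (Or.inl rfl) (Or.inr rfl))
    · obtain ⟨α, β, γ, h1, h2, h4, h5, rfl⟩ := hx
      have ea : ⟪a, α • slat a b c r (m + 1) (n + 1) + β • slat a b c r m (n + 1) +
          γ • slat a b c r (m + 1) n⟫ = α + β + γ := by
        simp only [inner_add_right, real_inner_smul_right, inner_a_slat F]; ring
      rw [ea]
      exact hgen _ _ _ _ _ _ _ h1 h2 h4 (hP _ _ (Or.inr rfl) (Or.inr rfl))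
        (hP _ _ (Or.inl rfl) (Or.inr rfl)) (hP _ _ (Or.inr rfl) (Or.inl rfl))
  set s := ⟪a, x⟫ with hs
  have hz1 : ⟪a, s⁻¹ • x⟫ = 1 := by
    rw [real_inner_smul_right, ← hs]; field_simp
  have hge : ∀ z : E3, ⟪a, z⟫ = 1 → 1 ≤ ‖z‖ := by
    intro z hz
    have := real_inner_le_norm a z
    rw [hz, F.norm_a, one_mul] at this
    exact this
  have hzd : dist (s⁻¹ • x) (slat a b c r m n) ≤ 3 * r := by
    rw [dist_eq_norm]
    have e : s⁻¹ • x - slat a b c r m n = s⁻¹ • (x - s • slat a b c r m n) := by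
      rw [smul_sub, smul_smul, inv_mul_cancel₀ hx0.ne', one_smul]
    rw [e, norm_smul, norm_inv, Real.norm_of_nonneg hx0.le, inv_mul_le_iff₀ hx0]
    exact hd
  have hdir := dist_nrm_le (hge _ hz1) (hge _ (inner_a_slat F r m n))
  rw [nrm_smul (inv_pos.mpr hx0)] at hdir
  have hxU : nrm x ∈ U := by
    apply hb
    rw [mem_ball]
    linarith
  refine ⟨hxU, ?_⟩
  have hxn : x ≠ 0 := by
    rintro rfl
    simp [hs] at hx0
  have h1 : ‖nrm x - a‖ < h := by
    have := hU hxU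
    rwa [mem_ball, dist_eq_norm] at this
  have h2 : ‖nrm x - a‖ ^ 2 = 2 - 2 * ⟪a, nrm x⟫ := by
    rw [norm_sub_sq_real, norm_nrm hxn, F.norm_a, real_inner_comm]; ring
  have h3 : ‖nrm x - a‖ ^ 2 ≤ h ^ 2 := pow_le_pow_left₀ (norm_nonneg _) h1.le 2
  have h4 : s = ‖x‖ * ⟪a, nrm x⟫ := by
    rw [nrm, real_inner_smul_right, ← hs]
    have : ‖x‖ ≠ 0 := norm_ne_zero_iff.mpr hxn
    field_simp
  rw [mem_closedBall, dist_zero_right, le_div_iff₀ hρ]
  have h5 : 1 - h ^ 2 / 2 ≤ ⟪a, nrm x⟫ := by linarith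
  have h6 := mul_le_mul_of_nonneg_left h5 (norm_nonneg x)
  linarith

/-- Data of the triangles of a hexagon of the lattice. -/
theorem tri_data (x y : ℝ) {k : ℕ} (hk : k < 6) :
    Tri a (lat a b c r x y) (lat a b c r (x + (dr k).1) (y + (dr k).2))
      (lat a b c r (x + (dr (k + 1)).1) (y + (dr (k + 1)).2)) r := by
  refine ⟨F.norm_a, inner_a_lat F r _ _, ?_, ?_, ?_, ?_, ?_, ?_⟩
  · rw [inner_sub_right, inner_a_lat F, inner_a_lat F, sub_self]
  · rw [inner_sub_right, inner_a_lat F, inner_a_lat F, sub_self]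
  · rw [normsq_lat_sub F]
    interval_cases k <;> simp [dr]
  · rw [normsq_lat_sub F]
    interval_cases k <;> simp [dr]
  · rw [inner_lat_sub F]
    interval_cases k <;> simp [dr] <;> ring
  · rw [det_lat F]
    interval_cases k <;> simp [dr]

/-- Every direction deep inside the chart is over a hexagon of a selected centre. -/
theorem chart_cover {U : Set E3} {h l : ℝ} (hh : h < 1)
    (hU : U ⊆ ball a h) (hl : 4 * r < l) {ω : E3} (hω : ‖ω‖ = 1) (hb : ball ω l ⊆ U) :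
    ∃ m n : ℤ, ball (nrm (slat a b c r m n)) (l / 2) ⊆ U ∧ ∃ k < 6, ∃ s β γ : ℝ,
      0 < s ∧ 0 ≤ β ∧ 0 ≤ γ ∧ β + γ ≤ 1 ∧
      ω = s • (slat a b c r m n +
        β • (lat a b c r (m - n + (dr k).1) (m + 2 * n + (dr k).2) - slat a b c r m n) +
        γ • (lat a b c r (m - n + (dr (k + 1)).1) (m + 2 * n + (dr (k + 1)).2) -
          slat a b c r m n)) := by
  have hl0 : 0 < l := by linarith
  have hωU : ω ∈ U := hb (mem_ball_self hl0)
  have hωa : ‖ω - a‖ < h := by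
    have := hU hωU
    rwa [mem_ball, dist_eq_norm] at this
  have h2 : ‖ω - a‖ ^ 2 = 2 - 2 * ⟪a, ω⟫ := by
    rw [norm_sub_sq_real, hω, F.norm_a, real_inner_comm]; ring
  have hs : 0 < ⟪a, ω⟫ := by
    nlinarith [norm_nonneg (ω - a)]
  set s := ⟪a, ω⟫ with hsdef
  have hz : ⟪a, s⁻¹ • ω⟫ = 1 := by
    rw [real_inner_smul_right, ← hsdef]; field_simp
  obtain ⟨X, Y, hXY⟩ := exists_lat F hr.ne' hz
  obtain ⟨m, n, k, hk, β, γ, hβ, hγ, hβγ, hX, hY⟩ := exists_cell X Y
  have hform : s⁻¹ • ω = slat a b c r m n +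
        β • (lat a b c r (m - n + (dr k).1) (m + 2 * n + (dr k).2) - slat a b c r m n) +
        γ • (lat a b c r (m - n + (dr (k + 1)).1) (m + 2 * n + (dr (k + 1)).2) -
          slat a b c r m n) := by
    rw [hXY, slat, lat_sub, lat_sub, lat, lat, hX, hY]
    push_cast
    module
  refine ⟨m, n, ?_, k, hk, s, β, γ, hs, hβ, hγ, hβγ, ?_⟩
  · have T := tri_data F hr ((m : ℝ) - n) ((m : ℝ) + 2 * n) hk
    have hG : ‖lat a b c r (m - n + (dr k).1) (m + 2 * n + (dr k).2) - slat a b c r m n‖ = r :=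
      (pow_left_inj₀ (norm_nonneg _) hr.le two_ne_zero).mp T.nG
    have hG' : ‖lat a b c r (m - n + (dr (k + 1)).1) (m + 2 * n + (dr (k + 1)).2) -
        slat a b c r m n‖ = r :=
      (pow_left_inj₀ (norm_nonneg _) hr.le two_ne_zero).mp T.nG'
    have hzd : dist (s⁻¹ • ω) (slat a b c r m n) ≤ r := by
      rw [dist_eq_norm, hform]
      rw [add_assoc, add_sub_cancel_left]
      refine (norm_add_le _ _).trans ?_
      rw [norm_smul, norm_smul, hG, hG', Real.norm_of_nonneg hβ, Real.norm_of_nonneg hγ]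
      nlinarith
    have hge : ∀ z : E3, ⟪a, z⟫ = 1 → 1 ≤ ‖z‖ := by
      intro z hz
      have := real_inner_le_norm a z
      rw [hz, F.norm_a, one_mul] at this
      exact this
    have hdir := dist_nrm_le (hge _ hz) (hge _ (inner_a_slat F r m n))
    rw [nrm_smul (inv_pos.mpr hs)] at hdir
    have hωn : nrm ω = ω := by rw [nrm, hω, inv_one, one_smul]
    rw [hωn] at hdir
    refine Subset.trans ?_ hb
    apply ball_subset_ball'
    rw [dist_comm]
    linarith
  · rw [← hform, smul_smul, mul_inv_cancel₀ hs.ne', one_smul]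

end

/-! ### assembly -/

theorem exists_superset_unit {T₀ : Finset E3} (h : ∀ x ∈ T₀, ‖x‖ = 1) {f : ℕ} (hf0 : 0 < f)
    (hf : T₀.card ≤ f) : ∃ T : Finset E3, T₀ ⊆ T ∧ T.card = f ∧ ∀ x ∈ T, ‖x‖ = 1 := by
  have hrank : 1 < Module.rank ℝ E3 := by
    rw [← Module.finrank_eq_rank, finrank_euclideanSpace, Fintype.card_fin]
    norm_num
  have hinf : (sphere (0 : E3) 1).Infinite := by
    apply (isPreconnected_sphere hrank 0 1).infinite_of_nontrivial
    refine ⟨!₂[1, 0, 0], ?_, !₂[0, 1, 0], ?_, ?_⟩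
    · simp [EuclideanSpace.norm_eq, Fin.sum_univ_three]
    · simp [EuclideanSpace.norm_eq, Fin.sum_univ_three]
    · intro h
      have := congrArg (fun v : E3 => v 0) h
      simp at this
  obtain ⟨S, h1, h2, h3⟩ := hinf.exists_superset_ncard_eq (s := (T₀ : Set E3))
    (fun x hx => by simpa using h x hx) T₀.finite_toSet (k := f)
    (by rw [Set.ncard_coe_finset]; exact hf)
  have hfin : S.Finite := Set.finite_of_ncard_pos (by rw [h3]; exact hf0)
  refine ⟨hfin.toFinset, ?_, ?_, ?_⟩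
  · intro x hx
    rw [Set.Finite.mem_toFinset]
    exact h1 hx
  · rw [← Set.ncard_eq_toFinset_card S hfin, h3]
  · intro x hx
    rw [Set.Finite.mem_toFinset] at hx
    simpa using h2 hx

theorem exists_config {h η : ℝ} (hh0 : 0 < h) (hh : h < 1) (hη : 0 < η) :
    ∃ l : ℝ, 0 < l ∧ ∀ r : ℝ, 0 < r → r < 1 → 12 * r < l → ∀ f : ℕ,
      (1 / (1 - h ^ 2 / 2)) ^ 3 * (4 * Real.pi / 3 + η) ≤ f * (Real.sqrt 3 / 2 * r ^ 2) →
      ∃ w : Fin f → E3, IsConfig w ∧ vol (Poly w) ≤ 4 * Real.pi / 3 +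
        f * 3 * (Real.sqrt 3 / 24 * r ^ 4 * (5 / 2 + h ^ 2) / (1 - r) ^ 4) := by
  classical
  obtain ⟨m, a, U, ha, hUo, hUb, hUc, hUs⟩ := exists_cover hh0 hη
  obtain ⟨l, hl, hleb⟩ := lebesgue_number_lemma_of_metric (isCompact_sphere (0 : E3) 1) hUo hUc
  choose b c hF using fun i => exists_frm (ha i)
  refine ⟨l, hl, ?_⟩
  intro r hr hr1 hrl f hf
  have h3 : 0 < Real.sqrt 3 := by positivity
  have hρ0 : 0 < 1 - h ^ 2 / 2 := by nlinarith
  set ρ := 1 / (1 - h ^ 2 / 2) with hρdef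
  have hρ : 0 < ρ := by positivity
  have hfpos : 0 < f := by
    rcases Nat.eq_zero_or_pos f with h0 | h0
    · exfalso
      rw [h0] at hf
      have : 0 < ρ ^ 3 * (4 * Real.pi / 3 + η) := by positivity
      simp at hf
      linarith
    · exact h0
  let S : Fin m → Set (ℤ × ℤ) := fun i =>
    {p | ball (nrm (slat (a i) (b i) (c i) r p.1 p.2)) (l / 2) ⊆ U i}
  let W : Fin m → Set E3 := fun i => nrm ⁻¹' (U i) ∩ closedBall 0 ρ
  have hWv : ∀ i, volume (W i) = ENNReal.ofReal (ρ ^ 3) * mdir (U i) := fun i =>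
    volume_cone (hUo i).measurableSet hρ
  have hWf : ∀ i, volume (W i) ≠ ⊤ := by
    intro i
    rw [hWv i]
    exact ENNReal.mul_ne_top ENNReal.ofReal_ne_top (measure_ne_top _ _)
  have hcount : ∀ i, (S i).Finite ∧
      ((S i).ncard : ℝ) * (Real.sqrt 3 / 2 * r ^ 2) ≤ (volume (W i)).toReal := by
    intro i
    refine count_cells (hF i) hr (hWf i) ?_
    intro p hp t
    exact tri_subset (hF i) hr hh0 hh (hUb i) (by linarith) hp
  have hfin : ∀ i, (S i).Finite := fun i => (hcount i).1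
  let I : Finset (Σ _ : Fin m, ℤ × ℤ) := Finset.univ.sigma (fun i => (hfin i).toFinset)
  have hIcard : (I.card : ℝ) ≤ f := by
    have e1 : (I.card : ℝ) = ∑ i, ((S i).ncard : ℝ) := by
      simp only [I]
      rw [Finset.card_sigma]
      push_cast
      refine Finset.sum_congr rfl fun i _ => ?_
      rw [← Set.ncard_eq_toFinset_card (S i) (hfin i)]
    have e2 : (I.card : ℝ) * (Real.sqrt 3 / 2 * r ^ 2) ≤ ∑ i, (volume (W i)).toReal := by
      rw [e1, Finset.sum_mul]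
      exact Finset.sum_le_sum fun i _ => (hcount i).2
    have e3 : ∑ i, (volume (W i)).toReal ≤ ρ ^ 3 * (4 * Real.pi / 3 + η) := by
      have k1 : ∀ i, (volume (W i)).toReal = ρ ^ 3 * (mdir (U i)).toReal := by
        intro i
        rw [hWv i, ENNReal.toReal_mul, ENNReal.toReal_ofReal (by positivity)]
      rw [Finset.sum_congr rfl fun i _ => k1 i, ← Finset.mul_sum]
      apply mul_le_mul_of_nonneg_left _ (by positivity)
      rw [← ENNReal.toReal_sum (fun i _ => measure_ne_top _ _)]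
      exact ENNReal.toReal_le_of_le_ofReal (by positivity) hUs
    have e4 : (I.card : ℝ) * (Real.sqrt 3 / 2 * r ^ 2) ≤ f * (Real.sqrt 3 / 2 * r ^ 2) :=
      e2.trans (e3.trans hf)
    exact le_of_mul_le_mul_right e4 (by positivity)
  let g : (Σ _ : Fin m, ℤ × ℤ) → E3 := fun q =>
    slat (a q.1) (b q.1) (c q.1) r q.2.1 q.2.2
  let G : (Σ _ : Fin m, ℤ × ℤ) → ℕ → E3 := fun q k =>
    lat (a q.1) (b q.1) (c q.1) r (q.2.1 - q.2.2 + (dr k).1) (q.2.1 + 2 * q.2.2 + (dr k).2)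
  have hTri : ∀ q k, k < 6 → Tri (a q.1) (g q) (G q k) (G q (k + 1)) r := by
    intro q k hk
    exact tri_data (hF q.1) hr _ _ hk
  have hgn : ∀ q, ‖nrm (g q)‖ = 1 := fun q => (hTri q 0 (by norm_num)).norm_nrm
  obtain ⟨T, hT1, hT2, hT3⟩ := exists_superset_unit (T₀ := I.image fun q => nrm (g q))
    (by
      intro x hx
      obtain ⟨q, -, rfl⟩ := Finset.mem_image.mp hx
      exact hgn q) hfpos
    (Finset.card_image_le.trans (by exact_mod_cast hIcard))
  let e := T.equivFinOfCardEq hT2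
  let w : Fin f → E3 := fun j => (e.symm j : E3)
  have hwT : ∀ x ∈ T, ∃ j, w j = x := by
    intro x hx
    exact ⟨e ⟨x, hx⟩, by simp [w]⟩
  let Q : (Σ _ : Fin m, ℤ × ℤ) × ℕ → Set E3 := fun p =>
    csx (nrm (g p.1)) (prj (g p.1) (G p.1 p.2)) (prj (g p.1) (G p.1 (p.2 + 1)))
  let J : Finset ((Σ _ : Fin m, ℤ × ℤ) × ℕ) := I ×ˢ Finset.range 6
  have hcov : ∀ x ∈ Poly w, x ≠ 0 → x ∈ ⋃ p ∈ J, Q p := by
    intro x hx hx0
    have hω : ‖nrm x‖ = 1 := norm_nrm hx0
    obtain ⟨i, hi⟩ := hleb (nrm x) (by simpa using hω)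
    obtain ⟨p1, p2, hp, k, hk, s, β, γ, hs, hβ, hγ, hβγ, hform⟩ :=
      chart_cover (hF i) hr hh (hUb i) (by linarith) hω hi
    have hqI : (⟨i, (p1, p2)⟩ : Σ _ : Fin m, ℤ × ℤ) ∈ I := by
      simp only [I, Finset.mem_sigma, Finset.mem_univ, true_and, Set.Finite.mem_toFinset]
      exact hp
    simp only [mem_iUnion]
    refine ⟨(⟨i, (p1, p2)⟩, k), Finset.mem_product.mpr ⟨hqI, Finset.mem_range.mpr hk⟩, ?_⟩
    have hxn : 0 < ‖x‖ := norm_pos_iff.mpr hx0
    refine (hTri ⟨i, (p1, p2)⟩ k hk).mem_csx hr hr1 hβ hγ hβγ (s := ‖x‖ * s) (by positivity)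
      ?_ ?_
    · have : x = ‖x‖ • nrm x := by
        rw [nrm, smul_smul, mul_inv_cancel₀ hxn.ne', one_smul]
      conv_lhs => rw [this]
      rw [hform, smul_smul]
    · obtain ⟨j, hj⟩ := hwT (nrm (g ⟨i, (p1, p2)⟩))
        (hT1 (Finset.mem_image.mpr ⟨_, hqI, rfl⟩))
      rw [← hj]
      exact hx j
  have hbdd : Bornology.IsBounded (Poly w) := by
    have h1 : Bornology.IsBounded (⋃ p ∈ J, Q p) := by
      rw [Bornology.isBounded_biUnion_finset]
      intro p _
      exact (isCompact_csx _ _ _).isBounded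
    have h2 : Bornology.IsBounded ({0} ∪ ⋃ p ∈ J, Q p) :=
      Bornology.isBounded_singleton.union h1
    refine h2.subset ?_
    intro x hx
    by_cases hx0 : x = 0
    · left; exact hx0
    · right; exact hcov x hx hx0
  refine ⟨w, ⟨fun j => hT3 _ (e.symm j).2, ?_, hbdd⟩, ?_⟩
  · intro j j' hjj
    exact e.symm.injective (Subtype.ext hjj)
  · have hQf : ∀ p, volume (Q p \ closedBall 0 1) ≠ ⊤ := by
      intro p
      exact ((measure_mono sdiff_subset).trans_lt (isCompact_csx _ _ _).measure_lt_top).ne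
    have h1 : vol (Poly w) ≤ vol (closedBall 0 1) + vol (⋃ p ∈ J, (Q p \ closedBall 0 1)) := by
      have hsub : Poly w ⊆ closedBall 0 1 ∪ ⋃ p ∈ J, (Q p \ closedBall 0 1) := by
        intro x hx
        by_cases hxb : x ∈ closedBall (0 : E3) 1
        · left; exact hxb
        · right
          have hx0 : x ≠ 0 := by
            rintro rfl
            exact hxb (by simp)
          have := hcov x hx hx0
          simp only [mem_iUnion] at this ⊢
          obtain ⟨p, hp, hxp⟩ := this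
          exact ⟨p, hp, hxp, hxb⟩
      have hfin2 : volume (⋃ p ∈ J, (Q p \ closedBall 0 1)) ≠ ⊤ := by
        refine ((measure_biUnion_finset_le J _).trans_lt ?_).ne
        exact ENNReal.sum_lt_top.mpr fun p _ => lt_top_iff_ne_top.mpr (hQf p)
      have hfin3 : volume (closedBall (0 : E3) 1) ≠ ⊤ :=
        (isCompact_closedBall _ _).measure_lt_top.ne
      calc vol (Poly w) ≤ (volume (closedBall (0 : E3) 1 ∪
            ⋃ p ∈ J, (Q p \ closedBall 0 1))).toReal := by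
            apply ENNReal.toReal_mono _ (measure_mono hsub)
            exact ((measure_union_le _ _).trans_lt
              (ENNReal.add_lt_top.mpr ⟨lt_top_iff_ne_top.mpr hfin3,
                lt_top_iff_ne_top.mpr hfin2⟩)).ne
        _ ≤ (volume (closedBall (0 : E3) 1) +
            volume (⋃ p ∈ J, (Q p \ closedBall 0 1))).toReal := by
            apply ENNReal.toReal_mono _ (measure_union_le _ _)
            exact ENNReal.add_ne_top.mpr ⟨hfin3, hfin2⟩
        _ = _ := ENNReal.toReal_add hfin3 hfin2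
    have h2 : vol (closedBall (0 : E3) 1) = 4 * Real.pi / 3 := by
      rw [vol, EuclideanSpace.volume_closedBall_fin_three, ENNReal.ofReal_one, one_pow, one_mul,
        ENNReal.toReal_ofReal (by positivity)]
      ring
    have h4 : vol (⋃ p ∈ J, (Q p \ closedBall 0 1)) ≤ ∑ p ∈ J, vol (Q p \ closedBall 0 1) := by
      unfold vol
      rw [← ENNReal.toReal_sum (fun p _ => hQf p)]
      refine ENNReal.toReal_mono ?_ (measure_biUnion_finset_le J _)
      exact (ENNReal.sum_lt_top.mpr fun p _ => lt_top_iff_ne_top.mpr (hQf p)).ne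
    set M := Real.sqrt 3 / 24 * r ^ 4 * (5 / 2 + h ^ 2) / (1 - r) ^ 4 with hM
    have h1r : 0 < 1 - r := by linarith
    have hM0 : 0 ≤ M := by positivity
    have h5 : ∀ p ∈ J, vol (Q p \ closedBall 0 1) ≤ M / 2 := by
      intro p hp
      obtain ⟨hq, hk⟩ := Finset.mem_product.mp hp
      have hk6 := Finset.mem_range.mp hk
      have T1 := hTri p.1 p.2 hk6
      have k1 := two_vol_le_mom T1.norm_nrm (T1.inner_prj hr hr1) (T1.inner_prj' hr hr1)
        (T1.det_pos hr hr1)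
      have k2 : ‖nrm (g p.1) - a p.1.1‖ ≤ h := by
        have hq' : p.1.2 ∈ S p.1.1 := by
          have := hq
          simp only [I, Finset.mem_sigma, Finset.mem_univ, true_and,
            Set.Finite.mem_toFinset] at this
          exact this
        have : nrm (g p.1) ∈ ball (a p.1.1) h := hUb _ (hq' (mem_ball_self (by linarith)))
        rw [mem_ball, dist_eq_norm] at this
        exact this.le
      have k3 := T1.mom_le hr hr1 k2
      have k4 : 2 * vol (Q p \ closedBall 0 1) ≤ M := k1.trans k3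
      linarith
    have h6 : ∑ p ∈ J, vol (Q p \ closedBall 0 1) ≤ f * 3 * M := by
      calc ∑ p ∈ J, vol (Q p \ closedBall 0 1) ≤ ∑ p ∈ J, M / 2 := Finset.sum_le_sum h5
        _ = (I.card : ℝ) * 3 * M := by
            rw [Finset.sum_const, nsmul_eq_mul]
            simp only [J]
            rw [Finset.card_product, Finset.card_range]
            push_cast
            ring
        _ ≤ f * 3 * M := by
            apply mul_le_mul_of_nonneg_right _ hM0
            linarith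
    linarith

end Gold.UB

namespace Gold

open UB

/-- For every large `f` there is a configuration with `f` faces whose excess volume is at most
`(cHex + ε) / f`. -/
theorem upper_bound {ε : ℝ} (hε : 0 < ε) :
    ∃ F₀ : ℕ, ∀ f : ℕ, F₀ ≤ f → ∃ w : Fin f → E3, IsConfig w ∧
      vol (Poly w) ≤ 4 * Real.pi / 3 + (cHex + ε) / f := by
  have h3 : 0 < Real.sqrt 3 := by positivity
  have h3s : Real.sqrt 3 ^ 2 = 3 := Real.sq_sqrt (by norm_num)
  let K : ℝ → ℝ := fun t => (1 / (1 - t ^ 2 / 2)) ^ 3 * (4 * Real.pi / 3 + t) * (2 / Real.sqrt 3)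
  let Φ : ℝ → ℝ := fun t => Real.sqrt 3 / 8 * K t ^ 2 * (5 / 2 + t ^ 2) / (1 - t) ^ 4
  have hΦ0 : Φ 0 = cHex := by
    simp only [Φ, K, cHex]
    have h4 : Real.sqrt 3 ^ 4 = 9 := by
      have : Real.sqrt 3 ^ 4 = (Real.sqrt 3 ^ 2) ^ 2 := by ring
      rw [this, h3s]; norm_num
    norm_num
    field_simp
    nlinarith [h3s, h4]
  have hcont : ContinuousAt Φ 0 := by
    have hK : ContinuousAt K 0 := by
      simp only [K]
      have h1 : ContinuousAt (fun t : ℝ => 1 / (1 - t ^ 2 / 2)) 0 := by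
        apply ContinuousAt.div continuousAt_const
        · fun_prop
        · norm_num
      exact ((h1.pow 3).mul (by fun_prop)).mul continuousAt_const
    simp only [Φ]
    apply ContinuousAt.div
    · exact ((continuousAt_const.mul (hK.pow 2)).mul (by fun_prop))
    · fun_prop
    · norm_num
  have hev : ∀ᶠ t in nhds (0 : ℝ), Φ t < cHex + ε := by
    apply hcont.eventually_lt continuousAt_const
    rw [hΦ0]
    linarith
  obtain ⟨δ, hδ, hball⟩ := Metric.eventually_nhds_iff.mp hev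
  set t := min (δ / 2) (1 / 2) with ht
  have ht0 : 0 < t := by positivity
  have ht1 : t ≤ 1 / 2 := min_le_right _ _
  have htΦ : Φ t < cHex + ε := by
    apply hball
    rw [Real.dist_eq, sub_zero, abs_of_pos ht0]
    have : t ≤ δ / 2 := min_le_left _ _
    linarith
  obtain ⟨l, hl, hcfg⟩ := exists_config ht0 (by linarith : t < 1) ht0
  have hK0 : 0 < K t := by
    simp only [K]
    have : 0 < 1 - t ^ 2 / 2 := by nlinarith
    positivity
  -- choose F₀ with K / F₀ small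
  set σ := min t (l / 24) with hσ
  have hσ0 : 0 < σ := by positivity
  obtain ⟨N, hN⟩ := exists_nat_gt (K t / σ ^ 2)
  refine ⟨N + 1, ?_⟩
  intro f hf
  have hfN : (N : ℝ) + 1 ≤ f := by exact_mod_cast hf
  have hf0 : 0 < (f : ℝ) := by
    have : (0 : ℝ) ≤ N := Nat.cast_nonneg _
    linarith
  set r := Real.sqrt (K t / f) with hr
  have hr2 : r ^ 2 = K t / f := Real.sq_sqrt (by positivity)
  have hr0 : 0 < r := Real.sqrt_pos.mpr (by positivity)
  have hrσ : r ≤ σ := by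
    rw [hr, Real.sqrt_le_left hσ0.le, div_le_iff₀ hf0]
    rw [div_lt_iff₀ (by positivity)] at hN
    nlinarith [sq_nonneg σ, mul_le_mul_of_nonneg_right hfN (sq_nonneg σ)]
  have hrt : r ≤ t := hrσ.trans (min_le_left _ _)
  have hrl : r ≤ l / 24 := hrσ.trans (min_le_right _ _)
  obtain ⟨w, hw1, hw2⟩ := hcfg r hr0 (by linarith) (by linarith) f (by
    rw [hr2]
    simp only [K]
    have : 0 < 1 - t ^ 2 / 2 := by nlinarith
    apply le_of_eq
    field_simp)
  refine ⟨w, hw1, hw2.trans ?_⟩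
  have h1 : (f : ℝ) * 3 * (Real.sqrt 3 / 24 * r ^ 4 * (5 / 2 + t ^ 2) / (1 - r) ^ 4) ≤
      Φ t / f := by
    have e : r ^ 4 = (K t / f) ^ 2 := by rw [← hr2]; ring
    have h2 : 0 < 1 - t := by linarith
    have h4 : (1 - t) ^ 4 ≤ (1 - r) ^ 4 := pow_le_pow_left₀ h2.le (by linarith) 4
    calc (f : ℝ) * 3 * (Real.sqrt 3 / 24 * r ^ 4 * (5 / 2 + t ^ 2) / (1 - r) ^ 4)
        ≤ (f : ℝ) * 3 * (Real.sqrt 3 / 24 * r ^ 4 * (5 / 2 + t ^ 2) / (1 - t) ^ 4) := by
          apply mul_le_mul_of_nonneg_left _ (by positivity)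
          exact div_le_div_of_nonneg_left (by positivity) (by positivity) h4
      _ = Φ t / f := by
          rw [e]
          simp only [Φ]
          field_simp
          ring
  have h2 : Φ t / f ≤ (cHex + ε) / f := div_le_div_of_nonneg_right htΦ.le hf0.le
  linarith

end Gold
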