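import Pool.Agent.Lib.H81.Gold.Defs

/-!
# Vector algebra in `E3`
-/

noncomputable section

open MeasureTheory Metric Set
open scoped RealInnerProductSpace

namespace Gold

theorem inner3 (a b : E3) : ⟪a, b⟫ = a 0 * b 0 + a 1 * b 1 + a 2 * b 2 := by
  rw [PiLp.inner_apply, Fin.sum_univ_three]
  simp [mul_comm]

theorem normsq3 (a : E3) : ‖a‖ ^ 2 = a 0 ^ 2 + a 1 ^ 2 + a 2 ^ 2 := by
  rw [← real_inner_self_eq_norm_sq, inner3]; ring

@[simp] theorem cr_0 (a b : E3) : cr a b 0 = a 1 * b 2 - a 2 * b 1 := rfl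
@[simp] theorem cr_1 (a b : E3) : cr a b 1 = a 2 * b 0 - a 0 * b 2 := rfl
@[simp] theorem cr_2 (a b : E3) : cr a b 2 = a 0 * b 1 - a 1 * b 0 := rfl

theorem inner_cr_right (a b c : E3) : ⟪a, cr b c⟫ = det3 a b c := by
  rw [inner3]; simp [det3]

theorem inner_cr_left (a b c : E3) : ⟪cr a b, c⟫ = det3 a b c := by
  rw [inner3]; simp [det3]; ring

theorem det3_rot (a b c : E3) : det3 b c a = det3 a b c := by simp [det3]; ring

theorem det3_swap (a b c : E3) : det3 b a c = -det3 a b c := by simp [det3]; ring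

theorem det3_swap' (a b c : E3) : det3 a c b = -det3 a b c := by simp [det3]; ring

theorem normsq_cr (a b : E3) : ‖cr a b‖ ^ 2 = ‖a‖ ^ 2 * ‖b‖ ^ 2 - ⟪a, b⟫ ^ 2 := by
  rw [normsq3, normsq3, normsq3, inner3]; simp; ring

end Gold
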